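import Pool.Agent.W390.SD.Stm3

namespace Pool.Agent.W390.SD

theorem p_EX : S_add → S_zero → S_rkm → S_tcons → S_ocons → S_ctr → S_ctrnu → S_ctrt → S_tw →
    S_EX := by
  intro hadd hzero hrkm htcons hocons hctr hctrnu hctrt htw
  intro V _ _ H T b b' hH hg huq hT hTY hrk hTH hor htwH
  have hbb : b ≠ b' := by
    rintro rfl
    exact hg.1 (hH.diag b)
  have hTev : IsEv T := hT.1
  obtain ⟨hYev, -, -, hbY, -⟩ := hctr V H H b b' hbb hH hH
  have hsub : supp T ⊆ supp (ctr b b' H) := (htcons V _ T hYev hTY).2.1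
  have hbT : b ∉ supp T := fun h => hbY (hsub h)
  obtain ⟨htwI, -, -, hne, hctw, -⟩ := htw V b b' T hbb hT hbT hor
  have hTwev : IsEv (tw b b' T) := htwI.1
  -- ranks
  have hr1 : rk (ctr b b' H) (supp T) ≤ rk H (supp T) :=
    (hctrnu V H b b' hH hbb).2.2.2.2.2 hg (supp T) hbT
  have hr2 : rk H (supp T) ≤ rk H (supp T ∪ supp (tw b b' T)) :=
    (hrkm V H H hH hH).2.1 _ _ Finset.subset_union_left
  have horth : Orth T (tw b b' T) H :=
    huq H T (tw b b' T) hH le_rfl hT htwI hTH htwH hne.symm (hrk.trans (hr1.trans hr2))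
  obtain ⟨-, hsumT, hnusum, -⟩ := hocons V H T (tw b b' T) hH hTH htwH horth
  obtain ⟨-, h1, h2⟩ := hctrt V H (T + tw b b' T) b b' hH hsumT hg
  obtain ⟨-, hlin, hcT, -⟩ := hctr V T (tw b b' T) b b' hbb hTev hTwev
  have hTT := (hadd V T T).2.2.1
  have hzev : IsEv (0 : Gr V) := by
    rw [← hTT]
    exact (hadd V T T).2.1 hTev hTev
  have hctr0 : ctr b b' (T + tw b b' T) = 0 := by
    rw [hlin, hcT hbT, hctw, hTT]
  have hnu0 : nu (ctr b b' (T + tw b b' T)) = 0 := by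
    rw [hctr0]
    exact ((hzero V 0 hzev).1).2 rfl
  have hnT : nu T ≠ 0 := fun h => hT.2.1 (((hzero V T hTev).1).1 h)
  have hntw : nu (tw b b' T) ≠ 0 := fun h => htwI.2.1 (((hzero V _ hTwev).1).1 h)
  by_cases hc : (T + tw b b' T) b b' = 0
  · have := h2 hc
    omega
  · have := (h1 hc).2
    omega

end Pool.Agent.W390.SD
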