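import Pool.Agent.W390.SD.Stm2

/-!
# Project SD: first order lemma, ranks (L3)
-/

namespace Pool.Agent.W390.SD

open MvPolynomial Finset

namespace Aux_FL2

section lin

variable {K : Type*} [Field K] {V : Type*} [Fintype V] [DecidableEq V] {E : Type*}
  [AddCommGroup E] [Module K E]

omit [Fintype V] in
theorem sum_supported (Φ : (V → K) →ₗ[K] E) (J : Finset V) (c : V → K)
    (hc : ∀ v, v ∉ J → c v = 0) : Φ c = ∑ i : J, c i • Φ (Pi.single (i : V) 1) := by
  have h1 : c = ∑ v ∈ J, c v • (Pi.single v 1 : V → K) := by
    funext u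
    rw [Finset.sum_apply]
    by_cases hu : u ∈ J
    · rw [Finset.sum_eq_single u]
      · simp
      · intro b _ hb
        rw [Pi.smul_apply, Pi.single_eq_of_ne hb.symm, smul_zero]
      · intro h
        exact absurd hu h
    · rw [hc u hu]
      symm
      apply Finset.sum_eq_zero
      intro b hb
      have h2 : u ≠ b := by
        rintro rfl
        exact hu hb
      rw [Pi.smul_apply, Pi.single_eq_of_ne h2, smul_zero]
  have h2 : Φ c = ∑ v ∈ J, c v • Φ (Pi.single v 1) := by
    conv_lhs => rw [h1]
    rw [map_sum]
    refine Finset.sum_congr rfl fun v _ => map_smul _ _ _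
  rw [h2, ← Finset.sum_coe_sort J]

omit [Fintype V] in
theorem li_iff (Φ : (V → K) →ₗ[K] E) (J : Finset V) :
    LinearIndependent K (fun i : J => Φ (Pi.single (i : V) 1)) ↔
      ∀ c : V → K, (∀ v, v ∉ J → c v = 0) → Φ c = 0 → c = 0 := by
  rw [Fintype.linearIndependent_iff]
  constructor
  · intro h c hc h0
    rw [sum_supported Φ J c hc] at h0
    have h1 := h (fun i => c i) h0
    funext v
    by_cases hv : v ∈ J
    · exact h1 ⟨v, hv⟩
    · exact hc v hv
  · intro h g hg i
    have h1 := h (fun v => if hv : v ∈ J then g ⟨v, hv⟩ else 0) (fun v hv => dif_neg hv) (by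
      rw [sum_supported Φ J _ (fun v hv => dif_neg hv), ← hg]
      refine Finset.sum_congr rfl fun j _ => ?_
      rw [dif_pos j.2])
    have h2 := congrFun h1 i
    simp only [Pi.zero_apply] at h2
    rw [dif_pos i.2] at h2
    exact h2

variable [FiniteDimensional K E]

theorem rank_le (W : Submodule K (E × K)) :
    Module.finrank K W ≤ Module.finrank K (W.map (LinearMap.fst K E K)) + 1 := by
  have h1 := ((LinearMap.fst K E K).domRestrict W).finrank_range_add_finrank_ker
  rw [LinearMap.range_domRestrict] at h1
  have h2 : Module.finrank K (LinearMap.ker ((LinearMap.fst K E K).domRestrict W)) ≤ 1 := by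
    have hinj : Function.Injective (((LinearMap.snd K E K).comp W.subtype).comp
        (LinearMap.ker ((LinearMap.fst K E K).domRestrict W)).subtype) := by
      intro x y hxy
      have h4 : (x.1.1 : E × K).1 = 0 := x.2
      have h5 : (y.1.1 : E × K).1 = 0 := y.2
      have h6 : (x.1.1 : E × K).2 = (y.1.1 : E × K).2 := hxy
      apply Subtype.ext
      apply Subtype.ext
      exact Prod.ext (h4.trans h5.symm) h6
    have h3 := LinearMap.finrank_le_finrank_of_injective hinj
    rwa [Module.finrank_self] at h3
  omega

theorem rank_ge (W : Submodule K (E × K)) (t : K) (ht : t ≠ 0) (hW : ((0 : E), t) ∈ W) :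
    Module.finrank K (W.map (LinearMap.fst K E K)) + 1 ≤ Module.finrank K W := by
  have h1 := ((LinearMap.fst K E K).domRestrict W).finrank_range_add_finrank_ker
  rw [LinearMap.range_domRestrict] at h1
  have h2 : 0 < Module.finrank K (LinearMap.ker ((LinearMap.fst K E K).domRestrict W)) := by
    apply Nat.pos_of_ne_zero
    intro h0
    have h3 := Submodule.finrank_eq_zero.1 h0
    have h4 : (⟨((0 : E), t), hW⟩ : W) ∈
        LinearMap.ker ((LinearMap.fst K E K).domRestrict W) := rfl
    rw [h3, Submodule.mem_bot] at h4
    exact ht (congrArg (fun z : W => (z.1 : E × K).2) h4)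
  omega

end lin

section
variable {V : Type} [Fintype V] [DecidableEq V]

/-- the functional `δ` as a linear map -/
noncomputable def delL (H : Gr V) (b b' : V) : (V → F V) →ₗ[F V] F V where
  toFun := del H b b'
  map_add' := by
    intro c d
    unfold del
    rw [← Finset.sum_add_distrib]
    refine Finset.sum_congr rfl fun v _ => ?_
    simp only [Pi.add_apply]
    ring
  map_smul' := by
    intro a c
    unfold del
    rw [RingHom.id_apply, smul_eq_mul, Finset.mul_sum]
    refine Finset.sum_congr rfl fun v _ => ?_
    simp only [Pi.smul_apply, smul_eq_mul]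
    ring

/-- the Laplacian of `Y` and the functional `δ` of `H` -/
noncomputable def Ph (Y H : Gr V) (b b' : V) : (V → F V) →ₗ[F V] ((V → F V) × F V) :=
  (Lap Y).mulVecLin.prod (delL H b b')

theorem Ph_apply (Y H : Gr V) (b b' : V) (c : V → F V) :
    Ph Y H b b' c = ((Lap Y).mulVec c, del H b b' c) := rfl

/-- the span of the augmented columns in `C` -/
noncomputable def WW (Y H : Gr V) (b b' : V) (C : Finset V) : Submodule (F V) ((V → F V) × F V) :=
  Submodule.span (F V) ((fun j : V => Ph Y H b b' (Pi.single j 1)) '' (C : Set V))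

theorem map_WW (Y H : Gr V) (b b' : V) (C : Finset V) :
    (WW Y H b b' C).map (LinearMap.fst (F V) (V → F V) (F V)) =
      Submodule.span (F V) ((fun j : V => (Lap Y).col j) '' (C : Set V)) := by
  unfold WW
  rw [Submodule.map_span, Set.image_image]
  congr 1
  refine Set.image_congr fun j _ => ?_
  rw [Ph_apply, LinearMap.fst_apply, Matrix.mulVec_single_one]

theorem nuC_eq (Y H : Gr V) (b b' : V) (C : Finset V) :
    nuC Y C = Module.finrank (F V) ((WW Y H b b' C).map (LinearMap.fst (F V) (V → F V) (F V))) := by
  rw [map_WW]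
  rfl

theorem Ph_mem (Y H : Gr V) (b b' : V) (C : Finset V) (c : V → F V)
    (hc : ∀ v, v ∉ C → c v = 0) : Ph Y H b b' c ∈ WW Y H b b' C := by
  rw [sum_supported _ C c hc]
  refine Submodule.sum_mem _ fun i _ => Submodule.smul_mem _ _ (Submodule.subset_span ?_)
  exact ⟨i, i.2, rfl⟩

theorem finrank_WW (Y H : Gr V) (b b' : V) (J : Finset V)
    (h : LinearIndependent (F V) (fun i : J => Ph Y H b b' (Pi.single (i : V) 1))) :
    Module.finrank (F V) (WW Y H b b' J) = J.card := by
  have h1 := finrank_span_eq_card h
  rw [Fintype.card_coe] at h1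
  rw [← h1]
  unfold WW
  rw [Set.image_eq_range]
  rfl

theorem WW_mono (Y H : Gr V) (b b' : V) {J C : Finset V} (h : J ⊆ C) :
    Module.finrank (F V) (WW Y H b b' J) ≤ Module.finrank (F V) (WW Y H b b' C) :=
  Submodule.finrank_mono (Submodule.span_mono (Set.image_mono (by exact_mod_cast h)))

end

end Aux_FL2

open Aux_FL2 in
theorem p_FL2 : S_dd → S_rk → S_ind → S_basis → S_FLchar → S_FLP → S_ctr → S_ctrnu → S_add →
    S_zero → S_FL2 := by
  intro _ hrk _ hbasis hchar hFLP hctr _ _ _ V _ _ H b b' A hH hgood hbA hb'A
  have hbb : H b b' ≠ 0 := hgood.1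
  have hne : b ≠ b' := by
    rintro rfl
    exact hbb (hH.diag b)
  obtain ⟨hY, -, -, hbY, -, -, -⟩ := hctr V H H b b' hne hH hH
  set Y := ctr b b' H with hYdef
  set C : Finset V := (insert b (insert b' A))ᶜ with hC
  have hbC : b ∉ C := by simp [hC]
  have hb'C : b' ∉ C := by simp [hC]
  have hBc : (insert b' A)ᶜ = insert b C := by
    ext v
    simp only [hC, mem_compl, mem_insert, not_or]
    constructor
    · rintro ⟨h1, h2⟩
      by_cases h : v = b
      · exact Or.inl h
      · exact Or.inr ⟨h, h1, h2⟩
    · rintro (rfl | h)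
      · exact ⟨hne, hbA⟩
      · exact h.2
  have hYb : ∀ u, Y b u = 0 := by
    intro u
    by_contra h
    apply hbY
    unfold supp
    rw [mem_filter]
    exact ⟨mem_univ _, ⟨u, by unfold nbr; rw [mem_filter]; exact ⟨mem_univ _, h⟩⟩⟩
  have hcol : (Lap Y).col b = 0 := by
    funext u
    show Lap Y u b = 0
    unfold Lap
    by_cases hu : u = b
    · rw [if_pos hu, hu]
      exact Finset.sum_eq_zero fun w _ => if_pos (hYb w)
    · rw [if_neg hu, if_pos]
      rw [hY.symm]
      exact hYb u
  have hnuCb : nuC Y (insert b C) = nuC Y C := by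
    unfold nuC
    rw [coe_insert, Set.image_insert_eq, hcol, Submodule.span_insert_zero]
  have hrkH := hrk V H (insert b (insert b' A)) hH
  have hrkY := hrk V Y (insert b' A) hY
  rw [hBc, hnuCb] at hrkY
  rw [← hC] at hrkH
  have hc1 : (insert b (insert b' A)).card = A.card + 2 := by
    rw [card_insert_of_notMem, card_insert_of_notMem hb'A]
    rw [mem_insert, not_or]
    exact ⟨hne, hbA⟩
  have hc2 : (insert b' A).card = A.card + 1 := card_insert_of_notMem hb'A
  have hnu : nu Y + 1 = nu H := hgood.2
  rw [hc1] at hrkH
  rw [hc2] at hrkY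
  -- the independent set of `FLP`
  obtain ⟨J, hJC, hJcard, hJcube⟩ := hFLP V H b b' C hH hgood hbC hb'C
  have hbJ : b ∉ J := fun h => hbC (hJC h)
  have hb'J : b' ∉ J := fun h => hb'C (hJC h)
  have hinj := (hchar V H b b' J hH hbb hbJ hb'J).1 hJcube
  have hliJ : LinearIndependent (F V) (fun i : J => Ph Y H b b' (Pi.single (i : V) 1)) := by
    rw [li_iff]
    intro c hc h0
    rw [Ph_apply, Prod.mk_eq_zero] at h0
    exact hinj c hc h0.1 h0.2
  have hle : nuC H C ≤ nuC Y C + 1 := by
    rw [← hJcard, ← finrank_WW Y H b b' J hliJ, nuC_eq Y H b b' C]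
    exact (WW_mono Y H b b' hJC).trans (rank_le _)
  have hiff : nuC H C = nuC Y C + 1 ↔ ∃ f : V → F V, (Lap Y).mulVec f = 0 ∧
      (∀ v ∈ insert b' A, f v = 0) ∧ del H b b' f ≠ 0 := by
    constructor
    · intro heq
      have h1 : ¬ LinearIndependent (F V)
          (fun i : J => (Lap Y).mulVecLin (Pi.single (i : V) 1)) := by
        intro hli
        have h2 := finrank_span_eq_card hli
        rw [Fintype.card_coe] at h2
        have h3 : nuC Y J = J.card := by
          have himg : (fun i : J => (Lap Y).mulVecLin (Pi.single (i : V) 1)) =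
              fun i : J => (Lap Y).col (i : V) := by
            funext i
            rw [Matrix.mulVecLin_apply, Matrix.mulVec_single_one]
          rw [himg] at h2
          rw [← h2]
          unfold nuC
          rw [Set.image_eq_range]
          rfl
        have h4 := (hbasis V Y hY).2.1 J C hJC
        omega
      rw [li_iff] at h1
      push Not at h1
      obtain ⟨c, hc, hc0, hcne⟩ := h1
      refine ⟨c, hc0, ?_, ?_⟩
      · intro v hv
        apply hc
        intro hvJ
        have hvC := hJC hvJ
        rw [hC, mem_compl, mem_insert, not_or] at hvC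
        exact hvC.2 hv
      · intro hd
        exact hcne (hinj c hc hc0 hd)
    · rintro ⟨f, hf0, hfA, hfd⟩
      refine le_antisymm hle ?_
      -- change `f` at `b`
      have hfsupp : ∀ v, v ∉ C → Function.update f b 0 v = 0 := by
        intro v hv
        by_cases hvb : v = b
        · rw [hvb, Function.update_self]
        · rw [Function.update_of_ne hvb]
          rw [hC, mem_compl, not_not, mem_insert] at hv
          exact hfA v (hv.resolve_left hvb)
      have hdel : del H b b' (Function.update f b 0) = del H b b' f := by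
        unfold del
        refine Finset.sum_congr rfl fun v hv => ?_
        have hvb : v ≠ b := by
          rintro rfl
          rw [mem_erase] at hv
          unfold nbr at hv
          rw [mem_filter] at hv
          exact hv.2.2 (hH.diag v)
        rw [Function.update_of_ne hvb, Function.update_of_ne hne.symm]
      have hlap : (Lap Y).mulVec (Function.update f b 0) = 0 := by
        rw [← hf0]
        funext u
        unfold Matrix.mulVec dotProduct
        refine Finset.sum_congr rfl fun v _ => ?_
        by_cases hvb : v = b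
        · have h5 : Lap Y u v = 0 := by
            rw [hvb]
            exact congrFun hcol u
          change Lap Y u v * Function.update f b 0 v = Lap Y u v * f v
          rw [h5, zero_mul, zero_mul]
        · change Lap Y u v * Function.update f b 0 v = Lap Y u v * f v
          rw [Function.update_of_ne hvb]
      have hmem := Ph_mem Y H b b' C (Function.update f b 0) hfsupp
      rw [Ph_apply, hlap, hdel] at hmem
      have hrank := rank_ge (WW Y H b b' C) (del H b b' f) hfd hmem
      rw [← nuC_eq] at hrank
      -- choose a basis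
      obtain ⟨u, huC, -, hspan, hli⟩ := exists_linearIndepOn_extension
        (K := F V) (v := fun j : V => Ph Y H b b' (Pi.single j 1)) (s := ∅) (t := (C : Set V))
        (linearIndepOn_empty _ _) (Set.empty_subset _)
      obtain ⟨J', rfl⟩ := (Set.toFinite u).exists_finset_coe
      have hJ'C : J' ⊆ C := by exact_mod_cast huC
      have hli' : LinearIndependent (F V) (fun i : J' => Ph Y H b b' (Pi.single (i : V) 1)) := hli
      have hfin := finrank_WW Y H b b' J' hli'
      have hWle : Module.finrank (F V) (WW Y H b b' C) ≤ Module.finrank (F V) (WW Y H b b' J') :=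
        Submodule.finrank_mono (Submodule.span_le.2 hspan)
      have hbJ' : b ∉ J' := fun h => hbC (hJ'C h)
      have hb'J' : b' ∉ J' := fun h => hb'C (hJ'C h)
      have hcube := (hchar V H b b' J' hH hbb hbJ' hb'J').2 (fun c hc h1 h2 =>
        (li_iff _ _).1 hli' c hc (by rw [Ph_apply, h1, h2]; rfl))
      have hPJ : PJ H J' ≠ 0 := by
        intro h0
        rw [h0] at hcube
        exact hcube (dvd_zero _)
      have h6 := (hbasis V H hH).2.2.2.2.1 C J' hJ'C hPJ
      omega
  constructor
  · omega
  · rw [← hiff]
    omega

end Pool.Agent.W390.SD
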