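import Pool.Agent.W390.SD.Stm1

/-!
# SD: basic properties of the contraction `ctr`
-/

namespace Pool.Agent.W390.SD

open Finset

namespace Aux_ctr

theorem mem_supp {V : Type} [Fintype V] (A : Gr V) (v : V) : v ∈ supp A ↔ ∃ u, A v u ≠ 0 := by
  unfold supp nbr
  simp only [mem_filter, mem_univ, true_and]
  constructor
  · rintro ⟨u, hu⟩
    exact ⟨u, (mem_filter.mp hu).2⟩
  · rintro ⟨u, hu⟩
    exact ⟨u, mem_filter.mpr ⟨mem_univ _, hu⟩⟩

theorem zero_of_not_mem {V : Type} [Fintype V] (A : Gr V) (v : V) (h : v ∉ supp A) (u : V) :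
    A v u = 0 := by
  by_contra hne
  exact h ((mem_supp A v).mpr ⟨u, hne⟩)

theorem ctr_symm {V : Type} [Fintype V] [DecidableEq V] (A : Gr V) (w w' : V)
    (hA : IsEv A) (u v : V) : ctr w w' A u v = ctr w w' A v u := by
  unfold ctr
  by_cases h1 : u = w
  · simp [h1]
  by_cases h2 : v = w
  · simp [h2]
  by_cases h3 : u = v
  · simp [h3]
  have h3' : ¬ v = u := fun h => h3 h.symm
  by_cases h4 : u = w'
  · have h5 : ¬ v = w' := fun h => h3 (h4.trans h.symm)
    simp only [h2, h5, h4, if_false, if_true]
    have h6 : ¬ w' = w := fun h => h1 (h4.trans h)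
    have h7 : ¬ w' = v := fun h => h5 h.symm
    simp only [h6, h7, h5, or_self, if_false]
    rw [hA.symm w' v, hA.symm w v]
  · by_cases h5 : v = w'
    · simp only [h1, h4, h5, or_self, if_false, if_true]
      have h6 : ¬ w' = w := fun h => h2 (h5.trans h)
      have h7 : ¬ w' = u := fun h => h4 h.symm
      simp only [h6, h7, or_self, if_false]
      rw [hA.symm u w', hA.symm u w]
    · simp only [h1, h2, h3, h3', h4, h5, or_self, if_false]
      exact hA.symm u v

theorem ctr_even {V : Type} [Fintype V] [DecidableEq V] (A : Gr V) (w w' : V) (hw : w ≠ w')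
    (hA : IsEv A) (v : V) : ∑ u, ctr w w' A v u = 0 := by
  have hww : ¬ w' = w := fun h => hw h.symm
  by_cases h1 : v = w
  · refine Finset.sum_eq_zero (fun u _ => ?_)
    unfold ctr
    simp [h1]
  by_cases h2 : v = w'
  · subst h2
    have key : ∀ u, ctr w v A v u = (A v u + A w u) +
        ((if u = w then A v w else 0) + (if u = v then A w v else 0)) := by
      intro u
      unfold ctr
      by_cases h3 : u = w
      · subst h3
        simp only [or_true, true_or, if_true, if_neg hw]
        rw [hA.diag u]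
        simp [CharTwo.add_self_eq_zero]
      · by_cases h4 : u = v
        · subst h4
          simp only [or_true, if_true, if_neg h3]
          rw [hA.diag u]
          simp [CharTwo.add_self_eq_zero]
        · have h5 : ¬ v = u := fun h => h4 h.symm
          simp [h1, h3, h4, h5]
    rw [Finset.sum_congr rfl (fun u _ => key u), Finset.sum_add_distrib, Finset.sum_add_distrib,
      Finset.sum_add_distrib, hA.even v, hA.even w]
    simp only [Finset.sum_ite_eq', mem_univ, if_true]
    rw [hA.symm w v]
    simp [CharTwo.add_self_eq_zero]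
  · have key : ∀ u, ctr w w' A v u = A v u +
        ((if u = w then A v w else 0) + (if u = w' then A v w else 0)) := by
      intro u
      unfold ctr
      by_cases h3 : u = w
      · subst h3
        simp only [or_true, true_or, if_true, if_neg hw]
        simp [CharTwo.add_self_eq_zero]
      · by_cases h4 : u = w'
        · subst h4
          simp only [h1, h2, h3, or_self, if_false, if_true]
          simp
        · by_cases h5 : v = u
          · subst h5
            simp only [h1, h2, or_true, if_true, if_false]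
            rw [hA.diag v]
            simp
          · simp [h1, h2, h3, h4, h5]
    rw [Finset.sum_congr rfl (fun u _ => key u), Finset.sum_add_distrib, Finset.sum_add_distrib,
      hA.even v]
    simp only [Finset.sum_ite_eq', mem_univ, if_true]
    simp [CharTwo.add_self_eq_zero]

theorem ctr_isEv {V : Type} [Fintype V] [DecidableEq V] (A : Gr V) (w w' : V) (hw : w ≠ w')
    (hA : IsEv A) : IsEv (ctr w w' A) := by
  refine ⟨ctr_symm A w w' hA, ?_, ctr_even A w w' hw hA⟩
  intro v
  unfold ctr
  simp

theorem ctr_add {V : Type} [Fintype V] [DecidableEq V] (A B : Gr V) (w w' : V) :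
    ctr w w' (A + B) = ctr w w' A + ctr w w' B := by
  funext u v
  simp only [Pi.add_apply]
  unfold ctr
  simp only [Pi.add_apply]
  split_ifs
  · simp
  · abel
  · abel
  · rfl

theorem ctr_of_not_mem {V : Type} [Fintype V] [DecidableEq V] (A : Gr V) (w w' : V)
    (hA : IsEv A) (h : w ∉ supp A) : ctr w w' A = A := by
  have h0 : ∀ u, A w u = 0 := zero_of_not_mem A w h
  have h0' : ∀ u, A u w = 0 := fun u => by rw [hA.symm u w]; exact h0 u
  funext u v
  unfold ctr
  by_cases h1 : u = w
  · subst h1
    simp [h0]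
  by_cases h2 : v = w
  · subst h2
    simp [h0']
  by_cases h3 : u = v
  · subst h3
    simp [hA.diag u]
  simp only [h1, h2, h3, or_self, if_false]
  by_cases h4 : u = w'
  · subst h4
    simp [h0]
  by_cases h5 : v = w'
  · subst h5
    simp [h4, h0']
  simp [h4, h5]

theorem ctr_row_w {V : Type} [Fintype V] [DecidableEq V] (A : Gr V) (w w' : V) (u : V) :
    ctr w w' A w u = 0 := by
  unfold ctr
  simp

theorem ctr_not_mem {V : Type} [Fintype V] [DecidableEq V] (A : Gr V) (w w' : V) :
    w ∉ supp (ctr w w' A) := by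
  rw [mem_supp]
  rintro ⟨u, hu⟩
  exact hu (ctr_row_w A w w' u)

theorem mem_supp_of {V : Type} [Fintype V] [DecidableEq V] (A : Gr V) (w w' : V) (v : V)
    (hv : v ∈ supp (ctr w w' A)) : v ≠ w ∧ (v = w' ∨ v ∈ supp A) := by
  have hvw : v ≠ w := by
    rintro rfl
    exact ctr_not_mem A v w' hv
  refine ⟨hvw, ?_⟩
  by_cases h1 : v = w'
  · exact Or.inl h1
  · right
    by_contra hn
    have h0 := zero_of_not_mem A v hn
    obtain ⟨u, hu⟩ := (mem_supp _ v).mp hv
    apply hu
    unfold ctr
    simp [h0, h1]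

theorem ctr_eq_sw {V : Type} [Fintype V] [DecidableEq V] (A : Gr V) (w w' : V) (hw : w ≠ w')
    (hA : IsEv A) (h : w' ∉ supp A) : ctr w w' A = sw w w' A := by
  have h0 : ∀ u, A w' u = 0 := zero_of_not_mem A w' h
  have h0' : ∀ u, A u w' = 0 := fun u => by rw [hA.symm u w']; exact h0 u
  funext u v
  unfold ctr sw
  by_cases h1 : u = w
  · subst h1
    rw [Equiv.swap_apply_left]
    simp [h0]
  by_cases h2 : v = w
  · subst h2
    rw [Equiv.swap_apply_left]
    simp [h0']
  by_cases h3 : u = v
  · subst h3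
    simp [hA.diag]
  simp only [h1, h2, h3, or_self, if_false]
  by_cases h4 : u = w'
  · subst h4
    have h5 : v ≠ u := fun h => h3 h.symm
    rw [Equiv.swap_apply_right, Equiv.swap_apply_of_ne_of_ne h2 h5]
    simp [h0]
  by_cases h5 : v = w'
  · subst h5
    rw [Equiv.swap_apply_right, Equiv.swap_apply_of_ne_of_ne h1 h4]
    simp [h0', h4]
  rw [Equiv.swap_apply_of_ne_of_ne h1 h4, Equiv.swap_apply_of_ne_of_ne h2 h5]
  simp [h4, h5]

end Aux_ctr

theorem p_ctr : S_ctr := by
  intro V _ _ A B w w' hw hA _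
  refine ⟨Aux_ctr.ctr_isEv A w w' hw hA, Aux_ctr.ctr_add A B w w',
    Aux_ctr.ctr_of_not_mem A w w' hA, Aux_ctr.ctr_not_mem A w w', ?_, ?_,
    Aux_ctr.ctr_eq_sw A w w' hw hA⟩
  · intro v hv
    obtain ⟨h1, h2⟩ := Aux_ctr.mem_supp_of A w w' v hv
    rcases h2 with h2 | h2
    · exact Finset.mem_insert.mpr (Or.inl h2)
    · exact Finset.mem_insert.mpr (Or.inr (Finset.mem_erase.mpr ⟨h1, h2⟩))
  · intro hw' v hv
    obtain ⟨h1, h2⟩ := Aux_ctr.mem_supp_of A w w' v hv
    rcases h2 with h2 | h2
    · subst h2
      exact Finset.mem_erase.mpr ⟨h1, hw'⟩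
    · exact Finset.mem_erase.mpr ⟨h1, h2⟩

end Pool.Agent.W390.SD
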