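import Pool.Agent.W390.SD.Stm1

/-!
# Contraction of an edge
-/

set_option autoImplicit false

namespace Pool.Agent.W390.SD

open MvPolynomial Finset

namespace Aux_ctr_edge

variable {V : Type} [Fintype V] [DecidableEq V]

theorem mem_edg (A : Gr V) (hs : ∀ u v, A u v = A v u) (u v : V) :
    s(u, v) ∈ edg A ↔ A u v ≠ 0 := by
  unfold edg
  rw [mem_image]
  constructor
  · rintro ⟨⟨a, b⟩, hp, he⟩
    rw [mem_filter] at hp
    simp only [Sym2.eq_iff] at he
    rcases he with ⟨rfl, rfl⟩ | ⟨rfl, rfl⟩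
    · exact hp.2
    · rw [hs]
      exact hp.2
  · intro h
    exact ⟨(u, v), mem_filter.2 ⟨mem_univ _, h⟩, rfl⟩

theorem mem_nbr (A : Gr V) (u v : V) : u ∈ nbr A v ↔ A v u ≠ 0 := by
  unfold nbr
  rw [mem_filter]
  exact ⟨fun h => h.2, fun h => ⟨mem_univ _, h⟩⟩

theorem fac_mk (u v : V) : (fac s(u, v) : R V) = X u + X v := rfl

open Classical in
/-- the edges meeting neither `w` nor `w'` -/
noncomputable def away (A : Gr V) (w w' : V) : Finset (Sym2 V) :=
  (edg A).filter (fun e => w ∉ e ∧ w' ∉ e)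

theorem PP_split (A : Gr V) (hs : ∀ u v, A u v = A v u) (hd : ∀ v, A v v = 0) (w w' : V)
    (hw : w ≠ w') : PP A = (∏ u ∈ nbr A w, (X w + X u)) *
      ((∏ u ∈ (nbr A w').erase w, (X w' + X u)) * ∏ e ∈ away A w w', fac e) := by
  classical
  unfold PP
  rw [← prod_filter_mul_prod_filter_not (edg A) (fun e => w ∈ e)]
  congr 1
  · have h : (edg A).filter (fun e => w ∈ e) = (nbr A w).image (fun u => s(w, u)) := by
      ext e
      induction e using Sym2.ind with
      | _ a b =>
        rw [mem_filter, mem_edg A hs, mem_image, Sym2.mem_iff]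
        constructor
        · rintro ⟨h1, rfl | rfl⟩
          · exact ⟨b, (mem_nbr A b w).2 h1, rfl⟩
          · refine ⟨a, (mem_nbr A a w).2 ?_, Sym2.eq_swap⟩
            rw [hs]
            exact h1
        · rintro ⟨u, hu, he⟩
          rw [mem_nbr] at hu
          rw [Sym2.eq_iff] at he
          rcases he with ⟨rfl, rfl⟩ | ⟨rfl, rfl⟩
          · exact ⟨hu, Or.inl rfl⟩
          · refine ⟨?_, Or.inr rfl⟩
            rw [hs]
            exact hu
    rw [h, prod_image]
    · rfl
    · intro u _ v _ huv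
      exact Sym2.congr_right.1 huv
  · rw [← prod_filter_mul_prod_filter_not ((edg A).filter (fun e => ¬ w ∈ e)) (fun e => w' ∈ e)]
    congr 1
    · have h : ((edg A).filter (fun e => ¬ w ∈ e)).filter (fun e => w' ∈ e) =
          ((nbr A w').erase w).image (fun u => s(w', u)) := by
        ext e
        induction e using Sym2.ind with
        | _ a b =>
          rw [mem_filter, mem_filter, mem_edg A hs, mem_image, Sym2.mem_iff, Sym2.mem_iff]
          constructor
          · rintro ⟨⟨h1, h2⟩, rfl | rfl⟩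
            · refine ⟨b, mem_erase.2 ⟨?_, (mem_nbr A b w').2 h1⟩, rfl⟩
              rintro rfl
              exact h2 (Or.inr rfl)
            · refine ⟨a, mem_erase.2 ⟨?_, (mem_nbr A a w').2 ?_⟩, Sym2.eq_swap⟩
              · rintro rfl
                exact h2 (Or.inl rfl)
              · rw [hs]
                exact h1
          · rintro ⟨u, hu, he⟩
            rw [mem_erase, mem_nbr] at hu
            rw [Sym2.eq_iff] at he
            rcases he with ⟨rfl, rfl⟩ | ⟨rfl, rfl⟩
            · refine ⟨⟨hu.2, ?_⟩, Or.inl rfl⟩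
              rintro (h | h)
              · exact hw h
              · exact hu.1 h.symm
            · refine ⟨⟨?_, ?_⟩, Or.inr rfl⟩
              · rw [hs]
                exact hu.2
              · rintro (h | h)
                · exact hu.1 h.symm
                · exact hw h
      rw [h, prod_image]
      · rfl
      · intro u _ v _ huv
        exact Sym2.congr_right.1 huv
    · unfold away
      rw [filter_filter]

theorem z2 (a b : ZMod 2) : a + b ≠ 0 ↔ (a ≠ 0 ∧ b = 0) ∨ (a = 0 ∧ b ≠ 0) := by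
  revert a b
  decide

theorem ctr_symm (A : Gr V) (hs : ∀ u v, A u v = A v u) (w w' : V) :
    ∀ u v, ctr w w' A u v = ctr w w' A v u := by
  intro u v
  unfold ctr
  by_cases h1 : u = w ∨ v = w ∨ u = v
  · have h2 : v = w ∨ u = w ∨ v = u := by
      rcases h1 with h | h | h
      · exact Or.inr (Or.inl h)
      · exact Or.inl h
      · exact Or.inr (Or.inr h.symm)
    rw [if_pos h1, if_pos h2]
  · have h2 : ¬ (v = w ∨ u = w ∨ v = u) := by
      intro h
      apply h1
      rcases h with h | h | h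
      · exact Or.inr (Or.inl h)
      · exact Or.inl h
      · exact Or.inr (Or.inr h.symm)
    rw [if_neg h1, if_neg h2]
    by_cases h3 : u = w'
    · have h4 : v ≠ w' := by
        rintro rfl
        exact h1 (Or.inr (Or.inr h3))
      rw [if_pos h3, if_neg h4, if_pos h3, hs w' v, hs w v]
    · rw [if_neg h3]
      by_cases h4 : v = w'
      · rw [if_pos h4, if_pos h4, hs u w', hs u w]
      · rw [if_neg h4, if_neg h4, if_neg h3, hs]

theorem ctr_diag (A : Gr V) (w w' : V) : ∀ v, ctr w w' A v v = 0 := by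
  intro v
  unfold ctr
  rw [if_pos (Or.inr (Or.inr rfl))]

theorem away_ctr (A : Gr V) (hs : ∀ u v, A u v = A v u) (hd : ∀ v, A v v = 0) (w w' : V) :
    away (ctr w w' A) w w' = away A w w' := by
  classical
  unfold away
  ext e
  induction e using Sym2.ind with
  | _ a b =>
    rw [mem_filter, mem_filter, mem_edg _ (ctr_symm A hs w w'), mem_edg A hs, Sym2.mem_iff,
      Sym2.mem_iff]
    refine and_congr_left ?_
    rintro ⟨h1, h2⟩
    rw [not_or] at h1 h2
    unfold ctr
    by_cases hab : a = b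
    · subst hab
      rw [if_pos (Or.inr (Or.inr rfl)), hd]
    · rw [if_neg (by
          rintro (h | h | h)
          · exact h1.1 h.symm
          · exact h1.2 h.symm
          · exact hab h), if_neg (Ne.symm h2.1), if_neg (Ne.symm h2.2)]

theorem nbr_ctr_w (A : Gr V) (w w' : V) : nbr (ctr w w' A) w = ∅ := by
  ext u
  rw [mem_nbr]
  unfold ctr
  rw [if_pos (Or.inl rfl)]
  simp

theorem nbr_ctr_w' (A : Gr V) (hd : ∀ v, A v v = 0) (w w' : V) (hw : w ≠ w') :
    (nbr (ctr w w' A) w').erase w =
      (((nbr A w).erase w') \ ((nbr A w').erase w)) ∪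
        (((nbr A w').erase w) \ ((nbr A w).erase w')) := by
  ext u
  rw [mem_erase, mem_nbr, mem_union, mem_sdiff, mem_sdiff, mem_erase, mem_erase, mem_nbr, mem_nbr]
  unfold ctr
  by_cases h1 : u = w
  · subst h1
    simp [hd]
  · by_cases h2 : u = w'
    · subst h2
      simp [hd]
    · rw [if_neg (by
          rintro (h | h | h)
          · exact hw h.symm
          · exact h1 h
          · exact h2 h.symm), if_pos rfl, z2]
      tauto

theorem prod_sym (N N' : Finset V) (f : V → R V) :
    (∏ u ∈ N, f u) * ∏ u ∈ N', f u = (∏ u ∈ N ∩ N', f u) ^ 2 * ∏ u ∈ (N \ N') ∪ (N' \ N), f u := by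
  rw [prod_union (disjoint_sdiff_sdiff)]
  have h1 := prod_inter_mul_prod_sdiff N N' f
  have h2 := prod_inter_mul_prod_sdiff N' N f
  rw [← h1, ← h2, inter_comm N' N]
  ring

theorem sg_X_ne (w w' u : V) (h : u ≠ w) : sg w w' (X u : R V) = X u := by
  unfold sg
  rw [rename_X, if_neg h]

theorem sg_X_self (w w' : V) : sg w w' (X w : R V) = X w' := by
  unfold sg
  rw [rename_X, if_pos rfl]

theorem two_eq (p : R V) : p + p = 0 := CharTwo.add_self_eq_zero p

/-- `P / (t_w + t_{w'})` -/
noncomputable def PQ (A : Gr V) (w w' : V) : R V :=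
  (∏ u ∈ (nbr A w).erase w', (X w + X u)) *
      ((∏ u ∈ (nbr A w').erase w, (X w' + X u)) * ∏ e ∈ away A w w', fac e)

theorem PP_eq (A : Gr V) (hs : ∀ u v, A u v = A v u) (hd : ∀ v, A v v = 0) (w w' : V)
    (hA : A w w' ≠ 0) : PP A = (X w + X w') * PQ A w w' := by
  have hw : w ≠ w' := by
    rintro rfl
    exact hA (hd w)
  rw [PP_split A hs hd w w' hw, PQ, ← mul_prod_erase (nbr A w) (fun u => (X w + X u : R V))
    ((mem_nbr A w' w).2 hA), mul_assoc]

theorem sg_PQ (A : Gr V) (hs : ∀ u v, A u v = A v u) (hd : ∀ v, A v v = 0) (w w' : V)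
    (hA : A w w' ≠ 0) :
    sg w w' (PQ A w w') = (∏ u ∈ nbr A w ∩ nbr A w', (X u + X w')) ^ 2 * PP (ctr w w' A) := by
  have hw : w ≠ w' := by
    rintro rfl
    exact hA (hd w)
  have e1 : sg w w' (PQ A w w') = (∏ u ∈ (nbr A w).erase w', (X w' + X u)) *
      ((∏ u ∈ (nbr A w').erase w, (X w' + X u)) * ∏ e ∈ away A w w', fac e) := by
    unfold PQ
    rw [map_mul, map_mul, map_prod, map_prod, map_prod]
    congr 1
    · refine prod_congr rfl fun u hu => ?_
      rw [mem_erase, mem_nbr] at hu
      have hu' : u ≠ w := by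
        rintro rfl
        exact hu.2 (hd u)
      rw [map_add, sg_X_self, sg_X_ne _ _ _ hu']
    · congr 1
      · refine prod_congr rfl fun u hu => ?_
        rw [mem_erase] at hu
        rw [map_add, sg_X_ne _ _ _ hw.symm, sg_X_ne _ _ _ hu.1]
      · refine prod_congr rfl fun e he => ?_
        unfold away at he
        rw [mem_filter] at he
        induction e using Sym2.ind with
        | _ a b =>
          obtain ⟨_, h1, _⟩ := he
          rw [Sym2.mem_iff, not_or] at h1
          rw [fac_mk, map_add, sg_X_ne _ _ _ (Ne.symm h1.1), sg_X_ne _ _ _ (Ne.symm h1.2)]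
  have e2 : PP (ctr w w' A) =
      (∏ u ∈ (((nbr A w).erase w') \ ((nbr A w').erase w)) ∪
        (((nbr A w').erase w) \ ((nbr A w).erase w')), (X w' + X u)) *
        ∏ e ∈ away A w w', fac e := by
    rw [PP_split (ctr w w' A) (ctr_symm A hs w w') (ctr_diag A w w') w w' hw, nbr_ctr_w,
      prod_empty, one_mul, nbr_ctr_w' A hd w w' hw, away_ctr A hs hd]
  have e3 : nbr A w ∩ nbr A w' = (nbr A w).erase w' ∩ (nbr A w').erase w := by
    ext u
    rw [mem_inter, mem_inter, mem_erase, mem_erase, mem_nbr, mem_nbr]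
    constructor
    · rintro ⟨h1, h2⟩
      refine ⟨⟨?_, h1⟩, ?_, h2⟩
      · rintro rfl
        exact h2 (hd u)
      · rintro rfl
        exact h1 (hd u)
    · rintro ⟨⟨_, h1⟩, _, h2⟩
      exact ⟨h1, h2⟩
  rw [e1, ← mul_assoc, prod_sym, e2, e3, mul_assoc]
  congr 2
  refine prod_congr rfl fun u _ => add_comm _ _

theorem pderiv_sq (v : V) (q : R V) : pderiv v (q ^ 2) = 0 := by
  rw [pow_two, Derivation.leibniz]
  exact two_eq _

end Aux_ctr_edge

open Aux_ctr_edge in
theorem p_ctr_edge : S_dd → S_ddsg → S_ctr_edge := by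
  intro hdd hsg V _ _ A J w w' hA hww hwJ
  obtain ⟨_, d2, d3, _, d5, _, _⟩ := hdd V
  have hw : w ≠ w' := by
    rintro rfl
    exact hww (hA.diag w)
  obtain ⟨s1, s2, _⟩ := hsg V w w' hw
  have hP := PP_eq A hA.symm hA.diag w w' hww
  have hS := sg_PQ A hA.symm hA.diag w w' hww
  set Q := PQ A w w' with hQ
  set q : R V := ∏ u ∈ nbr A w ∩ nbr A w', (X u + X w') with hq
  have hX : sg w w' (X w + X w' : R V) = 0 := by
    rw [map_add, sg_X_self, sg_X_ne _ _ _ hw.symm]
    exact two_eq _
  have hp1 : pderiv w (PP A) = Q + (X w + X w') * pderiv w Q := by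
    rw [hP, Derivation.leibniz, map_add, pderiv_X_self, pderiv_X_of_ne hw.symm, add_zero,
      smul_eq_mul, smul_eq_mul, mul_one, add_comm]
  have hwJ' : w ∉ J.erase w := notMem_erase w J
  have h1 : PJ A J = dd (J.erase w) (pderiv w (PP A)) := by
    have h := d2 (J.erase w) w (PP A) hwJ'
    rw [insert_erase hwJ] at h
    unfold PJ
    rw [h, d3]
  have hconst : dd (J.erase w) (q ^ 2 * PP (ctr w w' A)) =
      q ^ 2 * PJ (ctr w w' A) (J.erase w) :=
    d5 _ _ _ fun j _ => pderiv_sq j q
  rw [h1]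
  by_cases hw' : w' ∈ J.erase w
  · have n1 : w' ∉ (J.erase w).erase w' := notMem_erase _ _
    have n2 : w ∉ (J.erase w).erase w' := fun h => hwJ' (mem_of_mem_erase h)
    have h2 : ∀ f : R V, dd (J.erase w) f = dd ((J.erase w).erase w') (pderiv w' f) := by
      intro f
      have h := d2 ((J.erase w).erase w') w' f n1
      rw [insert_erase hw'] at h
      rw [h, d3]
    have h3 : pderiv w' (pderiv w (PP A)) = (pderiv w Q + pderiv w' Q) +
        (X w + X w') * pderiv w' (pderiv w Q) := by
      rw [hp1, map_add, Derivation.leibniz, map_add, pderiv_X_self, pderiv_X_of_ne hw, zero_add,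
        smul_eq_mul, smul_eq_mul, mul_one]
      ring
    rw [h2, s1 _ _ n2 n1, h3, map_add, map_mul, hX, zero_mul, add_zero, ← s2, hS, ← hconst, h2]
  · rw [s1 _ _ hwJ' hw', hp1, map_add, map_mul, hX, zero_mul, add_zero, hS, hconst]

end Pool.Agent.W390.SD
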