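import Pool.Agent.W390.SD.Stm1

/-! Project SD (helper390), part D4: ranks under contraction (helper557). -/

set_option autoImplicit false

namespace Pool.Agent.W390.SD

open MvPolynomial Finset

namespace Aux_ctrnu

theorem z2 (a : ZMod 2) : a + a = 0 := CharTwo.add_self_eq_zero a

theorem ctr_ev {V : Type} [Fintype V] [DecidableEq V] (A : Gr V) (w w' : V) (hw : w ≠ w')
    (hA : IsEv A) : IsEv (ctr w w' A) := by
  refine ⟨?_, ?_, ?_⟩
  · intro u v
    unfold ctr
    by_cases h1 : u = w ∨ v = w ∨ u = v
    · have h1' : v = w ∨ u = w ∨ v = u := by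
        rcases h1 with h | h | h
        · exact Or.inr (Or.inl h)
        · exact Or.inl h
        · exact Or.inr (Or.inr h.symm)
      rw [if_pos h1, if_pos h1']
    · have h1' : ¬ (v = w ∨ u = w ∨ v = u) := by
        rintro (h | h | h)
        · exact h1 (Or.inr (Or.inl h))
        · exact h1 (Or.inl h)
        · exact h1 (Or.inr (Or.inr h.symm))
      rw [if_neg h1, if_neg h1']
      by_cases h2 : u = w'
      · by_cases h3 : v = w'
        · exact absurd (Or.inr (Or.inr (h2.trans h3.symm))) h1
        · rw [if_pos h2, if_neg h3, if_pos h2, hA.symm v w', hA.symm v w]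
      · by_cases h3 : v = w'
        · rw [if_neg h2, if_pos h3, if_pos h3, hA.symm u w', hA.symm u w]
        · rw [if_neg h2, if_neg h3, if_neg h3, if_neg h2, hA.symm u v]
  · intro v
    unfold ctr
    rw [if_pos (Or.inr (Or.inr rfl))]
  · intro v
    by_cases hv : v = w
    · refine Finset.sum_eq_zero fun u _ => ?_
      unfold ctr
      rw [if_pos (Or.inl hv)]
    · by_cases hv' : v = w'
      · subst hv'
        have e : ∀ u, ctr w v A v u = A v u + A w u + (if u = w then A v w else 0) +
            (if u = v then A w v else 0) := by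
          intro u
          unfold ctr
          by_cases h1 : u = w
          · rw [if_pos (Or.inr (Or.inl h1)), if_pos h1, if_neg (fun h => hw (h1.symm.trans h)), h1,
              hA.diag w, add_zero, add_zero, z2]
          · by_cases h2 : u = v
            · rw [if_pos (Or.inr (Or.inr h2.symm)), if_neg h1, if_pos h2, h2, hA.diag v, add_zero,
                zero_add, z2]
            · rw [if_neg (by
                rintro (h | h | h)
                · exact hv h
                · exact h1 h
                · exact h2 h.symm), if_pos rfl, if_neg h1, if_neg h2, add_zero, add_zero]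
        rw [Finset.sum_congr rfl fun u _ => e u, Finset.sum_add_distrib, Finset.sum_add_distrib,
          Finset.sum_add_distrib, hA.even, hA.even, Finset.sum_ite_eq', Finset.sum_ite_eq',
          if_pos (Finset.mem_univ _), if_pos (Finset.mem_univ _), hA.symm w v, add_zero, zero_add,
          z2]
      · have e : ∀ u, ctr w w' A v u = A v u + (if u = w then A v w else 0) +
            (if u = w' then A v w else 0) := by
          intro u
          unfold ctr
          by_cases h1 : u = w
          · rw [if_pos (Or.inr (Or.inl h1)), if_pos h1, if_neg (fun h => hw (h1.symm.trans h)), h1,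
              add_zero, z2]
          · by_cases h2 : u = v
            · rw [if_pos (Or.inr (Or.inr h2.symm)), if_neg h1, if_neg (fun h => hv' (h2.symm.trans h)),
                h2, hA.diag v, add_zero, add_zero]
            · rw [if_neg (by
                rintro (h | h | h)
                · exact hv h
                · exact h1 h
                · exact h2 h.symm), if_neg hv', if_neg h1, add_zero]
              by_cases h3 : u = w'
              · rw [if_pos h3, if_pos h3, h3]
              · rw [if_neg h3, if_neg h3, add_zero]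
        rw [Finset.sum_congr rfl fun u _ => e u, Finset.sum_add_distrib, Finset.sum_add_distrib,
          hA.even, Finset.sum_ite_eq', Finset.sum_ite_eq',
          if_pos (Finset.mem_univ _), if_pos (Finset.mem_univ _), zero_add, z2]

theorem w_notMem {V : Type} [Fintype V] [DecidableEq V] (A : Gr V) (w w' : V) :
    w ∉ supp (ctr w w' A) := by
  unfold supp
  rw [Finset.mem_filter]
  rintro ⟨-, ⟨u, hu⟩⟩
  unfold nbr at hu
  rw [Finset.mem_filter] at hu
  apply hu.2
  unfold ctr
  rw [if_pos (Or.inl rfl)]

theorem q_ne {V : Type} [Fintype V] [DecidableEq V] (A : Gr V) (w w' : V) (hA : IsEv A) :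
    (∏ u ∈ nbr A w ∩ nbr A w', (X u + X w' : R V)) ≠ 0 := by
  rw [Finset.prod_ne_zero_iff]
  intro u hu h0
  have hu' := (Finset.mem_inter.1 hu).2
  unfold nbr at hu'
  rw [Finset.mem_filter] at hu'
  have hne : u ≠ w' := by
    rintro rfl
    exact hu'.2 (hA.diag _)
  have h1 : (X u : R V) = X w' := by
    have h2 : (X w' : R V) + X w' = 0 := CharTwo.add_self_eq_zero _
    calc (X u : R V) = X u + (X w' + X w') := by rw [h2, add_zero]
      _ = (X u + X w') + X w' := by rw [add_assoc]
      _ = X w' := by rw [h0, zero_add]
  exact hne (MvPolynomial.X_injective h1)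

theorem pd_sq {V : Type} [DecidableEq V] (v : V) (q p : R V) :
    pderiv v (q ^ 2 * p) = q ^ 2 * pderiv v p := by
  have h : q • (pderiv v) q + q • (pderiv v) q = 0 := CharTwo.add_self_eq_zero _
  rw [sq, Derivation.leibniz, Derivation.leibniz, h, smul_zero, add_zero, smul_eq_mul]

end Aux_ctrnu

open Aux_ctrnu in
theorem p_ctrnu : S_dd → S_ddsg → S_ctr_edge → S_ctr_out → S_ind → S_basis → S_rk → S_add →
    S_ctrnu := by
  intro hdd hddsg hedge hout hind hbasis hrk _ V _ _ A w w' hA hw
  have hcE : IsEv (ctr w w' A) := ctr_ev A w w' hw hA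
  obtain ⟨a1, a2, a3, a4, a5, a6, a7, a8⟩ := hbasis V A hA
  obtain ⟨c1, c2, c3, c4, c5, c6, c7, c8⟩ := hbasis V (ctr w w' A) hcE
  have hq := q_ne A w w' hA
  have hwc := w_notMem A w w'
  -- the empty set is independent
  have h0 : PJ (ctr w w' A) ∅ ≠ 0 := by
    rw [hind V _ ∅ hcE]
    unfold nuC
    simp
  -- a basis inside a set
  have hb : ∀ C : Finset V, ∃ J, J ⊆ C ∧ w ∉ J ∧ J.card = nuC (ctr w w' A) C ∧
      PJ (ctr w w' A) J ≠ 0 := by
    intro C
    obtain ⟨J, -, h2, h3, h4⟩ := c4 C ∅ (Finset.empty_subset _) h0
    exact ⟨J, h2, fun h => hwc (c8 J h4 h), h3, h4⟩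
  have her : ∀ C : Finset V, nuC (ctr w w' A) C = nuC (ctr w w' A) (C.erase w) := by
    intro C
    apply le_antisymm
    · obtain ⟨J, h2, h3, h4, h5⟩ := hb C
      rw [← h4]
      apply c5 _ J _ h5
      intro v hv
      rw [Finset.mem_erase]
      exact ⟨fun h => h3 (h ▸ hv), h2 hv⟩
    · exact c2 _ _ (Finset.erase_subset _ _)
  -- edges
  have hins : A w w' ≠ 0 → ∀ J', w ∉ J' → PJ (ctr w w' A) J' ≠ 0 → PJ A (insert w J') ≠ 0 := by
    intro hww J' hJ' hne h
    have h1 := hedge V A (insert w J') w w' hA hww (Finset.mem_insert_self _ _)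
    rw [Finset.erase_insert hJ', h, map_zero] at h1
    exact (mul_ne_zero (pow_ne_zero 2 hq) hne) h1.symm
  have h2 : A w w' ≠ 0 → ∀ C : Finset V, w ∈ C →
      nuC (ctr w w' A) (C.erase w) + 1 ≤ nuC A C := by
    intro hww C hwC
    obtain ⟨J, e2, e3, e4, e5⟩ := hb (C.erase w)
    have e6 := hins hww J e3 e5
    have e7 := a5 C (insert w J) (by
      intro v hv
      rcases Finset.mem_insert.1 hv with rfl | hv
      · exact hwC
      · exact Finset.mem_of_mem_erase (e2 hv)) e6
    rw [Finset.card_insert_of_notMem e3, e4] at e7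
    exact e7
  have h3 : A w w' ≠ 0 → nu (ctr w w' A) + 1 ≤ nu A := by
    intro hww
    have e1 := h2 hww univ (Finset.mem_univ _)
    rw [← her, c1, a1] at e1
    exact e1
  have h4 : ∀ J, w ∈ J → A w w' ≠ 0 → sg w w' (PJ A J) ≠ 0 →
      PJ (ctr w w' A) (J.erase w) ≠ 0 := by
    intro J hJ hww hne h
    apply hne
    rw [hedge V A J w w' hA hww hJ, h, mul_zero]
  refine ⟨?_, h2, h3, h4, ?_, ?_⟩
  · by_cases hww : A w w' = 0
    · obtain ⟨J, -, e3, e4, e5⟩ := hb univ
      rw [c1] at e4
      rw [← e4, ← a1]
      by_cases hJ : w' ∈ J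
      · -- the case `w' ∈ J`
        set K' := J.erase w' with hK
        have hwK : w ∉ K' := fun h => e3 (Finset.mem_of_mem_erase h)
        have hw'K : w' ∉ K' := Finset.notMem_erase _ _
        have hJK : insert w' K' = J := Finset.insert_erase hJ
        have f1 := (hout V A K' w w' hA hw hwK hw'K).1 hww
        have f2 := (hddsg V w w' hw).2.1 (PJ A K')
        have f3 : pderiv w' (PJ (ctr w w' A) K') = PJ (ctr w w' A) J := by
          rw [← hJK]
          exact ((hdd V).2.1 K' w' _ hw'K).symm
        rw [f1, pd_sq, f3] at f2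
        have f4 : pderiv w (PJ A K') = PJ A (insert w K') := ((hdd V).2.1 K' w _ hwK).symm
        have f5 : pderiv w' (PJ A K') = PJ A (insert w' K') := ((hdd V).2.1 K' w' _ hw'K).symm
        rw [f4, f5] at f2
        have f6 : PJ A (insert w K') ≠ 0 ∨ PJ A (insert w' K') ≠ 0 := by
          by_contra hcon
          rw [not_or, not_not, not_not] at hcon
          rw [hcon.1, hcon.2, add_zero, map_zero] at f2
          exact mul_ne_zero (pow_ne_zero 2 hq) e5 f2
        have hcard : J.card = K'.card + 1 := by
          rw [← hJK, Finset.card_insert_of_notMem hw'K]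
        rcases f6 with f6 | f6
        · have := a5 univ _ (Finset.subset_univ _) f6
          rw [Finset.card_insert_of_notMem hwK] at this
          rw [hcard]
          exact this
        · have := a5 univ _ (Finset.subset_univ _) f6
          rw [Finset.card_insert_of_notMem hw'K] at this
          rw [hcard]
          exact this
      · have f1 := (hout V A J w w' hA hw e3 hJ).1 hww
        have f2 : PJ A J ≠ 0 := by
          intro h
          rw [h, map_zero] at f1
          exact mul_ne_zero (pow_ne_zero 2 hq) e5 f1.symm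
        exact a5 univ J (Finset.subset_univ _) f2
    · have := h3 hww
      omega
  · intro J hJ hww hcard hne
    refine ⟨hww, ?_⟩
    have e1 := h4 J hJ hww hne
    have e2 := c5 univ _ (Finset.subset_univ _) e1
    rw [c1, Finset.card_erase_of_mem hJ] at e2
    have e3 := h3 hww
    omega
  · rintro ⟨hww, hg⟩ B hB
    have e1 := hrk V A B hA
    have e2 := hrk V (ctr w w' A) B hcE
    have e3 := h2 hww Bᶜ (Finset.mem_compl.2 hB)
    rw [← her] at e3
    omega

end Pool.Agent.W390.SD
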