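import Pool.Agent.W390.SD.Stm1

/-! S_ddsg: `dd` and the substitution -/

set_option autoImplicit false

namespace Pool.Agent.W390.SD

open MvPolynomial Finset

namespace Aux_ddsg

theorem sgX {V : Type} [DecidableEq V] (w w' i : V) :
    sg w w' (X i : R V) = X (if i = w then w' else i) := by
  unfold sg
  rw [rename_X]

theorem sg_pd {V : Type} [DecidableEq V] (w w' v : V) (hw : v ≠ w) (hw' : v ≠ w') (p : R V) :
    pderiv v (sg w w' p) = sg w w' (pderiv v p) := by
  induction p using MvPolynomial.induction_on with
  | C a => simp [sg]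
  | add p q hp hq => simp only [map_add, hp, hq]
  | mul_X p i hp =>
    rw [map_mul, Derivation.leibniz, Derivation.leibniz, map_add, smul_eq_mul, smul_eq_mul,
      smul_eq_mul, smul_eq_mul, map_mul, map_mul, hp, sgX]
    congr 2
    by_cases hi : i = w
    · subst hi
      rw [if_pos rfl, pderiv_X_of_ne hw'.symm, pderiv_X_of_ne hw.symm, map_zero]
    · rw [if_neg hi]
      by_cases hv : i = v
      · subst hv
        rw [pderiv_X_self, map_one]
      · rw [pderiv_X_of_ne hv, map_zero]

theorem sg_pdw {V : Type} [DecidableEq V] (w w' : V) (hww : w ≠ w') (p : R V) :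
    pderiv w (sg w w' p) = 0 := by
  induction p using MvPolynomial.induction_on with
  | C a => simp [sg]
  | add p q hp hq => simp only [map_add, hp, hq, add_zero]
  | mul_X p i hp =>
    rw [map_mul, Derivation.leibniz, smul_eq_mul, smul_eq_mul, hp, sgX]
    by_cases hi : i = w
    · rw [if_pos hi, pderiv_X_of_ne hww.symm]; ring
    · rw [if_neg hi, pderiv_X_of_ne hi]; ring

theorem sg_pdw' {V : Type} [DecidableEq V] (w w' : V) (hww : w ≠ w') (p : R V) :
    pderiv w' (sg w w' p) = sg w w' (pderiv w p + pderiv w' p) := by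
  induction p using MvPolynomial.induction_on with
  | C a => simp [sg]
  | add p q hp hq =>
    simp only [map_add] at hp hq ⊢
    rw [hp, hq]; ring
  | mul_X p i hp =>
    simp only [map_add] at hp
    rw [map_mul, Derivation.leibniz, Derivation.leibniz, Derivation.leibniz]
    simp only [smul_eq_mul, map_add, map_mul]
    rw [hp, sgX]
    by_cases hi : i = w
    · subst hi
      rw [if_pos rfl, pderiv_X_self, pderiv_X_self, pderiv_X_of_ne hww, map_zero, map_one]
      ring
    · rw [if_neg hi]
      by_cases hv : i = w'
      · subst hv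
        rw [pderiv_X_self, pderiv_X_of_ne hi, map_one, map_zero]
        ring
      · rw [pderiv_X_of_ne hv, pderiv_X_of_ne hi, map_zero]
        ring

end Aux_ddsg

open Aux_ddsg in
theorem p_ddsg : S_dd → S_ddsg := by
  intro hdd V _ w w' hww
  obtain ⟨h0, hins, -⟩ := hdd V
  refine ⟨?_, fun p => sg_pdw' w w' hww p, fun p => sg_pdw w w' hww p⟩
  intro J
  induction J using Finset.induction_on with
  | empty => intro p _ _; rw [h0, h0]
  | insert v J hv ih =>
    intro p h1 h2
    rw [Finset.mem_insert, not_or] at h1 h2
    rw [hins J v p hv, hins J v _ hv, ← sg_pd w w' v (Ne.symm h1.1) (Ne.symm h2.1),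
      ih p h1.2 h2.2]

end Pool.Agent.W390.SD
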