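import Pool.Agent.W390.SD.Stm1

/-!
# Project SD: independence of columns of the Laplacian
-/

namespace Pool.Agent.W390.SD

open MvPolynomial Finset

namespace Aux_ind

theorem fac_ne_zero {V : Type} {u v : V} (h : u ≠ v) : fac s(u, v) ≠ 0 := by
  change (X u + X v : R V) ≠ 0
  intro h0
  have h1 : (X u : R V) = X v := CharTwo.add_eq_zero.1 h0
  exact h (MvPolynomial.X_injective h1)

theorem PP_ne_zero {V : Type} [Fintype V] [DecidableEq V] (A : Gr V) (hA : IsEv A) : PP A ≠ 0 := by
  unfold PP
  rw [Finset.prod_ne_zero_iff]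
  intro e he
  unfold edg at he
  rw [Finset.mem_image] at he
  obtain ⟨p, hp, rfl⟩ := he
  rw [Finset.mem_filter] at hp
  refine fac_ne_zero fun h => hp.2 ?_
  rw [h]
  exact hA.diag _

theorem alg_inj {V : Type} {f : R V} (h : algebraMap (R V) (F V) f = 0) : f = 0 :=
  (IsFractionRing.injective (R V) (F V)) (by rw [h, map_zero])

theorem nuC_iff {V : Type} [Fintype V] [DecidableEq V] (A : Gr V) (J : Finset V) :
    nuC A J = J.card ↔ LinearIndependent (F V) (fun j : J => (Lap A).col (j : V)) := by
  rw [linearIndependent_iff_card_eq_finrank_span]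
  unfold nuC Set.finrank
  have h1 : Set.range (fun j : J => (Lap A).col (j : V)) = (fun j : V => (Lap A).col j) '' (J : Set V) := by
    ext x
    simp only [Set.mem_range, Subtype.exists, Set.mem_image, Finset.mem_coe, exists_prop]
  rw [h1, Fintype.card_coe]
  exact eq_comm

end Aux_ind

open Aux_ind in
theorem p_ind : S_dd → S_dlog → S_ker → S_add → S_ind := by
  intro hdd hdlog hker hadd V _ _ A J hA
  obtain ⟨dd0, ddins, ddcomm, ddkill, ddc, ddX, ddmono⟩ := hdd V
  have hsymm : (Lap A).IsSymm := (hadd V A A).2.2.2.1 hA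
  rw [nuC_iff]
  constructor
  · intro hJ
    rw [Fintype.linearIndependent_iff]
    intro c hc j0
    by_contra hj0
    obtain ⟨K', hK'⟩ : ∃ K', K' = J.erase (j0 : V) := ⟨_, rfl⟩
    have hjK : (j0 : V) ∉ K' := by rw [hK']; exact Finset.notMem_erase _ _
    have hins : insert (j0 : V) K' = J := by rw [hK']; exact Finset.insert_erase j0.2
    have h1 : ∑ v : J, c v * algebraMap (R V) (F V) (pderiv (v : V) (PJ A K')) = 0 := by
      have e : ∀ v : J, c v * algebraMap (R V) (F V) (pderiv (v : V) (PJ A K')) =
          ∑ u, (c v * Lap A v u) * algebraMap (R V) (F V)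
            (X u * PJ A K' + if u ∈ K' then PJ A (K'.erase u) else 0) := by
        intro v
        rw [hdlog V A K' v hA, Finset.mul_sum]
        exact Finset.sum_congr rfl fun u _ => by ring
      rw [Finset.sum_congr rfl fun v _ => e v, Finset.sum_comm]
      refine Finset.sum_eq_zero fun u _ => ?_
      rw [← Finset.sum_mul]
      have e2 : ∑ v : J, c v * Lap A v u = 0 := by
        have := congrFun hc u
        rw [Finset.sum_apply, Pi.zero_apply] at this
        rw [← this]
        refine Finset.sum_congr rfl fun v _ => ?_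
        rw [Pi.smul_apply, smul_eq_mul]
        congr 1
        exact hsymm.apply u v
      rw [e2, zero_mul]
    rw [Finset.sum_eq_single j0] at h1
    · rcases mul_eq_zero.1 h1 with h2 | h2
      · exact hj0 h2
      · have h3 := alg_inj h2
        apply hJ
        rw [← hins]
        unfold PJ at h3 ⊢
        rw [ddins K' j0 (PP A) hjK]
        exact h3
    · intro v _ hv
      have hvK : (v : V) ∈ K' := by
        rw [hK', Finset.mem_erase]
        exact ⟨fun h => hv (Subtype.ext h), v.2⟩
      have : pderiv (v : V) (PJ A K') = 0 := ddkill K' v (PP A) hvK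
      rw [this, map_zero, mul_zero]
    · intro h
      exact absurd (Finset.mem_univ _) h
  · intro hind hJ
    -- a maximal subset with nonzero derivative
    have hne : (J.powerset.filter fun K' => PJ A K' ≠ 0).Nonempty := by
      refine ⟨∅, ?_⟩
      rw [Finset.mem_filter, Finset.mem_powerset]
      refine ⟨Finset.empty_subset _, ?_⟩
      unfold PJ
      rw [dd0]
      exact PP_ne_zero A hA
    obtain ⟨K', hK', hmax⟩ := Finset.exists_max_image _ Finset.card hne
    rw [Finset.mem_filter, Finset.mem_powerset] at hK'
    obtain ⟨hKJ, hK0⟩ := hK'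
    have hneq : K' ≠ J := fun h => hK0 (h ▸ hJ)
    obtain ⟨v, hvJ, hvK⟩ : ∃ v ∈ J, v ∉ K' := by
      by_contra hcon
      push Not at hcon
      exact hneq (Finset.Subset.antisymm hKJ hcon)
    have hv0 : PJ A (insert v K') = 0 := by
      by_contra hcon
      have := hmax (insert v K') (by
        rw [Finset.mem_filter, Finset.mem_powerset]
        exact ⟨Finset.insert_subset hvJ hKJ, hcon⟩)
      rw [Finset.card_insert_of_notMem hvK] at this
      omega
    have hk := hker V A K' v hA hvK hv0
    obtain ⟨g, hg⟩ : ∃ g : V → R V, g = fun u =>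
      (if u = v then PJ A K' else if u ∈ K' then PJ A (insert v (K'.erase u)) else 0) := ⟨_, rfl⟩
    have hk' : (Lap A).mulVec (fun u => algebraMap (R V) (F V) (g u)) = 0 := by
      rw [hg]; exact hk
    have hgout : ∀ u, u ∉ J → g u = 0 := by
      intro u hu
      rw [hg]
      have h1 : u ≠ v := fun h => hu (h ▸ hvJ)
      have h2 : u ∉ K' := fun h => hu (hKJ h)
      simp only [h1, h2, if_false]
    rw [Fintype.linearIndependent_iff] at hind
    have h3 := hind (fun j : J => algebraMap (R V) (F V) (g j)) (by
      funext i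
      have h4 : ∑ u, Lap A i u * algebraMap (R V) (F V) (g u) = 0 := congrFun hk' i
      rw [Pi.zero_apply, ← h4, Finset.sum_apply,
        ← Finset.sum_subset (Finset.subset_univ J) (fun u _ hu => by
          rw [hgout u hu, map_zero, mul_zero]), ← Finset.sum_coe_sort J]
      refine Finset.sum_congr rfl fun u _ => ?_
      rw [Pi.smul_apply, smul_eq_mul, mul_comm]
      rfl) ⟨v, hvJ⟩
    have h5 := alg_inj h3
    rw [hg] at h5
    simp only [if_true] at h5
    exact hK0 h5

end Pool.Agent.W390.SD
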