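import Pool.Agent.W390.SD.Stm1

set_option autoImplicit false

namespace Pool.Agent.W390.SD.Aux_interp2

open MvPolynomial Finset Pool.Agent.W390.SD

variable {V : Type} [DecidableEq V]

theorem coeff_one {w w' : V} (h : w ≠ w') :
    coeff (Finsupp.single w 1) (X w + X w' : R V) = 1 := by
  rw [coeff_add, coeff_X, coeff_X, if_pos rfl, if_neg, add_zero]
  intro h1
  exact h (Finsupp.single_left_injective one_ne_zero h1).symm

theorem ne0 {w w' : V} (h : w ≠ w') : (X w + X w' : R V) ≠ 0 := by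
  intro h1
  have := coeff_one h
  rw [h1, coeff_zero] at this
  exact zero_ne_one this

theorem deg1 {w w' : V} (h : w ≠ w') : 1 ≤ degreeOf w (X w + X w' : R V) := by
  have h1 : Finsupp.single w 1 ∈ (X w + X w' : R V).support := by
    rw [mem_support_iff, coeff_one h]
    exact one_ne_zero
  have h2 := monomial_le_degreeOf w h1
  simpa using h2

theorem tdeg {w w' : V} (h : w ≠ w') : (X w + X w' : R V).totalDegree = 1 := by
  apply le_antisymm
  · refine (totalDegree_add _ _).trans ?_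
    rw [totalDegree_X, totalDegree_X]
    simp
  · exact (deg1 h).trans (degreeOf_le_totalDegree _ _)

theorem irr {w w' : V} (h : w ≠ w') : Irreducible (X w + X w' : R V) := by
  apply irreducible_of_totalDegree_eq_one (tdeg h)
  intro x hx
  have := hx (Finsupp.single w 1)
  rw [coeff_one h] at this
  exact isUnit_of_dvd_one this

theorem rel {w a b : V} (ha : w ≠ a) (hb : w ≠ b) (hab : a ≠ b) :
    IsRelPrime (X w + X a : R V) (X w + X b) := by
  rw [(irr ha).isRelPrime_iff_not_dvd]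
  rintro ⟨g, hg⟩
  have h1 := congrArg (aeval (fun v => if v = w then (X a : R V) else X v)) hg
  rw [map_mul, map_add, map_add, aeval_X, aeval_X, aeval_X, if_pos rfl, if_neg ha.symm,
    if_neg hb.symm] at h1
  have h2 : (X a + X a : R V) = 0 := CharTwo.add_self_eq_zero _
  rw [h2, zero_mul] at h1
  exact ne0 hab h1

omit [DecidableEq V] in
theorem fr (w w' : V) : (xx w + xx w') ^ 2 = ((X w + X w' : R V)) ^ 4 := by
  have h : (xx w + xx w' : R V) = (X w + X w') ^ 2 := by
    unfold xx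
    rw [CharTwo.add_sq]
  rw [h, ← pow_mul]

theorem main (w : V) (Z : Finset V) (a : ℕ) (f : R V)
    (hd : degreeOf w f ≤ 2 * a) (hw : w ∉ Z) (hZ : ∀ w' ∈ Z, (xx w + xx w') ^ 2 ∣ f)
    (ha : a < 2 * Z.card) : f = 0 := by
  by_contra hf
  have hne : ∀ w' ∈ Z, w ≠ w' := fun w' h1 h2 => hw (h2 ▸ h1)
  have h1 : ∏ w' ∈ Z, ((X w + X w' : R V)) ^ 4 ∣ f := by
    apply Finset.prod_dvd_of_isRelPrime
    · intro x hx y hy hxy
      exact (rel (hne x hx) (hne y hy) hxy).pow
    · intro x hx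
      rw [← fr]
      exact hZ x hx
  obtain ⟨g, rfl⟩ := h1
  have hg : g ≠ 0 := right_ne_zero_of_mul hf
  have hp : ∏ w' ∈ Z, ((X w + X w' : R V)) ^ 4 ≠ 0 := left_ne_zero_of_mul hf
  rw [degreeOf_mul_eq hp hg, degreeOf_prod_eq _ _ (fun x hx => pow_ne_zero _ (ne0 (hne x hx)))] at hd
  have h2 : Z.card * 4 ≤ ∑ x ∈ Z, degreeOf w ((X w + X x : R V) ^ 4) := by
    rw [← smul_eq_mul]
    apply Finset.card_nsmul_le_sum
    intro x hx
    rw [degreeOf_pow_eq _ _ _ (ne0 (hne x hx))]
    have := deg1 (hne x hx)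
    omega
  omega

end Pool.Agent.W390.SD.Aux_interp2

namespace Pool.Agent.W390.SD

theorem p_interp2 : S_dvd → S_interp2 := fun _ _ _ w Z a f _ hd hw hZ ha =>
  Aux_interp2.main w Z a f hd hw hZ ha

end Pool.Agent.W390.SD
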