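import Pool.Agent.W390.SD.Stm1

namespace Pool.Agent.W390.SD

open MvPolynomial Finset

namespace Aux_twin

set_option linter.unusedSectionVars false

variable {V : Type} [Fintype V] [DecidableEq V]

lemma mem_edg (A : Gr V) (hs : ∀ u v, A u v = A v u) (a b : V) :
    s(a, b) ∈ edg A ↔ A a b ≠ 0 := by
  unfold edg
  simp only [mem_image, mem_filter, mem_univ, true_and, Prod.exists, Sym2.eq_iff]
  constructor
  · rintro ⟨x, y, h, (⟨rfl, rfl⟩ | ⟨rfl, rfl⟩)⟩
    · exact h
    · rw [hs]; exact h
  · intro h
    exact ⟨a, b, h, Or.inl ⟨rfl, rfl⟩⟩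

lemma z2 (a b : ZMod 2) (h : a ≠ 0 ↔ b ≠ 0) : a = b := by
  revert h
  revert a b
  decide

lemma X_add_ne {V : Type} (u v : V) (h : u ≠ v) : (X u + X v : R V) ≠ 0 := by
  classical
  intro h0
  have h1 := congrArg (MvPolynomial.eval (fun x => if x = u then (1 : ZMod 2) else 0)) h0
  simp only [map_add, eval_X, map_zero, if_true] at h1
  rw [if_neg (Ne.symm h)] at h1
  simp at h1

lemma PP_ne (A : Gr V) (hA : IsEv A) : PP A ≠ 0 := by
  unfold PP
  rw [Finset.prod_ne_zero_iff]
  intro e he
  induction e using Sym2.ind with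
  | _ a b =>
    rw [mem_edg A hA.symm] at he
    have hab : a ≠ b := by
      rintro rfl
      exact he (hA.diag a)
    simp only [fac, Sym2.lift_mk]
    exact X_add_ne a b hab

lemma dd_empty (hdd : S_dd) (p : R V) : dd (∅ : Finset V) p = p := (hdd V).1 p

lemma dd_const (hdd : S_dd) (J : Finset V) (c p : R V) (h : ∀ j ∈ J, pderiv j c = 0) :
    dd J (c * p) = c * dd J p := (hdd V).2.2.2.2.1 J c p h

lemma dd_ins2 (hdd : S_dd) (J : Finset V) (w w' : V) (hw : w ∉ J) (hw' : w' ∉ J) (hne : w ≠ w')
    (p : R V) : dd (insert w (insert w' J)) p = dd J (pderiv w (pderiv w' p)) := by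
  have h1 : w ∉ insert w' J := by
    simp only [mem_insert, not_or]
    exact ⟨hne, hw⟩
  rw [(hdd V).2.1 _ w p h1, (hdd V).2.1 _ w' p hw', (hdd V).2.2.1 J w, (hdd V).2.2.1 J w']

lemma pd_sq (j : V) (c : R V) : pderiv j (c ^ 2) = 0 := by
  rw [pow_two, Derivation.leibniz, smul_eq_mul, ← two_mul]
  have : (2 : R V) = 0 := CharTwo.two_eq_zero
  rw [this, zero_mul]

lemma pd_prod_zero (w : V) (D : Finset V) (a : V) (hwa : a ≠ w) (hD : w ∉ D) :
    pderiv w (∏ u ∈ D, (X a + X u : R V)) = 0 := by
  induction D using Finset.induction_on with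
  | empty => simp
  | insert x s hx ih =>
    have hx' : x ≠ w := by
      rintro rfl
      exact hD (mem_insert_self _ _)
    rw [Finset.prod_insert hx, Derivation.leibniz, ih (fun h => hD (mem_insert_of_mem h))]
    rw [map_add, pderiv_X_of_ne hwa, pderiv_X_of_ne hx']
    simp

lemma pd_PP_zero (w : V) (B : Gr V) (hB : IsEv B) (hw : ∀ u, B w u = 0) :
    pderiv w (PP B) = 0 := by
  have key : ∀ S : Finset (Sym2 V), S ⊆ edg B → pderiv w (∏ e ∈ S, fac e) = 0 := by
    intro S
    induction S using Finset.induction_on with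
    | empty => intro _; simp
    | insert x s hx ih =>
      intro hS
      rw [Finset.prod_insert hx, Derivation.leibniz,
        ih (fun y hy => hS (mem_insert_of_mem hy))]
      have hxe := hS (mem_insert_self _ _)
      have : pderiv w (fac x) = 0 := by
        clear hx
        induction x using Sym2.ind with
        | _ a b =>
          rw [mem_edg B hB.symm] at hxe
          have ha : a ≠ w := by
            rintro rfl
            exact hxe (hw b)
          have hb : b ≠ w := by
            rintro rfl
            exact hxe (by rw [hB.symm]; exact hw a)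
          simp only [fac, Sym2.lift_mk]
          rw [map_add, pderiv_X_of_ne ha, pderiv_X_of_ne hb, add_zero]
      rw [this]
      simp
  exact key _ (Finset.Subset.refl _)

lemma sg_X (w w' u : V) : sg w w' (X u : R V) = X (if u = w then w' else u) := by
  simp [sg]

lemma sg_PP (w w' : V) (B : Gr V) (hB : IsEv B) (hw : ∀ u, B w u = 0) :
    sg w w' (PP B) = PP B := by
  unfold PP
  rw [map_prod]
  refine Finset.prod_congr rfl (fun e he => ?_)
  induction e using Sym2.ind with
  | _ a b =>
    rw [mem_edg B hB.symm] at he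
    have ha : a ≠ w := by
      rintro rfl
      exact he (hw b)
    have hb : b ≠ w := by
      rintro rfl
      exact he (by rw [hB.symm]; exact hw a)
    simp only [fac, Sym2.lift_mk]
    rw [map_add, sg_X, sg_X, if_neg ha, if_neg hb]

/-- the derivative of the product of the edges at `w'` is not zero -/
lemma D2_ne (w' : V) (D : Finset V) (hD : w' ∉ D) (hne : D.Nonempty) :
    pderiv w' (∏ u ∈ D, (X w' + X u : R V)) ≠ 0 := by
  obtain ⟨u0, hu0⟩ := hne
  have hu0w : u0 ≠ w' := by
    rintro rfl
    exact hD hu0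
  intro h0
  rw [← Finset.mul_prod_erase D _ hu0, Derivation.leibniz] at h0
  have h1 := congrArg (sg w' u0) h0
  have e1 : pderiv w' (X w' + X u0 : R V) = 1 := by
    rw [map_add, pderiv_X_self, pderiv_X_of_ne hu0w, add_zero]
  rw [e1, map_add, smul_eq_mul, smul_eq_mul, map_mul, map_add, sg_X, sg_X, if_pos rfl,
    if_neg hu0w, map_zero, mul_one] at h1
  have e2 : (X u0 + X u0 : R V) = 0 := CharTwo.add_self_eq_zero _
  rw [e2, zero_mul, zero_add, map_prod] at h1
  rw [Finset.prod_eq_zero_iff] at h1
  obtain ⟨u, hu, h2⟩ := h1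
  rw [mem_erase] at hu
  have huw : u ≠ w' := by
    rintro rfl
    exact hD hu.2
  rw [map_add, sg_X, sg_X, if_pos rfl, if_neg huw] at h2
  exact X_add_ne u0 u (Ne.symm hu.1) h2

end Aux_twin

open Aux_twin in
theorem p_twin : S_dd → S_ddsg → S_basis → S_ctr → S_twin := by
  intro hdd hsg hbas hctr V _ _ A w w' hA hww hAww hnbr hws
  obtain ⟨hB, -⟩ := hctr V A A w w' hww hA hA
  have htw : ∀ u, A w' u = A w u := by
    intro u
    apply z2
    have h1 : u ∈ nbr A w ↔ u ∈ nbr A w' := by rw [hnbr]
    simp only [nbr, mem_filter, mem_univ, true_and] at h1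
    exact h1.symm
  have hwD : w ∉ nbr A w := by
    simp only [nbr, mem_filter, mem_univ, true_and, not_not]
    exact hA.diag w
  have hw'D : w' ∉ nbr A w := by
    simp only [nbr, mem_filter, mem_univ, true_and, not_not]
    exact hAww
  have hDne : (nbr A w).Nonempty := by
    simp only [supp, mem_filter, mem_univ, true_and] at hws
    exact hws
  obtain ⟨D, hD⟩ : ∃ D, D = nbr A w := ⟨_, rfl⟩
  have hDm : ∀ u, u ∈ D ↔ A w u ≠ 0 := by
    intro u
    rw [hD]
    simp only [nbr, mem_filter, mem_univ, true_and]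
  rw [← hD] at hwD hw'D hDne
  obtain ⟨B, hBdef⟩ : ∃ B, B = ctr w w' A := ⟨_, rfl⟩
  have hBv : ∀ a b, B a b = if a = w ∨ b = w ∨ a = w' ∨ b = w' then 0 else A a b := by
    intro a b
    rw [hBdef]
    unfold ctr
    by_cases ha : a = w
    · simp [ha]
    by_cases hb : b = w
    · simp [hb]
    by_cases hab : a = b
    · subst hab
      simp [hA.diag]
    by_cases ha' : a = w'
    · subst ha'
      rw [if_neg (by simp [ha, hb, hab]), if_pos rfl, if_pos (by simp), htw]
      exact CharTwo.add_self_eq_zero _
    by_cases hb' : b = w'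
    · subst hb'
      rw [if_neg (by simp [ha, hb, hab]), if_neg ha', if_pos rfl, if_pos (by simp),
        hA.symm a b, hA.symm a w, htw]
      exact CharTwo.add_self_eq_zero _
    · rw [if_neg (by simp [ha, hb, hab]), if_neg ha', if_neg hb',
        if_neg (by simp [ha, hb, ha', hb'])]
  rw [← hBdef] at hB ⊢
  have hBw : ∀ u, B w u = 0 := fun u => by rw [hBv]; simp
  have hBw' : ∀ u, B w' u = 0 := fun u => by rw [hBv]; simp
  -- the factorisation
  have hPP : PP A = PP B * ((∏ u ∈ D, (X w + X u : R V)) * ∏ u ∈ D, (X w' + X u : R V)) := by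
    have hedg : edg A = edg B ∪ (D.image (fun u => s(w, u)) ∪ D.image (fun u => s(w', u))) := by
      ext e
      induction e using Sym2.ind with
      | _ a b =>
        rw [mem_union, mem_union, mem_edg A hA.symm, mem_edg B hB.symm, hBv]
        simp only [mem_image, Sym2.eq_iff, hDm]
        constructor
        · intro hab
          by_cases ha : a = w
          · right; left
            subst ha
            exact ⟨b, hab, Or.inl ⟨rfl, rfl⟩⟩
          by_cases hb : b = w
          · right; left
            subst hb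
            exact ⟨a, by rw [hA.symm]; exact hab, Or.inr ⟨rfl, rfl⟩⟩
          by_cases ha' : a = w'
          · right; right
            subst ha'
            exact ⟨b, by rw [← htw]; exact hab, Or.inl ⟨rfl, rfl⟩⟩
          by_cases hb' : b = w'
          · right; right
            subst hb'
            exact ⟨a, by rw [← htw, hA.symm]; exact hab, Or.inr ⟨rfl, rfl⟩⟩
          · left
            rw [if_neg (by simp [ha, hb, ha', hb'])]
            exact hab
        · rintro (h | ⟨u, hu, (⟨rfl, rfl⟩ | ⟨rfl, rfl⟩)⟩ | ⟨u, hu, (⟨rfl, rfl⟩ | ⟨rfl, rfl⟩)⟩)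
          · split_ifs at h with h1
            · exact absurd rfl h
            · exact h
          · exact hu
          · rw [hA.symm]; exact hu
          · rw [htw]; exact hu
          · rw [hA.symm, htw]; exact hu
    unfold PP
    rw [hedg, Finset.prod_union, Finset.prod_union, Finset.prod_image, Finset.prod_image]
    · rfl
    · intro x _ y _ h
      simp only [Sym2.eq_iff] at h
      rcases h with h | h
      · exact h.2
      · rw [← h.1, h.2]
    · intro x _ y _ h
      simp only [Sym2.eq_iff] at h
      rcases h with h | h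
      · exact h.2
      · rw [← h.1, h.2]
    · rw [Finset.disjoint_left]
      intro e h1 h2
      rw [mem_image] at h1 h2
      obtain ⟨u, hu, rfl⟩ := h1
      obtain ⟨v, hv, h3⟩ := h2
      rw [Sym2.eq_iff] at h3
      rcases h3 with h3 | h3
      · exact hww h3.1.symm
      · rw [h3.2] at hv
        exact hwD hv
    · rw [Finset.disjoint_left]
      intro e h1 h2
      rw [mem_union, mem_image, mem_image] at h2
      rcases h2 with ⟨u, hu, rfl⟩ | ⟨u, hu, rfl⟩
      · rw [mem_edg B hB.symm] at h1
        exact h1 (hBw u)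
      · rw [mem_edg B hB.symm] at h1
        exact h1 (hBw' u)
  obtain ⟨P1, hP1⟩ : ∃ P1, P1 = ∏ u ∈ D, (X w + X u : R V) := ⟨_, rfl⟩
  obtain ⟨P2, hP2⟩ : ∃ P2, P2 = ∏ u ∈ D, (X w' + X u : R V) := ⟨_, rfl⟩
  -- a basis of B
  obtain ⟨hBu, -, -, hBex, -, -, -, hBsub⟩ := hbas V B hB
  obtain ⟨hAu, -, -, -, hAle, -⟩ := hbas V A hA
  obtain ⟨J, -, -, hJc, hJne⟩ := hBex univ ∅ (Finset.empty_subset _) (by
    unfold PJ
    rw [dd_empty hdd]
    exact PP_ne B hB)
  have hJs := hBsub J hJne
  have hwJ : w ∉ J := by
    intro h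
    have := hJs h
    rw [supp, mem_filter] at this
    obtain ⟨u, hu⟩ := this.2
    rw [nbr, mem_filter] at hu
    exact hu.2 (hBw u)
  have hw'J : w' ∉ J := by
    intro h
    have := hJs h
    rw [supp, mem_filter] at this
    obtain ⟨u, hu⟩ := this.2
    rw [nbr, mem_filter] at hu
    exact hu.2 (hBw' u)
  have hmain : PJ A (insert w (insert w' J)) ≠ 0 := by
    unfold PJ
    rw [dd_ins2 hdd J w w' hwJ hw'J hww, hPP, ← hP1, ← hP2]
    have d1 : pderiv w' (PP B) = 0 := pd_PP_zero w' B hB hBw'
    have d2 : pderiv w (PP B) = 0 := pd_PP_zero w B hB hBw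
    have d3 : pderiv w' P1 = 0 := by rw [hP1]; exact pd_prod_zero w' D w hww hw'D
    have d4 : pderiv w P2 = 0 := by rw [hP2]; exact pd_prod_zero w D w' hww.symm hwD
    have d5 : pderiv w (pderiv w' P2) = 0 := by
      have := (hdd V).2.2.1 {w'} w P2
      have e1 : ∀ p : R V, dd {w'} p = pderiv w' p := by
        intro p
        have h1 := (hdd V).2.1 ∅ w' p (Finset.notMem_empty _)
        rw [dd_empty hdd, insert_empty_eq] at h1
        exact h1
      rw [e1, e1, d4, map_zero] at this
      exact this.symm
    have e1 : pderiv w (pderiv w' (PP B * (P1 * P2))) =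
        PP B * (pderiv w P1 * pderiv w' P2) := by
      have s1 : pderiv w' (PP B * (P1 * P2)) = PP B * (P1 * pderiv w' P2) := by
        rw [Derivation.leibniz, Derivation.leibniz, d1, d3]
        simp
      rw [s1, Derivation.leibniz, Derivation.leibniz, d2, d5]
      simp [mul_comm]
    rw [e1]
    intro h0
    have h1 := congrArg (sg w w') h0
    rw [(hsg V w w' hww).1 J _ hwJ hw'J, map_mul (sg w w'), map_mul (sg w w'),
      sg_PP w w' B hB hBw, map_zero] at h1
    have sP1 : sg w w' P1 = P2 := by
      rw [hP1, hP2, map_prod]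
      refine Finset.prod_congr rfl (fun u hu => ?_)
      have huw : u ≠ w := by
        rintro rfl
        exact hwD hu
      rw [map_add, sg_X, sg_X, if_pos rfl, if_neg huw]
    have sP2 : sg w w' P2 = P2 := by
      rw [hP2, map_prod]
      refine Finset.prod_congr rfl (fun u hu => ?_)
      have huw : u ≠ w := by
        rintro rfl
        exact hwD hu
      rw [map_add, sg_X, sg_X, if_neg hww.symm, if_neg huw]
    have e2 : sg w w' (pderiv w P1) = pderiv w' P2 := by
      have := (hsg V w w' hww).2.1 P1
      rw [sP1, d3, add_zero] at this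
      exact this.symm
    have e3 : sg w w' (pderiv w' P2) = pderiv w' P2 := by
      have := (hsg V w w' hww).2.1 P2
      rw [sP2, d4, zero_add] at this
      exact this.symm
    have e4 : PP B * (pderiv w' P2 * pderiv w' P2) = (pderiv w' P2) ^ 2 * PP B := by ring
    rw [e2, e3, e4, dd_const hdd J _ _ (fun j _ => pd_sq j _)] at h1
    have hne2 : pderiv w' P2 ≠ 0 := by
      rw [hP2]
      exact D2_ne w' D hw'D hDne
    exact mul_ne_zero (pow_ne_zero 2 hne2) hJne h1
  have hfin := hAle univ (insert w (insert w' J)) (Finset.subset_univ _) hmain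
  rw [hAu, Finset.card_insert_of_notMem (by
    simp only [mem_insert, not_or]
    exact ⟨hww, hwJ⟩), Finset.card_insert_of_notMem hw'J, hJc, hBu] at hfin
  omega

end Pool.Agent.W390.SD
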