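import Pool.Agent.W390.SD.Stm2
import Pool.Agent.W390.SD.P.ddsg
import Pool.Agent.W390.SD.P.ctr_edge
import Pool.Agent.W390.SD.P.ctr
import Pool.Agent.W390.SD.P.ctrnu
import Pool.Agent.W390.SD.P.ind
import Pool.Agent.W390.SD.P.interp2
import Pool.Agent.W390.SD.P.twin

/-! Project SD, part FLP (L2): polynomials without a triple factor. -/

set_option maxHeartbeats 4000000

namespace Pool.Agent.W390.SD

open MvPolynomial Finset

namespace Aux_FLP

section poly

variable {V : Type} [DecidableEq V]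

omit [DecidableEq V] in
theorem prime_pi {b b' : V} (h : b ≠ b') : Prime (X b + X b' : R V) := by
  classical
  exact (UniqueFactorizationMonoid.irreducible_iff_prime).1 (Aux_interp2.irr h)

theorem sg_pi (b b' : V) : sg b b' (X b + X b' : R V) = 0 := by
  rw [map_add, Aux_ddsg.sgX, Aux_ddsg.sgX, if_pos rfl]
  have h : (if b' = b then b' else b') = b' := by split_ifs <;> rfl
  rw [h]
  exact CharTwo.add_self_eq_zero _

theorem sg_zero_of_dvd {b b' : V} {f : R V} (h : (X b + X b' : R V) ∣ f) : sg b b' f = 0 := by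
  obtain ⟨g, rfl⟩ := h
  rw [map_mul, sg_pi, zero_mul]

theorem dvd_lin {b b' x y : V} (hxy : x ≠ y) (h : (X b + X b' : R V) ∣ X x + X y) :
    (x = b ∧ y = b') ∨ (x = b' ∧ y = b) := by
  have h1 := sg_zero_of_dvd h
  rw [map_add, Aux_ddsg.sgX, Aux_ddsg.sgX] at h1
  have h2 : (if x = b then b' else x) = (if y = b then b' else y) := by
    have h3 : (X (if x = b then b' else x) : R V) = X (if y = b then b' else y) :=
      CharTwo.add_eq_zero.1 h1
    exact X_injective h3
  by_cases hx : x = b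
  · by_cases hy : y = b
    · exact absurd (hx.trans hy.symm) hxy
    · rw [if_pos hx, if_neg hy] at h2
      exact Or.inl ⟨hx, h2.symm⟩
  · by_cases hy : y = b
    · rw [if_neg hx, if_pos hy] at h2
      exact Or.inr ⟨h2, hy⟩
    · rw [if_neg hx, if_neg hy] at h2
      exact absurd h2 hxy

/-- contracting `w` into `b` and then `b` into `b'` -/
theorem ctr_chain (A : Gr V) {w b b' : V} (hwb : w ≠ b)
    (hwb' : w ≠ b') (hbb' : b ≠ b') : ctr b b' (ctr w b A) = ctr w b' (ctr b b' A) := by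
  funext u v
  unfold ctr
  by_cases hu1 : u = w
  · subst hu1
    simp [hwb, hwb']
  by_cases hu2 : u = b
  · subst hu2
    simp [hbb']
  by_cases hv1 : v = w
  · subst hv1
    simp [hwb, hwb', hu1, hu2]
  by_cases hv2 : v = b
  · subst hv2
    simp [hbb', hu1, hu2]
  by_cases huv : u = v
  · subst huv
    simp
  by_cases hu3 : u = b'
  · subst hu3
    simp [hu1, hu2, hv1, hv2, huv, Ne.symm huv, hwb.symm, hwb, hwb', Ne.symm hv2,
      Ne.symm hv1, add_assoc]
  by_cases hv3 : v = b'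
  · subst hv3
    simp [hu1, hu2, hv1, hv2, huv, hwb.symm, hwb, hwb', add_assoc]
  simp [hu1, hu2, hv1, hv2, huv, hu3, hv3]

theorem ctr_bb (A : Gr V) {w x b b' : V} (hwb : w ≠ b) (hwb' : w ≠ b') (hbb : b ≠ b') :
    ctr w x A b b' = if b = x then A x b' + A w b' else if b' = x then A b x + A b w
      else A b b' := by
  unfold ctr
  rw [if_neg (by tauto)]

theorem ctr_wv (A : Gr V) (hd : ∀ v, A v v = 0) {b b' w v : V} (h1 : w ≠ b) (h2 : w ≠ b')
    (h3 : v ≠ b) (h4 : v ≠ b') : ctr b b' A w v = A w v := by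
  unfold ctr
  by_cases hwv : w = v
  · subst hwv
    rw [if_pos (Or.inr (Or.inr rfl)), hd]
  · rw [if_neg (by tauto), if_neg h2, if_neg h4]

theorem ctr_wb' (A : Gr V) {b b' w : V} (h1 : w ≠ b) (h2 : w ≠ b') (hbb : b ≠ b') :
    ctr b b' A w b' = A w b' + A w b := by
  unfold ctr
  rw [if_neg (by tauto), if_neg h2, if_pos rfl]

theorem ctr_wb (A : Gr V) {b b' w : V} : ctr b b' A w b = 0 := by
  unfold ctr
  rw [if_pos (by tauto)]

end poly

variable {V : Type} [Fintype V] [DecidableEq V]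

theorem sq_edge (hdd : S_dd) (ho : S_ctr_out) (A : Gr V) (hA : IsEv A) (b b' : V) (hbb : b ≠ b')
    (h : A b b' ≠ 0) (hc : IsEv (ctr b b' A)) : ¬ ((X b + X b' : R V) ^ 2 ∣ PJ A ∅) := by
  obtain ⟨Q, hQ1, hQ2⟩ := (ho V A ∅ b b' hA hbb (notMem_empty _) (notMem_empty _)).2 h
  intro hd
  rw [hQ1, sq] at hd
  have h1 := (mul_dvd_mul_iff_left (prime_pi hbb).ne_zero).1 hd
  have h2 := sg_zero_of_dvd h1
  rw [hQ2] at h2
  rcases mul_eq_zero.1 h2 with h3 | h3
  · exact pow_ne_zero 2 (Aux_ctrnu.q_ne A b b' hA) h3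
  · unfold PJ at h3
    rw [(hdd V).1] at h3
    exact Aux_ind.PP_ne_zero _ hc h3

theorem nonedge (hdd : S_dd) (ho : S_ctr_out) (A : Gr V) (hA : IsEv A) (b b' : V) (hbb : b ≠ b')
    (h : A b b' = 0) (hc : IsEv (ctr b b' A)) : ¬ ((X b + X b' : R V) ∣ PJ A ∅) := by
  have hQ := (ho V A ∅ b b' hA hbb (notMem_empty _) (notMem_empty _)).1 h
  intro hd
  have h2 := sg_zero_of_dvd hd
  rw [hQ] at h2
  rcases mul_eq_zero.1 h2 with h3 | h3
  · exact pow_ne_zero 2 (Aux_ctrnu.q_ne A b b' hA) h3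
  · unfold PJ at h3
    rw [(hdd V).1] at h3
    exact Aux_ind.PP_ne_zero _ hc h3

theorem q_not {w x b b' : V} (A : Gr V) (hA : IsEv A)
    (h : ∀ u, A w u ≠ 0 → A x u ≠ 0 → ¬ ((u = b ∧ x = b') ∨ (u = b' ∧ x = b))) (hbb : b ≠ b') :
    ¬ ((X b + X b' : R V) ∣ (∏ u ∈ nbr A w ∩ nbr A x, (X u + X x)) ^ 2) := by
  intro hd
  have h1 := (prime_pi hbb).dvd_of_dvd_pow hd
  rw [Prime.dvd_finsetProd_iff (prime_pi hbb)] at h1
  obtain ⟨u, hu, hdu⟩ := h1
  rw [mem_inter, Aux_ctr_edge.mem_nbr, Aux_ctr_edge.mem_nbr] at hu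
  have hux : u ≠ x := by
    rintro rfl
    exact hu.2 (hA.diag u)
  exact h u hu.1 hu.2 (dvd_lin hux hdu)

/-- the counting step -/
theorem count (hcnt : S_cnt) (H Y : Gr V) (b b' w : V) (J₁ Je : Finset V) (hH : IsEv H)
    (hY : IsEv Y) (φ : V → V) (hwJ : w ∈ J₁) (hwe : w ∈ Je) (h1 : PJ H J₁ ≠ 0) (he : PJ Y Je ≠ 0)
    (hφ : ∀ x ∈ nbr Y w, φ x ∈ nbr H w)
    (hinj : ∀ x ∈ nbr Y w, ∀ y ∈ nbr Y w, φ x = φ y → x = y)
    (hsub : nbr H w ⊆ nbr Y w ∪ {b, b'}) :
    ∃ x ∈ nbr Y w, sg w x (PJ Y Je) ≠ 0 ∧ sg w (φ x) (PJ H J₁) ≠ 0 := by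
  by_contra hcon
  push Not at hcon
  have c1 := hcnt V H J₁ w hH hwJ h1
    ((nbr H w).filter (fun x => sg w x (PJ H J₁) = 0)) (filter_subset _ _)
    (fun x hx => (mem_filter.1 hx).2)
  have c2 := hcnt V Y Je w hY hwe he
    ((nbr Y w).filter (fun x => sg w x (PJ Y Je) = 0)) (filter_subset _ _)
    (fun x hx => (mem_filter.1 hx).2)
  have c3 : (nbr Y w).card ≤ ((nbr Y w).filter (fun x => sg w x (PJ Y Je) = 0)).card +
      ((nbr Y w).filter (fun x => sg w (φ x) (PJ H J₁) = 0)).card := by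
    refine le_trans (card_le_card ?_) (card_union_le _ _)
    intro x hx
    rw [mem_union, mem_filter, mem_filter]
    by_cases h : sg w x (PJ Y Je) = 0
    · exact Or.inl ⟨hx, h⟩
    · exact Or.inr ⟨hx, hcon x hx h⟩
  have c4 : ((nbr Y w).filter (fun x => sg w (φ x) (PJ H J₁) = 0)).card ≤
      ((nbr H w).filter (fun x => sg w x (PJ H J₁) = 0)).card := by
    refine card_le_card_of_injOn φ ?_ ?_
    · intro x hx
      have hx' := mem_filter.1 hx
      exact mem_coe.2 (mem_filter.2 ⟨hφ x hx'.1, hx'.2⟩)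
    · intro x hx y hy hxy
      exact hinj x (mem_filter.1 hx).1 y (mem_filter.1 hy).1 hxy
  have c5 : (nbr H w).card ≤ (nbr Y w).card + 2 := by
    refine (card_le_card hsub).trans ((card_union_le _ _).trans ?_)
    have : ({b, b'} : Finset V).card ≤ 2 := card_le_two
    omega
  omega

theorem main (hdd : S_dd) (hddsg : S_ddsg) (hcnt : S_cnt) (hce : S_ctr_edge) (ho : S_ctr_out)
    (hbas : S_basis) (hctr : S_ctr) (hcc : S_ctrcomm) (hnu : S_ctrnu) (b b' : V) :
    ∀ (n : ℕ) (H : Gr V) (C : Finset V), C.card = n → IsEv H → good H b b' → b ∉ C → b' ∉ C →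
      ∃ J ⊆ C, J.card = nuC H C ∧ ¬ ((X b + X b' : R V) ^ 3 ∣ PJ H J) := by
  intro n
  induction n using Nat.strong_induction_on with
  | _ n ih =>
  intro H C hCn hH hgood hbC hb'C
  obtain ⟨hHbb, hgnu⟩ := hgood
  have hbb : b ≠ b' := by
    rintro rfl
    exact hHbb (hH.diag b)
  obtain ⟨Y, hYd⟩ : ∃ Y : Gr V, Y = ctr b b' H := ⟨_, rfl⟩
  have hY : IsEv Y := by rw [hYd]; exact (hctr V H H b b' hbb hH hH).1
  rw [← hYd] at hgnu
  obtain ⟨bH1, bH2, bH3, bH4, bH5, bH6, bH7, bH8⟩ := hbas V H hH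
  -- entries of `Y` in the row `w`
  have hYw : ∀ w v, w ≠ b → w ≠ b' → v ≠ b → v ≠ b' → Y w v = H w v := by
    intro w v h1 h2 h3 h4
    rw [hYd]
    exact ctr_wv H hH.diag h1 h2 h3 h4
  have hYwb' : ∀ w, w ≠ b → w ≠ b' → Y w b' = H w b' + H w b := by
    intro w h1 h2
    rw [hYd]
    exact ctr_wb' H h1 h2 hbb
  have hYwb : ∀ w, Y w b = 0 := by
    intro w
    rw [hYd]
    exact ctr_wb H
  by_cases hcase : ∃ w ∈ C, w ∈ supp Y
  · -- case (ii)
    obtain ⟨w, hwC, hwY⟩ := hcase
    have hwb : w ≠ b := fun h => hbC (h ▸ hwC)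
    have hwb' : w ≠ b' := fun h => hb'C (h ▸ hwC)
    have hwH : w ∈ supp H := by
      rw [Aux_ctr.mem_supp] at hwY ⊢
      obtain ⟨v, hv⟩ := hwY
      by_cases h1 : v = b
      · exact absurd (h1 ▸ hYwb w) hv
      · by_cases h2 : v = b'
        · subst h2
          rw [hYwb' w hwb hwb'] at hv
          by_cases h3 : H w v = 0
          · rw [h3, zero_add] at hv
            exact ⟨b, hv⟩
          · exact ⟨v, h3⟩
        · rw [hYw w v hwb hwb' h1 h2] at hv
          exact ⟨v, hv⟩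
    obtain ⟨J₁, hwJ₁, hJ₁C, hJ₁c, hJ₁0⟩ := bH4 C {w} (singleton_subset_iff.2 hwC) (bH7 w hwH)
    rw [singleton_subset_iff] at hwJ₁
    obtain ⟨bY1, bY2, bY3, bY4, bY5, bY6, bY7, bY8⟩ := hbas V Y hY
    obtain ⟨Je, hwJe, -, hJec, hJe0⟩ := bY4 univ {w} (subset_univ _) (bY7 w hwY)
    rw [singleton_subset_iff] at hwJe
    rw [bY1] at hJec
    -- the correspondence of the neighbours
    obtain ⟨φ, hφd⟩ : ∃ φ : V → V, φ = fun x => if x = b' then (if H w b' = 0 then b else b')
      else x := ⟨_, rfl⟩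
    have hφb' : φ b' = if H w b' = 0 then b else b' := by rw [hφd]; simp
    have hφx : ∀ x, x ≠ b' → φ x = x := by
      intro x hx; rw [hφd]; simp [hx]
    have hnY : ∀ x ∈ nbr Y w, x ≠ b := by
      rintro x hx rfl
      rw [Aux_ctr_edge.mem_nbr] at hx
      exact hx (hYwb w)
    have hφ : ∀ x ∈ nbr Y w, φ x ∈ nbr H w := by
      intro x hx
      have hxb := hnY x hx
      rw [Aux_ctr_edge.mem_nbr] at hx ⊢
      by_cases hxb' : x = b'
      · subst hxb'
        rw [hYwb' w hwb hwb'] at hx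
        rw [hφb']
        by_cases h3 : H w x = 0
        · rw [if_pos h3]
          rw [h3, zero_add] at hx
          exact hx
        · rw [if_neg h3]
          exact h3
      · rw [hφx x hxb']
        rwa [hYw w x hwb hwb' hxb hxb'] at hx
    have hinj : ∀ x ∈ nbr Y w, ∀ y ∈ nbr Y w, φ x = φ y → x = y := by
      intro x hx y hy hxy
      have hxb := hnY x hx
      have hyb := hnY y hy
      by_cases hx' : x = b'
      · by_cases hy' : y = b'
        · rw [hx', hy']
        · exfalso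
          rw [hx', hφb', hφx y hy'] at hxy
          split_ifs at hxy
          · exact hyb hxy.symm
          · exact hy' hxy.symm
      · by_cases hy' : y = b'
        · exfalso
          rw [hy', hφb', hφx x hx'] at hxy
          split_ifs at hxy
          · exact hxb hxy
          · exact hx' hxy
        · rwa [hφx x hx', hφx y hy'] at hxy
    have hsub : nbr H w ⊆ nbr Y w ∪ {b, b'} := by
      intro x hx
      rw [mem_union, mem_insert, mem_singleton]
      by_cases hxb : x = b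
      · exact Or.inr (Or.inl hxb)
      · by_cases hxb' : x = b'
        · exact Or.inr (Or.inr hxb')
        · left
          rw [Aux_ctr_edge.mem_nbr] at hx ⊢
          rwa [hYw w x hwb hwb' hxb hxb']
    obtain ⟨x, hxY, hx1, hx2⟩ := count hcnt H Y b b' w J₁ Je hH hY φ hwJ₁ hwJe hJ₁0 hJe0 hφ hinj hsub
    have hxb := hnY x hxY
    have hHx : H w (φ x) ≠ 0 := (Aux_ctr_edge.mem_nbr H (φ x) w).1 (hφ x hxY)
    have hYx : Y w x ≠ 0 := (Aux_ctr_edge.mem_nbr Y x w).1 hxY
    have hwx : w ≠ x := by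
      rintro rfl
      exact hYx (hY.diag w)
    have hwφ : w ≠ φ x := by
      intro h
      rw [← h] at hHx
      exact hHx (hH.diag w)
    obtain ⟨H', hH'd⟩ : ∃ H' : Gr V, H' = ctr w (φ x) H := ⟨_, rfl⟩
    have hH' : IsEv H' := by rw [hH'd]; exact (hctr V H H w (φ x) hwφ hH hH).1
    -- if `φ x = b` then `w` is not adjacent to `b'` and conversely
    have hxor : φ x = b → H w b' = 0 := by
      intro h
      by_cases hxb' : x = b'
      · rw [hxb', hφb'] at h
        by_contra h3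
        rw [if_neg h3] at h
        exact hbb h.symm
      · rw [hφx x hxb'] at h
        exact absurd h hxb
    have hxor' : φ x = b' → H w b = 0 := by
      intro h
      by_cases hxb' : x = b'
      · have h3 : H w b' ≠ 0 := by
          intro h4
          rw [hxb', hφb', if_pos h4] at h
          exact hbb h
        subst hxb'
        rw [hYwb' w hwb hwb'] at hYx
        have h0 : ∀ c d : ZMod 2, c ≠ 0 → c + d ≠ 0 → d = 0 := by decide
        exact h0 _ _ h3 hYx
      · rw [hφx x hxb'] at h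
        exact absurd h hxb'
    have hH'bb : H' b b' ≠ 0 := by
      have h1 : H' b b' = H b b' := by
        rw [hH'd, ctr_bb H hwb hwb' hbb]
        by_cases h2 : b = φ x
        · rw [if_pos h2, ← h2, hxor h2.symm, add_zero]
        · rw [if_neg h2]
          by_cases h3 : b' = φ x
          · rw [if_pos h3, ← h3, hH.symm b w, hxor' h3.symm, add_zero]
          · rw [if_neg h3]
      rw [h1]
      exact hHbb
    have hcomm : ctr b b' H' = ctr w x Y := by
      rw [hH'd, hYd]
      by_cases h2 : φ x = b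
      · have hxb' : x = b' := by
          by_contra h3
          rw [hφx x h3] at h2
          exact hxb h2
        rw [h2, hxb']
        exact ctr_chain H hwb hwb' hbb
      · have hφe : φ x = x := by
          by_cases hxb' : x = b'
          · rw [hxb', hφb'] at h2 ⊢
            split_ifs at h2 ⊢
            · exact absurd rfl h2
            · rfl
          · exact hφx x hxb'
        rw [hφe]
        exact (hcc V H w x b b' hH hwx hbb hwb hwb' hxb).symm
    obtain ⟨-, -, nY3, -, nY5, -⟩ := hnu V Y w x hY hwx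
    obtain ⟨-, nH2, nH3, nH4, -, -⟩ := hnu V H w (φ x) hH hwφ
    have g1 : nu (ctr w x Y) + 1 = nu Y := (nY5 Je hwJe hYx hJec hx1).2
    have g2 : nu H' + 1 ≤ nu H := by rw [hH'd]; exact nH3 hHx
    have g3 : nu (ctr b b' H') + 1 ≤ nu H' := (hnu V H' b b' hH' hbb).2.2.1 hH'bb
    rw [hcomm] at g3
    have hgood' : good H' b b' := ⟨hH'bb, by rw [hcomm]; omega⟩
    have k1 : nuC H' (C.erase w) + 1 ≤ nuC H C := by rw [hH'd]; exact nH2 hHx C hwC
    have k2 : PJ H' (J₁.erase w) ≠ 0 := by rw [hH'd]; exact nH4 J₁ hwJ₁ hHx hx2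
    have k3 : (J₁.erase w).card ≤ nuC H' (C.erase w) :=
      (hbas V H' hH').2.2.2.2.1 (C.erase w) (J₁.erase w) (erase_subset_erase w hJ₁C) k2
    rw [card_erase_of_mem hwJ₁] at k3
    have k4 : 1 ≤ J₁.card := card_pos.2 ⟨w, hwJ₁⟩
    obtain ⟨J', hJ'C, hJ'c, hJ'd⟩ := ih (C.erase w).card (by
        rw [card_erase_of_mem hwC, ← hCn]
        have := card_pos.2 ⟨w, hwC⟩
        omega) H' (C.erase w) rfl hH' hgood'
      (fun h => hbC (mem_of_mem_erase h)) (fun h => hb'C (mem_of_mem_erase h))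
    have hwJ' : w ∉ J' := fun h => (notMem_erase w C) (hJ'C h)
    refine ⟨insert w J', ?_, ?_, ?_⟩
    · intro y hy
      rcases mem_insert.1 hy with rfl | hy
      · exact hwC
      · exact mem_of_mem_erase (hJ'C hy)
    · rw [card_insert_of_notMem hwJ', hJ'c]
      omega
    · intro hd
      apply hJ'd
      have e1 := hce V H (insert w J') w (φ x) hH hHx (mem_insert_self w J')
      rw [erase_insert hwJ', ← hH'd] at e1
      have e2 : (X b + X b' : R V) ^ 3 ∣ sg w (φ x) (PJ H (insert w J')) := by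
        have e3 := map_dvd (sg w (φ x)) hd
        rw [map_pow, map_add, Aux_ddsg.sgX, Aux_ddsg.sgX, if_neg hwb.symm, if_neg hwb'.symm] at e3
        exact e3
      rw [e1] at e2
      refine (prime_pi hbb).pow_dvd_of_dvd_mul_left 3 ?_ e2
      refine q_not H hH ?_ hbb
      rintro u hu1 hu2 (⟨rfl, h⟩ | ⟨rfl, h⟩)
      · exact hu1 (hxor' h)
      · exact hu1 (hxor h)
  · -- case (i), (iii)
    push Not at hcase
    have hPP : PJ H ∅ ≠ 0 := by
      unfold PJ
      rw [(hdd V).1]
      exact Aux_ind.PP_ne_zero H hH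
    obtain ⟨J, -, hJC, hJc, hJ0⟩ := bH4 C ∅ (empty_subset _) hPP
    have hJs := bH8 J hJ0
    -- neighbours of the vertices in `C`
    have hnb : ∀ w ∈ J, nbr H w = {b, b'} := by
      intro w hw
      have hwC := hJC hw
      have hwb : w ≠ b := fun h => hbC (h ▸ hwC)
      have hwb' : w ≠ b' := fun h => hb'C (h ▸ hwC)
      have hwY := hcase w hwC
      have h0 : ∀ v, Y w v = 0 := Aux_ctr.zero_of_not_mem Y w hwY
      have h1 : ∀ v, v ≠ b → v ≠ b' → H w v = 0 := by
        intro v hv hv'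
        rw [← hYw w v hwb hwb' hv hv']
        exact h0 v
      have h2 : H w b' + H w b = 0 := by
        rw [← hYwb' w hwb hwb']
        exact h0 b'
      obtain ⟨v, hv⟩ := (Aux_ctr.mem_supp H w).1 (hJs hw)
      have h3 : H w b ≠ 0 ∧ H w b' ≠ 0 := by
        have hz : ∀ c d : ZMod 2, c + d = 0 → (d ≠ 0 ∨ c ≠ 0) → (d ≠ 0 ∧ c ≠ 0) := by decide
        refine hz _ _ h2 ?_
        by_cases hvb : v = b
        · left; rw [← hvb]; exact hv
        · by_cases hvb' : v = b'
          · right; rw [← hvb']; exact hv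
          · exact absurd (h1 v hvb hvb') hv
      ext y
      rw [Aux_ctr_edge.mem_nbr, mem_insert, mem_singleton]
      constructor
      · intro hy
        by_contra hcon
        push Not at hcon
        exact hy (h1 y hcon.1 hcon.2)
      · rintro (rfl | rfl)
        · exact h3.1
        · exact h3.2
    have hle : J.card ≤ 1 := by
      by_contra hcon
      push Not at hcon
      obtain ⟨w₁, hw₁, w₂, hw₂, hne⟩ := one_lt_card.1 hcon
      have hC1 := hJC hw₁
      have hC2 := hJC hw₂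
      have hw1b : w₁ ≠ b := fun h => hbC (h ▸ hC1)
      have hw1b' : w₁ ≠ b' := fun h => hb'C (h ▸ hC1)
      have hw2b : w₂ ≠ b := fun h => hbC (h ▸ hC2)
      have hw2b' : w₂ ≠ b' := fun h => hb'C (h ▸ hC2)
      have h12 : H w₁ w₂ = 0 := by
        by_contra h
        have h1 := (Aux_ctr_edge.mem_nbr H w₂ w₁).2 h
        rw [hnb w₁ hw₁, mem_insert, mem_singleton] at h1
        rcases h1 with h1 | h1
        · exact hw2b h1
        · exact hw2b' h1
      have t1 := p_twin hdd hddsg hbas hctr V H w₁ w₂ hH hne h12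
        ((hnb w₁ hw₁).trans (hnb w₂ hw₂).symm) (hJs hw₁)
      have hcn := hctr V H H w₁ w₂ hne hH hH
      have hE : IsEv (ctr w₁ w₂ H) := hcn.1
      have e1 : ctr w₁ w₂ H b b' ≠ 0 := by
        rw [ctr_bb H hw1b hw1b' hbb, if_neg hw2b.symm, if_neg hw2b'.symm]
        exact hHbb
      have e2 : ctr b b' (ctr w₁ w₂ H) = Y := by
        rw [← hcc V H w₁ w₂ b b' hH hne hbb hw1b hw1b' hw2b, ← hYd]
        exact (hctr V Y Y w₁ w₂ hne hY hY).2.2.1 (hcase w₁ hC1)
      have e3 := (hnu V (ctr w₁ w₂ H) b b' hE hbb).2.2.1 e1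
      rw [e2] at e3
      omega
    by_cases hJe : J = ∅
    · refine ⟨∅, empty_subset _, ?_, ?_⟩
      · rw [← hJc, hJe]
      · intro hd
        exact sq_edge hdd ho H hH b b' hbb hHbb (by rw [← hYd]; exact hY)
          ((pow_dvd_pow _ (by norm_num)).trans hd)
    · obtain ⟨w, hw⟩ := nonempty_iff_ne_empty.2 hJe
      have hJw : J = {w} := by
        symm
        apply eq_of_subset_of_card_le (singleton_subset_iff.2 hw)
        rw [card_singleton]
        exact hle
      refine ⟨J, hJC, hJc, ?_⟩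
      intro hd
      have hwC := hJC hw
      have hwb : w ≠ b := fun h => hbC (h ▸ hwC)
      have hwb' : w ≠ b' := fun h => hb'C (h ▸ hwC)
      have hnw := hnb w hw
      have hHwb : H w b ≠ 0 := (Aux_ctr_edge.mem_nbr H b w).1 (by rw [hnw]; simp)
      have hHwb' : H w b' ≠ 0 := (Aux_ctr_edge.mem_nbr H b' w).1 (by rw [hnw]; simp)
      have e1 := hce V H J w b hH hHwb hw
      have e0 : J.erase w = ∅ := by rw [hJw]; simp
      have e4 : nbr H w ∩ nbr H b = {b'} := by
        rw [hnw]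
        ext y
        rw [mem_inter, mem_insert, mem_singleton, Aux_ctr_edge.mem_nbr]
        constructor
        · rintro ⟨rfl | rfl, hy⟩
          · exact absurd (hH.diag y) hy
          · rfl
        · rintro rfl
          exact ⟨Or.inr rfl, hHbb⟩
      rw [e0, e4, prod_singleton] at e1
      have e3 := map_dvd (sg w b) hd
      rw [map_pow, map_add, Aux_ddsg.sgX, Aux_ddsg.sgX, if_neg hwb.symm, if_neg hwb'.symm, e1,
        add_comm (X b' : R V) (X b), show 3 = 2 + 1 from rfl, pow_succ] at e3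
      have e5 := (mul_dvd_mul_iff_left (pow_ne_zero 2 (prime_pi hbb).ne_zero)).1 e3
      have hE := (hctr V H H w b hwb hH hH).1
      refine nonedge hdd ho (ctr w b H) hE b b' hbb ?_ ((hctr V _ _ b b' hbb hE hE).1) e5
      rw [ctr_bb H hwb hwb' hbb, if_pos rfl]
      have hz : ∀ c d : ZMod 2, c ≠ 0 → d ≠ 0 → c + d = 0 := by decide
      exact hz _ _ hHbb hHwb'

end Aux_FLP

theorem p_FLP : S_dd → S_ddsg → S_cnt → S_deg → S_ctr_edge → S_ctr_out → S_ind → S_basis →
    S_ctr → S_ctrcomm → S_ctrnu → S_add → S_FLP := by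
  intro hdd hddsg hcnt _ hce ho _ hbas hctr hcc hnu _ V _ _ H b b' C hH hg hb hb'
  exact Aux_FLP.main hdd hddsg hcnt hce ho hbas hctr hcc hnu b b' C.card H C rfl hH hg hb hb'

end Pool.Agent.W390.SD
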