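import Pool.Agent.W390.SD.Stm1

/-!
# Project SD: `S_ctr_out`
-/

namespace Pool.Agent.W390.SD

open MvPolynomial Finset

namespace Aux_ctr_out

variable {V : Type} [Fintype V] [DecidableEq V]

lemma mem_edg {A : Gr V} (hs : ∀ u v, A u v = A v u) (u v : V) :
    s(u, v) ∈ edg A ↔ A u v ≠ 0 := by
  unfold edg
  simp only [mem_image, mem_filter, mem_univ, true_and, Prod.exists]
  constructor
  · rintro ⟨a, b, hab, he⟩
    rw [Sym2.eq_iff] at he
    rcases he with ⟨rfl, rfl⟩ | ⟨rfl, rfl⟩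
    · exact hab
    · rwa [hs]
  · intro h
    exact ⟨u, v, h, rfl⟩

lemma filt1 {A : Gr V} (hs : ∀ u v, A u v = A v u) (w : V) :
    (edg A).filter (fun e => w ∈ e) = (nbr A w).image (fun u => s(w, u)) := by
  ext e
  induction e using Sym2.ind with
  | _ a b =>
    simp only [mem_filter, mem_edg hs, Sym2.mem_iff, mem_image, nbr, mem_univ, true_and]
    constructor
    · rintro ⟨h, h1 | h1⟩
      · subst h1
        exact ⟨b, h, rfl⟩
      · subst h1
        exact ⟨a, by rwa [hs], Sym2.eq_swap⟩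
    · rintro ⟨u, hu, he⟩
      rw [Sym2.eq_iff] at he
      rcases he with ⟨rfl, rfl⟩ | ⟨rfl, rfl⟩
      · exact ⟨hu, Or.inl rfl⟩
      · exact ⟨by rwa [hs], Or.inr rfl⟩

lemma filt2 {A : Gr V} (hs : ∀ u v, A u v = A v u) (w w' : V) (hw : w ≠ w') :
    (edg A).filter (fun e => w' ∈ e ∧ w ∉ e) =
      ((nbr A w').erase w).image (fun u => s(w', u)) := by
  ext e
  induction e using Sym2.ind with
  | _ a b =>
    simp only [mem_filter, mem_edg hs, Sym2.mem_iff, mem_image, nbr, mem_univ, true_and,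
      mem_erase, not_or]
    constructor
    · rintro ⟨h, h1 | h1, h2, h3⟩
      · subst h1
        exact ⟨b, ⟨fun h => h3 h.symm, h⟩, rfl⟩
      · subst h1
        exact ⟨a, ⟨fun h => h2 h.symm, by rwa [hs]⟩, Sym2.eq_swap⟩
    · rintro ⟨u, ⟨hu1, hu⟩, he⟩
      rw [Sym2.eq_iff] at he
      rcases he with ⟨rfl, rfl⟩ | ⟨rfl, rfl⟩
      · exact ⟨hu, Or.inl rfl, hw, fun h => hu1 h.symm⟩
      · exact ⟨by rwa [hs], Or.inr rfl, fun h => hu1 h.symm, hw⟩

/-- The product over the edges avoiding `w` and `w'`. -/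
noncomputable def E0 (A : Gr V) (w w' : V) : R V :=
  ∏ e ∈ (edg A).filter (fun e => w ∉ e ∧ w' ∉ e), fac e

lemma fac_mk (u v : V) : fac (s(u, v)) = (X u + X v : R V) := rfl

lemma decomp {A : Gr V} (hs : ∀ u v, A u v = A v u) (w w' : V) (hw : w ≠ w') :
    PP A = (∏ u ∈ nbr A w, (X w + X u)) *
      ((∏ u ∈ (nbr A w').erase w, (X w' + X u)) * E0 A w w') := by
  unfold PP
  rw [← Finset.prod_filter_mul_prod_filter_not (edg A) (fun e => w ∈ e)]
  congr 1
  · rw [filt1 hs, Finset.prod_image]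
    · rfl
    · intro a _ b _ h
      exact Sym2.congr_right.1 h
  · rw [← Finset.prod_filter_mul_prod_filter_not _ (fun e => w' ∈ e), Finset.filter_filter,
      Finset.filter_filter]
    congr 1
    have : (edg A).filter (fun e => w ∉ e ∧ w' ∈ e) =
        (edg A).filter (fun e => w' ∈ e ∧ w ∉ e) := by
      apply Finset.filter_congr
      intro e _
      exact and_comm
    rw [this, filt2 hs w w' hw, Finset.prod_image]
    · rfl
    · intro a _ b _ h
      exact Sym2.congr_right.1 h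

lemma sg_X (w w' v : V) : sg w w' (X v : R V) = X (if v = w then w' else v) := by
  simp [sg]

lemma sg_fac0 (w w' : V) (e : Sym2 V) (he : w ∉ e) : sg w w' (fac e) = fac e := by
  induction e using Sym2.ind with
  | _ a b =>
    simp only [Sym2.mem_iff, not_or] at he
    rw [fac_mk, map_add, sg_X, sg_X, if_neg (fun h => he.1 h.symm), if_neg (fun h => he.2 h.symm)]

lemma sg_E0 (A : Gr V) (w w' : V) : sg w w' (E0 A w w') = E0 A w w' := by
  unfold E0
  rw [map_prod]
  apply Finset.prod_congr rfl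
  intro e he
  rw [mem_filter] at he
  exact sg_fac0 w w' e he.2.1

lemma z2 (a : ZMod 2) : a ≠ 0 ↔ a = 1 := by
  revert a; decide

lemma ctr_symm {A : Gr V} (hA : IsEv A) (w w' : V) (u v : V) :
    ctr w w' A u v = ctr w w' A v u := by
  unfold ctr
  have h1 := hA.symm u v
  have h2 := hA.symm w u
  have h3 := hA.symm w v
  have h4 := hA.symm w' u
  have h5 := hA.symm w' v
  by_cases hu : u = w
  · simp [hu]
  by_cases hv : v = w
  · simp [hv]
  by_cases huv : u = v
  · simp [huv]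
  have hvu : ¬ v = u := fun h => huv h.symm
  by_cases hu' : u = w'
  · subst hu'
    simp [hu, hv, huv, hvu, h5, h3]
  · by_cases hv' : v = w'
    · subst hv'
      simp [hu, hv, huv, hvu, h4, h2]
    · simp [hu, hv, huv, hvu, hu', hv', h1]

lemma nbr_ctr_w (A : Gr V) (w w' : V) : nbr (ctr w w' A) w = ∅ := by
  ext u
  simp [nbr, ctr]

lemma E0_ctr {A : Gr V} (hA : IsEv A) (w w' : V) : E0 (ctr w w' A) w w' = E0 A w w' := by
  unfold E0
  congr 1
  ext e
  induction e using Sym2.ind with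
  | _ a b =>
    simp only [mem_filter, mem_edg hA.symm, mem_edg (ctr_symm hA w w'), Sym2.mem_iff, not_or]
    constructor
    · rintro ⟨h, ⟨h1, h2⟩, h3, h4⟩
      refine ⟨?_, ⟨h1, h2⟩, h3, h4⟩
      unfold ctr at h
      by_cases hab : a = b
      · simp [hab] at h
      · rwa [if_neg (by rintro (h | h | h); exacts [h1 h.symm, h2 h.symm, hab h]),
          if_neg (fun h => h3 h.symm), if_neg (fun h => h4 h.symm)] at h
    · rintro ⟨h, ⟨h1, h2⟩, h3, h4⟩
      refine ⟨?_, ⟨h1, h2⟩, h3, h4⟩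
      unfold ctr
      by_cases hab : a = b
      · subst hab
        exact absurd (hA.diag a) h
      · rwa [if_neg (by rintro (h | h | h); exacts [h1 h.symm, h2 h.symm, hab h]),
          if_neg (fun h => h3 h.symm), if_neg (fun h => h4 h.symm)]

lemma nbr_ctr_w' {A : Gr V} (hA : IsEv A) (w w' : V) (hw : w ≠ w') :
    (nbr (ctr w w' A) w').erase w =
      ((nbr A w).erase w' \ (nbr A w').erase w) ∪ ((nbr A w').erase w \ (nbr A w).erase w') := by
  ext u
  simp only [nbr, mem_erase, mem_filter, mem_univ, true_and, mem_union, mem_sdiff, ctr]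
  by_cases hu : u = w
  · subst hu
    simp [hA.diag]
  by_cases hu' : u = w'
  · subst hu'
    simp [hA.diag]
  have hu2 : ¬ w' = u := fun h => hu' h.symm
  have hw2 : ¬ w' = w := fun h => hw h.symm
  simp only [hu, hu', hu2, hw2, or_self, if_false, if_true, ne_eq, not_false_eq_true, true_and]
  generalize A w u = a
  generalize A w' u = b
  revert a b
  decide

/-- The product of the factors of all edges but `w w'`. -/
noncomputable def P' (A : Gr V) (w w' : V) : R V :=
  (∏ u ∈ (nbr A w).erase w', (X w + X u)) *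
      ((∏ u ∈ (nbr A w').erase w, (X w' + X u)) * E0 A w w')

lemma PP_edge {A : Gr V} (hA : IsEv A) (w w' : V) (hw : w ≠ w') (h : A w w' ≠ 0) :
    PP A = (X w + X w') * P' A w w' := by
  rw [decomp hA.symm w w' hw]
  unfold P'
  have hm : w' ∈ nbr A w := by simp [nbr, h]
  rw [← Finset.mul_prod_erase _ _ hm, mul_assoc]

lemma PP_nonedge {A : Gr V} (hA : IsEv A) (w w' : V) (hw : w ≠ w') (h : A w w' = 0) :
    PP A = P' A w w' := by
  rw [decomp hA.symm w w' hw]
  unfold P'
  have hm : w' ∉ nbr A w := by simp [nbr, h]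
  rw [Finset.erase_eq_of_notMem hm]

lemma PP_ctr {A : Gr V} (hA : IsEv A) (w w' : V) (hw : w ≠ w') :
    PP (ctr w w' A) = (∏ u ∈ ((nbr A w).erase w' \ (nbr A w').erase w) ∪
      ((nbr A w').erase w \ (nbr A w).erase w'), (X w' + X u)) * E0 A w w' := by
  rw [decomp (ctr_symm hA w w') w w' hw, nbr_ctr_w, nbr_ctr_w' hA w w' hw, E0_ctr hA]
  simp

lemma inter_eq {A : Gr V} (hA : IsEv A) (w w' : V) :
    (nbr A w).erase w' ∩ (nbr A w').erase w = nbr A w ∩ nbr A w' := by
  ext u
  simp only [nbr, mem_inter, mem_erase, mem_filter, mem_univ, true_and]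
  constructor
  · rintro ⟨⟨_, h1⟩, _, h2⟩
    exact ⟨h1, h2⟩
  · rintro ⟨h1, h2⟩
    refine ⟨⟨?_, h1⟩, ?_, h2⟩
    · rintro rfl
      exact h2 (hA.diag _)
    · rintro rfl
      exact h1 (hA.diag _)

lemma symm_prod (S T : Finset V) (f : V → R V) :
    (∏ u ∈ S, f u) * (∏ u ∈ T, f u) =
      (∏ u ∈ S ∩ T, f u) ^ 2 * ∏ u ∈ (S \ T) ∪ (T \ S), f u := by
  have hd : Disjoint (S \ T) (T \ S) := by
    rw [Finset.disjoint_left]
    intro u h1 h2
    rw [mem_sdiff] at h1 h2
    exact h1.2 h2.1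
  rw [Finset.prod_union hd, ← Finset.prod_inter_mul_prod_diff S T,
    ← Finset.prod_inter_mul_prod_diff T S, Finset.inter_comm T S]
  ring

lemma sg_P' {A : Gr V} (hA : IsEv A) (w w' : V) (hw : w ≠ w') :
    sg w w' (P' A w w') =
      (∏ u ∈ nbr A w ∩ nbr A w', (X u + X w')) ^ 2 * PP (ctr w w' A) := by
  rw [PP_ctr hA w w' hw, ← inter_eq hA w w']
  unfold P'
  rw [map_mul, map_mul, sg_E0, map_prod, map_prod]
  have h1 : ∏ u ∈ (nbr A w).erase w', sg w w' (X w + X u) =
      ∏ u ∈ (nbr A w).erase w', (X w' + X u : R V) := by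
    apply Finset.prod_congr rfl
    intro u hu
    have hu' : u ≠ w := by
      rintro rfl
      simp only [nbr, mem_erase, mem_filter] at hu
      exact hu.2.2 (hA.diag _)
    rw [map_add, sg_X, sg_X, if_pos rfl, if_neg hu']
  have h2 : ∏ u ∈ (nbr A w').erase w, sg w w' (X w' + X u) =
      ∏ u ∈ (nbr A w').erase w, (X w' + X u : R V) := by
    apply Finset.prod_congr rfl
    intro u hu
    have hu' : u ≠ w := (Finset.mem_erase.1 hu).1
    rw [map_add, sg_X, sg_X, if_neg (fun h => hw h.symm), if_neg hu']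
  have h3 : ∏ u ∈ (nbr A w).erase w' ∩ (nbr A w').erase w, (X u + X w' : R V) =
      ∏ u ∈ (nbr A w).erase w' ∩ (nbr A w').erase w, (X w' + X u : R V) := by
    apply Finset.prod_congr rfl
    intro u _
    exact add_comm _ _
  rw [h1, h2, h3, ← mul_assoc, symm_prod, mul_assoc]

lemma pd_sq (j : V) (q : R V) : pderiv j (q ^ 2) = 0 := by
  rw [sq, Derivation.leibniz, smul_eq_mul]
  exact CharTwo.add_self_eq_zero _

end Aux_ctr_out

open Aux_ctr_out in
theorem p_ctr_out : S_dd → S_ddsg → S_ctr_out := by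
  intro hdd hsg V _ _ A J w w' hA hw hwJ hw'J
  obtain ⟨-, -, -, -, hmul, -, -⟩ := hdd V
  obtain ⟨hcomm, -, -⟩ := hsg V w w' hw
  have key : sg w w' (dd J (P' A w w')) =
      (∏ u ∈ nbr A w ∩ nbr A w', (X u + X w')) ^ 2 * PJ (ctr w w' A) J := by
    rw [hcomm J _ hwJ hw'J, sg_P' hA w w' hw, hmul J _ _ (fun j _ => pd_sq j _)]
    rfl
  constructor
  · intro h
    have h1 : PJ A J = dd J (P' A w w') := by
      unfold PJ
      rw [PP_nonedge hA w w' hw h]
    rw [h1, key]
  · intro h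
    refine ⟨dd J (P' A w w'), ?_, key⟩
    unfold PJ
    rw [PP_edge hA w w' hw h, hmul J _ _ (fun j hj => ?_)]
    have e1 : j ≠ w := fun h => hwJ (h ▸ hj)
    have e2 : j ≠ w' := fun h => hw'J (h ▸ hj)
    rw [map_add, pderiv_X_of_ne (fun h => e1 h.symm), pderiv_X_of_ne (fun h => e2 h.symm),
      add_zero]

end Pool.Agent.W390.SD
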