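import Pool.Agent.W390.SD.Stm1

/-! Project SD, part dlog: the logarithmic derivative. -/

set_option autoImplicit false

namespace Pool.Agent.W390.SD

open MvPolynomial Finset

namespace Aux_dlog

lemma der_prod {V ι : Type} [DecidableEq ι] (v : V) (S : Finset ι) (f : ι → R V) :
    pderiv v (∏ e ∈ S, f e) = ∑ e ∈ S, (∏ e' ∈ S.erase e, f e') * pderiv v (f e) := by
  induction S using Finset.induction_on with
  | empty => simp
  | insert a S ha ih =>
    rw [prod_insert ha, Derivation.leibniz, ih, sum_insert ha, erase_insert ha, smul_eq_mul,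
      smul_eq_mul, add_comm]
    congr 1
    rw [mul_sum]
    refine sum_congr rfl fun e he => ?_
    have hne : a ≠ e := fun h => ha (h ▸ he)
    rw [erase_insert_of_ne hne, prod_insert (fun h => ha (mem_of_mem_erase h)), mul_assoc]

lemma fac_mk {V : Type} (a b : V) : fac s(a, b) = (X a + X b : R V) := rfl

lemma mem_edg {V : Type} [Fintype V] [DecidableEq V] (A : Gr V) (e : Sym2 V) :
    e ∈ edg A ↔ ∃ a b, A a b ≠ 0 ∧ s(a, b) = e := by
  unfold edg
  simp only [mem_image, mem_filter, mem_univ, true_and, Prod.exists]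

/-- the product without one edge -/
noncomputable def Pe {V : Type} [Fintype V] [DecidableEq V] (A : Gr V) (v u : V) : R V :=
  ∏ e ∈ (edg A).erase s(v, u), fac e

lemma PP_eq {V : Type} [Fintype V] [DecidableEq V] (A : Gr V) (v u : V) (h : A v u ≠ 0) :
    PP A = (X v + X u) * Pe A v u := by
  unfold PP Pe
  rw [← mul_prod_erase (edg A) fac ((mem_edg A _).2 ⟨v, u, h, rfl⟩), fac_mk]

lemma der_PP {V : Type} [Fintype V] [DecidableEq V] (A : Gr V) (hA : IsEv A) (v : V) :
    pderiv v (PP A) = ∑ u ∈ nbr A v, Pe A v u := by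
  unfold PP
  rw [der_prod]
  have hsub : (nbr A v).image (fun u => s(v, u)) ⊆ edg A := by
    intro e he
    obtain ⟨u, hu, rfl⟩ := mem_image.1 he
    exact (mem_edg A _).2 ⟨v, u, (mem_filter.1 hu).2, rfl⟩
  rw [← sum_subset hsub, sum_image]
  · refine sum_congr rfl fun u hu => ?_
    have h1 : A v u ≠ 0 := (mem_filter.1 hu).2
    have hne : u ≠ v := by
      rintro rfl
      exact h1 (hA.diag u)
    rw [fac_mk, map_add, pderiv_X_self, pderiv_X_of_ne hne, add_zero, mul_one]
    rfl
  · intro a _ b _ h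
    exact Sym2.congr_right.1 h
  · intro e he hne
    obtain ⟨a, b, hab, rfl⟩ := (mem_edg A e).1 he
    have h1 : a ≠ v := by
      rintro rfl
      exact hne (mem_image.2 ⟨b, mem_filter.2 ⟨mem_univ _, hab⟩, rfl⟩)
    have h2 : b ≠ v := by
      rintro rfl
      refine hne (mem_image.2 ⟨a, mem_filter.2 ⟨mem_univ _, ?_⟩, Sym2.eq_swap⟩)
      rw [hA.symm]
      exact hab
    rw [fac_mk, map_add, pderiv_X_of_ne h1, pderiv_X_of_ne h2, add_zero, mul_zero]

lemma two_zero {V : Type} (a : R V) : a + a = 0 := by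
  have : (2 : R V) = 0 := by
    have h : (2 : R V) = C (2 : ZMod 2) := (map_ofNat C 2).symm
    rw [h, show (2 : ZMod 2) = 0 from rfl, map_zero]
  rw [← two_mul, this, zero_mul]

lemma xx_add {V : Type} (u v : V) : (xx v + xx u : R V) = (X v + X u) * (X v + X u) := by
  unfold xx
  have h : (X v + X u : R V) * (X v + X u) = X v ^ 2 + X u ^ 2 + (X v * X u + X v * X u) := by
    ring
  rw [h, two_zero, add_zero]

lemma xx_const {V : Type} (u v j : V) : pderiv j (xx v + xx u : R V) = 0 := by
  unfold xx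
  rw [map_add, Derivation.leibniz_pow, Derivation.leibniz_pow]
  simp only [smul_eq_mul, nsmul_eq_mul]
  have : ((2 : ℕ) : R V) = 0 := by
    have := two_zero (1 : R V)
    rw [one_add_one_eq_two] at this
    exact_mod_cast this
  rw [this]
  simp

lemma xF_ne {V : Type} [DecidableEq V] (u v : V) (h : u ≠ v) : (xF v + xF u : F V) ≠ 0 := by
  unfold xF
  rw [← map_add]
  have h0 : (xx v + xx u : R V) ≠ 0 := by
    intro hc
    have := congrArg (eval (fun w => if w = u then (1 : ZMod 2) else 0)) hc
    simp [xx, Ne.symm h] at this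
  exact (map_ne_zero_iff _ (IsFractionRing.injective (R V) (F V))).2 h0

end Aux_dlog

open Aux_dlog in
theorem p_dlog : S_dd → S_dlog := by
  intro hdd V _ _ A K' v hA
  obtain ⟨-, -, h3, -, h5, h6, -⟩ := hdd V
  -- the values
  have ha : ∀ u, (X u * PJ A K' + if u ∈ K' then PJ A (K'.erase u) else 0) =
      dd K' (X u * PP A) := fun u => (h6 K' u (PP A)).symm
  have hL : pderiv v (PJ A K') = ∑ u ∈ nbr A v, dd K' (Pe A v u) := by
    unfold PJ
    rw [← h3, der_PP A hA v, map_sum]
  have hk : ∀ u ∈ nbr A v, algebraMap (R V) (F V) (dd K' (Pe A v u)) =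
      (xF v + xF u)⁻¹ * (algebraMap (R V) (F V) (dd K' (X v * PP A)) +
        algebraMap (R V) (F V) (dd K' (X u * PP A))) := by
    intro u hu
    have h1 : A v u ≠ 0 := (mem_filter.1 hu).2
    have hne : u ≠ v := by
      rintro rfl
      exact h1 (hA.diag u)
    have e1 : (xx v + xx u) * dd K' (Pe A v u) = dd K' (X v * PP A) + dd K' (X u * PP A) := by
      rw [← h5 K' (xx v + xx u) (Pe A v u) (fun j _ => xx_const u v j), ← map_add, ← add_mul,
        PP_eq A v u h1, xx_add, mul_assoc]
    have e2 := congrArg (algebraMap (R V) (F V)) e1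
    rw [map_mul, map_add, map_add] at e2
    rw [← e2]
    change _ = (xF v + xF u)⁻¹ * ((xF v + xF u) * _)
    rw [inv_mul_cancel_left₀ (xF_ne u v hne)]
  rw [hL, map_sum, sum_congr rfl hk]
  simp_rw [ha]
  set a : V → F V := fun u => algebraMap (R V) (F V) (dd K' (X u * PP A)) with hadef
  change ∑ u ∈ nbr A v, (xF v + xF u)⁻¹ * (a v + a u) = ∑ u, Lap A v u * a u
  rw [← add_sum_erase univ (fun u => Lap A v u * a u) (mem_univ v)]
  have e3 : Lap A v v = ∑ u ∈ nbr A v, (xF v + xF u)⁻¹ := by
    unfold Lap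
    rw [if_pos rfl]
    unfold nbr
    rw [sum_filter]
    refine sum_congr rfl fun w _ => ?_
    by_cases h : A v w = 0
    · rw [if_pos h, if_neg (not_not.2 h)]
    · rw [if_neg h, if_pos h]
  have e4 : ∑ u ∈ univ.erase v, Lap A v u * a u = ∑ u ∈ nbr A v, (xF v + xF u)⁻¹ * a u := by
    have hsub : nbr A v ⊆ univ.erase v := by
      intro u hu
      rw [mem_erase]
      refine ⟨?_, mem_univ _⟩
      rintro rfl
      exact (mem_filter.1 hu).2 (hA.diag u)
    rw [← sum_subset hsub]
    · refine sum_congr rfl fun u hu => ?_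
      have h1 : A v u ≠ 0 := (mem_filter.1 hu).2
      have hne : v ≠ u := by
        rintro rfl
        exact h1 (hA.diag v)
      unfold Lap
      rw [if_neg hne, if_neg h1]
    · intro u hu hn
      have hne : v ≠ u := (ne_of_mem_erase hu).symm
      have h1 : A v u = 0 := by
        by_contra h
        exact hn (mem_filter.2 ⟨mem_univ _, h⟩)
      unfold Lap
      rw [if_neg hne, if_pos h1, zero_mul]
  rw [e3, e4, sum_mul, ← sum_add_distrib]
  exact sum_congr rfl fun u _ => by rw [mul_add]

end Pool.Agent.W390.SD
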