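import Pool.Agent.W390.SD.Stm2
import Pool.Agent.W390.SD.P.dlog
import Pool.Agent.W390.SD.P.ind
import Pool.Agent.W390.SD.P.ctr_out

/-! Project SD, part FLchar: first order lemma, cube divisibility of `P_J`. -/

set_option autoImplicit false

namespace Pool.Agent.W390.SD

open MvPolynomial Finset

namespace Aux_FLchar

section poly

variable {V : Type} [DecidableEq V]

lemma sg_X (w w' v : V) : sg w w' (X v : R V) = X (if v = w then w' else v) := by
  simp [sg]

lemma dvd_add_sg (b b' : V) (p : R V) : (X b + X b' : R V) ∣ p + sg b b' p := by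
  induction p using MvPolynomial.induction_on with
  | C a =>
    have h : sg b b' (C a : R V) = C a := by simp [sg]
    rw [h, Aux_dlog.two_zero]
    exact dvd_zero _
  | add p q hp hq =>
    have h : p + q + sg b b' (p + q) = (p + sg b b' p) + (q + sg b b' q) := by
      rw [map_add]; ring
    rw [h]
    exact dvd_add hp hq
  | mul_X p i hp =>
    have h : p * X i + sg b b' (p * X i) =
        (p + sg b b' p) * X i + sg b b' p * (X i + sg b b' (X i)) -
          (sg b b' p * X i + sg b b' p * X i) := by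
      rw [map_mul]; ring
    rw [h, Aux_dlog.two_zero, sub_zero]
    refine dvd_add (hp.mul_right _) (Dvd.dvd.mul_left ?_ _)
    rw [sg_X]
    by_cases hi : i = b
    · rw [if_pos hi, hi]
    · rw [if_neg hi, Aux_dlog.two_zero]
      exact dvd_zero _

lemma sg_line (b b' : V) : sg b b' (X b + X b' : R V) = 0 := by
  rw [map_add, sg_X, sg_X, if_pos rfl]
  by_cases h : b' = b
  · rw [if_pos h, Aux_dlog.two_zero]
  · rw [if_neg h, Aux_dlog.two_zero]

lemma dvd_iff (b b' : V) (f : R V) : (X b + X b' : R V) ∣ f ↔ sg b b' f = 0 := by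
  constructor
  · rintro ⟨g, rfl⟩
    rw [map_mul, sg_line, zero_mul]
  · intro h
    have := dvd_add_sg b b' f
    rwa [h, add_zero] at this

lemma line_ne (b b' : V) (h : b ≠ b') : (X b + X b' : R V) ≠ 0 := by
  intro h0
  have h1 : (X b : R V) = X b' := CharTwo.add_eq_zero.1 h0
  exact h (MvPolynomial.X_injective h1)

lemma line_const (b b' j : V) (h : j ≠ b) (h' : j ≠ b') : pderiv j (X b + X b' : R V) = 0 := by
  rw [map_add, pderiv_X_of_ne (Ne.symm h), pderiv_X_of_ne (Ne.symm h'), add_zero]

end poly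

section graph

variable {V : Type} [Fintype V] [DecidableEq V]

/-- the product of the factors of all edges but `b b'`, `b u` -/
noncomputable def P2 (A : Gr V) (b b' u : V) : R V :=
  ∏ e ∈ ((edg A).erase s(b, b')).erase s(b, u), fac e

lemma P2_a (A : Gr V) (b b' u : V) (h : A b u ≠ 0) (hu : u ≠ b') :
    (X b + X u) * P2 A b b' u = Aux_dlog.Pe A b b' := by
  unfold P2 Aux_dlog.Pe
  have hm : s(b, u) ∈ (edg A).erase s(b, b') := by
    rw [mem_erase]
    exact ⟨fun he => hu (Sym2.congr_right.1 he), (Aux_dlog.mem_edg A _).2 ⟨b, u, h, rfl⟩⟩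
  rw [← mul_prod_erase ((edg A).erase s(b, b')) fac hm, Aux_dlog.fac_mk]

lemma P2_b (A : Gr V) (b b' u : V) (h : A b b' ≠ 0) (hu : u ≠ b') :
    (X b + X b') * P2 A b b' u = Aux_dlog.Pe A b u := by
  unfold P2 Aux_dlog.Pe
  have hm : s(b, b') ∈ (edg A).erase s(b, u) := by
    rw [mem_erase]
    exact ⟨fun he => hu (Sym2.congr_right.1 he).symm, (Aux_dlog.mem_edg A _).2 ⟨b, b', h, rfl⟩⟩
  rw [← mul_prod_erase ((edg A).erase s(b, u)) fac hm, Aux_dlog.fac_mk, erase_right_comm]

lemma der_Pe (A : Gr V) (hA : IsEv A) (b b' : V) (h : A b b' ≠ 0) :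
    pderiv b (Aux_dlog.Pe A b b') = ∑ u ∈ (nbr A b).erase b', P2 A b b' u := by
  have hne : b ≠ b' := by
    rintro rfl
    exact h (hA.diag _)
  have h1 := Aux_dlog.der_PP A hA b
  have hb' : b' ∈ nbr A b := mem_filter.2 ⟨mem_univ _, h⟩
  rw [Aux_dlog.PP_eq A b b' h, Derivation.leibniz, smul_eq_mul, smul_eq_mul, map_add,
    pderiv_X_self, pderiv_X_of_ne (Ne.symm hne), add_zero, mul_one,
    ← add_sum_erase _ _ hb', add_comm] at h1
  have h2 := add_left_cancel h1
  refine mul_left_cancel₀ (line_ne b b' hne) ?_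
  rw [h2, mul_sum]
  refine sum_congr rfl fun u hu => ?_
  rw [mem_erase] at hu
  exact (P2_b A b b' u h hu.1).symm

end graph

section lin

variable {V : Type} [Fintype V] [DecidableEq V]

lemma indep_ker (hind : S_ind) (A : Gr V) (hA : IsEv A) (J : Finset V) (hJ : PJ A J ≠ 0)
    (c : V → F V) (hc : ∀ v, v ∉ J → c v = 0) (hk : (Lap A).mulVec c = 0) : c = 0 := by
  have h1 := (Aux_ind.nuC_iff A J).1 ((hind V A J hA).1 hJ)
  rw [Fintype.linearIndependent_iff] at h1
  have h2 := h1 (fun j => c j) ?_
  · funext v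
    by_cases hv : v ∈ J
    · exact h2 ⟨v, hv⟩
    · exact hc v hv
  · funext u
    have h3 := congrFun hk u
    rw [Matrix.mulVec, dotProduct] at h3
    rw [Finset.sum_apply, Pi.zero_apply]
    rw [← sum_subset (subset_univ J) (fun v _ hv => by rw [hc v hv, mul_zero])] at h3
    rw [← sum_coe_sort J] at h3
    rw [Pi.zero_apply] at h3
    rw [← h3]
    refine sum_congr rfl fun j _ => ?_
    rw [Pi.smul_apply, smul_eq_mul, mul_comm]
    rfl

end lin

end Aux_FLchar

open Aux_FLchar in
theorem p_FLchar : S_dd → S_ddsg → S_ctr_out → S_ker → S_ind → S_add → S_ctr → S_dlog →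
    S_FLchar := by
  intro hdd hsg hco hker hind _ hctr _ V _ _ H b b' J hH hbb' hbJ hb'J
  have hne : b ≠ b' := by
    rintro rfl
    exact hbb' (hH.diag _)
  obtain ⟨dd0, ddins, ddcomm, -, ddc, ddX, -⟩ := hdd V
  obtain ⟨sgdd, -, -⟩ := hsg V b b' hne
  have hY : IsEv (ctr b b' H) := (hctr V H H b b' hne hH hH).1
  set Y := ctr b b' H with hYdef
  set q : R V := ∏ u ∈ nbr H b ∩ nbr H b', (X u + X b') with hq
  set R0 : R V := Aux_dlog.Pe H b b' with hR0
  have hPP : PP H = (X b + X b') * R0 := Aux_dlog.PP_eq H b b' hbb'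
  -- specialisation of `R0`
  have hsR0 : sg b b' R0 = q ^ 2 * PP Y := by
    obtain ⟨Q, hQ1, hQ2⟩ := (hco V H ∅ b b' hH hne (notMem_empty _) (notMem_empty _)).2 hbb'
    unfold PJ at hQ1 hQ2
    rw [dd0] at hQ1 hQ2
    have : Q = R0 := mul_left_cancel₀ (line_ne b b' hne) (by rw [← hQ1, hPP])
    rw [← this, hQ2]
  have hqsq : ∀ j : V, pderiv j (q ^ 2) = 0 := fun j => Aux_ctr_out.pd_sq j q
  have hline : ∀ j ∈ J, pderiv j (X b + X b' : R V) = 0 := fun j hj =>
    line_const b b' j (fun h => hbJ (h ▸ hj)) (fun h => hb'J (h ▸ hj))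
  have hPJ : PJ H J = (X b + X b') * dd J R0 := by
    unfold PJ
    rw [hPP, ddc J _ _ hline]
  have hsQ0 : sg b b' (dd J R0) = q ^ 2 * PJ Y J := by
    rw [sgdd J R0 hbJ hb'J, hsR0, ddc J _ _ (fun j _ => hqsq j)]
    rfl
  have hq0 : q ≠ 0 := by
    rw [hq, prod_ne_zero_iff]
    intro u hu
    refine line_ne u b' ?_
    rintro rfl
    have := (mem_filter.1 (mem_inter.1 hu).2).2
    exact this (hH.diag _)
  by_cases hJ0 : PJ Y J = 0
  swap
  · constructor
    · intro _ c hc hk _
      exact indep_ker hind Y hY J hJ0 c hc hk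
    · intro _ hdiv
      rw [hPJ, pow_succ', mul_dvd_mul_iff_left (line_ne b b' hne)] at hdiv
      have h1 : (X b + X b' : R V) ∣ dd J R0 := (dvd_pow_self _ two_ne_zero).trans hdiv
      rw [dvd_iff, hsQ0] at h1
      rcases mul_eq_zero.1 h1 with h2 | h2
      · exact hq0 (pow_eq_zero_iff two_ne_zero |>.1 h2)
      · exact hJ0 h2
  -- now `PJ Y J = 0`
  obtain ⟨Q1, hQ1⟩ : (X b + X b' : R V) ∣ dd J R0 := by
    rw [dvd_iff, hsQ0, hJ0, mul_zero]
  have hcube : ((X b + X b' : R V) ^ 3 ∣ PJ H J) ↔ sg b b' Q1 = 0 := by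
    rw [hPJ, hQ1, pow_succ', pow_two, mul_dvd_mul_iff_left (line_ne b b' hne),
      mul_dvd_mul_iff_left (line_ne b b' hne), dvd_iff]
  have hsQ1 : sg b b' Q1 = ∑ u ∈ (nbr H b).erase b', dd J (sg b b' (P2 H b b' u)) := by
    have h1 : sg b b' (pderiv b (dd J R0)) = sg b b' Q1 := by
      rw [hQ1, Derivation.leibniz, smul_eq_mul, smul_eq_mul, map_add (pderiv b), pderiv_X_self,
        pderiv_X_of_ne (Ne.symm hne), add_zero, mul_one, map_add, map_mul, sg_line, zero_mul,
        zero_add]
    rw [← h1, ← ddcomm, sgdd J _ hbJ hb'J, hR0, der_Pe H hH b b' hbb', map_sum, map_sum]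
  have hG : ∀ u ∈ (nbr H b).erase b', (xx u + xx b') * dd J (sg b b' (P2 H b b' u)) =
      q ^ 2 * (if u ∈ J then PJ Y (J.erase u) else 0) := by
    intro u hu
    rw [mem_erase] at hu
    have hub : H b u ≠ 0 := (mem_filter.1 hu.2).2
    have hune : u ≠ b := by
      rintro rfl
      exact hub (hH.diag _)
    have h1 : (X u + X b') * sg b b' (P2 H b b' u) = q ^ 2 * PP Y := by
      rw [← hsR0, hR0, ← P2_a H b b' u hub hu.1, map_mul, map_add, sg_X, sg_X, if_pos rfl,
        if_neg hune, add_comm (X b')]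
    rw [← ddc J _ _ (fun j _ => Aux_dlog.xx_const b' u j), Aux_dlog.xx_add, mul_assoc, h1,
      mul_left_comm, ddc J _ _ (fun j _ => hqsq j), add_mul, map_add, ddX, ddX, if_neg hb'J]
    unfold PJ at hJ0 ⊢
    rw [hJ0, mul_zero, mul_zero, zero_add, zero_add, add_zero]
  set cs : V → F V := fun v => algebraMap (R V) (F V) (if v ∈ J then PJ Y (J.erase v) else 0)
    with hcs
  have hcsb' : cs b' = 0 := by
    rw [hcs]
    simp only [if_neg hb'J, map_zero]
  have hdel : algebraMap (R V) (F V) (sg b b' Q1) =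
      algebraMap (R V) (F V) (q ^ 2) * del H b b' cs := by
    rw [hsQ1, map_sum, del, mul_sum]
    refine sum_congr rfl fun u hu => ?_
    have h1 := congrArg (algebraMap (R V) (F V)) (hG u hu)
    rw [map_mul, map_mul, map_add] at h1
    have hu' : u ≠ b' := (mem_erase.1 hu).1
    have h2 : (xF u + xF b' : F V) ≠ 0 := Aux_dlog.xF_ne b' u hu'.symm
    have h3 : algebraMap (R V) (F V) (xx u) + algebraMap (R V) (F V) (xx b') = xF u + xF b' := rfl
    rw [h3] at h1
    rw [hcsb', add_zero, ← mul_assoc]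
    rw [eq_mul_inv_iff_mul_eq₀ h2, mul_comm, h1]
  have hq2 : algebraMap (R V) (F V) (q ^ 2) ≠ 0 :=
    (map_ne_zero_iff _ (IsFractionRing.injective (R V) (F V))).2 (pow_ne_zero 2 hq0)
  have hiff : sg b b' Q1 = 0 ↔ del H b b' cs = 0 := by
    constructor
    · intro h
      rw [h, map_zero] at hdel
      rcases mul_eq_zero.1 hdel.symm with h1 | h1
      · exact absurd h1 hq2
      · exact h1
    · intro h
      rw [h, mul_zero] at hdel
      exact Aux_ind.alg_inj hdel
  rw [hcube, hiff]
  have hlin : ∀ (x y : F V) (c d : V → F V), del H b b' (x • c + y • d) =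
      x * del H b b' c + y * del H b b' d := by
    intro x y c d
    unfold del
    rw [mul_sum, mul_sum, ← sum_add_distrib]
    refine sum_congr rfl fun u _ => ?_
    simp only [Pi.add_apply, Pi.smul_apply, smul_eq_mul]
    ring
  by_cases hall : ∀ v ∈ J, PJ Y (J.erase v) = 0
  · -- at least two dimensions of kernel vectors
    have hcs0 : cs = 0 := by
      funext v
      rw [hcs]
      by_cases hv : v ∈ J
      · simp only [if_pos hv, hall v hv, map_zero, Pi.zero_apply]
      · simp only [if_neg hv, map_zero, Pi.zero_apply]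
    have hd0 : del H b b' cs = 0 := by
      rw [hcs0]
      unfold del
      simp
    refine ⟨fun h => absurd hd0 h, fun h => ?_⟩
    exfalso
    have hnonempty : (J.powerset.filter fun K' => PJ Y K' ≠ 0).Nonempty := by
      refine ⟨∅, ?_⟩
      rw [mem_filter, mem_powerset]
      refine ⟨empty_subset _, ?_⟩
      unfold PJ
      rw [dd0]
      exact Aux_ind.PP_ne_zero Y hY
    obtain ⟨K', hK', hmax⟩ := exists_max_image _ Finset.card hnonempty
    rw [mem_filter, mem_powerset] at hK'
    obtain ⟨hKJ, hK0⟩ := hK'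
    have hv0 : ∀ v ∈ J, v ∉ K' → PJ Y (insert v K') = 0 := by
      intro v hvJ hvK
      by_contra hcon
      have := hmax (insert v K') (by
        rw [mem_filter, mem_powerset]
        exact ⟨insert_subset hvJ hKJ, hcon⟩)
      rw [card_insert_of_notMem hvK] at this
      omega
    obtain ⟨v1, hv1J, hv1K⟩ : ∃ v ∈ J, v ∉ K' := by
      by_contra hcon
      push Not at hcon
      have : K' = J := Subset.antisymm hKJ hcon
      exact hK0 (this ▸ hJ0)
    obtain ⟨v2, hv2J, hv2K, hv12⟩ : ∃ v ∈ J, v ∉ K' ∧ v ≠ v1 := by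
      by_contra hcon
      push Not at hcon
      have : K' = J.erase v1 := by
        refine Subset.antisymm (fun v hv => mem_erase.2 ⟨?_, hKJ hv⟩) (fun v hv => ?_)
        · rintro rfl
          exact hv1K hv
        · by_contra hvK
          exact (mem_erase.1 hv).1 (hcon v (mem_erase.1 hv).2 hvK)
      exact hK0 (this ▸ hall v1 hv1J)
    have hk1 := hker V Y K' v1 hY hv1K (hv0 v1 hv1J hv1K)
    have hk2 := hker V Y K' v2 hY hv2K (hv0 v2 hv2J hv2K)
    set c1 : V → F V := fun u => algebraMap (R V) (F V)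
      (if u = v1 then PJ Y K' else if u ∈ K' then PJ Y (insert v1 (K'.erase u)) else 0) with hc1
    set c2 : V → F V := fun u => algebraMap (R V) (F V)
      (if u = v2 then PJ Y K' else if u ∈ K' then PJ Y (insert v2 (K'.erase u)) else 0) with hc2
    have hs1 : ∀ v, v ∉ J → c1 v = 0 := by
      intro v hv
      have e1 : v ≠ v1 := fun e => hv (e ▸ hv1J)
      have e2 : v ∉ K' := fun e => hv (hKJ e)
      simp only [hc1, if_neg e1, if_neg e2, map_zero]
    have hs2 : ∀ v, v ∉ J → c2 v = 0 := by
      intro v hv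
      have e1 : v ≠ v2 := fun e => hv (e ▸ hv2J)
      have e2 : v ∉ K' := fun e => hv (hKJ e)
      simp only [hc2, if_neg e1, if_neg e2, map_zero]
    have hval : algebraMap (R V) (F V) (PJ Y K') ≠ 0 :=
      (map_ne_zero_iff _ (IsFractionRing.injective (R V) (F V))).2 hK0
    have e11 : c1 v1 = algebraMap (R V) (F V) (PJ Y K') := by
      simp only [hc1, if_true]
    have e22 : c2 v2 = algebraMap (R V) (F V) (PJ Y K') := by
      simp only [hc2, if_true]
    have e12 : c1 v2 = 0 := by
      simp only [hc1, if_neg hv12, if_neg hv2K, map_zero]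
    have e21 : c2 v1 = 0 := by
      simp only [hc2, if_neg (Ne.symm hv12), if_neg hv1K, map_zero]
    by_cases hd : del H b b' c1 = 0
    · have := congrFun (h c1 hs1 hk1 hd) v1
      rw [e11] at this
      exact hval this
    · have h3 := h ((del H b b' c2) • c1 + (-(del H b b' c1)) • c2)
        (fun v hv => by
          simp only [Pi.add_apply, Pi.smul_apply, smul_eq_mul, hs1 v hv, hs2 v hv, mul_zero,
            add_zero])
        (by rw [Matrix.mulVec_add, Matrix.mulVec_smul, Matrix.mulVec_smul, hk1, hk2, smul_zero,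
              smul_zero, add_zero])
        (by rw [hlin]; ring)
      have := congrFun h3 v2
      simp only [Pi.add_apply, Pi.smul_apply, smul_eq_mul, e12, e22, mul_zero, zero_add,
        Pi.zero_apply, mul_eq_zero, neg_eq_zero] at this
      rcases this with h4 | h4
      · exact hd h4
      · exact hval h4
  · push Not at hall
    obtain ⟨v0, hv0J, hv00⟩ := hall
    have hins : insert v0 (J.erase v0) = J := insert_erase hv0J
    have hk := hker V Y (J.erase v0) v0 hY (notMem_erase _ _) (by rw [hins]; exact hJ0)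
    have hcs' : (fun u => algebraMap (R V) (F V) (if u = v0 then PJ Y (J.erase v0) else
        if u ∈ J.erase v0 then PJ Y (insert v0 ((J.erase v0).erase u)) else 0)) = cs := by
      funext u
      rw [hcs]
      by_cases hu : u = v0
      · subst hu
        simp only [if_true, if_pos hv0J]
      · by_cases huJ : u ∈ J
        · simp only [if_neg hu, if_pos huJ, if_pos (mem_erase.2 ⟨hu, huJ⟩)]
          congr 2
          rw [erase_right_comm, insert_erase]
          exact mem_erase.2 ⟨Ne.symm hu, hv0J⟩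
        · have h2 : u ∉ J.erase v0 := fun h => huJ (mem_erase.1 h).2
          simp only [if_neg hu, if_neg huJ, if_neg h2]
    rw [hcs'] at hk
    have hcsv0 : cs v0 ≠ 0 := by
      simp only [hcs, if_pos hv0J]
      exact (map_ne_zero_iff _ (IsFractionRing.injective (R V) (F V))).2 hv00
    have hcsJ : ∀ v, v ∉ J → cs v = 0 := by
      intro v hv
      simp only [hcs, if_neg hv, map_zero]
    constructor
    · intro hdne c hc hck hdc
      -- `c` is a multiple of `cs`
      have h1 : c + (-(c v0 / cs v0)) • cs = 0 := by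
        refine indep_ker hind Y hY (J.erase v0) hv00 _ ?_ ?_
        · intro v hv
          by_cases hvv : v = v0
          · subst hvv
            simp only [Pi.add_apply, Pi.smul_apply, smul_eq_mul]
            field_simp
            ring
          · have hvJ : v ∉ J := fun h => hv (mem_erase.2 ⟨hvv, h⟩)
            simp only [Pi.add_apply, Pi.smul_apply, smul_eq_mul, hc v hvJ, hcsJ v hvJ, mul_zero,
              add_zero]
        · rw [Matrix.mulVec_add, Matrix.mulVec_smul, hck, hk, smul_zero, add_zero]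
      have h2 : del H b b' ((1 : F V) • c + (-(c v0 / cs v0)) • cs) = 0 := by
        rw [one_smul, h1]
        unfold del
        simp
      rw [hlin, hdc, mul_zero, zero_add] at h2
      rcases mul_eq_zero.1 h2 with h3 | h3
      · rw [h3, zero_smul, add_zero] at h1
        exact h1
      · exact absurd h3 hdne
    · intro h hd0
      exact hcsv0 (by rw [h cs hcsJ hk hd0]; rfl)

end Pool.Agent.W390.SD
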