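import Pool.Agent.W390.SD.Stm2

/-!
# SD-TA: dependent sets give tight parts
-/
set_option autoImplicit false

namespace Pool.Agent.W390.SD

open MvPolynomial Finset

namespace Aux_TA

/-- constants: all partial derivatives vanish -/
def Cst {V : Type} (M : R V) : Prop := ∀ p : V, pderiv p M = 0

theorem cst_zero {V : Type} : Cst (0 : R V) := fun _ => map_zero _

theorem cst_one {V : Type} : Cst (1 : R V) := fun p => by
  simp

theorem cst_add {V : Type} {M N : R V} (hM : Cst M) (hN : Cst N) : Cst (M + N) := fun p => by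
  rw [map_add, hM p, hN p, add_zero]

theorem cst_mul {V : Type} {M N : R V} (hM : Cst M) (hN : Cst N) : Cst (M * N) := fun p => by
  rw [Derivation.leibniz, hM p, hN p, smul_zero, smul_zero, add_zero]

theorem cst_prod {V ι : Type} (s : Finset ι) (f : ι → R V) (h : ∀ i ∈ s, Cst (f i)) :
    Cst (∏ i ∈ s, f i) := by
  classical
  induction s using Finset.induction_on with
  | empty => rw [prod_empty]; exact cst_one
  | insert a s ha ih =>
    rw [prod_insert ha]
    exact cst_mul (h a (mem_insert_self a s)) (ih fun i hi => h i (mem_insert_of_mem hi))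

theorem two_zero {V : Type} (a : R V) : a + a = 0 := CharTwo.add_self_eq_zero a

theorem cst_xx {V : Type} (v : V) : Cst (xx v : R V) := fun p => by
  rw [xx, pow_two, Derivation.leibniz]
  exact two_zero _

/-- the common denominator -/
noncomputable def Dn (V : Type) [Fintype V] [DecidableEq V] : R V :=
  ∏ q ∈ (univ : Finset (V × V)).filter (fun q => q.1 ≠ q.2), (xx q.1 + xx q.2)

theorem xx_ne {V : Type} [DecidableEq V] {a b : V} (h : a ≠ b) : (xx a + xx b : R V) ≠ 0 := by
  intro h0
  have h1 := congrArg (fun f : R V => coeff (Finsupp.single a 2) f) h0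
  simp only [xx, coeff_add, coeff_zero] at h1
  rw [X_pow_eq_monomial, X_pow_eq_monomial, coeff_monomial, coeff_monomial, if_pos rfl,
    if_neg] at h1
  · simp at h1
  · intro h2
    have h3 := DFunLike.congr_fun h2 a
    rw [Finsupp.single_eq_same, Finsupp.single_apply, if_neg (Ne.symm h)] at h3
    exact absurd h3 (by norm_num)

theorem Dn_ne (V : Type) [Fintype V] [DecidableEq V] : Dn V ≠ 0 := by
  rw [Dn, prod_ne_zero_iff]
  intro q hq
  exact xx_ne (mem_filter.1 hq).2

/-- elements with denominator `Dn` and constant numerator -/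
def Fr {V : Type} [Fintype V] [DecidableEq V] (y : F V) : Prop :=
  ∃ M : R V, Cst M ∧ algebraMap (R V) (F V) (Dn V) * y = algebraMap (R V) (F V) M

theorem fr_zero {V : Type} [Fintype V] [DecidableEq V] : Fr (0 : F V) :=
  ⟨0, cst_zero, by rw [mul_zero, map_zero]⟩

theorem fr_add {V : Type} [Fintype V] [DecidableEq V] {y z : F V} (hy : Fr y) (hz : Fr z) :
    Fr (y + z) := by
  obtain ⟨M, hM, h1⟩ := hy
  obtain ⟨N, hN, h2⟩ := hz
  exact ⟨M + N, cst_add hM hN, by rw [mul_add, h1, h2, map_add]⟩

theorem fr_sum {V ι : Type} [Fintype V] [DecidableEq V] (s : Finset ι) (f : ι → F V)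
    (h : ∀ i ∈ s, Fr (f i)) : Fr (∑ i ∈ s, f i) := by
  classical
  induction s using Finset.induction_on with
  | empty => rw [sum_empty]; exact fr_zero
  | insert a s ha ih =>
    rw [sum_insert ha]
    exact fr_add (h a (mem_insert_self a s)) (ih fun i hi => h i (mem_insert_of_mem hi))

theorem fr_inv {V : Type} [Fintype V] [DecidableEq V] (a b : V) :
    Fr ((xF a + xF b)⁻¹ : F V) := by
  by_cases hab : a = b
  · subst hab
    have : (xF a + xF a : F V) = 0 := by
      rw [xF, ← map_add, two_zero, map_zero]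
    rw [this, inv_zero]
    exact fr_zero
  · set s := (univ : Finset (V × V)).filter (fun q => q.1 ≠ q.2) with hs
    have hm : (a, b) ∈ s := by
      rw [hs, mem_filter]
      exact ⟨mem_univ _, hab⟩
    refine ⟨∏ q ∈ s.erase (a, b), (xx q.1 + xx q.2), ?_, ?_⟩
    · exact cst_prod _ _ fun q _ => cst_add (cst_xx _) (cst_xx _)
    · have h1 : Dn V = (xx a + xx b) * ∏ q ∈ s.erase (a, b), (xx q.1 + xx q.2) := by
        rw [Dn, ← mul_prod_erase s (fun q => (xx q.1 + xx q.2 : R V)) hm]
      have h2 : (xF a + xF b : F V) = algebraMap (R V) (F V) (xx a + xx b) := by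
        rw [xF, xF, map_add]
      have h3 : (xF a + xF b : F V) ≠ 0 := by
        rw [h2]
        exact (map_ne_zero_iff _ (IsFractionRing.injective (R V) (F V))).2 (xx_ne hab)
      rw [h1, map_mul, ← h2, mul_assoc, mul_comm (algebraMap (R V) (F V) _) _, ← mul_assoc,
        mul_inv_cancel₀ h3, one_mul]

theorem fr_lap {V : Type} [Fintype V] [DecidableEq V] (A : Gr V) (u v : V) : Fr (Lap A u v) := by
  unfold Lap
  by_cases h : u = v
  · simp only [if_pos h]
    refine fr_sum _ _ fun w _ => ?_
    by_cases h2 : A u w = 0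
    · rw [if_pos h2]; exact fr_zero
    · rw [if_neg h2]; exact fr_inv _ _
  · simp only [if_neg h]
    by_cases h2 : A u v = 0
    · rw [if_pos h2]; exact fr_zero
    · rw [if_neg h2]; exact fr_inv _ _

/-- derivatives of kernel vectors are kernel vectors -/
theorem dker {V : Type} [Fintype V] [DecidableEq V] (A : Gr V) (q : V → R V)
    (h : (Lap A).mulVec (fun u => algebraMap (R V) (F V) (q u)) = 0) (p : V) :
    (Lap A).mulVec (fun u => algebraMap (R V) (F V) (pderiv p (q u))) = 0 := by
  have hinj := IsFractionRing.injective (R V) (F V)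
  have hD : algebraMap (R V) (F V) (Dn V) ≠ 0 := (map_ne_zero_iff _ hinj).2 (Dn_ne V)
  have hM : ∀ v u, ∃ M : R V, Cst M ∧
      algebraMap (R V) (F V) (Dn V) * Lap A v u = algebraMap (R V) (F V) M :=
    fun v u => fr_lap A v u
  choose M hM1 hM2 using hM
  funext v
  have h1 := congrFun h v
  rw [Matrix.mulVec, dotProduct, Pi.zero_apply] at h1 ⊢
  have h2 : ∑ u, M v u * q u = 0 := by
    apply hinj
    rw [map_sum, map_zero]
    have h3 : ∑ u, algebraMap (R V) (F V) (M v u * q u) =
        algebraMap (R V) (F V) (Dn V) * ∑ u, Lap A v u * algebraMap (R V) (F V) (q u) := by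
      rw [mul_sum]
      refine sum_congr rfl fun u _ => ?_
      rw [map_mul, ← hM2, mul_assoc]
    rw [h3, h1, mul_zero]
  have h4 : ∑ u, M v u * pderiv p (q u) = 0 := by
    have h5 := congrArg (pderiv p) h2
    rw [map_sum, map_zero] at h5
    rw [← h5]
    refine sum_congr rfl fun u _ => ?_
    rw [Derivation.leibniz, hM1 v u p, smul_zero, add_zero, smul_eq_mul]
  have h6 : algebraMap (R V) (F V) (Dn V) *
      ∑ u, Lap A v u * algebraMap (R V) (F V) (pderiv p (q u)) = 0 := by
    rw [mul_sum]
    have h7 := congrArg (algebraMap (R V) (F V)) h4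
    rw [map_sum, map_zero] at h7
    rw [← h7]
    refine sum_congr rfl fun u _ => ?_
    rw [map_mul, ← hM2, mul_assoc]
  exact (mul_eq_zero.1 h6).resolve_left hD

/-- kernel vectors supported on an independent set vanish -/
theorem indep_zero {V : Type} [Fintype V] [DecidableEq V] (A : Gr V) (J : Finset V)
    (hJ : nuC A J = J.card) (f : V → F V) (hf : (Lap A).mulVec f = 0) (h0 : ∀ v, v ∉ J → f v = 0) :
    f = 0 := by
  have hli : LinearIndependent (F V) (fun j : J => (Lap A).col (j : V)) := by
    rw [linearIndependent_iff_card_eq_finrank_span, Set.finrank, Fintype.card_coe, ← hJ, nuC,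
      Set.image_eq_range]
    rfl
  have h1 : ∑ j : J, f j • (Lap A).col (j : V) = 0 := by
    have h2 : ∑ j : J, f j • (Lap A).col (j : V) = ∑ j ∈ J, f j • (Lap A).col j :=
      Finset.sum_coe_sort J (fun j => f j • (Lap A).col j)
    rw [h2]
    have h3 : ∑ j ∈ J, f j • (Lap A).col j = ∑ j, f j • (Lap A).col j := by
      refine Finset.sum_subset (subset_univ J) fun j _ hj => ?_
      rw [h0 j hj, zero_smul]
    rw [h3, ← hf]
    funext v
    rw [Finset.sum_apply, Matrix.mulVec, dotProduct]
    refine sum_congr rfl fun u _ => ?_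
    rw [Pi.smul_apply, smul_eq_mul, mul_comm]
    rfl
  have h4 := Fintype.linearIndependent_iff.1 hli (fun j => f j) h1
  funext v
  by_cases hv : v ∈ J
  · exact h4 ⟨v, hv⟩
  · exact h0 v hv

theorem io_inj {V : Type} : Function.Injective (io : R V →ₐ[ZMod 2] R (Option V)) :=
  rename_injective _ (Option.some_injective V)

theorem ta_inj {V : Type} [DecidableEq V] (u : V) :
    Function.Injective (ta u : R V →ₐ[ZMod 2] R (Option V)) := by
  refine rename_injective _ ?_
  intro a b h
  by_cases ha : a = u
  · by_cases hb : b = u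
    · rw [ha, hb]
    · simp only [if_pos ha, if_neg hb] at h
      exact absurd h (by simp)
  · by_cases hb : b = u
    · simp only [if_neg ha, if_pos hb] at h
      exact absurd h (by simp)
    · simp only [if_neg ha, if_neg hb] at h
      exact Option.some_injective V h

/-- independence is preserved under proportionality of logarithmic derivatives -/
theorem indep_trans {V : Type} [DecidableEq V] (u : V) (Q Q' : R V) (hQ : Q ≠ 0)
    (h : ∀ p, Q * pderiv p Q' = Q' * pderiv p Q) (hi : IndepOf u Q) : IndepOf u Q' := by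
  intro p
  have h1 : io Q * io (pderiv p Q') = io Q' * io (pderiv p Q) := by
    rw [← map_mul, ← map_mul, h p]
  have h2 : ta u Q * ta u (pderiv p Q') = ta u Q' * ta u (pderiv p Q) := by
    rw [← map_mul, ← map_mul, h p]
  have h3 := hi p
  have h4 : io Q ≠ 0 := fun h => hQ (io_inj (by rw [h, map_zero]))
  have h5 : ta u Q ≠ 0 := fun h => hQ (ta_inj u (by rw [h, map_zero]))
  have h6 : (io Q * ta u Q) * (io Q' * ta u (pderiv p Q') + ta u Q' * io (pderiv p Q')) = 0 := by
    linear_combination (io Q * io Q') * h2 + (ta u Q * ta u Q') * h1 +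
      (io Q' * ta u Q') * h3
  exact (mul_eq_zero.1 h6).resolve_left (mul_ne_zero h4 h5)

end Aux_TA

open Aux_TA in
theorem p_TA : S_dd → S_dlog → S_ker → S_ind → S_claim1 → S_hex → S_ta0 → S_basis → S_TA := by
  intro _ _ hker hind hclaim hhex hta0 _ V _ _ G C hG hC hCe h2
  have hinj := IsFractionRing.injective (R V) (F V)
  obtain ⟨v₀, hv₀⟩ : C.Nonempty := by
    rw [← Finset.card_pos]
    omega
  set q : V → R V := fun u => if u ∈ C then PJ G (C.erase u) else 0 with hq
  have hqC : ∀ u ∈ C, q u = PJ G (C.erase u) := fun u hu => by rw [hq]; simp only [if_pos hu]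
  have hk : (Lap G).mulVec (fun u => algebraMap (R V) (F V) (q u)) = 0 := by
    have h3 := hker V G (C.erase v₀) v₀ hG (notMem_erase v₀ C)
      (by rw [insert_erase hv₀]; exact hC)
    rw [← h3]
    congr 1
    funext u
    congr 1
    by_cases hu : u = v₀
    · rw [if_pos hu, hu, hqC v₀ hv₀]
    · rw [if_neg hu]
      by_cases hu2 : u ∈ C
      · rw [if_pos (mem_erase.2 ⟨hu, hu2⟩), hqC u hu2]
        congr 1
        ext x
        simp only [mem_erase, mem_insert]
        constructor
        · rintro ⟨h4, h5⟩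
          by_cases h6 : x = v₀
          · exact Or.inl h6
          · exact Or.inr ⟨h4, h6, h5⟩
        · rintro (h4 | ⟨h4, h5, h6⟩)
          · exact ⟨fun h => hu (h.symm.trans h4), h4 ▸ hv₀⟩
          · exact ⟨h4, h6⟩
      · rw [if_neg (fun h => hu2 (mem_erase.1 h).2), hq]
        simp only [if_neg hu2]
  have hqne : ∀ u ∈ C, q u ≠ 0 := fun u hu => by rw [hqC u hu]; exact hCe u hu
  -- the kernel vectors supported on C are proportional to q
  have hline : ∀ f : V → F V, (Lap G).mulVec f = 0 → (∀ v, v ∉ C → f v = 0) →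
      ∃ l : F V, ∀ u, f u = l * algebraMap (R V) (F V) (q u) := by
    intro f hf hf0
    have hq0 : algebraMap (R V) (F V) (q v₀) ≠ 0 := (map_ne_zero_iff _ hinj).2 (hqne v₀ hv₀)
    refine ⟨f v₀ / algebraMap (R V) (F V) (q v₀), ?_⟩
    have h3 := indep_zero G (C.erase v₀) ((hind V G _ hG).1 (hCe v₀ hv₀))
      (f - (f v₀ / algebraMap (R V) (F V) (q v₀)) • fun u => algebraMap (R V) (F V) (q u))
      (by rw [Matrix.mulVec_sub, Matrix.mulVec_smul, hf, hk, smul_zero, sub_zero]) (by
        intro v hv
        rw [Pi.sub_apply, Pi.smul_apply, smul_eq_mul]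
        by_cases hvv : v = v₀
        · rw [hvv, div_mul_cancel₀ _ hq0, sub_self]
        · have hvC : v ∉ C := fun h => hv (mem_erase.2 ⟨hvv, h⟩)
          rw [hf0 v hvC, hq]
          simp only [if_neg hvC]
          rw [map_zero, mul_zero, sub_zero])
    intro u
    have h4 := congrFun h3 u
    rw [Pi.sub_apply, Pi.smul_apply, smul_eq_mul, Pi.zero_apply, sub_eq_zero] at h4
    exact h4
  -- proportionality of the derivatives
  have hprop : ∀ u v p, q u * pderiv p (q v) = q v * pderiv p (q u) := by
    intro u v p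
    obtain ⟨l, hl⟩ := hline (fun u => algebraMap (R V) (F V) (pderiv p (q u)))
      (dker G q hk p) (by
        intro v hv
        rw [hq]
        simp only [if_neg hv]
        rw [map_zero, map_zero])
    apply hinj
    rw [map_mul, map_mul, hl u, hl v]
    ring
  have hJ : ∀ u ∈ C.erase v₀, IndepOf u (PJ G (C.erase v₀)) := by
    intro u hu
    have huC : u ∈ C := (mem_erase.1 hu).2
    have h3 := hclaim V G C u hG huC hC
    rw [← hqC u huC] at h3
    rw [← hqC v₀ hv₀]
    exact indep_trans u (q u) (q v₀) (hqne u huC) (fun p => hprop u v₀ p) h3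
  obtain ⟨H, hH, hd, hc⟩ := hhex V G (C.erase v₀) hG (hCe v₀ hv₀) hJ
  obtain ⟨ht, hn⟩ := hta0 V G H (C.erase v₀) hG hH hd (hCe v₀ hv₀) hc
  refine ⟨H, ht, ?_⟩
  rw [hn, card_erase_of_mem hv₀]
  omega

end Pool.Agent.W390.SD
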