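import Pool.Agent.W390.SD.Stm3

/-! Project SD: `S_TLline`. -/

namespace Pool.Agent.W390.SD

open MvPolynomial Finset

namespace Aux_TLline

set_option linter.unusedSectionVars false

variable {V : Type} [Fintype V] [DecidableEq V]

theorem mem_supp {A : Gr V} {v : V} : v ∈ supp A ↔ ∃ u, A v u ≠ 0 := by
  unfold supp nbr
  rw [mem_filter]
  constructor
  · rintro ⟨_, u, hu⟩
    exact ⟨u, (mem_filter.1 hu).2⟩
  · rintro ⟨u, hu⟩
    exact ⟨mem_univ _, u, mem_filter.2 ⟨mem_univ _, hu⟩⟩

theorem mem_nbr {A : Gr V} {v u : V} : u ∈ nbr A v ↔ A v u ≠ 0 := by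
  unfold nbr
  rw [mem_filter]
  exact ⟨fun h => h.2, fun h => ⟨mem_univ _, h⟩⟩

theorem indec_eq {G P : Gr V} (h : Indec G) (hP : Tight P G) (h0 : P ≠ 0) : P = G := by
  rcases h.2.2 P hP with h1 | h1
  · exact absurd h1 h0
  · exact h1

theorem K_apply (S : Finset V) (u v : V) :
    K S u v = if u ∈ S ∧ v ∈ S ∧ u ≠ v then 1 else 0 := rfl

/-- a kernel vector vanishing on `A` vanishes on `B` if the ranks agree -/
theorem vanish {Y : Gr V} {A B : Finset V} (hAB : A ⊆ B) (hrk : rk Y B ≤ rk Y A)
    {f : V → F V} (hf : (Lap Y).mulVec f = 0) (h0 : ∀ v ∈ A, f v = 0) : ∀ v ∈ B, f v = 0 := by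
  classical
  let KK := LinearMap.ker (Lap Y).mulVecLin
  let TB := LinearMap.funLeft (F V) (F V) (fun b : B => (b : V))
  let TA := LinearMap.funLeft (F V) (F V) (fun b : A => (b : V))
  let π := LinearMap.funLeft (F V) (F V) (fun a : A => (⟨(a : V), hAB a.2⟩ : B))
  have hcomp : TA = π ∘ₗ TB := by
    ext x a
    rfl
  let W := Submodule.map TB KK
  have hmap : Submodule.map π W = Submodule.map TA KK := by
    rw [hcomp, Submodule.map_comp]
  have hfin : Module.finrank (F V) W ≤ Module.finrank (F V) (Submodule.map π W) := by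
    rw [hmap]
    exact hrk
  have hker : LinearMap.ker (π.domRestrict W) = ⊥ := by
    have h1 := LinearMap.finrank_range_add_finrank_ker (π.domRestrict W)
    have h2 : LinearMap.range (π.domRestrict W) = Submodule.map π W := by
      rw [LinearMap.range_domRestrict]
    rw [h2] at h1
    have h3 : Module.finrank (F V) (LinearMap.ker (π.domRestrict W)) = 0 := by omega
    exact Submodule.finrank_eq_zero.1 h3
  have hfK : f ∈ KK := by
    change f ∈ LinearMap.ker (Lap Y).mulVecLin
    rw [LinearMap.mem_ker]
    exact hf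
  have hfW : TB f ∈ W := Submodule.mem_map_of_mem hfK
  have hz : (⟨TB f, hfW⟩ : W) ∈ LinearMap.ker (π.domRestrict W) := by
    rw [LinearMap.mem_ker]
    change π (TB f) = 0
    ext a
    change f (a : V) = 0
    exact h0 _ a.2
  rw [hker, Submodule.mem_bot] at hz
  have hz2 : TB f = 0 := congrArg Subtype.val hz
  intro v hv
  exact congrFun hz2 ⟨v, hv⟩

end Aux_TLline

open Aux_TLline in
theorem p_TLline : S_add → S_zero → S_rk → S_rkm → S_tcons → S_dorth → S_clique → S_clind →
    S_small → S_ctr → S_ctrK → S_ctrnu → S_ctrt → S_sw → S_FL2 → S_blocks → S_fold → S_TLline := by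
  intro hadd hzero _ hrkm htcons hdorth hclique hclind hsmall hctr hctrK _ hctrt hsw hFL2 hblocks
    hfold
  intro V _ _ H T b b' hH hgood hSD hUQ hT hTY hb' hrk3 hrk4
  classical
  have hbb : b ≠ b' := by
    rintro rfl
    exact hgood.1 (hH.diag b)
  have hbH : b ∈ supp H := mem_supp.2 ⟨b', hgood.1⟩
  have hb'H : b' ∈ supp H := mem_supp.2 ⟨b, by rw [hH.symm]; exact hgood.1⟩
  set Y := ctr b b' H with hYdef
  have hcH := hctr V H H b b' hbb hH hH
  have hY : IsEv Y := hcH.1
  have hbY : b ∉ supp Y := hcH.2.2.2.1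
  have hsuppY : supp Y ⊆ (supp H).erase b := hcH.2.2.2.2.2.1 hb'H
  have hcardY : (supp Y).card ≤ (supp H).card :=
    card_le_card (hsuppY.trans (erase_subset _ _))
  have hR := hrkm V Y Y hY hY
  -- supports of indecomposables
  have hcard3 : ∀ P : Gr V, Indec P → 3 ≤ (supp P).card := by
    intro P hP
    have h1 := hzero V P hP.1
    have h2 : nu P ≠ 0 := fun h => hP.2.1 (h1.1.1 h)
    have h3 := h1.2.1 hP.2.1
    omega
  have hT3 := hcard3 T hT
  have hbT : b ∉ supp T := fun h => hbY ((htcons V Y T hY hTY).2.1 h)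
  have hTr2 : 2 ≤ rk Y (supp T) := hR.1 _ (by omega)
  -- the functional
  obtain ⟨f, hf, hf0, hdel⟩ := ((hFL2 V H b b' (supp T) hH hgood hbT hb').2).1 (by
    rw [hrk4, hrk3])
  have hfb' : f b' = 0 := hf0 b' (mem_insert_self _ _)
  have hfT : ∀ v ∈ supp T, f v = 0 := fun v hv => hf0 v (mem_insert_of_mem hv)
  -- key facts for a part `P`
  have key : ∀ P : Gr V, Indec P → Tight P Y → ¬ Orth T P Y →
      b ∉ supp P ∧ b' ∉ supp P ∧ (∀ v ∈ supp P, f v = 0) ∧
      rk H (insert b (insert b' (supp P))) = 4 := by
    intro P hP hPY hor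
    have hbP : b ∉ supp P := fun h => hbY ((htcons V Y P hY hPY).2.1 h)
    by_cases hPT : T = P
    · subst hPT
      exact ⟨hbP, hb', hfT, hrk4⟩
    · have hle : rk Y (supp T ∪ supp P) ≤ 2 := by
        by_contra hc
        exact hor (hUQ Y T P hY hcardY hT hP hTY hPY hPT (by omega))
      have hP3 := hcard3 P hP
      have hPr2 : 2 ≤ rk Y (supp P) := hR.1 _ (by omega)
      have hb'P : b' ∉ supp P := by
        intro h
        have h1 := hR.2.1 (insert b' (supp T)) (supp T ∪ supp P) (by
          intro v hv
          rcases mem_insert.1 hv with rfl | hv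
          · exact mem_union_right _ h
          · exact mem_union_left _ hv)
        omega
      have hfP : ∀ v ∈ supp P, f v = 0 := by
        intro v hv
        have hle' : rk Y (supp T ∪ supp P) ≤ rk Y (supp T) := by omega
        exact vanish (subset_union_left : supp T ⊆ supp T ∪ supp P) hle' hf hfT v
          (mem_union_right _ hv)
      refine ⟨hbP, hb'P, hfP, ?_⟩
      have h1 := hR.2.2.2.1 (supp P) b'
      have h2 := hR.2.2.2.2.1 (insert b' (supp P)) (supp T ∪ supp P)
      have h3 := hR.2.1 (insert b' (supp T)) (insert b' (supp P) ∪ (supp T ∪ supp P)) (by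
        intro v hv
        rcases mem_insert.1 hv with rfl | hv
        · exact mem_union_left _ (mem_insert_self _ _)
        · exact mem_union_right _ (mem_union_left _ hv))
      have h4 := hR.2.1 (supp P) (insert b' (supp P) ∩ (supp T ∪ supp P)) (by
        intro v hv
        exact mem_inter.2 ⟨mem_insert_of_mem hv, mem_union_right _ hv⟩)
      have h5 := hR.2.1 (supp P) (supp T ∪ supp P) subset_union_right
      have h6 : rk Y (insert b' (supp P)) = 3 := by omega
      have h7 := ((hFL2 V H b b' (supp P) hH hgood hbP hb'P).2).2 ⟨f, hf, (by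
        intro v hv
        rcases mem_insert.1 hv with rfl | hv
        · exact hfb'
        · exact hfP v hv), hdel⟩
      rw [h7]
      change rk Y (insert b' (supp P)) + 1 = 4
      omega
  obtain ⟨L, hL, hLsum, hLnu, hLt, hLcs, hLcnu, hLP⟩ := hblocks V H b b' hH hgood
  -- the main claim
  have claim : ∀ Q ∈ L, ¬ Orth T (ctr b b' Q) Y → b ∉ supp Q := by
    intro Q hQ hor hbQ
    obtain ⟨P, hP, hPQ, hPY, hPor⟩ := hLP T hTY Q hQ hor
    obtain ⟨hbP, hb'P, hfP, hrkP⟩ := key P hP hPY hPor
    have hQi := (hL Q hQ).1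
    have hQt := (hL Q hQ).2
    have hcQ := hctr V Q Q b b' hbb hQi.1 hQi.1
    by_cases hb'Q : b' ∈ supp Q
    · have hsQ : supp (ctr b b' Q) ⊆ (supp Q).erase b := hcQ.2.2.2.2.2.1 hb'Q
      have hPsub : supp P ⊆ (supp Q).erase b :=
        ((htcons V (ctr b b' Q) P hcQ.1 hPQ).2.1).trans hsQ
      have hnotsmall : ¬ (supp Q).card ≤ nu Q + 3 := by
        intro hsm
        have h1 := (htcons V H Q hH hQt).2.2.1 (supp Q)
        have h2 := (hrkm V Q Q hQi.1 hQi.1).2.2.2.2.2.1 (supp Q) (Subset.refl _)
        have h3 := (hrkm V H H hH hH).2.1 (insert b (insert b' (supp P))) (supp Q) (by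
          intro v hv
          rcases mem_insert.1 hv with rfl | hv
          · exact hbQ
          rcases mem_insert.1 hv with rfl | hv
          · exact hb'Q
          · exact mem_of_mem_erase (hPsub hv))
        omega
      have hbasic := hSD Q hQi (card_le_card (htcons V H Q hH hQt).2.1)
      rcases hbasic with ⟨S, hodd, h3, hQS⟩ | hsm
      · have hS := hclique V S hodd
        have hsupp : supp Q = S := by rw [hQS]; exact hS.2.1 h3
        have hbS : b ∈ S := by rw [← hsupp]; exact hbQ
        have hb'S : b' ∈ S := by rw [← hsupp]; exact hb'Q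
        have hctrQ : ctr b b' Q = K ((S.erase b).erase b') := by
          rw [hQS]
          exact (hctrK V S b b' hodd hbS hbb).1 hb'S
        rw [hctrQ] at hPQ
        have hcard : ((S.erase b).erase b').card + 2 = S.card := by
          rw [card_erase_of_mem (mem_erase.2 ⟨hbb.symm, hb'S⟩), card_erase_of_mem hbS]
          omega
        have hodd' : Odd ((S.erase b).erase b').card := by
          obtain ⟨k, hk⟩ := hodd
          exact ⟨k - 1, by omega⟩
        have hS' := hclique V _ hodd'
        have hne1 : ((S.erase b).erase b').card ≠ 1 := by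
          intro h1
          have h4 := hPQ.2
          have h5 := hS'.2.2.1
          have h6 : nu P = 0 := by omega
          exact hP.2.1 (((hzero V P hP.1).1).1 h6)
        have h3' : 3 ≤ ((S.erase b).erase b').card := by
          obtain ⟨k, hk⟩ := hodd'
          omega
        have hPeq := indec_eq (hclind V _ hodd' h3') hPQ hP.2.1
        have hsP : supp P = (S.erase b).erase b' := by rw [hPeq]; exact hS'.2.1 h3'
        have hfS : ∀ v ∈ S, v ≠ b → f v = 0 := by
          intro v hv hvb
          by_cases hvb' : v = b'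
          · rw [hvb']; exact hfb'
          · exact hfP v (by rw [hsP]; exact mem_erase.2 ⟨hvb', mem_erase.2 ⟨hvb, hv⟩⟩)
        -- the complement
        have hΓt : Tight (H + Q) H := (htcons V H Q hH hQt).2.2.2.2.1
        have hΓev : IsEv (H + Q) := hΓt.1
        have hQbb : Q b b' = 1 := by
          rw [hQS, K_apply, if_pos ⟨hbS, hb'S, hbb⟩]
        have hHbb : H b b' = 1 := by
          have h1 : ∀ x : ZMod 2, x ≠ 0 → x = 1 := by decide
          exact h1 _ hgood.1
        have hΓbb : (H + Q) b b' = 0 := by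
          change H b b' + Q b b' = 0
          rw [hHbb, hQbb]
          decide
        have hct := hctrt V H (H + Q) b b' hH hΓt hgood
        have hΓnu : nu (ctr b b' (H + Q)) = nu (H + Q) := hct.2.2 hΓbb
        have hΓf : (Lap (ctr b b' (H + Q))).mulVec f = 0 :=
          (htcons V Y (ctr b b' (H + Q)) hY hct.1).1 f hf
        have hsum := hfold V (H + Q) b b' f hΓev hbb hΓbb hΓnu hΓf
        apply hdel
        unfold del
        rw [← hsum]
        rw [← Finset.sum_filter_ne_zero, ← Finset.sum_filter_ne_zero (s := nbr (H + Q) b)]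
        apply Finset.sum_congr _ (fun _ _ => rfl)
        ext v
        simp only [mem_filter, mem_erase, mem_nbr]
        have hval : ∀ v : V, (f v + f b') * (xF v + xF b')⁻¹ ≠ 0 → f v ≠ 0 := by
          intro v hv h0
          apply hv
          rw [h0, hfb', add_zero, zero_mul]
        constructor
        · rintro ⟨⟨hv1, hv2⟩, hv3⟩
          refine ⟨?_, hv3⟩
          have hfv := hval v hv3
          have hvb : v ≠ b := by
            rintro rfl
            exact hv2 (hH.diag v)
          have hvS : v ∉ S := fun h => hfv (hfS v h hvb)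
          have hQv : Q b v = 0 := by
            rw [hQS, K_apply, if_neg (fun h => hvS h.2.1)]
          change H b v + Q b v ≠ 0
          rw [hQv, add_zero]
          exact hv2
        · rintro ⟨hv2, hv3⟩
          have hfv := hval v hv3
          have hvb' : v ≠ b' := by
            rintro rfl
            exact hfv hfb'
          have hvb : v ≠ b := by
            rintro rfl
            exact hv2 (hΓev.diag v)
          have hvS : v ∉ S := fun h => hfv (hfS v h hvb)
          have hQv : Q b v = 0 := by
            rw [hQS, K_apply, if_neg (fun h => hvS h.2.1)]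
          have hv2' : H b v + Q b v ≠ 0 := hv2
          rw [hQv, add_zero] at hv2'
          exact ⟨⟨hvb', hv2'⟩, hv3⟩
      · exact hnotsmall hsm
    · -- `b ∈ supp Q`, `b' ∉ supp Q`
      have h1 : ctr b b' Q = sw b b' Q := hcQ.2.2.2.2.2.2 hb'Q
      rw [h1] at hPQ
      have hswQ := hsw V b b' Q Q
      have h2 := indec_eq (hswQ.2.2.2.2.1 hQi) hPQ hP.2.1
      apply hb'P
      rw [h2, hswQ.2.2.2.2.2.2.1]
      exact mem_image.2 ⟨b, hbQ, Equiv.swap_apply_left b b'⟩
  -- assembly
  let p : Gr V → Bool := fun X => decide (¬ Orth T X Y)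
  have h1 := (hdorth V Y T (L.map (ctr b b')) hY (by
    intro X hX
    obtain ⟨Q, hQ, rfl⟩ := List.mem_map.1 hX
    exact hLt Q hQ) hLcs hLcnu hTY p (by
    intro X hX hp
    by_contra hc
    have : p X = true := decide_eq_true hc
    rw [hp] at this
    exact absurd this (by decide))).1
  have h0nu : nu (0 : Gr V) = 0 := by
    have h0 : IsEv (0 : Gr V) := by
      have := (hadd V H H).2.1 hH hH
      rw [(hadd V H H).2.2.1] at this
      exact this
    exact (hzero V 0 h0).1.2 rfl
  have h0ev : IsEv (0 : Gr V) := by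
    have := (hadd V H H).2.1 hH hH
    rw [(hadd V H H).2.2.1] at this
    exact this
  have h2 := (hdorth V H 0 L hH (fun Q hQ => (hL Q hQ).2) hLsum hLnu
    ⟨h0ev, by rw [h0nu, add_zero]; omega⟩ (fun Q => p (ctr b b' Q)) (by
      intro Q hQ _
      unfold Orth
      rw [h0nu, add_zero]
      have := (hL Q hQ).2.2
      omega)).2
  have h3 : ((L.map (ctr b b')).filter p) = L.filter (fun Q => p (ctr b b' Q)) := by
    rw [List.filter_map]
    have h4 : ∀ Q ∈ L.filter (p ∘ ctr b b'), ctr b b' Q = Q := by
      intro Q hQ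
      have hQ' := List.mem_filter.1 hQ
      have hor : ¬ Orth T (ctr b b' Q) Y := by
        have := hQ'.2
        exact of_decide_eq_true this
      have hb := claim Q hQ'.1 hor
      exact (hctr V Q Q b b' hbb (hL Q hQ'.1).1.1 (hL Q hQ'.1).1.1).2.2.1 hb
    rw [List.map_congr_left h4, List.map_id']
    rfl
  rw [h3] at h1
  exact (htcons V H _ hH h2).2.2.2.2.2 T h1

end Pool.Agent.W390.SD
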