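import Pool.Agent.W390.SD.Stm3

/-!
# Project SD: strong duality for all even graphs (Q3), by induction
-/

namespace Pool.Agent.W390.SD

theorem p_all : S_zero → S_step → S_all := by
  intro h0 hs V _ _ n
  induction n with
  | zero =>
    intro G hG hc
    exfalso
    have h := (h0 V G hG.1).2.1 hG.2.1
    omega
  | succ n ih => exact hs V n ih

end Pool.Agent.W390.SD
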