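import Pool.Agent.W390.SD.Stm1

set_option autoImplicit false

namespace Pool.Agent.W390.SD.Aux_basis

open MvPolynomial Finset Pool.Agent.W390.SD

variable {V : Type} [Fintype V] [DecidableEq V]

/-- the column with number `j` -/
noncomputable def cl (A : Gr V) (j : V) : V → F V := (Lap A).col j

lemma nuC_def (A : Gr V) (C : Finset V) :
    nuC A C = Module.finrank (F V) (Submodule.span (F V) (cl A '' (C : Set V))) := rfl

lemma range_eq (A : Gr V) (C : Finset V) :
    Set.range (fun j : C => cl A j) = cl A '' (C : Set V) := by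
  ext x
  constructor
  · rintro ⟨j, rfl⟩
    exact ⟨j, j.2, rfl⟩
  · rintro ⟨j, hj, rfl⟩
    exact ⟨⟨j, hj⟩, rfl⟩

lemma nuC_range (A : Gr V) (C : Finset V) :
    nuC A C = (Set.range (fun j : C => cl A j)).finrank (F V) := by
  rw [range_eq]
  rfl

lemma mono (A : Gr V) {C C' : Finset V} (h : C ⊆ C') : nuC A C ≤ nuC A C' := by
  rw [nuC_def, nuC_def]
  refine Submodule.finrank_mono (Submodule.span_mono (Set.image_mono ?_))
  exact_mod_cast h

lemma le_card (A : Gr V) (C : Finset V) : nuC A C ≤ C.card := by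
  rw [nuC_range]
  have := finrank_range_le_card (R := F V) (fun j : C => cl A j)
  rwa [Fintype.card_coe] at this

lemma ind_iff (A : Gr V) (J : Finset V) :
    nuC A J = J.card ↔ LinearIndepOn (F V) (cl A) (J : Set V) := by
  have h := linearIndependent_iff_card_eq_finrank_span (R := F V) (b := fun j : J => cl A j)
  rw [← nuC_range, Fintype.card_coe] at h
  have h2 : LinearIndepOn (F V) (cl A) (J : Set V) ↔
      LinearIndependent (F V) (fun j : J => cl A j) := Iff.rfl
  rw [h2, h]
  exact eq_comm

omit [Fintype V] in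
lemma xF_ne {u v : V} (h : u ≠ v) : xF u + xF v ≠ 0 := by
  unfold xF
  rw [← map_add]
  intro h0
  have h1 : xx u + xx v = (0 : R V) := by
    apply IsFractionRing.injective (R V) (F V)
    rw [h0, map_zero]
  have h2 := congrArg (coeff (Finsupp.single u 2)) h1
  unfold xx at h2
  rw [coeff_add, coeff_X_pow, coeff_X_pow, if_pos rfl, if_neg, coeff_zero, add_zero] at h2
  · exact one_ne_zero h2
  · intro h3
    have := (Finsupp.single_left_inj (two_ne_zero)).1 h3
    exact h this.symm

lemma cl_ne_zero {A : Gr V} (hA : IsEv A) {v : V} (hv : v ∈ supp A) : cl A v ≠ 0 := by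
  unfold supp at hv
  rw [mem_filter] at hv
  obtain ⟨u, hu⟩ := hv.2
  unfold nbr at hu
  rw [mem_filter] at hu
  have huv : u ≠ v := by
    rintro rfl
    exact hu.2 (hA.diag u)
  intro h
  have h1 : (Lap A) u v = 0 := congrFun h u
  unfold Lap at h1
  rw [if_neg huv, if_neg (by rw [hA.symm]; exact hu.2), inv_eq_zero] at h1
  exact xF_ne huv h1

lemma cl_zero {A : Gr V} (hA : IsEv A) {v : V} (hv : v ∉ supp A) : cl A v = 0 := by
  have h0 : ∀ u, A v u = 0 := by
    intro u
    by_contra h
    apply hv
    unfold supp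
    rw [mem_filter]
    refine ⟨mem_univ _, u, ?_⟩
    unfold nbr
    rw [mem_filter]
    exact ⟨mem_univ _, h⟩
  funext u
  show (Lap A) u v = 0
  unfold Lap
  split_ifs with h1 h2
  · subst h1
    exact sum_eq_zero fun w _ => by rw [if_pos (h0 w)]
  · rfl
  · exact absurd (by rw [hA.symm]; exact h0 u) h2

end Pool.Agent.W390.SD.Aux_basis

namespace Pool.Agent.W390.SD

open MvPolynomial Finset Pool.Agent.W390.SD.Aux_basis

theorem p_basis : S_dd → S_ind → S_ker → S_basis := by
  intro hdd hind _ V _ _ A hA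
  have I : ∀ J : Finset V, PJ A J ≠ 0 ↔ LinearIndepOn (F V) (cl A) (J : Set V) := fun J =>
    (hind V A J hA).trans (ind_iff A J)
  have h5 : ∀ C J : Finset V, J ⊆ C → PJ A J ≠ 0 → J.card ≤ nuC A C := fun C J hJ h =>
    ((hind V A J hA).1 h).symm.le.trans (mono A hJ)
  refine ⟨?_, fun C C' h => mono A h, le_card A, ?_, h5, ?_, ?_, ?_⟩
  · rw [nuC_def, nu, Matrix.rank_eq_finrank_span_cols, coe_univ, Set.image_univ]
    rfl
  · intro C J₀ hJC hJ₀
    classical
    have hs := (I J₀).1 hJ₀
    have hst : (J₀ : Set V) ⊆ (C : Set V) := by exact_mod_cast hJC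
    set t : Set V := hs.extend hst with ht
    have h1 : LinearIndepOn (F V) (cl A) ((t.toFinset : Finset V) : Set V) := by
      rw [Set.coe_toFinset]
      exact hs.linearIndepOn_extend hst
    have h2 : nuC A t.toFinset = nuC A C := by
      rw [nuC_def, nuC_def, Set.coe_toFinset, ht, hs.span_image_extend_eq_span_image hst]
    refine ⟨t.toFinset, ?_, ?_, ?_, (I _).2 h1⟩
    · intro x hx
      rw [Set.mem_toFinset]
      exact hs.subset_extend hst (by exact_mod_cast hx)
    · intro x hx
      rw [Set.mem_toFinset] at hx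
      exact_mod_cast hs.extend_subset hst hx
    · rw [← h2]
      exact ((ind_iff A _).2 h1).symm
  · intro C J hJC hcard v hv
    obtain ⟨_, d2, _, d4, _, _, _⟩ := hdd V
    by_cases hvJ : v ∈ J
    · exact d4 J v _ hvJ
    · have e := d2 J v (PP A) hvJ
      by_contra hne
      have h6 : PJ A (insert v J) ≠ 0 := by
        unfold PJ
        rw [e]
        exact hne
      have h7 := h5 C (insert v J) (insert_subset hv hJC) h6
      rw [card_insert_of_notMem hvJ] at h7
      omega
  · intro v hv
    rw [I, coe_singleton]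
    exact LinearIndepOn.singleton (cl_ne_zero hA hv)
  · intro J hJ v hv
    by_contra hc
    have h1 := (I J).1 hJ
    have h2 : cl A v ≠ 0 := h1.ne_zero (i := v) (by exact_mod_cast hv)
    exact h2 (cl_zero hA hc)

end Pool.Agent.W390.SD
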