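import Pool.Agent.W390.SD.Stm3

namespace Pool.Agent.W390.SD

open MvPolynomial Finset

namespace Aux_blocks

variable {V : Type} [Fintype V] [DecidableEq V]

theorem Lap_zero (h : S_add) : Lap (0 : Gr V) = 0 := by
  have h1 := (h V (0 : Gr V) 0).1
  rw [add_zero] at h1
  have h2 : Lap (0 : Gr V) + 0 = Lap (0 : Gr V) + Lap (0 : Gr V) := by rw [add_zero]; exact h1
  exact (add_left_cancel h2).symm

theorem ctr_add' (b b' : V) (A B : Gr V) : ctr b b' (A + B) = ctr b b' A + ctr b b' B := by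
  funext u v
  simp only [ctr, Pi.add_apply]
  split_ifs <;> ring

theorem ctr_zero' (b b' : V) : ctr b b' (0 : Gr V) = 0 := by
  funext u v
  simp only [ctr, Pi.zero_apply]
  split_ifs <;> simp

theorem ctr_sum (b b' : V) (L : List (Gr V)) : (L.map (ctr b b')).sum = ctr b b' L.sum := by
  induction L with
  | nil => simp [ctr_zero']
  | cons a l ih => simp only [List.map_cons, List.sum_cons, ih, ctr_add']

theorem nu_zero (h : S_add) : nu (0 : Gr V) = 0 := by
  unfold nu
  rw [Lap_zero h]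
  exact Matrix.rank_zero

theorem nu_sum_le (h : S_add) (L : List (Gr V)) : nu L.sum ≤ (L.map nu).sum := by
  induction L with
  | nil => simp [nu_zero h]
  | cons a l ih =>
    simp only [List.map_cons, List.sum_cons]
    have := (h V a l.sum).2.2.2.2
    omega

theorem Lap_sum (h : S_add) (L : List (Gr V)) (g : V → F V)
    (hL : ∀ P ∈ L, (Lap P).mulVec g = 0) : (Lap L.sum).mulVec g = 0 := by
  induction L with
  | nil => simp [Lap_zero h]
  | cons a l ih =>
    simp only [List.sum_cons]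
    rw [(h V a l.sum).1, Matrix.add_mulVec, hL a (by simp),
      ih (fun P hP => hL P (by simp [hP])), add_zero]

theorem lsum_apply (L : List (Gr V)) (u v : V) : L.sum u v = (L.map (fun Q => Q u v)).sum := by
  induction L with
  | nil => simp
  | cons a l ih => simp [ih]

/-- sum of the `nu` of contractions -/
theorem nu_ctr_le (b b' : V) (L : List (Gr V))
    (h1 : ∀ Q ∈ L, Q b b' ≠ 0 → nu (ctr b b' Q) + 1 = nu Q)
    (h0 : ∀ Q ∈ L, Q b b' = 0 → nu (ctr b b' Q) = nu Q) :
    ((L.map (ctr b b')).map nu).sum ≤ (L.map nu).sum ∧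
    ((∃ Q ∈ L, Q b b' ≠ 0) → ((L.map (ctr b b')).map nu).sum + 1 ≤ (L.map nu).sum) := by
  induction L with
  | nil => simp
  | cons a l ih =>
    obtain ⟨i1, i2⟩ := ih (fun Q hQ => h1 Q (by simp [hQ])) (fun Q hQ => h0 Q (by simp [hQ]))
    have ha1 := h1 a (by simp)
    have ha0 := h0 a (by simp)
    simp only [List.map_cons, List.sum_cons]
    refine ⟨?_, ?_⟩
    · by_cases h : a b b' = 0
      · have := ha0 h; omega
      · have := ha1 h; omega
    · rintro ⟨Q, hQ, hQb⟩
      by_cases h : a b b' = 0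
      · have := ha0 h
        have h3 : ∃ Q ∈ l, Q b b' ≠ 0 := by
          rcases List.mem_cons.1 hQ with rfl | hQ'
          · exact absurd h hQb
          · exact ⟨Q, hQ', hQb⟩
        have := i2 h3
        omega
      · have := ha1 h; omega

end Aux_blocks

open Aux_blocks in
theorem p_blocks : S_add → S_zero → S_tcons → S_oiff → S_ocons → S_decomp → S_dorth → S_ctr →
    S_ctrnu → S_ctrt → S_blocks := by
  intro hadd _ htcons hoiff hocons hdecomp _ hctr _ hctrt V _ _ H b b' hH hg
  have hbb : b ≠ b' := by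
    intro h
    subst h
    exact hg.1 (hH.diag b)
  obtain ⟨L, hL, hsum, hnu⟩ := hdecomp V H hH
  have hT : ∀ Q ∈ L, Tight (ctr b b' Q) (ctr b b' H) := fun Q hQ =>
    (hctrt V H Q b b' hH (hL Q hQ).2 hg).1
  have hYev : IsEv (ctr b b' H) := (hctr V H H b b' hbb hH hH).1
  have hmap : (L.map (ctr b b')).sum = ctr b b' H := by rw [ctr_sum, hsum]
  refine ⟨L, hL, hsum, hnu, hT, hmap, ?_, ?_⟩
  · have h1 := nu_ctr_le b b' L
      (fun Q hQ hb => ((hctrt V H Q b b' hH (hL Q hQ).2 hg).2.1 hb).2)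
      (fun Q hQ hb => (hctrt V H Q b b' hH (hL Q hQ).2 hg).2.2 hb)
    have hex : ∃ Q ∈ L, Q b b' ≠ 0 := by
      by_contra hcon
      push Not at hcon
      apply hg.1
      rw [← hsum, lsum_apply]
      apply List.sum_eq_zero
      intro x hx
      obtain ⟨Q, hQ, rfl⟩ := List.mem_map.1 hx
      exact hcon Q hQ
    have h2 := h1.2 hex
    have h3 := nu_sum_le hadd (L.map (ctr b b'))
    rw [hmap] at h3
    have h4 := hg.2
    omega
  · intro T hTY Q hQ hno
    have hcQ : IsEv (ctr b b' Q) := (hT Q hQ).1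
    obtain ⟨L2, hL2, hsum2, _⟩ := hdecomp V (ctr b b' Q) hcQ
    have hPY : ∀ P ∈ L2, Tight P (ctr b b' H) := fun P hP =>
      (htcons V (ctr b b' H) (ctr b b' Q) hYev (hT Q hQ)).2.2.2.2.2 P (hL2 P hP).2
    by_contra hcon
    push Not at hcon
    have hall : ∀ P ∈ L2, Orth T P (ctr b b' H) := fun P hP =>
      hcon P (hL2 P hP).1 (hL2 P hP).2 (hPY P hP)
    have hall' : ∀ P ∈ L2, Orth P T (ctr b b' H) := fun P hP =>
      (hocons V (ctr b b' H) T P hYev hTY (hPY P hP) (hall P hP)).1
    have hQT : Orth (ctr b b' Q) T (ctr b b' H) := by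
      rw [hoiff V (ctr b b' H) (ctr b b' Q) T hYev (hT Q hQ) hTY]
      intro g h hgh
      rw [← hsum2]
      apply Lap_sum hadd
      intro P hP
      exact (hoiff V (ctr b b' H) P T hYev (hPY P hP) hTY).1 (hall' P hP) g h hgh
    exact hno (hocons V (ctr b b' H) (ctr b b' Q) T hYev (hT Q hQ) hTY hQT).1

end Pool.Agent.W390.SD
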