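import Pool.Agent.W390.SD.Stm1

/-!
# S_spec: specialisation of solutions
-/

namespace Pool.Agent.W390.SD.Aux_spec

open MvPolynomial Finset

variable {V : Type}

lemma two_R : (2 : R V) = 0 := by
  have h : ((2 : ℕ) : R V) = 0 := CharP.cast_eq_zero (R V) 2
  exact_mod_cast h

lemma two_F : (2 : F V) = 0 := by
  have h : algebraMap (R V) (F V) 2 = 0 := by rw [two_R, map_zero]
  rwa [map_ofNat] at h

lemma add_self (a : F V) : a + a = 0 := by rw [← two_mul, two_F, zero_mul]

lemma eq_of_add {a b : F V} (h : a + b = 0) : a = b := by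
  have h1 := add_self b
  linear_combination h - h1

lemma iota_inj : Function.Injective (algebraMap (R V) (F V)) :=
  IsFractionRing.injective (R V) (F V)

lemma xF_add_ne {u v : V} (h : u ≠ v) : xF u + xF v ≠ 0 := by
  intro h1
  unfold xF xx at h1
  have h2 := eq_of_add h1
  have h3 : (X u : R V) ^ 2 = X v ^ 2 := iota_inj h2
  have h4 : ((X u : R V) - X v) ^ 2 = 0 := by
    have h5 : (2 : R V) = 0 := two_R
    linear_combination h3 + (X v ^ 2 - X u * X v : R V) * h5
  have h6 : (X u : R V) - X v = 0 := by
    rcases sq_eq_zero_iff.1 h4 with h6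
    exact h6
  exact h (X_injective (sub_eq_zero.1 h6))

lemma iota_ne {p : R V} (h : p ≠ 0) : algebraMap (R V) (F V) p ≠ 0 := fun h1 =>
  h (iota_inj (by rw [h1, map_zero]))

/-- elements of `ZMod 2` as elements of the field -/
noncomputable def kp (a : ZMod 2) : F V := if a = 0 then 0 else 1

lemma kp_zero : (kp 0 : F V) = 0 := by simp [kp]

lemma kp_add (a b : ZMod 2) : (kp (a + b) : F V) = kp a + kp b := by
  have h := add_self (1 : F V)
  have h0 : ∀ c : ZMod 2, c = 0 ∨ c = 1 := by decide
  rcases h0 a with ha | ha <;> rcases h0 b with hb | hb <;> subst ha hb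
  · simp [kp]
  · simp [kp]
  · simp [kp]
  · have e : (1 : ZMod 2) + 1 = 0 := by decide
    rw [e]
    simp only [kp, if_true, one_ne_zero, if_false]
    exact h.symm

variable [DecidableEq V]

/-- `b` is the specialisation of `a` -/
def Sp (w w' : V) (a b : F V) : Prop :=
  ∃ p q : R V, sg w w' q ≠ 0 ∧ a * algebraMap (R V) (F V) q = algebraMap (R V) (F V) p ∧
    b * algebraMap (R V) (F V) (sg w w' q) = algebraMap (R V) (F V) (sg w w' p)

lemma Sp.of (w w' : V) (p : R V) :
    Sp w w' (algebraMap (R V) (F V) p) (algebraMap (R V) (F V) (sg w w' p)) :=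
  ⟨p, 1, by simp, by simp, by simp⟩

lemma Sp.zero (w w' : V) : Sp w w' 0 0 := ⟨0, 1, by simp, by simp, by simp⟩

lemma Sp.add {w w' : V} {a b a' b' : F V} (h : Sp w w' a b) (h' : Sp w w' a' b') :
    Sp w w' (a + a') (b + b') := by
  obtain ⟨p, q, h1, h2, h3⟩ := h
  obtain ⟨p', q', h1', h2', h3'⟩ := h'
  refine ⟨p * q' + p' * q, q * q', ?_, ?_, ?_⟩
  · rw [map_mul]; exact mul_ne_zero h1 h1'
  · simp only [map_add, map_mul]
    linear_combination algebraMap (R V) (F V) q' * h2 + algebraMap (R V) (F V) q * h2'
  · simp only [map_add, map_mul]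
    linear_combination algebraMap (R V) (F V) (sg w w' q') * h3 +
      algebraMap (R V) (F V) (sg w w' q) * h3'

lemma Sp.mul {w w' : V} {a b a' b' : F V} (h : Sp w w' a b) (h' : Sp w w' a' b') :
    Sp w w' (a * a') (b * b') := by
  obtain ⟨p, q, h1, h2, h3⟩ := h
  obtain ⟨p', q', h1', h2', h3'⟩ := h'
  refine ⟨p * p', q * q', ?_, ?_, ?_⟩
  · rw [map_mul]; exact mul_ne_zero h1 h1'
  · simp only [map_mul]
    rw [← h2, ← h2']; ring
  · simp only [map_mul]
    rw [← h3, ← h3']; ring

lemma Sp.inv {w w' : V} {a b : F V} (h : Sp w w' a b) (hb : b ≠ 0) : Sp w w' a⁻¹ b⁻¹ := by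
  obtain ⟨p, q, h1, h2, h3⟩ := h
  have hq : q ≠ 0 := fun h => h1 (by rw [h, map_zero])
  have h4 : sg w w' p ≠ 0 := by
    intro h4
    rw [h4, map_zero] at h3
    rcases mul_eq_zero.1 h3 with h5 | h5
    · exact hb h5
    · exact iota_ne h1 h5
  have hp : p ≠ 0 := fun h => h4 (by rw [h, map_zero])
  have ha : a ≠ 0 := by
    intro ha
    rw [ha, zero_mul] at h2
    exact iota_ne hp h2.symm
  refine ⟨q, p, h4, ?_, ?_⟩
  · rw [← h2, ← mul_assoc, inv_mul_cancel₀ ha, one_mul]
  · rw [← h3, ← mul_assoc, inv_mul_cancel₀ hb, one_mul]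

lemma Sp.uniq {w w' : V} {a b b' : F V} (h : Sp w w' a b) (h' : Sp w w' a b') : b = b' := by
  obtain ⟨p, q, h1, h2, h3⟩ := h
  obtain ⟨p', q', h1', h2', h3'⟩ := h'
  have h4 : p * q' = p' * q := by
    apply iota_inj
    rw [map_mul, map_mul, ← h2, ← h2']; ring
  have h5 : sg w w' p * sg w w' q' = sg w w' p' * sg w w' q := by
    rw [← map_mul, ← map_mul, h4]
  have h6 := congrArg (algebraMap (R V) (F V)) h5
  rw [map_mul, map_mul, ← h3, ← h3'] at h6
  have h7 := iota_ne h1
  have h8 := iota_ne h1'
  have h9 : (b - b') * (algebraMap (R V) (F V) (sg w w' q) *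
      algebraMap (R V) (F V) (sg w w' q')) = 0 := by linear_combination h6
  rcases mul_eq_zero.1 h9 with h10 | h10
  · exact sub_eq_zero.1 h10
  · exact absurd h10 (mul_ne_zero h7 h8)

lemma Sp.sum {w w' : V} {ι : Type} (s : Finset ι) {f g : ι → F V}
    (h : ∀ i ∈ s, Sp w w' (f i) (g i)) : Sp w w' (∑ i ∈ s, f i) (∑ i ∈ s, g i) := by
  classical
  induction s using Finset.induction_on with
  | empty => exact Sp.zero w w'
  | insert a s ha ih =>
    rw [sum_insert ha, sum_insert ha]
    exact (h a (mem_insert_self a s)).add (ih fun i hi => h i (mem_insert_of_mem hi))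

/-- the image of the vertex -/
def rh (w w' v : V) : V := if v = w then w' else v

lemma Sp.x (w w' v : V) : Sp w w' (xF v) (xF (rh w w' v)) := by
  have h := Sp.of w w' (xx v)
  have e : sg w w' (xx v) = xx (rh w w' v) := by
    unfold sg xx rh
    rw [map_pow, rename_X]
  rw [e] at h
  exact h

lemma Sp.kp {w w' : V} (a : ZMod 2) {x y : F V} (h : a ≠ 0 → Sp w w' x y) :
    Sp w w' (kp a * x) (kp a * y) := by
  by_cases ha : a = 0
  · rw [ha, kp_zero, zero_mul, zero_mul]
    exact Sp.zero w w'
  · have e : (Aux_spec.kp a : F V) = 1 := by simp [Aux_spec.kp, ha]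
    rw [e, one_mul, one_mul]
    exact h ha

variable [Fintype V]

lemma Lap_mulVec (A : Gr V) (f : V → F V) (u : V) :
    (Lap A).mulVec f u = ∑ v, kp (A u v) * ((xF u + xF v)⁻¹ * (f u + f v)) := by
  have h1 : (Lap A).mulVec f u = ∑ v, Lap A u v * f v := rfl
  rw [h1]
  have hc : ∀ v, (if A u v = 0 then (0 : F V) else (xF u + xF v)⁻¹) =
      kp (A u v) * (xF u + xF v)⁻¹ := by
    intro v
    unfold kp
    split_ifs <;> simp
  have h2 : ∀ v, Lap A u v * f v =
      (if u = v then (∑ z, kp (A u z) * (xF u + xF z)⁻¹) * f u else 0) +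
      kp (A u v) * (xF u + xF v)⁻¹ * f v := by
    intro v
    unfold Lap
    by_cases h : u = v
    · subst h
      rw [if_pos rfl, if_pos rfl, add_self (xF u), inv_zero, mul_zero, zero_mul, add_zero]
      congr 1
      exact Finset.sum_congr rfl fun z _ => hc z
    · rw [if_neg h, if_neg h, hc, zero_add]
  rw [Finset.sum_congr rfl fun v _ => h2 v, Finset.sum_add_distrib, Finset.sum_ite_eq,
    if_pos (mem_univ u), Finset.sum_mul, ← Finset.sum_add_distrib]
  refine Finset.sum_congr rfl fun v _ => ?_
  ring

end Pool.Agent.W390.SD.Aux_spec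

namespace Pool.Agent.W390.SD

open MvPolynomial Finset Aux_spec

theorem p_spec : S_add → S_ctr → S_spec := by
  intro _ _ V _ _ Y w w' g y hY hww' hsol
  have hne : w ≠ w' := by
    intro h
    rw [← h] at hww'
    exact hww' (hY.diag w)
  have hT : ∀ u, ∑ v, kp (Y u v) * ((xF u + xF v)⁻¹ *
      (algebraMap (R V) (F V) (g u) + algebraMap (R V) (F V) (g v))) =
      algebraMap (R V) (F V) (y u) := by
    intro u
    rw [← Lap_mulVec Y (fun u => algebraMap (R V) (F V) (g u)) u]
    exact congrFun hsol u
  have hkp : (kp (Y w w') : F V) = 1 := by simp [kp, hww']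
  have hkp' : (kp (Y w' w) : F V) = 1 := by rw [hY.symm w' w]; exact hkp
  have hrw : rh w w' w = w' := if_pos rfl
  have hrv : ∀ v, v ≠ w → rh w w' v = v := fun v hv => if_neg hv
  -- specialisation of the terms
  have hterm : ∀ u v, rh w w' u ≠ rh w w' v → Sp w w'
      ((xF u + xF v)⁻¹ * (algebraMap (R V) (F V) (g u) + algebraMap (R V) (F V) (g v)))
      ((xF (rh w w' u) + xF (rh w w' v))⁻¹ * (algebraMap (R V) (F V) (sg w w' (g u)) +
        algebraMap (R V) (F V) (sg w w' (g v)))) := by
    intro u v huv
    exact (((Sp.x w w' u).add (Sp.x w w' v)).inv (xF_add_ne huv)).mul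
      ((Sp.of w w' (g u)).add (Sp.of w w' (g v)))
  -- the rest at `w`
  have hrest : Sp w w'
      (∑ v ∈ univ.erase w', kp (Y w v) * ((xF w + xF v)⁻¹ *
        (algebraMap (R V) (F V) (g w) + algebraMap (R V) (F V) (g v))))
      (∑ v ∈ univ.erase w', kp (Y w v) * ((xF w' + xF v)⁻¹ *
        (algebraMap (R V) (F V) (sg w w' (g w)) + algebraMap (R V) (F V) (sg w w' (g v))))) := by
    refine Sp.sum _ fun v hv => Sp.kp _ fun hYv => ?_
    have h1 : v ≠ w' := ne_of_mem_erase hv
    have h2 : v ≠ w := by
      intro h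
      rw [h] at hYv
      exact hYv (hY.diag w)
    have h3 := hterm w v (by rw [hrw, hrv v h2]; exact h1.symm)
    rwa [hrw, hrv v h2] at h3
  have hTw := hT w
  rw [← Finset.add_sum_erase univ _ (mem_univ w'), hkp, one_mul] at hTw
  have hX0 : xF w + xF w' ≠ 0 := xF_add_ne hne
  -- first claim
  have hg0 : algebraMap (R V) (F V) (sg w w' (g w)) =
      algebraMap (R V) (F V) (sg w w' (g w')) := by
    have h1 : Sp w w' (xF w + xF w') 0 := by
      have h2 := (Sp.x w w' w).add (Sp.x w w' w')
      rwa [hrw, hrv w' hne.symm, add_self] at h2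
    have h2 := h1.mul (Sp.of w w' (y w))
    rw [← hTw, mul_add, ← mul_assoc, mul_inv_cancel₀ hX0, one_mul, zero_mul] at h2
    have h3 := ((Sp.of w w' (g w)).add (Sp.of w w' (g w'))).add (h1.mul hrest)
    have h4 := h2.uniq h3
    rw [zero_mul, add_zero] at h4
    exact eq_of_add h4.symm
  refine ⟨iota_inj hg0, ?_⟩
  funext u
  rw [Lap_mulVec]
  by_cases huw : u = w
  · -- the row of `w`
    subst huw
    rw [if_pos rfl, map_zero]
    refine Finset.sum_eq_zero fun v _ => ?_
    have e : ctr u w' Y u v = 0 := by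
      unfold ctr
      rw [if_pos (Or.inl rfl)]
    rw [e, kp_zero, zero_mul]
  rw [if_neg huw]
  by_cases huw' : u = w'
  · -- the row of `w'`
    rw [if_pos huw', huw']
    obtain ⟨t, ht⟩ : ∃ t : V → F V, t = fun v => (xF w' + xF v)⁻¹ *
      (algebraMap (R V) (F V) (sg w w' (g w')) + algebraMap (R V) (F V) (sg w w' (g v))) :=
      ⟨_, rfl⟩
    have htw' : t w' = 0 := by
      rw [ht]; simp only; rw [add_self (xF w'), inv_zero, zero_mul]
    have htw : t w = 0 := by
      rw [ht]; simp only; rw [hg0, add_self (algebraMap (R V) (F V) _), mul_zero]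
    have hrest' : Sp w w'
        (∑ v ∈ univ.erase w, kp (Y w' v) * ((xF w' + xF v)⁻¹ *
          (algebraMap (R V) (F V) (g w') + algebraMap (R V) (F V) (g v))))
        (∑ v ∈ univ.erase w, kp (Y w' v) * t v) := by
      refine Sp.sum _ fun v hv => Sp.kp _ fun hYv => ?_
      have h1 : v ≠ w := ne_of_mem_erase hv
      have h2 : v ≠ w' := by
        intro h
        rw [h] at hYv
        exact hYv (hY.diag w')
      have h3 := hterm w' v (by rw [hrv w' hne.symm, hrv v h1]; exact h2.symm)
      rw [hrv w' hne.symm, hrv v h1] at h3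
      rw [ht]
      exact h3
    have hTw' := hT w'
    rw [← Finset.add_sum_erase univ _ (mem_univ w), hkp', one_mul] at hTw'
    have hsum : ∑ v ∈ univ.erase w', kp (Y w v) * ((xF w + xF v)⁻¹ *
          (algebraMap (R V) (F V) (g w) + algebraMap (R V) (F V) (g v))) +
        ∑ v ∈ univ.erase w, kp (Y w' v) * ((xF w' + xF v)⁻¹ *
          (algebraMap (R V) (F V) (g w') + algebraMap (R V) (F V) (g v))) =
        algebraMap (R V) (F V) (y w + y w') := by
      rw [map_add, ← hTw, ← hTw']
      have h1 := add_self ((xF w + xF w')⁻¹ *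
        (algebraMap (R V) (F V) (g w) + algebraMap (R V) (F V) (g w')))
      have e1 : (xF w' + xF w)⁻¹ * (algebraMap (R V) (F V) (g w') + algebraMap (R V) (F V) (g w)) =
        (xF w + xF w')⁻¹ * (algebraMap (R V) (F V) (g w) + algebraMap (R V) (F V) (g w')) := by
        rw [add_comm (xF w'), add_comm (algebraMap (R V) (F V) (g w'))]
      rw [e1]
      linear_combination -h1
    have h5 := hrest.add hrest'
    rw [hsum] at h5
    have h6 := (Sp.of w w' (y w + y w')).uniq h5
    rw [h6]
    have e1 : ∑ v ∈ univ.erase w', kp (Y w v) * ((xF w' + xF v)⁻¹ *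
        (algebraMap (R V) (F V) (sg w w' (g w)) + algebraMap (R V) (F V) (sg w w' (g v)))) =
        ∑ v, kp (Y w v) * t v := by
      rw [← Finset.add_sum_erase univ (fun v => kp (Y w v) * t v) (mem_univ w'), htw', mul_zero,
        zero_add]
      refine Finset.sum_congr rfl fun v _ => ?_
      rw [ht, hg0]
    have e2 : ∑ v ∈ univ.erase w, kp (Y w' v) * t v = ∑ v, kp (Y w' v) * t v := by
      rw [← Finset.add_sum_erase univ (fun v => kp (Y w' v) * t v) (mem_univ w), htw, mul_zero,
        zero_add]
    rw [e1, e2, ← Finset.sum_add_distrib]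
    refine Finset.sum_congr rfl fun v _ => ?_
    have e3 : (xF w' + xF v)⁻¹ * (algebraMap (R V) (F V) (sg w w' (g w')) +
        algebraMap (R V) (F V) (sg w w' (g v))) = t v := by rw [ht]
    rw [e3]
    by_cases hv : v = w
    · rw [hv, htw]; ring
    · by_cases hv' : v = w'
      · rw [hv', htw']; ring
      · have e4 : ctr w w' Y w' v = Y w' v + Y w v := by
          unfold ctr
          rw [if_neg (by
            rintro (h | h | h)
            · exact hne h.symm
            · exact hv h
            · exact hv' h.symm), if_pos rfl]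
        rw [e4, kp_add]
        ring
  · -- the other rows
    rw [if_neg huw']
    obtain ⟨t, ht⟩ : ∃ t : V → F V, t = fun v => (xF u + xF v)⁻¹ *
      (algebraMap (R V) (F V) (sg w w' (g u)) + algebraMap (R V) (F V) (sg w w' (g v))) :=
      ⟨_, rfl⟩
    have h5 : Sp w w' (algebraMap (R V) (F V) (y u)) (∑ v, kp (Y u v) * t (rh w w' v)) := by
      rw [← hT u]
      refine Sp.sum _ fun v _ => Sp.kp _ fun hYv => ?_
      have h1 : u ≠ v := by
        intro h
        rw [← h] at hYv
        exact hYv (hY.diag u)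
      have h3 := hterm u v (by
        rw [hrv u huw]
        unfold rh
        split_ifs
        · exact huw'
        · exact h1)
      rw [hrv u huw] at h3
      have e : t (rh w w' v) = (xF u + xF (rh w w' v))⁻¹ *
          (algebraMap (R V) (F V) (sg w w' (g u)) + algebraMap (R V) (F V) (sg w w' (g v))) := by
        rw [ht]
        simp only
        by_cases hv : v = w
        · rw [hv, hrw, hg0]
        · rw [hrv v hv]
      rw [e]
      exact h3
    have h6 := (Sp.of w w' (y u)).uniq h5
    rw [h6]
    have e1 : ∀ v, kp (Y u v) * t (rh w w' v) = kp (Y u v) * t v +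
        (if v = w then kp (Y u w) * (t w + t w') else 0) := by
      intro v
      by_cases hv : v = w
      · rw [if_pos hv, hv, hrw]
        linear_combination -(kp (Y u w) : F V) * add_self (t w)
      · rw [if_neg hv, hrv v hv, add_zero]
    have e2 : ∀ v, kp (ctr w w' Y u v) * t v = kp (Y u v) * t v +
        ((if v = w then kp (Y u w) * t w else 0) + (if v = w' then kp (Y u w) * t w' else 0)) := by
      intro v
      by_cases hv : v = w
      · have e : ctr w w' Y u v = 0 := by
          unfold ctr
          rw [if_pos (Or.inr (Or.inl hv))]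
        rw [e, kp_zero, if_pos hv, if_neg (by rw [hv]; exact hne), hv]
        linear_combination -add_self (kp (Y u w) * t w)
      · by_cases hv' : v = w'
        · have e : ctr w w' Y u v = Y u w' + Y u w := by
            unfold ctr
            rw [if_neg (by
              rintro (h | h | h)
              · exact huw h
              · exact hv h
              · exact huw' (h.trans hv')), if_neg huw', if_pos hv']
          rw [e, kp_add, if_neg hv, if_pos hv', hv']
          ring
        · have e : kp (ctr w w' Y u v) = (kp (Y u v) : F V) := by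
            by_cases huv : u = v
            · rw [← huv, hY.diag u]
              unfold ctr
              rw [if_pos (Or.inr (Or.inr rfl))]
            · unfold ctr
              rw [if_neg (by
                rintro (h | h | h)
                · exact huw h
                · exact hv h
                · exact huv h), if_neg huw', if_neg hv']
          rw [e, if_neg hv, if_neg hv']
          ring
    have e3 : ∀ v, (xF u + xF v)⁻¹ * (algebraMap (R V) (F V) (sg w w' (g u)) +
        algebraMap (R V) (F V) (sg w w' (g v))) = t v := fun v => by rw [ht]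
    rw [Finset.sum_congr rfl fun v _ => by rw [e3 v, e2 v],
      Finset.sum_congr rfl fun v _ => e1 v, Finset.sum_add_distrib, Finset.sum_add_distrib,
      Finset.sum_add_distrib, Finset.sum_ite_eq', Finset.sum_ite_eq', Finset.sum_ite_eq',
      if_pos (mem_univ _), if_pos (mem_univ _), if_pos (mem_univ _)]
    ring

end Pool.Agent.W390.SD
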