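import Pool.Agent.W390.SD.Stm2
import Pool.Agent.W390.SD.P.spec

/-! Project SD, part cl: two nearby tight cliques force collinearity. -/

namespace Pool.Agent.W390.SD

open MvPolynomial Finset

namespace Aux_cl

open Aux_spec (two_F add_self eq_of_add xF_add_ne kp Lap_mulVec)

variable {V : Type} [Fintype V] [DecidableEq V]

theorem pair (hadd : S_add) (K₁ K₂ : Gr V) (f : V → F V) (v w w' : V) (hne : w ≠ w')
    (h₁ : (Lap K₁).mulVec f = 0) (h₂ : (Lap K₂).mulVec f = 0)
    (hK : ∀ u, K₁ v u + K₂ v u = if u = w ∨ u = w' then 1 else 0) :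
    (xF v + xF w)⁻¹ * (f v + f w) + (xF v + xF w')⁻¹ * (f v + f w') = 0 := by
  have h3 : (Lap (K₁ + K₂)).mulVec f = 0 := by
    rw [(hadd V K₁ K₂).1, Matrix.add_mulVec, h₁, h₂, add_zero]
  have h4 := congrFun h3 v
  rw [Lap_mulVec, Pi.zero_apply] at h4
  have h5 : ∀ u, kp ((K₁ + K₂) v u) * ((xF v + xF u)⁻¹ * (f v + f u)) =
      (if u = w then (xF v + xF w)⁻¹ * (f v + f w) else 0) +
        (if u = w' then (xF v + xF w')⁻¹ * (f v + f w') else 0) := by
    intro u
    have h6 : (K₁ + K₂) v u = if u = w ∨ u = w' then 1 else 0 := hK u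
    rw [h6]
    by_cases hu : u = w
    · subst hu
      rw [if_pos (Or.inl rfl), if_pos rfl, if_neg hne]
      simp [kp]
    · by_cases hu' : u = w'
      · subst hu'
        rw [if_pos (Or.inr rfl), if_pos rfl, if_neg hu]
        simp [kp]
      · rw [if_neg (by tauto), if_neg hu, if_neg hu']
        simp [kp]
  rw [Finset.sum_congr rfl fun u _ => h5 u, Finset.sum_add_distrib, Finset.sum_ite_eq',
    Finset.sum_ite_eq', if_pos (mem_univ _), if_pos (mem_univ _)] at h4
  exact h4

omit [Fintype V] [DecidableEq V] in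
theorem alg (f : V → F V) (v w w' : V) (hw : v ≠ w) (hw' : v ≠ w')
    (h : (xF v + xF w)⁻¹ * (f v + f w) + (xF v + xF w')⁻¹ * (f v + f w') = 0) :
    f v * (xF w + xF w') = f w * (xF w' + xF v) + f w' * (xF w + xF v) := by
  have ha := xF_add_ne hw
  have hb := xF_add_ne hw'
  have h2 : (2 : F V) = 0 := two_F
  have h3 : (xF v + xF w') * (f v + f w) + (xF v + xF w) * (f v + f w') = 0 := by
    have h4 : (xF v + xF w') * (f v + f w) + (xF v + xF w) * (f v + f w') =
        (xF v + xF w) * (xF v + xF w') *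
          ((xF v + xF w)⁻¹ * (f v + f w) + (xF v + xF w')⁻¹ * (f v + f w')) := by
      field_simp
    rw [h4, h, mul_zero]
  linear_combination h3 - (xF v * f v + f w * (xF w' + xF v) + f w' * (xF w + xF v)) * h2

theorem rk_le (Y : Gr V) (B : Finset V) (w w' : V) (hne : w ≠ w')
    (h : ∀ f, (Lap Y).mulVec f = 0 → ∀ v ∈ B,
      f v * (xF w + xF w') = f w * (xF w' + xF v) + f w' * (xF w + xF v)) : rk Y B ≤ 2 := by
  classical
  have hc := xF_add_ne hne
  unfold rk
  have h1 : Submodule.map (LinearMap.funLeft (F V) (F V) (fun b : B => (b : V)))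
      (LinearMap.ker (Lap Y).mulVecLin) ≤ Submodule.span (F V)
        (({(fun b : B => (xF w' + xF (b : V)) * (xF w + xF w')⁻¹),
          (fun b : B => (xF w + xF (b : V)) * (xF w + xF w')⁻¹)} : Finset (B → F V)) :
            Set (B → F V)) := by
    rintro _ ⟨f, hf, rfl⟩
    have hf' : (Lap Y).mulVec f = 0 := by
      have := LinearMap.mem_ker.1 hf
      rwa [Matrix.mulVecLin_apply] at this
    rw [Finset.coe_insert, Finset.coe_singleton, Submodule.mem_span_pair]
    refine ⟨f w, f w', ?_⟩
    funext b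
    have h2 := h f hf' b b.2
    change f w * ((xF w' + xF (b : V)) * (xF w + xF w')⁻¹) +
      f w' * ((xF w + xF (b : V)) * (xF w + xF w')⁻¹) = f b
    rw [← mul_assoc, ← mul_assoc, ← add_mul, ← h2, mul_assoc, mul_inv_cancel₀ hc, mul_one]
  refine (Submodule.finrank_mono h1).trans ?_
  exact (finrank_span_finset_le_card _).trans Finset.card_le_two

end Aux_cl

open Aux_cl in
theorem p_cl : S_tcons → S_rk → S_clique → S_add → S_cl := by
  intro htc _ _ hadd V _ _ Y S w w' hY _ hwS hne hT
  have key : ∀ (S' B : Finset V), Tight (K S') Y → (∀ v ∈ B, v ≠ w → v ≠ w' →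
      ∀ u, K S v u + K S' v u = if u = w ∨ u = w' then 1 else 0) → rk Y B ≤ 2 := by
    intro S' B hT' hB
    refine rk_le Y B w w' hne ?_
    intro f hf v hv
    have hf1 := (htc V Y (K S) hY hT).1 f hf
    have hf2 := (htc V Y (K S') hY hT').1 f hf
    by_cases hvw : v = w
    · subst hvw
      have h2 := Aux_spec.add_self (xF v : F V)
      rw [h2, mul_zero, add_zero, add_comm (xF w')]
    · by_cases hvw' : v = w'
      · subst hvw'
        have h2 := Aux_spec.add_self (xF v : F V)
        rw [h2, mul_zero, zero_add]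
      · exact alg f v w w' hvw hvw' (pair hadd (K S) (K S') f v w w' hne hf1 hf2
          (hB v hv hvw hvw'))
  have z : (1 : ZMod 2) + 1 = 0 := by decide
  constructor
  · intro hw'S hT'
    refine key _ S hT' ?_
    intro v hv hvw hvw' u
    unfold K
    by_cases hu : u = w
    · subst hu
      simp [hv, hwS, hvw, hvw']
    · by_cases hu' : u = w'
      · subst hu'
        simp [hv, hw'S, hvw, hvw']
      · by_cases huS : u ∈ S
        · by_cases huv : v = u
          · simp [huv, hu, hu']
          · simp [hv, huS, huv, hu, hu', hvw, hvw', z]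
        · simp [huS, hu, hu']
  · intro hw'S hT'
    refine key _ _ hT' ?_
    intro v hv hvw hvw' u
    have hvS : v ∈ S := by
      rw [mem_insert] at hv
      exact hv.resolve_left hvw'
    unfold K
    by_cases hu : u = w
    · subst hu
      simp [hvS, hwS, hvw, hvw', hne]
    · by_cases hu' : u = w'
      · subst hu'
        simp [hvS, hw'S, hvw, hvw']
      · by_cases huS : u ∈ S
        · by_cases huv : v = u
          · simp [huv, hu, hu']
          · simp [hvS, huS, huv, hu, hu', hvw, hvw', z]
        · simp [huS, hu, hu']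

end Pool.Agent.W390.SD
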