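import Pool.Agent.W390.SD.Stm3

/-!
# Project SD: O7, Claim A
-/

namespace Pool.Agent.W390.SD

open MvPolynomial Finset

namespace Aux_clA

theorem SDn_mono {V : Type} [Fintype V] [DecidableEq V] {m n : ℕ} (hmn : m ≤ n)
    (h : SDn V n) : SDn V m :=
  fun G hG hc => h G hG (hc.trans hmn)

theorem UQn_mono {V : Type} [Fintype V] [DecidableEq V] {m n : ℕ} (hmn : m ≤ n)
    (h : UQn V n) : UQn V m :=
  fun Y T₁ T₂ hY hc => h Y T₁ T₂ hY (hc.trans hmn)

theorem mem_supp_of_ne {V : Type} [Fintype V] {A : Gr V} {u v : V} (h : A u v ≠ 0) :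
    u ∈ supp A := by
  unfold supp
  rw [Finset.mem_filter]
  refine ⟨Finset.mem_univ _, ⟨v, ?_⟩⟩
  unfold nbr
  rw [Finset.mem_filter]
  exact ⟨Finset.mem_univ _, h⟩

end Aux_clA

theorem p_clA : S_add → S_zero → S_basis → S_rk → S_rkm → S_tcons → S_ctr → S_ctrnu → S_ctrt →
    S_unif → S_lift → S_tw → S_zcap → S_two → S_iia → S_sp2 → S_typ → S_clA := by
  intro _ _ _ hrk hrkm htcons hctr _ hctrt hunif hlift htw hzcap htwo hiia hsp2 htyp
  intro V _ _ n G T b b' p q w u J C c hSD hUQ hG hcard hnu hgood hT hTt hb' hSP hc hp hq hpq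
    hpb' hqb' hpJ hqJ hC hCT hC3 hwC hwJ hYwu hsg
  by_contra hu
  have hGe : IsEv G := hG.1
  have hGbb : G b b' ≠ 0 := hgood.1
  have hbb' : b ≠ b' := by
    rintro rfl
    exact hGbb (hGe.diag b)
  have hwS : w ∈ (supp G).erase b := hC hwC
  rw [Finset.mem_erase] at hwS
  obtain ⟨hwb, hwG⟩ := hwS
  have hwT : w ∉ supp T := fun h => (Finset.disjoint_left.1 hCT hwC) h
  have hwb' : w ≠ b' := by
    rintro rfl
    exact hwT hb'
  have hub' : u ≠ b' := by
    rintro rfl
    exact hu hb'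
  have hhat : hat G b b' w u = u := by
    unfold hat
    rw [if_neg]
    rintro ⟨h, -⟩
    exact hub' h
  have hl := hlift V G b b' w u hGe hGbb hwb hwb' hYwu
  rw [hhat] at hl
  obtain ⟨hub, huw, -, -, hGwu, hHbb, hHY, -, hl9, -⟩ := hl
  have hsp := hsp2 V G b b' w u J c hGe hSP hwJ hYwu hsg
  rw [hhat] at hsp
  obtain ⟨hgwu, hgH, c', q', hSP', hc', -⟩ := hsp
  have hgYwu : good (ctr b b' G) w u := hl9 hgood hgwu hgH
  -- evenness
  have hc1 := hctr V G G b b' hbb' hGe hGe
  have hYe : IsEv (ctr b b' G) := hc1.1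
  have hbY : b ∉ supp (ctr b b' G) := hc1.2.2.2.1
  have hbG : b ∈ supp G := Aux_clA.mem_supp_of_ne hGbb
  have hb'G : b' ∈ supp G := Aux_clA.mem_supp_of_ne (by rw [hGe.symm]; exact hGbb)
  have hYG : supp (ctr b b' G) ⊆ (supp G).erase b := hc1.2.2.2.2.2.1 hb'G
  have hTY : supp T ⊆ supp (ctr b b' G) := (htcons V (ctr b b' G) T hYe hTt).2.1
  have hbT : b ∉ supp T := fun h => hbY (hTY h)
  have hwu : w ≠ u := fun h => huw h.symm
  have hc2 := hctr V G G w u hwu hGe hGe
  have hHe : IsEv (ctr w u G) := hc2.1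
  have huG : u ∈ supp G := Aux_clA.mem_supp_of_ne (by rw [hGe.symm]; exact hGwu)
  have hHG : supp (ctr w u G) ⊆ (supp G).erase w := hc2.2.2.2.2.2.1 huG
  have hHcard : (supp (ctr w u G)).card ≤ n := by
    have h1 := Finset.card_le_card hHG
    rw [Finset.card_erase_of_mem hwG, hcard] at h1
    omega
  -- `T` is tight in `ctr b b' H`
  have hTe : IsEv T := hT.1
  have hTH : Tight T (ctr b b' (ctr w u G)) := by
    rw [hHY]
    have h1 := (hctrt V (ctr b b' G) T w u hYe hTt hgYwu).1
    have h2 := hctr V T T w u hwu hTe hTe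
    rw [h2.2.2.1 hwT] at h1
    exact h1
  have hty := htyp V (ctr w u G) T b b' p q (J.erase w) c' hHe (Aux_clA.SDn_mono hHcard hSD)
    (Aux_clA.UQn_mono hHcard hUQ) hSP' hc' hT hTH hb' hp hq hpq hpb' hqb'
    (fun h => hpJ (Finset.mem_of_mem_erase h)) (fun h => hqJ (Finset.mem_of_mem_erase h))
  -- the graph `T'`
  obtain ⟨T', hT', hT'H, hwT', huT', hcT'⟩ : ∃ T' : Gr V, Indec T' ∧ Tight T' (ctr w u G) ∧
      w ∉ supp T' ∧ u ∉ supp T' ∧ (supp T').card = (supp T).card := by
    rcases hty.2.2.1 with h | h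
    · exact ⟨T, hT, h, hwT, hu, rfl⟩
    · have h1 := htw V b b' T hbb' hT hbT (Or.inl hb')
      have h2 := h1.2.2.2.2.2 hb'
      refine ⟨tw b b' T, h1.1, h, ?_, ?_, ?_⟩
      · rw [h2, Finset.mem_insert, Finset.mem_erase]
        rintro (h3 | h3)
        · exact hwb h3
        · exact hwT h3.2
      · rw [h2, Finset.mem_insert, Finset.mem_erase]
        rintro (h3 | h3)
        · exact hub h3
        · exact hu h3.2
      · rw [h2, Finset.card_insert_of_notMem, Finset.card_erase_of_mem hb']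
        · have : 0 < (supp T).card := Finset.card_pos.2 ⟨b', hb'⟩
          omega
        · rw [Finset.mem_erase]
          exact fun h3 => hbT h3.2
  -- ranks
  have hcT2 : 2 ≤ (supp T).card := by
    have h1 : ({p, q} : Finset V) ⊆ supp T := by
      intro x hx
      rw [Finset.mem_insert, Finset.mem_singleton] at hx
      rcases hx with rfl | rfl
      · exact hp
      · exact hq
    have h2 := Finset.card_le_card h1
    rwa [Finset.card_pair hpq] at h2
  have hT'supp : supp T' ⊆ supp G := by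
    have h1 := (htcons V (ctr w u G) T' hHe hT'H).2.1
    exact h1.trans (hHG.trans (Finset.erase_subset _ _))
  have hz := hzcap V G w u (supp T') 4 (hunif V G hG) hgwu (by rw [hcard]; exact hnu) hT'supp
    hwT' huT'
  rw [hcT'] at hz
  have hrk3 : 3 ≤ rk (ctr w u G) (insert u (supp T')) := by
    refine le_trans ?_ hz
    rw [le_min_iff]
    constructor
    · norm_num
    · omega
  have hrkne : rk (ctr w u G) (insert u (supp T')) ≠ 3 := fun h3 =>
    hiia V n G T' w u hSD hUQ hG hcard hnu hgwu hT' hT'H huT' h3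
  have hrk4 : 4 ≤ rk (ctr w u G) (insert u (supp T')) := by omega
  have hrk3' : 3 ≤ rk (ctr w u G) (supp T') := by
    have h1 := (hrkm V (ctr w u G) (ctr w u G) hHe hHe).2.2.2.1 (supp T') u
    omega
  -- the complement
  have hnuC : 2 ≤ nuC (ctr w u G) (insert u (supp T'))ᶜ := by
    have h1 := hrk V (ctr w u G) (insert u (supp T')) hHe
    rw [Finset.card_insert_of_notMem huT', hcT'] at h1
    have h2 : nu (ctr w u G) + 1 = nu G := hgwu.2
    have h3 : (C ∪ supp T).card ≤ ((supp G).erase b).card :=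
      Finset.card_le_card (Finset.union_subset hC (hTY.trans hYG))
    rw [Finset.card_union_of_disjoint hCT, Finset.card_erase_of_mem hbG, hcard] at h3
    omega
  exact htwo V n G T' w u hSD hUQ hG hcard (by omega) hgwu hT' hT'H hrk3' hrk4 hnuC

end Pool.Agent.W390.SD
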