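import Pool.Agent.W390.SD.Stm1

set_option autoImplicit false

namespace Pool.Agent.W390.SD.Aux_dd

open MvPolynomial Finset

variable {V : Type} [DecidableEq V]

theorem pd_const (u v i : V) : pderiv u (pderiv v (X i : R V)) = 0 := by
  by_cases h : i = v
  · subst h
    rw [pderiv_X_self]
    exact Derivation.map_one_eq_zero _
  · rw [pderiv_X_of_ne h, map_zero]

theorem pd_comm (u v : V) (p : R V) : pderiv u (pderiv v p) = pderiv v (pderiv u p) := by
  have h : ⁅(pderiv u : Derivation (ZMod 2) (R V) (R V)),
      (pderiv v : Derivation (ZMod 2) (R V) (R V))⁆ = 0 := by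
    apply MvPolynomial.derivation_ext
    intro i
    rw [Derivation.commutator_apply, pd_const, pd_const, sub_zero, Derivation.zero_apply]
  have h2 := congrArg (fun D : Derivation (ZMod 2) (R V) (R V) => D p) h
  simp only [Derivation.commutator_apply, Derivation.zero_apply] at h2
  exact sub_eq_zero.mp h2

theorem pd_sq (v : V) (p : R V) : pderiv v (pderiv v p) = 0 := by
  induction p using MvPolynomial.induction_on with
  | C a => rw [pderiv_C, map_zero]
  | add p q hp hq => rw [map_add, map_add, hp, hq, add_zero]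
  | mul_X p i hp =>
    rw [Derivation.leibniz, smul_eq_mul, smul_eq_mul, map_add, Derivation.leibniz,
      Derivation.leibniz, pd_const, hp]
    simp only [smul_eq_mul, mul_zero, zero_add]
    rw [mul_comm]
    exact CharTwo.add_self_eq_zero _

/-- list version -/
noncomputable def ddL (l : List V) : R V →ₗ[ZMod 2] R V :=
  l.foldr (fun v (f : R V →ₗ[ZMod 2] R V) =>
    ((pderiv v : Derivation (ZMod 2) (R V) (R V)) : R V →ₗ[ZMod 2] R V) ∘ₗ f) LinearMap.id

theorem ddL_cons (v : V) (l : List V) (p : R V) : ddL (v :: l) p = pderiv v (ddL l p) := rfl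

theorem ddL_perm {l l' : List V} (h : l.Perm l') (p : R V) : ddL l p = ddL l' p := by
  induction h with
  | nil => rfl
  | cons x _ ih => rw [ddL_cons, ddL_cons, ih]
  | swap x y l => rw [ddL_cons, ddL_cons, ddL_cons, ddL_cons, pd_comm]
  | trans _ _ ih1 ih2 => rw [ih1, ih2]

theorem dd_eq (J : Finset V) (p : R V) : dd J p = ddL J.toList p := rfl

theorem dd_empty (p : R V) : dd (∅ : Finset V) p = p := by
  rw [dd_eq, Finset.toList_empty]
  rfl

theorem dd_insert (J : Finset V) (v : V) (p : R V) (h : v ∉ J) :
    dd (insert v J) p = pderiv v (dd J p) := by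
  rw [dd_eq, dd_eq, ddL_perm (Finset.toList_insert h) p, ddL_cons]

theorem dd_pd (J : Finset V) (v : V) (p : R V) : dd J (pderiv v p) = pderiv v (dd J p) := by
  induction J using Finset.induction_on with
  | empty => rw [dd_empty, dd_empty]
  | insert a J ha ih => rw [dd_insert J a _ ha, dd_insert J a _ ha, ih, pd_comm]

theorem dd_mem (J : Finset V) (v : V) (p : R V) (h : v ∈ J) :
    dd J p = pderiv v (dd (J.erase v) p) := by
  have h1 := dd_insert (J.erase v) v p (Finset.notMem_erase v J)
  rwa [Finset.insert_erase h] at h1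

theorem dd_mul (J : Finset V) (c p : R V) (h : ∀ j ∈ J, pderiv j c = 0) :
    dd J (c * p) = c * dd J p := by
  induction J using Finset.induction_on with
  | empty => rw [dd_empty, dd_empty]
  | insert a J ha ih =>
    rw [dd_insert J a _ ha, dd_insert J a _ ha, ih (fun j hj => h j (Finset.mem_insert_of_mem hj)),
      Derivation.leibniz, h a (Finset.mem_insert_self a J), smul_zero, add_zero, smul_eq_mul]

theorem dd_X (J : Finset V) (u : V) (p : R V) :
    dd J (X u * p) = X u * dd J p + if u ∈ J then dd (J.erase u) p else 0 := by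
  by_cases hu : u ∈ J
  · rw [if_pos hu, dd_mem J u _ hu, dd_mem J u p hu, dd_mul (J.erase u) (X u) p, Derivation.leibniz,
      pderiv_X_self, smul_eq_mul, smul_eq_mul, mul_one]
    intro j hj
    exact pderiv_X_of_ne (Finset.ne_of_mem_erase hj).symm
  · rw [if_neg hu, add_zero, dd_mul]
    intro j hj
    apply pderiv_X_of_ne
    rintro rfl
    exact hu hj

theorem dd_zero_union (J K : Finset V) (p : R V) (h : dd J p = 0) : dd (J ∪ K) p = 0 := by
  induction K using Finset.induction_on with
  | empty => rwa [Finset.union_empty]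
  | insert a K ha ih =>
    rw [Finset.union_insert]
    by_cases h2 : a ∈ J ∪ K
    · rwa [Finset.insert_eq_of_mem h2]
    · rw [dd_insert _ a p h2, ih, map_zero]

end Pool.Agent.W390.SD.Aux_dd

namespace Pool.Agent.W390.SD

open MvPolynomial Finset

theorem p_dd : S_dd := by
  intro V _
  refine ⟨Aux_dd.dd_empty, fun J v p h => Aux_dd.dd_insert J v p h, Aux_dd.dd_pd, ?_,
    fun J c p h => Aux_dd.dd_mul J c p h, Aux_dd.dd_X, ?_⟩
  · intro J v p h
    rw [Aux_dd.dd_mem J v p h, Aux_dd.pd_sq]
  · intro J J' p hJ h h0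
    apply h
    have := Aux_dd.dd_zero_union J J' p h0
    rwa [Finset.union_eq_right.mpr hJ] at this

end Pool.Agent.W390.SD
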