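import Pool.Agent.W390.SD.Stm1

/-!
# Project SD, part A6: degrees of `P_J`
-/

set_option autoImplicit false

namespace Pool.Agent.W390.SD.Aux_deg

open MvPolynomial Finset

theorem degree_pderiv_le {V : Type} (v w : V) (p : R V) :
    degreeOf w (pderiv v p) ≤ degreeOf w p := by
  classical
  rw [degreeOf_le_iff]
  intro m hm
  rw [mem_support_iff, coeff_pderiv] at hm
  have h1 : coeff (m + Finsupp.single v 1) p ≠ 0 := by
    intro h
    apply hm
    rw [h]; simp
  have h2 := (degreeOf_le_iff.1 (le_refl (degreeOf w p))) _ (mem_support_iff.2 h1)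
  have h3 : m w ≤ (m + Finsupp.single v 1 : V →₀ ℕ) w := by simp
  exact h3.trans h2

theorem degree_pderiv_self {V : Type} (w : V) (p : R V) {D : ℕ} (hD : Even D)
    (hp : degreeOf w p ≤ D) (hne : pderiv w p ≠ 0) : degreeOf w (pderiv w p) + 2 ≤ D := by
  classical
  have key : ∀ m ∈ (pderiv w p).support, m w + 2 ≤ D := by
    intro m hm
    rw [mem_support_iff, coeff_pderiv] at hm
    have h1 : coeff (m + Finsupp.single w 1) p ≠ 0 := by
      intro h
      apply hm
      rw [h]; simp
    have h2 := (degreeOf_le_iff.1 hp) _ (mem_support_iff.2 h1)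
    have h3 : (m + Finsupp.single w 1 : V →₀ ℕ) w = m w + 1 := by simp
    rw [h3] at h2
    have h4 : Even (m w) := by
      by_contra hodd
      rw [Nat.not_even_iff_odd] at hodd
      apply hm
      have : ((m w : ZMod 2) + 1) = 0 := by
        have h5 : ((m w + 1 : ℕ) : ZMod 2) = 0 := by
          rw [ZMod.natCast_eq_zero_iff]
          exact (hodd.add_odd odd_one).two_dvd
        exact_mod_cast h5
      simp [this]
    obtain ⟨a, ha⟩ := hD
    obtain ⟨b, hb⟩ := h4
    omega
  have hsupp : (pderiv w p).support.Nonempty := by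
    rw [nonempty_iff_ne_empty]
    intro h
    exact hne (support_eq_empty.1 h)
  obtain ⟨m, hm⟩ := hsupp
  have h2 : 2 ≤ D := by
    have := key m hm
    omega
  have h3 : degreeOf w (pderiv w p) ≤ D - 2 := by
    rw [degreeOf_le_iff]
    intro m hm
    have := key m hm
    omega
  omega

theorem degree_dd_le {V : Type} [DecidableEq V] (h : S_dd) (J : Finset V) (w : V) (p : R V) :
    degreeOf w (dd J p) ≤ degreeOf w p := by
  induction J using Finset.induction_on with
  | empty => rw [(h V).1 p]
  | insert v J hv ih =>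
    rw [(h V).2.1 J v p hv]
    exact (degree_pderiv_le v w _).trans ih

theorem degree_fac {V : Type} [DecidableEq V] (w : V) (e : Sym2 V) :
    degreeOf w (fac e) ≤ if w ∈ e then 1 else 0 := by
  induction e using Sym2.ind with
  | _ u v =>
    have e1 : (fac s(u, v) : R V) = X u + X v := rfl
    rw [e1]
    refine (degreeOf_add_le _ _ _).trans ?_
    rw [degreeOf_X, degreeOf_X]
    by_cases h1 : w = u
    · subst h1; simp; split_ifs <;> simp
    · by_cases h2 : w = v
      · subst h2; simp; split_ifs <;> simp
      · simp [h1, h2]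

theorem degree_PP {V : Type} [Fintype V] [DecidableEq V] (A : Gr V) (hA : IsEv A) (w : V) :
    degreeOf w (PP A) ≤ (nbr A w).card := by
  unfold PP
  refine (degreeOf_prod_le _ _ _).trans ?_
  refine (Finset.sum_le_sum fun e _ => degree_fac w e).trans ?_
  rw [← Finset.sum_filter, Finset.sum_const, smul_eq_mul, mul_one]
  have hsub : (edg A).filter (fun e => w ∈ e) ⊆ (nbr A w).image (fun u => s(w, u)) := by
    intro e he
    rw [Finset.mem_filter] at he
    obtain ⟨h1, h2⟩ := he
    unfold edg at h1
    rw [Finset.mem_image] at h1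
    obtain ⟨⟨a, b⟩, hab, rfl⟩ := h1
    rw [Finset.mem_filter] at hab
    have hab' : A a b ≠ 0 := hab.2
    rw [Sym2.mem_iff] at h2
    rw [Finset.mem_image]
    rcases h2 with h | h
    · subst h
      exact ⟨b, by unfold nbr; simpa using hab', rfl⟩
    · subst h
      refine ⟨a, ?_, Sym2.eq_swap⟩
      unfold nbr
      simp only [Finset.mem_filter, Finset.mem_univ, true_and]
      rw [hA.symm]
      exact hab'
  exact (Finset.card_le_card hsub).trans Finset.card_image_le

theorem even_nbr {V : Type} [Fintype V] [DecidableEq V] (A : Gr V) (hA : IsEv A) (w : V) :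
    Even (nbr A w).card := by
  have h1 := hA.even w
  have h2 : ∑ u, A w u = ((nbr A w).card : ZMod 2) := by
    rw [Finset.card_eq_sum_ones]
    unfold nbr
    rw [Finset.sum_filter]
    push_cast
    refine Finset.sum_congr rfl fun u _ => ?_
    generalize A w u = x
    revert x
    decide
  rw [h2, ZMod.natCast_eq_zero_iff] at h1
  exact (even_iff_two_dvd).2 h1

end Pool.Agent.W390.SD.Aux_deg

namespace Pool.Agent.W390.SD

open MvPolynomial Finset

theorem p_deg : S_dd → S_deg := by
  intro h V _ _ A J w hA
  refine ⟨(Aux_deg.degree_dd_le h J w _).trans (Aux_deg.degree_PP A hA w), ?_⟩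
  intro hw hne
  have e : PJ A J = pderiv w (dd (J.erase w) (PP A)) := by
    unfold PJ
    rw [← (h V).2.1 (J.erase w) w _ (Finset.notMem_erase w J), Finset.insert_erase hw]
  rw [e] at hne ⊢
  exact Aux_deg.degree_pderiv_self w _ (Aux_deg.even_nbr A hA w)
    ((Aux_deg.degree_dd_le h _ w _).trans (Aux_deg.degree_PP A hA w)) hne

end Pool.Agent.W390.SD
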