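import Pool.Agent.W390.SD.Stm2
import Pool.Agent.W390.SD.P.dd
import Pool.Agent.W390.SD.P.ddsg
import Pool.Agent.W390.SD.P.deg
import Pool.Agent.W390.SD.P.ctr_edge
import Pool.Agent.W390.SD.P.ctr

/-! Project SD, part claim1 (E1). -/

namespace Pool.Agent.W390.SD

open MvPolynomial Finset

namespace Aux_claim1

section api

variable {V : Type} [DecidableEq V]

theorem tf_inj (u : V) :
    Function.Injective (fun v : V => if v = u then (none : Option V) else some v) := by
  intro a b h
  simp only at h
  by_cases ha : a = u
  · by_cases hb : b = u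
    · rw [ha, hb]
    · rw [if_pos ha, if_neg hb] at h
      exact absurd h (by simp)
  · by_cases hb : b = u
    · rw [if_neg ha, if_pos hb] at h
      exact absurd h (by simp)
    · rw [if_neg ha, if_neg hb] at h
      exact Option.some_injective V h

omit [DecidableEq V] in
theorem io_inj : Function.Injective (io : R V → R (Option V)) :=
  rename_injective _ (Option.some_injective V)

theorem ta_inj (u : V) : Function.Injective (ta u : R V → R (Option V)) :=
  rename_injective _ (tf_inj u)

omit [DecidableEq V] in
theorem pd_io (p : V) (f : R V) : pderiv (some p) (io f) = io (pderiv p f) :=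
  pderiv_rename (Option.some_injective V) p f

theorem pd_ta (u p : V) (hp : p ≠ u) (f : R V) : pderiv (some p) (ta u f) = ta u (pderiv p f) := by
  have h := pderiv_rename (tf_inj u) p f
  simp only [if_neg hp] at h
  exact h

theorem pd_ta_u (u : V) (f : R V) : pderiv (some u) (ta u f) = 0 := by
  apply pderiv_eq_zero_of_notMem_vars
  intro h
  have h1 := vars_rename (fun v : V => if v = u then (none : Option V) else some v) f h
  rw [mem_image] at h1
  obtain ⟨a, -, ha⟩ := h1
  by_cases hau : a = u
  · rw [if_pos hau] at ha
    exact absurd ha (by simp)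
  · rw [if_neg hau] at ha
    exact hau (Option.some_injective V ha)

theorem sg_io (w w' : V) (f : R V) : sg (some w) (some w') (io f) = io (sg w w' f) := by
  unfold sg io
  rw [rename_rename, rename_rename]
  congr 2
  funext v
  simp only [Function.comp]
  by_cases hv : v = w
  · subst hv
    rw [if_pos rfl, if_pos rfl]
  · rw [if_neg hv, if_neg (fun h => hv (Option.some_injective V h))]

theorem sg_ta (u w w' : V) (hw : w ≠ u) (hw' : w' ≠ u) (f : R V) :
    sg (some w) (some w') (ta u f) = ta u (sg w w' f) := by
  unfold sg ta
  rw [rename_rename, rename_rename]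
  congr 2
  funext v
  simp only [Function.comp]
  by_cases hv : v = w
  · subst hv
    rw [if_pos rfl, if_neg hw, if_pos rfl, if_neg hw']
  · by_cases hvu : v = u
    · subst hvu
      rw [if_pos rfl, if_neg (by simp), if_neg hv, if_pos rfl]
    · rw [if_neg hvu, if_neg (fun h => hv (Option.some_injective V h)), if_neg hv, if_neg hvu]

omit [DecidableEq V] in
theorem deg_io (w : V) (f : R V) : degreeOf (some w) (io f) = degreeOf w f :=
  degreeOf_rename_of_injective (Option.some_injective V) w

theorem deg_ta (u w : V) (hw : w ≠ u) (f : R V) : degreeOf (some w) (ta u f) = degreeOf w f := by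
  have h := degreeOf_rename_of_injective (p := f) (tf_inj u) w
  simp only [if_neg hw] at h
  exact h

omit [DecidableEq V] in
theorem add_self (f : R V) : f + f = 0 := CharTwo.add_self_eq_zero f

/-- `f` does not contain `t_u` -/
theorem indep_of_eq (u : V) (f : R V) (h : ta u f = io f) : IndepOf u f := by
  intro p
  by_cases hp : p = u
  · subst hp
    have h1 := pd_ta_u p f
    rw [h, pd_io] at h1
    have h2 : pderiv p f = 0 := io_inj (by rw [h1, map_zero])
    rw [h2, map_zero, map_zero, mul_zero, mul_zero, add_zero]
  · have h1 := pd_ta u p hp f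
    rw [h, pd_io] at h1
    rw [← h1, h]
    exact add_self _

omit [DecidableEq V] in
theorem pd_sq (v : V) (q : R V) : pderiv v (q ^ 2) = 0 := by
  rw [sq, Derivation.leibniz, smul_eq_mul]
  exact add_self _

end api

variable {V : Type} [Fintype V] [DecidableEq V]

theorem PP_free (A : Gr V) (hA : IsEv A) (u : V) (hu : u ∉ supp A) :
    ta u (PP A) = io (PP A) := by
  unfold PP
  rw [map_prod, map_prod]
  refine Finset.prod_congr rfl fun e he => ?_
  induction e using Sym2.ind with
  | _ a b =>
    rw [Aux_ctr_edge.mem_edg A hA.symm] at he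
    have ha : a ≠ u := by
      rintro rfl
      apply hu
      rw [Aux_ctr.mem_supp]
      exact ⟨b, he⟩
    have hb : b ≠ u := by
      rintro rfl
      apply hu
      rw [Aux_ctr.mem_supp]
      exact ⟨a, by rw [hA.symm]; exact he⟩
    rw [Aux_ctr_edge.fac_mk, map_add, map_add]
    unfold ta io
    rw [rename_X, rename_X, rename_X, rename_X, if_neg ha, if_neg hb]

theorem main (hdd : S_dd) (hint : S_interp) (hdeg : S_deg) (hce : S_ctr_edge)
    (hctr : S_ctr) (hbas : S_basis) (u : V) : ∀ (n : ℕ) (G : Gr V) (C : Finset V), C.card = n →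
    IsEv G → u ∈ C → PJ G C = 0 → IndepOf u (PJ G (C.erase u)) := by
  intro n
  induction n with
  | zero =>
    intro G C hC _ hu _
    rw [card_eq_zero] at hC
    rw [hC] at hu
    exact absurd hu (notMem_empty u)
  | succ n ih =>
    intro G C hC hG hu h0
    by_cases hne : C.erase u = ∅
    · have hC1 : C = {u} := by
        rw [← insert_erase hu, hne]
        rfl
      have hus : u ∉ supp G := by
        intro h
        obtain ⟨-, -, -, -, -, -, hb, -⟩ := hbas V G hG
        apply hb u h
        rw [hC1] at h0
        exact h0
      rw [hne]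
      apply indep_of_eq
      unfold PJ
      rw [(hdd V).1]
      exact PP_free G hG u hus
    · obtain ⟨w, hw⟩ := nonempty_iff_ne_empty.2 hne
      obtain ⟨Q, hQd⟩ : ∃ Q : R V, Q = PJ G (C.erase u) := ⟨_, rfl⟩
      rw [← hQd]
      by_cases hQ0 : Q = 0
      · intro p
        rw [hQ0]
        simp only [map_zero, mul_zero, add_zero]
      have hwu : w ≠ u := (mem_erase.1 hw).1
      have hwC : w ∈ C := (mem_erase.1 hw).2
      have hdw := (hdeg V G (C.erase u) w hG).2 hw (by rw [← hQd]; exact hQ0)
      rw [← hQd] at hdw
      have hQw : pderiv w Q = 0 := by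
        rw [hQd]
        exact (hdd V).2.2.2.1 (C.erase u) w _ hw
      intro p
      by_cases hpw : p = w
      · subst hpw
        rw [hQw, map_zero, map_zero, mul_zero, mul_zero, add_zero]
      obtain ⟨f, hfd⟩ : ∃ f : R (Option V), f = io Q * ta u (pderiv p Q) + ta u Q * io (pderiv p Q) :=
        ⟨_, rfl⟩
      rw [← hfd]
      have hpq : pderiv w (pderiv p Q) = 0 := by
        rw [Aux_dd.pd_comm, hQw, map_zero]
      have hpd : pderiv (some w) f = 0 := by
        rw [hfd, map_add, Derivation.leibniz, Derivation.leibniz, pd_io, pd_io, pd_ta u w hwu,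
          pd_ta u w hwu, hpq, hQw]
        simp only [map_zero, smul_zero, add_zero]
      have hdp : degreeOf w (pderiv p Q) ≤ degreeOf w Q := Aux_deg.degree_pderiv_le p w Q
      have hfdeg : degreeOf (some w) f ≤ 2 * ((nbr G w).card - 2) := by
        rw [hfd]
        refine (degreeOf_add_le _ _ _).trans (max_le ?_ ?_)
        · refine (degreeOf_mul_le _ _ _).trans ?_
          rw [deg_io, deg_ta u w hwu]
          omega
        · refine (degreeOf_mul_le _ _ _).trans ?_
          rw [deg_io, deg_ta u w hwu]
          omega
      refine hint (Option V) (some w) (((nbr G w).erase u).image some) ((nbr G w).card - 2) f hpd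
        hfdeg ?_ ?_ ?_
      · intro h
        rw [mem_image] at h
        obtain ⟨a, ha, haw⟩ := h
        have haw' : a = w := Option.some_injective V haw
        rw [haw', mem_erase, Aux_ctr_edge.mem_nbr] at ha
        exact ha.2 (hG.diag w)
      · intro z hz
        rw [mem_image] at hz
        obtain ⟨w', hw', rfl⟩ := hz
        rw [mem_erase, Aux_ctr_edge.mem_nbr] at hw'
        obtain ⟨hw'u, hww'⟩ := hw'
        have hne' : w ≠ w' := by
          rintro rfl
          exact hww' (hG.diag w)
        obtain ⟨q, hq⟩ : ∃ q : R V, q = ∏ x ∈ nbr G w ∩ nbr G w', (X x + X w') := ⟨_, rfl⟩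
        have hq0 : q ≠ 0 := by
          rw [hq, Finset.prod_ne_zero_iff]
          intro x hx
          rw [mem_inter, Aux_ctr_edge.mem_nbr, Aux_ctr_edge.mem_nbr] at hx
          have hxw : x ≠ w' := by
            rintro rfl
            exact hx.2 (hG.diag x)
          intro h
          have h2 : (X x : R V) = X w' := by
            have h3 := add_self (X w' : R V)
            linear_combination h - h3
          exact hxw (X_injective h2)
        obtain ⟨G', hG'⟩ : ∃ G' : Gr V, G' = ctr w w' G := ⟨_, rfl⟩
        have hG'e : IsEv G' := by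
          rw [hG']
          exact (hctr V G G w w' hne' hG hG).1
        obtain ⟨Q', hQ'⟩ : ∃ Q' : R V, Q' = PJ G' ((C.erase w).erase u) := ⟨_, rfl⟩
        have hsQ : sg w w' Q = q ^ 2 * Q' := by
          rw [hQd, hce V G (C.erase u) w w' hG hww' hw, hq, hQ', hG', erase_right_comm]
        have hC'0 : PJ G' (C.erase w) = 0 := by
          have h1 := hce V G C w w' hG hww' hwC
          rw [h0, map_zero, ← hq, ← hG'] at h1
          rcases mul_eq_zero.1 h1.symm with h2 | h2
          · exact absurd h2 (pow_ne_zero 2 hq0)
          · exact h2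
        have hih := ih G' (C.erase w) (by rw [card_erase_of_mem hwC, hC]; rfl) hG'e
          (mem_erase.2 ⟨hwu.symm, hu⟩) hC'0 p
        rw [← hQ'] at hih
        have hsp : sg w w' (pderiv p Q) = q ^ 2 * pderiv p Q' := by
          have h1 : sg w w' (pderiv p Q) = pderiv p (sg w w' Q) := by
            by_cases hpw' : p = w'
            · subst hpw'
              rw [Aux_ddsg.sg_pdw' w p hne', hQw, zero_add]
            · rw [Aux_ddsg.sg_pd w w' p hpw hpw']
          rw [h1, hsQ, Derivation.leibniz, pd_sq, smul_zero, add_zero, smul_eq_mul]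
        rw [hfd, map_add, map_mul, map_mul, sg_io, sg_io, sg_ta u w w' hwu hw'u,
          sg_ta u w w' hwu hw'u, hsQ, hsp, map_mul, map_mul, map_mul, map_mul]
        linear_combination io (q ^ 2) * ta u (q ^ 2) * hih
      · rw [card_image_of_injective _ (Option.some_injective V)]
        have h1 := pred_card_le_card_erase (s := nbr G w) (a := u)
        omega

end Aux_claim1

theorem p_claim1 : S_dd → S_ddsg → S_interp → S_deg → S_ctr_edge → S_ctr → S_basis →
    S_claim1 := by
  intro hdd _ hint hdeg hce hctr hbas V _ _ G C u hG hu h0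
  exact Aux_claim1.main hdd hint hdeg hce hctr hbas u C.card G C rfl hG hu h0

end Pool.Agent.W390.SD
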