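import Pool.Agent.W390.SD.Stm2

/-!
# Project SD: odd cliques are indecomposable
-/

namespace Pool.Agent.W390.SD

open Finset

namespace Aux_clind

lemma nbr_K_card {V : Type} [Fintype V] [DecidableEq V] (S : Finset V) (v : V) (hv : v ∈ S) :
    nbr (K S) v = S.erase v := by
  ext u
  simp only [nbr, K, mem_filter, mem_univ, true_and, mem_erase, ne_eq]
  by_cases hu : u ∈ S
  · by_cases h : v = u
    · subst h; simp
    · have h' : ¬ u = v := fun e => h e.symm
      simp [hv, hu, h, h']
  · simp [hu]

/-- the wlog step -/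
lemma step (h1 : S_clique) (h2 : S_ctrK) (h3 : S_ctrt) (h5 : S_zero) (h7 : S_ctr) (h8 : S_add)
    (h9 : S_tcons) {V : Type} [Fintype V] [DecidableEq V] (S : Finset V) (hodd : Odd S.card)
    (h3' : 3 ≤ S.card)
    (ih : ∀ S' : Finset V, S'.card < S.card → Odd S'.card → 3 ≤ S'.card → Indec (K S'))
    (H : Gr V) (hH : Tight H (K S)) (hne : H ≠ 0) (hge : 2 ≤ nu (K S + H)) : False := by
  obtain ⟨hEv, hsupp, hnu, -⟩ := h1 V S hodd
  have hsupp := hsupp h3'
  have hHev : IsEv H := hH.1
  have hnuS : nu (K S) = nu H + nu (K S + H) := hH.2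
  have hH1 : 1 ≤ nu H := by
    rcases Nat.eq_zero_or_pos (nu H) with h0 | h0
    · exact absurd (((h5 V H hHev).1).1 h0) hne
    · exact h0
  set H' : Gr V := K S + H with hH'def
  have hH'ev : IsEv H' := (h8 V (K S) H).2.1 hEv hHev
  have hH'ne : H' ≠ 0 := by
    intro h0
    have := ((h5 V H' hH'ev).1).2 h0
    omega
  have hHH : H + H = 0 := (h8 V H H).2.2.1
  have hsum : H + H' = K S := by
    rw [hH'def]
    calc H + (K S + H) = K S + (H + H) := by abel
      _ = K S := by rw [hHH, add_zero]
  have hT' : Tight H' (K S) := (h9 V (K S) H hEv hH).2.2.2.2.1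
  have hsub : supp H' ⊆ S := by
    have := (h9 V (K S) H' hEv hT').2.1
    rwa [hsupp] at this
  -- an edge
  obtain ⟨w, w', hww⟩ : ∃ w w', H' w w' ≠ 0 := by
    by_contra hcon
    push Not at hcon
    exact hH'ne (by funext a b; exact hcon a b)
  have hwS : w ∈ S := by
    apply hsub
    simp only [supp, mem_filter, mem_univ, true_and]
    exact ⟨w', by simpa [nbr] using hww⟩
  have hwS' : w' ∈ S := by
    apply hsub
    simp only [supp, mem_filter, mem_univ, true_and]
    exact ⟨w, by simpa [nbr, hH'ev.symm w' w] using hww⟩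
  have hne' : w ≠ w' := by
    rintro rfl
    exact hww (hH'ev.diag w)
  have hK : K S w w' = 1 := by simp [K, hwS, hwS', hne']
  have hHw : H w w' = 0 := by
    have h01 : ∀ x : ZMod 2, x ≠ 0 → x = 1 := by decide
    have e1 := h01 _ hww
    have e2 : K S w w' + H w w' = 1 := e1
    rw [hK] at e2
    simpa using e2
  have hctrK : ctr w w' (K S) = K ((S.erase w).erase w') :=
    (h2 V S w w' hodd hwS hne').1 hwS'
  have hcard : ((S.erase w).erase w').card = S.card - 2 := by
    rw [card_erase_of_mem (mem_erase.2 ⟨fun e => hne' e.symm, hwS'⟩), card_erase_of_mem hwS]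
    omega
  have hodd' : Odd ((S.erase w).erase w').card := by
    rw [hcard]
    obtain ⟨k, hk⟩ := hodd
    exact ⟨k - 1, by omega⟩
  have hnu' : 2 * nu (K ((S.erase w).erase w')) + 1 = ((S.erase w).erase w').card :=
    (h1 V _ hodd').2.2.1
  have hgood : good (K S) w w' := by
    refine ⟨by rw [hK]; decide, ?_⟩
    rw [hctrK]
    omega
  have hcard3 : 3 ≤ ((S.erase w).erase w').card := by omega
  have hind := ih _ (by omega) hodd' hcard3
  have c1 := h3 V (K S) H' w w' hEv hT' hgood
  have c2 := h3 V (K S) H w w' hEv hH hgood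
  have hgH' : nu (ctr w w' H') + 1 = nu H' := (c1.2.1 hww).2
  have hnuc : nu (ctr w w' H) = nu H := c2.2.2 hHw
  have hctrsum : ctr w w' (H + H') = ctr w w' H + ctr w w' H' :=
    (h7 V H H' w w' hne' hHev hH'ev).2.1
  have hctrev : IsEv (ctr w w' H') := (h7 V H' H' w w' hne' hH'ev hH'ev).1
  have hctrev2 : IsEv (ctr w w' H) := (h7 V H H w w' hne' hHev hHev).1
  have ht := c1.1
  rw [hctrK] at ht
  rcases hind.2.2 _ ht with h0 | h0
  · have := ((h5 V _ hctrev).1).2 h0
    omega
  · have e : ctr w w' H = 0 := by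
      rw [hsum, hctrK, ← h0] at hctrsum
      have := hctrsum
      exact left_eq_add.1 (by rw [add_comm]; exact this)
    have := ((h5 V _ hctrev2).1).2 e
    omega

end Aux_clind

open Aux_clind in
theorem p_clind : S_clique → S_ctrK → S_ctrt → S_ctrnu → S_zero → S_small → S_ctr → S_add →
    S_tcons → S_clind := by
  intro h1 h2 h3 _ h5 h6 h7 h8 h9 V _ _ S hodd h3'
  induction hn : S.card using Nat.strong_induction_on generalizing S with
  | _ n ih =>
  subst hn
  have ih' : ∀ S' : Finset V, S'.card < S.card → Odd S'.card → 3 ≤ S'.card → Indec (K S') :=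
    fun S' hlt ho h3 => ih S'.card hlt S' ho h3 rfl
  obtain ⟨hEv, hsupp, hnu, -⟩ := h1 V S hodd
  have hsupp := hsupp h3'
  refine ⟨hEv, ?_, ?_⟩
  · intro h0
    have := ((h5 V _ hEv).1).2 h0
    omega
  intro H hH
  by_contra hcon
  push Not at hcon
  obtain ⟨hne, hne2⟩ := hcon
  have hHev : IsEv H := hH.1
  have hHH : H + H = 0 := (h8 V H H).2.2.1
  have hKK : K S + K S = 0 := (h8 V (K S) H |>.2.2.1 : _)
  have hnuS : nu (K S) = nu H + nu (K S + H) := hH.2
  have hH'ev : IsEv (K S + H) := (h8 V (K S) H).2.1 hEv hHev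
  have hT' : Tight (K S + H) (K S) := (h9 V (K S) H hEv hH).2.2.2.2.1
  have hback : K S + (K S + H) = H := by rw [← add_assoc, hKK, zero_add]
  have hH'ne : K S + H ≠ 0 := by
    intro h0
    apply hne2
    rw [← hback, h0, add_zero]
  have hH1 : 1 ≤ nu H := by
    rcases Nat.eq_zero_or_pos (nu H) with h0 | h0
    · exact absurd (((h5 V H hHev).1).1 h0) hne
    · exact h0
  have hH'1 : 1 ≤ nu (K S + H) := by
    rcases Nat.eq_zero_or_pos (nu (K S + H)) with h0 | h0
    · exact absurd (((h5 V _ hH'ev).1).1 h0) hH'ne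
    · exact h0
  rcases Nat.lt_or_ge (nu (K S + H)) 2 with hlt | hge
  · rcases Nat.lt_or_ge (nu H) 2 with hlt2 | hge2
    · -- both 1
      have e1 : nu H = 1 := by omega
      have e2 : nu (K S + H) = 1 := by omega
      obtain ⟨S1, hS1, rfl⟩ := (h6 V H).2.1 hHev e1
      obtain ⟨S2, hS2, hK2⟩ := (h6 V (K S + K S1)).2.1 hH'ev e2
      have hcard5 : S.card = 5 := by omega
      have hsumK : K S = K S1 + K S2 := by
        rw [← hK2]
        have : K S1 + K S1 = 0 := hHH
        calc K S = K S + (K S1 + K S1) := by rw [this, add_zero]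
          _ = K S1 + (K S + K S1) := by abel
      have hall : S ⊆ S1 := by
        intro v hv
        by_contra hv1
        have hsub : nbr (K S) v ⊆ S2.erase v := by
          intro u hu
          simp only [nbr, mem_filter, mem_univ, true_and] at hu
          have h4 : K S v u = K S1 v u + K S2 v u := by rw [hsumK]; rfl
          have h5' : K S1 v u = 0 := by simp [K, hv1]
          rw [h4, h5', zero_add] at hu
          have : v ∈ S2 ∧ u ∈ S2 ∧ v ≠ u := by
            by_contra hc
            exact hu (by simp [K, hc])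
          exact mem_erase.2 ⟨fun e => this.2.2 e.symm, this.2.1⟩
        rw [nbr_K_card S v hv] at hsub
        have := card_le_card hsub
        rw [card_erase_of_mem hv] at this
        have h6' := card_erase_le (s := S2) (a := v)
        omega
      have := card_le_card hall
      omega
    · exact step h1 h2 h3 h5 h7 h8 h9 S hodd h3' ih' (K S + H) hT' hH'ne (by rw [hback]; exact hge2)
  · exact step h1 h2 h3 h5 h7 h8 h9 S hodd h3' ih' H hH hne hge

end Pool.Agent.W390.SD
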