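import Pool.Agent.W390.SD.Stm1

/-!
# Project SD: cliques (S_clique)
-/

set_option autoImplicit false

namespace Pool.Agent.W390.SD

open MvPolynomial Finset

namespace Aux_clique

variable {V : Type}

theorem K_isEv [Fintype V] [DecidableEq V] (S : Finset V) (hS : Odd S.card) : IsEv (K S) := by
  refine ⟨?_, ?_, ?_⟩
  · intro u v
    unfold K
    congr 1
    rw [eq_iff_iff]
    constructor
    · rintro ⟨h1, h2, h3⟩; exact ⟨h2, h1, h3.symm⟩
    · rintro ⟨h1, h2, h3⟩; exact ⟨h2, h1, h3.symm⟩
  · intro v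
    unfold K
    rw [if_neg]
    rintro ⟨_, _, h⟩
    exact h rfl
  · intro v
    unfold K
    rw [Finset.sum_ite, Finset.sum_const_zero, add_zero, Finset.sum_const]
    by_cases hv : v ∈ S
    · have h1 : (univ.filter fun u => v ∈ S ∧ u ∈ S ∧ v ≠ u) = S.erase v := by
        ext u
        simp only [mem_filter, mem_univ, true_and, mem_erase]
        constructor
        · rintro ⟨_, h2, h3⟩; exact ⟨h3.symm, h2⟩
        · rintro ⟨h2, h3⟩; exact ⟨hv, h3, h2.symm⟩
      rw [h1, card_erase_of_mem hv]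
      have h2 : Even (S.card - 1) := by
        obtain ⟨k, hk⟩ := hS
        rw [hk]
        simp
      obtain ⟨r, hr⟩ := h2
      rw [hr, nsmul_eq_mul, mul_one, Nat.cast_add]
      exact CharTwo.add_self_eq_zero _
    · have h1 : (univ.filter fun u => v ∈ S ∧ u ∈ S ∧ v ≠ u) = ∅ := by
        ext u
        simp [hv]
      rw [h1]
      simp

theorem K_ne [DecidableEq V] (S : Finset V) (u v : V) : K S u v ≠ 0 ↔ u ∈ S ∧ v ∈ S ∧ u ≠ v := by
  unfold K
  split_ifs with h
  · simp [h]
  · simpa using h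

theorem supp_K [Fintype V] [DecidableEq V] (S : Finset V) (hS : 3 ≤ S.card) : supp (K S) = S := by
  ext v
  simp only [supp, nbr, mem_filter, mem_univ, true_and, Finset.Nonempty, K_ne]
  constructor
  · rintro ⟨u, h, _⟩; exact h
  · intro hv
    obtain ⟨u, hu, huv⟩ := Finset.exists_mem_ne (s := S) (by omega) v
    exact ⟨u, hv, hu, huv.symm⟩

theorem K_zero [DecidableEq V] (S : Finset V) (hS : S.card = 1) : K S = 0 := by
  obtain ⟨a, ha⟩ := Finset.card_eq_one.1 hS
  subst ha
  funext u v
  by_contra h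
  have := (K_ne ({a} : Finset V) u v).1 h
  obtain ⟨h1, h2, h3⟩ := this
  rw [mem_singleton] at h1 h2
  exact h3 (h1.trans h2.symm)

theorem mem_edg [Fintype V] [DecidableEq V] (S : Finset V) (u v : V) :
    s(u, v) ∈ edg (K S) ↔ u ∈ S ∧ v ∈ S ∧ u ≠ v := by
  unfold edg
  simp only [mem_image, mem_filter, mem_univ, true_and, Prod.exists, K_ne]
  constructor
  · rintro ⟨a, b, ⟨h1, h2, h3⟩, h⟩
    rw [Sym2.eq_iff] at h
    rcases h with ⟨rfl, rfl⟩ | ⟨rfl, rfl⟩
    · exact ⟨h1, h2, h3⟩
    · exact ⟨h2, h1, h3.symm⟩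
  · rintro h
    exact ⟨u, v, h, rfl⟩

theorem X_add_ne {u v : V} (h : u ≠ v) : (X u + X v : R V) ≠ 0 := by
  intro h0
  apply h
  have h1 : (X u : R V) = X v := by
    have := eq_neg_of_add_eq_zero_left h0
    rw [this]
    exact CharTwo.neg_eq _
  exact X_injective h1

theorem PP_ne [Fintype V] [DecidableEq V] (S : Finset V) : PP (K S) ≠ 0 := by
  unfold PP
  rw [Finset.prod_ne_zero_iff]
  intro e he
  induction e using Sym2.ind with
  | _ u v =>
    rw [mem_edg] at he
    exact X_add_ne he.2.2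

theorem PP_vand [Fintype V] [DecidableEq V] (S : Finset V) (n : ℕ) (e : Fin n ≃ S) :
    PP (K S) = (Matrix.vandermonde (fun i => (X (e i : V) : R V))).det := by
  rw [Matrix.det_vandermonde, Finset.prod_sigma']
  unfold PP
  symm
  refine Finset.prod_bij (fun p _ => s((e p.1 : V), (e p.2 : V))) ?_ ?_ ?_ ?_
  · rintro ⟨i, j⟩ h
    simp only [mem_sigma, mem_univ, mem_Ioi, true_and] at h
    rw [mem_edg]
    refine ⟨(e i).2, (e j).2, ?_⟩
    intro h1
    have h2 : i = j := e.injective (Subtype.ext h1)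
    exact h.ne h2
  · rintro ⟨i, j⟩ h ⟨i', j'⟩ h' heq
    simp only [mem_sigma, mem_univ, mem_Ioi, true_and] at h h'
    simp only [Sym2.eq_iff] at heq
    rcases heq with ⟨h1, h2⟩ | ⟨h1, h2⟩
    · have e1 : i = i' := e.injective (Subtype.ext h1)
      have e2 : j = j' := e.injective (Subtype.ext h2)
      subst e1; subst e2; rfl
    · have e1 : i = j' := e.injective (Subtype.ext h1)
      have e2 : j = i' := e.injective (Subtype.ext h2)
      subst e1; subst e2
      exact absurd h (not_lt_of_gt h')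
  · intro b hb
    induction b using Sym2.ind with
    | _ u v =>
      rw [mem_edg] at hb
      obtain ⟨hu, hv, huv⟩ := hb
      obtain ⟨i, hi⟩ := e.surjective ⟨u, hu⟩
      obtain ⟨j, hj⟩ := e.surjective ⟨v, hv⟩
      have hij : i ≠ j := by
        rintro rfl
        rw [hi] at hj
        exact huv (congrArg Subtype.val hj)
      rcases lt_or_gt_of_ne hij with h | h
      · refine ⟨⟨i, j⟩, ?_, ?_⟩
        · simpa using h
        · simp only [hi, hj]
      · refine ⟨⟨j, i⟩, ?_, ?_⟩
        · simpa using h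
        · simp only [hi, hj, Sym2.eq_swap]
  · rintro ⟨i, j⟩ _
    simp only [fac, Sym2.lift_mk]
    rw [CharTwo.sub_eq_add, add_comm]

theorem pderiv_prod_zero {ι : Type} (s : Finset ι) (v : V) (f : ι → R V)
    (h : ∀ i ∈ s, pderiv v (f i) = 0) : pderiv v (∏ i ∈ s, f i) = 0 := by
  classical
  induction s using Finset.induction_on with
  | empty => simp
  | insert a s ha ih =>
    rw [Finset.prod_insert ha, Derivation.leibniz, h a (mem_insert_self _ _),
      ih (fun i hi => h i (mem_insert_of_mem hi))]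
    simp

theorem pderiv_pow_zero (u v : V) (i : ℕ) (h : u = v → Even i) :
    pderiv v (X u ^ i : R V) = 0 := by
  rw [Derivation.leibniz_pow]
  by_cases huv : u = v
  · obtain ⟨r, hr⟩ := h huv
    have : i • ((X u : R V) ^ (i - 1) • (pderiv v) (X u : R V)) = 0 := by
      rw [← Nat.cast_smul_eq_nsmul (ZMod 2), hr, Nat.cast_add, CharTwo.add_self_eq_zero, zero_smul]
    exact this
  · have h1 : (pderiv v) (X u : R V) = 0 := pderiv_X_of_ne huv
    rw [h1]
    simp

theorem dd_zero [DecidableEq V] (hdd : S_dd) (J : Finset V) (v : V) (hv : v ∈ J) (p : R V)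
    (hp : pderiv v p = 0) : dd J p = 0 := by
  obtain ⟨h1, h2, h3, _⟩ := hdd V
  rw [← Finset.insert_erase hv, h2 _ _ _ (Finset.notMem_erase v J), ← h3, hp, map_zero]

theorem PJ_zero [Fintype V] [DecidableEq V] (hdd : S_dd) (S J : Finset V) (k : ℕ)
    (hS : S.card = 2 * k + 1) (hJ : k < J.card) : PJ (K S) J = 0 := by
  have e : Fin (2 * k + 1) ≃ S := (S.equivFinOfCardEq hS).symm
  unfold PJ
  rw [PP_vand S _ e, Matrix.det_apply, map_sum]
  apply Finset.sum_eq_zero
  intro σ _
  have h0 : dd J (∏ i, (Matrix.vandermonde (fun i => (X (e i : V) : R V))) (σ i) i) = 0 := by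
    by_contra hne
    have hodd : ∀ v ∈ J, ∃ i : Fin (2 * k + 1), (e (σ i) : V) = v ∧ Odd (i : ℕ) := by
      intro v hv
      by_contra hno
      push Not at hno
      apply hne
      apply dd_zero hdd J v hv
      apply pderiv_prod_zero
      intro i _
      rw [Matrix.vandermonde_apply]
      apply pderiv_pow_zero
      intro h
      have := hno i h
      rwa [Nat.not_odd_iff_even] at this
    choose! φ hφ1 hφ2 using hodd
    have : J.card ≤ (Finset.range k).card := by
      apply Finset.card_le_card_of_injOn (fun v => (φ v : ℕ) / 2)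
      · intro v hv
        obtain ⟨r, hr⟩ := hφ2 v hv
        have := (φ v).2
        simp only [coe_range, Set.mem_Iio]
        omega
      · intro v hv w hw h
        simp only at h
        obtain ⟨r, hr⟩ := hφ2 v hv
        obtain ⟨r', hr'⟩ := hφ2 w hw
        have h1 : (φ v : ℕ) = φ w := by omega
        have h2 : φ v = φ w := Fin.ext h1
        rw [← hφ1 v hv, ← hφ1 w hw, h2]
    rw [card_range] at this
    omega
  rcases Int.units_eq_one_or (Equiv.Perm.sign σ) with h | h
  · rw [h, one_smul]; exact h0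
  · rw [h, Units.neg_smul, one_smul, map_neg, h0, neg_zero]

theorem lower [Fintype V] [DecidableEq V] (hK : S_ctrK) (hnu : S_ctrnu) (k : ℕ) :
    ∀ S : Finset V, S.card = 2 * k + 1 → k ≤ nu (K S) := by
  induction k with
  | zero => intro S _; exact Nat.zero_le _
  | succ k ih =>
    intro S hS
    have hodd : Odd S.card := ⟨k + 1, hS⟩
    obtain ⟨w, hw⟩ := Finset.card_pos.1 (by omega : 0 < S.card)
    obtain ⟨w', hw', hne⟩ := Finset.exists_mem_ne (s := S) (by omega) w
    have h1 := (hK V S w w' hodd hw hne.symm).1 hw'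
    have h2 := (hnu V (K S) w w' (K_isEv S hodd) hne.symm).2.2.1
      ((K_ne S w w').2 ⟨hw, hw', hne.symm⟩)
    rw [h1] at h2
    have h3 := ih ((S.erase w).erase w') (by
      rw [card_erase_of_mem (mem_erase.2 ⟨hne, hw'⟩), card_erase_of_mem hw]
      omega)
    omega

end Aux_clique

open Aux_clique in
theorem p_clique : S_dd → S_basis → S_ctrK → S_ctrnu → S_add → S_clique := by
  intro hdd hbasis hK hnu _ V _ _ S hS
  have hev := K_isEv S hS
  refine ⟨hev, supp_K S, ?_, K_zero S⟩
  obtain ⟨k, hk⟩ := hS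
  have h1 := lower hK hnu k S hk
  have h2 : nu (K S) ≤ k := by
    obtain ⟨b1, _, _, b4, _⟩ := hbasis V (K S) hev
    obtain ⟨J, _, _, hJ, hJ0⟩ := b4 univ ∅ (Finset.empty_subset _) (by
      unfold PJ
      rw [(hdd V).1]
      exact PP_ne S)
    rw [b1] at hJ
    by_contra h
    exact hJ0 (PJ_zero hdd S J k hk (by omega))
  omega

end Pool.Agent.W390.SD
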