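import Pool.Agent.W390.SD.Stm1

namespace Pool.Agent.W390.SD

open MvPolynomial Finset

namespace Aux_cnt

theorem even_nbr {V : Type} [Fintype V] (A : Gr V) (w : V) (hA : IsEv A) :
    Even (nbr A w).card := by
  have h := hA.even w
  have h1 : ∑ u, A w u = ∑ u ∈ nbr A w, (1 : ZMod 2) := by
    rw [nbr, Finset.sum_filter]
    refine Finset.sum_congr rfl fun u _ => ?_
    generalize A w u = a
    revert a
    decide
  rw [h1, Finset.sum_const, nsmul_eq_mul, mul_one] at h
  exact (ZMod.natCast_eq_zero_iff_even).1 h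

end Aux_cnt

theorem p_cnt : S_dd → S_interp → S_deg → S_cnt := by
  intro hdd hint hdeg V _ _ A J w hA hw hne Z hZ hz
  by_contra hlt
  have hd := (hdeg V A J w hA).2 hw hne
  have hwZ : w ∉ Z := fun h => by
    have h2 := hZ h
    simp [nbr, hA.diag] at h2
  have hp : pderiv w (PJ A J) = 0 := (hdd V).2.2.2.1 J w (PP A) hw
  obtain ⟨k, hk⟩ := Aux_cnt.even_nbr A w hA
  exact hne (hint V w Z (k - 1) _ hp (by omega) hwZ hz (by omega))

end Pool.Agent.W390.SD
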