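import Pool.Agent.W390.SD.Stm2

/-!
# Project SD: E2 (`S_const`)
-/

namespace Pool.Agent.W390.SD

open MvPolynomial Finset

namespace Aux_const

/-- substitute `none ↦ X w'`, `some v ↦ X v` -/
noncomputable def ev {V : Type} (w' : V) : R (Option V) →ₐ[ZMod 2] R V :=
  rename (fun o : Option V => o.getD w')

theorem ev_io {V : Type} (w' : V) (f : R V) : ev w' (io f) = f := by
  unfold ev io
  rw [rename_rename]
  have : ((fun o : Option V => o.getD w') ∘ some) = id := rfl
  rw [this, rename_id_apply]

theorem ev_ta {V : Type} [DecidableEq V] (u w' : V) (f : R V) :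
    ev w' (ta u f) = sg u w' f := by
  unfold ev ta sg
  rw [rename_rename]
  congr 2
  funext v
  simp only [Function.comp]
  split_ifs with h
  · rfl
  · rfl

theorem dd_single {V : Type} [DecidableEq V] (p : V) (f : R V) :
    dd ({p} : Finset V) f = pderiv p f := by
  unfold dd
  rw [Finset.toList_singleton]
  rfl

end Aux_const

open Aux_const in
theorem p_const : S_ddsg → S_const := by
  intro hdd V _ Q u w' hne hu hI p
  obtain ⟨h1, h2, h3⟩ := hdd V u w' hne.symm
  rw [Derivation.leibniz, smul_eq_mul, smul_eq_mul]
  by_cases hp : p = u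
  · rw [hp, h3 Q, hu, mul_zero, mul_zero, add_zero]
  · have key : pderiv p (sg u w' Q) = sg u w' (pderiv p Q) := by
      by_cases hpw : p = w'
      · rw [hpw, h2 Q, hu, zero_add]
      · have h := h1 {p} Q (by rw [Finset.mem_singleton]; exact fun h => hp h.symm)
          (by rw [Finset.mem_singleton]; exact fun h => hpw h.symm)
        rw [dd_single, dd_single] at h
        exact h.symm
    have h := congrArg (ev w') (hI p)
    rw [map_add, map_mul, map_mul, map_zero, ev_io, ev_io, ev_ta, ev_ta] at h
    rw [key]
    exact h

end Pool.Agent.W390.SD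

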