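import Pool.Agent.W390.SD.Stm3

/-!
# Project SD: second commutation rule (S_ctr2)
-/

set_option autoImplicit false

namespace Pool.Agent.W390.SD

open MvPolynomial Finset

theorem p_ctr2 : S_ctr2 := by
  intro V _ _ A w b b' _ hwb hwb' hbb'
  have h1 := hwb.symm
  have h2 := hwb'.symm
  have h3 := hbb'.symm
  funext u v
  by_cases huw : u = w
  · subst huw; simp [ctr, hwb, hwb']
  by_cases hvw : v = w
  · subst hvw; simp [ctr, hwb, hwb']
  by_cases hub : u = b
  · subst hub; simp [ctr, h1, hbb']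
  by_cases hvb : v = b
  · subst hvb; simp [ctr, h1, hbb']
  by_cases huv : u = v
  · subst huv; simp [ctr]
  by_cases hub' : u = b'
  · subst hub'
    have h4 : v ≠ u := Ne.symm huv
    simp [ctr, h1, h2, h3, huv, hvw, hvb, hwb, hwb', h4, Ne.symm hvw, Ne.symm hvb]
    ring
  by_cases hvb' : v = b'
  · subst hvb'
    simp [ctr, h1, h2, h3, huv, huw, hub, hwb, hwb']
    ring
  simp [ctr, huw, hvw, hub, hvb, huv, hub', hvb']

end Pool.Agent.W390.SD
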