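import Pool.Agent.W390.SD.Stm1

namespace Pool.Agent.W390.SD

open MvPolynomial Finset

namespace Aux_ctrK

theorem two : (1 : ZMod 2) + 1 = 0 := by decide

end Aux_ctrK

theorem p_ctrK : S_ctrK := by
  intro V _ _ S w w' _ hw hww
  refine ⟨fun hw' => ?_, fun hw' => ?_⟩
  · funext u v
    simp only [ctr, K, mem_erase]
    by_cases h1 : u = w
    · subst h1; simp
    by_cases h2 : v = w
    · subst h2; simp
    by_cases h3 : u = v
    · subst h3; simp
    by_cases h4 : u = w'
    · subst h4
      have h5 : ¬ u = v := h3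
      by_cases h6 : v ∈ S
      · simp [h1, h2, h3, h6, hw, hw', Ne.symm h2, Aux_ctrK.two]
      · simp [h1, h2, h3, h6]
    by_cases h5 : v = w'
    · subst h5
      by_cases h6 : u ∈ S
      · simp [h1, h2, h3, h6, hw, hw', Aux_ctrK.two]
      · simp [h1, h2, h3, h6]
    simp [h1, h2, h3, h4, h5]
  · funext u v
    simp only [ctr, K, mem_erase, mem_insert]
    by_cases h1 : u = w
    · subst h1; simp [hww]
    by_cases h2 : v = w
    · subst h2; simp [hww]
    by_cases h3 : u = v
    · subst h3; simp
    by_cases h4 : u = w'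
    · subst h4
      by_cases h6 : v ∈ S
      · simp [h1, h2, h3, h6, hw, hw', Ne.symm h2]
      · simp [h1, h2, h3, h6, Ne.symm h3]
    by_cases h5 : v = w'
    · subst h5
      by_cases h6 : u ∈ S
      · simp [h1, h2, h3, h6, hw, hw']
      · simp [h1, h2, h3, h6]
    simp [h1, h2, h3, h4, h5]

end Pool.Agent.W390.SD
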