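import Pool.Agent.W390.SD.Stm1

namespace Pool.Agent.W390.SD

namespace Aux_ctrcomm

/-- Pointwise values of a contraction. -/
theorem ctr_zero {V : Type} [DecidableEq V] (w w' : V) (A : Gr V) (a b : V)
    (h : a = w ∨ b = w ∨ a = b) : ctr w w' A a b = 0 := by
  simp only [ctr, if_pos h]

theorem ctr_left {V : Type} [DecidableEq V] (w w' : V) (A : Gr V) (b : V)
    (hw : w' ≠ w) (hb : b ≠ w) (h : w' ≠ b) : ctr w w' A w' b = A w' b + A w b := by
  have h0 : ¬ (w' = w ∨ b = w ∨ w' = b) := by tauto
  simp only [ctr, if_neg h0, if_true]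

theorem ctr_right {V : Type} [DecidableEq V] (w w' : V) (A : Gr V) (a : V)
    (hw : w' ≠ w) (ha : a ≠ w) (h : a ≠ w') : ctr w w' A a w' = A a w' + A a w := by
  have h0 : ¬ (a = w ∨ w' = w ∨ a = w') := by tauto
  simp only [ctr, if_neg h0, if_neg h, if_true]

theorem ctr_other {V : Type} [DecidableEq V] (w w' : V) (A : Gr V) (a b : V)
    (ha : a ≠ w) (hb : b ≠ w) (hab : a ≠ b) (ha' : a ≠ w') (hb' : b ≠ w') :
    ctr w w' A a b = A a b := by
  have h0 : ¬ (a = w ∨ b = w ∨ a = b) := by tauto
  simp only [ctr, if_neg h0, if_neg ha', if_neg hb']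

end Aux_ctrcomm

open Aux_ctrcomm in
theorem p_ctrcomm : S_ctrcomm := by
  intro V _ _ A w w' u u' _ h1 h2 h3 h4 h5
  have h1' := h1.symm
  have h2' := h2.symm
  have h3' := h3.symm
  have h4' := h4.symm
  have h5' := h5.symm
  funext a b
  by_cases hab : a = b
  · rw [ctr_zero _ _ _ _ _ (Or.inr (Or.inr hab)), ctr_zero _ _ _ _ _ (Or.inr (Or.inr hab))]
  by_cases haw : a = w
  · subst haw
    simp [ctr, *]
  by_cases hbw : b = w
  · subst hbw
    simp [ctr, *]
  by_cases hau : a = u
  · subst hau
    simp [ctr, *]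
  by_cases hbu : b = u
  · subst hbu
    simp [ctr, *]
  have hba : ¬ b = a := fun h => hab h.symm
  have hwb : ¬ w = b := fun h => hbw h.symm
  have hub : ¬ u = b := fun h => hbu h.symm
  have hwa : ¬ w = a := fun h => haw h.symm
  have hua : ¬ u = a := fun h => hau h.symm
  by_cases haw' : a = w'
  · subst haw'
    by_cases hau' : a = u'
    · subst hau'
      simp [ctr, *]
      try abel
    · by_cases hbu' : b = u'
      · subst hbu'
        simp [ctr, *]
        try abel
      · simp [ctr, *]
  · by_cases hbw' : b = w'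
    · subst hbw'
      by_cases hau' : a = u'
      · subst hau'
        simp [ctr, *]
        try abel
      · by_cases hbu' : b = u'
        · subst hbu'
          simp [ctr, *]
          try abel
        · simp [ctr, *]
    · by_cases hau' : a = u'
      · subst hau'
        simp [ctr, *]
      · by_cases hbu' : b = u'
        · subst hbu'
          simp [ctr, *]
        · simp [ctr, *]

end Pool.Agent.W390.SD
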