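import Pool.Agent.W390.SD.Stm1

namespace Pool.Agent.W390.SD

open MvPolynomial Finset

theorem p_ctrt : S_add → S_tcons → S_ctr → S_ctrnu → S_ctrt := by
  intro hadd _ hctr hnu V _ _ G H w w' hG hT hgood
  obtain ⟨hH, hT2⟩ := hT
  obtain ⟨hne, hg⟩ := hgood
  have hww : w ≠ w' := by
    rintro rfl
    exact hne (hG.diag w)
  have hH' : IsEv (G + H) := (hadd V G H).2.1 hG hH
  have hHH : H + H = 0 := (hadd V H H).2.2.1
  have hsum : H + (G + H) = G := by
    rw [add_comm G H, ← add_assoc, hHH, zero_add]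
  have c1 := hctr V H (G + H) w w' hww hH hH'
  have c2 := hctr V G H w w' hww hG hH
  have e1 : ctr w w' G = ctr w w' H + ctr w w' (G + H) := by
    rw [← c1.2.1, hsum]
  have e2 : ctr w w' G + ctr w w' H = ctr w w' (G + H) := c2.2.1.symm
  have hsub : nu (ctr w w' G) ≤ nu (ctr w w' H) + nu (ctr w w' (G + H)) := by
    rw [e1]; exact (hadd V _ _).2.2.2.2
  have hval : G w w' + H w w' = (G + H) w w' := rfl
  have n1 := hnu V H w w' hH hww
  have n2 := hnu V (G + H) w w' hH' hww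
  have z : ∀ a b : ZMod 2, a ≠ 0 → b = 0 → a + b ≠ 0 := by decide
  by_cases h0 : H w w' = 0
  · have h1 : (G + H) w w' ≠ 0 := by
      rw [← hval]
      exact z _ _ hne h0
    have m1 := n1.1
    have m2 := n2.2.2.1 h1
    refine ⟨⟨c1.1, ?_⟩, fun h => absurd h0 h, fun _ => ?_⟩
    · rw [e2]; omega
    · omega
  · have m1 := n1.2.2.1 h0
    have m2 := n2.1
    refine ⟨⟨c1.1, ?_⟩, fun _ => ⟨h0, ?_⟩, fun h => absurd h h0⟩
    · rw [e2]; omega
    · omega

end Pool.Agent.W390.SD
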