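import Pool.Agent.W390.SD.Stm3

set_option autoImplicit false

namespace Pool.Agent.W390.SD

open MvPolynomial Finset

namespace Aux_dbl

theorem ctr_apply_ne {V : Type} [DecidableEq V] (w w' : V) (A : Gr V) {u v : V} (h1 : u ≠ w)
    (h2 : v ≠ w) (h3 : u ≠ v) (h4 : u ≠ w') (h5 : v ≠ w') : ctr w w' A u v = A u v := by
  simp [ctr, h1, h2, h3, h4, h5]

end Aux_dbl

open Aux_dbl in
theorem p_dbl : S_ctr → S_ctrcomm → S_ctrnu → S_lift → S_dbl := by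
  intro hctr hcomm hnu hlift V _ _ G b b' w₁ w₂ u₁ u₂ J hG hgood hw12 hw1b hw1b' hw2b hw2b'
    hJ1 hJ2 hPJ hJc hY1 hs1 hu1w2 hY2 hu2w1 hu21 hs2
  have hbb : b ≠ b' := by
    rintro rfl
    exact hgood.1 (hG.diag b)
  have hYev : IsEv (ctr b b' G) := (hctr V G G b b' hbb hG hG).1
  obtain ⟨hu1b, hu1w1, hv1w1, hv1, hGv1, hH1b, hid1, hg1, -, -⟩ :=
    hlift V G b b' w₁ u₁ hG hgood.1 hw1b hw1b' hY1
  obtain ⟨hu2b, hu2w2, hv2w2, hv2, hGv2, hH2b, hid2, hg2, -, -⟩ :=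
    hlift V G b b' w₂ u₂ hG hgood.1 hw2b hw2b' hY2
  -- the first contraction
  obtain ⟨-, -, -, hPJa, hga, -⟩ := hnu V (ctr b b' G) w₁ u₁ hYev hu1w1.symm
  have hP1 := hPJa J hJ1 hY1 hs1
  have hgY1 := hga J hJ1 hY1 hJc hs1
  have hc1 : (J.erase w₁).card = nu (ctr w₁ u₁ (ctr b b' G)) := by
    rw [Finset.card_erase_of_mem hJ1, hJc]
    have := hgY1.2
    omega
  have hY1ev : IsEv (ctr w₁ u₁ (ctr b b' G)) :=
    (hctr V _ _ w₁ u₁ hu1w1.symm hYev hYev).1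
  have hY2ev : IsEv (ctr w₂ u₂ (ctr b b' G)) :=
    (hctr V _ _ w₂ u₂ hu2w2.symm hYev hYev).1
  have hJ2' : w₂ ∈ J.erase w₁ := Finset.mem_erase.2 ⟨hw12.symm, hJ2⟩
  have he1 : ctr w₁ u₁ (ctr b b' G) w₂ u₂ = ctr b b' G w₂ u₂ :=
    ctr_apply_ne w₁ u₁ _ hw12.symm hu2w1 hu2w2.symm hu1w2.symm hu21
  have he2 : ctr w₂ u₂ (ctr b b' G) w₁ u₁ = ctr b b' G w₁ u₁ :=
    ctr_apply_ne w₂ u₂ _ hw12 hu1w2 hu1w1.symm hu2w1.symm hu21.symm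
  obtain ⟨-, -, -, hPJb, hgb, -⟩ := hnu V (ctr w₁ u₁ (ctr b b' G)) w₂ u₂ hY1ev hu2w2.symm
  have hY12 : ctr w₁ u₁ (ctr b b' G) w₂ u₂ ≠ 0 := by rw [he1]; exact hY2
  have hP2 := hPJb (J.erase w₁) hJ2' hY12 hs2
  have hgY12 := hgb (J.erase w₁) hJ2' hY12 hc1 hs2
  have hc2 : ((J.erase w₁).erase w₂).card = nu (ctr w₂ u₂ (ctr w₁ u₁ (ctr b b' G))) := by
    rw [Finset.card_erase_of_mem hJ2', hc1]
    have := hgY12.2
    omega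
  have hcY : ctr w₁ u₁ (ctr w₂ u₂ (ctr b b' G)) = ctr w₂ u₂ (ctr w₁ u₁ (ctr b b' G)) :=
    hcomm V (ctr b b' G) w₁ u₁ w₂ u₂ hYev hu1w1.symm hu2w2.symm hw12 hu2w1.symm hu1w2
  have hY21 : ctr w₂ u₂ (ctr b b' G) w₁ u₁ ≠ 0 := by rw [he2]; exact hY1
  have hn2 := (hnu V (ctr b b' G) w₂ u₂ hYev hu2w2.symm).2.2.1 hY2
  have hn21 := (hnu V (ctr w₂ u₂ (ctr b b' G)) w₁ u₁ hY2ev hu1w1.symm).2.2.1 hY21
  have e1 := hgY1.2
  have e2 := hgY12.2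
  have hgY2 : good (ctr b b' G) w₂ u₂ := by
    refine ⟨hY2, ?_⟩
    rw [hcY] at hn21
    omega
  have hgY21 : good (ctr w₂ u₂ (ctr b b' G)) w₁ u₁ := by
    refine ⟨hY21, ?_⟩
    have e3 := hgY2.2
    rw [hcY]
    omega
  obtain ⟨hGg1, hHg1⟩ := hg1 hgood hgY1
  obtain ⟨hGg2, hHg2⟩ := hg2 hgood hgY2
  -- the vertices `v₁`, `v₂`
  have hv1w2 : hat G b b' w₁ u₁ ≠ w₂ := by
    rcases hv1 with h | ⟨h, -⟩
    · rw [h]; exact hu1w2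
    · rw [h]; exact hw2b.symm
  have hv2w1 : hat G b b' w₂ u₂ ≠ w₁ := by
    rcases hv2 with h | ⟨h, -⟩
    · rw [h]; exact hu2w1
    · rw [h]; exact hw1b.symm
  have hH1ev : IsEv (ctr w₁ (hat G b b' w₁ u₁) G) := (hctr V G G w₁ _ hv1w1.symm hG hG).1
  have hH2ev : IsEv (ctr w₂ (hat G b b' w₂ u₂) G) := (hctr V G G w₂ _ hv2w2.symm hG hG).1
  have hat1 : hat (ctr w₁ (hat G b b' w₁ u₁) G) b b' w₂ u₂ = hat G b b' w₂ u₂ := by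
    by_cases hu : u₂ = b'
    · have hv : hat G b b' w₁ u₁ = u₁ := by
        rcases hv1 with h | ⟨-, h⟩
        · exact h
        · exact absurd (hu.trans h.symm) hu21
      have hval : ctr w₁ (hat G b b' w₁ u₁) G w₂ b' = G w₂ b' := by
        rw [hv]
        exact ctr_apply_ne w₁ u₁ G hw12.symm hw1b'.symm hw2b' hu1w2.symm
          (fun h => hu21 (hu.trans h))
      simp only [hat, hval] at *
    · simp only [hat, hu, false_and, if_false]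
  have hat2 : hat (ctr w₂ (hat G b b' w₂ u₂) G) b b' w₁ u₁ = hat G b b' w₁ u₁ := by
    by_cases hu : u₁ = b'
    · have hv : hat G b b' w₂ u₂ = u₂ := by
        rcases hv2 with h | ⟨-, h⟩
        · exact h
        · exact absurd (h.trans hu.symm) hu21
      have hval : ctr w₂ (hat G b b' w₂ u₂) G w₁ b' = G w₁ b' := by
        rw [hv]
        exact ctr_apply_ne w₂ u₂ G hw12 hw2b'.symm hw1b' hu2w1.symm
          (fun h => hu21 (h.symm.trans hu.symm))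
      simp only [hat, hval] at *
    · simp only [hat, hu, false_and, if_false]
  have hYH1 : ctr b b' (ctr w₁ (hat G b b' w₁ u₁) G) w₂ u₂ ≠ 0 := by rw [hid1]; exact hY12
  have hYH2 : ctr b b' (ctr w₂ (hat G b b' w₂ u₂) G) w₁ u₁ ≠ 0 := by rw [hid2]; exact hY21
  obtain ⟨-, -, -, -, hH1v2, -, hid12, hg12, -, -⟩ :=
    hlift V (ctr w₁ (hat G b b' w₁ u₁) G) b b' w₂ u₂ hH1ev hH1b hw2b hw2b' hYH1
  obtain ⟨-, -, -, -, hH2v1, -, hid21, hg21, -, -⟩ :=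
    hlift V (ctr w₂ (hat G b b' w₂ u₂) G) b b' w₁ u₁ hH2ev hH2b hw1b hw1b' hYH2
  rw [hat1, hid1] at hid12 hg12
  rw [hat2, hid2] at hid21 hg21
  obtain ⟨hgH12, hgH12b⟩ := hg12 hHg1 hgY12
  obtain ⟨hgH21, -⟩ := hg21 hHg2 hgY21
  refine ⟨⟨hgY1, hGg1, hHg1⟩, ⟨hgY2, hGg2, hHg2⟩, hgY21, hcY, hP2, hc2, hgH12, hgH21, ?_,
    hgH12b, hid12⟩
  exact hcomm V G w₁ _ w₂ _ hG hv1w1.symm hv2w2.symm hw12 hv2w1.symm hv1w2

end Pool.Agent.W390.SD
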