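import Pool.Agent.W390.SD.Stm1

/-!
# Project SD: every even graph is a tight sum of indecomposables
-/

set_option autoImplicit false

namespace Pool.Agent.W390.SD

open MvPolynomial Finset

namespace Aux_decomp

theorem tight_self (hadd : S_add) (hz : S_zero) (V : Type) [Fintype V] [DecidableEq V]
    (G : Gr V) (hG : IsEv G) : Tight G G := by
  refine ⟨hG, ?_⟩
  have h1 : G + G = 0 := (hadd V G G).2.2.1
  have h2 : IsEv (0 : Gr V) := h1 ▸ (hadd V G G).2.1 hG hG
  rw [h1, (hz V 0 h2).1.2 rfl]
  rfl

theorem aux (hadd : S_add) (htc : S_tcons) (hz : S_zero) (V : Type) [Fintype V]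
    [DecidableEq V] : ∀ (n : ℕ) (G : Gr V), IsEv G → nu G ≤ n →
    ∃ L : List (Gr V), (∀ H ∈ L, Indec H ∧ Tight H G) ∧ L.sum = G ∧ (L.map nu).sum = nu G := by
  intro n
  induction n with
  | zero =>
    intro G hG hn
    have h0 : nu G = 0 := Nat.le_zero.1 hn
    have hG0 : G = 0 := (hz V G hG).1.1 h0
    refine ⟨[], fun H hH => absurd hH (List.not_mem_nil), ?_, ?_⟩
    · rw [hG0]
      rfl
    · rw [h0]
      rfl
  | succ n ih =>
    intro G hG hn
    by_cases hG0 : G = 0
    · have h0 : nu G = 0 := (hz V G hG).1.2 hG0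
      exact ih G hG (h0 ▸ Nat.zero_le _)
    · by_cases hI : Indec G
      · refine ⟨[G], fun H hH => ?_, ?_, ?_⟩
        · rw [List.mem_singleton] at hH
          rw [hH]
          exact ⟨hI, tight_self hadd hz V G hG⟩
        · simp
        · simp
      · have h1 : ∃ H, Tight H G ∧ H ≠ 0 ∧ H ≠ G := by
          by_contra hcon
          push Not at hcon
          refine hI ⟨hG, hG0, fun H hH => ?_⟩
          by_cases h2 : H = 0
          · exact Or.inl h2
          · exact Or.inr (hcon H hH h2)
        obtain ⟨H, hH, hH0, hHG⟩ := h1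
        have hHe : IsEv H := hH.1
        have hGHe : IsEv (G + H) := (hadd V G H).2.1 hG hHe
        have hnu := hH.2
        have hHH : H + H = 0 := (hadd V H H).2.2.1
        have hGH0 : G + H ≠ 0 := by
          intro h3
          apply hHG
          calc H = 0 + H := (zero_add H).symm
            _ = G + H + H := by rw [h3]
            _ = G + (H + H) := add_assoc _ _ _
            _ = G := by rw [hHH, add_zero]
        have p1 : nu H ≠ 0 := fun h3 => hH0 ((hz V H hHe).1.1 h3)
        have p2 : nu (G + H) ≠ 0 := fun h3 => hGH0 ((hz V (G + H) hGHe).1.1 h3)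
        obtain ⟨L1, a1, b1, c1⟩ := ih H hHe (by omega)
        obtain ⟨L2, a2, b2, c2⟩ := ih (G + H) hGHe (by omega)
        have t := htc V G H hG hH
        have t2 := htc V G (G + H) hG t.2.2.2.2.1
        refine ⟨L1 ++ L2, fun T hT => ?_, ?_, ?_⟩
        · rcases List.mem_append.1 hT with h4 | h4
          · exact ⟨(a1 T h4).1, t.2.2.2.2.2 T (a1 T h4).2⟩
          · exact ⟨(a2 T h4).1, t2.2.2.2.2.2 T (a2 T h4).2⟩
        · rw [List.sum_append, b1, b2, add_comm G H, ← add_assoc, hHH, zero_add]
        · rw [List.map_append, List.sum_append, c1, c2, hnu]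

end Aux_decomp

theorem p_decomp : S_add → S_tcons → S_zero → S_decomp := by
  intro hadd htc hz V _ _ G hG
  exact Aux_decomp.aux hadd htc hz V (nu G) G hG le_rfl

end Pool.Agent.W390.SD
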