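import Pool.Agent.W390.SD.Stm2

/-!
# Project SD, part E8: degrees in uniform graphs (helper571)
-/

set_option autoImplicit false

namespace Pool.Agent.W390.SD.Aux_degbd

open MvPolynomial Finset Pool.Agent.W390.SD

theorem even_nbr {V : Type} [Fintype V] [DecidableEq V] {A : Gr V} (hA : IsEv A) (w : V) :
    Even (nbr A w).card := by
  have h1 : ∑ u, A w u = (((nbr A w).card : ℕ) : ZMod 2) := by
    unfold nbr
    rw [Finset.card_filter]
    push_cast
    refine sum_congr rfl fun u _ => ?_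
    have key : ∀ x : ZMod 2, x = if x ≠ 0 then 1 else 0 := by decide
    exact key _
  rw [hA.even w] at h1
  exact (ZMod.natCast_eq_zero_iff_even).1 h1.symm

theorem nbr_sub {V : Type} [Fintype V] [DecidableEq V] {A : Gr V} (hA : IsEv A) (w : V) :
    nbr A w ⊆ (supp A).erase w := by
  intro v hv
  have h1 : A w v ≠ 0 := (mem_filter.1 hv).2
  rw [mem_erase]
  refine ⟨?_, ?_⟩
  · rintro rfl; exact h1 (hA.diag _)
  · unfold supp
    rw [mem_filter]
    refine ⟨mem_univ _, w, ?_⟩
    unfold nbr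
    rw [mem_filter, hA.symm]
    exact ⟨mem_univ _, h1⟩

theorem sg_add {V : Type} [DecidableEq V] (w w' : V) : sg w w' (X w + X w') = 0 := by
  unfold sg
  rw [map_add, rename_X, rename_X, if_pos rfl]
  have : (if w' = w then w' else w') = w' := by split_ifs <;> rfl
  rw [this]
  exact CharTwo.add_self_eq_zero _

end Pool.Agent.W390.SD.Aux_degbd

namespace Pool.Agent.W390.SD

open MvPolynomial Finset Aux_degbd

theorem p_degbd : S_dd → S_ctr_out → S_interp → S_deg → S_unifrk → S_basis → S_rk → S_zero →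
    S_degbd := by
  intro _ hout hint hdeg _ hbas _ _ V _ _ G w r hU hw hr
  obtain ⟨hG, hPJ⟩ := hU
  by_contra hcon
  push Not at hcon
  have hr1 : 1 ≤ r := by omega
  obtain ⟨m, hm⟩ := even_nbr hG w
  have hcard : ((supp G).erase w).card + 1 = nu G + r := by
    rw [card_erase_of_mem hw, hr]
    have : 0 < (supp G).card := card_pos.2 ⟨w, hw⟩
    omega
  have hDpos : 0 < (nbr G w).card := by
    have := (mem_filter.1 hw).2
    exact card_pos.2 this
  -- the sets
  obtain ⟨A, hA1, hA2⟩ := exists_subset_card_eq (min_le_right (r - 1) (nbr G w).card)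
  obtain ⟨B, hAB, hB1, hB2⟩ := exists_subsuperset_card_eq (hA1.trans (nbr_sub hG w))
    (by rw [hA2]; exact min_le_left _ _) (by omega : r - 1 ≤ ((supp G).erase w).card)
  obtain ⟨J, hJ⟩ : ∃ J, J = (supp G).erase w \ B := ⟨_, rfl⟩
  have hJc : J.card = nu G := by
    rw [hJ, card_sdiff_of_subset hB1, hB2]; omega
  have hwJ : w ∉ J := by
    rw [hJ]; intro h; exact (mem_erase.1 (mem_sdiff.1 h).1).1 rfl
  have hJs : J ⊆ supp G := by
    rw [hJ]; exact (sdiff_subset).trans (erase_subset _ _)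
  have hne : PJ G J ≠ 0 := hPJ J hJs hJc.le
  obtain ⟨hb1, -, -, -, -, hb6, -, -⟩ := hbas V G hG
  have hder : pderiv w (PJ G J) = 0 :=
    hb6 univ J (subset_univ _) (by rw [hb1]; exact hJc) w (mem_univ _)
  refine hne (hint V w A m (PJ G J) hder ?_ ?_ ?_ ?_)
  · have := (hdeg V G J w hG).1
    omega
  · intro h
    have h1 : G w w ≠ 0 := (mem_filter.1 (hA1 h)).2
    exact h1 (hG.diag w)
  · intro v hv
    have hvn := hA1 hv
    have h1 : G w v ≠ 0 := (mem_filter.1 hvn).2
    have hwv : w ≠ v := by rintro rfl; exact h1 (hG.diag _)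
    have hvJ : v ∉ J := by
      rw [hJ]; intro h; exact (mem_sdiff.1 h).2 (hAB hv)
    obtain ⟨Q, hQ, -⟩ := (hout V G J w v hG hwv hwJ hvJ).2 h1
    rw [hQ, map_mul, sg_add, zero_mul]
  · rw [hA2]
    rcases le_total (r - 1) (nbr G w).card with h | h
    · rw [min_eq_left h]; omega
    · rw [min_eq_right h]; omega

end Pool.Agent.W390.SD
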