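import Pool.Agent.W390.SD.Stm1

/-! Project SD, part dorth (proved by helper436). -/

namespace Pool.Agent.W390.SD

namespace Aux_dorth

theorem part {α β : Type*} [AddCommMonoid β] (f : α → β) (p : α → Bool) (L : List α) :
    ((L.filter p).map f).sum + ((L.filter (fun a => !p a)).map f).sum = (L.map f).sum := by
  induction L with
  | nil => simp
  | cons a L ih =>
    by_cases h : p a = true
    · rw [List.filter_cons_of_pos h, List.filter_cons_of_neg (by simp [h]), List.map_cons,
        List.map_cons, List.sum_cons, List.sum_cons, ← ih, add_assoc]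
    · rw [List.filter_cons_of_neg h, List.filter_cons_of_pos (by simpa using h), List.map_cons,
        List.map_cons, List.sum_cons, List.sum_cons, ← ih]
      exact add_left_comm _ _ _

theorem ev_zero {V : Type} [Fintype V] : IsEv (0 : Gr V) :=
  ⟨fun _ _ => rfl, fun _ => rfl, fun _ => by simp⟩

theorem ev_sum (hA : S_add) {V : Type} [Fintype V] [DecidableEq V] (L : List (Gr V))
    (h : ∀ H ∈ L, IsEv H) : IsEv L.sum := by
  induction L with
  | nil => simpa using ev_zero
  | cons a L ih =>
    rw [List.sum_cons]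
    exact (hA V a L.sum).2.1 (h a (by simp)) (ih fun H hH => h H (by simp [hH]))

theorem nu_zero (hZ : S_zero) {V : Type} [Fintype V] [DecidableEq V] : nu (0 : Gr V) = 0 :=
  (hZ V 0 ev_zero).1.2 rfl

theorem nu_sum (hA : S_add) (hZ : S_zero) {V : Type} [Fintype V] [DecidableEq V]
    (L : List (Gr V)) : nu L.sum ≤ (L.map nu).sum := by
  induction L with
  | nil => simp [nu_zero hZ]
  | cons a L ih =>
    rw [List.sum_cons, List.map_cons, List.sum_cons]
    exact (hA V a L.sum).2.2.2.2.trans (by omega)

theorem dbl (hA : S_add) {V : Type} [Fintype V] [DecidableEq V] (A : Gr V) : A + A = 0 :=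
  (hA V A A).2.2.1

theorem step (hA : S_add) (hZ : S_zero) (hO : S_ocons) {V : Type} [Fintype V] [DecidableEq V]
    (G T : Gr V) (hG : IsEv G) (hT : Tight T G) : ∀ (M N : List (Gr V)),
    M.sum + N.sum = G → (M.map nu).sum + (N.map nu).sum = nu G →
    (∀ H ∈ M, Tight H G ∧ Orth H T G) → Tight M.sum G ∧ Orth M.sum T G := by
  intro M
  induction M with
  | nil =>
    intro N _ _ _
    refine ⟨⟨ev_zero, ?_⟩, ?_⟩
    · rw [List.sum_nil, nu_zero hZ, add_zero, zero_add]
    · show nu G = nu (0 : Gr V) + nu T + nu (G + 0 + T)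
      rw [nu_zero hZ, add_zero, zero_add]
      exact hT.2
  | cons H M ih =>
    intro N hs hn hM
    rw [List.sum_cons] at hs
    rw [List.map_cons, List.sum_cons] at hn
    obtain ⟨h1, h2⟩ := ih (H :: N)
      (by rw [List.sum_cons, ← hs]; abel)
      (by rw [List.map_cons, List.sum_cons, ← hn]; omega)
      (fun K hK => hM K (by simp [hK]))
    obtain ⟨h3, h4⟩ := hM H (by simp)
    have e : G + H + M.sum = N.sum := by
      have e1 : G + H + M.sum = N.sum + (H + H) + (M.sum + M.sum) := by
        rw [← hs]; abel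
      rw [e1, dbl hA, dbl hA, add_zero, add_zero]
    have h5 : Orth H M.sum G := by
      show nu G = nu H + nu M.sum + nu (G + H + M.sum)
      rw [e]
      have b1 := nu_sum hA hZ M
      have b2 := nu_sum hA hZ N
      have b3 := (hA V (H + M.sum) N.sum).2.2.2.2
      have b4 := (hA V H M.sum).2.2.2.2
      rw [hs] at b3
      omega
    obtain ⟨_, h6, _, _, h7⟩ := hO V G H M.sum hG h3 h1 h5
    rw [List.sum_cons]
    exact ⟨h6, h7 T hT h4 h2⟩

end Aux_dorth

open Aux_dorth in
theorem p_dorth : S_add → S_tiff → S_tcons → S_oiff → S_ocons → S_zero → S_dorth := by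
  intro hA _ _ _ hO hZ V _ _ G T L hG hL hsum hnu hT p hp
  have q1 : (L.filter (fun a => !p a)).sum + (L.filter p).sum = G := by
    have := part (fun a : Gr V => a) p L
    simp only [List.map_id'] at this
    rw [add_comm, this, hsum]
  have q2 : ((L.filter (fun a => !p a)).map nu).sum + ((L.filter p).map nu).sum = nu G := by
    rw [add_comm, part nu p L, hnu]
  obtain ⟨h1, h2⟩ := step hA hZ hO G T hG hT (L.filter (fun a => !p a)) (L.filter p) q1 q2 (by
    intro H hH
    rw [List.mem_filter] at hH
    have hTH := hp H hH.1 (by simpa using hH.2)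
    exact ⟨hL H hH.1, (hO V G T H hG hT (hL H hH.1) hTH).1⟩)
  set S := (L.filter p).sum
  set S' := (L.filter (fun a => !p a)).sum
  have e1 : G + S' = S := by
    have : G + S' = S + (S' + S') := by rw [← q1]; abel
    rw [this, dbl hA, add_zero]
  have e2 : G + S = S' := by
    have : G + S = S' + (S + S) := by rw [← q1]; abel
    rw [this, dbl hA, add_zero]
  have hev : IsEv S := ev_sum hA _ fun H hH => (hL H (List.mem_filter.1 hH).1).1
  have t1 := h1.2
  rw [e1] at t1
  have t2 : nu G = nu S' + nu T + nu (G + S' + T) := h2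
  rw [e1] at t2
  refine ⟨⟨hT.1, by omega⟩, ⟨hev, by rw [e2]; omega⟩⟩

end Pool.Agent.W390.SD
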