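import Pool.Agent.W390.SD.Stm1

/-!
# SD-interp: interpolation
-/

set_option autoImplicit false

namespace Pool.Agent.W390.SD

open MvPolynomial Finset

namespace Aux_interp

variable {V : Type} [DecidableEq V]

omit [DecidableEq V] in
theorem two_zero : (2 : R V) = 0 := by
  have h := CharP.cast_eq_zero (R V) 2
  exact_mod_cast h

omit [DecidableEq V] in
theorem pderiv_xx (w v : V) : pderiv w (xx v : R V) = 0 := by
  unfold xx
  rw [pderiv_pow]
  push_cast
  rw [two_zero]
  ring

theorem deg_xx_self (w : V) : degreeOf w (xx w : R V) = 2 := by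
  unfold xx
  rw [degreeOf_pow_eq w (X w : R V) 2 (X_ne_zero w), degreeOf_X, if_pos rfl]

omit [DecidableEq V] in
theorem deg_xx_ne (w v : V) (h : w ≠ v) : degreeOf w (xx v : R V) = 0 := by
  unfold xx
  exact degreeOf_X_pow_of_ne 2 h

theorem deg_sum (w v : V) (h : w ≠ v) : degreeOf w (xx w + xx v : R V) = 2 := by
  rw [degreeOf_add_eq_of_degreeOf_lt (by rw [deg_xx_self, deg_xx_ne w v h]; norm_num),
    deg_xx_self]

theorem sum_ne (u v : V) (h : u ≠ v) : (xx u + xx v : R V) ≠ 0 := by
  intro h0
  have h1 := deg_sum u v h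
  rw [h0, degreeOf_zero] at h1
  norm_num at h1

end Aux_interp

open Aux_interp in
theorem p_interp : S_dvd → S_interp := by
  intro hdvd V _ w Z
  induction Z using Finset.induction_on with
  | empty =>
    intro a f _ _ _ _ h
    simp at h
  | insert w' Z hw' ih =>
    intro a f hd hdeg hwZ hz ha
    rw [mem_insert, not_or] at hwZ
    obtain ⟨hww', hwZ⟩ := hwZ
    rw [card_insert_of_notMem hw'] at ha
    obtain ⟨f1, rfl⟩ := hdvd V w w' f hww' hd (hz w' (mem_insert_self _ _))
    by_cases h0 : f1 = 0
    · rw [h0, mul_zero]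
    · have hs := sum_ne w w' hww'
      have hdeg1 := hdeg
      rw [degreeOf_mul_eq hs h0, deg_sum w w' hww'] at hdeg1
      have hd1 : pderiv w f1 = 0 := by
        rw [Derivation.leibniz, map_add, pderiv_xx, pderiv_xx, add_zero, smul_zero, add_zero,
          smul_eq_mul] at hd
        exact (mul_eq_zero.1 hd).resolve_left hs
      exfalso
      apply h0
      refine ih (a - 1) f1 hd1 (by omega) hwZ (fun w'' hw'' => ?_) (by omega)
      have h1 := hz w'' (mem_insert_of_mem hw'')
      rw [map_mul] at h1
      refine (mul_eq_zero.1 h1).resolve_left ?_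
      have hne : w'' ≠ w' := fun h => hw' (h ▸ hw'')
      have h2 : sg w w'' (xx w + xx w') = xx w'' + xx w' := by
        unfold sg xx
        rw [map_add, map_pow, map_pow, rename_X, rename_X, if_pos rfl, if_neg (Ne.symm hww')]
      rw [h2]
      exact sum_ne w'' w' hne

end Pool.Agent.W390.SD
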