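import Pool.Agent.W390.SD.Stm3
import Pool.Agent.W390.SD.P.interp

/-!
# SD-dsp: double specialisation
-/

set_option autoImplicit false

namespace Pool.Agent.W390.SD

open MvPolynomial Finset

namespace Aux_dsp

variable {V : Type} [DecidableEq V]

theorem sg_xx (w u v : V) : sg w u (xx v) = xx (if v = w then u else v) := by
  unfold sg xx
  rw [map_pow, rename_X]

theorem sg_sum (w u x : V) (h : x ≠ w) : sg w u (xx w + xx x) = xx u + xx x := by
  rw [map_add, sg_xx, sg_xx, if_pos rfl, if_neg h]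

/-- All the factors `x_w + x_x` can be split off. -/
theorem split (hdvd : S_dvd) (w : V) (Γ : Finset V) : ∀ c : R V, (∀ v, pderiv v c = 0) → w ∉ Γ →
    (∀ x ∈ Γ, sg w x c = 0) →
    ∃ c₁ : R V, c = c₁ * ∏ x ∈ Γ, (xx w + xx x) := by
  induction Γ using Finset.induction_on with
  | empty =>
    intro c _ _ _
    exact ⟨c, by simp⟩
  | insert x Γ hx ih =>
    intro c hd hw hz
    rw [mem_insert, not_or] at hw
    obtain ⟨hwx, hwΓ⟩ := hw
    obtain ⟨c', rfl⟩ := hdvd V w x c hwx (hd w) (hz x (mem_insert_self _ _))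
    have hs := Aux_interp.sum_ne w x hwx
    have hd1 : ∀ v, pderiv v c' = 0 := by
      intro v
      have h := hd v
      rw [Derivation.leibniz, map_add, Aux_interp.pderiv_xx, Aux_interp.pderiv_xx, add_zero,
        smul_zero, add_zero, smul_eq_mul] at h
      exact (mul_eq_zero.1 h).resolve_left hs
    obtain ⟨c₁, hc₁⟩ := ih c' hd1 hwΓ (fun y hy => by
      have h1 := hz y (mem_insert_of_mem hy)
      rw [map_mul, sg_sum w y x (Ne.symm hwx)] at h1
      refine (mul_eq_zero.1 h1).resolve_left ?_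
      exact Aux_interp.sum_ne y x (fun h => hx (h ▸ hy)))
    refine ⟨c₁, ?_⟩
    rw [prod_insert hx]
    conv_lhs => rw [hc₁]
    ring

/-- A polynomial free of `t_w` is fixed by `sg w u`. -/
theorem sg_free (w u : V) (c : R V) (h : degreeOf w c = 0) : sg w u c = c := by
  have hv : w ∉ c.vars := by
    intro hw
    rw [mem_vars_iff_mem_support] at hw
    obtain ⟨d, hd, hd2⟩ := hw
    have h1 := monomial_le_degreeOf w hd
    rw [h] at h1
    exact (Finsupp.mem_support_iff.1 hd2) (Nat.le_zero.1 h1)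
  have h2 := hom_congr_vars (f₁ := (sg w u : R V →ₐ[ZMod 2] R V).toRingHom)
    (f₂ := RingHom.id (R V)) (p₁ := c) (p₂ := c) ?_ ?_ rfl
  · exact h2
  · ext a
    simp
  · intro i hi _
    have : i ≠ w := fun h => hv (h ▸ hi)
    change sg w u (X i) = X i
    unfold sg
    rw [rename_X, if_neg this]

end Aux_dsp

open Aux_dsp in
theorem p_dsp : S_dvd → S_interp → S_dsp := by
  intro hdvd _ V _ c w₁ w₂ u₁ u₂ Γ hd hc0 hwΓ hdeg hz h12 hu1 hu12 hu1Γ hu21 hu2w1 hu2w2 hne
  obtain ⟨c₁, rfl⟩ := split hdvd w₁ Γ c hd hwΓ hz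
  have hprod : ∏ x ∈ Γ, (xx w₁ + xx x : R V) ≠ 0 :=
    prod_ne_zero_iff.2 fun x hx => Aux_interp.sum_ne w₁ x (fun h => hwΓ (h ▸ hx))
  have hc1 : c₁ ≠ 0 := fun h => hc0 (by rw [h, zero_mul])
  have hdeg1 : degreeOf w₁ c₁ = 0 := by
    rw [degreeOf_mul_eq hc1 hprod, degreeOf_prod_eq Γ _ (fun x hx =>
      Aux_interp.sum_ne w₁ x (fun h => hwΓ (h ▸ hx))),
      sum_congr rfl (fun x hx => Aux_interp.deg_sum w₁ x (fun h => hwΓ (h ▸ hx))),
      sum_const, smul_eq_mul] at hdeg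
    omega
  rw [map_mul] at hne
  have h1 : sg w₂ u₂ c₁ ≠ 0 := fun h => hne (by rw [h, zero_mul])
  rw [map_mul, sg_free w₁ u₁ c₁ hdeg1, map_mul, map_prod, map_prod]
  refine mul_ne_zero h1 (prod_ne_zero_iff.2 fun x hx => ?_)
  have hxw : x ≠ w₁ := fun h => hwΓ (h ▸ hx)
  have hxu : x ≠ u₁ := fun h => hu1Γ (h ▸ hx)
  rw [sg_sum w₁ u₁ x hxw, map_add, sg_xx, sg_xx, if_neg hu12]
  split_ifs with hx2
  · exact Aux_interp.sum_ne u₁ u₂ hu21.symm
  · exact Aux_interp.sum_ne u₁ x hxu.symm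

end Pool.Agent.W390.SD
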