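import Pool.Agent.W390.SD.Stm3
import Pool.Agent.W390.SD.P.FLchar

/-!
# Project SD, part M8 (helper505): good non-edges
-/

namespace Pool.Agent.W390.SD

open MvPolynomial Finset

namespace Aux_fold

variable {V : Type} [Fintype V] [DecidableEq V]

/-- the functional -/
noncomputable def ph (G : Gr V) (b b' : V) : (V → F V) →ₗ[F V] F V :=
  ∑ v ∈ nbr G b, (xF v + xF b')⁻¹ •
    ((LinearMap.proj v : (V → F V) →ₗ[F V] F V) + LinearMap.proj b')

omit [DecidableEq V] in
lemma ph_apply (G : Gr V) (b b' : V) (f : V → F V) :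
    ph G b b' f = ∑ v ∈ nbr G b, (f v + f b') * (xF v + xF b')⁻¹ := by
  unfold ph
  rw [LinearMap.sum_apply]
  refine sum_congr rfl fun v _ => ?_
  rw [LinearMap.smul_apply, LinearMap.add_apply, LinearMap.proj_apply, LinearMap.proj_apply,
    smul_eq_mul, mul_comm]

/-- the functional vanishes on the derivative vectors -/
lemma core (hdd : S_dd) (hsg : S_ddsg) (hco : S_ctr_out) (G : Gr V) (b b' : V) (M : Finset V)
    (hG : IsEv G) (hne : b ≠ b') (h0 : G b b' = 0) (hbM : b ∉ M) (h1 : PJ G (insert b M) = 0)
    (h2 : PJ (ctr b b' G) M = 0) :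
    ph G b b' (fun u => algebraMap (R V) (F V)
      (if u ∈ M then PJ (ctr b b' G) (M.erase u) else 0)) = 0 := by
  obtain ⟨dd0, ddins, ddcomm, ddkill, ddc, ddX, -⟩ := hdd V
  obtain ⟨sgdd, sgder, -⟩ := hsg V b b' hne
  set Y := ctr b b' G with hYdef
  set q : R V := ∏ u ∈ nbr G b ∩ nbr G b', (X u + X b') with hq
  have hsP : sg b b' (PP G) = q ^ 2 * PP Y := by
    have h := (hco V G ∅ b b' hG hne (notMem_empty _) (notMem_empty _)).1 h0
    unfold PJ at h
    rw [dd0, dd0] at h
    exact h
  have hqsq : ∀ j : V, pderiv j (q ^ 2) = 0 := fun j => Aux_ctr_out.pd_sq j q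
  have hq0 : q ≠ 0 := by
    rw [hq, prod_ne_zero_iff]
    intro u hu
    refine Aux_FLchar.line_ne u b' ?_
    rintro rfl
    have := (mem_filter.1 (mem_inter.1 hu).2).2
    exact this (hG.diag _)
  set g : R V := pderiv b (PP G) with hg
  -- step 1
  have hz : dd M (sg b b' g) = 0 := by
    have e1 : dd M g = 0 := by
      unfold PJ at h1
      rw [ddins M b _ hbM, ← ddcomm] at h1
      exact h1
    by_cases hb' : b' ∈ M
    · obtain ⟨M', hM'⟩ : ∃ M', M' = M.erase b' := ⟨_, rfl⟩
      have hb'M' : b' ∉ M' := by rw [hM']; exact notMem_erase _ _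
      have hbM' : b ∉ M' := fun h => hbM (mem_of_mem_erase (hM' ▸ h))
      have hins : insert b' M' = M := by rw [hM']; exact insert_erase hb'
      have e2 : pderiv b (dd M' g) = 0 := by
        have e3 : g = dd {b} (PP G) := by
          have := ddins ∅ b (PP G) (notMem_empty _)
          rw [dd0] at this
          exact this.symm
        rw [← ddcomm, e3, ddkill {b} b _ (mem_singleton_self _), map_zero]
      rw [← hins, ddins M' b' _ hb'M', ← sgdd M' g hbM' hb'M', sgder, e2, zero_add,
        ← ddins M' b' _ hb'M', hins, e1, map_zero]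
    · rw [← sgdd M g hbM hb', e1, map_zero]
  -- step 2
  have hterm : ∀ u ∈ nbr G b, (xx u + xx b') * dd M (sg b b' (Aux_dlog.Pe G b u)) =
      q ^ 2 * ((if u ∈ M then PJ Y (M.erase u) else 0) +
        (if b' ∈ M then PJ Y (M.erase b') else 0)) := by
    intro u hu
    have hub : G b u ≠ 0 := (mem_filter.1 hu).2
    have hune : u ≠ b := by
      rintro rfl
      exact hub (hG.diag _)
    have h3 : (X u + X b') * sg b b' (Aux_dlog.Pe G b u) = q ^ 2 * PP Y := by
      rw [← hsP, Aux_dlog.PP_eq G b u hub, map_mul, map_add, Aux_FLchar.sg_X, Aux_FLchar.sg_X,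
        if_pos rfl, if_neg hune, add_comm (X b')]
    rw [← ddc M _ _ (fun j _ => Aux_dlog.xx_const b' u j), Aux_dlog.xx_add, mul_assoc, h3,
      mul_left_comm, ddc M _ _ (fun j _ => hqsq j), add_mul, map_add, ddX, ddX]
    unfold PJ at h2 ⊢
    rw [h2, mul_zero, mul_zero, zero_add, zero_add]
  have hsum : ∑ u ∈ nbr G b, dd M (sg b b' (Aux_dlog.Pe G b u)) = 0 := by
    rw [← map_sum, ← map_sum, ← Aux_dlog.der_PP G hG b]
    exact hz
  have hq2 : algebraMap (R V) (F V) (q ^ 2) ≠ 0 :=
    (map_ne_zero_iff _ (IsFractionRing.injective (R V) (F V))).2 (pow_ne_zero 2 hq0)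
  have hfin : algebraMap (R V) (F V) (q ^ 2) * ph G b b' (fun u => algebraMap (R V) (F V)
      (if u ∈ M then PJ Y (M.erase u) else 0)) = 0 := by
    have hsum' := congrArg (algebraMap (R V) (F V)) hsum
    rw [map_sum, map_zero] at hsum'
    rw [ph_apply, mul_sum]
    refine Eq.trans (sum_congr rfl fun u hu => ?_) hsum'
    have h3 := congrArg (algebraMap (R V) (F V)) (hterm u hu)
    rw [map_mul, map_mul, map_add, map_add] at h3
    have hub : G b u ≠ 0 := (mem_filter.1 hu).2
    have hu' : b' ≠ u := by
      rintro rfl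
      exact hub h0
    have h4 : (xF u + xF b' : F V) ≠ 0 := Aux_dlog.xF_ne b' u hu'
    have h5 : algebraMap (R V) (F V) (xx u) + algebraMap (R V) (F V) (xx b') = xF u + xF b' := rfl
    rw [h5] at h3
    rw [← mul_assoc, mul_inv_eq_iff_eq_mul₀ h4, mul_comm _ (xF u + xF b'), h3]
  rcases mul_eq_zero.1 hfin with h | h
  · exact absurd h hq2
  · exact h

end Aux_fold

open Aux_fold in
theorem p_fold : S_dd → S_ddsg → S_ctr_out → S_ker → S_ind → S_basis → S_ctr → S_add → S_dlog →
    S_fold := by
  intro hdd hsg hco hker hind hbas hctr _ _ V _ _ G b b' f hG hne h0 hnu hf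
  have hY : IsEv (ctr b b' G) := (hctr V G G b b' hne hG hG).1
  have hbY : b ∉ supp (ctr b b' G) := (hctr V G G b b' hne hG hG).2.2.2.1
  set Y := ctr b b' G with hYdef
  obtain ⟨b1, -, -, b4, b5, -, -, b8⟩ := hbas V Y hY
  obtain ⟨g1, -, -, -, g5, -, -, -⟩ := hbas V G hG
  obtain ⟨dd0, -, -, -, -, -, -⟩ := hdd V
  obtain ⟨J, -, -, hJc, hJ0⟩ := b4 univ ∅ (empty_subset _) (by
    unfold PJ
    rw [dd0]
    exact Aux_ind.PP_ne_zero Y hY)
  rw [b1] at hJc
  have hbJ : b ∉ J := fun h => hbY (b8 J hJ0 h)
  have hbig : ∀ M : Finset V, nu Y < M.card → PJ Y M = 0 := by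
    intro M hM
    by_contra h
    have := b5 univ M (subset_univ _) h
    rw [b1] at this
    omega
  have hbigG : ∀ M : Finset V, nu G < M.card → PJ G M = 0 := by
    intro M hM
    by_contra h
    have := g5 univ M (subset_univ _) h
    rw [g1] at this
    omega
  set a : F V := algebraMap (R V) (F V) (PJ Y J) with ha
  have ha0 : a ≠ 0 := (map_ne_zero_iff _ (IsFractionRing.injective (R V) (F V))).2 hJ0
  set κ : V → V → F V := fun v u => algebraMap (R V) (F V)
    (if u = v then PJ Y J else if u ∈ J then PJ Y (insert v (J.erase u)) else 0) with hκ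
  have hκker : ∀ v, v ∉ J → (Lap Y).mulVec (κ v) = 0 := by
    intro v hv
    exact hker V Y J v hY hv (hbig _ (by rw [card_insert_of_notMem hv]; omega))
  have hκph : ∀ v, v ∉ J → ph G b b' (κ v) = 0 := by
    intro v hv
    by_cases hvb : v = b
    · subst hvb
      rw [ph_apply]
      have e1 : ∀ u, u ≠ v → κ v u = 0 := by
        intro u hu
        simp only [hκ, if_neg hu]
        by_cases huJ : u ∈ J
        · rw [if_pos huJ]
          have : PJ Y (insert v (J.erase u)) = 0 := by
            by_contra h
            exact hbY (b8 _ h (mem_insert_self _ _))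
          rw [this, map_zero]
        · rw [if_neg huJ, map_zero]
      refine sum_eq_zero fun u hu => ?_
      have hu' : u ≠ v := by
        rintro rfl
        exact (mem_filter.1 hu).2 (hG.diag _)
      rw [e1 u hu', e1 b' hne.symm, add_zero, zero_mul]
    · have hbM : b ∉ insert v J := by
        rw [mem_insert]
        rintro (h | h)
        exacts [hvb h.symm, hbJ h]
      have hcM : (insert v J).card = nu Y + 1 := by
        rw [card_insert_of_notMem hv]
        omega
      have hc := core hdd hsg hco G b b' (insert v J) hG hne h0 hbM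
        (hbigG _ (by rw [card_insert_of_notMem hbM]; omega)) (hbig _ (by omega))
      have e : κ v = (fun u => algebraMap (R V) (F V)
          (if u ∈ insert v J then PJ (ctr b b' G) ((insert v J).erase u) else 0)) := by
        funext u
        simp only [hκ]
        by_cases hu : u = v
        · subst hu
          rw [if_pos rfl, if_pos (mem_insert_self _ _), erase_insert hv]
        · rw [if_neg hu]
          by_cases huJ : u ∈ J
          · rw [if_pos huJ, if_pos (mem_insert_of_mem huJ), erase_insert_of_ne (Ne.symm hu)]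
          · rw [if_neg huJ, if_neg (by
              rw [mem_insert]
              rintro (h | h)
              exacts [hu h, huJ h])]
      rw [e]
      exact hc
  -- decomposition of `f`
  have hdec : f - ∑ v ∈ Jᶜ, (f v / a) • κ v = 0 := by
    refine Aux_FLchar.indep_ker hind Y hY J hJ0 _ ?_ ?_
    · intro u hu
      rw [Pi.sub_apply, Finset.sum_apply, sum_eq_single u]
      · rw [Pi.smul_apply, smul_eq_mul]
        have : κ u u = a := by
          simp only [hκ, if_true]
          rfl
        rw [this, div_mul_cancel₀ _ ha0, sub_self]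
      · intro v _ hvu
        have : κ v u = 0 := by
          simp only [hκ, if_neg (Ne.symm hvu), if_neg hu, map_zero]
        rw [Pi.smul_apply, this, smul_zero]
      · intro h
        exact absurd (mem_compl.2 hu) h
    · rw [Matrix.mulVec_sub, hf, zero_sub, neg_eq_zero]
      have e : (Lap Y).mulVec (∑ v ∈ Jᶜ, (f v / a) • κ v) =
          ∑ v ∈ Jᶜ, (f v / a) • (Lap Y).mulVec (κ v) := by
        have := map_sum (Lap Y).mulVecLin (fun v => (f v / a) • κ v) Jᶜ
        simp only [map_smul] at this
        exact this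
      rw [e]
      refine sum_eq_zero fun v hv => ?_
      rw [hκker v (mem_compl.1 hv), smul_zero]
  rw [sub_eq_zero] at hdec
  have := ph_apply G b b' f
  rw [← this, hdec, map_sum]
  refine sum_eq_zero fun v hv => ?_
  rw [map_smul, hκph v (mem_compl.1 hv), smul_zero]

end Pool.Agent.W390.SD
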