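import Pool.Agent.W390.SD.Stm3

namespace Pool.Agent.W390.SD

open MvPolynomial Finset

namespace Aux_geo

set_option linter.unusedSectionVars false

variable {V : Type} [Fintype V] [DecidableEq V]

lemma mem_nbr (A : Gr V) (v u : V) : u ∈ nbr A v ↔ A v u ≠ 0 := by
  unfold nbr
  simp only [mem_filter, mem_univ, true_and]

lemma mem_supp (A : Gr V) (v : V) : v ∈ supp A ↔ (nbr A v).Nonempty := by
  unfold supp
  simp only [mem_filter, mem_univ, true_and]

lemma mem_edg (A : Gr V) (hs : ∀ u v, A u v = A v u) (a b : V) :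
    s(a, b) ∈ edg A ↔ A a b ≠ 0 := by
  unfold edg
  simp only [mem_image, mem_filter, mem_univ, true_and, Prod.exists, Sym2.eq_iff]
  constructor
  · rintro ⟨x, y, h, (⟨rfl, rfl⟩ | ⟨rfl, rfl⟩)⟩
    · exact h
    · rw [hs]; exact h
  · intro h
    exact ⟨a, b, h, Or.inl ⟨rfl, rfl⟩⟩

lemma X_add_ne {V : Type} (u v : V) (h : u ≠ v) : (X u + X v : R V) ≠ 0 := by
  classical
  intro h0
  have h1 := congrArg (MvPolynomial.eval (fun x => if x = u then (1 : ZMod 2) else 0)) h0
  simp only [map_add, eval_X, map_zero, if_true] at h1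
  rw [if_neg (Ne.symm h)] at h1
  simp at h1

lemma PP_ne (A : Gr V) (hA : IsEv A) : PP A ≠ 0 := by
  unfold PP
  rw [Finset.prod_ne_zero_iff]
  intro e he
  induction e using Sym2.ind with
  | _ a b =>
    rw [mem_edg A hA.symm] at he
    have hab : a ≠ b := by
      rintro rfl
      exact he (hA.diag a)
    simp only [fac, Sym2.lift_mk]
    exact X_add_ne a b hab

lemma sg_X (w w' u : V) : sg w w' (X u : R V) = X (if u = w then w' else u) := by
  simp [sg]

lemma one_of_ne (a : ZMod 2) (h : a ≠ 0) : a = 1 := by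
  revert h
  revert a
  decide

lemma even_nbr (A : Gr V) (hA : IsEv A) (w : V) : Even (nbr A w).card := by
  have h1 : ∑ u ∈ nbr A w, A w u = 0 := by
    rw [← hA.even w]
    apply Finset.sum_subset (Finset.subset_univ _)
    intro u _ hu
    rw [mem_nbr, not_not] at hu
    exact hu
  have h2 : ∑ u ∈ nbr A w, A w u = ((nbr A w).card : ZMod 2) := by
    rw [Finset.sum_congr rfl (fun u hu => one_of_ne _ ((mem_nbr A w u).1 hu))]
    simp
  rw [h2] at h1
  exact (ZMod.natCast_eq_zero_iff_even).1 h1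

end Aux_geo

open Aux_geo in
theorem p_geo : S_dd → S_deg → S_interp → S_ctr_out → S_basis → S_rk → S_rkm → S_tcons → S_ctr →
    S_ctrnu → S_degbd → S_nbr → S_zero → S_geo := by
  intro hdd hdeg hint hout hbas hrk hrkm htc hctr _ hdb hnb _ V _ _ G T b b' hU hnu hgood hT hTY
    hb'T hrk3
  have hG : IsEv G := hU.1
  have hbb' : b ≠ b' := by
    rintro rfl
    exact hgood.1 (hG.diag b)
  obtain ⟨hY, -, -, -, hsupY, -, -⟩ := hctr V G G b b' hbb' hG hG
  have hbG : b ∈ supp G := by
    rw [mem_supp]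
    exact ⟨b', (mem_nbr G b b').2 hgood.1⟩
  have hb'G : b' ∈ supp G := by
    rw [mem_supp]
    exact ⟨b, (mem_nbr G b' b).2 (by rw [hG.symm]; exact hgood.1)⟩
  obtain ⟨Y, hYdef⟩ : ∃ Y, Y = ctr b b' G := ⟨_, rfl⟩
  have hnuY : nu Y + 1 = nu G := by rw [hYdef]; exact hgood.2
  have hnbr := fun w => hnb V G b b' w hG hbb'
  rw [← hYdef] at hY hsupY hTY hrk3 hnbr ⊢
  obtain ⟨U, hUdef⟩ : ∃ U, U = (supp G).erase b := ⟨_, rfl⟩
  have hUcard : U.card + 1 = (supp G).card := by
    rw [hUdef]
    exact Finset.card_erase_add_one hbG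
  have hYU : supp Y ⊆ U := by
    intro v hv
    have h1 := hsupY hv
    rw [hUdef]
    rw [mem_insert] at h1
    rcases h1 with h1 | h1
    · rw [h1, mem_erase]
      exact ⟨hbb'.symm, hb'G⟩
    · exact h1
  obtain ⟨S, hS⟩ : ∃ S, S = supp T := ⟨_, rfl⟩
  have hSY : S ⊆ supp Y := by
    rw [hS]
    exact (htc V Y T hY hTY).2.1
  have hSU : S ⊆ U := hSY.trans hYU
  rw [← hS] at hrk3 hb'T ⊢
  obtain ⟨-, hmono, -, hunit, hsub, hfull, -, -⟩ := hrkm V Y Y hY hY
  have hrkU : rk Y U = 4 := by
    have := hfull U hYU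
    omega
  obtain ⟨C, hC⟩ : ∃ C, C = U.filter (fun v => rk Y (insert v S) = 4) := ⟨_, rfl⟩
  have hCU : C ⊆ U := by rw [hC]; exact Finset.filter_subset _ _
  have hCm : ∀ v, v ∈ C ↔ v ∈ U ∧ rk Y (insert v S) = 4 := by
    intro v
    rw [hC, mem_filter]
  have hCS : Disjoint C S := by
    rw [Finset.disjoint_left]
    intro v hv hvS
    have h1 := ((hCm v).1 hv).2
    rw [Finset.insert_eq_of_mem hvS] at h1
    omega
  obtain ⟨F', hF'⟩ : ∃ F', F' = U \ C := ⟨_, rfl⟩
  have hSF : S ⊆ F' := by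
    intro v hv
    rw [hF', mem_sdiff]
    exact ⟨hSU hv, fun h => Finset.disjoint_left.1 hCS h hv⟩
  have hFv : ∀ v ∈ F', rk Y (insert v S) ≤ 3 := by
    intro v hv
    rw [hF', mem_sdiff] at hv
    have h1 := hunit S v
    have h2 : rk Y (insert v S) ≠ 4 := fun h => hv.2 ((hCm v).2 ⟨hv.1, h⟩)
    omega
  have hclos : ∀ D : Finset V, D ⊆ F' → rk Y (S ∪ D) ≤ 3 := by
    intro D
    induction D using Finset.induction_on with
    | empty =>
      intro _
      rw [Finset.union_empty]
      exact hrk3.le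
    | insert v D hvD ih =>
      intro hD
      have h1 := ih (fun x hx => hD (mem_insert_of_mem hx))
      have h2 := hFv v (hD (mem_insert_self _ _))
      have h3 := hsub (S ∪ D) (insert v S)
      have h4 : rk Y S ≤ rk Y ((S ∪ D) ∩ insert v S) := by
        apply hmono
        intro x hx
        rw [mem_inter, mem_union, mem_insert]
        exact ⟨Or.inl hx, Or.inr hx⟩
      have h5 : S ∪ insert v D = (S ∪ D) ∪ insert v S := by
        ext x
        simp only [mem_union, mem_insert]
        tauto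
      rw [h5]
      omega
  have hrkF : rk Y F' = 3 := by
    have h1 := hclos F' (Finset.Subset.refl _)
    rw [Finset.union_eq_right.2 hSF] at h1
    have h2 := hmono S F' hSF
    omega
  have hFcard : F'.card + C.card = U.card := by
    rw [hF']
    exact Finset.card_sdiff_add_card_eq_card hCU
  have hCne : C.Nonempty := by
    rw [Finset.nonempty_iff_ne_empty]
    intro h
    rw [h, Finset.sdiff_empty] at hF'
    rw [hF'] at hrkF
    omega
  obtain ⟨-, hnm, -, hext, hle, -, -, hJs⟩ := hbas V Y hY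
  have hCpos : 1 ≤ C.card := Finset.card_pos.2 hCne
  have hPC : PJ Y C = 0 := by
    by_contra hne
    have h1 := hle C C (Finset.Subset.refl _) hne
    have h2 : nuC Y C ≤ nuC Y F'ᶜ := by
      apply hnm
      intro v hv
      rw [mem_compl, hF', mem_sdiff]
      exact fun h => h.2 hv
    have h3 := hrk V Y F' hY
    omega
  have hPw : ∀ w ∈ C, PJ Y (C.erase w) ≠ 0 := by
    intro w hw
    have hwU := hCU hw
    have hwF : w ∉ F' := by
      rw [hF', mem_sdiff]
      exact fun h => h.2 hw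
    have h1 : rk Y (insert w F') = 4 := by
      have h2 := hunit F' w
      have h3 : rk Y (insert w S) ≤ rk Y (insert w F') := hmono _ _ (Finset.insert_subset_insert _ hSF)
      have h4 := ((hCm w).1 hw).2
      omega
    have h5 := hrk V Y (insert w F') hY
    rw [Finset.card_insert_of_notMem hwF] at h5
    obtain ⟨J, -, hJ1, hJc, hJne⟩ := hext (insert w F')ᶜ ∅ (Finset.empty_subset _) (by
      unfold PJ
      rw [(hdd V).1]
      exact PP_ne Y hY)
    have hJ2 := hJs J hJne
    have hJ3 : J ⊆ C.erase w := by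
      intro v hv
      have h6 := hJ1 hv
      have h7 := hYU (hJ2 hv)
      rw [mem_compl, mem_insert, not_or] at h6
      rw [mem_erase]
      refine ⟨h6.1, ?_⟩
      by_contra hvC
      exact h6.2 (by rw [hF', mem_sdiff]; exact ⟨h7, hvC⟩)
    have hJ4 : J = C.erase w := by
      apply Finset.eq_of_subset_of_card_le hJ3
      rw [Finset.card_erase_of_mem hw]
      omega
    rw [← hJ4]
    exact hJne
  have hmain : ∀ w ∈ C, 2 * (nbr Y w \ C).card ≤ (nbr Y w).card := by
    intro w hw
    by_contra hlt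
    push Not at hlt
    obtain ⟨a, ha⟩ := even_nbr Y hY w
    apply hPw w hw
    refine hint V w (nbr Y w \ C) a _ ?_ ?_ ?_ ?_ ?_
    · have h1 := (hdd V).2.1 (C.erase w) w (PP Y) (Finset.notMem_erase w C)
      rw [Finset.insert_erase hw] at h1
      unfold PJ
      rw [← h1]
      exact hPC
    · have := (hdeg V Y (C.erase w) w hY).1
      omega
    · rw [mem_sdiff, mem_nbr]
      exact fun h => h.1 (hY.diag w)
    · intro w' hw'
      rw [mem_sdiff, mem_nbr] at hw'
      have hne : w ≠ w' := by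
        rintro rfl
        exact hw'.1 (hY.diag w)
      obtain ⟨Q, hQ, -⟩ := (hout V Y (C.erase w) w w' hY hne (Finset.notMem_erase w C)
        (fun h => hw'.2 (Finset.mem_of_mem_erase h))).2 hw'.1
      rw [hQ, map_mul, map_add, sg_X, sg_X, if_pos rfl, if_neg hne.symm,
        CharTwo.add_self_eq_zero, zero_mul]
    · omega
  refine ⟨C, hCU.trans (by rw [hUdef]), hCS, ?_, hmain⟩
  obtain ⟨w, hw⟩ := hCne
  have hwU := hCU hw
  rw [hUdef, mem_erase] at hwU
  have hwb' : w ≠ b' := by
    rintro rfl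
    exact Finset.disjoint_left.1 hCS hw hb'T
  have h1 := hdb V G w 4 hU hwU.2 hnu
  have h2 : (nbr G w).card ≤ (nbr Y w).card + 2 := by
    obtain ⟨n1, n2, -, -⟩ := hnbr w hwU.1 hwb'
    by_cases h : G w b ≠ 0 ∧ G w b' ≠ 0
    · have := (n1 h).2
      omega
    · have := n2 h
      omega
  have h3 := hmain w hw
  have h4 : (nbr Y w \ C).card + (nbr Y w ∩ C).card = (nbr Y w).card :=
    Finset.card_sdiff_add_card_inter _ _
  have h5 : (nbr Y w ∩ C).card ≤ (C.erase w).card := by
    apply Finset.card_le_card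
    intro v hv
    rw [mem_inter, mem_nbr] at hv
    rw [mem_erase]
    refine ⟨?_, hv.2⟩
    rintro rfl
    exact hv.1 (hY.diag v)
  rw [Finset.card_erase_of_mem hw] at h5
  omega

end Pool.Agent.W390.SD
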