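import Pool.Agent.W390.SD.Stm1

namespace Pool.Agent.W390.SD

open MvPolynomial Finset

namespace Aux_sol

open Classical in
lemma coeff_evp {V : Type} (f : R V) (m : V →₀ ℕ) :
    coeff m (evp f) = if (∀ v, Even (m v)) then coeff m f else 0 := by
  unfold evp
  rw [coeff_sum]
  have h1 : ∀ m' ∈ f.support,
      coeff m (if (∀ v, Even (m' v)) then monomial m' (coeff m' f) else 0) =
      if m' = m then (if (∀ v, Even (m v)) then coeff m f else 0) else 0 := by
    intro m' _
    by_cases h : m' = m
    · subst h
      rw [if_pos rfl]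
      split_ifs
      · rw [coeff_monomial, if_pos rfl]
      · rw [coeff_zero]
    · rw [if_neg h]
      split_ifs
      · rw [coeff_monomial, if_neg h]
      · rw [coeff_zero]
  rw [Finset.sum_congr rfl h1, Finset.sum_ite_eq']
  by_cases h2 : m ∈ f.support
  · rw [if_pos h2]
  · rw [if_neg h2, notMem_support_iff.1 h2, ite_self]

lemma evp_add {V : Type} (f g : R V) : evp (f + g) = evp f + evp g := by
  classical
  ext m
  rw [coeff_add, coeff_evp, coeff_evp, coeff_evp, coeff_add]
  split_ifs
  · rfl
  · rw [add_zero]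

lemma evp_zero {V : Type} : evp (0 : R V) = 0 := by
  classical
  ext m
  rw [coeff_evp, coeff_zero, ite_self]

lemma evp_sum {V ι : Type} (s : Finset ι) (f : ι → R V) :
    evp (∑ i ∈ s, f i) = ∑ i ∈ s, evp (f i) := by
  classical
  induction s using Finset.induction_on with
  | empty => simp [evp_zero]
  | insert i s hi ih => rw [Finset.sum_insert hi, Finset.sum_insert hi, evp_add, ih]

/-- constants for `evp` -/
def E {V : Type} (c : R V) : Prop := ∀ f, evp (c * f) = c * evp f

lemma E_zero {V : Type} : E (0 : R V) := fun f => by rw [zero_mul, zero_mul, evp_zero]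

lemma E_one {V : Type} : E (1 : R V) := fun f => by rw [one_mul, one_mul]

lemma E_add {V : Type} {c d : R V} (hc : E c) (hd : E d) : E (c + d) := fun f => by
  rw [add_mul, evp_add, hc f, hd f, add_mul]

lemma E_mul {V : Type} {c d : R V} (hc : E c) (hd : E d) : E (c * d) := fun f => by
  rw [mul_assoc, hc, hd, mul_assoc]

lemma E_sum {V ι : Type} (s : Finset ι) (c : ι → R V) (h : ∀ i ∈ s, E (c i)) :
    E (∑ i ∈ s, c i) := by
  classical
  induction s using Finset.induction_on with
  | empty => simpa using E_zero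
  | insert i s hi ih =>
    rw [Finset.sum_insert hi]
    exact E_add (h i (Finset.mem_insert_self i s)) (ih fun j hj => h j (Finset.mem_insert_of_mem hj))

lemma E_prod {V ι : Type} (s : Finset ι) (c : ι → R V) (h : ∀ i ∈ s, E (c i)) :
    E (∏ i ∈ s, c i) := by
  classical
  induction s using Finset.induction_on with
  | empty => simpa using E_one
  | insert i s hi ih =>
    rw [Finset.prod_insert hi]
    exact E_mul (h i (Finset.mem_insert_self i s)) (ih fun j hj => h j (Finset.mem_insert_of_mem hj))

lemma E_xx {V : Type} (v : V) : E (xx v) := by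
  classical
  intro f
  ext m
  have h0 : (xx v : R V) = monomial (Finsupp.single v 2) 1 := by
    unfold xx
    rw [X_pow_eq_monomial]
  rw [coeff_evp, h0, coeff_monomial_mul', coeff_monomial_mul', coeff_evp]
  by_cases h1 : Finsupp.single v 2 ≤ m
  · rw [if_pos h1, if_pos h1, one_mul, one_mul]
    have h2 : (∀ u, Even (m u)) ↔ (∀ u, Even ((m - Finsupp.single v 2 : V →₀ ℕ) u)) := by
      refine forall_congr' fun u => ?_
      rw [Finsupp.coe_tsub, Pi.sub_apply]
      by_cases h3 : v = u
      · subst h3
        have h4 := h1 v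
        rw [Finsupp.single_eq_same] at h4 ⊢
        rw [Nat.even_sub h4]
        simp
      · rw [Finsupp.single_eq_of_ne' h3, Nat.sub_zero]
    simp only [h2]
  · rw [if_neg h1, if_neg h1, ite_self]

lemma xx_ne {V : Type} {v w : V} (h : v ≠ w) : (xx v + xx w : R V) ≠ 0 := by
  classical
  intro h0
  have h1 := congrArg (coeff (Finsupp.single v 2)) h0
  unfold xx at h1
  rw [coeff_add, X_pow_eq_monomial, X_pow_eq_monomial, coeff_monomial, coeff_monomial,
    if_pos rfl, if_neg, coeff_zero] at h1
  · simp at h1
  · intro h2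
    have h3 := DFunLike.congr_fun h2 v
    rw [Finsupp.single_eq_same, Finsupp.single_eq_of_ne h] at h3
    omega

lemma alg_inj {V : Type} : Function.Injective (algebraMap (R V) (F V)) :=
  IsFractionRing.injective (R V) (F V)

lemma alg_ne {V : Type} {f : R V} (h : f ≠ 0) : algebraMap (R V) (F V) f ≠ 0 := by
  intro h0
  apply h
  apply alg_inj
  rw [h0, map_zero]

/-- clearing denominators -/
lemma clr {V : Type} [Fintype V] [DecidableEq V] (A : Gr V) (hA : IsEv A) (v : V) :
    ∃ (D : R V) (c : V → R V), D ≠ 0 ∧ E D ∧ (∀ u, E (c u)) ∧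
      ∀ u, algebraMap (R V) (F V) D * Lap A v u = algebraMap (R V) (F V) (c u) := by
  set D : R V := ∏ w ∈ univ.erase v, (xx v + xx w) with hD
  have hE : ∀ w, E (xx v + xx w : R V) := fun w => E_add (E_xx v) (E_xx w)
  have h1 : ∀ w, ∃ e : R V, E e ∧ algebraMap (R V) (F V) D *
      (if A v w = 0 then 0 else (xF v + xF w)⁻¹) = algebraMap (R V) (F V) e := by
    intro w
    by_cases hw : A v w = 0
    · refine ⟨0, E_zero, ?_⟩
      rw [if_pos hw, mul_zero, map_zero]
    · have hne : v ≠ w := by
        rintro rfl
        exact hw (hA.diag v)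
      refine ⟨∏ w' ∈ (univ.erase v).erase w, (xx v + xx w'), E_prod _ _ fun w' _ => hE w', ?_⟩
      have hmem : w ∈ univ.erase v := Finset.mem_erase.2 ⟨hne.symm, Finset.mem_univ _⟩
      have h2 : xF v + xF w = algebraMap (R V) (F V) (xx v + xx w) := by
        unfold xF
        rw [map_add]
      rw [if_neg hw, hD, ← Finset.mul_prod_erase _ _ hmem, map_mul, ← h2, mul_comm,
        ← mul_assoc, inv_mul_cancel₀, one_mul]
      rw [h2]
      exact alg_ne (xx_ne hne)
  choose e he1 he2 using h1
  refine ⟨D, fun u => if v = u then ∑ w, e w else e u, ?_, ?_, ?_, ?_⟩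
  · rw [hD, Finset.prod_ne_zero_iff]
    intro w hw
    exact xx_ne (Finset.mem_erase.1 hw).1.symm
  · exact E_prod _ _ fun w _ => hE w
  · intro u
    simp only
    split_ifs
    · exact E_sum _ _ fun w _ => he1 w
    · exact he1 u
  · intro u
    unfold Lap
    simp only
    split_ifs with h
    · rw [Finset.mul_sum, map_sum]
      exact Finset.sum_congr rfl fun w _ => he2 w
    · rename_i h3
      have := he2 u
      rw [if_pos h3] at this
      exact this
    · rename_i h3
      have := he2 u
      rw [if_neg h3] at this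
      exact this

end Aux_sol

open Aux_sol

theorem p_sol : S_dd → S_dlog → S_sol := by
  intro _ hdlog V _ _ A K' hA
  funext v
  set f : V → R V := fun u => X u * PJ A K' + if u ∈ K' then PJ A (K'.erase u) else 0 with hf
  obtain ⟨D, c, hD0, hDE, hcE, hc⟩ := clr A hA v
  have h1 := hdlog V A K' v hA
  have h2 : D * pderiv v (PJ A K') = ∑ u, c u * f u := by
    apply alg_inj
    rw [map_mul, h1, map_sum, Finset.mul_sum]
    refine Finset.sum_congr rfl fun u _ => ?_
    rw [map_mul, ← hc u, mul_assoc]
  have h3 : D * evp (pderiv v (PJ A K')) = ∑ u, c u * evp (f u) := by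
    rw [← hDE, h2, evp_sum]
    exact Finset.sum_congr rfl fun u _ => hcE u _
  apply mul_left_cancel₀ (alg_ne hD0)
  rw [← map_mul, h3, map_sum]
  unfold Matrix.mulVec dotProduct
  rw [Finset.mul_sum]
  refine Finset.sum_congr rfl fun u _ => ?_
  rw [map_mul, ← hc u, mul_assoc]

end Pool.Agent.W390.SD
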