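import Pool.Agent.W390.SD.Stm2
import Pool.Agent.W390.SD.P.spec
import Pool.Agent.W390.SD.P.sol

/-!
# Interpolation of orthogonality
-/

set_option autoImplicit false

namespace Pool.Agent.W390.SD

open MvPolynomial Finset

namespace Aux_gil

open Aux_spec

/-! ### Even parts -/

theorem pderiv_evp {V : Type} (f : R V) (v : V) : pderiv v (evp f) = 0 := by
  classical
  ext m
  rw [coeff_pderiv, Aux_sol.coeff_evp, coeff_zero]
  split_ifs with h
  · have h1 := h v
    have h2 : ((m v : ZMod 2) + 1) = 0 := by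
      have h3 : (m + Finsupp.single v 1 : V →₀ ℕ) v = m v + 1 := by simp
      rw [h3] at h1
      have h4 : (((m v + 1 : ℕ)) : ZMod 2) = 0 := (ZMod.natCast_eq_zero_iff_even).2 h1
      exact_mod_cast h4
    rw [h2, mul_zero]
  · rw [zero_mul]

theorem degreeOf_evp {V : Type} (f : R V) (w : V) : degreeOf w (evp f) ≤ degreeOf w f := by
  classical
  rw [degreeOf_le_iff]
  intro m hm
  rw [mem_support_iff, Aux_sol.coeff_evp] at hm
  split_ifs at hm with h
  · exact monomial_le_degreeOf w (mem_support_iff.2 hm)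
  · exact absurd rfl hm

theorem evp_const {V : Type} (f : R V) (hf : ∀ v, pderiv v f = 0) : evp f = f := by
  classical
  ext m
  rw [Aux_sol.coeff_evp]
  split_ifs with h
  · rfl
  · rw [not_forall] at h
    obtain ⟨v, hv⟩ := h
    have hv1 : 1 ≤ m v := by
      by_contra hc
      have : m v = 0 := by omega
      rw [this] at hv
      exact hv (by decide)
    have h1 := congrArg (coeff (m - Finsupp.single v 1)) (hf v)
    rw [coeff_pderiv, coeff_zero] at h1
    have h2 : m - Finsupp.single v 1 + Finsupp.single v 1 = m := by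
      apply tsub_add_cancel_of_le
      rw [Finsupp.single_le_iff]
      exact hv1
    have h3 : (m - Finsupp.single v 1 : V →₀ ℕ) v = m v - 1 := by simp
    rw [h2, h3] at h1
    have h4 : (((m v - 1 : ℕ) : ZMod 2) + 1) = 1 := by
      have h5 : Even (m v - 1) := by
        rw [Nat.not_even_iff_odd] at hv
        obtain ⟨r, hr⟩ := hv
        exact ⟨r, by omega⟩
      rw [(ZMod.natCast_eq_zero_iff_even).2 h5, zero_add]
    rw [h4, mul_one] at h1
    exact h1.symm

/-! ### Polynomials in the `x_v`, `v ≠ w` -/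

/-- polynomials in the `x_v`, `v ≠ w` -/
structure Gf {V : Type} [DecidableEq V] (w : V) (p : R V) : Prop where
  pd : ∀ v, pderiv v p = 0
  dg : degreeOf w p = 0
  sg : ∀ w', sg w w' p = p

section

variable {V : Type} [DecidableEq V] {w : V}

theorem Gf.one : Gf w (1 : R V) :=
  ⟨fun _ => pderiv_one, by simpa using degreeOf_C (1 : ZMod 2) w, fun _ => map_one _⟩

theorem Gf.zero : Gf w (0 : R V) :=
  ⟨fun _ => map_zero _, degreeOf_zero w, fun _ => map_zero _⟩

theorem Gf.add {p q : R V} (hp : Gf w p) (hq : Gf w q) : Gf w (p + q) := by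
  refine ⟨fun v => by rw [map_add, hp.pd, hq.pd, add_zero], ?_,
    fun w' => by rw [map_add, hp.sg, hq.sg]⟩
  have h := degreeOf_add_le w p q
  rw [hp.dg, hq.dg] at h
  simpa using h

theorem Gf.mul {p q : R V} (hp : Gf w p) (hq : Gf w q) : Gf w (p * q) := by
  refine ⟨fun v => by rw [Derivation.leibniz, hp.pd, hq.pd, smul_zero, smul_zero, add_zero], ?_,
    fun w' => by rw [map_mul, hp.sg, hq.sg]⟩
  have h := degreeOf_mul_le w p q
  rw [hp.dg, hq.dg] at h
  simpa using h

theorem Gf.prod {ι : Type} (s : Finset ι) (f : ι → R V) (h : ∀ i ∈ s, Gf w (f i)) :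
    Gf w (∏ i ∈ s, f i) := by
  classical
  induction s using Finset.induction_on with
  | empty => rw [prod_empty]; exact Gf.one
  | insert a s ha ih =>
    rw [prod_insert ha]
    exact (h a (mem_insert_self a s)).mul (ih fun i hi => h i (mem_insert_of_mem hi))

theorem pderiv_xx (u v : V) : pderiv v (xx u : R V) = 0 := by
  unfold xx
  rw [pow_two, Derivation.leibniz]
  have h : (2 : R V) = 0 := two_R
  rw [← two_mul, h, zero_mul]

theorem degreeOf_xx (u : V) : degreeOf w (xx u : R V) ≤ if u = w then 2 else 0 := by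
  unfold xx
  refine (degreeOf_pow_le w (X u) 2).trans ?_
  rw [degreeOf_X]
  by_cases h : u = w
  · rw [if_pos h, if_pos h.symm]
  · rw [if_neg h, if_neg (Ne.symm h)]

theorem sg_xx (w w' u : V) : sg w w' (xx u : R V) = xx (if u = w then w' else u) := by
  unfold sg xx
  rw [map_pow, rename_X]

theorem Gf.xx {u : V} (hu : u ≠ w) : Gf w (xx u : R V) := by
  refine ⟨fun v => pderiv_xx u v, ?_, fun w' => by rw [sg_xx, if_neg hu]⟩
  have h := degreeOf_xx (w := w) u
  rw [if_neg hu] at h
  exact Nat.le_zero.1 h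

/-- fractions of such polynomials -/
def Fr (w : V) (f : F V) : Prop :=
  ∃ p q : R V, Gf w p ∧ Gf w q ∧ q ≠ 0 ∧
    f * algebraMap (R V) (F V) q = algebraMap (R V) (F V) p

theorem Fr.zero : Fr w (0 : F V) := ⟨0, 1, Gf.zero, Gf.one, one_ne_zero, by simp⟩

theorem Fr.add {f g : F V} (hf : Fr w f) (hg : Fr w g) : Fr w (f + g) := by
  obtain ⟨p, q, h1, h2, h3, h4⟩ := hf
  obtain ⟨p', q', h1', h2', h3', h4'⟩ := hg
  refine ⟨p * q' + p' * q, q * q', (h1.mul h2').add (h1'.mul h2), h2.mul h2', mul_ne_zero h3 h3', ?_⟩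
  rw [map_mul, map_add, map_mul, map_mul, ← h4, ← h4']
  ring

theorem Fr.sum {ι : Type} (s : Finset ι) (f : ι → F V) (h : ∀ i ∈ s, Fr w (f i)) :
    Fr w (∑ i ∈ s, f i) := by
  classical
  induction s using Finset.induction_on with
  | empty => rw [sum_empty]; exact Fr.zero
  | insert a s ha ih =>
    rw [sum_insert ha]
    exact (h a (mem_insert_self a s)).add (ih fun i hi => h i (mem_insert_of_mem hi))

theorem xx_add_ne {u v : V} (h : u ≠ v) : (xx u + xx v : R V) ≠ 0 := by
  intro h1
  apply xF_add_ne h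
  unfold xF
  rw [← map_add, h1, map_zero]

theorem Fr.inv {u v : V} (huv : u ≠ v) (hu : u ≠ w) (hv : v ≠ w) :
    Fr w ((xF u + xF v : F V)⁻¹) := by
  refine ⟨1, xx u + xx v, Gf.one, (Gf.xx hu).add (Gf.xx hv), xx_add_ne huv, ?_⟩
  rw [map_add, map_one]
  exact inv_mul_cancel₀ (xF_add_ne huv)

variable [Fintype V]

theorem common (f : V → F V) (h : ∀ b, Fr w (f b)) : ∃ (D : R V) (y : V → R V), Gf w D ∧ D ≠ 0 ∧
    ∀ b, Gf w (y b) ∧ algebraMap (R V) (F V) (y b) = algebraMap (R V) (F V) D * f b := by
  choose p q h1 h2 h3 h4 using h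
  refine ⟨∏ b, q b, fun b => p b * ∏ c ∈ univ.erase b, q c, Gf.prod _ _ fun b _ => h2 b,
    prod_ne_zero_iff.2 fun b _ => h3 b, fun b => ⟨(h1 b).mul (Gf.prod _ _ fun c _ => h2 c), ?_⟩⟩
  rw [← mul_prod_erase univ q (mem_univ b), map_mul, map_mul, ← h4 b]
  ring

theorem not_supp {H : Gr V} (hw : w ∉ supp H) (v : V) : H w v = 0 := by
  by_contra h
  apply hw
  unfold supp nbr
  rw [mem_filter]
  exact ⟨mem_univ _, v, mem_filter.2 ⟨mem_univ _, h⟩⟩

theorem lapFr {H : Gr V} (hH : IsEv H) (hw : w ∉ supp H) (b j : V) : Fr w (Lap H b j) := by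
  have h1 : ∀ u v, H u v ≠ 0 → u ≠ w ∧ v ≠ w ∧ u ≠ v := by
    intro u v huv
    refine ⟨?_, ?_, ?_⟩
    · rintro rfl
      exact huv (not_supp hw v)
    · rintro rfl
      rw [hH.symm] at huv
      exact huv (not_supp hw u)
    · rintro rfl
      exact huv (hH.diag u)
  have h2 : ∀ u v, Fr w (if H u v = 0 then (0 : F V) else (xF u + xF v)⁻¹) := by
    intro u v
    split_ifs with h
    · exact Fr.zero
    · obtain ⟨a1, a2, a3⟩ := h1 u v h
      exact Fr.inv a3 a1 a2
  unfold Lap
  split_ifs with h3 h4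
  · exact Fr.sum _ _ fun z _ => h2 b z
  · exact Fr.zero
  · have := h2 b j
    rw [if_neg h4] at this
    exact this

/-! ### Specialisation of a row -/

theorem row_sp (A : Gr V) (hA : ∀ v, A v v = 0) {w w' : V} (hne : w ≠ w') (g : V → R V)
    (hg0 : sg w w' (g w) = sg w w' (g w')) (u : V) (huw : u ≠ w) (huw' : u ≠ w') :
    Sp w w' ((Lap A).mulVec (fun v => algebraMap (R V) (F V) (g v)) u)
      ((Lap (ctr w w' A)).mulVec (fun v => algebraMap (R V) (F V) (sg w w' (g v))) u) := by
  have hrw : rh w w' w = w' := if_pos rfl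
  have hrv : ∀ v, v ≠ w → rh w w' v = v := fun v hv => if_neg hv
  rw [Lap_mulVec, Lap_mulVec]
  obtain ⟨t, ht⟩ : ∃ t : V → F V, t = fun v => (xF u + xF v)⁻¹ *
    (algebraMap (R V) (F V) (sg w w' (g u)) + algebraMap (R V) (F V) (sg w w' (g v))) :=
    ⟨_, rfl⟩
  have h5 : Sp w w' (∑ v, kp (A u v) * ((xF u + xF v)⁻¹ *
      (algebraMap (R V) (F V) (g u) + algebraMap (R V) (F V) (g v))))
      (∑ v, kp (A u v) * t (rh w w' v)) := by
    refine Sp.sum _ fun v _ => Sp.kp _ fun hYv => ?_
    have h1 : u ≠ v := by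
      intro h
      rw [← h] at hYv
      exact hYv (hA u)
    have h2 : rh w w' u ≠ rh w w' v := by
      rw [hrv u huw]
      unfold rh
      split_ifs
      · exact huw'
      · exact h1
    have h3 := (((Sp.x w w' u).add (Sp.x w w' v)).inv (xF_add_ne h2)).mul
      ((Sp.of w w' (g u)).add (Sp.of w w' (g v)))
    rw [hrv u huw] at h3
    have e : t (rh w w' v) = (xF u + xF (rh w w' v))⁻¹ *
        (algebraMap (R V) (F V) (sg w w' (g u)) + algebraMap (R V) (F V) (sg w w' (g v))) := by
      rw [ht]
      simp only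
      by_cases hv : v = w
      · rw [hv, hrw, hg0]
      · rw [hrv v hv]
    rw [e]
    exact h3
  have e1 : ∀ v, kp (A u v) * t (rh w w' v) = kp (A u v) * t v +
      (if v = w then kp (A u w) * (t w + t w') else 0) := by
    intro v
    by_cases hv : v = w
    · rw [if_pos hv, hv, hrw]
      linear_combination -(kp (A u w) : F V) * add_self (t w)
    · rw [if_neg hv, hrv v hv, add_zero]
  have e2 : ∀ v, kp (ctr w w' A u v) * t v = kp (A u v) * t v +
      ((if v = w then kp (A u w) * t w else 0) + (if v = w' then kp (A u w) * t w' else 0)) := by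
    intro v
    by_cases hv : v = w
    · have e : ctr w w' A u v = 0 := by
        unfold ctr
        rw [if_pos (Or.inr (Or.inl hv))]
      rw [e, kp_zero, if_pos hv, if_neg (by rw [hv]; exact hne), hv]
      linear_combination -add_self (kp (A u w) * t w)
    · by_cases hv' : v = w'
      · have e : ctr w w' A u v = A u w' + A u w := by
          unfold ctr
          rw [if_neg (by
            rintro (h | h | h)
            · exact huw h
            · exact hv h
            · exact huw' (h.trans hv')), if_neg huw', if_pos hv']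
        rw [e, kp_add, if_neg hv, if_pos hv', hv']
        ring
      · have e : kp (ctr w w' A u v) = (kp (A u v) : F V) := by
          by_cases huv : u = v
          · rw [← huv, hA u]
            unfold ctr
            rw [if_pos (Or.inr (Or.inr rfl))]
          · unfold ctr
            rw [if_neg (by
              rintro (h | h | h)
              · exact huw h
              · exact hv h
              · exact huv h), if_neg huw', if_neg hv']
        rw [e, if_neg hv, if_neg hv']
        ring
  have e3 : ∀ v, (xF u + xF v)⁻¹ * (algebraMap (R V) (F V) (sg w w' (g u)) +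
      algebraMap (R V) (F V) (sg w w' (g v))) = t v := fun v => by rw [ht]
  have h6 : ∑ v, kp (ctr w w' A u v) * ((xF u + xF v)⁻¹ *
      (algebraMap (R V) (F V) (sg w w' (g u)) + algebraMap (R V) (F V) (sg w w' (g v)))) =
      ∑ v, kp (A u v) * t (rh w w' v) := by
    rw [Finset.sum_congr rfl fun v _ => by rw [e3 v, e2 v],
      Finset.sum_congr rfl fun v _ => e1 v, Finset.sum_add_distrib, Finset.sum_add_distrib,
      Finset.sum_add_distrib, Finset.sum_ite_eq', Finset.sum_ite_eq', Finset.sum_ite_eq',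
      if_pos (mem_univ _), if_pos (mem_univ _), if_pos (mem_univ _)]
    ring
  rw [h6]
  exact h5

/-! ### The polynomials `X_i` -/

/-- the `u`-th entry of `Lap A g`, multiplied by the product of the denominators -/
noncomputable def XX (A : Gr V) (g : V → R V) (u : V) : R V :=
  ∑ v ∈ nbr A u, (g u + g v) * ∏ z ∈ (nbr A u).erase v, (xx u + xx z)

/-- the product of the denominators -/
noncomputable def Pi' (A : Gr V) (u : V) : R V := ∏ z ∈ nbr A u, (xx u + xx z)

omit [DecidableEq V] in
theorem mem_nbr (A : Gr V) (u v : V) : u ∈ nbr A v ↔ A v u ≠ 0 := by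
  unfold nbr
  rw [mem_filter]
  exact ⟨fun h => h.2, fun h => ⟨mem_univ _, h⟩⟩

theorem Pi'_ne (A : Gr V) (hA : ∀ v, A v v = 0) (u : V) : Pi' A u ≠ 0 := by
  unfold Pi'
  rw [prod_ne_zero_iff]
  intro z hz
  apply xx_add_ne
  rintro rfl
  rw [mem_nbr] at hz
  exact hz (hA u)

theorem XX_eq (A : Gr V) (hA : ∀ v, A v v = 0) (g : V → R V) (u : V) :
    algebraMap (R V) (F V) (XX A g u) = algebraMap (R V) (F V) (Pi' A u) *
      (Lap A).mulVec (fun v => algebraMap (R V) (F V) (g v)) u := by
  have h1 : (Lap A).mulVec (fun v => algebraMap (R V) (F V) (g v)) u =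
      ∑ v ∈ nbr A u, ((xF u + xF v)⁻¹ *
        (algebraMap (R V) (F V) (g u) + algebraMap (R V) (F V) (g v))) := by
    rw [Lap_mulVec]
    unfold nbr
    rw [sum_filter]
    refine sum_congr rfl fun v _ => ?_
    unfold kp
    by_cases h : A u v = 0
    · rw [if_pos h, zero_mul, if_neg (not_not.2 h)]
    · rw [if_neg h, one_mul, if_pos h]
  rw [h1, XX, map_sum, mul_sum]
  refine sum_congr rfl fun v hv => ?_
  have huv : u ≠ v := by
    rintro rfl
    rw [mem_nbr] at hv
    exact hv (hA u)
  have h2 : (xF u + xF v : F V) ≠ 0 := xF_add_ne huv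
  have h3 : algebraMap (R V) (F V) (Pi' A u) = (xF u + xF v) *
      algebraMap (R V) (F V) (∏ z ∈ (nbr A u).erase v, (xx u + xx z)) := by
    unfold Pi'
    rw [← mul_prod_erase _ _ hv, map_mul, map_add]
    rfl
  rw [h3, map_mul, map_add]
  field_simp

theorem sg_XX0 (A : Gr V) (hA : ∀ v, A v v = 0) {w w' : V} (hne : w ≠ w') (g : V → R V)
    (hg0 : sg w w' (g w) = sg w w' (g w')) (u : V) (huw : u ≠ w) (huw' : u ≠ w')
    (h0 : (Lap (ctr w w' A)).mulVec (fun v => algebraMap (R V) (F V) (sg w w' (g v))) u = 0) :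
    sg w w' (XX A g u) = 0 := by
  have h := (Sp.of w w' (Pi' A u)).mul (row_sp A hA hne g hg0 u huw huw')
  rw [h0, mul_zero, ← XX_eq A hA] at h
  have h2 := (Sp.of w w' (XX A g u)).uniq h
  apply iota_inj
  rw [h2, map_zero]

theorem sg_XX1 (A : Gr V) {w w' : V} (hne : w ≠ w') (g : V → R V)
    (hg0 : sg w w' (g w) = sg w w' (g w')) (hw : w ∈ nbr A w') :
    sg w w' (XX A g w') = 0 := by
  unfold XX
  rw [map_sum]
  refine sum_eq_zero fun v _ => ?_
  rw [map_mul]
  by_cases h : v = w
  · subst h
    rw [map_add, hg0, ← two_mul, two_R, zero_mul, zero_mul]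
  · rw [map_prod, prod_eq_zero (mem_erase.2 ⟨Ne.symm h, hw⟩), mul_zero]
    rw [map_add, sg_xx, sg_xx, if_neg hne.symm, if_pos rfl, ← two_mul, two_R, zero_mul]

theorem pderiv_XX (A : Gr V) (g : V → R V) (hg : ∀ u v, pderiv v (g u) = 0) (u v : V) :
    pderiv v (XX A g u) = 0 := by
  have hp : ∀ s : Finset V, pderiv v (∏ z ∈ s, (xx u + xx z) : R V) = 0 := by
    intro s
    induction s using Finset.induction_on with
    | empty => rw [prod_empty]; exact pderiv_one
    | insert a s ha ih =>
      rw [prod_insert ha, Derivation.leibniz, ih, map_add, pderiv_xx, pderiv_xx]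
      simp
  unfold XX
  rw [map_sum]
  refine sum_eq_zero fun z _ => ?_
  rw [Derivation.leibniz, hp, map_add, hg, hg]
  simp

theorem degreeOf_prod_xx (s : Finset V) {w u : V} (hu : u ≠ w) :
    degreeOf w (∏ z ∈ s, (xx u + xx z) : R V) ≤ if w ∈ s then 2 else 0 := by
  refine (degreeOf_prod_le w s _).trans ?_
  have h1 : ∀ z ∈ s, degreeOf w (xx u + xx z : R V) ≤ if z = w then 2 else 0 := by
    intro z _
    refine (degreeOf_add_le w _ _).trans ?_
    have h2 := degreeOf_xx (w := w) u
    have h3 := degreeOf_xx (w := w) z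
    rw [if_neg hu] at h2
    exact max_le (h2.trans (Nat.zero_le _)) h3
  refine (sum_le_sum h1).trans ?_
  rw [sum_ite_eq']

theorem degreeOf_XX (A : Gr V) (g : V → R V) {w u : V} (hu : u ≠ w) (d : ℕ) (hd : 2 ≤ d)
    (hg : ∀ v, v ≠ w → degreeOf w (g v) ≤ d - 2) (hgw : degreeOf w (g w) ≤ d) :
    degreeOf w (XX A g u) ≤ if w ∈ nbr A u then d else d - 2 := by
  unfold XX
  refine (degreeOf_sum_le w _ _).trans ?_
  rw [Finset.sup_le_iff]
  intro v hv
  refine (degreeOf_mul_le w _ _).trans ?_
  have h1 := degreeOf_add_le w (g u) (g v)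
  have h2 := degreeOf_prod_xx ((nbr A u).erase v) hu
  have h3 := hg u hu
  by_cases hvw : v = w
  · subst hvw
    rw [if_neg (notMem_erase v _)] at h2
    rw [if_pos hv]
    have h4 : max (degreeOf v (g u)) (degreeOf v (g v)) ≤ d := max_le (by omega) hgw
    omega
  · have h4 : max (degreeOf w (g u)) (degreeOf w (g v)) ≤ d - 2 := max_le h3 (hg v hvw)
    by_cases hw : w ∈ nbr A u
    · rw [if_pos hw]
      rw [if_pos (mem_erase.2 ⟨Ne.symm hvw, hw⟩)] at h2
      omega
    · rw [if_neg hw]
      rw [if_neg (fun h => hw (mem_of_mem_erase h))] at h2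
      omega

/-! ### Linear algebra -/

theorem comb (hind : S_ind) (hbas : S_basis) (Y : Gr V) (hY : IsEv Y) (J : Finset V)
    (hJ : J.card = nu Y) (hP : PJ Y J ≠ 0) (v : V) :
    ∃ c : V → F V, (∀ u, u ∉ J → c u = 0) ∧ ∀ u, Lap Y u v = ∑ b, c b * Lap Y u b := by
  have h1 := (hind V Y J hY).1 hP
  have h2 := (hbas V Y hY).1
  have hle : Submodule.span (F V) ((fun j : V => (Lap Y).col j) '' (J : Set V)) ≤
      Submodule.span (F V) ((fun j : V => (Lap Y).col j) '' ((univ : Finset V) : Set V)) :=
    Submodule.span_mono (Set.image_mono (by intro x _; simp))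
  have heq := Submodule.eq_of_le_of_finrank_eq hle (by
    unfold nuC at h1 h2
    rw [h1, h2, hJ])
  have hv : (Lap Y).col v ∈
      Submodule.span (F V) ((fun j : V => (Lap Y).col j) '' (J : Set V)) := by
    rw [heq]
    exact Submodule.subset_span ⟨v, by simp, rfl⟩
  rw [Finsupp.mem_span_image_iff_linearCombination] at hv
  obtain ⟨l, hl, hlv⟩ := hv
  refine ⟨fun b => l b, fun u hu => ?_, fun u => ?_⟩
  · rw [Finsupp.mem_supported] at hl
    by_contra hc
    exact hu (hl (Finsupp.mem_support_iff.2 hc))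
  · have h3 := congrFun hlv u
    rw [Finsupp.linearCombination_apply, Finsupp.sum_fintype _ _ (fun i => by simp),
      Finset.sum_apply] at h3
    rw [show Lap Y u v = (Lap Y).col v u from rfl, ← h3]
    rfl

theorem lap_row_zero {H : Gr V} (hw : w ∉ supp H) (j : V) : Lap H w j = 0 := by
  unfold Lap
  split_ifs with h1 h2
  · refine sum_eq_zero fun z _ => ?_
    rw [if_pos (not_supp hw z)]
  · rfl
  · exact absurd (not_supp hw j) h2

theorem rest_eq (A : Gr V) (G : V → F V) (h1 : ∀ u v, Lap A u v = Lap A v u)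
    (h2 : (Lap A).mulVec (fun _ => 1) = 0) (w : V) (h : ∀ u, u ≠ w → (Lap A).mulVec G u = 0) :
    (Lap A).mulVec G = 0 := by
  have h3 : ∑ u, (Lap A).mulVec G u = 0 := by
    have e : ∀ u, (Lap A).mulVec G u = ∑ v, Lap A u v * G v := fun _ => rfl
    simp only [e]
    rw [sum_comm]
    refine sum_eq_zero fun v _ => ?_
    rw [← sum_mul]
    have h4 : ∑ u, Lap A u v = 0 := by
      have h5 : ∑ u, Lap A v u * 1 = 0 := congrFun h2 v
      rw [← h5]
      refine sum_congr rfl fun u _ => ?_
      rw [mul_one, h1]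
    rw [h4, zero_mul]
  funext u
  by_cases hu : u = w
  · subst hu
    rw [Finset.sum_eq_single u (fun v _ hv => h v hv) (fun h => absurd (mem_univ u) h)] at h3
    exact h3
  · exact h u hu

end

end Aux_gil

open Aux_spec Aux_gil in
theorem p_gil : S_dd → S_sol → S_spec → S_oiff → S_tcons → S_cnt → S_deg → S_interp → S_ind →
    S_basis → S_add → S_ctr → S_ctrnu → S_ctrt → S_zero → S_gil := by
  intro hdd hsol hspec hoiff htcons hcnt hdeg hint hind hbas hadd hctr hctrnu hctrt hzero
  intro V _ _ Y H₁ H₂ w J hY hT₁ hT₂ hw hwJ hJ hP hO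
  have hH₁ := hT₁.1
  have hH₂ := hT₂.1
  have hsy : ∀ A : Gr V, IsEv A → ∀ u v, Lap A u v = Lap A v u := fun A hA u v =>
    ((hadd V A A).2.2.2.1 hA).apply v u
  have core : ∀ j : V, ∃ (g : V → F V) (q : F V), q ≠ 0 ∧
      (∀ u, (Lap Y).mulVec g u = q * Lap H₂ u j) ∧ (Lap H₁).mulVec g = 0 := by
    intro j
    obtain ⟨D, y, hD, hD0, hy⟩ := common (fun b => Lap H₂ b j) (fun b => lapFr hH₂ hw b j)
    have hyw : y w = 0 := by
      apply iota_inj
      rw [(hy w).2, lap_row_zero hw, mul_zero, map_zero]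
    obtain ⟨gK, hgK⟩ : ∃ gK : V → V → R V, gK = fun b u => evp (X u * PJ Y (J.erase b) +
      if u ∈ J.erase b then PJ Y ((J.erase b).erase u) else 0) := ⟨_, rfl⟩
    obtain ⟨g, hg⟩ : ∃ g : V → R V, g = fun u => ∑ b ∈ J, y b * gK b u := ⟨_, rfl⟩
    have hLg0 : ∀ v, (Lap Y).mulVec (fun u => algebraMap (R V) (F V) (g u)) v =
        ∑ b ∈ J, algebraMap (R V) (F V) (y b) *
          algebraMap (R V) (F V) (evp (pderiv v (PJ Y (J.erase b)))) := by
      intro v
      have h1 : ∀ b, ∑ u, Lap Y v u * algebraMap (R V) (F V) (gK b u) =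
          algebraMap (R V) (F V) (evp (pderiv v (PJ Y (J.erase b)))) := by
        intro b
        rw [hgK]
        exact congrFun (hsol V Y (J.erase b) hY) v
      have h2 : (Lap Y).mulVec (fun u => algebraMap (R V) (F V) (g u)) v =
          ∑ u, Lap Y v u * algebraMap (R V) (F V) (g u) := rfl
      rw [h2, hg]
      simp only [map_sum, map_mul, mul_sum]
      rw [sum_comm]
      refine sum_congr rfl fun b _ => ?_
      rw [← h1 b, mul_sum]
      refine sum_congr rfl fun u _ => ?_
      ring
    have hconst : ∀ v, pderiv v (PJ Y J) = 0 := fun v =>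
      (hbas V Y hY).2.2.2.2.2.1 univ J (subset_univ _) (hJ.trans (hbas V Y hY).1.symm) v
        (mem_univ v)
    have hLgJ : ∀ v ∈ J, (Lap Y).mulVec (fun u => algebraMap (R V) (F V) (g u)) v =
        algebraMap (R V) (F V) (PJ Y J) * algebraMap (R V) (F V) (y v) := by
      intro v hv
      rw [hLg0, sum_eq_single v]
      · have h1 := (hdd V).2.1 (J.erase v) v (PP Y) (notMem_erase v J)
        rw [insert_erase hv] at h1
        have h2 : pderiv v (PJ Y (J.erase v)) = PJ Y J := h1.symm
        rw [h2, evp_const _ hconst, mul_comm]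
      · intro b _ hb
        have h1 := (hdd V).2.2.2.1 (J.erase b) v (PP Y) (mem_erase.2 ⟨Ne.symm hb, hv⟩)
        have h2 : pderiv v (PJ Y (J.erase b)) = 0 := h1
        rw [h2, Aux_sol.evp_zero, map_zero, mul_zero]
      · intro h
        exact absurd hv h
    have hLg : ∀ v, (Lap Y).mulVec (fun u => algebraMap (R V) (F V) (g u)) v =
        algebraMap (R V) (F V) (PJ Y J * y v) := by
      intro v
      obtain ⟨c, hc0, hc⟩ := comb hind hbas Y hY J hJ hP v
      have hsum : ∀ A : Gr V, ∀ u, (Lap A).mulVec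
          (fun b => (if b = v then (1 : F V) else 0) - c b) u =
          Lap A u v - ∑ b, c b * Lap A u b := by
        intro A u
        have h1 : (Lap A).mulVec (fun b => (if b = v then (1 : F V) else 0) - c b) u =
          ∑ b, Lap A u b * ((if b = v then (1 : F V) else 0) - c b) := rfl
        rw [h1]
        simp only [mul_sub, sum_sub_distrib, mul_ite, mul_one, mul_zero, sum_ite_eq', mem_univ,
          if_true]
        congr 1
        exact sum_congr rfl fun b _ => mul_comm _ _
      have hk : (Lap Y).mulVec (fun b => (if b = v then (1 : F V) else 0) - c b) = 0 := by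
        funext u
        rw [hsum, ← hc u, sub_self]
        rfl
      have hk2 := (htcons V Y H₂ hY hT₂).1 _ hk
      have hc2 : ∀ u, Lap H₂ u v = ∑ b, c b * Lap H₂ u b := by
        intro u
        have h := congrFun hk2 u
        rw [hsum] at h
        exact sub_eq_zero.1 h
      have e1 : (Lap Y).mulVec (fun u => algebraMap (R V) (F V) (g u)) v =
          ∑ b, c b * (Lap Y).mulVec (fun u => algebraMap (R V) (F V) (g u)) b := by
        have e : ∀ b, (Lap Y).mulVec (fun u => algebraMap (R V) (F V) (g u)) b =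
          ∑ u, Lap Y b u * algebraMap (R V) (F V) (g u) := fun _ => rfl
        simp only [e, mul_sum]
        rw [sum_comm]
        refine sum_congr rfl fun u _ => ?_
        rw [hsy Y hY v u, hc u, sum_mul]
        refine sum_congr rfl fun b _ => ?_
        rw [hsy Y hY u b]
        ring
      have e2 : algebraMap (R V) (F V) (y v) = ∑ b, c b * algebraMap (R V) (F V) (y b) := by
        rw [(hy v).2, hsy H₂ hH₂ v j, hc2 j, mul_sum]
        refine sum_congr rfl fun b _ => ?_
        rw [(hy b).2, hsy H₂ hH₂ b j]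
        ring
      rw [map_mul, e1, e2, mul_sum]
      refine sum_congr rfl fun b _ => ?_
      by_cases hb : b ∈ J
      · rw [hLgJ b hb]
        ring
      · rw [hc0 b hb]
        ring
    -- degrees
    obtain ⟨d, hd⟩ : ∃ d, d = (nbr Y w).card := ⟨_, rfl⟩
    have hZ := hcnt V Y J w hY hwJ hP ((nbr Y w).filter (fun w' => sg w w' (PJ Y J) = 0))
      (filter_subset _ _) (fun w' h => (mem_filter.1 h).2)
    have hcard : ((nbr Y w).filter (fun w' => sg w w' (PJ Y J) = 0)).card +
        ((nbr Y w).filter (fun w' => ¬ sg w w' (PJ Y J) = 0)).card = d := by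
      rw [hd]
      exact card_filter_add_card_filter_not _
    rw [← hd] at hZ
    obtain ⟨Z, hZd⟩ : ∃ Z, Z = (nbr Y w).filter (fun w' => ¬ sg w w' (PJ Y J) = 0) := ⟨_, rfl⟩
    rw [← hZd] at hcard
    have hd2 : 2 ≤ d := by omega
    have hdK : ∀ K : Finset V, w ∈ K → degreeOf w (PJ Y K) ≤ d - 2 := by
      intro K hK
      by_cases h : PJ Y K = 0
      · rw [h, degreeOf_zero]
        exact Nat.zero_le _
      · have h1 := (hdeg V Y K w hY).2 hK h
        rw [← hd] at h1
        omega
    have hgKd : ∀ b, b ∈ J → b ≠ w → ∀ u, degreeOf w (gK b u) ≤ if u = w then d else d - 2 := by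
      intro b hb hbw u
      have hwK : w ∈ J.erase b := mem_erase.2 ⟨Ne.symm hbw, hwJ⟩
      have h1 := hdK _ hwK
      rw [hgK]
      refine (degreeOf_evp _ w).trans ((degreeOf_add_le w _ _).trans ?_)
      have h2 := degreeOf_mul_le w (X u) (PJ Y (J.erase b))
      rw [degreeOf_X] at h2
      by_cases hu : u = w
      · rw [if_pos hu]
        rw [if_pos hu.symm] at h2
        refine max_le (by omega) ?_
        split_ifs
        · have h3 := (hdeg V Y ((J.erase b).erase u) w hY).1
          rw [← hd] at h3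
          exact h3
        · rw [degreeOf_zero]
          exact Nat.zero_le _
      · rw [if_neg hu]
        rw [if_neg (Ne.symm hu)] at h2
        refine max_le (by omega) ?_
        split_ifs
        · exact hdK _ (mem_erase.2 ⟨Ne.symm hu, hwK⟩)
        · rw [degreeOf_zero]
          exact Nat.zero_le _
    have hgd : ∀ u, degreeOf w (g u) ≤ if u = w then d else d - 2 := by
      intro u
      rw [hg]
      refine (degreeOf_sum_le w _ _).trans ?_
      rw [Finset.sup_le_iff]
      intro b hb
      by_cases hbw : b = w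
      · rw [hbw, hyw, zero_mul, degreeOf_zero]
        exact Nat.zero_le _
      · refine (degreeOf_mul_le w _ _).trans ?_
        rw [(hy b).1.dg, zero_add]
        exact hgKd b hb hbw u
    have hgc : ∀ u v, pderiv v (g u) = 0 := by
      intro u v
      rw [hg]
      simp only [map_sum]
      refine sum_eq_zero fun b _ => ?_
      rw [Derivation.leibniz, (hy b).1.pd, hgK, pderiv_evp, smul_zero, smul_zero, add_zero]
    -- zeros
    have hzer : ∀ w' ∈ Z, w ≠ w' ∧ sg w w' (g w) = sg w w' (g w') ∧
        ∀ u, (Lap (ctr w w' H₁)).mulVec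
          (fun v => algebraMap (R V) (F V) (sg w w' (g v))) u = 0 := by
      intro w' hw'
      rw [hZd, mem_filter] at hw'
      obtain ⟨hmem, hs⟩ := hw'
      have hww' : Y w w' ≠ 0 := (mem_nbr Y w' w).1 hmem
      have hne : w ≠ w' := by
        rintro rfl
        exact hww' (hY.diag w)
      obtain ⟨hg0, hsys⟩ := hspec V Y w w' g (fun u => PJ Y J * y u) hY hww' (funext hLg)
      have hgood := (hctrnu V Y w w' hY hne).2.2.2.2.1 J hwJ hww' hJ hs
      have t1 := (hctrt V Y H₁ w w' hY hT₁ hgood).1
      have t2 := (hctrt V Y H₂ w w' hY hT₂ hgood).1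
      have hev := (hctr V Y Y w w' hne hY hY).1
      have hor := (hoiff V (ctr w w' Y) (ctr w w' H₁) (ctr w w' H₂) hev t1 t2).1 (hO w' hmem hs)
      have hH2 : ctr w w' H₂ = H₂ := (hctr V H₂ H₂ w w' hne hH₂ hH₂).2.2.1 hw
      have h1 := hor (fun v => algebraMap (R V) (F V) (sg w w' (g v)))
        (fun v => if v = j then algebraMap (R V) (F V) (sg w w' (PJ Y J)) *
          algebraMap (R V) (F V) D else 0) (by
          rw [hsys, hH2]
          funext u
          have h2 : (Lap H₂).mulVec (fun v => if v = j then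
              algebraMap (R V) (F V) (sg w w' (PJ Y J)) * algebraMap (R V) (F V) D else 0) u =
              Lap H₂ u j * (algebraMap (R V) (F V) (sg w w' (PJ Y J)) *
                algebraMap (R V) (F V) D) := by
            have h3 : (Lap H₂).mulVec (fun v => if v = j then
              algebraMap (R V) (F V) (sg w w' (PJ Y J)) * algebraMap (R V) (F V) D else 0) u =
              ∑ v, Lap H₂ u v * (if v = j then
              algebraMap (R V) (F V) (sg w w' (PJ Y J)) * algebraMap (R V) (F V) D else 0) := rfl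
            rw [h3]
            simp
          rw [h2]
          have h4 : ∀ u, algebraMap (R V) (F V) (sg w w' (PJ Y J * y u)) =
              Lap H₂ u j * (algebraMap (R V) (F V) (sg w w' (PJ Y J)) *
                algebraMap (R V) (F V) D) := by
            intro u
            rw [map_mul, (hy u).1.sg, map_mul, (hy u).2]
            ring
          by_cases hu : u = w
          · rw [if_pos hu, map_zero, hu, lap_row_zero hw, zero_mul]
          · by_cases hu' : u = w'
            · rw [if_neg hu, if_pos hu', hyw, mul_zero, zero_add, hu', h4]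
            · rw [if_neg hu, if_neg hu', h4])
      exact ⟨hne, hg0, fun u => congrFun h1 u⟩
    -- the rows
    have hrow : ∀ u, u ≠ w →
        (Lap H₁).mulVec (fun v => algebraMap (R V) (F V) (g v)) u = 0 := by
      intro u hu
      have hdX := degreeOf_XX H₁ g hu d hd2
        (fun v hv => by have := hgd v; rw [if_neg hv] at this; exact this)
        (by have := hgd w; rw [if_pos rfl] at this; exact this)
      have hwZ : w ∉ Z := by
        intro h
        exact (hzer w h).1 rfl
      have hX : XX H₁ g u = 0 := by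
        by_cases hwu : w ∈ nbr H₁ u
        · rw [if_pos hwu] at hdX
          refine hint V w Z ((d + 1) / 2) (XX H₁ g u) (pderiv_XX H₁ g hgc u w) (by omega) hwZ ?_
            (by omega)
          intro w' hw'
          obtain ⟨hne, hg0, hz⟩ := hzer w' hw'
          by_cases huw' : u = w'
          · subst huw'
            exact sg_XX1 H₁ hne g hg0 hwu
          · exact sg_XX0 H₁ hH₁.diag hne g hg0 u hu huw' (hz u)
        · rw [if_neg hwu] at hdX
          have hc1 : Z.card - 1 ≤ (Z.erase u).card := pred_card_le_card_erase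
          refine hint V w (Z.erase u) ((d - 1) / 2) (XX H₁ g u) (pderiv_XX H₁ g hgc u w)
            (by omega) (fun h => hwZ (mem_of_mem_erase h)) ?_ (by omega)
          intro w' hw'
          obtain ⟨huw', hw'Z⟩ := mem_erase.1 hw'
          obtain ⟨hne, hg0, hz⟩ := hzer w' hw'Z
          exact sg_XX0 H₁ hH₁.diag hne g hg0 u hu (Ne.symm huw') (hz u)
      have h1 := XX_eq H₁ hH₁.diag g u
      rw [hX, map_zero] at h1
      rcases mul_eq_zero.1 h1.symm with h2 | h2
      · exact absurd h2 (iota_ne (Pi'_ne H₁ hH₁.diag u))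
      · exact h2
    refine ⟨fun v => algebraMap (R V) (F V) (g v),
      algebraMap (R V) (F V) (PJ Y J) * algebraMap (R V) (F V) D,
      mul_ne_zero (iota_ne hP) (iota_ne hD0), fun u => ?_, ?_⟩
    · rw [hLg, map_mul, (hy u).2]
      ring
    · exact rest_eq H₁ _ (hsy H₁ hH₁) (hzero V H₁ hH₁).2.2.1 w hrow
  rw [hoiff V Y H₁ H₂ hY hT₁ hT₂]
  intro g h hgh
  choose G q hq hG1 hG2 using core
  have e : (Lap Y).mulVec (fun u => g u - ∑ j, (h j * (q j)⁻¹) * G j u) = 0 := by
    funext u
    have e1 : (Lap Y).mulVec (fun u => g u - ∑ j, (h j * (q j)⁻¹) * G j u) u =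
        (Lap Y).mulVec g u - ∑ j, (h j * (q j)⁻¹) * (Lap Y).mulVec (G j) u := by
      have e2 : ∀ f : V → F V, (Lap Y).mulVec f u = ∑ v, Lap Y u v * f v := fun _ => rfl
      simp only [e2, mul_sub, sum_sub_distrib, mul_sum]
      congr 1
      rw [sum_comm]
      refine sum_congr rfl fun j _ => sum_congr rfl fun v _ => ?_
      ring
    rw [e1, hgh]
    have e3 : (Lap H₂).mulVec h u = ∑ j, Lap H₂ u j * h j := rfl
    rw [e3, ← sum_sub_distrib]
    show _ = (0 : F V)
    refine sum_eq_zero fun j _ => ?_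
    rw [hG1 j u]
    have := hq j
    field_simp
    ring
  have e2 := (htcons V Y H₁ hY hT₁).1 _ e
  funext u
  have e3 := congrFun e2 u
  have e1 : (Lap H₁).mulVec (fun u => g u - ∑ j, (h j * (q j)⁻¹) * G j u) u =
      (Lap H₁).mulVec g u - ∑ j, (h j * (q j)⁻¹) * (Lap H₁).mulVec (G j) u := by
    have e2 : ∀ f : V → F V, (Lap H₁).mulVec f u = ∑ v, Lap H₁ u v * f v := fun _ => rfl
    simp only [e2, mul_sub, sum_sub_distrib, mul_sum]
    congr 1
    rw [sum_comm]
    refine sum_congr rfl fun j _ => sum_congr rfl fun v _ => ?_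
    ring
  rw [e1] at e3
  have e4 : ∑ j, (h j * (q j)⁻¹) * (Lap H₁).mulVec (G j) u = 0 := by
    refine sum_eq_zero fun j _ => ?_
    rw [hG2 j]
    simp
  rw [e4, sub_zero] at e3
  exact e3

end Pool.Agent.W390.SD
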