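import Pool.Agent.W390.SD.Stm2

/-!
# Project SD, part E3: `P_J` independent of all `x_u`, `u ∈ J`, is up to constants `PP H`
-/

set_option autoImplicit false

namespace Pool.Agent.W390.SD

open MvPolynomial Finset

namespace Aux_hex

theorem pderiv_const_mul {V : Type} (p : V) {c : R V} (hc : pderiv p c = 0) (f : R V) :
    pderiv p (c * f) = c * pderiv p f := by
  rw [Derivation.leibniz, hc, smul_zero, add_zero, smul_eq_mul]

theorem pderiv_mul_zero {V : Type} {p : V} {c d : R V} (hc : pderiv p c = 0)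
    (hd : pderiv p d = 0) : pderiv p (c * d) = 0 := by
  rw [pderiv_const_mul p hc, hd, mul_zero]

theorem pderiv_sq {V : Type} (p : V) (f : R V) : pderiv p (f ^ 2) = 0 := by
  rw [pow_two, Derivation.leibniz, ← two_smul (ZMod 2)]
  have : (2 : ZMod 2) = 0 := by decide
  rw [this, zero_smul]

theorem io_inj {V : Type} : Function.Injective (io : R V →ₐ[ZMod 2] R (Option V)) :=
  rename_injective _ (Option.some_injective V)

theorem ta_inj {V : Type} [DecidableEq V] (u : V) :
    Function.Injective (ta u : R V →ₐ[ZMod 2] R (Option V)) := by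
  apply rename_injective
  intro a b h
  by_cases ha : a = u
  · by_cases hb : b = u
    · rw [ha, hb]
    · simp [ha, hb] at h
  · by_cases hb : b = u
    · simp [ha, hb] at h
    · simpa [ha, hb] using h

/-- multiplication by a constant -/
theorem indep_mul {V : Type} [DecidableEq V] {u : V} {c Q : R V} (hc : ∀ p, pderiv p c = 0)
    (h : IndepOf u Q) : IndepOf u (c * Q) := by
  intro p
  rw [pderiv_const_mul p (hc p)]
  simp only [map_mul]
  have h1 := h p
  calc io c * io Q * (ta u c * ta u (pderiv p Q)) + ta u c * ta u Q * (io c * io (pderiv p Q))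
      = (io c * ta u c) * (io Q * ta u (pderiv p Q) + ta u Q * io (pderiv p Q)) := by ring
    _ = 0 := by rw [h1, mul_zero]

/-- division by a nonzero constant -/
theorem indep_of_mul {V : Type} [DecidableEq V] {u : V} {c Q : R V} (hc : ∀ p, pderiv p c = 0)
    (hc0 : c ≠ 0) (h : IndepOf u (c * Q)) : IndepOf u Q := by
  intro p
  have h1 := h p
  rw [pderiv_const_mul p (hc p)] at h1
  simp only [map_mul] at h1
  have h2 : (io c * ta u c) * (io Q * ta u (pderiv p Q) + ta u Q * io (pderiv p Q)) = 0 := by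
    rw [← h1]; ring
  rcases mul_eq_zero.1 h2 with h3 | h3
  · exfalso
    rcases mul_eq_zero.1 h3 with h4 | h4
    · exact hc0 (io_inj (by rw [h4, map_zero]))
    · exact hc0 (ta_inj u (by rw [h4, map_zero]))
  · exact h3

theorem main (hdd : S_dd) (hcnt : S_cnt) (hedge : S_ctr_edge) (hctr : S_ctr) (hconst : S_const)
    (V : Type) [Fintype V] [DecidableEq V] (n : ℕ) :
    ∀ (G : Gr V) (J : Finset V), J.card = n → IsEv G →
    PJ G J ≠ 0 → (∀ u ∈ J, IndepOf u (PJ G J)) →
    ∃ H : Gr V, IsEv H ∧ supp H ⊆ supp G ∧ Disjoint (supp H) J ∧ ∃ c₁ c₂ : R V, c₁ ≠ 0 ∧ c₂ ≠ 0 ∧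
      (∀ p, pderiv p c₁ = 0) ∧ (∀ p, pderiv p c₂ = 0) ∧ c₁ * PJ G J = c₂ * PP H := by
  induction n with
  | zero =>
    intro G J hJ hG _ _
    have hJ0 : J = ∅ := card_eq_zero.1 hJ
    subst hJ0
    refine ⟨G, hG, Finset.Subset.refl _, by simp, 1, 1, one_ne_zero, one_ne_zero, ?_, ?_, ?_⟩
    · intro p; exact Derivation.map_one_eq_zero _
    · intro p; exact Derivation.map_one_eq_zero _
    · unfold PJ
      rw [(hdd V).1]
  | succ n ih =>
    intro G J hJ hG hP hI
    obtain ⟨u, hu⟩ : J.Nonempty := card_pos.1 (by omega)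
    -- a neighbour which is not a zero
    obtain ⟨w', hw', hs⟩ : ∃ w' ∈ nbr G u, sg u w' (PJ G J) ≠ 0 := by
      by_contra hcon
      push Not at hcon
      have := hcnt V G J u hG hu hP (nbr G u) (Finset.Subset.refl _) hcon
      omega
    have hGuw : G u w' ≠ 0 := by
      simpa [nbr] using hw'
    have huw : u ≠ w' := by
      rintro rfl
      exact hGuw (hG.diag u)
    have hw's : w' ∈ supp G := by
      simp only [supp, mem_filter, mem_univ, true_and]
      refine ⟨u, ?_⟩
      simp only [nbr, mem_filter, mem_univ, true_and]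
      rw [hG.symm]; exact hGuw
    set Q := PJ G J with hQ
    set Q₁ := PJ (ctr u w' G) (J.erase u) with hQ₁
    set q : R V := ∏ v ∈ nbr G u ∩ nbr G w', (X v + X w') with hq
    have hsQ : sg u w' Q = q ^ 2 * Q₁ := hedge V G J u w' hG hGuw hu
    have hu0 : pderiv u Q = 0 := (hdd V).2.2.2.1 J u (PP G) hu
    have hcc : ∀ p, pderiv p (Q * sg u w' Q) = 0 := hconst V Q u w' huw.symm hu0 (hI u hu)
    set c := Q * sg u w' Q with hc
    have hc0 : c ≠ 0 := mul_ne_zero hP hs
    have hQ₁0 : Q₁ ≠ 0 := by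
      intro h
      rw [hsQ, h, mul_zero] at hs
      exact hs rfl
    have hq0 : q ^ 2 ≠ 0 := by
      intro h
      rw [hsQ, h, zero_mul] at hs
      exact hs rfl
    set k : R V := Q₁ ^ 2 * q ^ 2 with hk
    have hk0 : k ≠ 0 := mul_ne_zero (pow_ne_zero _ hQ₁0) hq0
    have hkc : ∀ p, pderiv p k = 0 := fun p => pderiv_mul_zero (pderiv_sq p Q₁) (pderiv_sq p q)
    have hrel : k * Q = c * Q₁ := by
      rw [hc, hsQ, hk]; ring
    obtain ⟨hev, -, -, hnotu, -, hsub, -⟩ := hctr V G G u w' huw hG hG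
    have hI' : ∀ v ∈ J.erase u, IndepOf v Q₁ := by
      intro v hv
      have h1 : IndepOf v (c * Q₁) := by
        rw [← hrel]
        exact indep_mul hkc (hI v (mem_of_mem_erase hv))
      exact indep_of_mul hcc hc0 h1
    obtain ⟨H, hH, hHs, hHd, c₁, c₂, hc₁, hc₂, hd₁, hd₂, hH2⟩ :=
      ih (ctr u w' G) (J.erase u) (by rw [card_erase_of_mem hu, hJ]; rfl) hev hQ₁0 hI'
    refine ⟨H, hH, ?_, ?_, c₁ * k, c * c₂, mul_ne_zero hc₁ hk0, mul_ne_zero hc0 hc₂, ?_, ?_, ?_⟩
    · exact hHs.trans ((hsub hw's).trans (erase_subset _ _))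
    · rw [← insert_erase hu, disjoint_insert_right]
      exact ⟨fun h => hnotu (hHs h), hHd⟩
    · intro p; exact pderiv_mul_zero (hd₁ p) (hkc p)
    · intro p; exact pderiv_mul_zero (hcc p) (hd₂ p)
    · calc c₁ * k * Q = c₁ * (k * Q) := by ring
        _ = c * (c₁ * Q₁) := by rw [hrel]; ring
        _ = c * c₂ * PP H := by rw [hH2]; ring

end Aux_hex

theorem p_hex : S_dd → S_ddsg → S_cnt → S_deg → S_ctr_edge → S_ctr → S_const → S_hex := by
  intro hdd _ hcnt _ hedge hctr hconst V _ _ G J hG hP hI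
  obtain ⟨H, hH, -, hHd, h⟩ := Aux_hex.main hdd hcnt hedge hctr hconst V J.card G J rfl hG hP hI
  exact ⟨H, hH, hHd, h⟩

end Pool.Agent.W390.SD
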