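import Pool.Agent.W390.SD.Stm3

set_option autoImplicit false

namespace Pool.Agent.W390.SD

open MvPolynomial Finset

namespace Aux_iia

theorem even_nbr {V : Type} [Fintype V] [DecidableEq V] {A : Gr V} (hA : IsEv A) (v : V) :
    Even (nbr A v).card := by
  have h := hA.even v
  have h1 : ∀ u, A v u = if A v u ≠ 0 then 1 else 0 := by
    intro u
    have : ∀ x : ZMod 2, x = if x ≠ 0 then 1 else 0 := by decide
    exact this _
  rw [Finset.sum_congr rfl (fun u _ => h1 u)] at h
  rw [Finset.sum_boole] at h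
  have h2 : ((nbr A v).card : ZMod 2) = 0 := h
  rw [ZMod.natCast_eq_zero_iff] at h2
  exact even_iff_two_dvd.2 h2

theorem mem_nbr {V : Type} [Fintype V] {A : Gr V} {v u : V} : u ∈ nbr A v ↔ A v u ≠ 0 := by
  simp [nbr]

theorem mem_supp_of {V : Type} [Fintype V] {A : Gr V} {v u : V} (h : A v u ≠ 0) :
    v ∈ supp A := by
  unfold supp
  rw [Finset.mem_filter]
  exact ⟨Finset.mem_univ _, u, mem_nbr.2 h⟩

theorem mem_supp_of' {V : Type} [Fintype V] {A : Gr V} (hA : IsEv A) {v u : V} (h : A v u ≠ 0) :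
    u ∈ supp A := mem_supp_of (v := u) (u := v) (by rw [hA.symm]; exact h)

theorem xx_add_ne {V : Type} [DecidableEq V] {b b' : V} (h : b ≠ b') :
    (xx b + xx b' : R V) ≠ 0 := by
  intro h0
  have h1 := congrArg (MvPolynomial.aeval (R := ZMod 2) (fun v => if v = b then (1 : ZMod 2) else 0)) h0
  simp [xx, h.symm] at h1

theorem SDn_mono {V : Type} [Fintype V] [DecidableEq V] {n m : ℕ} (h : SDn V n) (hm : m ≤ n) :
    SDn V m := fun G hG hc => h G hG (hc.trans hm)

theorem UQn_mono {V : Type} [Fintype V] [DecidableEq V] {n m : ℕ} (h : UQn V n) (hm : m ≤ n) :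
    UQn V m := fun Y T₁ T₂ hY hc => h Y T₁ T₂ hY (hc.trans hm)

end Aux_iia

open Aux_iia in
theorem p_iia : S_add → S_basis → S_rk → S_rkm → S_zero → S_tcons → S_interp → S_cnt → S_ctr →
    S_ctrnu → S_ctrt → S_unif → S_unifrk → S_degbd → S_zeros → S_FL2 → S_lift → S_nbr →
    S_TLline → S_sp2 → S_sp3 → S_iia := by
  intro _ _ _ hrkm hzero htcons hinterp _ hctr hctrnu hctrt hunif hunifrk hdegbd hzeros hFL2 hlift
    hnbr hTLline hsp2 hsp3 V _ _ n G T b b' hSD hUQ hG hcard hr hgood hT hTt hb'T hrk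
  have hGe : IsEv G := hG.1
  have hTe : IsEv T := hT.1
  have hGbb : G b b' ≠ 0 := hgood.1
  have hbb : b ≠ b' := by
    rintro rfl
    exact hGbb (hGe.diag b)
  have hU : Unif G := hunif V G hG
  have hcr := hctr V G G b b' hbb hGe hGe
  obtain ⟨hYe, -, -, hbY, -, hsY, -⟩ := hcr
  set Y := ctr b b' G with hYdef
  have hbG : b ∈ supp G := mem_supp_of hGbb
  have hb'G : b' ∈ supp G := mem_supp_of' hGe hGbb
  have hsY' : supp Y ⊆ (supp G).erase b := hsY hb'G
  have hTY : supp T ⊆ supp Y := (htcons V Y T hYe hTt).2.1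
  have hbT : b ∉ supp T := fun h => hbY (hTY h)
  have hTG : supp T ⊆ supp G := fun x hx => Finset.mem_of_mem_erase (hsY' (hTY hx))
  have hnG : nu G + 4 = (supp G).card := by omega
  have hnuY : nu Y + 1 = nu G := hgood.2
  -- two points of the support of `T`
  have hTcard : 2 ≤ (supp T).card := by
    have := (hzero V T hTe).2.1 hT.2.1
    omega
  obtain ⟨p, hp, q, hq, hpq⟩ : ∃ p ∈ supp T, ∃ q ∈ supp T, p ≠ q := by
    have := Finset.one_lt_card.1 (show 1 < (supp T).card by omega)
    exact this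
  have hpb : p ≠ b := fun h => hbT (h ▸ hp)
  have hqb : q ≠ b := fun h => hbT (h ▸ hq)
  have hpb' : p ≠ b' := fun h => hb'T (h ▸ hp)
  have hqb' : q ≠ b' := fun h => hb'T (h ▸ hq)
  obtain ⟨c, hSP, hc0, hcd, hcdeg⟩ := hsp3 V G b b' p q hU hnG hgood (hTG hp) (hTG hq) hpq hpb hpb'
    hqb hqb'
  set J := (((supp G).erase b).erase b').erase p |>.erase q with hJ
  -- the vertex `w`
  have hrkmY := hrkm V Y Y hYe hYe
  have h4 : rk Y ((supp G).erase b) = 4 := by
    have h1 := hrkmY.2.2.2.2.2.1 ((supp G).erase b) hsY'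
    rw [Finset.card_erase_of_mem hbG] at h1
    omega
  obtain ⟨w, hwG, hwb, hwb', hwT⟩ : ∃ w, w ∈ supp G ∧ w ≠ b ∧ w ≠ b' ∧ w ∉ supp T := by
    by_contra hcon
    push Not at hcon
    have hsub : (supp G).erase b ⊆ insert b' (supp T) := by
      intro x hx
      rw [Finset.mem_insert]
      by_contra hx2
      push Not at hx2
      exact hx2.2 (hcon x (Finset.mem_of_mem_erase hx) (Finset.ne_of_mem_erase hx) hx2.1)
    have := hrkmY.2.1 _ _ hsub
    omega
  have hwp : w ≠ p := fun h => hwT (h ▸ hp)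
  have hwq : w ≠ q := fun h => hwT (h ▸ hq)
  have hwJ : w ∈ J := by
    simp only [hJ, Finset.mem_erase]
    exact ⟨hwq, hwp, hwb', hwb, hwG⟩
  have hd6 : 6 ≤ (nbr G w).card := by
    have := hdegbd V G w 4 hU hwG hnG
    omega
  obtain ⟨a, ha⟩ : ∃ a, (nbr G w).card = 2 * a + 2 := by
    obtain ⟨k, hk⟩ := even_nbr hGe w
    exact ⟨k - 1, by omega⟩
  have hdc : degreeOf w c ≤ 2 * a := by
    have := hcdeg w hwb hwb' hwG hwp hwq
    omega
  classical
  -- zeros
  set Z := (nbr Y w).filter (fun u => sg w u c = 0) with hZ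
  set N := (nbr Y w).filter (fun u => sg w u c ≠ 0) with hN
  have hZN : Z.card + N.card = (nbr Y w).card := Finset.card_filter_add_card_filter_not _
  have hwnbr : w ∉ nbr Y w := by
    rw [mem_nbr, hYe.diag]
    simp
  have hZa : Z.card ≤ a := by
    by_contra hlt
    push Not at hlt
    exact hc0 (hinterp V w Z a c (hcd w) hdc (fun h => hwnbr (Finset.mem_of_mem_filter _ h))
      (fun w' hw' => (Finset.mem_filter.1 hw').2) hlt)
  have hnb := hnbr V G b b' w hGe hbb hwb hwb'
  have hdY : 2 * a ≤ (nbr Y w).card := by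
    by_cases h : G w b ≠ 0 ∧ G w b' ≠ 0
    · have h2 : (nbr Y w).card + 2 = (nbr G w).card := (hnb.1 h).2
      omega
    · have h2 : (nbr Y w).card = (nbr G w).card := hnb.2.1 h
      omega
  have hNa : a ≤ N.card := by omega
  -- lifting
  set Z' := N.image (hat G b b' w) with hZ'
  have hZ'card : Z'.card = N.card := by
    apply Finset.card_image_of_injOn
    intro u hu u' hu' h
    have hu1 : Y w u ≠ 0 := mem_nbr.1 (Finset.mem_of_mem_filter _ hu)
    have hu1' : Y w u' ≠ 0 := mem_nbr.1 (Finset.mem_of_mem_filter _ hu')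
    exact (hlift V G b b' w u hGe hGbb hwb hwb' hu1).2.2.2.2.2.2.2.2.2 u' hu1' h
  have hB : insert w (nbr G w) ⊆ supp G := by
    intro x hx
    rcases Finset.mem_insert.1 hx with rfl | hx
    · exact hwG
    · exact mem_supp_of' hGe (mem_nbr.1 hx)
  have hwG' : w ∉ nbr G w := by
    rw [mem_nbr, hGe.diag]
    simp
  have hrk4 : 4 ≤ rk G (insert w (nbr G w)) := by
    rw [(hunifrk V G hU).1 _ hB, Finset.card_insert_of_notMem hwG']
    rw [le_min_iff]
    omega
  have hnt : ¬ Tight T G := by
    intro h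
    rcases hG.2.2 T h with h0 | h0
    · exact hT.2.1 h0
    · exact hwT (h0 ▸ hwG)
  have hfin := hzeros V G T w Z' hGe hTe hwG hwT hd6 hrk4 hnt
    (by
      intro v hv
      obtain ⟨u, hu, rfl⟩ := Finset.mem_image.1 hv
      have hu1 : Y w u ≠ 0 := mem_nbr.1 (Finset.mem_of_mem_filter _ hu)
      exact mem_nbr.2 (hlift V G b b' w u hGe hGbb hwb hwb' hu1).2.2.2.2.1)
    (by
      intro v hv
      obtain ⟨u, hu, rfl⟩ := Finset.mem_image.1 hv
      have hu1 : Y w u ≠ 0 := mem_nbr.1 (Finset.mem_of_mem_filter _ hu)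
      have hu2 : sg w u c ≠ 0 := (Finset.mem_filter.1 hu).2
      obtain ⟨-, huw, hvw, -, hGv, hHbb, hcc, -, hgY, -⟩ :=
        hlift V G b b' w u hGe hGbb hwb hwb' hu1
      obtain ⟨hg1, hg2, c', q', hSP', hc', -⟩ := hsp2 V G b b' w u J c hGe hSP hwJ hu1 hu2
      set v := hat G b b' w u with hvdef
      set H := ctr w v G with hHdef
      have hgYu : good Y w u := hgY hgood hg1 hg2
      obtain ⟨hHe, -, -, -, -, hsH, -⟩ := hctr V G G w v hvw.symm hGe hGe
      have hvG : v ∈ supp G := mem_supp_of' hGe hGv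
      have hsH' : supp H ⊆ (supp G).erase w := hsH hvG
      have hHn : (supp H).card ≤ n := by
        have h1 := Finset.card_le_card hsH'
        rw [Finset.card_erase_of_mem hwG] at h1
        omega
      -- `T` is tight in `ctr b b' H`
      have hTH : Tight T (ctr b b' H) := by
        rw [hcc]
        have h1 := (hctrt V Y T w u hYe hTt hgYu).1
        rwa [(hctr V T T w u huw.symm hTe hTe).2.2.1 hwT] at h1
      have hwB : w ∉ insert b' (supp T) := by
        rw [Finset.mem_insert]
        push Not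
        exact ⟨hwb', hwT⟩
      have hr1 : rk (ctr b b' H) (insert b' (supp T)) ≤ 3 := by
        rw [hcc, ← hrk]
        exact (hctrnu V Y w u hYe huw.symm).2.2.2.2.2 hgYu _ hwB
      have hr2 := (hFL2 V H b b' (supp T) hHe hg2 hbT hb'T).1
      -- lower bound
      obtain ⟨hH1, hbJ, hb'J, hJc, Q, hQ, -, hcQ⟩ := hSP'
      have hPJ : PJ H (J.erase w) ≠ 0 := by
        intro h0
        rw [hQ] at h0
        rcases mul_eq_zero.1 h0 with h | h
        · exact xx_add_ne hbb h
        · exact hc' (by rw [hcQ, h, map_zero])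
      have hr3 : ((insert b (insert b' (supp T))) \ (J.erase w)).card ≤
          rk H (insert b (insert b' (supp T))) :=
        (hrkm V H H hHe hHe).2.2.2.2.2.2.1 _ _ hJc hPJ
      have hr4 : 4 ≤ ((insert b (insert b' (supp T))) \ (J.erase w)).card := by
        have hsub : ({b, b', p, q} : Finset V) ⊆ (insert b (insert b' (supp T))) \ (J.erase w) := by
          intro x hx
          simp only [Finset.mem_insert, Finset.mem_singleton] at hx
          rw [Finset.mem_sdiff]
          rcases hx with rfl | rfl | rfl | rfl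
          · exact ⟨by simp, hbJ⟩
          · exact ⟨by simp, hb'J⟩
          · refine ⟨by simp [hp], fun h => ?_⟩
            have h1 := Finset.mem_of_mem_erase h
            simp [hJ] at h1
          · refine ⟨by simp [hq], fun h => ?_⟩
            have h1 := Finset.mem_of_mem_erase h
            simp [hJ] at h1
        have h1 := Finset.card_le_card hsub
        have h2 : ({b, b', p, q} : Finset V).card = 4 := by
          rw [Finset.card_insert_of_notMem, Finset.card_insert_of_notMem,
            Finset.card_insert_of_notMem, Finset.card_singleton]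
          · simpa using hpq
          · simp only [Finset.mem_insert, Finset.mem_singleton]
            push Not
            exact ⟨hpb'.symm, hqb'.symm⟩
          · simp only [Finset.mem_insert, Finset.mem_singleton]
            push Not
            exact ⟨hbb, hpb.symm, hqb.symm⟩
        omega
      refine ⟨hg1, ?_⟩
      exact hTLline V H T b b' hHe hg2 (SDn_mono hSD hHn) (UQn_mono hUQ hHn) hT hTH hb'T
        (by omega) (by omega))
  omega

end Pool.Agent.W390.SD

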