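import Pool.Agent.W390.SD.Stm3

/-!
# Project SD, part O9: rank 4, `b'` in the support of `T`, rank 3 of the support (helper158)
-/

set_option autoImplicit false

namespace Pool.Agent.W390.SD

open MvPolynomial Finset

namespace Aux_iib

theorem even_card {V : Type} [Fintype V] [DecidableEq V] (A : Gr V) (h : IsEv A) (w : V) :
    Even (nbr A w).card := by
  have h1 := h.even w
  have h2 : ∑ u, A w u = ((nbr A w).card : ZMod 2) := by
    unfold nbr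
    rw [Finset.card_filter, Nat.cast_sum]
    refine Finset.sum_congr rfl fun u _ => ?_
    generalize A w u = x
    revert x
    decide
  rw [h2] at h1
  exact (ZMod.natCast_eq_zero_iff_even).1 h1

theorem mem_nbr {V : Type} [Fintype V] [DecidableEq V] {A : Gr V} {w u : V} :
    u ∈ nbr A w ↔ A w u ≠ 0 := by
  unfold nbr
  simp

theorem mem_supp_left {V : Type} [Fintype V] [DecidableEq V] {A : Gr V} {w u : V}
    (h : A w u ≠ 0) : w ∈ supp A := by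
  unfold supp
  simp only [mem_filter, mem_univ, true_and]
  exact ⟨u, mem_nbr.2 h⟩

theorem mem_supp_right {V : Type} [Fintype V] [DecidableEq V] {A : Gr V} (hA : IsEv A) {w u : V}
    (h : A w u ≠ 0) : u ∈ supp A := by
  have h' : A u w ≠ 0 := by rw [hA.symm u w]; exact h
  exact mem_supp_left h'

theorem ne_of_adj {V : Type} [Fintype V] [DecidableEq V] {A : Gr V} (hA : IsEv A) {w u : V}
    (h : A w u ≠ 0) : w ≠ u := by
  rintro rfl
  exact h (hA.diag w)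

theorem SDn_mono {V : Type} [Fintype V] [DecidableEq V] {m n : ℕ} (hmn : m ≤ n)
    (h : SDn V n) : SDn V m := fun G hG hc => h G hG (hc.trans hmn)

theorem UQn_mono {V : Type} [Fintype V] [DecidableEq V] {m n : ℕ} (hmn : m ≤ n)
    (h : UQn V n) : UQn V m :=
  fun Y T₁ T₂ hY hc h1 h2 h3 h4 h5 h6 => h Y T₁ T₂ hY (hc.trans hmn) h1 h2 h3 h4 h5 h6

theorem ctr_apply_of_ne {V : Type} [DecidableEq V] (A : Gr V) {w w' x y : V}
    (hxw : x ≠ w) (hyw : y ≠ w) (hxy : x ≠ y) (hxw' : x ≠ w') (hyw' : y ≠ w') :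
    ctr w w' A x y = A x y := by
  unfold ctr
  simp [hxw, hyw, hxy, hxw', hyw']

theorem hat_of_ne {V : Type} [DecidableEq V] (G : Gr V) (b b' w u : V) (h : u ≠ b') :
    hat G b b' w u = u := by
  unfold hat
  rw [if_neg]
  rintro ⟨h1, _⟩
  exact h h1

end Aux_iib

open Aux_iib

theorem p_iib : S_add → S_zero → S_basis → S_rkm → S_tcons → S_interp → S_ctr → S_ctrcomm →
    S_ctrnu → S_ctrt → S_unif → S_unifrk → S_degbd → S_zeros → S_lift → S_nbr → S_tw → S_sp2 →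
    S_sp3 → S_geo → S_typ → S_clA → S_dsp → S_iib := by
  intro _ _ _ hrkm htcons hinterp hctr hctrcomm _ hctrt hunif hunifrk hdegbd hzeros hlift
    hnbr htw hsp2 hsp3 hgeo htyp hclA hdsp
  intro V _ _ n G T b b' hSD hUQ hG hcard hnu hgood hT hTY hb'T hrk
  have hGev : IsEv G := hG.1
  have hU : Unif G := hunif V G hG
  have hr : nu G + 4 = (supp G).card := by rw [hcard, hnu]
  have hbb' : b ≠ b' := ne_of_adj hGev hgood.1
  have hbG : b ∈ supp G := mem_supp_left hgood.1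
  have hb'G : b' ∈ supp G := mem_supp_right hGev hgood.1
  -- `Y = ctr b b' G`
  obtain ⟨hYev, -, -, -, -, hYsupp, -⟩ := hctr V G G b b' hbb' hGev hGev
  have hYsub : supp (ctr b b' G) ⊆ (supp G).erase b := hYsupp hb'G
  have hTsub : supp T ⊆ (supp G).erase b :=
    ((htcons V (ctr b b' G) T hYev hTY).2.1).trans hYsub
  have hbT : b ∉ supp T := fun h => (mem_erase.1 (hTsub h)).1 rfl
  -- the set `C`
  obtain ⟨C, hCsub, hCdisj, hC3, hCgeo⟩ := hgeo V G T b b' hU hr hgood hT hTY hb'T hrk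
  -- `p`, `q`
  have hTcard : 3 ≤ (supp T).card := by
    have h1 := (hrkm V (ctr b b' G) (ctr b b' G) hYev hYev).2.2.1 (supp T)
    omega
  obtain ⟨p, hp, q, hq, hpq⟩ : ∃ p ∈ (supp T).erase b', ∃ q ∈ (supp T).erase b', p ≠ q := by
    apply Finset.one_lt_card.1
    rw [card_erase_of_mem hb'T]
    omega
  have hpT : p ∈ supp T := (mem_erase.1 hp).2
  have hqT : q ∈ supp T := (mem_erase.1 hq).2
  have hpb' : p ≠ b' := (mem_erase.1 hp).1
  have hqb' : q ≠ b' := (mem_erase.1 hq).1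
  have hpb : p ≠ b := (mem_erase.1 (hTsub hpT)).1
  have hqb : q ≠ b := (mem_erase.1 (hTsub hqT)).1
  have hpG : p ∈ supp G := (mem_erase.1 (hTsub hpT)).2
  have hqG : q ∈ supp G := (mem_erase.1 (hTsub hqT)).2
  obtain ⟨c, hSP, hc0, hcconst, hcdeg⟩ :=
    hsp3 V G b b' p q hU hr hgood hpG hqG hpq hpb hpb' hqb hqb'
  -- the set `J`
  obtain ⟨J, hJ⟩ : ∃ J, J = ((((supp G).erase b).erase b').erase p |>.erase q) := ⟨_, rfl⟩
  rw [← hJ] at hSP
  have hpJ : p ∉ J := by rw [hJ]; simp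
  have hqJ : q ∉ J := by rw [hJ]; simp
  -- companion
  obtain ⟨hT1, hT1sub, -, -, -, -⟩ := htw V b b' T hbb' hT hbT (Or.inl hb'T)
  -- elements of `C`
  have hCT : ∀ w ∈ C, w ∉ supp T := fun w hw h => (Finset.disjoint_left.1 hCdisj) hw h
  have hCb : ∀ w ∈ C, w ≠ b := fun w hw => (mem_erase.1 (hCsub hw)).1
  have hCG : ∀ w ∈ C, w ∈ supp G := fun w hw => (mem_erase.1 (hCsub hw)).2
  have hCb' : ∀ w ∈ C, w ≠ b' := by
    rintro w hw rfl
    exact hCT w hw hb'T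
  have hCp : ∀ w ∈ C, w ≠ p := by
    rintro w hw rfl
    exact hCT w hw hpT
  have hCq : ∀ w ∈ C, w ≠ q := by
    rintro w hw rfl
    exact hCT w hw hqT
  have hCJ : ∀ w ∈ C, w ∈ J := by
    intro w hw
    rw [hJ]
    simp only [mem_erase]
    exact ⟨hCq w hw, hCp w hw, hCb' w hw, hCb w hw, hCG w hw⟩
  have hCT1 : ∀ w ∈ C, w ∉ supp (tw b b' T) := by
    intro w hw h
    have h1 := hT1sub h
    rw [mem_insert, mem_insert] at h1
    rcases h1 with h1 | h1 | h1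
    · exact hCb w hw h1
    · exact hCb' w hw h1
    · exact hCT w hw h1
  -- contraction of graphs not containing `w`
  have hctrT : ∀ w u : V, w ≠ u → ∀ A : Gr V, IsEv A → w ∉ supp A → ctr w u A = A := by
    intro w u hwu A hA hw
    exact (hctr V A A w u hwu hA hA).2.2.1 hw
  -- not tight in `G`
  have hnot : ∀ A : Gr V, Indec A → ∀ w ∈ C, w ∉ supp A → ¬ Tight A G := by
    intro A hA w hw hwA hAG
    rcases hG.2.2 A hAG with h | h
    · exact hA.2.1 h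
    · rw [h] at hwA
      exact hwA (hCG w hw)
  -- nonzeros
  have hPhi : ∀ w ∈ C, ∀ u, ctr b b' G w u ≠ 0 → sg w u c ≠ 0 → u ∈ supp T := by
    intro w hw u hwu hsg
    exact hclA V n G T b b' p q w u J C c hSD hUQ hG hcard hnu hgood hT hTY hb'T hSP hc0 hpT hqT
      hpq hpb' hqb' hpJ hqJ hCsub hCdisj hC3 hw (hCJ w hw) hwu hsg
  -- counting
  have hcount : ∀ w ∈ C, b' ∉ nbr (ctr b b' G) w ∧ ∃ a : ℕ, (nbr G w).card = 2 * a + 2 ∧
      ((nbr (ctr b b' G) w).filter (fun u => sg w u c = 0)).card = a ∧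
      ((nbr (ctr b b' G) w).filter (fun u => ¬ sg w u c = 0)).card = a := by
    intro w hw
    have hdeg := hcdeg w (hCb w hw) (hCb' w hw) (hCG w hw) (hCp w hw) (hCq w hw)
    obtain ⟨k, hk⟩ := even_card G hGev w
    obtain ⟨a, ha⟩ : ∃ a, k = a + 1 := ⟨k - 1, by omega⟩
    have hka : (nbr G w).card = 2 * a + 2 := by omega
    have hsum := Finset.card_filter_add_card_filter_not (s := nbr (ctr b b' G) w)
      (fun u => sg w u c = 0)
    have hZ : ((nbr (ctr b b' G) w).filter (fun u => sg w u c = 0)).card ≤ a := by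
      by_contra hlt
      push Not at hlt
      apply hc0
      refine hinterp V w ((nbr (ctr b b' G) w).filter (fun u => sg w u c = 0)) a c
        (hcconst w) (by omega) ?_ ?_ hlt
      · intro h
        have h1 := mem_nbr.1 (mem_filter.1 h).1
        exact h1 (hYev.diag w)
      · intro w' h
        exact (mem_filter.1 h).2
    have hF : 2 * ((nbr (ctr b b' G) w).filter (fun u => ¬ sg w u c = 0)).card ≤
        (nbr (ctr b b' G) w).card := by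
      refine le_trans (Nat.mul_le_mul_left 2 (card_le_card ?_)) (hCgeo w hw)
      intro u hu
      rw [mem_filter] at hu
      rw [mem_sdiff]
      refine ⟨hu.1, fun huC => ?_⟩
      exact hCT u huC (hPhi w hw u (mem_nbr.1 hu.1) hu.2)
    obtain ⟨hn1, hn2, hn3, hn4⟩ := hnbr V G b b' w hGev hbb' (hCb w hw) (hCb' w hw)
    by_cases hadj : G w b ≠ 0 ∧ G w b' ≠ 0
    · obtain ⟨hn5, hn6⟩ := hn1 hadj
      exact ⟨hn5, a, hka, by omega, by omega⟩
    · exfalso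
      have hn5 := hn2 hadj
      omega
  -- facts on the nonzeros
  have hstep : ∀ w ∈ C, ∀ u, ctr b b' G w u ≠ 0 → sg w u c ≠ 0 →
      u ∈ supp T ∧ u ≠ b' ∧ u ≠ b ∧ w ≠ u ∧ G w u ≠ 0 ∧ good G w u ∧ IsEv (ctr w u G) ∧
      ctr b b' (ctr w u G) = ctr w u (ctr b b' G) ∧
      (∃ c' r : R V, SP (ctr w u G) b b' (J.erase w) c' ∧ c' ≠ 0 ∧ sg w u c = r * c') ∧
      (Tight T (ctr w u G) ∨ Tight (tw b b' T) (ctr w u G)) ∧
      ¬ (Tight T (ctr w u G) ∧ Tight (tw b b' T) (ctr w u G)) := by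
    intro w hw u hwu hsg
    have huT := hPhi w hw u hwu hsg
    have hub' : u ≠ b' := by
      rintro rfl
      exact (hcount w hw).1 (mem_nbr.2 hwu)
    have hub : u ≠ b := (mem_erase.1 (hTsub huT)).1
    have hwu' : w ≠ u := ne_of_adj hYev hwu
    have huG : u ∈ supp G := (mem_erase.1 (hTsub huT)).2
    have hhat : hat G b b' w u = u := hat_of_ne G b b' w u hub'
    obtain ⟨hn1, hn2, hn3, hn4⟩ := hnbr V G b b' w hGev hbb' (hCb w hw) (hCb' w hw)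
    have hGwu : G w u ≠ 0 := mem_nbr.1 ((hn3 u hub hub').1 (mem_nbr.2 hwu))
    have h2 := hsp2 V G b b' w u J c hGev hSP (hCJ w hw) hwu hsg
    have h3 := hlift V G b b' w u hGev hgood.1 (hCb w hw) (hCb' w hw) hwu
    rw [hhat] at h2 h3
    obtain ⟨hg1, hg2, c', r, hSP', hc', hr'⟩ := h2
    obtain ⟨-, -, -, -, -, -, hcomm, -, hgY, -⟩ := h3
    have hgoodY : good (ctr b b' G) w u := hgY hgood hg1 hg2
    obtain ⟨hHev, -, -, -, -, hHs, -⟩ := hctr V G G w u hwu' hGev hGev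
    have hHsub : supp (ctr w u G) ⊆ (supp G).erase w := hHs huG
    have hHcard : (supp (ctr w u G)).card ≤ n := by
      have h4 := card_le_card hHsub
      rw [card_erase_of_mem (hCG w hw)] at h4
      omega
    have hTH : Tight T (ctr b b' (ctr w u G)) := by
      have h4 := (hctrt V (ctr b b' G) T w u hYev hTY hgoodY).1
      rw [hctrT w u hwu' T hT.1 (hCT w hw)] at h4
      rw [hcomm]
      exact h4
    have htypes := htyp V (ctr w u G) T b b' p q (J.erase w) c' hHev (SDn_mono hHcard hSD)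
      (UQn_mono hHcard hUQ) hSP' hc' hT hTH hb'T hpT hqT hpq hpb' hqb'
      (fun h => hpJ (mem_erase.1 h).2) (fun h => hqJ (mem_erase.1 h).2)
    exact ⟨huT, hub', hub, hwu', hGwu, hg1, hHev, hcomm, ⟨c', r, hSP', hc', hr'⟩,
      htypes.2.2.1, htypes.2.2.2⟩
  -- both types occur
  have hboth : ∀ w ∈ C, ∀ A : Gr V, Indec A → w ∉ supp A →
      ∃ u, ctr b b' G w u ≠ 0 ∧ sg w u c ≠ 0 ∧ ¬ Tight A (ctr w u G) := by
    intro w hw A hA hwA
    by_contra hno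
    push Not at hno
    obtain ⟨-, a, ha1, ha2, ha3⟩ := hcount w hw
    have hdeg6 : 6 ≤ (nbr G w).card := by
      have h1 := hdegbd V G w 4 hU (hCG w hw) hr
      omega
    have hrk4 : 4 ≤ rk G (insert w (nbr G w)) := by
      have hsub : insert w (nbr G w) ⊆ supp G := by
        intro x hx
        rw [mem_insert] at hx
        rcases hx with rfl | hx
        · exact hCG x hw
        · exact mem_supp_right hGev (mem_nbr.1 hx)
      rw [(hunifrk V G hU).1 _ hsub]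
      have h1 : (nbr G w).card ≤ (insert w (nbr G w)).card := card_le_card (subset_insert _ _)
      rw [le_min_iff]
      constructor
      · omega
      · omega
    have h1 := hzeros V G A w ((nbr (ctr b b' G) w).filter (fun u => ¬ sg w u c = 0)) hGev hA.1
      (hCG w hw) hwA hdeg6 hrk4 (hnot A hA w hw hwA) ?_ ?_
    · omega
    · intro u hu
      rw [mem_filter] at hu
      exact mem_nbr.2 (hstep w hw u (mem_nbr.1 hu.1) hu.2).2.2.2.2.1
    · intro u hu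
      rw [mem_filter] at hu
      exact ⟨(hstep w hw u (mem_nbr.1 hu.1) hu.2).2.2.2.2.2.1,
        hno u (mem_nbr.1 hu.1) hu.2⟩
  have htype0 : ∀ w ∈ C, ∃ u, ctr b b' G w u ≠ 0 ∧ sg w u c ≠ 0 ∧ Tight T (ctr w u G) := by
    intro w hw
    obtain ⟨u, h1, h2, h3⟩ := hboth w hw (tw b b' T) hT1 (hCT1 w hw)
    obtain ⟨-, -, -, -, -, -, -, -, -, h4, -⟩ := hstep w hw u h1 h2
    exact ⟨u, h1, h2, h4.resolve_right h3⟩
  have htype1 : ∀ w ∈ C, ∃ u, ctr b b' G w u ≠ 0 ∧ sg w u c ≠ 0 ∧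
      Tight (tw b b' T) (ctr w u G) := by
    intro w hw
    obtain ⟨u, h1, h2, h3⟩ := hboth w hw T hT (hCT w hw)
    obtain ⟨-, -, -, -, -, -, -, -, -, h4, -⟩ := hstep w hw u h1 h2
    exact ⟨u, h1, h2, h4.resolve_left h3⟩
  -- the claim
  have hclaim : ∀ w₁ ∈ C, ∀ w₂ ∈ C, w₁ ≠ w₂ → ∀ u₁ u₂, ctr b b' G w₁ u₁ ≠ 0 → sg w₁ u₁ c ≠ 0 →
      Tight T (ctr w₁ u₁ G) → ctr b b' G w₂ u₂ ≠ 0 → sg w₂ u₂ c ≠ 0 →
      Tight (tw b b' T) (ctr w₂ u₂ G) → u₁ = u₂ := by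
    intro w₁ hw₁ w₂ hw₂ hww u₁ u₂ hu₁ hs₁ ht₁ hu₂ hs₂ ht₂
    by_contra huu
    obtain ⟨huT₁, hub'₁, hub₁, hwu₁, hGw₁, hg₁, hHev₁, hcomm₁, ⟨c', r, hSP', hc', hr'⟩, -, -⟩ :=
      hstep w₁ hw₁ u₁ hu₁ hs₁
    obtain ⟨huT₂, hub'₂, hub₂, hwu₂, hGw₂, hg₂, hHev₂, hcomm₂, -, -, -⟩ :=
      hstep w₂ hw₂ u₂ hu₂ hs₂
    have hu₁w₂ : u₁ ≠ w₂ := by
      rintro rfl
      exact hCT _ hw₂ huT₁
    have hu₂w₁ : u₂ ≠ w₁ := by
      rintro rfl
      exact hCT _ hw₁ huT₂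
    obtain ⟨-, a, ha1, ha2, ha3⟩ := hcount w₁ hw₁
    have hdeg := hcdeg w₁ (hCb w₁ hw₁) (hCb' w₁ hw₁) (hCG w₁ hw₁) (hCp w₁ hw₁) (hCq w₁ hw₁)
    have hdd : sg w₂ u₂ (sg w₁ u₁ c) ≠ 0 := by
      refine hdsp V c w₁ w₂ u₁ u₂ ((nbr (ctr b b' G) w₁).filter (fun u => sg w₁ u c = 0))
        hcconst hc0 ?_ ?_ ?_ hww hwu₁.symm hu₁w₂ ?_ (Ne.symm huu) hu₂w₁ hwu₂.symm hs₂
      · intro h
        exact mem_nbr.1 (mem_filter.1 h).1 (hYev.diag w₁)
      · rw [ha2]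
        omega
      · intro x hx
        exact (mem_filter.1 hx).2
      · intro h
        exact hs₁ (mem_filter.1 h).2
    have hs' : sg w₂ u₂ c' ≠ 0 := by
      intro h
      apply hdd
      rw [hr', map_mul, h, mul_zero]
    have hw₂J : w₂ ∈ J.erase w₁ := mem_erase.2 ⟨hww.symm, hCJ w₂ hw₂⟩
    have hadj : ctr b b' (ctr w₁ u₁ G) w₂ u₂ ≠ 0 := by
      rw [hcomm₁, ctr_apply_of_ne _ hww.symm hu₂w₁ hwu₂ hu₁w₂.symm (Ne.symm huu)]
      exact hu₂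
    have h2 := hsp2 V (ctr w₁ u₁ G) b b' w₂ u₂ (J.erase w₁) c' hHev₁ hSP' hw₂J hadj hs'
    rw [hat_of_ne _ b b' w₂ u₂ hub'₂] at h2
    obtain ⟨hg12, hgb12, c'', r'', hSP'', hc'', -⟩ := h2
    have hcc : ctr w₂ u₂ (ctr w₁ u₁ G) = ctr w₁ u₁ (ctr w₂ u₂ G) :=
      hctrcomm V G w₂ u₂ w₁ u₁ hGev hwu₂ hwu₁ hww.symm hu₁w₂.symm hu₂w₁
    have hg21 : good (ctr w₂ u₂ G) w₁ u₁ := by
      refine ⟨?_, ?_⟩
      · rw [ctr_apply_of_ne _ hww hu₁w₂ hwu₁ hu₂w₁.symm huu]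
        exact hGw₁
      · rw [← hcc]
        have e1 := hg12.2
        have e2 := hg₁.2
        have e3 := hg₂.2
        omega
    have ht0 : Tight T (ctr w₂ u₂ (ctr w₁ u₁ G)) := by
      have h4 := (hctrt V (ctr w₁ u₁ G) T w₂ u₂ hHev₁ ht₁ hg12).1
      rwa [hctrT w₂ u₂ hwu₂ T hT.1 (hCT w₂ hw₂)] at h4
    have ht1 : Tight (tw b b' T) (ctr w₂ u₂ (ctr w₁ u₁ G)) := by
      have h4 := (hctrt V (ctr w₂ u₂ G) (tw b b' T) w₁ u₁ hHev₂ ht₂ hg21).1
      rw [hctrT w₁ u₁ hwu₁ (tw b b' T) hT1.1 (hCT1 w₁ hw₁)] at h4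
      rw [hcc]
      exact h4
    obtain ⟨hHev12, -, -, -, hHs12, -, -⟩ :=
      hctr V (ctr w₁ u₁ G) (ctr w₁ u₁ G) w₂ u₂ hwu₂ hHev₁ hHev₁
    have hu₂H : u₂ ∈ supp (ctr w₁ u₁ G) := mem_supp_right hHev₁ hg12.1
    have hHcard : (supp (ctr w₂ u₂ (ctr w₁ u₁ G))).card ≤ n := by
      have hu₁G : u₁ ∈ supp G := (mem_erase.1 (hTsub huT₁)).2
      have h4 := card_le_card ((hctr V G G w₁ u₁ hwu₁ hGev hGev).2.2.2.2.2.1 hu₁G)
      rw [card_erase_of_mem (hCG w₁ hw₁)] at h4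
      have h5 := card_le_card
        ((hctr V (ctr w₁ u₁ G) (ctr w₁ u₁ G) w₂ u₂ hwu₂ hHev₁ hHev₁).2.2.2.2.2.1 hu₂H)
      have h6 := card_erase_le (s := supp (ctr w₁ u₁ G)) (a := w₂)
      omega
    have hTH : Tight T (ctr b b' (ctr w₂ u₂ (ctr w₁ u₁ G))) := by
      have h4 := (hctrt V (ctr w₂ u₂ (ctr w₁ u₁ G)) T b b' hHev12 ht0 hgb12).1
      rwa [hctrT b b' hbb' T hT.1 hbT] at h4
    have htypes := htyp V (ctr w₂ u₂ (ctr w₁ u₁ G)) T b b' p q ((J.erase w₁).erase w₂) c''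
      hHev12 (SDn_mono hHcard hSD) (UQn_mono hHcard hUQ) hSP'' hc'' hT hTH hb'T hpT hqT hpq
      hpb' hqb' (fun h => hpJ (mem_erase.1 (mem_erase.1 h).2).2)
      (fun h => hqJ (mem_erase.1 (mem_erase.1 h).2).2)
    exact htypes.2.2.2 ⟨ht0, ht1⟩
  -- three vertices
  obtain ⟨w₁, w₂, w₃, hw₁, hw₂, hw₃, h12, h13, h23⟩ := Finset.two_lt_card_iff.1 hC3
  obtain ⟨u₁, ha₁, hb₁, hc₁⟩ := htype0 w₁ hw₁
  obtain ⟨u₃, ha₃, hb₃, hc₃⟩ := htype0 w₃ hw₃
  obtain ⟨v₁, hd₁, he₁, hf₁⟩ := htype1 w₁ hw₁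
  obtain ⟨v₂, hd₂, he₂, hf₂⟩ := htype1 w₂ hw₂
  have e1 : u₁ = v₂ := hclaim w₁ hw₁ w₂ hw₂ h12 u₁ v₂ ha₁ hb₁ hc₁ hd₂ he₂ hf₂
  have e2 : u₃ = v₂ := hclaim w₃ hw₃ w₂ hw₂ h23.symm u₃ v₂ ha₃ hb₃ hc₃ hd₂ he₂ hf₂
  have e3 : u₃ = v₁ := hclaim w₃ hw₃ w₁ hw₁ h13.symm u₃ v₁ ha₃ hb₃ hc₃ hd₁ he₁ hf₁
  have e4 : u₁ = v₁ := by rw [e1, ← e2, e3]
  obtain ⟨-, -, -, -, -, -, -, -, -, -, h5⟩ := hstep w₁ hw₁ u₁ ha₁ hb₁
  exact h5 ⟨hc₁, by rw [e4]; exact hf₁⟩

end Pool.Agent.W390.SD
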