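import Pool.Agent.W390.SD.Stm1

/-! Project SD, part B2: kernel vectors of the Laplacian. -/

set_option autoImplicit false

namespace Pool.Agent.W390.SD

open MvPolynomial Finset

namespace Aux_ker

variable {V : Type}

lemma pd_xx (v u : V) : pderiv v (xx u) = 0 := by
  unfold xx
  rw [Derivation.leibniz_pow]
  have h : ((2 : ℕ) : R V) = 0 := by
    have h2 : ((2 : ℕ) : ZMod 2) = 0 := by decide
    have h3 : ((2 : ℕ) : R V) = C ((2 : ℕ) : ZMod 2) := (map_natCast C 2).symm
    rw [h3, h2, map_zero]
  rw [nsmul_eq_mul, h, zero_mul]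

lemma pd_prod (v : V) (s : Finset V) (f : V → R V) (h : ∀ i ∈ s, pderiv v (f i) = 0) :
    pderiv v (∏ i ∈ s, f i) = 0 := by
  classical
  induction s using Finset.induction_on with
  | empty => simp
  | insert a s ha ih =>
    rw [Finset.prod_insert ha, Derivation.leibniz, h a (Finset.mem_insert_self _ _),
      ih (fun i hi => h i (Finset.mem_insert_of_mem hi))]
    simp

lemma xx_ne {w u : V} (h : u ≠ w) : xx w + xx u ≠ (0 : R V) := by
  intro h0
  have h1 : (X w + X u : R V) ^ 2 = 0 := by
    have h2 : ((2 : ℕ) : R V) = 0 := by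
      have h2 : ((2 : ℕ) : ZMod 2) = 0 := by decide
      have h3 : ((2 : ℕ) : R V) = C ((2 : ℕ) : ZMod 2) := (map_natCast C 2).symm
      rw [h3, h2, map_zero]
    have h3 : (X w + X u : R V) ^ 2 = xx w + xx u + ((2 : ℕ) : R V) * (X w * X u) := by
      unfold xx
      push_cast
      ring
    rw [h3, h0, h2]
    ring
  have h4 : (X w + X u : R V) = 0 := by
    exact pow_eq_zero_iff (two_ne_zero) |>.mp h1
  classical
  have h5 := congrArg (eval (fun i => if i = w then (1 : ZMod 2) else 0)) h4
  simp [h] at h5

variable [Fintype V] [DecidableEq V]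

/-- the denominator of row `w` -/
noncomputable def DW (w : V) : R V := ∏ u ∈ univ.erase w, (xx w + xx u)

/-- the product without `u` -/
noncomputable def MW (w u : V) : R V := ∏ u' ∈ (univ.erase w).erase u, (xx w + xx u')

lemma DW_ne (w : V) : DW w ≠ 0 := by
  refine Finset.prod_ne_zero_iff.mpr (fun u hu => xx_ne (Finset.ne_of_mem_erase hu))

lemma DW_eq {w u : V} (h : u ≠ w) : (xx w + xx u) * MW w u = DW w :=
  Finset.mul_prod_erase _ _ (Finset.mem_erase.mpr ⟨h, Finset.mem_univ _⟩)

lemma pd_MW (v w u : V) : pderiv v (MW w u) = 0 := by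
  refine pd_prod v _ _ (fun i _ => ?_)
  rw [map_add, pd_xx, pd_xx, add_zero]

lemma pd_DW (v w : V) : pderiv v (DW w) = 0 := by
  refine pd_prod v _ _ (fun i _ => ?_)
  rw [map_add, pd_xx, pd_xx, add_zero]

lemma key {w u : V} (h : u ≠ w) :
    algebraMap (R V) (F V) (DW w) * (xF w + xF u)⁻¹ = algebraMap (R V) (F V) (MW w u) := by
  have h1 : xF w + xF u = algebraMap (R V) (F V) (xx w + xx u) := by
    rw [map_add]
    rfl
  have h2 : algebraMap (R V) (F V) (xx w + xx u) ≠ 0 := by
    rw [Ne, FaithfulSMul.algebraMap_eq_zero_iff]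
    exact xx_ne h
  rw [← DW_eq h, map_mul, h1]
  field_simp

lemma row (A : Gr V) (hA : IsEv A) (w u : V) : ∃ M : R V,
    algebraMap (R V) (F V) (DW w) * Lap A w u = algebraMap (R V) (F V) M ∧
      ∀ v, pderiv v M = 0 := by
  have hd : ∀ w', A w w' ≠ 0 → w' ≠ w := by
    intro w' h1 h2
    rw [h2, hA.diag] at h1
    exact h1 rfl
  by_cases huw : w = u
  · refine ⟨∑ w', (if A w w' = 0 then 0 else MW w w'), ?_, ?_⟩
    · unfold Lap
      rw [if_pos huw, Finset.mul_sum, map_sum]
      refine Finset.sum_congr rfl (fun w' _ => ?_)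
      split_ifs with h
      · simp
      · exact key (hd w' h)
    · intro v
      rw [map_sum]
      refine Finset.sum_eq_zero (fun w' _ => ?_)
      split_ifs
      · simp
      · exact pd_MW v w w'
  · refine ⟨if A w u = 0 then 0 else MW w u, ?_, ?_⟩
    · unfold Lap
      rw [if_neg huw]
      split_ifs with h
      · simp
      · exact key (hd u h)
    · intro v
      split_ifs
      · simp
      · exact pd_MW v w u

end Aux_ker

open Aux_ker in
theorem p_ker : S_dd → S_dlog → S_ker := by
  intro hdd hdlog V _ _ A K' v hA hv h0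
  obtain ⟨d1, d2, d3, -, -, -, -⟩ := hdd V
  have hcomm : ∀ (a b : V) (q : R V), pderiv a (pderiv b q) = pderiv b (pderiv a q) := by
    intro a b q
    have e1 : ∀ r : R V, dd ({a} : Finset V) r = pderiv a r := by
      intro r
      have h1 := d2 ∅ a r (Finset.notMem_empty a)
      rw [d1] at h1
      simpa using h1
    rw [← e1 (pderiv b q), d3, e1]
  have hins : ∀ J : Finset V, v ∉ J → pderiv v (PJ A J) = PJ A (insert v J) := by
    intro J hJ
    exact (d2 J v (PP A) hJ).symm
  funext w
  choose M hM hMd using fun u => row A hA w u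
  set c : V → R V := fun u =>
    if u = v then PJ A K' else if u ∈ K' then PJ A (insert v (K'.erase u)) else 0 with hc
  -- the polynomial identity
  have hpol : DW w * pderiv w (PJ A K') =
      ∑ u, M u * (X u * PJ A K' + if u ∈ K' then PJ A (K'.erase u) else 0) := by
    apply FaithfulSMul.algebraMap_injective (R V) (F V)
    rw [map_mul, hdlog V A K' w hA, Finset.mul_sum, map_sum]
    refine Finset.sum_congr rfl (fun u _ => ?_)
    rw [← mul_assoc, hM u, map_mul]
  have hder : (0 : R V) = ∑ u, M u * c u := by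
    have h1 := congrArg (pderiv v) hpol
    rw [Derivation.leibniz, pd_DW, map_sum] at h1
    have h2 : pderiv v (pderiv w (PJ A K')) = 0 := by
      rw [hcomm, hins K' hv, h0, map_zero]
    rw [h2] at h1
    simp only [smul_eq_mul, mul_zero, add_zero] at h1
    rw [h1]
    refine Finset.sum_congr rfl (fun u _ => ?_)
    rw [Derivation.leibniz, hMd u v, map_add, Derivation.leibniz, hins K' hv, h0]
    simp only [smul_eq_mul, mul_zero, add_zero, zero_add, hc]
    congr 1
    by_cases huv : u = v
    · subst huv
      simp [hv]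
    · rw [pderiv_X_of_ne huv, mul_zero, zero_add, if_neg huv]
      split_ifs with hu
      · exact hins _ (fun h => hv (Finset.mem_of_mem_erase h))
      · simp
  have hfin : algebraMap (R V) (F V) (DW w) *
      (Lap A).mulVec (fun u => algebraMap (R V) (F V) (c u)) w = 0 := by
    rw [Matrix.mulVec, dotProduct, Finset.mul_sum]
    have h1 := congrArg (algebraMap (R V) (F V)) hder
    rw [map_zero, map_sum] at h1
    rw [h1]
    refine Finset.sum_congr rfl (fun u _ => ?_)
    rw [← mul_assoc, hM u, map_mul]
  have hne : algebraMap (R V) (F V) (DW w) ≠ 0 := by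
    rw [Ne, FaithfulSMul.algebraMap_eq_zero_iff]
    exact DW_ne w
  exact (mul_eq_zero.mp hfin).resolve_left hne

end Pool.Agent.W390.SD
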