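import Pool.Agent.W390.SD.Stm3

/-!
# Project SD: lifting of contractions (M2)
-/

namespace Pool.Agent.W390.SD

open MvPolynomial Finset

namespace Aux_lift

theorem ne_of_adj {V : Type} [Fintype V] [DecidableEq V] {G : Gr V} {b b' : V} (hG : IsEv G)
    (h : G b b' ≠ 0) : b ≠ b' := by
  intro hb
  subst hb
  exact h (hG.diag b)

theorem two_cases (x y : ZMod 2) (h : x + y ≠ 0) : (x = 0 ∧ y ≠ 0) ∨ (x ≠ 0 ∧ y = 0) := by
  revert x y
  decide

theorem ctr_cases {V : Type} [Fintype V] [DecidableEq V] {G : Gr V} {b b' w u : V}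
    (hwb' : w ≠ b') (h : ctr b b' G w u ≠ 0) :
    u ≠ b ∧ u ≠ w ∧ ((u = b' ∧ G w b' = 0 ∧ G w b ≠ 0) ∨ (u = b' ∧ G w b' ≠ 0 ∧ G w b = 0) ∨
      (u ≠ b' ∧ G w u ≠ 0)) := by
  have hub : u ≠ b := by
    intro hu
    apply h
    simp [ctr, hu]
  have huw : u ≠ w := by
    intro hu
    apply h
    simp [ctr, hu]
  refine ⟨hub, huw, ?_⟩
  have hwb : w ≠ b := by
    intro hu
    apply h
    simp [ctr, hu]
  by_cases hu : u = b'
  · subst hu
    have h2 : ctr b u G w u = G w u + G w b := by
      unfold ctr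
      rw [if_neg (by
        rintro (h3 | h3 | h3)
        · exact hwb h3
        · exact hub h3
        · exact huw h3.symm), if_neg hwb', if_pos rfl]
    rw [h2] at h
    rcases two_cases _ _ h with ⟨h3, h4⟩ | ⟨h3, h4⟩
    · exact Or.inl ⟨rfl, h3, h4⟩
    · exact Or.inr (Or.inl ⟨rfl, h3, h4⟩)
  · have h2 : ctr b b' G w u = G w u := by
      unfold ctr
      rw [if_neg (by
        rintro (h3 | h3 | h3)
        · exact hwb h3
        · exact hub h3
        · exact huw h3.symm), if_neg hwb', if_neg hu]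
    rw [h2] at h
    exact Or.inr (Or.inr ⟨hu, h⟩)

theorem hat_pos {V : Type} [DecidableEq V] {G : Gr V} {b b' w u : V}
    (h1 : u = b') (h2 : G w b' = 0) : hat G b b' w u = b := by
  unfold hat
  rw [if_pos ⟨h1, h2⟩]

theorem hat_neg {V : Type} [DecidableEq V] {G : Gr V} {b b' w u : V}
    (h : ¬ (u = b' ∧ G w b' = 0)) : hat G b b' w u = u := by
  unfold hat
  rw [if_neg h]

end Aux_lift

open Aux_lift in
theorem p_lift : S_ctr → S_ctrcomm → S_ctr2 → S_ctrnu → S_lift := by
  intro hS hcomm hctr2 hnu V _ _ G b b' w u hG hbb' hwb hwb' hY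
  have hne : b ≠ b' := ne_of_adj hG hbb'
  obtain ⟨hub, huw, hc⟩ := ctr_cases hwb' hY
  -- the basic facts
  have key : hat G b b' w u ≠ w ∧ (hat G b b' w u = u ∨ hat G b b' w u = b ∧ u = b') ∧
      G w (hat G b b' w u) ≠ 0 ∧ ctr w (hat G b b' w u) G b b' ≠ 0 ∧
      ctr b b' (ctr w (hat G b b' w u) G) = ctr w u (ctr b b' G) := by
    rcases hc with ⟨h1, h2, h3⟩ | ⟨h1, h2, h3⟩ | ⟨h1, h2⟩
    · rw [hat_pos h1 h2]
      refine ⟨fun h => hwb h.symm, Or.inr ⟨rfl, h1⟩, h3, ?_, ?_⟩
      · have h4 : ctr w b G b b' = G b b' + G w b' := by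
          unfold ctr
          rw [if_neg (by
            rintro (h5 | h5 | h5)
            · exact hwb h5.symm
            · exact hwb' h5.symm
            · exact hne h5), if_pos rfl]
        rw [h4, h2, add_zero]
        exact hbb'
      · rw [h1]
        exact hctr2 V G w b b' hG hwb hwb' hne
    · rw [hat_neg (fun h => h2 h.2)]
      refine ⟨huw, Or.inl rfl, ?_, ?_, ?_⟩
      · rw [h1]
        exact h2
      · have h4 : ctr w u G b b' = G b u + G b w := by
          unfold ctr
          rw [if_neg (by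
            rintro (h5 | h5 | h5)
            · exact hwb h5.symm
            · exact hwb' h5.symm
            · exact hne h5), if_neg (fun h5 => hub h5.symm), if_pos h1.symm]
        rw [h4, hG.symm b w, h3, add_zero, h1]
        exact hbb'
      · exact hcomm V G b b' w u hG hne (fun h => huw h.symm) (fun h => hwb h.symm)
          (fun h => hub h.symm) (fun h => hwb' h.symm)
    · rw [hat_neg (fun h => h1 h.1)]
      refine ⟨huw, Or.inl rfl, h2, ?_, ?_⟩
      · have h4 : ctr w u G b b' = G b b' := by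
          unfold ctr
          rw [if_neg (by
            rintro (h5 | h5 | h5)
            · exact hwb h5.symm
            · exact hwb' h5.symm
            · exact hne h5), if_neg (fun h5 => hub h5.symm), if_neg (fun h5 => h1 h5.symm)]
        rw [h4]
        exact hbb'
      · exact hcomm V G b b' w u hG hne (fun h => huw h.symm) (fun h => hwb h.symm)
          (fun h => hub h.symm) (fun h => hwb' h.symm)
  obtain ⟨k1, k2, k3, k4, k5⟩ := key
  refine ⟨hub, huw, k1, k2, k3, k4, k5, ?_, ?_, ?_⟩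
  · -- lifting goodness
    intro g1 g2
    have a1 := (hnu V G w (hat G b b' w u) hG (fun h => k1 h.symm)).2.2.1 k3
    have hev : IsEv (ctr w (hat G b b' w u) G) := by

      exact (hS V G G w (hat G b b' w u) (fun h => k1 h.symm) hG hG).1
    have a2 := (hnu V (ctr w (hat G b b' w u) G) b b' hev hne).2.2.1 k4
    have b1 := g1.2
    have b2 := g2.2
    rw [← k5] at b2
    refine ⟨⟨k3, ?_⟩, ⟨k4, ?_⟩⟩ <;> omega
  · intro g1 g2 g3
    have b1 := g1.2
    have b2 := g2.2
    have b3 := g3.2
    rw [k5] at b3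
    exact ⟨hY, by omega⟩
  · intro u' hY' he
    obtain ⟨hub', huw', hc'⟩ := ctr_cases hwb' hY'
    by_cases h1 : u = b' ∧ G w b' = 0
    · by_cases h2 : u' = b' ∧ G w b' = 0
      · rw [h1.1, h2.1]
      · rw [hat_pos h1.1 h1.2, hat_neg h2] at he
        exact absurd he.symm hub'
    · by_cases h2 : u' = b' ∧ G w b' = 0
      · rw [hat_neg h1, hat_pos h2.1 h2.2] at he
        exact absurd he hub
      · rw [hat_neg h1, hat_neg h2] at he
        exact he

end Pool.Agent.W390.SD
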