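import Pool.Agent.W390.SD.Stm2

/-! Project SD: `S_lin`. -/

namespace Pool.Agent.W390.SD

open MvPolynomial Finset

namespace Aux_lin

set_option linter.unusedSectionVars false

variable {V : Type} [Fintype V] [DecidableEq V]

theorem sg_X_ne {w q u : V} (h : u ≠ w) : sg w q (X u) = X u := by
  unfold sg
  rw [rename_X, if_neg h]

theorem sg_X_self (w q : V) : sg w q (X w) = X q := by
  unfold sg
  rw [rename_X, if_pos rfl]

theorem sg_sg {w q : V} (h : q ≠ w) (p : R V) : sg w q (sg w q p) = sg w q p := by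
  unfold sg
  rw [rename_rename]
  congr 2
  funext v
  simp only [Function.comp_apply]
  by_cases hv : v = w
  · rw [if_pos hv, if_neg h]
  · rw [if_neg hv, if_neg hv]

theorem pderiv_sg {w q : V} (h : q ≠ w) (p : R V) : pderiv w (sg w q p) = 0 := by
  induction p using MvPolynomial.induction_on with
  | C a =>
    have : sg w q (C a) = C a := by
      unfold sg
      rw [rename_C]
    rw [this, pderiv_C]
  | add p p' hp hp' => rw [map_add, map_add, hp, hp', add_zero]
  | mul_X p n hp =>
    rw [map_mul, pderiv_mul, hp, zero_mul, zero_add]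
    by_cases hn : n = w
    · rw [hn, sg_X_self, pderiv_X_of_ne h, mul_zero]
    · rw [sg_X_ne hn, pderiv_X_of_ne hn, mul_zero]

theorem deg_sg {w q : V} (h : q ≠ w) (p : R V) : degreeOf w (sg w q p) = 0 := by
  by_contra hc
  have h1 : w ∈ (sg w q p).vars := mem_vars_iff_degreeOf_ne_zero.2 hc
  unfold sg at h1
  have h2 := vars_rename _ _ h1
  obtain ⟨v, _, hv⟩ := mem_image.1 h2
  by_cases h3 : v = w
  · rw [if_pos h3] at hv
    exact h hv
  · rw [if_neg h3] at hv
    exact h3 hv

/-- the subfield of fractions of fixed polynomials -/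
def KF (s : R V →ₐ[ZMod 2] R V) : Subfield (F V) where
  carrier := {f | ∃ a b : R V, b ≠ 0 ∧ s a = a ∧ s b = b ∧
    f * algebraMap (R V) (F V) b = algebraMap (R V) (F V) a}
  mul_mem' := by
    rintro f g ⟨a, b, hb, h1, h2, h3⟩ ⟨a', b', hb', h1', h2', h3'⟩
    refine ⟨a * a', b * b', mul_ne_zero hb hb', by rw [map_mul, h1, h1'], by rw [map_mul, h2, h2'], ?_⟩
    rw [map_mul, map_mul, ← h3, ← h3']
    ring
  one_mem' := ⟨1, 1, one_ne_zero, map_one _, map_one _, by rw [one_mul]⟩
  add_mem' := by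
    rintro f g ⟨a, b, hb, h1, h2, h3⟩ ⟨a', b', hb', h1', h2', h3'⟩
    refine ⟨a * b' + a' * b, b * b', mul_ne_zero hb hb', ?_, by rw [map_mul, h2, h2'], ?_⟩
    · rw [map_add, map_mul, map_mul, h1, h1', h2, h2']
    · rw [map_mul, map_add, map_mul, map_mul, ← h3, ← h3']
      ring
  zero_mem' := ⟨0, 1, one_ne_zero, map_zero _, map_one _, by rw [zero_mul, map_zero]⟩
  neg_mem' := by
    rintro f ⟨a, b, hb, h1, h2, h3⟩
    exact ⟨-a, b, hb, by rw [map_neg, h1], h2, by rw [neg_mul, h3, map_neg]⟩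
  inv_mem' := by
    rintro f ⟨a, b, hb, h1, h2, h3⟩
    by_cases hf : f = 0
    · rw [hf, inv_zero]
      exact ⟨0, 1, one_ne_zero, map_zero _, map_one _, by rw [zero_mul, map_zero]⟩
    · have hinj := IsFractionRing.injective (R V) (F V)
      have hb' : algebraMap (R V) (F V) b ≠ 0 := by
        intro h
        exact hb (hinj (by rw [h, map_zero]))
      refine ⟨b, a, ?_, h2, h1, ?_⟩
      · rintro rfl
        rw [map_zero] at h3
        exact (mul_ne_zero hf hb') h3
      · rw [← h3, ← mul_assoc, inv_mul_cancel₀ hf, one_mul]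

theorem mem_KF {s : R V →ₐ[ZMod 2] R V} {f : F V} : f ∈ KF s ↔ ∃ a b : R V, b ≠ 0 ∧ s a = a ∧ s b = b ∧
    f * algebraMap (R V) (F V) b = algebraMap (R V) (F V) a := Iff.rfl

theorem xF_mem {w q u : V} (h : u ≠ w) : xF u ∈ KF (sg w q) := by
  refine mem_KF.2 ⟨xx u, 1, one_ne_zero, ?_, map_one _, ?_⟩
  · unfold xx
    rw [map_pow, sg_X_ne h]
  · rw [map_one, mul_one]
    rfl

theorem xx_ne {u v : V} (h : u ≠ v) : (xx u : R V) ≠ xx v := by
  intro h1
  unfold xx at h1
  rw [X_pow_eq_monomial, X_pow_eq_monomial, monomial_left_inj one_ne_zero] at h1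
  have h2 := DFunLike.congr_fun h1 u
  rw [Finsupp.single_eq_same, Finsupp.single_eq_of_ne h] at h2
  norm_num at h2

theorem xF_notMem {w q : V} (h : q ≠ w) : xF w ∉ KF (sg w q) := by
  intro hm
  obtain ⟨a, b, hb, h1, h2, h3⟩ := mem_KF.1 hm
  unfold xF at h3
  rw [← map_mul] at h3
  have h4 : xx w * b = a := IsFractionRing.injective (R V) (F V) h3
  have h5 : xx q * b = a := by
    have h6 := congrArg (sg w q) h4
    rw [map_mul, h1, h2] at h6
    unfold xx at h6 ⊢
    rw [map_pow, sg_X_self] at h6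
    exact h6
  have h6 : xx w * b = xx q * b := h4.trans h5.symm
  exact xx_ne h.symm (mul_right_cancel₀ hb h6)

theorem xF_ne {u v : V} (h : u ≠ v) : (xF u : F V) ≠ xF v := fun h1 =>
  xx_ne h (IsFractionRing.injective (R V) (F V) h1)

theorem two_zero (x : F V) : x + x = 0 := by
  have h1 : (2 : R V) = 0 := CharTwo.two_eq_zero
  have h2 : (2 : F V) = 0 := by
    have h3 := congrArg (algebraMap (R V) (F V)) h1
    rw [map_ofNat, map_zero] at h3
    exact h3
  rw [← two_mul, h2, zero_mul]

theorem neg_self (x : F V) : -x = x := by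
  rw [neg_eq_iff_add_eq_zero, two_zero]

/-- the equation of the kernel -/
theorem eqn {A : Gr V} (hA : IsEv A) (f : V → F V) (p : V) :
    (Lap A).mulVec f p = ∑ u, (if A p u = 0 then 0 else (xF p + xF u)⁻¹) * (f p + f u) := by
  have h1 : ∀ u, (if A p u = 0 then 0 else (xF p + xF u)⁻¹) * (f p + f u) =
      (if A p u = 0 then 0 else (xF p + xF u)⁻¹) * f p +
      (if A p u = 0 then 0 else (xF p + xF u)⁻¹) * f u := fun u => mul_add _ _ _
  have h2 : ∀ u, Lap A p u * f u = (if p = u then (∑ w, (if A p w = 0 then 0 else (xF p + xF w)⁻¹)) * f p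
      else 0) + (if A p u = 0 then 0 else (xF p + xF u)⁻¹) * f u := by
    intro u
    unfold Lap
    by_cases h : p = u
    · subst h
      rw [if_pos rfl, if_pos rfl, if_pos (hA.diag p), zero_mul, add_zero]
    · rw [if_neg h, if_neg h, zero_add]
  rw [sum_congr rfl fun u _ => h1 u, sum_add_distrib, ← sum_mul]
  show ∑ u, Lap A p u * f u = _
  rw [sum_congr rfl fun u _ => h2 u, sum_add_distrib, sum_ite_eq, if_pos (mem_univ _)]

/-- the key lemma -/
theorem affine {A : Gr V} (hA : IsEv A) {w q : V} (hq : q ∈ nbr A w) (hqw : q ≠ w) {f : V → F V}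
    (hf : (Lap A).mulVec f = 0) (hK : ∀ u, u ≠ w → f u ∈ KF (sg w q)) :
    ∃ g h : F V, ∀ p ∈ insert w (nbr A w), f p = g + h * xF p := by
  have hmem : ∀ p ∈ nbr A w, A w p ≠ 0 := fun p hp => (mem_filter.1 hp).2
  have hne : ∀ p ∈ nbr A w, p ≠ w := by
    rintro p hp rfl
    exact hmem p hp (hA.diag p)
  have h1 : ∀ p ∈ nbr A w, (xF p + xF w)⁻¹ * (f p + f w) ∈ KF (sg w q) := by
    intro p hp
    have hpw := hne p hp
    have h2 := congrFun hf p
    rw [eqn hA, Pi.zero_apply, ← add_sum_erase _ _ (mem_univ w), if_neg (by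
      rw [hA.symm]
      exact hmem p hp)] at h2
    rw [eq_neg_of_add_eq_zero_left h2]
    refine neg_mem (sum_mem fun u hu => ?_)
    have huw : u ≠ w := ne_of_mem_erase hu
    refine mul_mem ?_ (add_mem (hK p hpw) (hK u huw))
    split_ifs
    · exact zero_mem _
    · exact inv_mem (add_mem (xF_mem hpw) (xF_mem huw))
  have h2 : ∀ p ∈ nbr A w, f w = (xF p + xF w)⁻¹ * (f p + f w) * xF w +
      ((xF p + xF w)⁻¹ * (f p + f w) * xF p - f p) := by
    intro p hp
    have h3 : xF p + xF w ≠ 0 := by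
      intro h
      rw [← neg_self (xF w)] at h
      exact xF_ne (hne p hp) (by rw [← sub_eq_add_neg] at h; exact sub_eq_zero.1 h)
    have h4 : (xF p + xF w)⁻¹ * (f p + f w) * (xF p + xF w) = f p + f w := by
      rw [mul_comm, ← mul_assoc, mul_inv_cancel₀ h3, one_mul]
    linear_combination h4.symm
  have h3 : ∀ p ∈ nbr A w, (xF p + xF w)⁻¹ * (f p + f w) = (xF q + xF w)⁻¹ * (f q + f w) := by
    intro p hp
    by_contra hc
    apply xF_notMem (V := V) hqw
    have h4 := sub_ne_zero.2 hc
    have h5 : xF w = ((xF p + xF w)⁻¹ * (f p + f w) - (xF q + xF w)⁻¹ * (f q + f w))⁻¹ *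
        (((xF q + xF w)⁻¹ * (f q + f w) * xF q - f q) -
          ((xF p + xF w)⁻¹ * (f p + f w) * xF p - f p)) := by
      rw [eq_inv_mul_iff_mul_eq₀ h4]
      have e1 := h2 p hp
      have e2 := h2 q hq
      linear_combination e2 - e1
    rw [h5]
    have hp' := h1 p hp
    have hq' := h1 q hq
    exact mul_mem (inv_mem (sub_mem hp' hq')) (sub_mem
      (sub_mem (mul_mem hq' (xF_mem hqw)) (hK q hqw))
      (sub_mem (mul_mem hp' (xF_mem (hne p hp))) (hK p (hne p hp))))
  refine ⟨(xF q + xF w)⁻¹ * (f q + f w) * xF q - f q, (xF q + xF w)⁻¹ * (f q + f w), fun p hp => ?_⟩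
  rcases mem_insert.1 hp with rfl | hp
  · have := h2 q hq
    linear_combination this
  · have e1 := h2 p hp
    have e2 := h2 q hq
    rw [h3 p hp] at e1
    have e3 : f p = (xF q + xF w)⁻¹ * (f q + f w) * xF p -
        ((xF q + xF w)⁻¹ * (f q + f w) * xF q - f q) := by
      linear_combination e1 - e2
    rw [e3, sub_eq_add_neg, neg_self, add_comm]

/-- independent columns -/
theorem indep {A : Gr V} {J : Finset V} (h : nuC A J = J.card) (c : V → F V)
    (hc : ∀ u, u ∉ J → c u = 0) (h0 : (Lap A).mulVec c = 0) : c = 0 := by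
  have hli : LinearIndependent (F V) (fun j : J => (Lap A).col (j : V)) := by
    rw [linearIndependent_iff_card_eq_finrank_span]
    have e : Set.range (fun j : J => (Lap A).col (j : V)) = (fun j : V => (Lap A).col j) '' (J : Set V) := by
      ext x
      constructor
      · rintro ⟨j, rfl⟩
        exact ⟨j, j.2, rfl⟩
      · rintro ⟨j, hj, rfl⟩
        exact ⟨⟨j, hj⟩, rfl⟩
    rw [e, Fintype.card_coe, ← h]
    rfl
  have h1 := Fintype.linearIndependent_iff.1 hli (fun j => c j) (by
    funext i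
    have h2 := congrFun h0 i
    have h3 : (Lap A).mulVec c i = ∑ j ∈ J, Lap A i j * c j := by
      show ∑ j, Lap A i j * c j = _
      refine (sum_subset (subset_univ J) fun j _ hj => ?_).symm
      rw [hc j hj, mul_zero]
    rw [h3, ← sum_coe_sort] at h2
    rw [Finset.sum_apply]
    refine Eq.trans ?_ h2
    refine sum_congr rfl fun j _ => ?_
    show c j * Lap A i j = _
    rw [mul_comm])
  funext u
  by_cases hu : u ∈ J
  · exact h1 ⟨u, hu⟩
  · exact hc u hu

end Aux_lin

open Aux_lin in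
theorem p_lin : S_dd → S_dlog → S_ker → S_ind → S_basis → S_cnt → S_deg → S_dvd → S_interp → S_rk →
    S_lin := by
  intro hdd _ hker hind hbasis hcnt hdeg _ hint _ V _ _ A w Z hA hw hZ hcard hz
  obtain ⟨b1, b2, b3, b4, b5, b6, b7, b8⟩ := hbasis V A hA
  -- the basis
  obtain ⟨J, hwJ', _, hJc, hJ⟩ := b4 univ {w} (subset_univ _) (b7 w hw)
  have hwJ : w ∈ J := hwJ' (mem_singleton_self w)
  rw [b1] at hJc
  -- the point `q`
  obtain ⟨q, hq, hqZ⟩ : ∃ q ∈ nbr A w, q ∉ Z := by
    by_contra hc
    push Not at hc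
    have := card_le_card (show nbr A w ⊆ Z from fun q hq => hc q hq)
    omega
  have hmem : ∀ p ∈ nbr A w, A w p ≠ 0 := fun p hp => (mem_filter.1 hp).2
  have hqw : q ≠ w := by
    rintro rfl
    exact hmem q hq (hA.diag q)
  have hwZ : w ∉ insert q Z := by
    rw [mem_insert]
    rintro (h | h)
    · exact hqw h.symm
    · exact hmem w (hZ h) (hA.diag w)
  have hsJ : sg w q (PJ A J) ≠ 0 := by
    intro h
    have h1 := hcnt V A J w hA hwJ hJ (insert q Z) (insert_subset hq hZ) (fun w' hw' => by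
      rcases mem_insert.1 hw' with rfl | hw'
      · exact h
      · exact hz J hwJ hJc w' hw')
    rw [card_insert_of_notMem hqZ] at h1
    omega
  -- the ratios
  have hdegJ : ∀ J' : Finset V, w ∈ J' → degreeOf w (PJ A J') ≤ 2 * Z.card := by
    intro J' hJ'
    by_cases h : PJ A J' = 0
    · rw [h, degreeOf_zero]
      omega
    · have := (hdeg V A J' w hA).2 hJ' h
      omega
  have hratio : ∀ J' : Finset V, w ∈ J' → J'.card = nu A →
      PJ A J' * sg w q (PJ A J) = PJ A J * sg w q (PJ A J') := by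
    intro J' hJ' hc'
    have h1 := hint V w (insert q Z) Z.card (PJ A J' * sg w q (PJ A J) - PJ A J * sg w q (PJ A J'))
      (by
        have d1 : pderiv w (PJ A J') = 0 := (hdd V).2.2.2.1 J' w (PP A) hJ'
        have d2 : pderiv w (PJ A J) = 0 := (hdd V).2.2.2.1 J w (PP A) hwJ
        rw [map_sub, pderiv_mul, pderiv_mul, d1, d2, pderiv_sg hqw, pderiv_sg hqw]
        simp)
      (by
        refine (degreeOf_sub_le _ _ _).trans (max_le ?_ ?_)
        · refine (degreeOf_mul_le _ _ _).trans ?_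
          rw [deg_sg hqw, add_zero]
          exact hdegJ J' hJ'
        · refine (degreeOf_mul_le _ _ _).trans ?_
          rw [deg_sg hqw, add_zero]
          exact hdegJ J hwJ)
      hwZ
      (fun w' hw' => by
        rcases mem_insert.1 hw' with rfl | hw'
        · rw [map_sub, map_mul, map_mul, sg_sg hqw, sg_sg hqw]
          ring
        · rw [map_sub, map_mul, map_mul, hz J' hJ' hc' w' hw', hz J hwJ hJc w' hw']
          ring)
      (by rw [card_insert_of_notMem hqZ]; omega)
    exact sub_eq_zero.1 h1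
  have hinj := IsFractionRing.injective (R V) (F V)
  have hJ0 : algebraMap (R V) (F V) (PJ A J) ≠ 0 := fun h => hJ (hinj (by rw [h, map_zero]))
  have hratio2 : ∀ J' : Finset V, w ∈ J' → J'.card = nu A →
      (algebraMap (R V) (F V) (PJ A J))⁻¹ * algebraMap (R V) (F V) (PJ A J') ∈ KF (sg w q) := by
    intro J' hJ' hc'
    refine mem_KF.2 ⟨sg w q (PJ A J'), sg w q (PJ A J), hsJ, sg_sg hqw _, sg_sg hqw _, ?_⟩
    rw [mul_assoc, ← map_mul, hratio J' hJ' hc', map_mul, ← mul_assoc, inv_mul_cancel₀ hJ0, one_mul]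
  -- the kernel vectors
  obtain ⟨κ, hκ⟩ : ∃ κ : V → V → F V, κ = fun v u => (algebraMap (R V) (F V) (PJ A J))⁻¹ *
    algebraMap (R V) (F V)
      (if u = v then PJ A J else if u ∈ J then PJ A (insert v (J.erase u)) else 0) := ⟨_, rfl⟩
  have hκker : ∀ v, v ∉ J → (Lap A).mulVec (κ v) = 0 := by
    intro v hv
    have h1 : PJ A (insert v J) = 0 := by
      by_contra hc
      have h2 := b5 univ (insert v J) (subset_univ _) hc
      rw [b1, card_insert_of_notMem hv] at h2
      omega
    have h2 := hker V A J v hA hv h1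
    have h3 : κ v = (algebraMap (R V) (F V) (PJ A J))⁻¹ • (fun u => algebraMap (R V) (F V)
        (if u = v then PJ A J else if u ∈ J then PJ A (insert v (J.erase u)) else 0)) := by
      rw [hκ]
      rfl
    rw [h3, Matrix.mulVec_smul, h2, smul_zero]
  have hκK : ∀ v, v ∉ J → ∀ u, u ≠ w → κ v u ∈ KF (sg w q) := by
    intro v hv u hu
    rw [hκ]
    simp only
    split_ifs with h1 h2
    · rw [inv_mul_cancel₀ hJ0]
      exact one_mem _
    · refine hratio2 _ ?_ ?_
      · exact mem_insert_of_mem (mem_erase.2 ⟨hu.symm, hwJ⟩)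
      · rw [card_insert_of_notMem (fun h => hv (mem_of_mem_erase h)), card_erase_of_mem h2, hJc]
        have : 0 < J.card := card_pos.2 ⟨w, hwJ⟩
        omega
    · rw [map_zero, mul_zero]
      exact zero_mem _
  have hκaff : ∀ v, v ∉ J → ∃ g h : F V, ∀ p ∈ insert w (nbr A w), κ v p = g + h * xF p :=
    fun v hv => affine hA hq hqw (hκker v hv) (hκK v hv)
  -- decomposition
  have hdec : ∀ f : V → F V, (Lap A).mulVec f = 0 → f = ∑ v ∈ Jᶜ, f v • κ v := by
    intro f hf
    have h1 := indep ((hind V A J hA).1 hJ) (f - ∑ v ∈ Jᶜ, f v • κ v) (fun u hu => by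
      rw [Pi.sub_apply, Finset.sum_apply]
      have h2 : ∀ v ∈ Jᶜ, (f v • κ v) u = if u = v then f v else 0 := by
        intro v _
        rw [Pi.smul_apply, smul_eq_mul, hκ]
        simp only
        by_cases h3 : u = v
        · rw [if_pos h3, if_pos h3, inv_mul_cancel₀ hJ0, mul_one]
        · rw [if_neg h3, if_neg h3, if_neg hu, map_zero, mul_zero, mul_zero]
      rw [sum_congr rfl h2, sum_ite_eq, if_pos (mem_compl.2 hu), sub_self]) (by
      rw [Matrix.mulVec_sub, hf, zero_sub, neg_eq_zero]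
      have h3 : (Lap A).mulVec (∑ v ∈ Jᶜ, f v • κ v) = ∑ v ∈ Jᶜ, f v • (Lap A).mulVec (κ v) := by
        have h4 := map_sum (Lap A).mulVecLin (fun v => f v • κ v) Jᶜ
        simp only [Matrix.mulVecLin_apply, map_smul] at h4
        exact h4
      rw [h3]
      refine sum_eq_zero fun v hv => ?_
      rw [hκker v (mem_compl.1 hv), smul_zero])
    exact sub_eq_zero.1 h1
  -- conclusion
  classical
  have hle : Submodule.map (LinearMap.funLeft (F V) (F V) (fun b : ↥(insert w (nbr A w)) => (b : V)))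
      (LinearMap.ker (Lap A).mulVecLin) ≤ Submodule.span (F V)
        (({(fun _ => 1), (fun b : ↥(insert w (nbr A w)) => xF (b : V))} :
          Finset (↥(insert w (nbr A w)) → F V)) : Set (↥(insert w (nbr A w)) → F V)) := by
    rintro _ ⟨f, hf, rfl⟩
    have hf' : (Lap A).mulVec f = 0 := hf
    have h1 := hdec f hf'
    rw [h1, map_sum]
    refine Submodule.sum_mem _ fun v hv => ?_
    rw [map_smul]
    refine Submodule.smul_mem _ _ ?_
    obtain ⟨g, h, hgh⟩ := hκaff v (mem_compl.1 hv)
    rw [coe_insert, coe_singleton]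
    refine Submodule.mem_span_pair.2 ⟨g, h, ?_⟩
    funext b
    rw [Pi.add_apply, Pi.smul_apply, Pi.smul_apply, smul_eq_mul, smul_eq_mul, mul_one,
      LinearMap.funLeft_apply]
    exact (hgh b b.2).symm
  unfold rk
  refine (Submodule.finrank_mono hle).trans ((finrank_span_finset_le_card _).trans ?_)
  exact card_le_two

end Pool.Agent.W390.SD
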