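import Pool.Agent.W390.SD.Stm3

/-!
# Project SD, part M12 (helper320)
-/

set_option autoImplicit false

namespace Pool.Agent.W390.SD.Aux_m1

open MvPolynomial Finset Pool.Agent.W390.SD

theorem mem_nbr {V : Type} [Fintype V] {A : Gr V} {u v : V} : u ∈ nbr A v ↔ A v u ≠ 0 := by
  unfold nbr
  rw [mem_filter]
  exact ⟨fun h => h.2, fun h => ⟨mem_univ _, h⟩⟩

theorem mem_supp {V : Type} [Fintype V] {A : Gr V} {u v : V} (h : A v u ≠ 0) : v ∈ supp A := by
  unfold supp
  rw [mem_filter]
  exact ⟨mem_univ _, u, mem_nbr.2 h⟩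

theorem z01 (x : ZMod 2) : x ≠ 0 → x = 1 := by
  revert x
  decide

/-- the degree in a clique -/
theorem odd_card {V : Type} [Fintype V] [DecidableEq V] {S : Finset V} {b : V} (hb : b ∈ S)
    (h : IsEv (K S)) : Odd S.card := by
  have h1 : ∑ u, K S b u = (((S.erase b).card : ℕ) : ZMod 2) := by
    have h2 : S.erase b = univ.filter (fun u => u ∈ S ∧ b ≠ u) := by
      ext u
      simp only [mem_erase, mem_filter, mem_univ, true_and]
      constructor
      · rintro ⟨h3, h4⟩
        exact ⟨h4, fun h5 => h3 h5.symm⟩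
      · rintro ⟨h3, h4⟩
        exact ⟨fun h5 => h4 h5.symm, h3⟩
    rw [h2, Finset.card_filter]
    push_cast
    refine sum_congr rfl fun u _ => ?_
    unfold K
    simp only [hb, true_and]
  rw [h.even b] at h1
  have h3 : Even (S.erase b).card := (ZMod.natCast_eq_zero_iff_even).1 h1.symm
  rw [card_erase_of_mem hb] at h3
  have h4 : 1 ≤ S.card := card_pos.2 ⟨b, hb⟩
  obtain ⟨m, hm⟩ := h3
  exact ⟨m, by omega⟩

end Pool.Agent.W390.SD.Aux_m1

namespace Pool.Agent.W390.SD

open MvPolynomial Finset Aux_m1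

theorem p_m1 : S_basis → S_zero → S_clique → S_ctr → S_degbd → S_m1 := by
  intro _ _ hcl hctr hdb V _ _ G b b' hU hN hg hK
  obtain ⟨hedge, hnu⟩ := hg
  have hG : IsEv G := hU.1
  have hne : b ≠ b' := by
    rintro rfl
    exact hedge (hG.diag _)
  have hbs : b ∈ supp G := mem_supp hedge
  have hedge' : G b' b ≠ 0 := by rw [hG.symm]; exact hedge
  have hbs' : b' ∈ supp G := mem_supp hedge'
  have hY : IsEv (ctr b b' G) := (hctr V G G b b' hne hG hG).1
  set S := (supp G).erase b with hS
  have hb'S : b' ∈ S := mem_erase.2 ⟨hne.symm, hbs'⟩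
  have hSc : S.card + 1 = (supp G).card := by
    rw [hS, card_erase_of_mem hbs]
    have : 1 ≤ (supp G).card := card_pos.2 ⟨b, hbs⟩
    omega
  have hodd : Odd S.card := by
    rw [hK] at hY
    exact odd_card hb'S hY
  obtain ⟨-, -, hnuK, -⟩ := hcl V S hodd
  rw [hK] at hnu
  -- `2 nu G = N`
  have h2 : 2 * nu G = (supp G).card := by omega
  obtain ⟨r, hr⟩ : ∃ r, nu G + r = (supp G).card := ⟨(supp G).card - nu G, by omega⟩
  have d1 := hdb V G b r hU hbs hr
  have d2 := hdb V G b' r hU hbs' hr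
  have hdisj : Disjoint (nbr G b) (nbr G b') := by
    rw [Finset.disjoint_left]
    intro v hv hv'
    rw [mem_nbr] at hv hv'
    have hvb : v ≠ b := by
      rintro rfl
      exact hv (hG.diag _)
    have hvb' : v ≠ b' := by
      rintro rfl
      exact hv' (hG.diag _)
    have hvs : v ∈ supp G := mem_supp (u := b) (by rw [hG.symm]; exact hv)
    have hvS : v ∈ S := mem_erase.2 ⟨hvb, hvs⟩
    have e1 : ctr b b' G b' v = G b' v + G b v := by
      unfold ctr
      rw [if_neg (by rintro (h | h | h); exacts [hne h.symm, hvb h, hvb' h.symm]), if_pos rfl]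
    have e2 : K S b' v = 1 := by
      unfold K
      rw [if_pos ⟨hb'S, hvS, fun h => hvb' h.symm⟩]
    rw [hK, e2, z01 _ hv, z01 _ hv'] at e1
    exact absurd e1 (by decide)
  have hsub : nbr G b ∪ nbr G b' ⊆ supp G := by
    intro v hv
    rcases mem_union.1 hv with h | h
    · rw [mem_nbr] at h
      exact mem_supp (u := b) (by rw [hG.symm]; exact h)
    · rw [mem_nbr] at h
      exact mem_supp (u := b') (by rw [hG.symm]; exact h)
  have hc := card_le_card hsub
  rw [card_union_of_disjoint hdisj] at hc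
  omega

end Pool.Agent.W390.SD
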