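import Pool.Agent.W390.SD.Stm2

set_option autoImplicit false

namespace Pool.Agent.W390.SD

open MvPolynomial Finset

namespace Aux_mult

variable {V : Type} [Fintype V] [DecidableEq V]

theorem fac_mk (a b : V) : fac s(a, b) = (X a + X b : R V) := rfl

theorem mem_edg {A : Gr V} (hA : IsEv A) (a b : V) : s(a, b) ∈ edg A ↔ A a b ≠ 0 := by
  unfold edg
  rw [Finset.mem_image]
  constructor
  · rintro ⟨⟨c, d⟩, h, he⟩
    rw [Finset.mem_filter] at h
    have h2 := h.2
    simp only at h2 he
    rw [Sym2.eq_iff] at he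
    rcases he with ⟨rfl, rfl⟩ | ⟨rfl, rfl⟩
    · exact h2
    · rw [hA.symm]; exact h2
  · intro h
    exact ⟨(a, b), by simpa using h, rfl⟩

/-- the product over the edges not at `w` -/
noncomputable def rest (A : Gr V) (w : V) : R V :=
  ∏ e ∈ (edg A).filter (fun e => ¬ w ∈ e), fac e

theorem filt_eq {A : Gr V} (hA : IsEv A) (w : V) :
    (edg A).filter (fun e => w ∈ e) = (nbr A w).image (fun u => s(w, u)) := by
  ext e
  induction e using Sym2.ind with
  | _ a b =>
    rw [Finset.mem_filter, mem_edg hA, Finset.mem_image]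
    constructor
    · rintro ⟨h1, h2⟩
      rw [Sym2.mem_iff] at h2
      rcases h2 with rfl | rfl
      · exact ⟨b, by simpa [nbr] using h1, rfl⟩
      · refine ⟨a, ?_, Sym2.eq_swap⟩
        rw [hA.symm] at h1
        simpa [nbr] using h1
    · rintro ⟨u, hu, he⟩
      have hu' : A w u ≠ 0 := by simpa [nbr] using hu
      rw [Sym2.eq_iff] at he
      rcases he with ⟨rfl, rfl⟩ | ⟨rfl, rfl⟩
      · exact ⟨hu', Sym2.mem_mk_left _ _⟩
      · exact ⟨by rw [hA.symm]; exact hu', Sym2.mem_mk_right _ _⟩

theorem PP_eq {A : Gr V} (hA : IsEv A) (w : V) :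
    PP A = (∏ u ∈ nbr A w, (X w + X u : R V)) * rest A w := by
  unfold PP rest
  rw [← Finset.prod_filter_mul_prod_filter_not (edg A) (fun e => w ∈ e), filt_eq hA,
    Finset.prod_image]
  · rfl
  · intro a _ b _ h
    rw [Sym2.eq_iff] at h
    rcases h with ⟨_, h⟩ | ⟨h1, h2⟩
    · exact h
    · rw [h2, h1]

theorem pderiv_prod_zero {ι : Type} (s : Finset ι) (f : ι → R V) (w : V)
    (h : ∀ i ∈ s, pderiv w (f i) = 0) : pderiv w (∏ i ∈ s, f i) = 0 := by
  classical
  induction s using Finset.induction_on with
  | empty => simp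
  | insert a s ha ih =>
    rw [Finset.prod_insert ha, Derivation.leibniz, h a (Finset.mem_insert_self _ _),
      ih (fun i hi => h i (Finset.mem_insert_of_mem hi))]
    simp

theorem pderiv_rest (A : Gr V) (w : V) : pderiv w (rest A w) = 0 := by
  apply pderiv_prod_zero
  intro e he
  rw [Finset.mem_filter] at he
  induction e using Sym2.ind with
  | _ a b =>
    rw [Sym2.mem_iff] at he
    push Not at he
    rw [fac_mk, map_add, pderiv_X_of_ne (Ne.symm he.2.1), pderiv_X_of_ne (Ne.symm he.2.2), add_zero]

theorem sg_rest (A : Gr V) (w w' : V) : sg w w' (rest A w) = rest A w := by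
  unfold rest
  rw [map_prod]
  apply Finset.prod_congr rfl
  intro e he
  rw [Finset.mem_filter] at he
  induction e using Sym2.ind with
  | _ a b =>
    rw [Sym2.mem_iff] at he
    push Not at he
    rw [fac_mk]
    simp [sg, Ne.symm he.2.1, Ne.symm he.2.2]

/-- the products of the `t_{w'} + t_u` -/
noncomputable def Y (w' : V) (T : Finset V) : R V := ∏ u ∈ T, (X w' + X u)

theorem pderiv_sq (p : V) (f : R V) : pderiv p (f ^ 2) = 0 := by
  rw [pow_two, Derivation.leibniz]
  exact CharTwo.add_self_eq_zero _

theorem two_zero : (2 : R V) = 0 := CharTwo.two_eq_zero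

theorem pderiv_even (p : V) (f : R V) (k : ℕ) : pderiv p (f ^ (2 * k)) = 0 := by
  rw [pow_mul']
  exact pderiv_sq p _

theorem X_ne (a b : V) (h : a ≠ b) : (X a + X b : R V) ≠ 0 := by
  intro h1
  have h2 := congrArg (fun p => coeff (Finsupp.single a 1) p) h1
  simp only [coeff_add, coeff_zero] at h2
  rw [coeff_X', coeff_X'] at h2
  rw [if_pos rfl, if_neg] at h2
  · simp at h2
  · intro h3
    rw [Finsupp.single_left_inj one_ne_zero] at h3
    exact h h3.symm

theorem Y_ne (w' : V) (T : Finset V) (h : w' ∉ T) : Y w' T ≠ 0 := by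
  unfold Y
  rw [Finset.prod_ne_zero_iff]
  intro u hu
  apply X_ne
  rintro rfl
  exact h hu

end Aux_mult

open Aux_mult in
theorem p_mult : S_dd → S_ddsg → S_dvd → S_basis → S_ctr_edge → S_ctr → S_deg → S_mult := by
  intro hdd _ _ hbasis hce hctr _ V _ _ A J w w' hA hwJ hJ hww hnu
  classical
  obtain ⟨dd0, ddi, ddc, _, ddm, ddX, _⟩ := hdd V
  have hne : w ≠ w' := by
    rintro rfl
    exact hww (hA.diag _)
  have hC : IsEv (ctr w w' A) := (hctr V A A w w' hne hA hA).1
  obtain ⟨hb1, _, _, _, hb5, _, _, _⟩ := hbasis V (ctr w w' A) hC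
  -- vanishing of the high derivatives
  have hzero : ∀ K' : Finset V, nu (ctr w w' A) < K'.card → dd K' (PP (ctr w w' A)) = 0 := by
    intro K' hK
    by_contra h
    have := hb5 Finset.univ K' (Finset.subset_univ _) h
    rw [hb1] at this
    omega
  set C := PP (ctr w w' A) with hCdef
  have hzero2 : ∀ T : Finset V, ∀ K' : Finset V, nu (ctr w w' A) + T.card < K'.card →
      dd K' (Y w' T * C) = 0 := by
    intro T
    induction T using Finset.induction_on with
    | empty =>
      intro K' hK
      unfold Y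
      rw [Finset.prod_empty, one_mul]
      exact hzero K' (by simpa using hK)
    | insert u T hu ih =>
      intro K' hK
      rw [Finset.card_insert_of_notMem hu] at hK
      have e1 : Y w' (insert u T) * C = X w' * (Y w' T * C) + X u * (Y w' T * C) := by
        unfold Y
        rw [Finset.prod_insert hu]
        ring
      have hall : ∀ v : V, dd K' (X v * (Y w' T * C)) = 0 := by
        intro v
        rw [ddX, ih K' (by omega), mul_zero, zero_add]
        split_ifs with hv
        · apply ih
          rw [Finset.card_erase_of_mem hv]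
          omega
        · rfl
      rw [e1, map_add, hall, hall, add_zero]
  set D := (nbr A w).erase w' with hD
  have hw'N : w' ∈ nbr A w := by simpa [nbr] using hww
  have hw'D : w' ∉ D := Finset.notMem_erase _ _
  have hwD : w ∉ D := by
    intro h
    have h2 := Finset.mem_of_mem_erase h
    simp [nbr, hA.diag] at h2
  set ε : R V := X w + X w' with hε
  have hPP : PP A = ε * ((∏ u ∈ D, (X w + X u : R V)) * rest A w) := by
    rw [PP_eq hA w, ← Finset.mul_prod_erase _ _ hw'N, ← hD]
    ring
  -- the value at `t_w = t_{w'}`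
  have hq := hce V A {w} w w' hA hww (Finset.mem_singleton_self _)
  set q : R V := (∏ u ∈ nbr A w ∩ nbr A w', (X u + X w')) with hqdef
  have hdw : ∀ p : R V, dd {w} p = pderiv w p := by
    intro p
    have := ddi ∅ w p (Finset.notMem_empty _)
    rw [dd0] at this
    exact this
  have hbase : Y w' D * rest A w = q ^ 2 * C := by
    have e1 : PJ A {w} = (∏ u ∈ D, (X w + X u : R V)) * rest A w +
        ε * pderiv w ((∏ u ∈ D, (X w + X u : R V)) * rest A w) := by
      unfold PJ
      rw [hdw, hPP, Derivation.leibniz]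
      have : pderiv w ε = 1 := by
        rw [hε, map_add, pderiv_X_self, pderiv_X_of_ne (Ne.symm hne), add_zero]
      rw [this]
      simp only [smul_eq_mul, mul_one]
      ring
    have e2 : PJ (ctr w w' A) (({w} : Finset V).erase w) = C := by
      rw [Finset.erase_singleton]
      unfold PJ
      rw [dd0]
    rw [e2, e1] at hq
    rw [map_add, map_mul, map_mul, sg_rest] at hq
    have e3 : sg w w' ε = 0 := by
      rw [hε, map_add]
      simp only [sg, rename_X, if_true]
      rw [if_neg (Ne.symm hne)]
      exact CharTwo.add_self_eq_zero _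
    rw [e3, zero_mul, add_zero, map_prod] at hq
    rw [← hq]
    congr 1
    unfold Y
    apply Finset.prod_congr rfl
    intro u hu
    rw [map_add]
    have huw : u ≠ w := by
      rintro rfl
      exact hwD hu
    simp [sg, huw]
  -- expansion
  have hexp : PP A = ∑ S ∈ D.powerset, ε ^ (S.card + 1) * (Y w' (D \ S) * rest A w) := by
    have e1 : (∏ u ∈ D, (X w + X u : R V)) = ∏ u ∈ D, (ε + (X w' + X u)) := by
      apply Finset.prod_congr rfl
      intro u _
      have : (X w' : R V) + X w' = 0 := CharTwo.add_self_eq_zero _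
      rw [hε]
      linear_combination (-1 : R V) * this
    rw [hPP, e1, Finset.prod_add, Finset.sum_mul, Finset.mul_sum]
    apply Finset.sum_congr rfl
    intro S _
    rw [Finset.prod_const]
    unfold Y
    ring
  have hYw : ∀ T : Finset V, w ∉ T → pderiv w (Y w' T) = 0 := by
    intro T hT
    apply pderiv_prod_zero
    intro u hu
    rw [map_add, pderiv_X_of_ne (Ne.symm hne), pderiv_X_of_ne, add_zero]
    rintro rfl
    exact hT hu
  have hdε : pderiv w ε = 1 := by
    rw [hε, map_add, pderiv_X_self, pderiv_X_of_ne (Ne.symm hne), add_zero]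
  have hdP : pderiv w (PP A) = ∑ S ∈ D.powerset,
      (if Even S.card then ε ^ S.card * (Y w' (D \ S) * rest A w) else 0) := by
    rw [hexp, map_sum]
    apply Finset.sum_congr rfl
    intro S _
    have h0 : pderiv w (Y w' (D \ S) * rest A w) = 0 := by
      rw [Derivation.leibniz, pderiv_rest, hYw _ (fun h => hwD (Finset.mem_sdiff.1 h).1)]
      simp
    rw [Derivation.leibniz, h0, smul_zero, zero_add]
    split_ifs with hS
    · have h1 : pderiv w (ε ^ (S.card + 1)) = ε ^ S.card := by
        obtain ⟨k, hk⟩ := hS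
        rw [pow_succ, Derivation.leibniz, hdε, hk, ← two_mul, pderiv_even]
        simp
      rw [h1, smul_eq_mul]
      ring
    · have h1 : pderiv w (ε ^ (S.card + 1)) = 0 := by
        rw [Nat.not_even_iff_odd] at hS
        obtain ⟨k, hk⟩ := hS
        rw [hk, show 2 * k + 1 + 1 = 2 * (k + 1) by ring, pderiv_even]
      rw [h1, smul_zero]
  set J' := J.erase w with hJ'
  have hJ'c : J'.card + 1 = nu A := by
    rw [hJ', Finset.card_erase_of_mem hwJ, ← hJ]
    have := Finset.card_pos.2 ⟨w, hwJ⟩
    omega
  have hPJ : PJ A J = ∑ S ∈ D.powerset,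
      (if Even S.card then ε ^ S.card * dd J' (Y w' (D \ S) * rest A w) else 0) := by
    unfold PJ
    have e1 : dd J (PP A) = dd J' (pderiv w (PP A)) := by
      rw [ddc, ← ddi J' w _ (Finset.notMem_erase _ _), hJ', Finset.insert_erase hwJ]
    rw [e1, hdP, map_sum]
    apply Finset.sum_congr rfl
    intro S _
    split_ifs with hS
    · obtain ⟨k, hk⟩ := hS
      apply ddm
      intro j _
      rw [hk, ← two_mul]
      exact pderiv_even j _ _
    · exact map_zero _
  have hsmall : ∀ S ∈ D.powerset, S.card ≤ 2 → dd J' (Y w' (D \ S) * rest A w) = 0 := by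
    intro S hS hS2
    rw [Finset.mem_powerset] at hS
    have h1 : Y w' S ^ 2 * (Y w' (D \ S) * rest A w) = q ^ 2 * (Y w' S * C) := by
      have h2 : Y w' (D \ S) * Y w' S = Y w' D := by
        unfold Y
        exact Finset.prod_sdiff hS
      calc Y w' S ^ 2 * (Y w' (D \ S) * rest A w)
          = Y w' S * ((Y w' (D \ S) * Y w' S) * rest A w) := by ring
        _ = Y w' S * (q ^ 2 * C) := by rw [h2, hbase]
        _ = q ^ 2 * (Y w' S * C) := by ring
    have h3 : Y w' S ^ 2 * dd J' (Y w' (D \ S) * rest A w) = 0 := by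
      rw [← ddm J' (Y w' S ^ 2) _ (fun j _ => pderiv_sq j _), h1,
        ddm J' (q ^ 2) _ (fun j _ => pderiv_sq j _), hzero2 S J' (by omega), mul_zero]
    rcases mul_eq_zero.1 h3 with h4 | h4
    · exact absurd h4 (pow_ne_zero _ (Y_ne w' S (fun h => hw'D (hS h))))
    · exact h4
  rw [hPJ]
  apply Finset.dvd_sum
  intro S hS
  split_ifs with hev
  · rcases Nat.lt_or_ge S.card 3 with h3 | h3
    · rw [hsmall S hS (by omega), mul_zero]
      exact dvd_zero _
    · have h4 : 4 ≤ S.card := by
        obtain ⟨k, hk⟩ := hev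
        omega
      apply Dvd.dvd.mul_right
      have h5 : (xx w + xx w') ^ 2 = ε ^ 4 := by
        unfold xx
        have h6 : (X w ^ 2 + X w' ^ 2 : R V) = ε ^ 2 := by
          rw [hε]
          linear_combination (-(X w * X w') : R V) * (two_zero : (2 : R V) = 0)
        rw [h6]
        ring
      rw [h5]
      exact pow_dvd_pow _ h4
  · exact dvd_zero _

end Pool.Agent.W390.SD
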