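import Pool.Agent.W390.SD.Stm3

/-!
# Project SD, part M3 (helper505): neighbourhoods after a contraction
-/

namespace Pool.Agent.W390.SD

open MvPolynomial Finset

namespace Aux_nbr

theorem z2 (x : ZMod 2) (h : x ≠ 0) : x = 1 := by
  revert x
  decide

variable {V : Type} [Fintype V] [DecidableEq V]

theorem ctr_b (G : Gr V) (b b' w : V) : ctr b b' G w b = 0 := by
  unfold ctr
  rw [if_pos (Or.inr (Or.inl rfl))]

theorem ctr_b' (G : Gr V) {b b' w : V} (h1 : b ≠ b') (h2 : w ≠ b) (h3 : w ≠ b') :
    ctr b b' G w b' = G w b' + G w b := by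
  unfold ctr
  rw [if_neg (by rintro (h | h | h); exacts [h2 h, h1 h.symm, h3 h]), if_neg h3, if_pos rfl]

theorem ctr_x {G : Gr V} (hG : IsEv G) {b b' w x : V} (h2 : w ≠ b) (h3 : w ≠ b') (hx : x ≠ b)
    (hx' : x ≠ b') : ctr b b' G w x = G w x := by
  unfold ctr
  by_cases h : w = x
  · subst h
    rw [if_pos (Or.inr (Or.inr rfl)), hG.diag]
  · rw [if_neg (by rintro (h' | h' | h'); exacts [h2 h', hx h', h h']), if_neg h3, if_neg hx']

theorem mem_nbr {G : Gr V} {w x : V} : x ∈ nbr G w ↔ G w x ≠ 0 := by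
  unfold nbr
  rw [mem_filter]
  exact ⟨fun h => h.2, fun h => ⟨mem_univ _, h⟩⟩

end Aux_nbr

open Aux_nbr in
theorem p_nbr : S_nbr := by
  intro V _ _ G b b' w hG hbb hwb hwb'
  have hb : b ∉ nbr (ctr b b' G) w := by
    rw [mem_nbr, ctr_b]
    exact fun h => h rfl
  have hx : ∀ x, x ≠ b → x ≠ b' → (x ∈ nbr (ctr b b' G) w ↔ x ∈ nbr G w) := by
    intro x h1 h2
    rw [mem_nbr, mem_nbr, ctr_x hG hwb hwb' h1 h2]
  refine ⟨?_, ?_, hx, hb⟩
  · rintro ⟨h1, h2⟩
    have hb' : b' ∉ nbr (ctr b b' G) w := by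
      rw [mem_nbr, ctr_b' G hbb hwb hwb', z2 _ h1, z2 _ h2]
      exact fun h => h (by decide)
    refine ⟨hb', ?_⟩
    have e : nbr G w = insert b (insert b' (nbr (ctr b b' G) w)) := by
      ext x
      rw [mem_insert, mem_insert]
      by_cases hxb : x = b
      · subst hxb
        exact ⟨fun _ => Or.inl rfl, fun _ => mem_nbr.2 h1⟩
      · by_cases hxb' : x = b'
        · subst hxb'
          exact ⟨fun _ => Or.inr (Or.inl rfl), fun _ => mem_nbr.2 h2⟩
        · rw [hx x hxb hxb']
          exact ⟨fun h => Or.inr (Or.inr h), fun h => by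
            rcases h with h | h | h
            exacts [absurd h hxb, absurd h hxb', h]⟩
    rw [e, card_insert_of_notMem, card_insert_of_notMem hb']
    rw [mem_insert]
    rintro (h | h)
    exacts [hbb h, hb h]
  · intro hn
    by_cases h1 : G w b = 0
    · have e : nbr (ctr b b' G) w = nbr G w := by
        ext x
        by_cases hxb : x = b
        · subst hxb
          rw [mem_nbr, mem_nbr, ctr_b, h1]
        · by_cases hxb' : x = b'
          · subst hxb'
            rw [mem_nbr, mem_nbr, ctr_b' G hbb hwb hwb', h1, add_zero]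
          · exact hx x hxb hxb'
      rw [e]
    · have h2 : G w b' = 0 := by
        by_contra h2
        exact hn ⟨h1, h2⟩
      have hb' : b' ∈ nbr (ctr b b' G) w := by
        rw [mem_nbr, ctr_b' G hbb hwb hwb', h2, zero_add]
        exact h1
      have e : (nbr (ctr b b' G) w).erase b' = (nbr G w).erase b := by
        ext x
        rw [mem_erase, mem_erase]
        by_cases hxb : x = b
        · subst hxb
          exact ⟨fun h => absurd h.2 hb, fun h => absurd rfl h.1⟩
        · by_cases hxb' : x = b'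
          · subst hxb'
            exact ⟨fun h => absurd rfl h.1, fun h => absurd h2 (mem_nbr.1 h.2)⟩
          · rw [hx x hxb hxb']
            exact ⟨fun h => ⟨hxb, h.2⟩, fun h => ⟨hxb', h.2⟩⟩
      have h3 := card_erase_of_mem hb'
      have h4 := card_erase_of_mem (mem_nbr.2 h1)
      have h5 : 0 < (nbr (ctr b b' G) w).card := card_pos.2 ⟨_, hb'⟩
      have h6 : 0 < (nbr G w).card := card_pos.2 ⟨_, mem_nbr.2 h1⟩
      rw [e] at h3
      omega

end Pool.Agent.W390.SD
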