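import Pool.Agent.W390.SD.Stm1

/-!
# SD-ocons: consequences of orthogonality
-/

namespace Pool.Agent.W390.SD

namespace Aux_ocons

theorem grE1 {V : Type} (A B : Gr V) (h : B + B = 0) : (A + B) + B = A := by
  rw [add_assoc, h, add_zero]

end Aux_ocons

theorem p_ocons : S_add → S_tiff → S_tcons → S_oiff → S_ocons := by
  intro hadd htiff htcons hoiff V _ _ G H₁ H₂ hG hT1 hT2 hO
  have hT1' := hT1
  have hT2' := hT2
  obtain ⟨hE1, hn1⟩ := hT1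
  obtain ⟨hE2, hn2⟩ := hT2
  have hO' : nu G = nu H₁ + nu H₂ + nu (G + H₁ + H₂) := hO
  have hEs : IsEv (H₁ + H₂) := (hadd V H₁ H₂).2.1 hE1 hE2
  have hle : nu (H₁ + H₂) ≤ nu H₁ + nu H₂ := (hadd V H₁ H₂).2.2.2.2
  have hz : (H₁ + H₂) + (H₁ + H₂) = 0 := (hadd V (H₁ + H₂) (H₁ + H₂)).2.2.1
  have hGs : (G + (H₁ + H₂)) + (H₁ + H₂) = G := Aux_ocons.grE1 G (H₁ + H₂) hz
  have hle2 : nu G ≤ nu (G + (H₁ + H₂)) + nu (H₁ + H₂) := by
    have := (hadd V (G + (H₁ + H₂)) (H₁ + H₂)).2.2.2.2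
    rwa [hGs] at this
  have has : G + H₁ + H₂ = G + (H₁ + H₂) := add_assoc _ _ _
  rw [has] at hO'
  have heq : nu (H₁ + H₂) = nu H₁ + nu H₂ := by omega
  have hTs : Tight (H₁ + H₂) G := ⟨hEs, by omega⟩
  refine ⟨?_, hTs, heq, ?_, ?_⟩
  · show nu G = nu H₂ + nu H₁ + nu (G + H₂ + H₁)
    have h1 : G + H₂ + H₁ = G + (H₁ + H₂) := by
      rw [add_assoc, add_comm H₂ H₁]
    rw [h1]; omega
  · refine ⟨hE1, ?_⟩
    have h1 : G + H₂ + H₁ = G + (H₁ + H₂) := by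
      rw [add_assoc, add_comm H₂ H₁]
    rw [h1]; omega
  · intro H₃ hT3 hO1 hO2
    rw [hoiff V G (H₁ + H₂) H₃ hG hTs hT3]
    intro g h hgh
    have e1 := (hoiff V G H₁ H₃ hG hT1' hT3).1 hO1 g h hgh
    have e2 := (hoiff V G H₂ H₃ hG hT2' hT3).1 hO2 g h hgh
    rw [(hadd V H₁ H₂).1, Matrix.add_mulVec, e1, e2, add_zero]

end Pool.Agent.W390.SD
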