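import Pool.Agent.W390.SD.Stm1

set_option autoImplicit false

namespace Pool.Agent.W390.SD

open MvPolynomial Finset Matrix

namespace Aux_oiff

variable {V : Type} [Fintype V]

/-- symmetric matrices: `(M b) · u = b · (M u)` -/
lemma dot_symm {K : Type} [Field K] (M : Matrix V V K) (hM : M.IsSymm) (b u : V → K) :
    M.mulVec b ⬝ᵥ u = b ⬝ᵥ M.mulVec u := by
  rw [Matrix.dotProduct_mulVec, ← Matrix.mulVec_transpose, hM.eq]

end Aux_oiff

open Aux_oiff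

theorem p_oiff : S_add → S_tiff → S_tcons → S_oiff := by
  intro hadd htiff htcons V _ _ G H₁ H₂ hG hT₁ hT₂
  have hE₁ : IsEv H₁ := hT₁.1
  have hE₂ : IsEv H₂ := hT₂.1
  obtain ⟨hL12, hEv12, -, -, hnu12⟩ := hadd V H₁ H₂
  obtain ⟨hLG1, hEvG1, -, -, -⟩ := hadd V G H₁
  obtain ⟨-, -, -, hsG, -⟩ := hadd V G G
  obtain ⟨-, -, hz1, hs1, -⟩ := hadd V H₁ H₁
  obtain ⟨-, -, hz2, hs2, -⟩ := hadd V H₂ H₂
  have hE12 : IsEv (H₁ + H₂) := hEv12 hE₁ hE₂
  have hEG1 : IsEv (G + H₁) := hEvG1 hG hE₁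
  constructor
  · intro hO g h hgh
    have hO' : nu G = nu H₁ + nu H₂ + nu (G + H₁ + H₂) := hO
    have hsub := (hadd V (H₁ + H₂) (G + H₁ + H₂)).2.2.2.2
    have e1 : (H₁ + H₂) + (G + H₁ + H₂) = G := by
      have : (H₁ + H₂) + (G + H₁ + H₂) = G + (H₁ + H₁) + (H₂ + H₂) := by abel
      rw [this, hz1, hz2, add_zero, add_zero]
    rw [e1] at hsub
    have hT12 : Tight (H₁ + H₂) G := by
      refine ⟨hE12, ?_⟩
      rw [← add_assoc]
      omega
    have hT2' : Tight H₂ (H₁ + H₂) := by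
      refine ⟨hE₂, ?_⟩
      rw [add_assoc, hz2, add_zero]
      omega
    obtain ⟨-, ha⟩ := (htiff V G (H₁ + H₂) hG hE12).mp hT12
    obtain ⟨hb, hc⟩ := (htiff V (H₁ + H₂) H₂ hE12 hE₂).mp hT2'
    obtain ⟨h', hh'⟩ := hb h
    have h1 := ha g h' (by rw [hgh, hh'])
    have h2 := hc g h (by rw [h1, hh'])
    have h3 : (Lap (H₁ + H₂)).mulVec g = (Lap H₁).mulVec g + (Lap H₂).mulVec g := by
      rw [hL12, Matrix.add_mulVec]
    rw [h1, hh', h2] at h3
    exact (add_eq_right.mp h3.symm)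
  · intro hA
    obtain ⟨ha1, ha2⟩ := (htiff V G H₁ hG hE₁).mp hT₁
    obtain ⟨hb1, hb2⟩ := (htiff V G H₂ hG hE₂).mp hT₂
    have hk2 := (htcons V G H₂ hG hT₂).1
    -- the symmetric version of the hypothesis
    have hA' : ∀ u a, (Lap G).mulVec u = (Lap H₁).mulVec a → (Lap H₂).mulVec u = 0 := by
      intro u a hua
      refine dotProduct_eq_zero_iff.mp ?_
      intro b
      obtain ⟨gb, hgb⟩ := hb1 b
      have h1 := hA gb b hgb
      rw [dotProduct_comm, ← dot_symm _ (hs2 hE₂), ← hgb, dot_symm _ (hsG hG), hua,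
        ← dot_symm _ (hs1 hE₁), h1, zero_dotProduct]
    have hT : Tight H₂ (G + H₁) := by
      refine (htiff V (G + H₁) H₂ hEG1 hE₂).mpr ⟨fun h => ?_, fun g h hgh => ?_⟩
      · obtain ⟨g, hg⟩ := hb1 h
        refine ⟨g, ?_⟩
        rw [hLG1, Matrix.add_mulVec, hA g h hg, add_zero, hg]
      · obtain ⟨g₂, hg₂⟩ := hb1 h
        obtain ⟨g₁, hg₁⟩ := ha1 g
        rw [hLG1, Matrix.add_mulVec] at hgh
        have h0 : (Lap G).mulVec (g - g₂ + g₁) = 0 := by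
          rw [Matrix.mulVec_add, Matrix.mulVec_sub, hg₂, hg₁, ← hgh]
          abel
        have h1 := hk2 _ h0
        rw [Matrix.mulVec_add, Matrix.mulVec_sub, hb2 g₂ h hg₂, hA' g₁ g hg₁, add_zero] at h1
        exact sub_eq_zero.mp h1
    have e1 : nu G = nu H₁ + nu (G + H₁) := hT₁.2
    have e2 : nu (G + H₁) = nu H₂ + nu (G + H₁ + H₂) := hT.2
    show nu G = nu H₁ + nu H₂ + nu (G + H₁ + H₂)
    omega

end Pool.Agent.W390.SD
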