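import Pool.Agent.W390.SD.Stm1

/-! Project SD: parity (part B9). -/

set_option autoImplicit false

namespace Pool.Agent.W390.SD

open MvPolynomial Finset

namespace Aux_par

variable {V : Type} [Fintype V] [DecidableEq V]

lemma mem_edg {A : Gr V} (hA : ∀ u v, A u v = A v u) (u v : V) : s(u, v) ∈ edg A ↔ A u v ≠ 0 := by
  unfold edg
  rw [Finset.mem_image]
  constructor
  · rintro ⟨⟨a, b⟩, hab, h⟩
    rw [Finset.mem_filter] at hab
    have h2 := hab.2
    simp only at h2 h
    rw [Sym2.eq_iff] at h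
    rcases h with ⟨rfl, rfl⟩ | ⟨rfl, rfl⟩
    · exact h2
    · rw [hA]
      exact h2
  · intro h
    exact ⟨(u, v), Finset.mem_filter.mpr ⟨Finset.mem_univ _, h⟩, rfl⟩

lemma edg_add {A B : Gr V} (hA : IsEv A) (hB : IsEv B) :
    edg (A + B) = symmDiff (edg A) (edg B) := by
  have hs : ∀ u v, (A + B) u v = (A + B) v u := by
    intro u v
    show A u v + B u v = A v u + B v u
    rw [hA.symm, hB.symm]
  have hz : ∀ a b : ZMod 2, (a + b ≠ 0 ↔ (a ≠ 0 ∧ ¬ b ≠ 0) ∨ (b ≠ 0 ∧ ¬ a ≠ 0)) := by decide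
  ext e
  induction e using Sym2.ind with
  | _ u v =>
    rw [Finset.mem_symmDiff, mem_edg hs, mem_edg hA.symm, mem_edg hB.symm]
    exact hz (A u v) (B u v)

lemma card_edg {A B : Gr V} (hA : IsEv A) (hB : IsEv B) :
    Even ((edg A).card + (edg B).card + (edg (A + B)).card) := by
  rw [edg_add hA hB]
  have h1 := Finset.card_sdiff_add_card_inter (edg A) (edg B)
  have h2 := Finset.card_sdiff_add_card_inter (edg B) (edg A)
  have h3 : (symmDiff (edg A) (edg B)).card = (edg A \ edg B).card + (edg B \ edg A).card := by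
    rw [symmDiff_def, Finset.sup_eq_union, Finset.card_union_of_disjoint disjoint_sdiff_sdiff]
  rw [Finset.inter_comm] at h2
  rw [h3]
  refine ⟨(edg A \ edg B).card + (edg B \ edg A).card + (edg A ∩ edg B).card, ?_⟩
  omega

omit [Fintype V] [DecidableEq V] in
lemma fac_hom (e : Sym2 V) : (fac e : R V).IsHomogeneous 1 := by
  induction e using Sym2.ind with
  | _ u v =>
    show (X u + X v : R V).IsHomogeneous 1
    exact (isHomogeneous_X _ u).add (isHomogeneous_X _ v)

lemma PP_hom (A : Gr V) : (PP A).IsHomogeneous (edg A).card := by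
  unfold PP
  have := IsHomogeneous.prod (edg A) (fun e => (fac e : R V)) (fun _ => 1) (fun e _ => fac_hom e)
  simpa using this

lemma PP_ne {A : Gr V} (hA : IsEv A) : PP A ≠ 0 := by
  unfold PP
  rw [Finset.prod_ne_zero_iff]
  intro e he
  induction e using Sym2.ind with
  | _ u v =>
    rw [mem_edg hA.symm] at he
    have huv : u ≠ v := by
      rintro rfl
      exact he (hA.diag u)
    show (X u + X v : R V) ≠ 0
    intro h
    have h1 := congrArg (coeff (Finsupp.single u 1)) h
    rw [coeff_add, coeff_zero, MvPolynomial.coeff_X, MvPolynomial.coeff_X, if_pos rfl, if_neg]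
      at h1
    · simp at h1
    · intro h2
      have := Finsupp.single_left_injective (one_ne_zero : (1 : ℕ) ≠ 0) h2
      exact huv this.symm

omit [Fintype V] in
lemma dd_hom (hdd : S_dd) (J : Finset V) (n : ℕ) (p : R V) (hp : p.IsHomogeneous n)
    (h : dd J p ≠ 0) : J.card ≤ n ∧ (dd J p).IsHomogeneous (n - J.card) := by
  obtain ⟨h1, h2, -⟩ := hdd V
  induction J using Finset.induction_on with
  | empty =>
    rw [h1]
    exact ⟨by simp, by simpa using hp⟩
  | insert v J hv ih =>
    rw [h2 J v p hv] at h ⊢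
    have h3 : dd J p ≠ 0 := by
      intro h4
      rw [h4, map_zero] at h
      exact h rfl
    obtain ⟨h5, h6⟩ := ih h3
    rw [Finset.card_insert_of_notMem hv]
    have h7 : n - J.card ≠ 0 := by
      intro h8
      rw [h8] at h6
      have h9 : (dd J p) = C (coeff 0 (dd J p)) := by
        rw [← totalDegree_eq_zero_iff_eq_C]
        exact Nat.eq_zero_of_le_zero h6.totalDegree_le
      rw [h9, pderiv_C] at h
      exact h rfl
    refine ⟨by omega, ?_⟩
    have := h6.pderiv (i := v)
    rw [Nat.sub_sub] at this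
    exact this

lemma even_of_const {f : R V} {d : ℕ} (hf : f.IsHomogeneous d) (h0 : f ≠ 0)
    (h : ∀ v, pderiv v f = 0) : Even d := by
  obtain ⟨m, hm⟩ := MvPolynomial.ne_zero_iff.mp h0
  have hd : m.degree = d := by
    have := hf hm
    rw [Finsupp.degree_eq_weight_one]
    exact this
  have hev : ∀ v, Even (m v) := by
    intro v
    by_contra hv
    rw [Nat.not_even_iff_odd] at hv
    obtain ⟨k, hk⟩ := hv
    have h1 : (m - Finsupp.single v 1) + Finsupp.single v 1 = m := by
      apply tsub_add_cancel_of_le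
      rw [Finsupp.single_le_iff]
      omega
    have h2 := congrArg (coeff (m - Finsupp.single v 1)) (h v)
    rw [coeff_pderiv, h1, coeff_zero] at h2
    rcases mul_eq_zero.mp h2 with h3 | h3
    · exact hm h3
    · have h4 : (m - Finsupp.single v 1 : V →₀ ℕ) v = 2 * k := by
        rw [Finsupp.tsub_apply, Finsupp.single_eq_same, hk]
        omega
      rw [h4] at h3
      push_cast at h3
      have h5 : (2 : ZMod 2) = 0 := by decide
      rw [h5] at h3
      simp at h3
  rw [← hd, Finsupp.degree_eq_sum]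
  exact Finset.even_sum _ (fun v _ => hev v)

lemma nu_par (hdd : S_dd) (hb : S_basis) {A : Gr V} (hA : IsEv A) :
    nu A ≤ (edg A).card ∧ Even ((edg A).card - nu A) := by
  obtain ⟨b1, b2, b3, b4, b5, b6, b7, b8⟩ := hb V A hA
  have h0 : PJ A ∅ ≠ 0 := by
    unfold PJ
    rw [(hdd V).1]
    exact PP_ne hA
  obtain ⟨J, -, hJ, hc, hne⟩ := b4 univ ∅ (Finset.empty_subset _) h0
  have hcst := b6 univ J hJ hc
  obtain ⟨h1, h2⟩ := dd_hom hdd J (edg A).card (PP A) (PP_hom A) hne
  rw [← b1, ← hc]
  exact ⟨h1, even_of_const h2 hne (fun v => hcst v (Finset.mem_univ v))⟩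

end Aux_par

open Aux_par in
theorem p_par : S_dd → S_basis → S_add → S_par := by
  intro hdd hb hadd V _ _ A B hA hB
  have hAB := (hadd V A B).2.1 hA hB
  obtain ⟨a1, a2⟩ := nu_par hdd hb hA
  obtain ⟨b1, b2⟩ := nu_par hdd hb hB
  obtain ⟨c1, c2⟩ := nu_par hdd hb hAB
  obtain ⟨k, hk⟩ := card_edg hA hB
  obtain ⟨a, ha⟩ := a2
  obtain ⟨b, hb'⟩ := b2
  obtain ⟨c, hc⟩ := c2
  refine ⟨k - a - b - c, ?_⟩
  omega

end Pool.Agent.W390.SD
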