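import Pool.Agent.W390.SD.Stm3

/-! # SD-piece (helper146) -/

set_option autoImplicit false

namespace Pool.Agent.W390.SD

open MvPolynomial Finset

namespace Aux_piece

theorem mem_nbr {V : Type} [Fintype V] {A : Gr V} {v u : V} : u ∈ nbr A v ↔ A v u ≠ 0 := by
  unfold nbr
  rw [mem_filter]
  exact ⟨fun h => h.2, fun h => ⟨mem_univ _, h⟩⟩

theorem mem_supp {V : Type} [Fintype V] {A : Gr V} {v : V} :
    v ∈ supp A ↔ (nbr A v).Nonempty := by
  unfold supp
  rw [mem_filter]
  exact ⟨fun h => h.2, fun h => ⟨mem_univ _, h⟩⟩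

theorem supp_add {V : Type} [Fintype V] [DecidableEq V] (A B : Gr V) :
    supp (A + B) ⊆ supp A ∪ supp B := by
  intro v hv
  obtain ⟨u, hu⟩ := mem_supp.1 hv
  rw [mem_nbr] at hu
  rw [mem_union]
  by_cases hA : A v u = 0
  · right
    apply mem_supp.2
    refine ⟨u, mem_nbr.2 ?_⟩
    intro hB
    apply hu
    show A v u + B v u = 0
    rw [hA, hB, add_zero]
  · left
    exact mem_supp.2 ⟨u, mem_nbr.2 hA⟩

theorem nu_sum_le (h_add : S_add) (h_zero : S_zero) {V : Type} [Fintype V] [DecidableEq V]
    (L : List (Gr V)) : nu L.sum ≤ (L.map nu).sum := by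
  induction L with
  | nil =>
    have h0 : IsEv (0 : Gr V) := by
      constructor
      · intro u v; rfl
      · intro v; rfl
      · intro v; exact Finset.sum_const_zero
    rw [List.sum_nil, (h_zero V 0 h0).1.2 rfl]
    exact Nat.zero_le _
  | cons A L ih =>
    rw [List.sum_cons, List.map_cons, List.sum_cons]
    exact le_trans (h_add V A L.sum).2.2.2.2 (Nat.add_le_add_left ih _)

/-- the properties of an indecomposable tight part that are used -/
theorem part (h_zero : S_zero) (h_rkm : S_rkm) (h_tcons : S_tcons) (h_small : S_small)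
    (h_clique : S_clique) {V : Type} [Fintype V] [DecidableEq V] (n : ℕ) (hSD : SDn V n)
    (Y T : Gr V) (hY : IsEv Y) (hYn : (supp Y).card ≤ n) (hT : Indec T) (hTY : Tight T Y)
    (h3 : 3 ≤ rk Y (supp T)) : 2 ≤ nu T ∧ (supp T).card ≤ 2 * nu T + 1 := by
  have hEv : IsEv T := hT.1
  obtain ⟨-, hsub, hrk, -⟩ := h_tcons V Y T hY hTY
  have h2 : 2 ≤ nu T := by
    by_contra hlt
    have hne : nu T ≠ 0 := fun h0 => hT.2.1 ((h_zero V T hEv).1.1 h0)
    have h1 : nu T = 1 := by omega
    obtain ⟨S, hS, hTS⟩ := (h_small V T).2.1 hEv h1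
    have hcard : (supp T).card = 3 := by
      rw [hTS, (h_clique V S (by rw [hS]; decide)).2.1 (by omega), hS]
    have hr := (h_rkm V T T hEv hEv).2.2.2.2.2.1 (supp T) (Finset.Subset.refl _)
    have := hrk (supp T)
    omega
  refine ⟨h2, ?_⟩
  rcases hSD T hT (le_trans (Finset.card_le_card hsub) hYn) with ⟨S, hS, hS3, hTS⟩ | hB
  · obtain ⟨-, hs, hn, -⟩ := h_clique V S hS
    rw [hTS, hs hS3]
    omega
  · omega

end Aux_piece

open Aux_piece in
theorem p_piece : S_add → S_zero → S_basis → S_rk → S_rkm → S_tcons → S_ocons → S_decomp →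
    S_dorth → S_small → S_clique → S_ctr → S_ctrnu → S_unif → S_unifrk → S_degbd → S_nbr →
    S_m1 → S_piece := by
  intro h_add h_zero h_basis _ h_rkm h_tcons _ h_decomp _ h_small h_clique h_ctr _ h_unif
    h_unifrk h_degbd h_nbr h_m1 V _ _ n G b b' hSD hG hcard hr4 hgood hb' hall
  have hGe : IsEv G := hG.1
  have hbb : b ≠ b' := by
    rintro rfl
    exact hgood.1 (hGe.diag b)
  have hYe : IsEv (ctr b b' G) := (h_ctr V G G b b' hbb hGe hGe).1
  have hU : Unif G := h_unif V G hG
  have hb'G : b' ∈ supp G := by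
    apply mem_supp.2
    refine ⟨b, mem_nbr.2 ?_⟩
    rw [hGe.symm]; exact hgood.1
  have hbG : b ∈ supp G := mem_supp.2 ⟨b', mem_nbr.2 hgood.1⟩
  -- supp Y = supp G - b
  have hsupp : supp (ctr b b' G) = (supp G).erase b := by
    apply Finset.Subset.antisymm
    · exact (h_ctr V G G b b' hbb hGe hGe).2.2.2.2.2.1 hb'G
    · intro w hw
      rw [mem_erase] at hw
      by_cases hwb' : w = b'
      · rw [hwb']; exact hb'
      · have hdeg := h_degbd V G w ((supp G).card - nu G) hU hw.2 (by omega)
        obtain ⟨e1, e2, -, -⟩ := h_nbr V G b b' w hGe hbb hw.1 hwb'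
        apply mem_supp.2
        rw [← Finset.card_pos]
        by_cases hc : G w b ≠ 0 ∧ G w b' ≠ 0
        · have := (e1 hc).2
          omega
        · have := e2 hc
          omega
  have hYcard : (supp (ctr b b' G)).card = n := by
    rw [hsupp, Finset.card_erase_of_mem hbG]; omega
  have hnuY := hgood.2
  obtain ⟨L, hL, hsum, hnu⟩ := h_decomp V (ctr b b' G) hYe
  match L, hL, hsum, hnu with
  | [], _, hsum, _ =>
    exfalso
    rw [List.sum_nil] at hsum
    rw [← hsum] at hb'
    obtain ⟨u, hu⟩ := mem_supp.1 hb'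
    rw [mem_nbr] at hu
    exact hu rfl
  | [T], hL, hsum, hnu =>
    exfalso
    rw [List.sum_singleton] at hsum
    have hT := (hL T List.mem_cons_self).1
    rw [hsum] at hT
    rcases hSD _ hT hYcard.le with ⟨S, hS, hS3, hYS⟩ | hB
    · apply h_m1 V G b b' hU (by omega) hgood
      have hs : supp (ctr b b' G) = S := by
        rw [hYS]; exact (h_clique V S hS).2.1 hS3
      rw [← hsupp, hs]; exact hYS
    · omega
  | T₁ :: T₂ :: L', hL, hsum, hnu =>
    have hT1 := hL T₁ List.mem_cons_self
    have hT2 := hL T₂ (List.mem_cons_of_mem _ List.mem_cons_self)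
    by_contra hno
    push Not at hno
    have hn1 := hno T₁ hT1.1 hT1.2
    have hn2 := hno T₂ hT2.1 hT2.2
    have ha1 := hall T₁ hT1.1 hT1.2
    have ha2 := hall T₂ hT2.1 hT2.2
    obtain ⟨p1, q1⟩ := part h_zero h_rkm h_tcons h_small h_clique n hSD _ T₁ hYe hYcard.le
      hT1.1 hT1.2 ha1.1
    obtain ⟨p2, q2⟩ := part h_zero h_rkm h_tcons h_small h_clique n hSD _ T₂ hYe hYcard.le
      hT2.1 hT2.2 ha2.1
    -- sizes of the differences
    have key : ∀ T T' : Gr V, Indec T' → Tight T' (ctr b b' G) → 2 ≤ nu T' →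
        nuC (ctr b b' G) (insert b' (supp T))ᶜ < 2 →
        (supp T' \ insert b' (supp T)).card ≤ 1 := by
      intro T T' hI hTt hnu2 hlt
      have h1 := (h_tcons V _ T' hYe hTt).2.2.2.1 (insert b' (supp T))ᶜ
      have h2 := (h_basis V T' hI.1).2.1 (supp T' \ insert b' (supp T)) (insert b' (supp T))ᶜ
        (by intro v hv; rw [mem_sdiff] at hv; rw [mem_compl]; exact hv.2)
      have h3 := (h_unifrk V T' (h_unif V T' hI)).2 (supp T' \ insert b' (supp T))
        Finset.sdiff_subset
      rw [h3] at h2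
      omega
    have k12 := key T₁ T₂ hT2.1 hT2.2 p2 hn1
    have k21 := key T₂ T₁ hT1.1 hT1.2 p1 hn2
    -- T₁ + T₂ is tight
    rw [List.sum_cons, List.sum_cons, ← add_assoc] at hsum
    rw [List.map_cons, List.map_cons, List.sum_cons, List.sum_cons] at hnu
    have s1 := nu_sum_le h_add h_zero L'
    have s2 := (h_add V (T₁ + T₂) L'.sum).2.2.2.2
    have s3 := (h_add V T₁ T₂).2.2.2.2
    rw [hsum] at s2
    have hEv12 : IsEv (T₁ + T₂) := (h_add V T₁ T₂).2.1 hT1.1.1 hT2.1.1
    have hrest : ctr b b' G + (T₁ + T₂) = L'.sum := by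
      rw [← hsum, add_comm (T₁ + T₂) L'.sum, add_assoc, (h_add V (T₁ + T₂) 0).2.2.1, add_zero]
    have htight : Tight (T₁ + T₂) (ctr b b' G) := by
      refine ⟨hEv12, ?_⟩
      rw [hrest]
      omega
    have hnu12 : nu (T₁ + T₂) = nu T₁ + nu T₂ := by omega
    have hrkle := (h_tcons V _ (T₁ + T₂) hYe htight).2.2.1 (supp T₁ ∪ supp T₂)
    have hrkeq := (h_rkm V (T₁ + T₂) T₁ hEv12 hT1.1.1).2.2.2.2.2.1 (supp T₁ ∪ supp T₂)
      (supp_add T₁ T₂)
    have mono := (h_rkm V (ctr b b' G) T₁ hYe hT1.1.1).2.1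
    -- cardinalities
    have c1 := Finset.card_sdiff_add_card_inter (supp T₁) (supp T₂)
    have c2 := Finset.card_sdiff_add_card_inter (supp T₂) (supp T₁)
    rw [Finset.inter_comm] at c2
    have c3 := Finset.card_union_add_card_inter (supp T₁) (supp T₂)
    by_cases m1 : b' ∈ supp T₁
    · have e1 : insert b' (supp T₁) = supp T₁ := Finset.insert_eq_of_mem m1
      rw [e1] at k12 ha1
      have h4 := mono (supp T₁) (supp T₁ ∪ supp T₂) Finset.subset_union_left
      by_cases m2 : b' ∈ supp T₂
      · have e2 : insert b' (supp T₂) = supp T₂ := Finset.insert_eq_of_mem m2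
        rw [e2] at k21
        omega
      · have e2 : (supp T₁ \ supp T₂).card ≤ (supp T₁ \ insert b' (supp T₂)).card + 1 := by
          have : supp T₁ \ supp T₂ ⊆ insert b' (supp T₁ \ insert b' (supp T₂)) := by
            intro v hv
            rw [mem_sdiff] at hv
            rw [mem_insert, mem_sdiff, mem_insert, not_or]
            by_cases hvb : v = b'
            · exact Or.inl hvb
            · exact Or.inr ⟨hv.1, hvb, hv.2⟩
          exact le_trans (Finset.card_le_card this) (Finset.card_insert_le _ _)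
        omega
    · by_cases m2 : b' ∈ supp T₂
      · have e2 : insert b' (supp T₂) = supp T₂ := Finset.insert_eq_of_mem m2
        rw [e2] at k21 ha2
        have h4 := mono (supp T₂) (supp T₁ ∪ supp T₂) Finset.subset_union_right
        have e1 : (supp T₂ \ supp T₁).card ≤ (supp T₂ \ insert b' (supp T₁)).card + 1 := by
          have : supp T₂ \ supp T₁ ⊆ insert b' (supp T₂ \ insert b' (supp T₁)) := by
            intro v hv
            rw [mem_sdiff] at hv
            rw [mem_insert, mem_sdiff, mem_insert, not_or]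
            by_cases hvb : v = b'
            · exact Or.inl hvb
            · exact Or.inr ⟨hv.1, hvb, hv.2⟩
          exact le_trans (Finset.card_le_card this) (Finset.card_insert_le _ _)
        omega
      · have h4 := mono (supp T₁) (supp T₁ ∪ supp T₂) Finset.subset_union_left
        have e1 : supp T₂ \ insert b' (supp T₁) = supp T₂ \ supp T₁ := by
          ext v
          rw [mem_sdiff, mem_sdiff, mem_insert, not_or]
          constructor
          · rintro ⟨x, _, y⟩; exact ⟨x, y⟩
          · rintro ⟨x, y⟩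
            exact ⟨x, fun h => m2 (h ▸ x), y⟩
        have e2 : supp T₁ \ insert b' (supp T₂) = supp T₁ \ supp T₂ := by
          ext v
          rw [mem_sdiff, mem_sdiff, mem_insert, not_or]
          constructor
          · rintro ⟨x, _, y⟩; exact ⟨x, y⟩
          · rintro ⟨x, y⟩
            exact ⟨x, fun h => m1 (h ▸ x), y⟩
        rw [e1] at k12
        rw [e2] at k21
        omega

end Pool.Agent.W390.SD
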