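import Pool.Agent.W390.SD.Stm1

namespace Pool.Agent.W390.SD

open MvPolynomial Finset

namespace Aux_qd

variable {V : Type}

lemma two_eq_zero : (2 : F V) = 0 := by
  have h0 : (2 : ZMod 2) = 0 := rfl
  have h : algebraMap (ZMod 2) (F V) 2 = 0 := by rw [h0, map_zero]
  rwa [map_ofNat] at h

lemma add_self' (a : F V) : a + a = 0 := by
  rw [← two_mul, two_eq_zero, zero_mul]

lemma charP2 : CharP (F V) 2 := CharTwo.of_one_ne_zero_of_two_eq_zero one_ne_zero two_eq_zero

lemma sq_sum {ι : Type} (s : Finset ι) (f : ι → F V) :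
    (∑ i ∈ s, f i) ^ 2 = ∑ i ∈ s, f i ^ 2 := by
  have : CharP (F V) 2 := charP2
  have : Fact (Nat.Prime 2) := ⟨Nat.prime_two⟩
  exact sum_pow_char 2 s f

/-- off-diagonal terms of a symmetric form cancel -/
lemma offdiag [Fintype V] [DecidableEq V] (M : V → V → F V) (hM : ∀ u v, M u v = M v u) :
    ∑ u, ∑ v, (if u = v then 0 else M u v) = 0 := by
  rw [← Finset.sum_product']
  refine Finset.sum_involution (fun p _ => (p.2, p.1)) ?_ ?_ ?_ ?_
  · rintro ⟨u, v⟩ _
    by_cases h : u = v
    · simp [h]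
    · have h' : ¬ v = u := fun e => h e.symm
      simp only [h, h', if_false]
      rw [hM v u]
      exact add_self' _
  · rintro ⟨u, v⟩ _ hne heq
    apply hne
    have h : u = v := by
      have := congrArg Prod.snd heq
      simpa using this
    simp [h]
  · rintro ⟨u, v⟩ _
    simp
  · rintro ⟨u, v⟩ _
    rfl

/-- the diagonal entries -/
lemma diag_eq [Fintype V] [DecidableEq V] (A : Gr V) (hA : IsEv A) (v : V) :
    Lap A v v = ∑ u, xF u * (Lap A v u) ^ 2 := by
  set a : V → F V := fun w => if A v w = 0 then 0 else (xF v + xF w)⁻¹ with ha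
  have hvv : Lap A v v = ∑ w, a w := by simp [Lap, ha]
  have hav : a v = 0 := by simp [ha, hA.diag v]
  have hvu : ∀ u, u ≠ v → Lap A v u = a u := by
    intro u hu
    have : ¬ v = u := fun e => hu e.symm
    simp [Lap, ha, this]
  have hmul : ∀ w, (xF v + xF w) * a w ^ 2 = a w := by
    intro w
    by_cases h : A v w = 0
    · simp [ha, h]
    · simp only [ha, h, if_false]
      by_cases h0 : (xF v + xF w : F V) = 0
      · rw [h0]; simp
      · field_simp
  rw [← Finset.add_sum_erase univ _ (Finset.mem_univ v)]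
  have h1 : ∑ u ∈ univ.erase v, xF u * (Lap A v u) ^ 2 = ∑ u, xF u * a u ^ 2 := by
    rw [← Finset.add_sum_erase univ _ (Finset.mem_univ v), hav]
    simp only [ne_eq, OfNat.ofNat_ne_zero, not_false_eq_true, zero_pow, mul_zero, zero_add]
    refine Finset.sum_congr rfl fun u hu => ?_
    rw [hvu u (Finset.ne_of_mem_erase hu)]
  rw [h1, hvv, sq_sum, Finset.mul_sum, ← Finset.sum_add_distrib]
  refine Finset.sum_congr rfl fun w _ => ?_
  rw [← add_mul, hmul]

end Aux_qd

open Aux_qd in
theorem p_qd : S_add → S_qd := by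
  intro hadd V _ _ A g hA
  have hsym : ∀ u v, Lap A u v = Lap A v u := fun u v =>
    (((hadd V A A).2.2.2.1 hA).apply u v).symm
  have hmv : ∀ v, (Lap A).mulVec g v = ∑ u, Lap A v u * g u := fun v => rfl
  simp only [hmv]
  have hR : ∑ u, xF u * (∑ v, Lap A u v * g v) ^ 2 = ∑ v, g v ^ 2 * Lap A v v := by
    have : ∀ u, xF u * (∑ v, Lap A u v * g v) ^ 2 =
        ∑ v, g v ^ 2 * (xF u * (Lap A v u) ^ 2) := by
      intro u
      rw [sq_sum, Finset.mul_sum]
      refine Finset.sum_congr rfl fun v _ => ?_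
      rw [hsym u v]; ring
    rw [Finset.sum_congr rfl fun u _ => this u, Finset.sum_comm]
    refine Finset.sum_congr rfl fun v _ => ?_
    rw [← Finset.mul_sum, ← diag_eq A hA v]
  rw [hR]
  have hoff := offdiag (fun u v => g u * Lap A u v * g v)
    (fun u v => by rw [hsym u v]; ring)
  have hL : ∑ v, g v * ∑ u, Lap A v u * g u =
      ∑ v, (g v ^ 2 * Lap A v v + ∑ u, (if v = u then 0 else g v * Lap A v u * g u)) := by
    refine Finset.sum_congr rfl fun v _ => ?_
    rw [Finset.mul_sum, ← Finset.add_sum_erase univ _ (Finset.mem_univ v),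
      ← Finset.add_sum_erase univ (fun u => if v = u then 0 else g v * Lap A v u * g u)
        (Finset.mem_univ v)]
    simp only [if_true, zero_add]
    congr 1
    · ring
    · refine Finset.sum_congr rfl fun u hu => ?_
      rw [if_neg (fun e => Finset.ne_of_mem_erase hu e.symm)]
      ring
  rw [hL, Finset.sum_add_distrib, hoff, add_zero]

end Pool.Agent.W390.SD
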