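import Pool.Agent.W390.SD.Stm1

/-! B6: the formula for `rk`. -/

set_option autoImplicit false

namespace Pool.Agent.W390.SD

namespace Aux_rk

open Module

theorem fin_map {k E E' : Type*} [Field k] [AddCommGroup E] [Module k E] [AddCommGroup E']
    [Module k E'] [FiniteDimensional k E] (φ : E →ₗ[k] E') (K : Submodule k E) :
    finrank k (K.map φ) + finrank k (K ⊓ LinearMap.ker φ : Submodule k E) = finrank k K := by
  have h := LinearMap.finrank_range_add_finrank_ker (φ.domRestrict K)
  rw [LinearMap.range_domRestrict, LinearMap.ker_domRestrict] at h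
  have h2 : finrank k (Submodule.comap K.subtype (LinearMap.ker φ)) =
      finrank k (K ⊓ LinearMap.ker φ : Submodule k E) := by
    rw [← Submodule.map_comap_subtype, Submodule.finrank_map_subtype_eq]
  rw [h2] at h
  exact h

theorem map_eq {k V : Type*} [Field k] [Fintype V] [DecidableEq V] (L : Matrix V V k)
    (B : Finset V) :
    (LinearMap.ker (LinearMap.funLeft k k (fun b : B => (b : V)))).map L.mulVecLin =
      Submodule.span k ((fun j : V => L.col j) '' ((Bᶜ : Finset V) : Set V)) := by
  apply le_antisymm
  · rintro _ ⟨f, hf, rfl⟩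
    have hf0 : ∀ b ∈ B, f b = 0 := by
      intro b hb
      have := congrFun (LinearMap.mem_ker.1 hf) ⟨b, hb⟩
      simpa [LinearMap.funLeft_apply] using this
    have e : L.mulVecLin f = ∑ j, f j • L.col j := by
      funext i
      simp [Matrix.mulVecLin_apply, Matrix.mulVec, dotProduct, Finset.sum_apply, Matrix.col,
        mul_comm]
    rw [e]
    refine Submodule.sum_mem _ fun j _ => ?_
    by_cases hj : j ∈ B
    · rw [hf0 j hj, zero_smul]
      exact Submodule.zero_mem _
    · refine Submodule.smul_mem _ _ (Submodule.subset_span ⟨j, ?_, rfl⟩)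
      simpa using hj
  · rw [Submodule.span_le]
    rintro _ ⟨j, hj, rfl⟩
    refine ⟨Pi.single j 1, ?_, ?_⟩
    · simp only [SetLike.mem_coe, LinearMap.mem_ker]
      funext b
      have hjb : (b : V) ≠ j := by
        rintro rfl
        simp at hj
      simp [LinearMap.funLeft_apply, Pi.single_apply, hjb]
    · funext i
      simp [Matrix.mulVecLin_apply, Matrix.col]

end Aux_rk

theorem p_rk : S_add → S_rk := by
  intro _ V _ _ A B _
  classical
  have h1 := Aux_rk.fin_map (LinearMap.funLeft (F V) (F V) (fun b : B => (b : V)))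
    (LinearMap.ker (Lap A).mulVecLin)
  have h2 := Aux_rk.fin_map (Lap A).mulVecLin
    (LinearMap.ker (LinearMap.funLeft (F V) (F V) (fun b : B => (b : V))))
  rw [Aux_rk.map_eq, inf_comm] at h2
  have h3 := LinearMap.finrank_range_add_finrank_ker (Lap A).mulVecLin
  have h4 := LinearMap.finrank_range_add_finrank_ker
    (LinearMap.funLeft (F V) (F V) (fun b : B => (b : V)))
  have h5 : LinearMap.range (LinearMap.funLeft (F V) (F V) (fun b : B => (b : V))) = ⊤ :=
    LinearMap.range_eq_top.2 (LinearMap.funLeft_surjective_of_injective _ _ _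
      Subtype.val_injective)
  rw [h5, finrank_top] at h4
  rw [Module.finrank_fintype_fun_eq_card] at h3 h4
  rw [Module.finrank_fintype_fun_eq_card, Fintype.card_coe] at h4
  have e1 : rk A B = Module.finrank (F V) (Submodule.map
    (LinearMap.funLeft (F V) (F V) (fun b : B => (b : V)))
    (LinearMap.ker (Lap A).mulVecLin)) := rfl
  have e2 : nu A = Module.finrank (F V) (LinearMap.range (Lap A).mulVecLin) := rfl
  have e3 : nuC A Bᶜ = Module.finrank (F V) (Submodule.span (F V)
    ((fun j : V => (Lap A).col j) '' ((Bᶜ : Finset V) : Set V))) := rfl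
  omega

end Pool.Agent.W390.SD
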