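import Pool.Agent.W390.SD.Stm1

/-! Project SD, part zero. -/

namespace Pool.Agent.W390.SD

open MvPolynomial Finset

namespace Aux_zero

variable {V : Type} [Fintype V] [DecidableEq V]

theorem two_eq (V : Type) : (2 : F V) = 0 := by
  have h1 : (2 : R V) = 0 := by
    have h2 : (2 : R V) = C (2 : ZMod 2) := by rw [map_ofNat]
    have h3 : (2 : ZMod 2) = 0 := by decide
    rw [h2, h3, map_zero]
  have h4 : (2 : F V) = algebraMap (R V) (F V) 2 := by rw [map_ofNat]
  rw [h4, h1, map_zero]

omit [Fintype V] [DecidableEq V] in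
theorem add_self (a : F V) : a + a = 0 := by
  rw [← two_mul, two_eq, zero_mul]

omit [Fintype V] in
theorem xF_ne {u v : V} (h : u ≠ v) : xF u + xF v ≠ 0 := by
  unfold xF
  rw [← map_add]
  intro h0
  have h1 : (xx u + xx v : R V) = 0 := by
    have hinj := IsFractionRing.injective (R V) (F V)
    exact hinj (by rw [h0, map_zero])
  have h2 := congrArg (coeff (Finsupp.single u 2)) h1
  unfold xx at h2
  rw [coeff_add, coeff_X_pow, coeff_X_pow, if_pos rfl, if_neg, coeff_zero, add_zero] at h2
  · exact one_ne_zero h2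
  · intro h3
    rw [Finsupp.single_left_inj (by norm_num)] at h3
    exact h h3.symm

/-- the entries -/
noncomputable def en (A : Gr V) (u v : V) : F V := if A u v = 0 then 0 else (xF u + xF v)⁻¹

theorem mulVec_eq (A : Gr V) (hA : IsEv A) (f : V → F V) (u : V) :
    (Lap A).mulVec f u = ∑ v, en A u v * (f u + f v) := by
  have h1 : (Lap A).mulVec f u = (∑ w, en A u w) * f u + ∑ v, en A u v * f v := by
    have e1 : ∀ v, Lap A u v * f v =
        (if v = u then (∑ w, en A u w) * f u else 0) + en A u v * f v := by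
      intro v
      by_cases hv : u = v
      · subst hv
        rw [if_pos rfl]
        have e2 : Lap A u u = ∑ w, en A u w := by
          unfold Lap
          rw [if_pos rfl]
          rfl
        have e3 : en A u u = 0 := by
          unfold en
          rw [if_pos (hA.diag u)]
        rw [e2, e3]
        ring
      · rw [if_neg (Ne.symm hv), zero_add]
        unfold Lap en
        rw [if_neg hv]
    show ∑ v, Lap A u v * f v = _
    rw [Finset.sum_congr rfl fun v _ => e1 v, Finset.sum_add_distrib]
    simp
  rw [h1, Finset.sum_mul, ← Finset.sum_add_distrib]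
  exact Finset.sum_congr rfl fun v _ => by ring

theorem lap_one (A : Gr V) (hA : IsEv A) : (Lap A).mulVec (fun _ => 1) = 0 := by
  funext u
  rw [mulVec_eq A hA]
  refine Finset.sum_eq_zero fun v _ => ?_
  rw [add_self, mul_zero]

theorem lap_x (A : Gr V) (hA : IsEv A) : (Lap A).mulVec xF = 0 := by
  funext u
  rw [mulVec_eq A hA]
  have e1 : ∀ v, en A u v * (xF u + xF v) = if A u v = 0 then 0 else 1 := by
    intro v
    unfold en
    by_cases h : A u v = 0
    · rw [if_pos h, if_pos h, zero_mul]
    · rw [if_neg h, if_neg h]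
      have hne : u ≠ v := by
        intro h1
        rw [← h1, hA.diag] at h
        exact h rfl
      exact inv_mul_cancel₀ (xF_ne hne)
  rw [Finset.sum_congr rfl fun v _ => e1 v]
  have e2 : ∀ v, (if A u v = 0 then (0 : F V) else 1) =
      (algebraMap (R V) (F V)) (C (A u v)) := by
    intro v
    have h01 : A u v = 0 ∨ A u v = 1 := by
      have : ∀ a : ZMod 2, a = 0 ∨ a = 1 := by decide
      exact this _
    rcases h01 with h | h
    · rw [h, if_pos rfl, map_zero, map_zero]
    · rw [h, if_neg (by decide), map_one, map_one]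
  rw [Finset.sum_congr rfl fun v _ => e2 v, ← map_sum, ← map_sum, hA.even u, map_zero, map_zero]
  rfl

theorem lap_outside (A : Gr V) (hA : IsEv A) (v : V) (hv : v ∉ supp A) (u : V) :
    Lap A u v = 0 := by
  have h1 : ∀ w, A v w = 0 := by
    intro w
    by_contra h
    apply hv
    unfold supp nbr
    rw [Finset.mem_filter]
    refine ⟨Finset.mem_univ _, w, ?_⟩
    rw [Finset.mem_filter]
    exact ⟨Finset.mem_univ _, h⟩
  unfold Lap
  by_cases huv : u = v
  · subst huv
    rw [if_pos rfl]
    exact Finset.sum_eq_zero fun w _ => if_pos (h1 w)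
  · rw [if_neg huv, if_pos (by rw [hA.symm]; exact h1 u)]

omit [DecidableEq V] in
theorem mem_supp {A : Gr V} {u v : V} (h : A u v ≠ 0) : u ∈ supp A := by
  unfold supp nbr
  rw [Finset.mem_filter]
  refine ⟨Finset.mem_univ _, v, ?_⟩
  rw [Finset.mem_filter]
  exact ⟨Finset.mem_univ _, h⟩

theorem nu_eq_zero (A : Gr V) (hA : IsEv A) : nu A = 0 ↔ A = 0 := by
  constructor
  · intro h
    have h1 : Lap A = 0 := by
      have h2 : Module.finrank (F V) (LinearMap.range (Lap A).mulVecLin) = 0 := h
      rw [Submodule.finrank_eq_zero, LinearMap.range_eq_bot] at h2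
      funext u v
      have h3 := congrFun (LinearMap.congr_fun h2 (Pi.single v 1)) u
      rw [Matrix.mulVecLin_apply, Matrix.mulVec_single_one] at h3
      exact h3
    funext u v
    by_contra hne'
    have hne : ¬ A u v = 0 := hne'
    have huv : u ≠ v := by
      intro h2
      rw [← h2, hA.diag] at hne
      exact hne rfl
    have h3 := congrFun (congrFun h1 u) v
    unfold Lap at h3
    rw [if_neg huv, if_neg hne] at h3
    exact inv_ne_zero (xF_ne huv) h3
  · intro h
    rw [h]
    have h1 : Lap (0 : Gr V) = 0 := by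
      funext u v
      unfold Lap
      by_cases huv : u = v
      · rw [if_pos huv]
        exact Finset.sum_eq_zero fun w _ => if_pos rfl
      · rw [if_neg huv]
        exact if_pos rfl
    unfold nu
    rw [h1, Matrix.rank_zero]

/-- kernel vectors -/
noncomputable def Psi (S : Finset V) :
    (({v // v ∉ S} → F V) × (F V × F V)) →ₗ[F V] (V → F V) where
  toFun p v := (if h : v ∉ S then p.1 ⟨v, h⟩ else 0) + p.2.1 + p.2.2 * xF v
  map_add' p q := by
    funext v
    by_cases h : v ∉ S
    · simp only [dif_pos h, Prod.fst_add, Prod.snd_add, Pi.add_apply]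
      ring
    · simp only [dif_neg h, Prod.fst_add, Prod.snd_add, Pi.add_apply]
      ring
  map_smul' c p := by
    funext v
    by_cases h : v ∉ S
    · simp only [dif_pos h, Prod.smul_fst, Prod.smul_snd, Pi.smul_apply, smul_eq_mul,
        RingHom.id_apply]
      ring
    · simp only [dif_neg h, Prod.smul_snd, Prod.smul_fst, Pi.smul_apply, smul_eq_mul,
        RingHom.id_apply]
      ring

theorem Psi_ker (A : Gr V) (hA : IsEv A) (p : ({v // v ∉ supp A} → F V) × (F V × F V)) :
    (Lap A).mulVec (Psi (supp A) p) = 0 := by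
  have e : Psi (supp A) p = (fun v => if h : v ∉ supp A then p.1 ⟨v, h⟩ else 0) +
      (p.2.1 • (fun _ => (1 : F V)) + p.2.2 • xF) := by
    funext v
    simp only [Psi, LinearMap.coe_mk, AddHom.coe_mk, Pi.add_apply, Pi.smul_apply, smul_eq_mul]
    ring
  rw [e, Matrix.mulVec_add, Matrix.mulVec_add, Matrix.mulVec_smul, Matrix.mulVec_smul,
    lap_one A hA, lap_x A hA, smul_zero, smul_zero, add_zero, add_zero]
  funext u
  show ∑ v, Lap A u v * _ = 0
  refine Finset.sum_eq_zero fun v _ => ?_
  by_cases h : v ∉ supp A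
  · rw [lap_outside A hA v h u, zero_mul]
  · simp only [dif_neg h, mul_zero]

theorem Psi_inj (S : Finset V) {u v : V} (huv : u ≠ v) (hu : u ∈ S) (hv : v ∈ S) :
    Function.Injective (Psi S) := by
  rw [injective_iff_map_eq_zero]
  rintro ⟨y, a, b⟩ h
  have h1 : ∀ w, (if h : w ∉ S then y ⟨w, h⟩ else 0) + a + b * xF w = 0 := fun w =>
    congrFun h w
  have h2 := h1 u
  have h3 := h1 v
  rw [dif_neg (not_not.2 hu)] at h2
  rw [dif_neg (not_not.2 hv)] at h3
  have h4 : b * (xF u + xF v) = 0 := by
    have h5 := add_self (V := V) a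
    have h6 := add_self (V := V) (b * xF v)
    linear_combination h2 + h3 - h5
  have hb : b = 0 := (mul_eq_zero.1 h4).resolve_right (xF_ne huv)
  have ha : a = 0 := by
    rw [hb] at h2
    simpa using h2
  have hy : y = 0 := by
    funext w
    have h5 := h1 w.1
    rw [dif_pos w.2, ha, hb] at h5
    simpa using h5
  rw [hy, ha, hb]
  rfl

theorem nu_le (A : Gr V) (hA : IsEv A) (hne : A ≠ 0) : nu A + 2 ≤ (supp A).card := by
  obtain ⟨u, hu⟩ := Function.ne_iff.1 hne
  obtain ⟨v, huv⟩ := Function.ne_iff.1 hu
  have huv' : A u v ≠ 0 := huv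
  have hne' : u ≠ v := by
    intro h
    rw [← h, hA.diag] at huv'
    exact huv' rfl
  have hus := mem_supp huv'
  have hvs : v ∈ supp A := mem_supp (v := u) (by rw [hA.symm]; exact huv')
  have h1 : LinearMap.range (Psi (supp A)) ≤ LinearMap.ker (Lap A).mulVecLin := by
    rintro _ ⟨p, rfl⟩
    rw [LinearMap.mem_ker, Matrix.mulVecLin_apply]
    exact Psi_ker A hA p
  have h2 := Submodule.finrank_mono h1
  rw [LinearMap.finrank_range_of_inj (Psi_inj (supp A) hne' hus hvs), Module.finrank_prod,
    Module.finrank_prod, Module.finrank_self, Module.finrank_fintype_fun_eq_card] at h2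
  have h3 := LinearMap.finrank_range_add_finrank_ker (Lap A).mulVecLin
  rw [Module.finrank_fintype_fun_eq_card] at h3
  have h4 : nu A = Module.finrank (F V) (LinearMap.range (Lap A).mulVecLin) := rfl
  have h5 : Fintype.card {v // v ∉ supp A} + (supp A).card = Fintype.card V := by
    rw [Fintype.card_subtype]
    have : (Finset.univ.filter fun v => v ∉ supp A) = (supp A)ᶜ := by
      ext v; simp
    rw [this, Finset.card_compl]
    have := Finset.card_le_univ (supp A)
    omega
  omega

end Aux_zero

theorem p_zero : S_add → S_zero := by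
  intro _ V _ _ A hA
  exact ⟨Aux_zero.nu_eq_zero A hA, Aux_zero.nu_le A hA, Aux_zero.lap_one A hA, Aux_zero.lap_x A hA⟩

end Pool.Agent.W390.SD
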