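import Pool.Agent.W390.SD.Stm2
import Pool.Agent.W390.SD.P.zero

/-! Project SD, part rkm. -/

namespace Pool.Agent.W390.SD

open MvPolynomial Finset

namespace Aux_rkm

variable {V : Type} [Fintype V] [DecidableEq V]

/-- the kernel of the Laplacian -/
noncomputable def KK (A : Gr V) : Submodule (F V) (V → F V) := LinearMap.ker (Lap A).mulVecLin

/-- restriction to `B` of the functions in the kernel -/
noncomputable def rs (A : Gr V) (B : Finset V) : KK A →ₗ[F V] (B → F V) :=
  (LinearMap.funLeft (F V) (F V) (fun b : B => (b : V))) ∘ₗ (KK A).subtype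

theorem rk_eq (A : Gr V) (B : Finset V) :
    rk A B = Module.finrank (F V) (LinearMap.range (rs A B)) := by
  unfold rk rs KK
  rw [LinearMap.range_comp, Submodule.range_subtype]

theorem rk_add (A : Gr V) (B : Finset V) :
    rk A B + Module.finrank (F V) (LinearMap.ker (rs A B)) = Module.finrank (F V) (KK A) := by
  rw [rk_eq, LinearMap.finrank_range_add_finrank_ker]

theorem mem_kr (A : Gr V) (B : Finset V) (f : KK A) :
    f ∈ LinearMap.ker (rs A B) ↔ ∀ b ∈ B, (f : V → F V) b = 0 := by
  rw [LinearMap.mem_ker]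
  constructor
  · intro h b hb
    exact congrFun h ⟨b, hb⟩
  · intro h
    funext b
    exact h b.1 b.2

theorem mono (A : Gr V) (C C' : Finset V) (h : C ⊆ C') : rk A C ≤ rk A C' := by
  have h1 := rk_add A C
  have h2 := rk_add A C'
  have h3 : Module.finrank (F V) (LinearMap.ker (rs A C')) ≤
      Module.finrank (F V) (LinearMap.ker (rs A C)) := by
    refine Submodule.finrank_mono ?_
    intro f hf
    rw [mem_kr] at hf ⊢
    exact fun b hb => hf b (h hb)
  omega

theorem le_card (A : Gr V) (C : Finset V) : rk A C ≤ C.card := by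
  rw [rk_eq]
  refine (Submodule.finrank_le _).trans ?_
  rw [Module.finrank_fintype_fun_eq_card, Fintype.card_coe]

theorem submod (A : Gr V) (C C' : Finset V) :
    rk A (C ∪ C') + rk A (C ∩ C') ≤ rk A C + rk A C' := by
  have h1 := rk_add A C
  have h2 := rk_add A C'
  have h3 := rk_add A (C ∪ C')
  have h4 := rk_add A (C ∩ C')
  have e1 : LinearMap.ker (rs A (C ∪ C')) = LinearMap.ker (rs A C) ⊓ LinearMap.ker (rs A C') := by
    ext f
    rw [Submodule.mem_inf, mem_kr, mem_kr, mem_kr]
    constructor
    · intro h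
      exact ⟨fun b hb => h b (mem_union_left _ hb), fun b hb => h b (mem_union_right _ hb)⟩
    · rintro ⟨ha, hb⟩ b hb'
      rcases mem_union.1 hb' with h | h
      · exact ha b h
      · exact hb b h
  have e2 : LinearMap.ker (rs A C) ⊔ LinearMap.ker (rs A C') ≤ LinearMap.ker (rs A (C ∩ C')) := by
    refine sup_le ?_ ?_
    · intro f hf
      rw [mem_kr] at hf ⊢
      exact fun b hb => hf b (mem_inter.1 hb).1
    · intro f hf
      rw [mem_kr] at hf ⊢
      exact fun b hb => hf b (mem_inter.1 hb).2
  have e3 := Submodule.finrank_sup_add_finrank_inf_eq (LinearMap.ker (rs A C))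
    (LinearMap.ker (rs A C'))
  have e4 := Submodule.finrank_mono e2
  rw [e1] at h3
  omega

theorem ins (A : Gr V) (C : Finset V) (v : V) : rk A (insert v C) ≤ rk A C + 1 := by
  have h1 := submod A C {v}
  have h2 := le_card A {v}
  have e : C ∪ {v} = insert v C := by
    rw [union_comm]; rfl
  rw [e] at h1
  rw [card_singleton] at h2
  omega

theorem two_le (A : Gr V) (h1 : (Lap A).mulVec (fun _ => 1) = 0) (hx : (Lap A).mulVec xF = 0)
    (C : Finset V) (hC : 2 ≤ C.card) : 2 ≤ rk A C := by
  obtain ⟨u, hu, v, hv, huv⟩ := Finset.one_lt_card.1 (show 1 < C.card by omega)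
  rw [rk_eq]
  set a : KK A := ⟨fun _ => 1, h1⟩ with ha
  set b : KK A := ⟨xF, hx⟩ with hb
  have hli : LinearIndependent (F V) ![(⟨rs A C a, a, rfl⟩ : LinearMap.range (rs A C)),
      (⟨rs A C b, b, rfl⟩ : LinearMap.range (rs A C))] := by
    rw [LinearIndependent.pair_iff]
    intro s t hst
    have hst' : s • rs A C a + t • rs A C b = 0 := congrArg Subtype.val hst
    have e1 : s * 1 + t * xF u = 0 := congrFun hst' ⟨u, hu⟩
    have e2 : s * 1 + t * xF v = 0 := congrFun hst' ⟨v, hv⟩
    have e3 : t * (xF u + xF v) = 0 := by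
      have h2s : s + s = 0 := Aux_zero.add_self s
      linear_combination e1 + e2 - h2s
    have ht : t = 0 := by
      rcases mul_eq_zero.1 e3 with h | h
      · exact h
      · exact absurd h (Aux_zero.xF_ne huv)
    refine ⟨?_, ht⟩
    rw [ht] at e1
    simpa using e1
  have := hli.fintype_card_le_finrank
  simpa using this

omit [DecidableEq V] in
theorem not_supp (A : Gr V) (v : V) (hv : v ∉ supp A) (u : V) : A v u = 0 := by
  by_contra h
  apply hv
  unfold supp nbr
  rw [mem_filter]
  exact ⟨mem_univ _, u, by rw [mem_filter]; exact ⟨mem_univ _, h⟩⟩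

theorem row_zero (A : Gr V) (v : V) (hv : v ∉ supp A) (u : V) : Lap A v u = 0 := by
  unfold Lap
  split_ifs with h1 h2
  · refine Finset.sum_eq_zero fun w _ => ?_
    rw [if_pos (not_supp A v hv w)]
  · rfl
  · exact absurd (not_supp A v hv u) h2

theorem col_zero (A : Gr V) (hA : IsEv A) (v : V) (hv : v ∉ supp A) (u : V) : Lap A u v = 0 := by
  by_cases h : u = v
  · rw [h]; exact row_zero A v hv v
  · unfold Lap
    rw [if_neg h, if_pos]
    rw [hA.symm]; exact not_supp A v hv u

theorem nuC_zero (A : Gr V) (hA : IsEv A) (C : Finset V) (hC : supp A ⊆ C) : nuC A Cᶜ = 0 := by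
  unfold nuC
  have : Submodule.span (F V) ((fun j : V => (Lap A).col j) '' ((Cᶜ : Finset V) : Set V)) = ⊥ := by
    rw [Submodule.span_eq_bot]
    rintro x ⟨j, hj, rfl⟩
    have hj' : j ∉ supp A := fun h => (mem_compl.1 (mem_coe.1 hj)) (hC h)
    funext u
    exact col_zero A hA j hj' u
  rw [this]
  exact finrank_bot _ _

theorem nuC_union (A : Gr V) (X Y : Finset V) : nuC A (X ∪ Y) ≤ nuC A X + nuC A Y := by
  unfold nuC
  rw [coe_union, Set.image_union, Submodule.span_union]
  exact Submodule.finrank_add_le_finrank_add_finrank _ _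

theorem nu_range (A : Gr V) : nu A = Module.finrank (F V) (LinearMap.range (Lap A).mulVecLin) := rfl

theorem disj (A B : Gr V) (hA : IsEv A) (hB : IsEv B) (hL : Lap (A + B) = Lap A + Lap B)
    (hd : Disjoint (supp A) (supp B)) : nu A + nu B ≤ nu (A + B) := by
  rw [nu_range, nu_range, nu_range]
  have e3 := Submodule.finrank_sup_add_finrank_inf_eq (LinearMap.range (Lap A).mulVecLin)
    (LinearMap.range (Lap B).mulVecLin)
  have e4 : LinearMap.range (Lap A).mulVecLin ⊔ LinearMap.range (Lap B).mulVecLin ≤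
      LinearMap.range (Lap (A + B)).mulVecLin := by
    intro y hy
    obtain ⟨y1, ⟨g, rfl⟩, y2, ⟨h, rfl⟩, rfl⟩ := Submodule.mem_sup.1 hy
    refine ⟨fun v => if v ∈ supp A then g v else h v, ?_⟩
    rw [hL]
    funext u
    simp only [Matrix.mulVecLin_apply, Matrix.add_mulVec, Pi.add_apply]
    congr 1
    · show ∑ v, Lap A u v * (if v ∈ supp A then g v else h v) = ∑ v, Lap A u v * g v
      refine Finset.sum_congr rfl fun v _ => ?_
      by_cases hv : v ∈ supp A
      · simp only [hv, if_true]
      · rw [col_zero A hA v hv u, zero_mul, zero_mul]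
    · show ∑ v, Lap B u v * (if v ∈ supp A then g v else h v) = ∑ v, Lap B u v * h v
      refine Finset.sum_congr rfl fun v _ => ?_
      by_cases hv : v ∈ supp B
      · have : v ∉ supp A := fun h' => (Finset.disjoint_left.1 hd) h' hv
        simp only [this, if_false]
      · rw [col_zero B hB v hv u, zero_mul, zero_mul]
  have e5 : LinearMap.range (Lap A).mulVecLin ⊓ LinearMap.range (Lap B).mulVecLin = ⊥ := by
    rw [eq_bot_iff]
    rintro y ⟨⟨g, hg⟩, ⟨h, hh⟩⟩
    rw [Submodule.mem_bot]
    funext u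
    by_cases hu : u ∈ supp A
    · have hu' : u ∉ supp B := fun h' => (Finset.disjoint_left.1 hd) hu h'
      rw [← hh]
      show ∑ v, Lap B u v * h v = 0
      refine Finset.sum_eq_zero fun v _ => ?_
      rw [row_zero B u hu' v, zero_mul]
    · rw [← hg]
      show ∑ v, Lap A u v * g v = 0
      refine Finset.sum_eq_zero fun v _ => ?_
      rw [row_zero A u hu v, zero_mul]
  have e6 := Submodule.finrank_mono e4
  rw [e5, finrank_bot] at e3
  omega

end Aux_rkm

open Aux_rkm

theorem p_rkm : S_rk → S_zero → S_basis → S_add → S_rkm := by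
  intro hrk hzero hbasis hadd V _ _ A B hA hB
  obtain ⟨-, -, z1, z2⟩ := hzero V A hA
  refine ⟨fun C hC => two_le A z1 z2 C hC, mono A, le_card A, ins A, submod A, ?_, ?_, ?_⟩
  · intro C hC
    have := hrk V A C hA
    rw [nuC_zero A hA C hC] at this
    omega
  · intro C J hJ hP
    have h1 := hrk V A C hA
    obtain ⟨b1, b2, b3, b4, b5, -⟩ := hbasis V A hA
    have h2 : J.card ≤ nuC A J := b5 J J (Finset.Subset.refl J) hP
    have h3 := nuC_union A (J ∩ Cᶜ) (J ∩ C)
    have e : J ∩ Cᶜ ∪ J ∩ C = J := by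
      ext x
      simp only [mem_union, mem_inter, mem_compl]
      tauto
    rw [e] at h3
    have h4 := b3 (J ∩ C)
    have h5 := b2 (J ∩ Cᶜ) Cᶜ Finset.inter_subset_right
    have h6 : (C \ J).card + (C ∩ J).card = C.card := Finset.card_sdiff_add_card_inter C J
    rw [Finset.inter_comm] at h6
    omega
  · intro hd
    have h1 := disj A B hA hB (hadd V A B).1 hd
    have h2 := (hadd V A B).2.2.2.2
    omega

end Pool.Agent.W390.SD
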