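import Pool.Agent.W390.SD.Stm2

/-!
# Strong duality (project SD): Z3, comparison of the ranks of a vertex set

`S_rkplus` from `S_add`.  Linear algebra only.
-/

namespace Pool.Agent.W390.SD

namespace Aux_rkplus

open Module Submodule

variable {k : Type*} [Field k] {E W : Type*} [AddCommGroup E] [Module k E]
  [FiniteDimensional k E] [AddCommGroup W] [Module k W]

/-- Rank-nullity on a subspace. -/
lemma map_inf (r : E →ₗ[k] W) (K : Submodule k E) :
    finrank k (K.map r) + finrank k (K ⊓ LinearMap.ker r : Submodule k E) = finrank k K := by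
  have h := LinearMap.finrank_range_add_finrank_ker (r.domRestrict K)
  have h1 : LinearMap.range (r.domRestrict K) = K.map r := LinearMap.range_domRestrict K r
  have h2 : finrank k (LinearMap.ker (r.domRestrict K))
      = finrank k (K ⊓ LinearMap.ker r : Submodule k E) := by
    rw [LinearMap.ker_domRestrict, ← Submodule.map_comap_subtype]
    exact (Submodule.finrank_map_subtype_eq K _).symm
  rw [h1, h2] at h
  exact h

variable {n : Type*} [Fintype n]

/-- For symmetric `M`, `N`: the common kernel is orthogonal to the sum of the ranges. -/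
lemma ker_inf (M N : Matrix n n k) (hM : M.IsSymm) (hN : N.IsSymm) :
    Fintype.card n ≤
      finrank k (LinearMap.ker M.mulVecLin ⊓ LinearMap.ker N.mulVecLin : Submodule k (n → k))
      + finrank k (LinearMap.range M.mulVecLin ⊔ LinearMap.range N.mulVecLin :
        Submodule k (n → k)) := by
  set P : Matrix (n ⊕ n) n k := Matrix.fromRows M N with hP
  have h1 := LinearMap.finrank_range_add_finrank_ker P.mulVecLin
  rw [Module.finrank_fintype_fun_eq_card] at h1
  have h2 : LinearMap.ker P.mulVecLin ≤
      LinearMap.ker M.mulVecLin ⊓ LinearMap.ker N.mulVecLin := by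
    intro x hx
    rw [LinearMap.mem_ker, Matrix.mulVecLin_apply, hP, Matrix.fromRows_mulVec] at hx
    refine Submodule.mem_inf.2 ⟨?_, ?_⟩
    · rw [LinearMap.mem_ker, Matrix.mulVecLin_apply]
      funext i
      have := congrFun hx (Sum.inl i)
      simpa using this
    · rw [LinearMap.mem_ker, Matrix.mulVecLin_apply]
      funext i
      have := congrFun hx (Sum.inr i)
      simpa using this
  have h3 : finrank k (LinearMap.range P.mulVecLin) ≤
      finrank k (LinearMap.range M.mulVecLin ⊔ LinearMap.range N.mulVecLin :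
        Submodule k (n → k)) := by
    have h4 : finrank k (LinearMap.range P.mulVecLin) = P.rank := rfl
    rw [h4, ← Matrix.rank_transpose]
    have h5 : P.transpose = Matrix.fromCols M N := by
      rw [hP, Matrix.transpose_fromRows, hM.eq, hN.eq]
    rw [h5]
    change finrank k (LinearMap.range (Matrix.fromCols M N).mulVecLin) ≤ _
    apply Submodule.finrank_mono
    rintro _ ⟨x, rfl⟩
    rw [Matrix.mulVecLin_apply, Matrix.fromCols_mulVec]
    exact Submodule.add_mem_sup ⟨_, rfl⟩ ⟨_, rfl⟩
  have h6 := Submodule.finrank_mono h2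
  omega

lemma main (M N : Matrix n n k) (hM : M.IsSymm) (hN : N.IsSymm)
    (h : M.rank + N.rank ≤ (M + N).rank + 2) (r : (n → k) →ₗ[k] W) :
    finrank k ((LinearMap.ker (M + N).mulVecLin).map r) ≤
      finrank k ((LinearMap.ker M.mulVecLin).map r) + 1 := by
  set K := LinearMap.ker (M + N).mulVecLin with hK
  set K0 := LinearMap.ker M.mulVecLin ⊓ LinearMap.ker N.mulVecLin with hK0
  have hle : K0 ≤ K := by
    intro x hx
    obtain ⟨h1, h2⟩ := Submodule.mem_inf.1 hx
    rw [LinearMap.mem_ker, Matrix.mulVecLin_apply] at h1 h2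
    rw [hK, LinearMap.mem_ker, Matrix.mulVecLin_apply, Matrix.add_mulVec, h1, h2, add_zero]
  -- the image of `K` under `M`
  have h1 := map_inf M.mulVecLin K
  have h2 : K ⊓ LinearMap.ker M.mulVecLin ≤ K0 := by
    intro x hx
    obtain ⟨h1, h2⟩ := Submodule.mem_inf.1 hx
    rw [hK, LinearMap.mem_ker, Matrix.mulVecLin_apply, Matrix.add_mulVec] at h1
    have h3 := h2
    rw [LinearMap.mem_ker, Matrix.mulVecLin_apply] at h3
    rw [h3, zero_add] at h1
    refine Submodule.mem_inf.2 ⟨h2, ?_⟩
    rw [LinearMap.mem_ker, Matrix.mulVecLin_apply]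
    exact h1
  have h2' := Submodule.finrank_mono h2
  have h3 : K.map M.mulVecLin ≤ LinearMap.range M.mulVecLin ⊓ LinearMap.range N.mulVecLin := by
    rintro _ ⟨x, hx, rfl⟩
    refine Submodule.mem_inf.2 ⟨⟨x, rfl⟩, ⟨-x, ?_⟩⟩
    have hx' : x ∈ K := hx
    rw [hK, LinearMap.mem_ker, Matrix.mulVecLin_apply, Matrix.add_mulVec] at hx'
    rw [Matrix.mulVecLin_apply, Matrix.mulVecLin_apply, Matrix.mulVec_neg]
    exact (eq_neg_of_add_eq_zero_left hx').symm
  have h3' := Submodule.finrank_mono h3
  have h4 := Submodule.finrank_sup_add_finrank_inf_eq (LinearMap.range M.mulVecLin)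
    (LinearMap.range N.mulVecLin)
  have h5 := ker_inf M N hM hN
  have h6 := LinearMap.finrank_range_add_finrank_ker (M + N).mulVecLin
  rw [Module.finrank_fintype_fun_eq_card] at h6
  have h7 : finrank k (LinearMap.range (M + N).mulVecLin) = (M + N).rank := rfl
  have h8 : finrank k (LinearMap.range M.mulVecLin) = M.rank := rfl
  have h9 : finrank k (LinearMap.range N.mulVecLin) = N.rank := rfl
  rw [h7] at h6
  rw [h8, h9] at h4
  rw [← hK] at h6
  rw [← hK0] at h5
  -- the restriction
  have g1 := map_inf r K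
  have g2 := map_inf r K0
  have g3 : finrank k (K0 ⊓ LinearMap.ker r : Submodule k (n → k)) ≤
      finrank k (K ⊓ LinearMap.ker r : Submodule k (n → k)) :=
    Submodule.finrank_mono (inf_le_inf_right _ hle)
  have g4 : finrank k (K0.map r) ≤ finrank k ((LinearMap.ker M.mulVecLin).map r) :=
    Submodule.finrank_mono (Submodule.map_mono inf_le_left)
  omega

end Aux_rkplus

theorem p_rkplus : S_add → S_rk → S_rkplus := by
  intro hadd _ V _ _ G T B hG hT h
  obtain ⟨h1, h2, _, h4, _⟩ := hadd V G T
  obtain ⟨k1, _, _, _, _⟩ := hadd V (G + T) T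
  obtain ⟨_, _, k3, k4, _⟩ := hadd V T T
  obtain ⟨_, _, _, m4, _⟩ := hadd V (G + T) (G + T)
  have e : G + T + T = G := by rw [add_assoc, k3, add_zero]
  rw [e] at k1
  have hs1 : (Lap (G + T)).IsSymm := m4 (h2 hG hT)
  have hs2 : (Lap T).IsSymm := k4 hT
  unfold nu at h
  unfold rk
  rw [k1] at h ⊢
  exact Aux_rkplus.main (Lap (G + T)) (Lap T) hs1 hs2 h _

end Pool.Agent.W390.SD
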