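import Pool.Agent.W390.SD.Stm2

set_option autoImplicit false

namespace Pool.Agent.W390.SD

open MvPolynomial Finset

namespace Aux_small

theorem xF_add_ne {V : Type} [DecidableEq V] {u v : V} (h : u ≠ v) : xF u + xF v ≠ 0 := by
  unfold xF xx
  rw [← map_add]
  intro h0
  have h1 : (X u ^ 2 + X v ^ 2 : R V) = 0 :=
    (IsFractionRing.injective (R V) (F V)) (h0.trans (map_zero _).symm)
  have h2 := congrArg (MvPolynomial.eval (fun w : V => if w = u then (1 : ZMod 2) else 0)) h1
  simp [h.symm] at h2

theorem K_ne_zero {V : Type} [DecidableEq V] (S : Finset V) (h : 2 ≤ S.card) : K S ≠ 0 := by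
  obtain ⟨a, ha, b, hb, hab⟩ := Finset.one_lt_card.1 (show 1 < S.card by omega)
  intro h0
  have h1 := congrFun (congrFun h0 a) b
  unfold K at h1
  rw [if_pos ⟨ha, hb, hab⟩] at h1
  exact one_ne_zero h1

/-- rank one matrices: 2x2 minors vanish -/
theorem minor {V k : Type} [Fintype V] [DecidableEq V] [Field k] (M : Matrix V V k) (h : M.rank = 1)
    (a b c d : V) : M a c * M b d = M a d * M b c := by
  unfold Matrix.rank at h
  obtain ⟨w, _, hw⟩ := finrank_eq_one_iff'.1 h
  have key : ∀ j : V, ∃ t : k, ∀ i, M i j = t * (w : V → k) i := by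
    intro j
    obtain ⟨t, ht⟩ := hw ⟨M.mulVecLin (Pi.single j 1), LinearMap.mem_range_self _ _⟩
    refine ⟨t, fun i => ?_⟩
    have h1 := congrFun (congrArg Subtype.val ht) i
    simp only [Submodule.coe_smul, Pi.smul_apply, smul_eq_mul, Matrix.mulVecLin_apply,
      Matrix.mulVec_single_one, Matrix.col_apply] at h1
    exact h1.symm
  obtain ⟨s, hs⟩ := key c
  obtain ⟨t, ht⟩ := key d
  rw [hs, hs, ht, ht]
  ring

theorem lap_ne {V : Type} [Fintype V] [DecidableEq V] (A : Gr V) {u v : V} (h : u ≠ v)
    (hA : A u v ≠ 0) : Lap A u v ≠ 0 := by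
  unfold Lap
  rw [if_neg h, if_neg hA]
  exact inv_ne_zero (xF_add_ne h)

theorem ne_of_lap {V : Type} [Fintype V] [DecidableEq V] (A : Gr V) {u v : V} (h : u ≠ v)
    (hA : Lap A u v ≠ 0) : A u v ≠ 0 := by
  intro h0
  apply hA
  unfold Lap
  rw [if_neg h, if_pos h0]

theorem partA (h_tri : S_tri) (h_zero : S_zero) (h_rkm : S_rkm) (V : Type) [Fintype V]
    [DecidableEq V] (T : Gr V) (hI : Indec T) (hc : (supp T).card ≤ nu T + 2) :
    ∃ S : Finset V, S.card = 3 ∧ T = K S := by
  obtain ⟨hE, h0, hI⟩ := hI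
  obtain ⟨z1, z2, -, -⟩ := h_zero V T hE
  have h1 : nu T ≠ 0 := fun h => h0 (z1.1 h)
  have h2 := z2 h0
  obtain ⟨S, hS, hS3⟩ := Finset.exists_subset_card_eq (show 3 ≤ (supp T).card by omega)
  obtain ⟨-, r2, -, -, -, r6, -, -⟩ := h_rkm V T T hE hE
  have h3 := r2 S (supp T) hS
  have h4 := r6 (supp T) (Finset.Subset.refl _)
  have h5 : Tight (K S) T := h_tri V T S hE hS3 (by omega)
  rcases hI (K S) h5 with h6 | h6
  · exact absurd h6 (K_ne_zero S (by omega))
  · exact ⟨S, hS3, h6.symm⟩

theorem partB (h_zero : S_zero) (h_clique : S_clique) (h_add : S_add) (V : Type) [Fintype V]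
    [DecidableEq V] (T : Gr V) (hE : IsEv T) (hn : nu T = 1) :
    ∃ S : Finset V, S.card = 3 ∧ T = K S := by
  have hsym : ∀ u v, Lap T u v = Lap T v u := by
    intro u v
    have h1 := (h_add V T T).2.2.2.1 hE
    exact (h1.apply u v).symm
  have hmin := minor (Lap T) hn
  have hdiag : ∀ v ∈ supp T, Lap T v v ≠ 0 := by
    intro v hv h0
    unfold supp at hv
    rw [mem_filter] at hv
    obtain ⟨u, hu⟩ := hv.2
    unfold nbr at hu
    rw [mem_filter] at hu
    have huv : v ≠ u := by
      rintro rfl
      exact hu.2 (hE.diag v)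
    have h1 := lap_ne T huv hu.2
    have h2 := hmin v u v u
    rw [h0, zero_mul, hsym u v] at h2
    exact h1 (mul_self_eq_zero.1 h2.symm)
  have hT : T = K (supp T) := by
    funext u v
    by_cases huv : u = v
    · subst huv
      rw [hE.diag]
      unfold K
      rw [if_neg (fun h => h.2.2 rfl)]
    unfold K
    split_ifs with h
    · have h1 := hmin u v u v
      have h2 : Lap T u v ≠ 0 := by
        intro h3
        rw [h3, zero_mul] at h1
        rcases mul_eq_zero.1 h1 with h4 | h4
        · exact hdiag u h.1 h4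
        · exact hdiag v h.2.1 h4
      have h3 := ne_of_lap T huv h2
      revert h3
      generalize T u v = t
      revert t
      decide
    · by_contra h1
      apply h
      refine ⟨?_, ?_, huv⟩
      · unfold supp nbr
        rw [mem_filter]
        exact ⟨mem_univ _, v, by rw [mem_filter]; exact ⟨mem_univ _, h1⟩⟩
      · unfold supp nbr
        rw [mem_filter]
        exact ⟨mem_univ _, u, by rw [mem_filter, hE.symm]; exact ⟨mem_univ _, h1⟩⟩
  have hne : T ≠ 0 := by
    intro h0
    have h1 := ((h_zero V T hE).1).2 h0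
    omega
  have hsup : (supp T).Nonempty := by
    by_contra h0
    rw [Finset.not_nonempty_iff_eq_empty] at h0
    apply hne
    rw [hT, h0]
    funext u v
    unfold K
    simp
  obtain ⟨v, hv⟩ := hsup
  have hodd : Odd (supp T).card := by
    have h1 := hE.even v
    have h2 : ∑ u, T v u = ∑ u, (if u ∈ (supp T).erase v then (1 : ZMod 2) else 0) := by
      refine Finset.sum_congr rfl fun u _ => ?_
      conv_lhs => rw [hT]
      unfold K
      by_cases h : u ∈ (supp T).erase v
      · rw [if_pos h, if_pos]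
        rw [mem_erase] at h
        exact ⟨hv, h.2, Ne.symm h.1⟩
      · rw [if_neg h, if_neg]
        intro h3
        exact h (mem_erase.2 ⟨Ne.symm h3.2.2, h3.2.1⟩)
    rw [h2, Finset.sum_ite_mem, univ_inter, Finset.sum_const, nsmul_eq_mul, mul_one] at h1
    have h3 := (ZMod.natCast_eq_zero_iff_even).1 h1
    have h4 : ((supp T).erase v).card + 1 = (supp T).card := Finset.card_erase_add_one hv
    rw [← h4]
    exact h3.add_one
  refine ⟨supp T, ?_, hT⟩
  have h5 := (h_clique V (supp T) hodd).2.2.1
  rw [← hT, hn] at h5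
  omega

theorem partC (V : Type) [Fintype V] [DecidableEq V] (T : Gr V) (v p q : V) (hpq : p ≠ q)
    (hE : IsEv T) (hn : nbr T v = {p, q}) : rk T {v, p, q} ≤ 2 := by
  have hp : T v p ≠ 0 := by
    have : p ∈ nbr T v := by rw [hn]; simp
    unfold nbr at this
    exact (mem_filter.1 this).2
  have hq : T v q ≠ 0 := by
    have : q ∈ nbr T v := by rw [hn]; simp
    unfold nbr at this
    exact (mem_filter.1 this).2
  have hvp : v ≠ p := by
    rintro rfl
    exact hp (hE.diag v)
  have hother : ∀ u, u ∉ ({v, p, q} : Finset V) → Lap T v u = 0 := by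
    intro u hu
    simp only [mem_insert, mem_singleton, not_or] at hu
    unfold Lap
    rw [if_neg (Ne.symm hu.1), if_pos]
    by_contra h0
    have : u ∈ nbr T v := by
      unfold nbr
      exact mem_filter.2 ⟨mem_univ _, h0⟩
    rw [hn] at this
    simp only [mem_insert, mem_singleton] at this
    rcases this with h | h
    · exact hu.2.1 h
    · exact hu.2.2 h
  -- the functional
  let φ : (({v, p, q} : Finset V) → F V) →ₗ[F V] F V :=
    ∑ b : ({v, p, q} : Finset V), Lap T v b • LinearMap.proj b
  have hφ : ∀ g, φ g = ∑ b : ({v, p, q} : Finset V), Lap T v b * g b := by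
    intro g
    simp only [φ, LinearMap.sum_apply, LinearMap.smul_apply, LinearMap.proj_apply, smul_eq_mul]
  have hpm : p ∈ ({v, p, q} : Finset V) := by simp
  have hφ0 : φ ≠ 0 := by
    intro h0
    have h1 := LinearMap.congr_fun h0 (Pi.single (⟨p, hpm⟩ : ({v, p, q} : Finset V)) 1)
    rw [hφ, LinearMap.zero_apply, Finset.sum_eq_single (⟨p, hpm⟩ : ({v, p, q} : Finset V))] at h1
    · rw [Pi.single_eq_same, mul_one] at h1
      exact lap_ne T hvp hp h1
    · intro b _ hb
      rw [Pi.single_eq_of_ne hb, mul_zero]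
    · intro h
      exact absurd (mem_univ _) h
  have hle : Submodule.map (LinearMap.funLeft (F V) (F V)
      (fun b : ({v, p, q} : Finset V) => (b : V))) (LinearMap.ker (Lap T).mulVecLin) ≤
      LinearMap.ker φ := by
    rintro _ ⟨f, hf, rfl⟩
    rw [LinearMap.mem_ker, hφ]
    have h1 := congrFun (LinearMap.mem_ker.1 hf) v
    rw [Matrix.mulVecLin_apply] at h1
    simp only [Matrix.mulVec, dotProduct, Pi.zero_apply] at h1
    rw [← h1]
    simp only [LinearMap.funLeft_apply]
    rw [Finset.sum_coe_sort ({v, p, q} : Finset V) (fun b => Lap T v b * f b)]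
    refine Finset.sum_subset (Finset.subset_univ _) fun u _ hu => ?_
    rw [hother u hu, zero_mul]
  have h2 := Submodule.finrank_mono hle
  have h3 : Module.finrank (F V) (LinearMap.ker φ) + 1 ≤
      Module.finrank (F V) (({v, p, q} : Finset V) → F V) := by
    have h4 : LinearMap.ker φ < ⊤ := by
      rw [lt_top_iff_ne_top]
      intro h5
      exact hφ0 (LinearMap.ker_eq_top.1 h5)
    have h5 := Submodule.finrank_lt_finrank_of_lt h4
    rw [finrank_top] at h5
    exact h5
  rw [Module.finrank_fintype_fun_eq_card, Fintype.card_coe] at h3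
  have h6 : ({v, p, q} : Finset V).card ≤ 3 := Finset.card_le_three
  unfold rk
  omega

end Aux_small

theorem p_small : S_tri → S_rk → S_zero → S_clique → S_rkm → S_ind → S_add → S_basis → S_small := by
  intro h_tri _ h_zero h_clique h_rkm _ h_add _ V _ _ T
  exact ⟨Aux_small.partA h_tri h_zero h_rkm V T, Aux_small.partB h_zero h_clique h_add V T,
    fun v p q hpq hE hn => Aux_small.partC V T v p q hpq hE hn⟩

end Pool.Agent.W390.SD
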