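import Pool.Agent.W390.SD.Stm3

/-! S_sp2: specialisation of star polynomials -/

set_option autoImplicit false

namespace Pool.Agent.W390.SD

open MvPolynomial Finset

namespace Aux_sp2

theorem xx_add_ne {V : Type} (b b' : V) (h : b ≠ b') : (xx b + xx b' : R V) ≠ 0 := by
  intro h0
  unfold xx at h0
  have h1 : (X b + X b' : R V) ^ 2 = 0 := by
    have h2 : (2 : R V) = 0 := by
      have : (2 : R V) = C (2 : ZMod 2) := (map_ofNat (C : ZMod 2 →+* R V) 2).symm
      rw [this]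
      have h22 : (2 : ZMod 2) = 0 := by decide
      rw [h22, map_zero]
    calc (X b + X b' : R V) ^ 2 = X b ^ 2 + X b' ^ 2 + 2 * (X b * X b') := by ring
      _ = 0 := by rw [h0, h2]; ring
  have h3 : (X b + X b' : R V) = 0 := by
    exact pow_eq_zero_iff (two_ne_zero) |>.1 h1
  have h4 : (X b : R V) = X b' := by
    have h5 : (X b : R V) = - X b' := eq_neg_of_add_eq_zero_left h3
    rw [h5]
    have h2 : (2 : R V) = 0 := by
      have : (2 : R V) = C (2 : ZMod 2) := (map_ofNat (C : ZMod 2 →+* R V) 2).symm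
      rw [this]
      have h22 : (2 : ZMod 2) = 0 := by decide
      rw [h22, map_zero]
    have h6 : (X b' : R V) + X b' = 0 := by
      calc (X b' : R V) + X b' = 2 * X b' := by ring
        _ = 0 := by rw [h2, zero_mul]
    exact (eq_neg_of_add_eq_zero_left h6).symm
  exact h (X_injective h4)

theorem sg_xx {V : Type} [DecidableEq V] (w v b : V) (h : b ≠ w) :
    sg w v (xx b : R V) = xx b := by
  unfold sg xx
  rw [map_pow, rename_X, if_neg h]

theorem sg_comm {V : Type} [DecidableEq V] (b b' w u v : V) (hwb : w ≠ b) (hwb' : w ≠ b')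
    (hub : u ≠ b) (hv : v = u ∨ v = b ∧ u = b') (Q : R V) :
    sg b b' (sg w v Q) = sg w u (sg b b' Q) := by
  unfold sg
  rw [rename_rename, rename_rename]
  congr 2
  funext x
  simp only [Function.comp_apply]
  by_cases hxw : x = w
  · subst hxw
    rw [if_pos rfl, if_neg hwb, if_pos rfl]
    rcases hv with rfl | ⟨rfl, rfl⟩
    · rw [if_neg hub]
    · rw [if_pos rfl]
  · rw [if_neg hxw]
    by_cases hxb : x = b
    · subst hxb
      rw [if_pos rfl, if_neg (fun h => hwb' h.symm)]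
    · rw [if_neg hxb, if_neg hxw]

end Aux_sp2

open Aux_sp2 in
theorem p_sp2 : S_dd → S_ddsg → S_ctr_edge → S_ctr → S_ctrnu → S_lift → S_sp1 → S_sp2 := by
  intro _ _ hce hctr hnu hlift hsp1 V _ _ H b b' w u J c hH hSP hwJ hYwu hsc
  obtain ⟨hHbb, hbJ, hb'J, hJc, Q, hPQ, hQc, hcQ⟩ := hSP
  have hwb : w ≠ b := fun h => hbJ (h ▸ hwJ)
  have hwb' : w ≠ b' := fun h => hb'J (h ▸ hwJ)
  have hbb : b ≠ b' := by
    intro h
    rw [h] at hHbb
    exact hHbb (hH.diag b')
  obtain ⟨hub, huw, hvw, hv, hHwv, hH'bb, hctrc, -, -, -⟩ := hlift V H b b' w u hH hHbb hwb hwb' hYwu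
  generalize hvdef : hat H b b' w u = v at *
  have hedge := hce V H J w v hH hHwv hwJ
  have hsg : sg w v (PJ H J) = (xx b + xx b') * sg w v Q := by
    rw [hPQ, map_mul, map_add, sg_xx w v b hwb.symm, sg_xx w v b' hwb'.symm]
  have hcomm := sg_comm b b' w u v hwb hwb' hub hv Q
  have hsQ : sg w v Q ≠ 0 := by
    intro h0
    rw [h0, map_zero] at hcomm
    exact hsc (by rw [hcQ, ← hcomm])
  have hne : sg w v (PJ H J) ≠ 0 := by
    rw [hsg]
    exact mul_ne_zero (xx_add_ne b b' hbb) hsQ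
  obtain ⟨-, -, -, -, hgood, -⟩ := hnu V H w v hH hvw.symm
  have hg : good H w v := hgood J hwJ hHwv hJc hne
  have hcard : (J.erase w).card = nu (ctr w v H) := by
    rw [Finset.card_erase_of_mem hwJ, hJc]
    have := hg.2
    omega
  have hevH' : IsEv (ctr w v H) := (hctr V H H w v hvw.symm hH hH).1
  obtain ⟨c', hSP', -, hcne, -, -⟩ := hsp1 V (ctr w v H) b b' (J.erase w) hevH' hH'bb
    (fun h => hbJ (Finset.mem_of_mem_erase h)) (fun h => hb'J (Finset.mem_of_mem_erase h)) hcard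
  have hSP'' := hSP'
  obtain ⟨-, -, -, -, Q', hPQ', -, hc'Q'⟩ := hSP''
  have hQQ : sg w v Q = (∏ x ∈ nbr H w ∩ nbr H v, (X x + X v)) ^ 2 * Q' := by
    apply mul_left_cancel₀ (xx_add_ne b b' hbb)
    rw [← hsg, hedge, hPQ']
    ring
  have hfin : sg w u c = sg b b' ((∏ x ∈ nbr H w ∩ nbr H v, (X x + X v)) ^ 2) * c' := by
    rw [hcQ, ← hcomm, hQQ, map_mul, hc'Q']
  have hc'0 : c' ≠ 0 := by
    intro h0
    rw [h0, mul_zero] at hfin
    exact hsc hfin
  exact ⟨hg, (hcne hc'0).1, c', _, hSP', hc'0, hfin⟩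

end Pool.Agent.W390.SD
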