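import Pool.Agent.W390.SD.Stm3

/-!
# Project SD: nonzero star polynomials in uniform graphs of rank 4
-/

namespace Pool.Agent.W390.SD

open MvPolynomial Finset

theorem p_sp3 : S_basis → S_deg → S_unifrk → S_FLP → S_sp1 → S_sp3 := by
  intro _ hdeg hur hFLP hsp1 V _ _ G b b' p q hU hN hg hp hq hpq hpb hpb' hqb hqb'
  have hG := hU.1
  have hbb' : b ≠ b' := by
    intro h
    apply hg.1
    rw [← h]
    exact hG.diag b
  have hb : b ∈ supp G := by
    unfold supp nbr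
    rw [mem_filter]
    exact ⟨mem_univ _, b', mem_filter.2 ⟨mem_univ _, hg.1⟩⟩
  have hb' : b' ∈ supp G := by
    unfold supp nbr
    rw [mem_filter]
    exact ⟨mem_univ _, b, mem_filter.2 ⟨mem_univ _, by rw [← hG.symm]; exact hg.1⟩⟩
  set J : Finset V := (((supp G).erase b).erase b').erase p |>.erase q with hJ
  have hJs : J ⊆ supp G := fun x hx => by
    rw [hJ] at hx
    exact mem_of_mem_erase (mem_of_mem_erase (mem_of_mem_erase (mem_of_mem_erase hx)))
  have hJc : J.card = nu G := by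
    have h1 : b' ∈ (supp G).erase b := mem_erase.2 ⟨hbb'.symm, hb'⟩
    have h2 : p ∈ ((supp G).erase b).erase b' := mem_erase.2 ⟨hpb', mem_erase.2 ⟨hpb, hp⟩⟩
    have h3 : q ∈ (((supp G).erase b).erase b').erase p :=
      mem_erase.2 ⟨hpq.symm, mem_erase.2 ⟨hqb', mem_erase.2 ⟨hqb, hq⟩⟩⟩
    rw [hJ, card_erase_of_mem h3, card_erase_of_mem h2, card_erase_of_mem h1,
      card_erase_of_mem hb]
    omega
  have hbJ : b ∉ J := fun h => by
    rw [hJ] at h
    exact notMem_erase b _ (mem_of_mem_erase (mem_of_mem_erase (mem_of_mem_erase h)))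
  have hb'J : b' ∉ J := fun h => by
    rw [hJ] at h
    exact notMem_erase b' _ (mem_of_mem_erase (mem_of_mem_erase h))
  obtain ⟨J', hJ'1, hJ'2, hJ'3⟩ := hFLP V G b b' J hG hg hbJ hb'J
  have hnuC : nuC G J = J.card := by
    rw [(hur V G hU).2 J hJs, hJc, min_self]
  have hJJ : J' = J := eq_of_subset_of_card_le hJ'1 (by rw [hJ'2, hnuC])
  rw [hJJ] at hJ'3
  obtain ⟨c, hc1, hc2, _, hc4, hc5⟩ := hsp1 V G b b' J hG hg.1 hbJ hb'J hJc
  have hPJ : PJ G J ≠ 0 := hU.2 J hJs hJc.le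
  refine ⟨c, hc1, hc4 hJ'3, hc2, ?_⟩
  intro w hwb hwb' hw hwp hwq
  have hwJ : w ∈ J := by
    rw [hJ]
    exact mem_erase.2 ⟨hwq, mem_erase.2 ⟨hwp, mem_erase.2 ⟨hwb', mem_erase.2 ⟨hwb, hw⟩⟩⟩⟩
  exact (Nat.add_le_add_right (hc5 w hwb hwb') 2).trans ((hdeg V G J w hG).2 hwJ hPJ)

end Pool.Agent.W390.SD
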