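import Pool.Agent.W390.SD.Stm2

/-! Project SD (helper390), part L4: star polynomials (helper557). -/

set_option autoImplicit false

namespace Pool.Agent.W390.SD

open MvPolynomial Finset

namespace Aux_star

theorem z2 {V : Type} (a : R V) : a + a = 0 := CharTwo.add_self_eq_zero a

theorem X_ne {V : Type} {b b' : V} (h : b ≠ b') : (X b + X b' : R V) ≠ 0 := by
  intro h0
  have h1 : (X b : R V) = X b' := by
    have := congrArg (· + (X b' : R V)) h0
    simp only [zero_add] at this
    rwa [add_assoc, z2, add_zero] at this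
  exact h (X_injective h1)

theorem sq_eq {V : Type} (b b' : V) : (X b + X b' : R V) ^ 2 = xx b + xx b' := by
  unfold xx
  have h : (X b + X b' : R V) ^ 2 = X b ^ 2 + X b' ^ 2 + (X b * X b' + X b * X b') := by ring
  rw [h, z2, add_zero]

theorem pd_xx {V : Type} [DecidableEq V] (v b : V) : pderiv v (xx b : R V) = 0 := by
  unfold xx
  rw [pow_two, Derivation.leibniz, smul_eq_mul]
  exact z2 _

theorem pd_mul {V : Type} [DecidableEq V] (v b b' : V) (Q : R V) :
    pderiv v ((xx b + xx b') * Q) = (xx b + xx b') * pderiv v Q := by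
  rw [Derivation.leibniz, map_add, pd_xx, pd_xx, smul_eq_mul, smul_eq_mul]
  ring

/-- a polynomial is congruent to its substitution -/
theorem sg_cong {V : Type} [DecidableEq V] (b b' : V) (Q : R V) :
    ∃ T : R V, Q = sg b b' Q + (X b + X b') * T := by
  have h : ((Ideal.Quotient.mkₐ (ZMod 2) (Ideal.span {(X b + X b' : R V)})).comp (sg b b')) =
      Ideal.Quotient.mkₐ (ZMod 2) (Ideal.span {(X b + X b' : R V)}) := by
    apply MvPolynomial.algHom_ext
    intro v
    rw [AlgHom.comp_apply]
    unfold sg
    rw [rename_X]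
    by_cases hv : v = b
    · rw [if_pos hv, hv]
      refine Ideal.Quotient.eq.2 ?_
      rw [Ideal.mem_span_singleton]
      refine ⟨1, ?_⟩
      have h2 : (X b' - X b : R V) = X b + X b' := by
        rw [sub_eq_iff_eq_add]
        have := z2 (X b : R V)
        linear_combination -this
      rw [h2, mul_one]
    · rw [if_neg hv]
  have h1 := congrArg (fun f => f Q) h
  simp only [AlgHom.comp_apply] at h1
  have h2 := Ideal.Quotient.eq.1 h1.symm
  rw [Ideal.mem_span_singleton] at h2
  obtain ⟨T, hT⟩ := h2
  exact ⟨T, by linear_combination hT⟩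

theorem sg_edge {V : Type} [DecidableEq V] (b b' : V) : sg b b' (X b + X b' : R V) = 0 := by
  unfold sg
  rw [map_add, rename_X, rename_X, if_pos rfl]
  by_cases h : b' = b
  · rw [if_pos h]
    exact z2 _
  · rw [if_neg h]
    exact z2 _

theorem dvd_iff {V : Type} [DecidableEq V] (b b' : V) (Q : R V) :
    (X b + X b' : R V) ∣ Q ↔ sg b b' Q = 0 := by
  constructor
  · rintro ⟨T, rfl⟩
    rw [map_mul, sg_edge, zero_mul]
  · intro h
    obtain ⟨T, hT⟩ := sg_cong b b' Q
    rw [h, zero_add] at hT
    exact ⟨T, hT⟩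

theorem deg_sg {V : Type} [DecidableEq V] (b b' w : V) (hb : w ≠ b) (hb' : w ≠ b') (Q : R V) :
    degreeOf w (sg b b' Q) ≤ degreeOf w Q := by
  rw [degreeOf_eq_sup]
  refine Finset.sup_le ?_
  intro m hm
  rw [mem_support_iff] at hm
  unfold sg at hm
  obtain ⟨u, hu, hc⟩ := coeff_rename_ne_zero _ _ _ hm
  have h1 : m w = u w := by
    rw [← hu, Finsupp.mapDomain, Finsupp.sum_apply, Finsupp.sum, Finset.sum_eq_single w]
    · rw [if_neg hb, Finsupp.single_eq_same]
    · intro v _ hv
      refine Finsupp.single_eq_of_ne ?_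
      split_ifs with h
      · exact fun h' => hb' (by first | exact h'.symm | exact h')
      · exact fun h' => hv h'.symm
    · intro hw
      rw [Finsupp.notMem_support_iff.1 hw, Finsupp.single_zero, Finsupp.zero_apply]
  rw [h1]
  exact monomial_le_degreeOf w (mem_support_iff.2 hc)

/-- dimension count -/
theorem dim {V : Type} [Fintype V] [DecidableEq V] (H Y : Gr V) (b b' : V) (J : Finset V)
    (h : ∀ c : V → F V, (∀ v, v ∉ J → c v = 0) → (Lap Y).mulVec c = 0 → del H b b' c = 0 →
      c = 0) : J.card ≤ nuC Y J + 1 := by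
  let W : Submodule (F V) (V → F V) :=
    Submodule.span (F V) ((fun j : V => (Lap Y).col j) '' (J : Set V))
  let ext : (J → F V) →ₗ[F V] (V → F V) :=
    { toFun := fun c v => if h : v ∈ J then c ⟨v, h⟩ else 0
      map_add' := by
        intro c d
        funext v
        by_cases hv : v ∈ J
        · simp only [dif_pos hv, Pi.add_apply]
        · simp only [dif_neg hv, Pi.add_apply, add_zero]
      map_smul' := by
        intro a d
        funext v
        by_cases hv : v ∈ J
        · simp only [dif_pos hv, Pi.smul_apply, RingHom.id_apply]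
        · simp only [dif_neg hv, Pi.smul_apply, RingHom.id_apply, smul_zero] }
  have hext : ∀ (c : J → F V) (v : V), v ∉ J → ext c v = 0 := by
    intro c v hv
    show (if h : v ∈ J then c ⟨v, h⟩ else 0) = 0
    rw [dif_neg hv]
  let dl : (V → F V) →ₗ[F V] F V :=
    { toFun := fun c => del H b b' c
      map_add' := by
        intro c d
        unfold del
        rw [← Finset.sum_add_distrib]
        refine Finset.sum_congr rfl fun v _ => ?_
        rw [Pi.add_apply, Pi.add_apply]
        ring
      map_smul' := by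
        intro a d
        unfold del
        rw [RingHom.id_apply, smul_eq_mul, Finset.mul_sum]
        refine Finset.sum_congr rfl fun v _ => ?_
        rw [Pi.smul_apply, Pi.smul_apply, smul_eq_mul, smul_eq_mul]
        ring }
  have hmem : ∀ c : J → F V, (Lap Y).mulVecLin (ext c) ∈ W := by
    intro c
    have h1 : (Lap Y).mulVecLin (ext c) = ∑ v, ext c v • (Lap Y).col v := by
      rw [Matrix.mulVecLin_apply]
      funext u
      rw [Finset.sum_apply]
      simp only [Matrix.mulVec, dotProduct, Pi.smul_apply, Matrix.col_apply, smul_eq_mul]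
      exact Finset.sum_congr rfl fun v _ => mul_comm _ _
    rw [h1]
    refine Submodule.sum_mem _ fun v _ => ?_
    by_cases hv : v ∈ J
    · exact Submodule.smul_mem _ _ (Submodule.subset_span ⟨v, hv, rfl⟩)
    · rw [hext c v hv, zero_smul]
      exact Submodule.zero_mem _
  let Φ : (J → F V) →ₗ[F V] (W × F V) :=
    LinearMap.prod (LinearMap.codRestrict W ((Lap Y).mulVecLin.comp ext) hmem) (dl.comp ext)
  have hinj : Function.Injective Φ := by
    rw [← LinearMap.ker_eq_bot, LinearMap.ker_eq_bot']
    intro c hc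
    have h1 : (Lap Y).mulVec (ext c) = 0 := by
      have := congrArg (fun z : W × F V => (z.1 : V → F V)) hc
      exact this
    have h2 : del H b b' (ext c) = 0 := by
      have := congrArg (fun z : W × F V => z.2) hc
      exact this
    have h3 := h (ext c) (hext c) h1 h2
    funext v
    have h4 := congrFun h3 v
    have h5 : ext c v = c v := by
      show (if h : (v : V) ∈ J then c ⟨v, h⟩ else 0) = c v
      rw [dif_pos v.2]
    rw [← h5, h4]
    rfl
  have h6 := LinearMap.finrank_le_finrank_of_injective hinj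
  rw [Module.finrank_prod, Module.finrank_self, Module.finrank_fintype_fun_eq_card,
    Fintype.card_coe] at h6
  exact h6

end Aux_star

open Aux_star in
theorem p_star : S_dd → S_ddsg → S_ctr_out → S_ind → S_basis → S_FLchar → S_deg → S_ctr →
    S_ctrnu → S_star := by
  intro _ _ hout _ hbasis hfl _ hctr hctrnu V _ _ H b b' J hH hbb hb hb' hJ
  have hne : b ≠ b' := by
    rintro rfl
    exact hbb (hH.diag b)
  obtain ⟨Q₀, hQ₀, -⟩ := (hout V H J b b' hH hne hb hb').2 hbb
  have hB := hbasis V H hH
  have hconst : ∀ v, pderiv v (PJ H J) = 0 := by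
    intro v
    exact hB.2.2.2.2.2.1 univ J (subset_univ _) (hJ.trans hB.1.symm) v (mem_univ _)
  have hQ0 : Q₀ = (X b + X b') * pderiv b Q₀ := by
    have h1 := hconst b
    rw [hQ₀, Derivation.leibniz, map_add, pderiv_X_self, pderiv_X_of_ne hne.symm, add_zero,
      smul_eq_mul, smul_eq_mul, mul_one] at h1
    have h2 := z2 Q₀
    linear_combination h2 - h1
  have hP : PJ H J = (xx b + xx b') * pderiv b Q₀ := by
    rw [← sq_eq, hQ₀]
    conv_lhs => rw [hQ0]
    ring
  have hxne : (xx b + xx b' : R V) ≠ 0 := by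
    rw [← sq_eq]
    exact pow_ne_zero 2 (X_ne hne)
  have hcube : (¬ ((X b + X b' : R V) ^ 3 ∣ PJ H J)) ↔ sg b b' (pderiv b Q₀) ≠ 0 := by
    rw [not_iff_not, ← dvd_iff, hP, ← sq_eq, pow_succ (X b + X b' : R V) 2]
    exact mul_dvd_mul_iff_left (pow_ne_zero 2 (X_ne hne))
  refine ⟨pderiv b Q₀, hP, ?_, hcube, ?_, ?_⟩
  · intro v
    have h1 := hconst v
    rw [hP, pd_mul] at h1
    exact (mul_eq_zero.1 h1).resolve_left hxne
  · intro hs
    have h1 := (hfl V H b b' J hH hbb hb hb').1 (hcube.2 hs)
    have h2 := dim H (ctr b b' H) b b' J h1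
    have h3 := hctrnu V H b b' hH hne
    have h4 := h3.2.2.1 hbb
    have hY : IsEv (ctr b b' H) := (hctr V H H b b' hne hH hH).1
    have h5 := hbasis V (ctr b b' H) hY
    have h6 := h5.2.1 J univ (subset_univ _)
    rw [h5.1] at h6
    exact ⟨hbb, by omega⟩
  · intro w hw hw'
    refine (deg_sg b b' w hw hw' _).trans ?_
    by_cases h0 : pderiv b Q₀ = 0
    · rw [h0, degreeOf_zero]
      exact Nat.zero_le _
    · rw [hP, degreeOf_mul_eq hxne h0]
      exact Nat.le_add_left _ _

end Pool.Agent.W390.SD
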