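import Pool.Agent.W390.SD.Stm3

/-!
# Project SD: the induction step
-/

namespace Pool.Agent.W390.SD

open MvPolynomial Finset

namespace Aux_step

/-- The rank conditions for the tight indecomposable parts of the contraction. -/
theorem ranks (h1 : S_zero) (h3 : S_rkm) (h4 : S_tcons) (h5 : S_ctr) (h6 : S_unif) (h9 : S_zcap)
    (h11 : S_iia) (h12 : S_iib) {V : Type} [Fintype V] [DecidableEq V] {n : ℕ} {G : Gr V}
    {b b' : V} (hSD : SDn V n) (hUQ : UQn V n) (hG : Indec G) (hc : (supp G).card = n + 1)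
    (hnu : nu G + 4 ≤ n + 1) (hg : good G b b') {T : Gr V} (hT : Indec T)
    (hTY : Tight T (ctr b b' G)) : 3 ≤ rk (ctr b b' G) (supp T) ∧
      4 ≤ rk (ctr b b' G) (insert b' (supp T)) := by
  have hEv : IsEv G := hG.1
  have hbb : b ≠ b' := by
    intro h
    have h2 := hg.1
    rw [← h, hEv.diag] at h2
    exact h2 rfl
  obtain ⟨hYe, -, -, hbY, -, hsub, -⟩ := h5 V G G b b' hbb hEv hEv
  have hb'G : b' ∈ supp G := by
    unfold supp nbr
    rw [mem_filter]
    refine ⟨mem_univ _, b, ?_⟩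
    rw [mem_filter]
    refine ⟨mem_univ _, ?_⟩
    rw [hEv.symm]
    exact hg.1
  have hYG : supp (ctr b b' G) ⊆ (supp G).erase b := hsub hb'G
  obtain ⟨-, hTs, hrk, -, -, -⟩ := h4 V (ctr b b' G) T hYe hTY
  have hTe : IsEv T := hT.1
  obtain ⟨hz1, hz2, -, -⟩ := h1 V T hTe
  have hT0 : T ≠ 0 := hT.2.1
  have hnT : nu T ≠ 0 := fun h => hT0 (hz1.1 h)
  have hcT := hz2 hT0
  obtain ⟨-, -, -, hins, -, -, -, -⟩ := h3 V (ctr b b' G) (ctr b b' G) hYe hYe
  obtain ⟨-, -, -, -, -, hfull, -, -⟩ := h3 V T T hTe hTe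
  have hTf := hfull (supp T) (Subset.refl _)
  have hbT : b ∉ supp T := fun h => hbY (hTs h)
  have hTG : supp T ⊆ supp G := fun v hv => mem_of_mem_erase (hYG (hTs hv))
  have hU : Unif G := h6 V G hG
  have hr : nu G + ((supp G).card - nu G) = (supp G).card := by omega
  by_cases hb : b' ∈ supp T
  · have e : insert b' ((supp T).erase b') = supp T := insert_erase hb
    have hz := h9 V G b b' ((supp T).erase b') ((supp G).card - nu G) hU hg hr
      (fun v hv => hTG (mem_of_mem_erase hv)) (fun h => hbT (mem_of_mem_erase h))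
      (fun h => (notMem_erase b' (supp T)) h)
    rw [e, card_erase_of_mem hb] at hz
    have hle := hrk (supp T)
    have e2 : insert b' (supp T) = supp T := insert_eq_self.2 hb
    rw [e2]
    have h3' : 3 ≤ rk (ctr b b' G) (supp T) := by omega
    by_cases h4' : nu G + 4 = n + 1
    · have hne : rk (ctr b b' G) (supp T) ≠ 3 :=
        h12 V n G T b b' hSD hUQ hG hc h4' hg hT hTY hb
      omega
    · omega
  · have hz := h9 V G b b' (supp T) ((supp G).card - nu G) hU hg hr hTG hbT hb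
    have hi := hins (supp T) b'
    have h4'' : 4 ≤ rk (ctr b b' G) (insert b' (supp T)) := by
      by_cases h4' : nu G + 4 = n + 1
      · have hne : rk (ctr b b' G) (insert b' (supp T)) ≠ 3 :=
          h11 V n G T b b' hSD hUQ hG hc h4' hg hT hTY hb
        omega
      · omega
    omega

end Aux_step

/-- Q2. -/
theorem p_step : S_zero → S_rk → S_rkm → S_tcons → S_ctr → S_unif → S_uq → S_nontwin → S_zcap →
    S_two → S_iia → S_iib → S_piece → S_step := by
  intro h1 _ h3 h4 h5 h6 h7 h8 h9 h10 h11 h12 h13 V _ _ n hSD G hG hcard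
  by_cases hlt : (supp G).card ≤ n
  · exact hSD G hG hlt
  by_contra hB
  have hc : (supp G).card = n + 1 := by omega
  have hnu : nu G + 4 ≤ n + 1 := by
    by_contra h
    exact hB (Or.inr (by omega))
  have hUQ := h7 V n hSD
  rcases h8 V G hG with ⟨b, b', hg, hb'⟩ | ⟨S, hS⟩
  · have hrk := fun (T : Gr V) (hT : Indec T) (hTY : Tight T (ctr b b' G)) =>
      Aux_step.ranks h1 h3 h4 h5 h6 h9 h11 h12 hSD hUQ hG hc hnu hg hT hTY
    obtain ⟨T, hT, hTY, h2⟩ := h13 V n G b b' hSD hG hc hnu hg hb' hrk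
    obtain ⟨ha, hb⟩ := hrk T hT hTY
    exact h10 V n G T b b' hSD hUQ hG hc hnu hg hT hTY ha hb h2
  · exact hB (Or.inl ⟨S, hS⟩)

end Pool.Agent.W390.SD
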