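import Pool.Agent.W390.SD.Stm1

/-!
# Project SD: renaming two vertices
-/

set_option linter.unusedSectionVars false

namespace Pool.Agent.W390.SD

open MvPolynomial Finset

namespace Aux_sw

theorem fr_eq {K : Type} [Field K] (φ : K ≃+* K) {ι κ : Type} (e : κ ≃ ι)
    (W : Submodule K (ι → K)) (W' : Submodule K (κ → K))
    (h : ∀ g : ι → K, g ∈ W ↔ (fun k => φ (g (e k))) ∈ W') :
    Module.finrank K W = Module.finrank K W' := by
  have h' : ∀ g' : κ → K, g' ∈ W' → (fun i => φ.symm (g' (e.symm i))) ∈ W := by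
    intro g' hg'
    rw [h]
    simpa using hg'
  let j : W ≃+ W' :=
    { toFun := fun g => ⟨fun k => φ (g.1 (e k)), (h g.1).1 g.2⟩
      invFun := fun g' => ⟨fun i => φ.symm (g'.1 (e.symm i)), h' g'.1 g'.2⟩
      left_inv := by
        intro g
        ext i
        simp
      right_inv := by
        intro g'
        ext k
        simp
      map_add' := by
        intro a b
        ext k
        simp }
  have hr : Module.rank K W = Module.rank K W' :=
    rank_eq_of_equiv_equiv (fun x => φ x) j φ.bijective (by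
      intro r m
      ext k
      simp [j])
  unfold Module.finrank
  rw [hr]

variable {V : Type}

/-- the field automorphism -/
noncomputable def fa [DecidableEq V] (b b' : V) : F V ≃+* F V :=
  IsFractionRing.ringEquivOfRingEquiv
    ((renameEquiv (ZMod 2) (Equiv.swap b b') : R V ≃ₐ[ZMod 2] R V).toRingEquiv)

theorem fa_xF [DecidableEq V] (b b' v : V) : fa b b' (xF v) = xF (Equiv.swap b b' v) := by
  unfold fa xF
  rw [IsFractionRing.ringEquivOfRingEquiv_algebraMap]
  congr 1
  simp [xx]

variable [Fintype V] [DecidableEq V]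

theorem sw_add (b b' : V) (A B : Gr V) : sw b b' (A + B) = sw b b' A + sw b b' B := rfl

theorem sw_sw (b b' : V) (A : Gr V) : sw b b' (sw b b' A) = A := by
  funext u v
  simp [sw]

theorem sw_ev (b b' : V) {A : Gr V} (hA : IsEv A) : IsEv (sw b b' A) := by
  refine ⟨fun u v => hA.symm _ _, fun v => hA.diag _, fun v => ?_⟩
  unfold sw
  rw [Equiv.sum_comp (Equiv.swap b b') (fun u => A (Equiv.swap b b' v) u)]
  exact hA.even _

theorem lap_sw (b b' : V) (A : Gr V) (u v : V) :
    Lap (sw b b' A) u v = fa b b' (Lap A (Equiv.swap b b' u) (Equiv.swap b b' v)) := by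
  have key : ∀ w : V, (if sw b b' A u w = 0 then (0 : F V) else (xF u + xF w)⁻¹) =
      fa b b' (if A (Equiv.swap b b' u) (Equiv.swap b b' w) = 0 then 0
        else (xF (Equiv.swap b b' u) + xF (Equiv.swap b b' w))⁻¹) := by
    intro w
    unfold sw
    split_ifs with h
    · rw [map_zero]
    · rw [map_inv₀, map_add, fa_xF, fa_xF, Equiv.swap_apply_self, Equiv.swap_apply_self]
  unfold Lap
  by_cases huv : u = v
  · subst huv
    rw [if_pos rfl, if_pos rfl, map_sum]
    rw [← Equiv.sum_comp (Equiv.swap b b')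
      (fun w => fa b b' (if A (Equiv.swap b b' u) w = 0 then 0
        else (xF (Equiv.swap b b' u) + xF w)⁻¹))]
    exact Finset.sum_congr rfl fun w _ => key w
  · have h2 : Equiv.swap b b' u ≠ Equiv.swap b b' v := fun h => huv ((Equiv.swap b b').injective h)
    rw [if_neg huv, if_neg h2]
    exact key v

theorem mulVec_sw (b b' : V) (A : Gr V) (f : V → F V) (u : V) :
    (Lap (sw b b' A)).mulVec (fun v => fa b b' (f (Equiv.swap b b' v))) u =
      fa b b' ((Lap A).mulVec f (Equiv.swap b b' u)) := by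
  simp only [Matrix.mulVec, dotProduct]
  rw [map_sum, ← Equiv.sum_comp (Equiv.swap b b')
    (fun w => fa b b' (Lap A (Equiv.swap b b' u) w * f w))]
  refine Finset.sum_congr rfl fun w _ => ?_
  rw [lap_sw, map_mul]

theorem ker_sw (b b' : V) (A : Gr V) (f : V → F V) :
    f ∈ LinearMap.ker (Lap A).mulVecLin ↔
      (fun v => fa b b' (f (Equiv.swap b b' v))) ∈ LinearMap.ker (Lap (sw b b' A)).mulVecLin := by
  rw [LinearMap.mem_ker, LinearMap.mem_ker, Matrix.mulVecLin_apply, Matrix.mulVecLin_apply]
  constructor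
  · intro h
    funext u
    rw [mulVec_sw, h]
    simp
  · intro h
    funext u
    have h2 := congrFun h (Equiv.swap b b' u)
    rw [mulVec_sw, Equiv.swap_apply_self, Pi.zero_apply] at h2
    simpa using h2

theorem nu_sw (b b' : V) (A : Gr V) : nu (sw b b' A) = nu A := by
  have h1 := fr_eq (fa b b') (Equiv.swap b b') (LinearMap.ker (Lap A).mulVecLin)
    (LinearMap.ker (Lap (sw b b' A)).mulVecLin) (ker_sw b b' A)
  have h2 := LinearMap.finrank_range_add_finrank_ker (Lap A).mulVecLin
  have h3 := LinearMap.finrank_range_add_finrank_ker (Lap (sw b b' A)).mulVecLin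
  unfold nu Matrix.rank
  omega

theorem rk_sw (b b' : V) (A : Gr V) (C : Finset V) :
    rk (sw b b' A) (C.image (Equiv.swap b b')) = rk A C := by
  symm
  let e : (C.image (Equiv.swap b b') : Finset V) ≃ C :=
    { toFun := fun x => ⟨Equiv.swap b b' x.1, by
        obtain ⟨c, hc, h⟩ := Finset.mem_image.mp x.2
        rw [← h, Equiv.swap_apply_self]
        exact hc⟩
      invFun := fun x => ⟨Equiv.swap b b' x.1, Finset.mem_image_of_mem _ x.2⟩
      left_inv := by intro x; ext; simp
      right_inv := by intro x; ext; simp }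
  unfold rk
  refine fr_eq (fa b b') e _ _ ?_
  intro g
  rw [Submodule.mem_map, Submodule.mem_map]
  constructor
  · rintro ⟨f, hf, rfl⟩
    refine ⟨fun v => fa b b' (f (Equiv.swap b b' v)), (ker_sw b b' A f).1 hf, ?_⟩
    funext k
    simp [e, LinearMap.funLeft_apply]
  · rintro ⟨f', hf', h⟩
    refine ⟨fun v => (fa b b').symm (f' (Equiv.swap b b' v)), ?_, ?_⟩
    · rw [ker_sw b b' A]
      simpa using hf'
    · funext c
      have h2 := congrFun h (e.symm c)
      simp only [LinearMap.funLeft_apply, Equiv.apply_symm_apply] at h2 ⊢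
      have h3 : ((e.symm c : (C.image (Equiv.swap b b') : Finset V)) : V) =
          Equiv.swap b b' (c : V) := rfl
      rw [h3] at h2
      rw [h2]
      simp

theorem supp_sw (b b' : V) (A : Gr V) :
    supp (sw b b' A) = (supp A).image (Equiv.swap b b') := by
  ext v
  have h1 : v ∈ (supp A).image (Equiv.swap b b') ↔ Equiv.swap b b' v ∈ supp A := by
    rw [Finset.mem_image]
    constructor
    · rintro ⟨a, ha, rfl⟩
      rwa [Equiv.swap_apply_self]
    · intro h
      exact ⟨_, h, Equiv.swap_apply_self _ _ _⟩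
  rw [h1]
  unfold supp nbr
  simp only [Finset.mem_filter, Finset.mem_univ, true_and]
  constructor
  · rintro ⟨u, hu⟩
    rw [Finset.mem_filter] at hu
    refine ⟨Equiv.swap b b' u, ?_⟩
    rw [Finset.mem_filter]
    exact ⟨Finset.mem_univ _, hu.2⟩
  · rintro ⟨u, hu⟩
    rw [Finset.mem_filter] at hu
    refine ⟨Equiv.swap b b' u, ?_⟩
    rw [Finset.mem_filter]
    refine ⟨Finset.mem_univ _, ?_⟩
    show A (Equiv.swap b b' v) (Equiv.swap b b' (Equiv.swap b b' u)) ≠ 0
    rw [Equiv.swap_apply_self]
    exact hu.2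

theorem tight_sw (b b' : V) {A B : Gr V} (h : Tight A B) : Tight (sw b b' A) (sw b b' B) := by
  refine ⟨sw_ev b b' h.1, ?_⟩
  rw [← sw_add, nu_sw, nu_sw, nu_sw]
  exact h.2

theorem sw_zero (b b' : V) : sw b b' (0 : Gr V) = 0 := rfl

theorem indec_sw (b b' : V) {A : Gr V} (h : Indec A) : Indec (sw b b' A) := by
  refine ⟨sw_ev b b' h.1, ?_, ?_⟩
  · intro h0
    apply h.2.1
    rw [← sw_sw b b' A, h0, sw_zero]
  · intro H hH
    have h1 := tight_sw b b' hH
    rw [sw_sw] at h1
    rcases h.2.2 _ h1 with h2 | h2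
    · left
      rw [← sw_sw b b' H, h2, sw_zero]
    · right
      rw [← h2, sw_sw]

end Aux_sw

open Aux_sw in
theorem p_sw : S_dd → S_basis → S_rk → S_sw := by
  intro _ _ _ V _ _ b b' A B
  exact ⟨sw_ev b b', nu_sw b b' A, sw_add b b' A B, sw_sw b b' A, indec_sw b b', tight_sw b b',
    supp_sw b b' A, rk_sw b b' A⟩

end Pool.Agent.W390.SD

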