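import Pool.Agent.W390.SD.Stm2
import Pool.Agent.W390.SD.P.ker

/-! Project SD, part E4: dependent sets give tight parts. -/

set_option autoImplicit false

namespace Pool.Agent.W390.SD

open MvPolynomial Finset

namespace Aux_ta0

variable {V : Type} [Fintype V] [DecidableEq V]

lemma two_zero : (2 : F V) = 0 := by
  have h2 : ((2 : ℕ) : ZMod 2) = 0 := by decide
  have h3 : ((2 : ℕ) : R V) = C ((2 : ℕ) : ZMod 2) := (map_natCast C 2).symm
  have h4 : ((2 : ℕ) : F V) = algebraMap (R V) (F V) ((2 : ℕ) : R V) :=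
    (map_natCast (algebraMap (R V) (F V)) 2).symm
  rw [h3, h2, map_zero, map_zero] at h4
  simpa using h4

lemma addself (x : F V) : x + x = 0 := by
  have h : x + x = 2 * x := by ring
  rw [h, two_zero, zero_mul]

/-- the relation `(M t) Q ∈ Sp` row by row -/
lemma rel (hdd : S_dd) (hdlog : S_dlog) (hadd : S_add) (G H : Gr V) (J : Finset V) (hG : IsEv G)
    (hH : IsEv H) (c₁ c₂ : R V) (hc₁ : c₁ ≠ 0)
    (hd₁ : ∀ p, pderiv p c₁ = 0) (hd₂ : ∀ p, pderiv p c₂ = 0)
    (heq : c₁ * PJ G J = c₂ * PP H) (v : V) :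
    (∑ u, Lap (G + H) v u * algebraMap (R V) (F V) (X u)) * algebraMap (R V) (F V) (PJ G J) =
      ∑ u, Lap G v u * algebraMap (R V) (F V) (if u ∈ J then PJ G (J.erase u) else 0) := by
  obtain ⟨d1, -⟩ := hdd V
  have hPH : PJ H ∅ = PP H := d1 _
  have h1 := hdlog V G J v hG
  have h2 := hdlog V H ∅ v hH
  rw [hPH] at h2
  simp only [Finset.notMem_empty, if_false, add_zero] at h2
  -- derivative of `heq`
  have h3 := congrArg (pderiv v) heq
  rw [Derivation.leibniz, Derivation.leibniz, hd₁ v, hd₂ v] at h3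
  simp only [smul_eq_mul, mul_zero, add_zero] at h3
  have h4 := congrArg (algebraMap (R V) (F V)) h3
  rw [map_mul, map_mul, h2] at h4
  have h5 := congrArg (algebraMap (R V) (F V)) heq
  rw [map_mul, map_mul] at h5
  have hne : algebraMap (R V) (F V) c₁ ≠ 0 := by
    rw [Ne, FaithfulSMul.algebraMap_eq_zero_iff]
    exact hc₁
  have h6 : algebraMap (R V) (F V) (pderiv v (PJ G J)) =
      (∑ u, Lap H v u * algebraMap (R V) (F V) (X u)) * algebraMap (R V) (F V) (PJ G J) := by
    apply mul_left_cancel₀ hne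
    rw [h4, Finset.mul_sum, Finset.sum_mul, Finset.mul_sum]
    refine Finset.sum_congr rfl (fun u _ => ?_)
    rw [map_mul]
    have : algebraMap (R V) (F V) c₂ * (Lap H v u * (algebraMap (R V) (F V) (X u) *
        algebraMap (R V) (F V) (PP H))) = Lap H v u * algebraMap (R V) (F V) (X u) *
        (algebraMap (R V) (F V) c₂ * algebraMap (R V) (F V) (PP H)) := by ring
    rw [this, ← h5]
    ring
  rw [h6] at h1
  have h7 : (∑ u, Lap G v u * algebraMap (R V) (F V)
      (X u * PJ G J + if u ∈ J then PJ G (J.erase u) else 0)) =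
      (∑ u, Lap G v u * algebraMap (R V) (F V) (X u)) * algebraMap (R V) (F V) (PJ G J) +
      ∑ u, Lap G v u * algebraMap (R V) (F V) (if u ∈ J then PJ G (J.erase u) else 0) := by
    rw [Finset.sum_mul, ← Finset.sum_add_distrib]
    refine Finset.sum_congr rfl (fun u _ => ?_)
    rw [map_add, map_mul]
    ring
  rw [h7] at h1
  have h8 : (∑ u, Lap (G + H) v u * algebraMap (R V) (F V) (X u)) =
      (∑ u, Lap G v u * algebraMap (R V) (F V) (X u)) +
      (∑ u, Lap H v u * algebraMap (R V) (F V) (X u)) := by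
    rw [← Finset.sum_add_distrib]
    refine Finset.sum_congr rfl (fun u _ => ?_)
    rw [(hadd V G H).1, Matrix.add_apply]
    ring
  rw [h8, add_mul, h1]
  have := addself ((∑ u, Lap G v u * algebraMap (R V) (F V) (X u)) *
    algebraMap (R V) (F V) (PJ G J))
  rw [← add_assoc, this, zero_add]

/-- apply `d_w` -/
lemma drel (A B : Gr V) (hA : IsEv A) (hB : IsEv B) (Q : R V) (f : V → R V)
    (v : V) (h : (∑ u, Lap A v u * algebraMap (R V) (F V) (X u)) * algebraMap (R V) (F V) Q =
      ∑ u, Lap B v u * algebraMap (R V) (F V) (f u)) (w : V) :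
    Lap A v w * algebraMap (R V) (F V) Q +
      (∑ u, Lap A v u * algebraMap (R V) (F V) (X u)) * algebraMap (R V) (F V) (pderiv w Q) =
      ∑ u, Lap B v u * algebraMap (R V) (F V) (pderiv w (f u)) := by
  choose M hM hMd using fun u => Aux_ker.row A hA v u
  choose N hN hNd using fun u => Aux_ker.row B hB v u
  have hne : algebraMap (R V) (F V) (Aux_ker.DW v) ≠ 0 := by
    rw [Ne, FaithfulSMul.algebraMap_eq_zero_iff]
    exact Aux_ker.DW_ne v
  have h1 : (∑ u, M u * X u) * Q = ∑ u, N u * f u := by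
    apply FaithfulSMul.algebraMap_injective (R V) (F V)
    rw [map_mul, map_sum, map_sum]
    have h2 := congrArg (fun z => algebraMap (R V) (F V) (Aux_ker.DW v) * z) h
    rw [← mul_assoc, Finset.mul_sum, Finset.mul_sum] at h2
    have e1 : (∑ u, algebraMap (R V) (F V) (M u * X u)) =
        ∑ u, algebraMap (R V) (F V) (Aux_ker.DW v) * (Lap A v u * algebraMap (R V) (F V) (X u)) := by
      refine Finset.sum_congr rfl (fun u _ => ?_)
      rw [map_mul, ← hM u, mul_assoc]
    have e2 : (∑ u, algebraMap (R V) (F V) (N u * f u)) =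
        ∑ u, algebraMap (R V) (F V) (Aux_ker.DW v) * (Lap B v u * algebraMap (R V) (F V) (f u)) := by
      refine Finset.sum_congr rfl (fun u _ => ?_)
      rw [map_mul, ← hN u, mul_assoc]
    rw [e1, e2]
    exact h2
  have h3 := congrArg (pderiv w) h1
  have e3 : pderiv w ((∑ u, M u * X u) * Q) = M w * Q + (∑ u, M u * X u) * pderiv w Q := by
    rw [Derivation.leibniz, map_sum]
    have : (∑ u, pderiv w (M u * X u)) = M w := by
      rw [Finset.sum_eq_single w]
      · rw [Derivation.leibniz, hMd w w, pderiv_X_self]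
        simp
      · intro u _ huw
        rw [Derivation.leibniz, hMd u w, pderiv_X_of_ne huw]
        simp
      · intro hw
        exact absurd (Finset.mem_univ w) hw
    rw [this]
    simp only [smul_eq_mul]
    ring
  have e4 : pderiv w (∑ u, N u * f u) = ∑ u, N u * pderiv w (f u) := by
    rw [map_sum]
    refine Finset.sum_congr rfl (fun u _ => ?_)
    rw [Derivation.leibniz, hNd u w]
    simp
  rw [e3, e4] at h3
  have h4 := congrArg (algebraMap (R V) (F V)) h3
  rw [map_add, map_mul, map_mul, map_sum, map_sum] at h4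
  apply mul_left_cancel₀ hne
  rw [mul_add, ← mul_assoc, hM w, ← mul_assoc, Finset.mul_sum, Finset.mul_sum]
  have e1 : (∑ u, algebraMap (R V) (F V) (M u * X u)) =
      ∑ u, algebraMap (R V) (F V) (Aux_ker.DW v) * (Lap A v u * algebraMap (R V) (F V) (X u)) := by
    refine Finset.sum_congr rfl (fun u _ => ?_)
    rw [map_mul, ← hM u, mul_assoc]
  have e2 : (∑ u, algebraMap (R V) (F V) (N u * pderiv w (f u))) =
      ∑ u, algebraMap (R V) (F V) (Aux_ker.DW v) *
        (Lap B v u * algebraMap (R V) (F V) (pderiv w (f u))) := by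
    refine Finset.sum_congr rfl (fun u _ => ?_)
    rw [map_mul, ← hN u, mul_assoc]
  rw [e1, e2] at h4
  exact h4

lemma sum_mem (A : Gr V) (J : Finset V) (f : V → F V) (hf : ∀ u, u ∉ J → f u = 0) :
    (fun v => ∑ u, Lap A v u * f u) ∈
      Submodule.span (F V) ((fun j : V => (Lap A).col j) '' (J : Set V)) := by
  have h1 : (fun v => ∑ u, Lap A v u * f u) = ∑ u ∈ J, f u • (Lap A).col u := by
    funext v
    rw [Finset.sum_apply]
    have h2 : (∑ u, Lap A v u * f u) = ∑ u ∈ J, Lap A v u * f u := by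
      symm
      apply Finset.sum_subset (Finset.subset_univ J)
      intro u _ hu
      rw [hf u hu, mul_zero]
    rw [h2]
    refine Finset.sum_congr rfl (fun u _ => ?_)
    rw [Pi.smul_apply, smul_eq_mul, mul_comm]
    rfl
  rw [h1]
  refine Submodule.sum_mem _ (fun u hu => ?_)
  refine Submodule.smul_mem _ _ (Submodule.subset_span ⟨u, by exact_mod_cast hu, rfl⟩)

end Aux_ta0

open Aux_ta0 in
theorem p_ta0 : S_dd → S_dlog → S_ind → S_basis → S_add → S_ta0 := by
  intro hdd hdlog _ hbasis hadd V _ _ G H J hG hH hdisj hQ hex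
  obtain ⟨c₁, c₂, hc₁, hc₂, hd₁, hd₂, heq⟩ := hex
  obtain ⟨d1, d2, d3, d4, d5, d6, d7⟩ := hdd V
  obtain ⟨ha1, ha2, ha3, ha4, ha5⟩ := hadd V G H
  have hGH : IsEv (G + H) := ha2 hG hH
  have hPH : PP H ≠ 0 := by
    intro h0
    rw [h0, mul_zero] at heq
    exact (mul_ne_zero hc₁ hQ) heq
  -- `nu (G + H) ≤ |J|`
  have hrel := rel hdd hdlog hadd G H J hG hH c₁ c₂ hc₁ hd₁ hd₂ heq
  have hQF : algebraMap (R V) (F V) (PJ G J) ≠ 0 := by
    rw [Ne, FaithfulSMul.algebraMap_eq_zero_iff]
    exact hQ
  set Sp := Submodule.span (F V) ((fun j : V => (Lap G).col j) '' (J : Set V)) with hSp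
  have hMt : (fun v => ∑ u, Lap (G + H) v u * algebraMap (R V) (F V) (X u)) ∈ Sp := by
    have h1 := sum_mem G J (fun u => algebraMap (R V) (F V) (if u ∈ J then PJ G (J.erase u) else 0))
      (fun u hu => by simp [hu])
    have h2 := Submodule.smul_mem Sp (algebraMap (R V) (F V) (PJ G J))⁻¹ h1
    convert h2 using 1
    funext v
    rw [Pi.smul_apply, smul_eq_mul]
    rw [← hrel v, mul_comm, mul_assoc, mul_inv_cancel₀ hQF, mul_one]
  have hcol : ∀ w : V, (Lap (G + H)).col w ∈ Sp := by
    intro w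
    by_cases hw : w ∈ J
    · have h1 : (Lap (G + H)).col w = (Lap G).col w := by
        funext v
        show Lap (G + H) v w = Lap G v w
        rw [ha1, Matrix.add_apply]
        have hw' : w ∉ supp H := fun h => (Finset.disjoint_left.mp hdisj h) hw
        have hz : ∀ x, H w x = 0 := by
          intro x
          by_contra hx
          apply hw'
          unfold supp nbr
          rw [Finset.mem_filter]
          exact ⟨Finset.mem_univ _, ⟨x, by rw [Finset.mem_filter]; exact ⟨Finset.mem_univ _, hx⟩⟩⟩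
        have hL : Lap H v w = 0 := by
          unfold Lap
          split_ifs with h1 h2
          · rw [h1]
            refine Finset.sum_eq_zero (fun x _ => ?_)
            rw [if_pos (hz x)]
          · rfl
          · exact absurd ((hH.symm v w).trans (hz v)) h2
        rw [hL, add_zero]
      rw [h1]
      exact Submodule.subset_span ⟨w, by exact_mod_cast hw, rfl⟩
    · have hdr := fun v => drel (G + H) G hGH hG (PJ G J)
        (fun u => if u ∈ J then PJ G (J.erase u) else 0) v (hrel v) w
      have h1 := sum_mem G J (fun u => algebraMap (R V) (F V)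
        (pderiv w (if u ∈ J then PJ G (J.erase u) else 0)))
        (fun u hu => by simp [hu])
      have h2 := Submodule.smul_mem Sp (algebraMap (R V) (F V) (pderiv w (PJ G J))) hMt
      have h3 := Submodule.smul_mem Sp (algebraMap (R V) (F V) (PJ G J))⁻¹
        (Submodule.sub_mem _ h1 h2)
      convert h3 using 1
      funext v
      rw [Pi.smul_apply, Pi.sub_apply, Pi.smul_apply, smul_eq_mul, smul_eq_mul]
      rw [← hdr v]
      show Lap (G + H) v w = _
      rw [mul_comm (algebraMap (R V) (F V) (pderiv w (PJ G J))), add_sub_cancel_right, mul_comm,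
        mul_assoc, mul_inv_cancel₀ hQF, mul_one]
  obtain ⟨b1, b2, b3, b4, b5, b6, b7, b8⟩ := hbasis V (G + H) hGH
  obtain ⟨g1, g2, g3, g4, g5, g6, g7, g8⟩ := hbasis V G hG
  obtain ⟨h1, h2, h3, h4, h5, h6, h7, h8⟩ := hbasis V H hH
  have hle1 : nu (G + H) ≤ J.card := by
    refine le_trans ?_ (g3 J)
    rw [← b1]
    unfold nuC
    apply Submodule.finrank_mono
    rw [Submodule.span_le]
    rintro x ⟨w, -, rfl⟩
    exact hcol w
  -- `nu G ≥ |J| + nu H`
  have hPH0 : PJ H ∅ ≠ 0 := by
    show dd ∅ (PP H) ≠ 0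
    rw [d1]
    exact hPH
  obtain ⟨J', -, -, hJ'c, hJ'n⟩ := h4 univ ∅ (Finset.empty_subset _) hPH0
  rw [h1] at hJ'c
  have hJ's : J' ⊆ supp H := h8 J' hJ'n
  have hdJ : Disjoint J J' := by
    rw [Finset.disjoint_left]
    intro x hx hx'
    exact (Finset.disjoint_left.mp hdisj (hJ's hx')) hx
  have hcomp : ∀ K : Finset V, Disjoint J K → ∀ p : R V, dd K (dd J p) = dd (J ∪ K) p := by
    intro K
    induction K using Finset.induction_on with
    | empty => intro _ p; rw [d1, Finset.union_empty]
    | insert a K ha ih =>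
      intro hK p
      rw [Finset.disjoint_insert_right] at hK
      rw [d2 K a _ ha, ih hK.2, Finset.union_insert, d2 (J ∪ K) a p]
      rw [Finset.mem_union]
      rintro (h | h)
      · exact hK.1 h
      · exact ha h
  have hne : PJ G (J ∪ J') ≠ 0 := by
    show dd (J ∪ J') (PP G) ≠ 0
    rw [← hcomp J' hdJ]
    intro h0
    have e1 := congrArg (dd J') heq
    rw [d5 J' c₁ _ (fun j _ => hd₁ j), d5 J' c₂ _ (fun j _ => hd₂ j)] at e1
    have e2 : dd J' (PJ G J) = 0 := h0
    rw [e2, mul_zero] at e1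
    exact (mul_ne_zero hc₂ hJ'n) e1.symm
  have hle2 : J.card + nu H ≤ nu G := by
    have := g5 univ (J ∪ J') (Finset.subset_univ _) hne
    rw [Finset.card_union_of_disjoint hdJ, hJ'c, g1] at this
    exact this
  have hle3 : nu G ≤ nu H + nu (G + H) := by
    obtain ⟨k1, k2, k3, k4, k5⟩ := hadd V H (G + H)
    have : H + (G + H) = G := by
      have h9 : H + H = 0 := (hadd V H G).2.2.1
      rw [add_comm G H, ← add_assoc, h9, zero_add]
    rw [this] at k5
    exact k5
  refine ⟨⟨hH, ?_⟩, ?_⟩
  · omega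
  · omega

end Pool.Agent.W390.SD
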