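import Pool.Agent.W390.SD.Stm1

/-!
# Project SD, part C2: consequences of tightness
-/

set_option autoImplicit false

namespace Pool.Agent.W390.SD

open MvPolynomial Finset

namespace Aux_tcons

theorem xF_add_ne {V : Type} {u v : V} (h : u ≠ v) : (xF u + xF v : F V) ≠ 0 := by
  intro h0
  unfold xF at h0
  rw [← map_add] at h0
  have h1 : (xx u + xx v : R V) = 0 := by
    apply IsFractionRing.injective (R V) (F V)
    rw [h0, map_zero]
  classical
  have h2 := congrArg (MvPolynomial.eval (fun w : V => if w = u then (1 : ZMod 2) else 0)) h1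
  simp [xx, h.symm] at h2

variable {V : Type} [Fintype V] [DecidableEq V]

omit [DecidableEq V] in
/-- transposition of a symmetric matrix -/
theorem symm_dot {K : Type} [Field K] {M : Matrix V V K} (hM : M.IsSymm) (f g : V → K) :
    M.mulVec f ⬝ᵥ g = f ⬝ᵥ M.mulVec g := by
  rw [Matrix.dotProduct_mulVec, ← Matrix.mulVec_transpose, hM.eq]

theorem ker_le {K : Type} [Field K] {M H : Matrix V V K} (hM : M.IsSymm) (hH : H.IsSymm)
    (h : ∀ h, ∃ g, M.mulVec g = H.mulVec h) (f : V → K) (hf : M.mulVec f = 0) :
    H.mulVec f = 0 := by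
  have h1 : ∀ k : V → K, H.mulVec f ⬝ᵥ k = 0 := by
    intro k
    obtain ⟨g, hg⟩ := h k
    rw [symm_dot hH, ← hg, ← symm_dot hM, hf, zero_dotProduct]
  exact (dotProduct_eq_zero_iff).1 h1

theorem col_eq {K : Type} [Field K] (M : Matrix V V K) (j : V) :
    M.col j = M.mulVecLin (Pi.single j 1) := by
  simp [Matrix.col]

theorem finrank_map_le {K : Type} [Field K] {W : Type} [AddCommGroup W] [Module K W]
    [FiniteDimensional K W] (f g : W →ₗ[K] W) (h : LinearMap.ker f ≤ LinearMap.ker g)
    (S : Submodule K W) :
    Module.finrank K (S.map g) ≤ Module.finrank K (S.map f) := by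
  have h1 := LinearMap.finrank_range_add_finrank_ker (f.domRestrict S)
  have h2 := LinearMap.finrank_range_add_finrank_ker (g.domRestrict S)
  have h3 : Module.finrank K (LinearMap.ker (f.domRestrict S)) ≤
      Module.finrank K (LinearMap.ker (g.domRestrict S)) := by
    apply Submodule.finrank_mono
    intro x hx
    rw [LinearMap.mem_ker] at hx ⊢
    exact h hx
  have h4 : LinearMap.range (f.domRestrict S) = S.map f := LinearMap.range_domRestrict S f
  have h5 : LinearMap.range (g.domRestrict S) = S.map g := LinearMap.range_domRestrict S g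
  rw [h4] at h1
  rw [h5] at h2
  omega

end Aux_tcons

open Aux_tcons

theorem p_tcons : S_add → S_tiff → S_tcons := by
  intro hadd htiff V _ _ G H hG hT
  have hH : IsEv H := hT.1
  have hnu : nu G = nu H + nu (G + H) := hT.2
  obtain ⟨hr, -⟩ := (htiff V G H hG hH).1 hT
  have hGs : (Lap G).IsSymm := (hadd V G H).2.2.2.1 hG
  have hHs : (Lap H).IsSymm := (hadd V H G).2.2.2.1 hH
  have hker : ∀ f, (Lap G).mulVec f = 0 → (Lap H).mulVec f = 0 := fun f hf => ker_le hGs hHs hr f hf
  have hkerle : LinearMap.ker (Lap G).mulVecLin ≤ LinearMap.ker (Lap H).mulVecLin := by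
    intro f hf
    rw [LinearMap.mem_ker, Matrix.mulVecLin_apply] at hf ⊢
    exact hker f hf
  have hGG : G + G = 0 := (hadd V G G).2.2.1
  have hHH : H + H = 0 := (hadd V H H).2.2.1
  refine ⟨hker, ?_, ?_, ?_, ?_, ?_⟩
  · -- supports
    intro v hv
    by_contra hv'
    have hz : ∀ u, G v u = 0 := by
      intro u
      by_contra hu
      apply hv'
      simp only [supp, nbr, mem_filter, mem_univ, true_and]
      exact ⟨u, by simpa using hu⟩
    have hz' : ∀ u, G u v = 0 := fun u => by rw [hG.symm u v]; exact hz u
    have hcol : (Lap G).mulVec (Pi.single v 1) = 0 := by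
      funext u
      rw [Matrix.mulVec_single_one]
      by_cases huv : u = v
      · subst huv
        simp [Lap, Matrix.col, hz]
      · simp [Lap, Matrix.col, huv, hz' u]
    have hc2 := hker _ hcol
    have hzH : ∀ u, H v u = 0 := by
      intro u
      by_cases huv : u = v
      · rw [huv]; exact hH.diag v
      · by_contra hne
        have h1 := congrFun hc2 u
        rw [Matrix.mulVec_single_one] at h1
        have hne' : H u v ≠ 0 := by rw [hH.symm u v]; exact hne
        simp only [Lap, Matrix.col, Matrix.transpose_apply, huv, if_false, hne', Pi.zero_apply] at h1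
        exact inv_ne_zero (xF_add_ne huv) h1
    simp only [supp, nbr, mem_filter, mem_univ, true_and] at hv
    obtain ⟨u, hu⟩ := hv
    simp only [mem_filter, mem_univ, true_and] at hu
    exact hu (hzH u)
  · -- rk
    intro B
    unfold rk
    apply Submodule.finrank_mono
    exact Submodule.map_mono hkerle
  · -- nuC
    intro C
    have key : ∀ A : Gr V, Submodule.span (F V) ((fun j : V => (Lap A).col j) '' (C : Set V)) =
        (Submodule.span (F V) ((fun j : V => (Pi.single j 1 : V → F V)) '' (C : Set V))).map
          (Lap A).mulVecLin := by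
      intro A
      rw [Submodule.map_span, ← Set.image_comp]
      congr 1
      apply Set.image_congr
      intro j _
      exact col_eq (Lap A) j
    unfold nuC
    rw [key, key]
    exact finrank_map_le _ _ hkerle _
  · -- complement
    refine ⟨(hadd V G H).2.1 hG hH, ?_⟩
    rw [← add_assoc, hGG, zero_add, hnu]
    ring
  · -- transitivity
    intro T hTT
    have hTe : IsEv T := hTT.1
    refine ⟨hTe, ?_⟩
    have hTTz : T + T = 0 := (hadd V T T).2.2.1
    have e1 : G + T = (G + H) + (H + T) := by
      rw [add_assoc G H (H + T), ← add_assoc H H T, hHH, zero_add]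
    have e2 : G = T + (G + T) := by
      rw [add_comm G T, ← add_assoc, hTTz, zero_add]
    have h1 : nu (G + T) ≤ nu (G + H) + nu (H + T) := by
      rw [e1]; exact (hadd V (G + H) (H + T)).2.2.2.2
    have h2 : nu G ≤ nu T + nu (G + T) := by
      have := (hadd V T (G + T)).2.2.2.2
      rwa [← e2] at this
    have h3 : nu H = nu T + nu (H + T) := hTT.2
    omega

end Pool.Agent.W390.SD
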