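import Pool.Agent.W390.SD.Stm1

namespace Pool.Agent.W390.SD

namespace Aux_tiff

open Matrix

theorem rank_iff {K : Type} [Field K] {V : Type} [Fintype V] [DecidableEq V]
    (N N' : Matrix V V K) :
    (N + N').rank = N.rank + N'.rank ↔
      (∀ h, ∃ g, (N + N').mulVec g = N.mulVec h) ∧
      (∀ g h, (N + N').mulVec g = N.mulVec h → N.mulVec g = N.mulVec h) := by
  have hMle : LinearMap.range (N + N').mulVecLin ≤
      LinearMap.range N.mulVecLin ⊔ LinearMap.range N'.mulVecLin := by
    rintro _ ⟨g, rfl⟩
    rw [mulVecLin_apply, add_mulVec]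
    exact Submodule.add_mem_sup ⟨g, rfl⟩ ⟨g, rfl⟩
  have hsum := Submodule.finrank_sup_add_finrank_inf_eq
    (LinearMap.range N.mulVecLin) (LinearMap.range N'.mulVecLin)
  constructor
  · intro hr
    have hr' : Module.finrank K (LinearMap.range (N + N').mulVecLin) =
        Module.finrank K (LinearMap.range N.mulVecLin) +
          Module.finrank K (LinearMap.range N'.mulVecLin) := hr
    have hle := Submodule.finrank_mono hMle
    have hinf0 : Module.finrank K
        ↥(LinearMap.range N.mulVecLin ⊓ LinearMap.range N'.mulVecLin) = 0 := by omega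
    have hinf : LinearMap.range N.mulVecLin ⊓ LinearMap.range N'.mulVecLin = ⊥ :=
      Submodule.finrank_eq_zero.mp hinf0
    have heq : LinearMap.range (N + N').mulVecLin =
        LinearMap.range N.mulVecLin ⊔ LinearMap.range N'.mulVecLin :=
      Submodule.eq_of_le_of_finrank_le hMle (by omega)
    refine ⟨?_, ?_⟩
    · intro h
      have hmem : N.mulVec h ∈ LinearMap.range (N + N').mulVecLin := by
        rw [heq]
        exact Submodule.mem_sup_left ⟨h, rfl⟩
      obtain ⟨g, hg⟩ := hmem
      exact ⟨g, hg⟩
    · intro g h hgh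
      have h1 : N'.mulVec g = N.mulVec (h - g) := by
        rw [mulVec_sub, ← hgh, add_mulVec]
        abel
      have h2 : N.mulVec (h - g) ∈
          LinearMap.range N.mulVecLin ⊓ LinearMap.range N'.mulVecLin := by
        refine ⟨⟨h - g, rfl⟩, ⟨g, ?_⟩⟩
        rw [mulVecLin_apply]
        exact h1
      rw [hinf, Submodule.mem_bot, mulVec_sub, sub_eq_zero] at h2
      exact h2.symm
  · rintro ⟨hA, hB⟩
    have hinf : LinearMap.range N.mulVecLin ⊓ LinearMap.range N'.mulVecLin = ⊥ := by
      rw [eq_bot_iff]
      rintro y ⟨⟨a, ha⟩, ⟨b, hb⟩⟩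
      rw [mulVecLin_apply] at ha hb
      have h1 : (N + N').mulVec b = N.mulVec (a + b) := by
        rw [add_mulVec, mulVec_add, ha, hb]
        abel
      have h2 := hB b (a + b) h1
      rw [mulVec_add] at h2
      have h3 : N.mulVec a = 0 := by
        have h4 : N.mulVec a + N.mulVec b = 0 + N.mulVec b := by
          rw [zero_add]
          exact h2.symm
        exact add_right_cancel h4
      rw [Submodule.mem_bot, ← ha, h3]
    have hNle : LinearMap.range N.mulVecLin ≤ LinearMap.range (N + N').mulVecLin := by
      rintro _ ⟨h, rfl⟩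
      obtain ⟨g, hg⟩ := hA h
      exact ⟨g, hg⟩
    have hN'le : LinearMap.range N'.mulVecLin ≤ LinearMap.range (N + N').mulVecLin := by
      rintro _ ⟨h, rfl⟩
      have h1 : N'.mulVecLin h = (N + N').mulVecLin h - N.mulVecLin h := by
        rw [mulVecLin_apply, mulVecLin_apply, mulVecLin_apply, add_mulVec]
        abel
      rw [h1]
      exact Submodule.sub_mem _ ⟨h, rfl⟩ (hNle ⟨h, rfl⟩)
    have heq : LinearMap.range (N + N').mulVecLin =
        LinearMap.range N.mulVecLin ⊔ LinearMap.range N'.mulVecLin :=
      le_antisymm hMle (sup_le hNle hN'le)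
    have hinf0 : Module.finrank K
        ↥(LinearMap.range N.mulVecLin ⊓ LinearMap.range N'.mulVecLin) = 0 := by
      rw [hinf]
      exact finrank_bot K _
    have hgoal : Module.finrank K (LinearMap.range (N + N').mulVecLin) =
        Module.finrank K (LinearMap.range N.mulVecLin) +
          Module.finrank K (LinearMap.range N'.mulVecLin) := by
      rw [heq]
      omega
    exact hgoal

end Aux_tiff

theorem p_tiff : S_add → S_tiff := by
  intro hadd V _ _ G H _ hH
  have h1 : H + (G + H) = G := by
    have h2 := (hadd V H H).2.2.1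
    calc H + (G + H) = G + (H + H) := by abel
      _ = G := by rw [h2, add_zero]
  have h3 : Lap H + Lap (G + H) = Lap G := by
    have h4 := (hadd V H (G + H)).1
    rw [h1] at h4
    exact h4.symm
  have h5 := Aux_tiff.rank_iff (Lap H) (Lap (G + H))
  rw [h3] at h5
  constructor
  · intro ht
    exact h5.mp ht.2
  · intro h
    exact ⟨hH, h5.mpr h⟩

end Pool.Agent.W390.SD
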