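import Pool.Agent.W390.SD.Stm1

namespace Pool.Agent.W390.SD

open MvPolynomial Finset

namespace Aux_tri

lemma two_F {V : Type} : (2 : F V) = 0 := by
  have h : (2 : R V) = 0 := by
    have h1 : (2 : R V) = C (2 : ZMod 2) := (map_ofNat C 2).symm
    rw [h1, show (2 : ZMod 2) = 0 from by decide, C_0]
  have h2 : (2 : F V) = algebraMap (R V) (F V) 2 := (map_ofNat (algebraMap (R V) (F V)) 2).symm
  rw [h2, h, map_zero]

lemma xF_ne {V : Type} [DecidableEq V] {p q : V} (h : p ≠ q) : xF p + xF q ≠ (0 : F V) := by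
  intro h0
  have h1 : algebraMap (R V) (F V) (xx p + xx q) = 0 := by
    rw [map_add]; exact h0
  have h2 : (xx p + xx q : R V) = 0 := by
    rw [← map_zero (algebraMap (R V) (F V))] at h1
    exact IsFractionRing.injective (R V) (F V) h1
  have h3 := congrArg (MvPolynomial.eval (fun v => if v = p then (1 : ZMod 2) else 0)) h2
  simp [xx, h.symm] at h3

lemma range_of_orth {n k : Type} [Fintype n] [DecidableEq n] [Field k] (L : Matrix n n k)
    (hL : L.IsSymm) (d : n → k) (h : ∀ f, L.mulVec f = 0 → ∑ i, d i * f i = 0) :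
    ∃ g, L.mulVec g = d := by
  have h1 : (∑ i, d i • LinearMap.proj i : Module.Dual k (n → k)) ∈
      (LinearMap.ker L.mulVecLin).dualAnnihilator := by
    rw [Submodule.mem_dualAnnihilator]
    intro f hf
    have hf' : L.mulVec f = 0 := by simpa using hf
    have := h f hf'
    simpa using this
  rw [← LinearMap.range_dualMap_eq_dualAnnihilator_ker] at h1
  obtain ⟨ψ, hψ⟩ := h1
  refine ⟨fun i => ψ (fun j => if i = j then 1 else 0), ?_⟩
  funext j
  have h2 := congrArg (fun φ : Module.Dual k (n → k) => φ (fun i => if j = i then 1 else 0)) hψ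
  simp only [LinearMap.dualMap_apply, LinearMap.sum_apply, LinearMap.smul_apply,
    LinearMap.proj_apply, smul_eq_mul, mul_ite, mul_one, mul_zero, Finset.sum_ite_eq,
    Finset.mem_univ, if_true] at h2
  rw [← h2, LinearMap.pi_apply_eq_sum_univ ψ]
  simp only [Matrix.mulVec, dotProduct, Matrix.mulVecLin_apply, smul_eq_mul, mul_ite, mul_one,
    mul_zero, Finset.sum_ite_eq, Finset.mem_univ, if_true]
  refine Finset.sum_congr rfl fun i _ => ?_
  rw [hL.apply]

lemma K_pos {V : Type} [DecidableEq V] {S : Finset V} {u v : V} (hu : u ∈ S) (hv : v ∈ S)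
    (h : u ≠ v) : K S u v = 1 := by
  unfold K; rw [if_pos ⟨hu, hv, h⟩]

lemma K_diag {V : Type} [DecidableEq V] {S : Finset V} {u : V} : K S u u = 0 := by
  unfold K; rw [if_neg]; tauto

lemma K_left {V : Type} [DecidableEq V] {S : Finset V} {u v : V} (hu : u ∉ S) : K S u v = 0 := by
  unfold K; rw [if_neg]; tauto

lemma K_right {V : Type} [DecidableEq V] {S : Finset V} {u v : V} (hu : v ∉ S) :
    K S u v = 0 := by
  unfold K; rw [if_neg]; tauto

lemma sum3 {V M : Type} [Fintype V] [DecidableEq V] [AddCommMonoid M] {p q s : V} (hpq : p ≠ q)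
    (hps : p ≠ s) (hqs : q ≠ s) (f : V → M) (hf : ∀ v, v ∉ ({p, q, s} : Finset V) → f v = 0) :
    ∑ v, f v = f p + f q + f s := by
  rw [← Finset.sum_subset (Finset.subset_univ ({p, q, s} : Finset V)) (fun v _ h => hf v h)]
  rw [Finset.sum_insert (by simp [hpq, hps]), Finset.sum_insert (by simp [hqs]),
    Finset.sum_singleton, add_assoc]

lemma ev_K {V : Type} [Fintype V] [DecidableEq V] {p q s : V} (hpq : p ≠ q)
    (hps : p ≠ s) (hqs : q ≠ s) : IsEv (K ({p, q, s} : Finset V)) where
  symm u v := by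
    unfold K
    by_cases h : u ∈ ({p, q, s} : Finset V) ∧ v ∈ ({p, q, s} : Finset V) ∧ u ≠ v
    · rw [if_pos h, if_pos ⟨h.2.1, h.1, h.2.2.symm⟩]
    · rw [if_neg h, if_neg (fun h' => h ⟨h'.2.1, h'.1, h'.2.2.symm⟩)]
  diag v := K_diag
  even v := by
    rw [sum3 hpq hps hqs _ (fun u hu => K_right hu)]
    have mp : p ∈ ({p, q, s} : Finset V) := by simp
    have mq : q ∈ ({p, q, s} : Finset V) := by simp
    have ms : s ∈ ({p, q, s} : Finset V) := by simp
    by_cases hv : v ∈ ({p, q, s} : Finset V)
    · have hv' := hv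
      simp only [Finset.mem_insert, Finset.mem_singleton] at hv'
      rcases hv' with rfl | rfl | rfl
      · rw [K_diag, K_pos mp mq hpq, K_pos mp ms hps]; decide
      · rw [K_diag, K_pos mq mp hpq.symm, K_pos mq ms hqs]; decide
      · rw [K_diag, K_pos ms mp hps.symm, K_pos ms mq hqs.symm]; decide
    · rw [K_left hv, K_left hv, K_left hv]; decide

/-- The vector `d`. -/
noncomputable def dv {V : Type} [DecidableEq V] (p q s : V) (v : V) : F V :=
  if v = p then xF q + xF s else if v = q then xF p + xF s else if v = s then xF p + xF q else 0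

lemma dv_p {V : Type} [DecidableEq V] {p q s : V} : dv p q s p = xF q + xF s := by
  unfold dv; rw [if_pos rfl]

lemma dv_q {V : Type} [DecidableEq V] {p q s : V} (hpq : p ≠ q) :
    dv p q s q = xF p + xF s := by
  unfold dv; rw [if_neg hpq.symm, if_pos rfl]

lemma dv_s {V : Type} [DecidableEq V] {p q s : V} (hps : p ≠ s) (hqs : q ≠ s) :
    dv p q s s = xF p + xF q := by
  unfold dv; rw [if_neg hps.symm, if_neg hqs.symm, if_pos rfl]

lemma dv_out {V : Type} [DecidableEq V] {p q s v : V} (h : v ∉ ({p, q, s} : Finset V)) :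
    dv p q s v = 0 := by
  simp only [Finset.mem_insert, Finset.mem_singleton, not_or] at h
  unfold dv; rw [if_neg h.1, if_neg h.2.1, if_neg h.2.2]

lemma alg1 {k : Type} [Field k] (h2 : (2 : k) = 0) (a b c : k) (hab : a + b ≠ 0)
    (hac : a + c ≠ 0) (_hbc : b + c ≠ 0) :
    (a + b)⁻¹ + (a + c)⁻¹ = ((a + b) * (b + c) * (a + c))⁻¹ * (b + c) * (b + c) := by
  field_simp
  linear_combination a * h2

lemma alg2 {k : Type} [Field k] (a b c : k) (hab : a + b ≠ 0)
    (hac : a + c ≠ 0) (hbc : b + c ≠ 0) :
    (a + b)⁻¹ = ((a + b) * (b + c) * (a + c))⁻¹ * (b + c) * (a + c) := by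
  field_simp

lemma lap_K {V : Type} [Fintype V] [DecidableEq V] {p q s : V} (hpq : p ≠ q)
    (hps : p ≠ s) (hqs : q ≠ s) (u v : V) : Lap (K ({p, q, s} : Finset V)) u v =
      ((xF p + xF q) * (xF q + xF s) * (xF p + xF s))⁻¹ * dv p q s u * dv p q s v := by
  have mp : p ∈ ({p, q, s} : Finset V) := by simp
  have mq : q ∈ ({p, q, s} : Finset V) := by simp
  have ms : s ∈ ({p, q, s} : Finset V) := by simp
  have h2 : (2 : F V) = 0 := two_F
  have n1 := xF_ne hpq
  have n2 := xF_ne hps
  have n3 := xF_ne hqs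
  have n1' := xF_ne hpq.symm
  have n2' := xF_ne hps.symm
  have n3' := xF_ne hqs.symm
  have o : (1 : ZMod 2) ≠ 0 := by decide
  unfold Lap
  by_cases hu : u ∈ ({p, q, s} : Finset V)
  · by_cases hv : v ∈ ({p, q, s} : Finset V)
    · by_cases huv : u = v
      · subst huv
        rw [if_pos rfl, sum3 hpq hps hqs _ (fun w hw => by rw [K_right hw, if_pos rfl])]
        have hu' := hu
        simp only [Finset.mem_insert, Finset.mem_singleton] at hu'
        rcases hu' with h | h | h
        · rw [h, K_diag, K_pos mp mq hpq, K_pos mp ms hps, dv_p, if_pos rfl, if_neg o, if_neg o]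
          linear_combination alg1 h2 (xF p) (xF q) (xF s) n1 n2 n3
        · rw [h, K_diag, K_pos mq mp hpq.symm, K_pos mq ms hqs, dv_q hpq, if_pos rfl, if_neg o,
            if_neg o]
          linear_combination alg1 h2 (xF q) (xF p) (xF s) n1' n3 n2
        · rw [h, K_diag, K_pos ms mp hps.symm, K_pos ms mq hqs.symm, dv_s hps hqs, if_pos rfl,
            if_neg o, if_neg o]
          linear_combination alg1 h2 (xF s) (xF p) (xF q) n2' n3' n1
      · rw [if_neg huv, K_pos hu hv huv, if_neg o]
        have hu' := hu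
        have hv' := hv
        simp only [Finset.mem_insert, Finset.mem_singleton] at hu' hv'
        rcases hu' with h | h | h <;> rcases hv' with h' | h' | h'
        · exact absurd (h.trans h'.symm) huv
        · rw [h, h', dv_p, dv_q hpq]
          linear_combination alg2 (xF p) (xF q) (xF s) n1 n2 n3
        · rw [h, h', dv_p, dv_s hps hqs]
          linear_combination alg2 (xF p) (xF s) (xF q) n2 n1 n3'
        · rw [h, h', dv_p, dv_q hpq]
          linear_combination alg2 (xF p) (xF q) (xF s) n1 n2 n3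
        · exact absurd (h.trans h'.symm) huv
        · rw [h, h', dv_q hpq, dv_s hps hqs]
          linear_combination alg2 (xF q) (xF s) (xF p) n3 n1' n2'
        · rw [h, h', dv_p, dv_s hps hqs]
          linear_combination alg2 (xF p) (xF s) (xF q) n2 n1 n3'
        · rw [h, h', dv_q hpq, dv_s hps hqs]
          linear_combination alg2 (xF q) (xF s) (xF p) n3 n1' n2'
        · exact absurd (h.trans h'.symm) huv
    · rw [dv_out hv, mul_zero, K_right hv, if_pos rfl, if_neg]
      rintro rfl
      exact hv hu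
  · rw [dv_out hu, mul_zero, zero_mul]
    by_cases huv : u = v
    · rw [if_pos huv]
      refine Finset.sum_eq_zero fun w _ => ?_
      rw [K_left hu, if_pos rfl]
    · rw [if_neg huv, K_left hu, if_pos rfl]

lemma lap_mul {V : Type} [Fintype V] [DecidableEq V] {p q s : V} (hpq : p ≠ q)
    (hps : p ≠ s) (hqs : q ≠ s) (h : V → F V) (u : V) :
    (Lap (K ({p, q, s} : Finset V))).mulVec h u =
      ((xF p + xF q) * (xF q + xF s) * (xF p + xF s))⁻¹ * (∑ v, dv p q s v * h v)
        * dv p q s u := by
  unfold Matrix.mulVec dotProduct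
  rw [Finset.mul_sum, Finset.sum_mul]
  refine Finset.sum_congr rfl fun v _ => ?_
  change Lap (K ({p, q, s} : Finset V)) u v * h v = _
  rw [lap_K hpq hps hqs]
  ring

lemma orth {V : Type} [Fintype V] [DecidableEq V] {p q s : V} (hpq : p ≠ q)
    (hps : p ≠ s) (hqs : q ≠ s) (G : Gr V) (h1 : (Lap G).mulVec (fun _ => 1) = 0)
    (hx : (Lap G).mulVec xF = 0) (hr : rk G {p, q, s} ≤ 2) (f : V → F V)
    (hf : (Lap G).mulVec f = 0) : ∑ v, dv p q s v * f v = 0 := by
  have h2 : (2 : F V) = 0 := two_F
  set T := LinearMap.funLeft (F V) (F V) (fun b : ({p, q, s} : Finset V) => (b : V)) with hT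
  set M := Submodule.map T (LinearMap.ker (Lap G).mulVecLin) with hM
  have mem : ∀ g : V → F V, (Lap G).mulVec g = 0 → T g ∈ M := by
    intro g hg
    exact Submodule.mem_map_of_mem (by simpa using hg)
  let pp : ({p, q, s} : Finset V) := ⟨p, by simp⟩
  let qq : ({p, q, s} : Finset V) := ⟨q, by simp⟩
  have hli : LinearIndependent (F V) ![T (fun _ => 1), T xF] := by
    rw [LinearIndependent.pair_iff]
    intro a b hab
    have e1 := congrFun hab pp
    have e2 := congrFun hab qq
    have e1' : a * 1 + b * xF p = 0 := e1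
    have e2' : a * 1 + b * xF q = 0 := e2
    have e3 : b * (xF p + xF q) = 0 := by
      linear_combination e1' - e2' + b * xF q * h2
    have hb : b = 0 := (mul_eq_zero.1 e3).resolve_right (xF_ne hpq)
    rw [hb, zero_mul, add_zero, mul_one] at e1'
    exact ⟨e1', hb⟩
  have hfin : Module.finrank (F V) (Submodule.span (F V) (Set.range ![T (fun _ => 1), T xF])) = 2 := by
    rw [finrank_span_eq_card hli]; simp
  have hle : Submodule.span (F V) (Set.range ![T (fun _ => 1), T xF]) ≤ M := by
    rw [Submodule.span_le]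
    rintro y ⟨i, rfl⟩
    fin_cases i
    · exact mem _ h1
    · exact mem _ hx
  have heq : Submodule.span (F V) (Set.range ![T (fun _ => 1), T xF]) = M := by
    refine Submodule.eq_of_le_of_finrank_le hle ?_
    rw [hfin]
    exact hr
  have hfm : T f ∈ Submodule.span (F V) (Set.range ![T (fun _ => 1), T xF]) := by
    rw [heq]; exact mem f hf
  rw [Matrix.range_cons, Matrix.range_cons, Matrix.range_empty, Set.union_empty,
    Set.singleton_union, Submodule.mem_span_pair] at hfm
  obtain ⟨a, b, hab⟩ := hfm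
  have key : ∀ v (hv : v ∈ ({p, q, s} : Finset V)), f v = a + b * xF v := by
    intro v hv
    have e := congrFun hab ⟨v, hv⟩
    have e' : a * 1 + b * xF v = f v := e
    rw [← e', mul_one]
  rw [sum3 hpq hps hqs _ (fun v hv => by rw [dv_out hv, zero_mul]), dv_p, dv_q hpq, dv_s hps hqs,
    key p (by simp), key q (by simp), key s (by simp)]
  linear_combination (a * (xF p + xF q + xF s) +
    b * (xF p * xF q + xF p * xF s + xF q * xF s)) * h2

end Aux_tri

open Aux_tri in
theorem p_tri : S_add → S_qd → S_tiff → S_zero → S_rk → S_tri := by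
  intro hadd hqd htiff hzero _ V _ _ G S hG hS hr
  have h2 : (2 : F V) = 0 := two_F
  obtain ⟨p, q, s, hpq, hps, hqs, rfl⟩ := Finset.card_eq_three.1 hS
  obtain ⟨-, -, z1, zx⟩ := hzero V G hG
  have hsym : (Lap G).IsSymm := (hadd V G G).2.2.2.1 hG
  obtain ⟨g₀, hg₀⟩ := range_of_orth (Lap G) hsym (dv p q s)
    (fun f hf => orth hpq hps hqs G z1 zx hr f hf)
  have n1 := xF_ne hpq
  have n2 := xF_ne hps
  have n3 := xF_ne hqs
  set c : F V := ((xF p + xF q) * (xF q + xF s) * (xF p + xF s))⁻¹ with hc
  have hc0 : c ≠ 0 := inv_ne_zero (mul_ne_zero (mul_ne_zero n1 n3) n2)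
  have hcx : c * ((xF p + xF q) * (xF q + xF s) * (xF p + xF s)) = 1 :=
    inv_mul_cancel₀ (mul_ne_zero (mul_ne_zero n1 n3) n2)
  rw [htiff V G _ hG (ev_K hpq hps hqs)]
  constructor
  · intro h
    refine ⟨(c * ∑ v, dv p q s v * h v) • g₀, ?_⟩
    rw [Matrix.mulVec_smul, hg₀]
    funext u
    rw [lap_mul hpq hps hqs]
    rfl
  · intro g h hgh
    have e : ∀ u, (Lap G).mulVec g u = c * (∑ v, dv p q s v * h v) * dv p q s u := by
      intro u
      rw [hgh, lap_mul hpq hps hqs]
    have hq := hqd V G g hG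
    set a := ∑ v, dv p q s v * h v with ha
    have hag : a = 0 ∨ ∑ v, dv p q s v * g v = a := by
      by_cases ha0 : a = 0
      · exact Or.inl ha0
      · right
        have e1 : ∑ v, g v * (Lap G).mulVec g v = c * a * ∑ v, dv p q s v * g v := by
          rw [Finset.mul_sum]
          refine Finset.sum_congr rfl fun v _ => ?_
          rw [e v]; ring
        have e2 : ∑ u, xF u * ((Lap G).mulVec g u) ^ 2 = c * a * a := by
          rw [sum3 hpq hps hqs _ (fun v hv => by rw [e v, dv_out hv]; ring), e p, e q, e s, dv_p,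
            dv_q hpq, dv_s hps hqs]
          linear_combination (c * a ^ 2) * hcx + 2 * c ^ 2 * a ^ 2 * (xF p * xF q * xF s) * h2
        rw [e1, e2] at hq
        exact mul_left_cancel₀ (mul_ne_zero hc0 ha0) hq
    funext u
    rw [lap_mul hpq hps hqs, lap_mul hpq hps hqs]
    rcases hag with h0 | h0
    · have hg0 : (Lap G).mulVec g = 0 := by
        funext v
        rw [e v, h0]
        simp
      rw [orth hpq hps hqs G z1 zx hr g hg0, ← ha, h0]
    · rw [h0, ← ha]

end Pool.Agent.W390.SD
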