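import Pool.Agent.W390.SD.Stm3

/-!
# Project SD, part M4 (helper505): the companion
-/

namespace Pool.Agent.W390.SD

open MvPolynomial Finset

namespace Aux_tw

variable {V : Type} [Fintype V] [DecidableEq V]

theorem odd_of_K {S : Finset V} (hK : IsEv (K S)) {v : V} (hv : v ∈ S) : Odd S.card := by
  have h := hK.even v
  have e : ∑ u, K S v u = ((S.erase v).card : ZMod 2) := by
    have e1 : ∀ u : V, K S v u = if u ∈ S.erase v then (1 : ZMod 2) else 0 := by
      intro u
      unfold K
      by_cases hu : u ∈ S.erase v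
      · rw [mem_erase] at hu
        rw [if_pos ⟨hv, hu.2, fun h => hu.1 h.symm⟩, if_pos (mem_erase.2 hu)]
      · rw [if_neg hu, if_neg]
        rintro ⟨-, h2, h3⟩
        exact hu (mem_erase.2 ⟨fun h => h3 h.symm, h2⟩)
    rw [Finset.sum_congr rfl (fun u _ => e1 u), Finset.sum_ite_mem, univ_inter, sum_const,
      nsmul_eq_mul, mul_one]
  rw [e, ZMod.natCast_eq_zero_iff, card_erase_of_mem hv] at h
  have hpos : 0 < S.card := card_pos.2 ⟨v, hv⟩
  obtain ⟨k, hk⟩ := h
  exact ⟨k, by omega⟩

theorem supp_ne {T : Gr V} (hT0 : T ≠ 0) : (supp T).Nonempty := by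
  by_contra h
  rw [not_nonempty_iff_eq_empty] at h
  apply hT0
  funext u v
  by_contra h1
  have : u ∈ supp T := by
    unfold supp
    rw [mem_filter]
    refine ⟨mem_univ _, v, ?_⟩
    unfold nbr
    rw [mem_filter]
    exact ⟨mem_univ _, h1⟩
  rw [h] at this
  exact notMem_empty _ this

theorem img {S : Finset V} {b b' : V} (hbb : b ≠ b') (hb : b ∉ S) (hb' : b' ∈ S) :
    S.image (Equiv.swap b b') = insert b (S.erase b') := by
  ext x
  rw [mem_image, mem_insert, mem_erase]
  constructor
  · rintro ⟨y, hy, rfl⟩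
    by_cases h1 : y = b'
    · subst h1
      rw [Equiv.swap_apply_right]
      exact Or.inl rfl
    · have h2 : y ≠ b := fun h => hb (h ▸ hy)
      rw [Equiv.swap_apply_of_ne_of_ne h2 h1]
      exact Or.inr ⟨h1, hy⟩
  · rintro (rfl | ⟨h1, h2⟩)
    · exact ⟨b', hb', Equiv.swap_apply_right _ _⟩
    · have h3 : x ≠ b := fun h => hb (h ▸ h2)
      exact ⟨x, h2, Equiv.swap_apply_of_ne_of_ne h3 h1⟩

end Aux_tw

open Aux_tw in
theorem p_tw : S_add → S_sw → S_clind → S_clique → S_ctr → S_ctrK → S_zero → S_rkm → S_tw := by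
  intro _ hsw hcl hclq hctr hctrK _ _ V _ _ b b' T hbb hT hb hcase
  by_cases hb' : b' ∈ supp T
  · have e : tw b b' T = sw b b' T := by
      unfold tw
      rw [if_pos hb']
    obtain ⟨s1, s2, s3, s4, s5, s6, s7, s8⟩ := hsw V b b' T T
    have hs : supp (sw b b' T) = insert b ((supp T).erase b') := by
      rw [s7]
      exact img hbb hb hb'
    have hbs : b ∈ supp (sw b b' T) := by
      rw [hs]
      exact mem_insert_self _ _
    have hb's : b' ∉ supp (sw b b' T) := by
      rw [hs, mem_insert, mem_erase]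
      rintro (h | h)
      exacts [hbb h.symm, h.1 rfl]
    rw [e]
    refine ⟨s5 hT, ?_, hbs, ?_, ?_, fun _ => hs⟩
    · rw [hs]
      exact insert_subset_insert _ ((erase_subset _ _).trans (subset_insert _ _))
    · intro h
      rw [h] at hbs
      exact hb hbs
    · obtain ⟨c1, c2, c3, c4, c5, c6, c7⟩ := hctr V (sw b b' T) T b b' hbb (s1 hT.1) hT.1
      rw [c7 hb's, s4]
  · have hTK : T = K (supp T) := by
      rcases hcase with h | h
      exacts [absurd h hb', h]
    obtain ⟨S, hS⟩ : ∃ S, S = supp T := ⟨_, rfl⟩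
    have e : tw b b' T = K (insert b (insert b' S)) := by
      unfold tw
      rw [if_neg hb', hS]
    rw [← hS] at hb hb' hTK
    have hne : S.Nonempty := hS ▸ supp_ne hT.2.1
    obtain ⟨v, hv⟩ := hne
    have hodd : Odd S.card := odd_of_K (hTK ▸ hT.1) hv
    have h3 : 3 ≤ S.card := by
      by_contra h
      have h1 : S.card = 1 := by
        obtain ⟨k, hk⟩ := hodd
        omega
      exact hT.2.1 (hTK.trans ((hclq V S hodd).2.2.2 h1))
    have hb2 : b ∉ insert b' S := by
      rw [mem_insert]
      rintro (h | h)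
      exacts [hbb h, hb h]
    have hc : (insert b (insert b' S)).card = S.card + 2 := by
      rw [card_insert_of_notMem hb2, card_insert_of_notMem hb']
    have hodd' : Odd (insert b (insert b' S)).card := by
      rw [hc]
      obtain ⟨k, hk⟩ := hodd
      exact ⟨k + 1, by omega⟩
    have hsupp := (hclq V _ hodd').2.1 (by omega)
    rw [e, hsupp]
    refine ⟨hcl V _ hodd' (by omega), ?_, mem_insert_self _ _, ?_, ?_, fun h => ?_⟩
    · rw [hS]
    · intro h
      have h4 : b ∈ S := by
        rw [hS, ← h, hsupp]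
        exact mem_insert_self _ _
      exact hb h4
    · rw [(hctrK V _ b b' hodd' (mem_insert_self _ _) hbb).1
        (mem_insert_of_mem (mem_insert_self _ _)), erase_insert hb2, erase_insert hb']
      exact hTK.symm
    · rw [← hS] at h
      exact absurd h hb'

end Pool.Agent.W390.SD
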