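import Pool.Agent.W390.SD.Stm3

set_option autoImplicit false

namespace Pool.Agent.W390.SD.Aux_two

open MvPolynomial Finset

variable {V : Type} [Fintype V] [DecidableEq V]

omit [DecidableEq V] in
lemma ne_of_adj {A : Gr V} (h : IsEv A) {u v : V} (huv : A u v ≠ 0) : u ≠ v := by
  intro e
  subst e
  exact huv (h.diag u)

omit [DecidableEq V] in
lemma mem_nbr {A : Gr V} {u v : V} : u ∈ nbr A v ↔ A v u ≠ 0 := by
  simp [nbr]

omit [DecidableEq V] in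
lemma mem_supp {A : Gr V} {v : V} : v ∈ supp A ↔ (nbr A v).Nonempty := by
  simp [supp]

omit [DecidableEq V] in
lemma supp_left {A : Gr V} {u v : V} (h : A u v ≠ 0) : u ∈ supp A :=
  mem_supp.2 ⟨v, mem_nbr.2 h⟩

omit [DecidableEq V] in
lemma supp_right {A : Gr V} (hA : IsEv A) {u v : V} (h : A u v ≠ 0) : v ∈ supp A := by
  apply mem_supp.2 ⟨u, mem_nbr.2 ?_⟩
  rw [hA.symm]
  exact h

lemma SDn_mono {m n : ℕ} (h : m ≤ n) (hn : SDn V n) : SDn V m :=
  fun G hG hc => hn G hG (hc.trans h)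

lemma UQn_mono {m n : ℕ} (h : m ≤ n) (hn : UQn V n) : UQn V m :=
  fun Y T₁ T₂ hY hc => hn Y T₁ T₂ hY (hc.trans h)

lemma PJ_empty_ne {A : Gr V} (hA : IsEv A) : PJ A ∅ ≠ 0 := by
  have h1 : PJ A ∅ = PP A := by
    simp [PJ, dd]
  rw [h1, PP, Finset.prod_ne_zero_iff]
  intro e he
  unfold edg at he
  rw [Finset.mem_image] at he
  obtain ⟨p, hp, rfl⟩ := he
  rw [Finset.mem_filter] at hp
  have hne : p.1 ≠ p.2 := ne_of_adj hA hp.2
  have h2 : fac s(p.1, p.2) = (X p.1 + X p.2 : R V) := rfl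
  rw [h2]
  intro h0
  have h3 := congrArg (MvPolynomial.coeff (Finsupp.single p.1 1)) h0
  have h4 : ¬ (Finsupp.single p.2 1 : V →₀ ℕ) = Finsupp.single p.1 1 := by
    intro h4
    exact hne (Finsupp.single_left_injective one_ne_zero h4).symm
  rw [coeff_add, MvPolynomial.coeff_X, MvPolynomial.coeff_X, coeff_zero, if_pos rfl,
    if_neg h4] at h3
  simp at h3

lemma cardJ {J₁ J A : Finset V} (h1 : J₁ ⊆ J) (h2 : J₁ ⊆ Aᶜ) :
    A.card + J₁.card ≤ (A \ J).card + J.card := by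
  have h3 : (A \ J).card + (A ∩ J).card = A.card := Finset.card_sdiff_add_card_inter A J
  have h4 : Disjoint (A ∩ J) J₁ := by
    rw [Finset.disjoint_left]
    intro x hx hx1
    have := h2 hx1
    rw [Finset.mem_compl] at this
    exact this (Finset.mem_inter.1 hx).1
  have h5 : ((A ∩ J) ∪ J₁).card ≤ J.card := by
    apply Finset.card_le_card
    exact Finset.union_subset Finset.inter_subset_right h1
  rw [Finset.card_union_of_disjoint h4] at h5
  omega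

lemma exists_J (hbasis : S_basis) (hrk : S_rk) {Y : Gr V} (hY : IsEv Y) {S A : Finset V}
    (hSA : S ⊆ A) : ∃ J₁ J : Finset V, J₁ ⊆ J ∧ J₁ ⊆ Aᶜ ∧ J₁.card = nuC Y Aᶜ ∧
      PJ Y J ≠ 0 ∧ J.card = nu Y ∧ rk Y A ≤ (A \ J).card ∧ rk Y S ≤ (S \ J).card := by
  obtain ⟨hb1, hb2, hb3, hb4, hb5, hb6, hb7, hb8⟩ := hbasis V Y hY
  obtain ⟨J₁, -, h1b, h1c, h1d⟩ := hb4 Aᶜ ∅ (Finset.empty_subset _) (PJ_empty_ne hY)
  have hc : Aᶜ ⊆ Sᶜ := Finset.compl_subset_compl.2 hSA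
  obtain ⟨J₂, h2a, h2b, h2c, h2d⟩ := hb4 Sᶜ J₁ (h1b.trans hc) h1d
  obtain ⟨J, h3a, -, h3c, h3d⟩ := hb4 univ J₂ (Finset.subset_univ _) h2d
  rw [hb1] at h3c
  refine ⟨J₁, J, h2a.trans h3a, h1b, h1c, h3d, h3c, ?_, ?_⟩
  · have h4 := cardJ (h2a.trans h3a) h1b
    have h5 := hrk V Y A hY
    omega
  · have h4 := cardJ h3a h2b
    have h5 := hrk V Y S hY
    omega

/-- tightness of a part away from `w` survives a good contraction -/
lemma tctr (hctr : S_ctr) (hctrt : S_ctrt) {G T : Gr V} {w w' : V} (hG : IsEv G)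
    (hT : Tight T G) (hg : good G w w') (hw : w ∉ supp T) : Tight T (ctr w w' G) := by
  have h1 := (hctrt V G T w w' hG hT hg).1
  have h2 := (hctr V T T w w' (ne_of_adj hG hg.1) hT.1 hT.1).2.2.1 hw
  rw [h2] at h1
  exact h1

lemma isEv_ctr (hctr : S_ctr) {G : Gr V} {w w' : V} (hG : IsEv G) (hw : w ≠ w') :
    IsEv (ctr w w' G) := (hctr V G G w w' hw hG hG).1

lemma supp_ctr_card (hctr : S_ctr) {G : Gr V} {w w' : V} {n : ℕ} (hG : IsEv G)
    (hw : G w w' ≠ 0) (hc : (supp G).card ≤ n + 1) : (supp (ctr w w' G)).card ≤ n := by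
  have h1 := (hctr V G G w w' (ne_of_adj hG hw) hG hG).2.2.2.2.2.1 (supp_right hG hw)
  have h2 := Finset.card_le_card h1
  rw [Finset.card_erase_of_mem (supp_left hw)] at h2
  omega

/-- number of nonzeros -/
lemma nonzeros (hcnt : S_cnt) {A : Gr V} {J : Finset V} {w : V} (hA : IsEv A) (hw : w ∈ J)
    (hP : PJ A J ≠ 0) :
    (nbr A w).card + 2 ≤ 2 * ((nbr A w).filter (fun u => sg w u (PJ A J) ≠ 0)).card := by
  classical
  have h1 := hcnt V A J w hA hw hP ((nbr A w).filter (fun u => sg w u (PJ A J) = 0))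
    (Finset.filter_subset _ _) (fun w' hw' => (Finset.mem_filter.1 hw').2)
  have h2 := Finset.card_filter_add_card_filter_not (s := nbr A w)
    (fun u => sg w u (PJ A J) = 0)
  have h3 : (nbr A w).filter (fun u => ¬ sg w u (PJ A J) = 0) =
      (nbr A w).filter (fun u => sg w u (PJ A J) ≠ 0) := rfl
  rw [h3] at h2
  omega

/-- nonzeros for the double contraction -/
lemma count (hcnt : S_cnt) (hctr : S_ctr) (hnbr : S_nbr) {Y : Gr V} {J : Finset V}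
    {w₁ w₂ u₁ : V} (hY : IsEv Y) (hu : Y w₁ u₁ ≠ 0) (h12 : w₁ ≠ w₂) (hu2 : u₁ ≠ w₂)
    (hw2 : w₂ ∈ J) (hP : PJ (ctr w₁ u₁ Y) (J.erase w₁) ≠ 0) :
    (nbr Y w₂).card ≤ 2 * ((nbr Y w₂).filter (fun x => x ≠ w₁ ∧ x ≠ u₁ ∧
      sg w₂ x (PJ (ctr w₁ u₁ Y) (J.erase w₁)) ≠ 0)).card := by
  classical
  have hwu : w₁ ≠ u₁ := ne_of_adj hY hu
  have hY1 : IsEv (ctr w₁ u₁ Y) := isEv_ctr hctr hY hwu
  have h1 := nonzeros hcnt hY1 (Finset.mem_erase.2 ⟨h12.symm, hw2⟩) hP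
  obtain ⟨n1, n2, n3, n4⟩ := hnbr V Y w₁ u₁ w₂ hY hwu h12.symm hu2.symm
  set NZ := (nbr (ctr w₁ u₁ Y) w₂).filter
    (fun u => sg w₂ u (PJ (ctr w₁ u₁ Y) (J.erase w₁)) ≠ 0) with hNZ
  have hsub : NZ.erase u₁ ⊆ (nbr Y w₂).filter (fun x => x ≠ w₁ ∧ x ≠ u₁ ∧
      sg w₂ x (PJ (ctr w₁ u₁ Y) (J.erase w₁)) ≠ 0) := by
    intro x hx
    rw [Finset.mem_erase, hNZ, Finset.mem_filter] at hx
    obtain ⟨hx1, hx2, hx3⟩ := hx
    have hx4 : x ≠ w₁ := by
      rintro rfl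
      exact n4 hx2
    rw [Finset.mem_filter]
    exact ⟨(n3 x hx4 hx1).1 hx2, hx4, hx1, hx3⟩
  have h2 := Finset.card_le_card hsub
  by_cases hc : Y w₂ w₁ ≠ 0 ∧ Y w₂ u₁ ≠ 0
  · obtain ⟨m1, m2⟩ := n1 hc
    have h3 : NZ.erase u₁ = NZ := by
      apply Finset.erase_eq_of_notMem
      rw [hNZ, Finset.mem_filter]
      exact fun h => m1 h.1
    rw [h3] at h2
    omega
  · have m1 := n2 hc
    have h3 := Finset.pred_card_le_card_erase (s := NZ) (a := u₁)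
    omega

end Pool.Agent.W390.SD.Aux_two

namespace Pool.Agent.W390.SD

open MvPolynomial Finset Aux_two

theorem p_two : S_add → S_basis → S_rk → S_rkm → S_zero → S_tcons → S_cnt → S_ctr → S_ctrnu →
    S_ctrt → S_unif → S_unifrk → S_degbd → S_zeros → S_lift → S_nbr → S_tw → S_TL → S_EX →
    S_dbl → S_two := by
  intro _ hbasis hrk hrkm _ htcons hcnt hctr hctrnu hctrt hunif hunifrk hdegbd hzeros hlift hnbr
    htw hTL hEX hdbl
  intro V _ _ n G T b b' hSD hUQ hG hGn hGr hgood hT hTY hrS hrA hnuC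
  classical
  have hGe : IsEv G := hG.1
  have hTe : IsEv T := hT.1
  have hbb : b ≠ b' := ne_of_adj hGe hgood.1
  have hYe : IsEv (ctr b b' G) := isEv_ctr hctr hGe hbb
  have hbY : b ∉ supp (ctr b b' G) := (hctr V G G b b' hbb hGe hGe).2.2.2.1
  have hYsupp := (hctr V G G b b' hbb hGe hGe).2.2.2.2.1
  obtain ⟨J₁, J, hJ1J, hJ1c, hJ1card, hPJ, hJcard, hA4, hS3⟩ :=
    exists_J hbasis hrk hYe (Finset.subset_insert b' (supp T))
  have hJsupp : J ⊆ supp (ctr b b' G) := (hbasis V (ctr b b' G) hYe).2.2.2.2.2.2.2 J hPJ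
  have hfacts : ∀ w ∈ J₁, w ∈ J ∧ w ≠ b ∧ w ≠ b' ∧ w ∉ supp T ∧ w ∈ supp G := by
    intro w hw
    have h1 := hJ1c hw
    rw [Finset.mem_compl, Finset.mem_insert, not_or] at h1
    have h2 : w ∈ supp (ctr b b' G) := hJsupp (hJ1J hw)
    have h3 : w ≠ b := by
      rintro rfl
      exact hbY h2
    refine ⟨hJ1J hw, h3, h1.1, h1.2, ?_⟩
    have h4 := hYsupp h2
    rw [Finset.mem_insert, Finset.mem_erase] at h4
    rcases h4 with h4 | h4
    · exact absurd h4 h1.1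
    · exact h4.2
  obtain ⟨w₁, hw1, w₂, hw2, h12⟩ := Finset.one_lt_card.1 (show 1 < J₁.card by omega)
  obtain ⟨hw1J, hw1b, hw1b', hw1T, hw1G⟩ := hfacts w₁ hw1
  obtain ⟨hw2J, hw2b, hw2b', hw2T, hw2G⟩ := hfacts w₂ hw2
  -- types
  have typ : ∀ H : Gr V, IsEv H → good H b b' → (supp H).card ≤ n → Tight T (ctr b b' H) →
      3 ≤ rk (ctr b b' H) (supp T) → 4 ≤ rk (ctr b b' H) (insert b' (supp T)) →
      Tight T H ∨ ((b' ∈ supp T ∨ T = K (supp T)) ∧ Tight (tw b b' T) H) := by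
    intro H hH hg hc ht h3 h4
    rcases hTL V H T b b' hH hg (SDn_mono hc hSD) (UQn_mono hc hUQ) hT ht h3 with h | h | h
    · exact Or.inl h
    · exact Or.inr h
    · exfalso
      have := h.2
      omega
  have excl : ∀ H : Gr V, IsEv H → good H b b' → (supp H).card ≤ n → Tight T (ctr b b' H) →
      3 ≤ rk (ctr b b' H) (supp T) → Tight T H → (b' ∈ supp T ∨ T = K (supp T)) →
      Tight (tw b b' T) H → False := by
    intro H hH hg hc ht h3 h4 h5 h6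
    exact hEX V H T b b' hH hg (UQn_mono hc hUQ) hT ht h3 h4 h5 h6
  -- the graph G is uniform
  have hU : Unif G := hunif V G hG
  have hdeg : 6 ≤ (nbr G w₂).card := by
    have := hdegbd V G w₂ ((supp G).card - nu G) hU hw2G (by omega)
    omega
  have hnG : ∀ x ∈ nbr G w₂, x ∈ supp G := by
    intro x hx
    exact supp_right hGe (mem_nbr.1 hx)
  have hrkG : 4 ≤ rk G (insert w₂ (nbr G w₂)) := by
    have h1 : insert w₂ (nbr G w₂) ⊆ supp G := by
      intro x hx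
      rw [Finset.mem_insert] at hx
      rcases hx with rfl | hx
      · exact hw2G
      · exact hnG x hx
    rw [(hunifrk V G hU).1 _ h1, Finset.card_insert_of_notMem]
    · apply le_min <;> omega
    · intro h
      exact mem_nbr.1 h (hGe.diag w₂)
  -- u₁
  have hnz := nonzeros hcnt hYe hw1J hPJ
  have hnz2 := Finset.card_filter_le (nbr (ctr b b' G) w₁)
    (fun u => sg w₁ u (PJ (ctr b b' G) J) ≠ 0)
  obtain ⟨u₁, hu1, hu1w2⟩ := Finset.exists_mem_ne (show 1 < ((nbr (ctr b b' G) w₁).filter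
    (fun u => sg w₁ u (PJ (ctr b b' G) J) ≠ 0)).card by omega) w₂
  rw [Finset.mem_filter, mem_nbr] at hu1
  obtain ⟨hYu1, hsg1⟩ := hu1
  have hw1u1 : w₁ ≠ u₁ := ne_of_adj hYe hYu1
  obtain ⟨-, -, -, c4, c5, c6⟩ := hctrnu V (ctr b b' G) w₁ u₁ hYe hw1u1
  have hP1 := c4 J hw1J hYu1 hsg1
  have hgY1 := c5 J hw1J hYu1 hJcard hsg1
  have hY1e : IsEv (ctr w₁ u₁ (ctr b b' G)) := isEv_ctr hctr hYe hw1u1
  have hcount := count hcnt hctr hnbr hYe hYu1 h12 hu1w2 hw2J hP1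
  set Z := (nbr (ctr b b' G) w₂).filter (fun x => x ≠ w₁ ∧ x ≠ u₁ ∧
      sg w₂ x (PJ (ctr w₁ u₁ (ctr b b' G)) (J.erase w₁)) ≠ 0) with hZ
  have hdegY : (nbr G w₂).card ≤ (nbr (ctr b b' G) w₂).card + 2 := by
    obtain ⟨n1, n2, -, -⟩ := hnbr V G b b' w₂ hGe hbb hw2b hw2b'
    by_cases hc : G w₂ b ≠ 0 ∧ G w₂ b' ≠ 0
    · have := (n1 hc).2
      omega
    · have := n2 hc
      omega
  -- zero bound
  have zb : ∀ T' : Gr V, IsEv T' → w₂ ∉ supp T' → ¬ Tight T' G →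
      (∀ u ∈ Z, good G w₂ (hat G b b' w₂ u) ∧ Tight T' (ctr w₂ (hat G b b' w₂ u) G)) →
      False := by
    intro T' hT'e hT'w hT'n hall
    have hZY : ∀ u ∈ Z, ctr b b' G w₂ u ≠ 0 := by
      intro u hu
      rw [hZ, Finset.mem_filter, mem_nbr] at hu
      exact hu.1
    have hcard : (Z.image (hat G b b' w₂)).card = Z.card := by
      apply Finset.card_image_of_injOn
      intro x hx y hy hxy
      have h1 := hlift V G b b' w₂ x hGe hgood.1 hw2b hw2b' (hZY x hx)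
      exact h1.2.2.2.2.2.2.2.2.2 y (hZY y hy) hxy
    have h2 := hzeros V G T' w₂ (Z.image (hat G b b' w₂)) hGe hT'e hw2G hT'w hdeg hrkG hT'n
      (by
        intro x hx
        rw [Finset.mem_image] at hx
        obtain ⟨u, hu, rfl⟩ := hx
        exact mem_nbr.2 (hall u hu).1.1)
      (by
        intro x hx
        rw [Finset.mem_image] at hx
        obtain ⟨u, hu, rfl⟩ := hx
        exact hall u hu)
    rw [hcard] at h2
    omega
  -- facts for u₂ ∈ Z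
  have hJ1card' : (J.erase w₁).card = nu (ctr w₁ u₁ (ctr b b' G)) := by
    rw [Finset.card_erase_of_mem hw1J]
    have := hgY1.2
    omega
  have hw2J1 : w₂ ∈ J.erase w₁ := Finset.mem_erase.2 ⟨h12.symm, hw2J⟩
  obtain ⟨l1, l2, l3, l4, l5, l6, l7, l8, l9, l10⟩ :=
    hlift V G b b' w₁ u₁ hGe hgood.1 hw1b hw1b' hYu1
  obtain ⟨hgG1, hgH1⟩ := l8 hgood hgY1
  have hw1v1 : w₁ ≠ hat G b b' w₁ u₁ := l3.symm
  have hH1e : IsEv (ctr w₁ (hat G b b' w₁ u₁) G) := isEv_ctr hctr hGe hw1v1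
  have hH1n : (supp (ctr w₁ (hat G b b' w₁ u₁) G)).card ≤ n :=
    supp_ctr_card hctr hGe hgG1.1 (by omega)
  have hTY1 : Tight T (ctr w₁ u₁ (ctr b b' G)) := tctr hctr hctrt hYe hTY hgY1 hw1T
  have key : ∀ u₂ ∈ Z,
      (good G w₂ (hat G b b' w₂ u₂)) ∧
      (3 ≤ rk (ctr w₁ u₁ (ctr b b' G)) (supp T) ∧
        4 ≤ rk (ctr w₁ u₁ (ctr b b' G)) (insert b' (supp T))) ∧
      (Tight T (ctr w₂ (hat G b b' w₂ u₂) G) ∨ ((b' ∈ supp T ∨ T = K (supp T)) ∧
        Tight (tw b b' T) (ctr w₂ (hat G b b' w₂ u₂) G))) ∧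
      (Tight T (ctr w₁ (hat G b b' w₁ u₁) G) → (b' ∈ supp T ∨ T = K (supp T)) →
        ¬ Tight (tw b b' T) (ctr w₂ (hat G b b' w₂ u₂) G)) ∧
      (Tight (tw b b' T) (ctr w₁ (hat G b b' w₁ u₁) G) → (b' ∈ supp T ∨ T = K (supp T)) →
        ¬ Tight T (ctr w₂ (hat G b b' w₂ u₂) G)) := by
    intro u₂ hu2
    rw [hZ, Finset.mem_filter] at hu2
    obtain ⟨hu2n, hu2w1, hu2u1, hsg2⟩ := hu2
    have hYu2 := mem_nbr.1 hu2n
    have hw2u2 : w₂ ≠ u₂ := ne_of_adj hYe hYu2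
    obtain ⟨⟨-, -, -⟩, ⟨hgY2, hgG2, hgH2⟩, hg3, h4, h5, h6, h7, h8, h9, h10, h11⟩ :=
      hdbl V G b b' w₁ w₂ u₁ u₂ J hGe hgood h12 hw1b hw1b' hw2b hw2b' hw1J hw2J hPJ hJcard
        hYu1 hsg1 hu1w2 hYu2 hu2w1 hu2u1 hsg2
    -- good Y₁ w₂ u₂
    have hY1u2 : ctr w₁ u₁ (ctr b b' G) w₂ u₂ ≠ 0 := by
      obtain ⟨-, -, n3, -⟩ := hnbr V (ctr b b' G) w₁ u₁ w₂ hYe hw1u1 h12.symm hu1w2.symm
      exact mem_nbr.1 ((n3 u₂ hu2w1 hu2u1).2 hu2n)
    have hgY12 : good (ctr w₁ u₁ (ctr b b' G)) w₂ u₂ :=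
      (hctrnu V (ctr w₁ u₁ (ctr b b' G)) w₂ u₂ hY1e hw2u2).2.2.2.2.1 (J.erase w₁) hw2J1 hY1u2
        hJ1card' hsg2
    have hY12e : IsEv (ctr w₂ u₂ (ctr w₁ u₁ (ctr b b' G))) := isEv_ctr hctr hY1e hw2u2
    have hY2e : IsEv (ctr w₂ u₂ (ctr b b' G)) := isEv_ctr hctr hYe hw2u2
    -- ranks in Y₁₂
    have hr7 := (hrkm V _ _ hY12e hY12e).2.2.2.2.2.2.1
    have hJsub : (J.erase w₁).erase w₂ ⊆ J :=
      (Finset.erase_subset _ _).trans (Finset.erase_subset _ _)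
    have hr3 : 3 ≤ rk (ctr w₂ u₂ (ctr w₁ u₁ (ctr b b' G))) (supp T) := by
      have h := hr7 (supp T) _ h6 h5
      have h' := Finset.card_le_card (Finset.sdiff_subset_sdiff (Finset.Subset.refl (supp T)) hJsub)
      omega
    have hr4 : 4 ≤ rk (ctr w₂ u₂ (ctr w₁ u₁ (ctr b b' G))) (insert b' (supp T)) := by
      have h := hr7 (insert b' (supp T)) _ h6 h5
      have h' := Finset.card_le_card
        (Finset.sdiff_subset_sdiff (Finset.Subset.refl (insert b' (supp T))) hJsub)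
      omega
    have hw1A : w₁ ∉ insert b' (supp T) := by
      rw [Finset.mem_insert, not_or]
      exact ⟨hw1b', hw1T⟩
    have hw2A : w₂ ∉ insert b' (supp T) := by
      rw [Finset.mem_insert, not_or]
      exact ⟨hw2b', hw2T⟩
    -- ranks in Y₁
    have hm1 := (hctrnu V (ctr w₁ u₁ (ctr b b' G)) w₂ u₂ hY1e hw2u2).2.2.2.2.2 hgY12
    have hr31 := hr3.trans (hm1 _ hw2T)
    have hr41 := hr4.trans (hm1 _ hw2A)
    -- ranks in Y₂
    have hm2 := (hctrnu V (ctr w₂ u₂ (ctr b b' G)) w₁ u₁ hY2e hw1u1).2.2.2.2.2 hg3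
    rw [h4] at hm2
    have hr32 := hr3.trans (hm2 _ hw1T)
    have hr42 := hr4.trans (hm2 _ hw1A)
    -- H₂
    obtain ⟨k1, k2, k3, k4, k5, k6, k7, k8, k9, k10⟩ :=
      hlift V G b b' w₂ u₂ hGe hgood.1 hw2b hw2b' hYu2
    have hw2v2 : w₂ ≠ hat G b b' w₂ u₂ := k3.symm
    have hH2e : IsEv (ctr w₂ (hat G b b' w₂ u₂) G) := isEv_ctr hctr hGe hw2v2
    have hH2n : (supp (ctr w₂ (hat G b b' w₂ u₂) G)).card ≤ n :=
      supp_ctr_card hctr hGe hgG2.1 (by omega)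
    have hTY2 : Tight T (ctr w₂ u₂ (ctr b b' G)) := tctr hctr hctrt hYe hTY hgY2 hw2T
    have hty2 := typ (ctr w₂ (hat G b b' w₂ u₂) G) hH2e hgH2 hH2n (by rw [k7]; exact hTY2)
      (by rw [k7]; exact hr32) (by rw [k7]; exact hr42)
    -- H₁₂
    have hTY12 : Tight T (ctr w₂ u₂ (ctr w₁ u₁ (ctr b b' G))) :=
      tctr hctr hctrt hY1e hTY1 hgY12 hw2T
    have hH12e : IsEv (ctr w₂ (hat G b b' w₂ u₂) (ctr w₁ (hat G b b' w₁ u₁) G)) :=
      isEv_ctr hctr hH1e hw2v2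
    have hH12n : (supp (ctr w₂ (hat G b b' w₂ u₂) (ctr w₁ (hat G b b' w₁ u₁) G))).card ≤ n :=
      supp_ctr_card hctr hH1e h7.1 (by omega)
    have hex := excl _ hH12e h10 hH12n (by rw [h11]; exact hTY12) (by rw [h11]; exact hr3)
    have htw_w : (b' ∈ supp T ∨ T = K (supp T)) → w₁ ∉ supp (tw b b' T) ∧
        w₂ ∉ supp (tw b b' T) := by
      intro hcond
      have hs := (htw V b b' T hbb hT
        (fun h => hbY ((htcons V _ T hYe hTY).2.1 h)) hcond).2.1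
      constructor
      · intro h
        have h' := hs h
        rw [Finset.mem_insert, Finset.mem_insert] at h'
        rcases h' with h' | h' | h'
        · exact hw1b h'
        · exact hw1b' h'
        · exact hw1T h'
      · intro h
        have h' := hs h
        rw [Finset.mem_insert, Finset.mem_insert] at h'
        rcases h' with h' | h' | h'
        · exact hw2b h'
        · exact hw2b' h'
        · exact hw2T h'
    refine ⟨hgG2, ⟨hr31, hr41⟩, hty2, ?_, ?_⟩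
    · intro hT1 hcond htw2
      have e1 : Tight T (ctr w₂ (hat G b b' w₂ u₂) (ctr w₁ (hat G b b' w₁ u₁) G)) :=
        tctr hctr hctrt hH1e hT1 h7 hw2T
      have e2 : Tight (tw b b' T) (ctr w₁ (hat G b b' w₁ u₁) (ctr w₂ (hat G b b' w₂ u₂) G)) :=
        tctr hctr hctrt hH2e htw2 h8 (htw_w hcond).1
      rw [h9] at e2
      exact hex e1 hcond e2
    · intro htw1 hcond hT2
      have e1 : Tight (tw b b' T) (ctr w₂ (hat G b b' w₂ u₂) (ctr w₁ (hat G b b' w₁ u₁) G)) :=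
        tctr hctr hctrt hH1e htw1 h7 (htw_w hcond).2
      have e2 : Tight T (ctr w₁ (hat G b b' w₁ u₁) (ctr w₂ (hat G b b' w₂ u₂) G)) :=
        tctr hctr hctrt hH2e hT2 h8 hw1T
      rw [h9] at e2
      exact hex e2 hcond e1
  -- conclusion
  have hZne : Z.Nonempty := by
    rw [← Finset.card_pos]
    omega
  obtain ⟨z, hz⟩ := hZne
  obtain ⟨hr31, hr41⟩ := (key z hz).2.1
  have hty1 := typ (ctr w₁ (hat G b b' w₁ u₁) G) hH1e hgH1 hH1n (by rw [l7]; exact hTY1)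
      (by rw [l7]; exact hr31) (by rw [l7]; exact hr41)
  rcases hty1 with hty1 | ⟨hcond, hty1⟩
  · apply zb T hTe hw2T
    · intro hTG
      rcases hG.2.2 T hTG with h | h
      · exact hT.2.1 h
      · rw [h] at hw2T
        exact hw2T hw2G
    · intro u hu
      obtain ⟨q1, -, q3, q4, -⟩ := key u hu
      refine ⟨q1, ?_⟩
      rcases q3 with q3 | ⟨qc, q3⟩
      · exact q3
      · exact absurd q3 (q4 hty1 qc)
  · obtain ⟨t1, t2, -⟩ := htw V b b' T hbb hT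
        (fun h => hbY ((htcons V _ T hYe hTY).2.1 h)) hcond
    have hw2t : w₂ ∉ supp (tw b b' T) := by
      intro h
      have h' := t2 h
      rw [Finset.mem_insert, Finset.mem_insert] at h'
      rcases h' with h' | h' | h'
      · exact hw2b h'
      · exact hw2b' h'
      · exact hw2T h'
    apply zb (tw b b' T) t1.1 hw2t
    · intro hTG
      rcases hG.2.2 _ hTG with h | h
      · exact t1.2.1 h
      · rw [h] at hw2t
        exact hw2t hw2G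
    · intro u hu
      obtain ⟨q1, -, q3, -, q5⟩ := key u hu
      refine ⟨q1, ?_⟩
      rcases q3 with q3 | ⟨qc, q3⟩
      · exact absurd q3 (q5 hty1 hcond)
      · exact q3

end Pool.Agent.W390.SD
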