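import Pool.Agent.W390.SD.Stm3

namespace Pool.Agent.W390.SD

open MvPolynomial Finset

namespace Aux_typ

theorem xx_ne {V : Type} {b b' : V} (h : b ≠ b') : (xx b + xx b' : R V) ≠ 0 := by
  classical
  intro h0
  have h1 := congrArg (MvPolynomial.eval (fun v : V => if v = b then (1 : ZMod 2) else 0)) h0
  have h2 : ¬ (b' = b) := fun e => h e.symm
  simp [xx, h2] at h1

theorem SP_unique {V : Type} [Fintype V] [DecidableEq V] {H : Gr V} {b b' : V} {J : Finset V}
    {c c' : R V} (hb : b ≠ b') (h : SP H b b' J c) (h' : SP H b b' J c') : c = c' := by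
  obtain ⟨_, _, _, _, Q, hQ, _, rfl⟩ := h
  obtain ⟨_, _, _, _, Q', hQ', _, rfl⟩ := h'
  have e : (xx b + xx b') * Q = (xx b + xx b') * Q' := by rw [← hQ, ← hQ']
  rw [mul_left_cancel₀ (xx_ne hb) e]

end Aux_typ

theorem p_typ : S_basis → S_rkm → S_tcons → S_ctr → S_FL2 → S_TL → S_EX → S_sp1 → S_typ := by
  intro _ hrkm htcons hctr hFL2 hTL hEX hsp1
  intro V _ _ H T b b' p q J c hH hSD hUQ hSP hc hT hTt hb'T hpT hqT hpq hpb' hqb' hpJ hqJ
  obtain ⟨hHbb, hbJ, hb'J, hJc, _⟩ := id hSP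
  have hbb : b ≠ b' := by
    rintro rfl
    exact hHbb (hH.diag b)
  obtain ⟨c1, hc1, _, hc1n, _⟩ := hsp1 V H b b' J hH hHbb hbJ hb'J hJc
  have hcc : c = c1 := Aux_typ.SP_unique hbb hSP hc1
  obtain ⟨hgood, hPJ⟩ := hc1n (hcc ▸ hc)
  have hY := hctr V H H b b' hbb hH hH
  have hYev : IsEv (ctr b b' H) := hY.1
  have hbY : b ∉ supp (ctr b b' H) := hY.2.2.2.1
  have hTsub : supp T ⊆ supp (ctr b b' H) := (htcons V (ctr b b' H) T hYev hTt).2.1
  have hbT : b ∉ supp T := fun h => hbY (hTsub h)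
  have hrH : 4 ≤ rk H (insert b (supp T)) := by
    have h1 := (hrkm V H H hH hH).2.2.2.2.2.2.1 (insert b (supp T)) J hJc hPJ
    refine le_trans ?_ h1
    have hsub : ({b, b', p, q} : Finset V) ⊆ insert b (supp T) \ J := by
      intro x hx
      simp only [Finset.mem_insert, Finset.mem_singleton] at hx
      rw [Finset.mem_sdiff, Finset.mem_insert]
      rcases hx with rfl | rfl | rfl | rfl
      · exact ⟨Or.inl rfl, hbJ⟩
      · exact ⟨Or.inr hb'T, hb'J⟩
      · exact ⟨Or.inr hpT, hpJ⟩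
      · exact ⟨Or.inr hqT, hqJ⟩
    have hcard : ({b, b', p, q} : Finset V).card = 4 := by
      have hbp : b ≠ p := fun e => hbT (e ▸ hpT)
      have hbq : b ≠ q := fun e => hbT (e ▸ hqT)
      rw [Finset.card_insert_of_notMem, Finset.card_insert_of_notMem,
        Finset.card_insert_of_notMem, Finset.card_singleton]
      · simpa using hpq
      · simp only [Finset.mem_insert, Finset.mem_singleton, not_or]
        exact ⟨fun e => hpb' e.symm, fun e => hqb' e.symm⟩
      · simp only [Finset.mem_insert, Finset.mem_singleton, not_or]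
        exact ⟨hbb, hbp, hbq⟩
    rw [← hcard]
    exact Finset.card_le_card hsub
  have hrY : 3 ≤ rk (ctr b b' H) (supp T) := by
    have h1 := (hFL2 V H b b' ((supp T).erase b') hH hgood
      (fun h => hbT (Finset.mem_of_mem_erase h)) (Finset.notMem_erase _ _)).1
    rw [Finset.insert_erase hb'T] at h1
    omega
  refine ⟨hrH, hrY, ?_, ?_⟩
  · rcases hTL V H T b b' hH hgood hSD hUQ hT hTt hrY with h | h | h
    · exact Or.inl h
    · exact Or.inr h.2
    · exfalso
      have h2 := h.1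
      rw [Finset.insert_eq_of_mem hb'T] at h2
      omega
  · rintro ⟨h1, h2⟩
    exact hEX V H T b b' hH hgood hUQ hT hTt hrY h1 (Or.inl hb'T) h2

end Pool.Agent.W390.SD
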