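import Pool.Agent.W390.SD.Stm2

/-!
# Project SD: indecomposable graphs are uniform
-/

namespace Pool.Agent.W390.SD

open MvPolynomial Finset

namespace Aux_unif

theorem PJ_empty {V : Type} [Fintype V] [DecidableEq V] (A : Gr V) : PJ A ∅ = PP A := by
  simp [PJ, dd]

theorem ne_empty {V : Type} [Fintype V] [DecidableEq V] (A : Gr V) (v : V) (h : PJ A {v} ≠ 0) :
    PJ A ∅ ≠ 0 := by
  intro h0
  rw [PJ_empty] at h0
  apply h
  unfold PJ
  rw [h0, map_zero]

end Aux_unif

open Aux_unif in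
theorem p_unif : S_TA → S_basis → S_add → S_zero → S_tcons → S_unif := by
  intro hTA hbasis hadd hzero _ V _ _ G hG
  obtain ⟨hE, hne, hind⟩ := hG
  refine ⟨hE, ?_⟩
  by_contra hcon
  push Not at hcon
  obtain ⟨C₀, hC₀, hC₀c, hC₀0⟩ := hcon
  obtain ⟨-, -, -, -, -, -, hsing, -⟩ := hbasis V G hE
  -- a minimal bad set
  have hbad : ((supp G).powerset.filter fun C => C.card ≤ nu G ∧ PJ G C = 0).Nonempty :=
    ⟨C₀, Finset.mem_filter.2 ⟨Finset.mem_powerset.2 hC₀, hC₀c, hC₀0⟩⟩
  obtain ⟨C, hC, hmin⟩ := Finset.exists_min_image _ Finset.card hbad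
  rw [Finset.mem_filter, Finset.mem_powerset] at hC
  obtain ⟨hCs, hCc, hC0⟩ := hC
  have herase : ∀ v ∈ C, PJ G (C.erase v) ≠ 0 := by
    intro v hv h0
    have h1 := hmin (C.erase v) (by
      rw [Finset.mem_filter, Finset.mem_powerset]
      refine ⟨(Finset.erase_subset _ _).trans hCs, ?_, h0⟩
      exact (Finset.card_le_card (Finset.erase_subset _ _)).trans hCc)
    have h2 := Finset.card_erase_lt_of_mem hv
    omega
  obtain ⟨hz1, hz2, -, -⟩ := hzero V G hE
  have hsne : (supp G).Nonempty := by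
    have := hz2 hne
    exact Finset.card_pos.1 (by omega)
  have h2 : 2 ≤ C.card := by
    by_contra hlt
    have h3 : C.card = 0 ∨ C.card = 1 := by omega
    rcases h3 with h3 | h3
    · rw [Finset.card_eq_zero] at h3
      rw [h3] at hC0
      obtain ⟨v, hv⟩ := hsne
      exact ne_empty G v (hsing v hv) hC0
    · obtain ⟨v, hv⟩ := Finset.card_eq_one.1 h3
      rw [hv] at hC0 hCs
      exact hsing v (hCs (Finset.mem_singleton_self v)) hC0
  obtain ⟨H, hH, hHc⟩ := hTA V G C hE hC0 herase h2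
  rcases hind H hH with h | h
  · rw [h, add_zero] at hHc
    omega
  · rw [h] at hHc
    have h4 : G + G = 0 := (hadd V G G).2.2.1
    have h5 : IsEv (0 : Gr V) := h4 ▸ (hadd V G G).2.1 hE hE
    rw [h4, (hzero V 0 h5).1.2 rfl] at hHc
    omega

end Pool.Agent.W390.SD
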