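import Pool.Agent.W390.SD.Stm2

set_option autoImplicit false

/-! # Project SD, E7: ranks in uniform graphs (by helper462) -/

namespace Pool.Agent.W390.SD

open MvPolynomial Finset

theorem p_unifrk : S_basis → S_rk → S_unifrk := by
  intro hb hr V _ _ G hG
  obtain ⟨hE, hU⟩ := hG
  obtain ⟨b1, b2, b3, b4, b5, -, -, b8⟩ := hb V G hE
  have key : ∀ C ⊆ supp G, nuC G C = min C.card (nu G) := by
    intro C hC
    apply le_antisymm
    · refine le_min (b3 C) ?_
      rw [← b1]
      exact b2 C univ (subset_univ C)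
    · obtain ⟨J, hJC, hJ⟩ := exists_subset_card_eq (min_le_left C.card (nu G))
      rw [← hJ]
      refine b5 C J hJC (hU J (hJC.trans hC) ?_)
      rw [hJ]
      exact min_le_right _ _
  refine ⟨fun B hB => ?_, key⟩
  have h1 := hr V G B hE
  have h2 : nuC G Bᶜ = min ((supp G).card - B.card) (nu G) := by
    apply le_antisymm
    · obtain ⟨J, -, hJ, hJc, hJ0⟩ := b4 Bᶜ ∅ (empty_subset _)
        (hU ∅ (empty_subset _) (by rw [card_empty]; exact Nat.zero_le _))
      rw [← hJc]
      refine le_min ?_ ?_
      · rw [← card_sdiff_of_subset hB]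
        refine card_le_card fun x hx => ?_
        rw [mem_sdiff]
        exact ⟨b8 J hJ0 hx, mem_compl.1 (hJ hx)⟩
      · rw [hJc, ← b1]
        exact b2 _ univ (subset_univ _)
    · rw [← card_sdiff_of_subset hB, ← key (supp G \ B) sdiff_subset]
      refine b2 _ _ fun x hx => ?_
      rw [mem_compl]
      exact (mem_sdiff.1 hx).2
  rw [h2] at h1
  have h3 := card_le_card hB
  omega

end Pool.Agent.W390.SD
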