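import Pool.Agent.W390.SD.Stm2

/-!
Project SD: assembly of the uniqueness theorem.
-/

set_option autoImplicit false

namespace Pool.Agent.W390.SD

open Finset

namespace Aux_uq

theorem base (hz : S_zero) (ht : S_tcons) (V : Type) [Fintype V] [DecidableEq V] :
    UQn V 0 := by
  intro Y T₁ T₂ hY hc h1 _ ht1 _ _ _
  exfalso
  obtain ⟨_, hs, _⟩ := ht V Y T₁ hY ht1
  have h2 := (hz V T₁ h1.1).2.1 h1.2.1
  have h3 := Finset.card_le_card hs
  omega

theorem step (ht : S_tcons) (hA : S_uqA) (hB : S_uqB) (V : Type) [Fintype V] [DecidableEq V]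
    (n : ℕ) (hS : SDn V (n + 1)) (hU : UQn V n) : UQn V (n + 1) := by
  intro Y T₁ T₂ hY hc h1 h2 ht1 ht2 hne hrk
  obtain ⟨_, hs1, _⟩ := ht V Y T₁ hY ht1
  obtain ⟨_, hs2, _⟩ := ht V Y T₂ hY ht2
  by_cases hw : ∃ w ∈ supp Y, w ∉ supp T₁ ∪ supp T₂
  · obtain ⟨w, hw1, hw2⟩ := hw
    exact hA V n Y T₁ T₂ w hU hY hc h1 h2 ht1 ht2 hne hrk hw1 hw2
  · push Not at hw
    have he : supp Y = supp T₁ ∪ supp T₂ := by
      apply Finset.Subset.antisymm
      · intro w hwY
        exact hw w hwY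
      · exact Finset.union_subset hs1 hs2
    exact hB V n Y T₁ T₂ hS hU hY hc h1 h2 ht1 ht2 hne hrk he

end Aux_uq

theorem p_uq : S_zero → S_tcons → S_uqA → S_uqB → S_uq := by
  intro hz ht hA hB V _ _ n
  induction n with
  | zero => intro _; exact Aux_uq.base hz ht V
  | succ n ih =>
    intro hS
    have hS' : SDn V n := fun G hG hc => hS G hG (by omega)
    exact Aux_uq.step ht hA hB V n hS (ih hS')

end Pool.Agent.W390.SD
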