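import Pool.Agent.W390.SD.Stm2

set_option autoImplicit false

namespace Pool.Agent.W390.SD

open MvPolynomial Finset

namespace Aux_uqA

theorem row_zero {V : Type} [Fintype V] [DecidableEq V] {A : Gr V} {w : V} (hw : w ∉ supp A)
    (u : V) : A w u = 0 := by
  by_contra h
  apply hw
  unfold supp
  rw [mem_filter]
  exact ⟨mem_univ _, u, by unfold nbr; rw [mem_filter]; exact ⟨mem_univ _, h⟩⟩

theorem mem_nbr {V : Type} [Fintype V] {A : Gr V} {w u : V} : u ∈ nbr A w ↔ A w u ≠ 0 := by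
  classical
  unfold nbr
  rw [mem_filter]
  exact ⟨fun h => h.2, fun h => ⟨mem_univ _, h⟩⟩

theorem mem_supp {V : Type} [Fintype V] {A : Gr V} {w : V} : w ∈ supp A ↔ (nbr A w).Nonempty := by
  classical
  unfold supp
  rw [mem_filter]
  exact ⟨fun h => h.2, fun h => ⟨mem_univ _, h⟩⟩

end Aux_uqA

open Aux_uqA

theorem p_uqA : S_tcons → S_oiff → S_ctr → S_ctrnu → S_ctrt → S_cnt → S_basis → S_rk → S_rkm →
    S_add → S_deg → S_zero → S_uqA := by
  intro _ _ hctr hctrnu hctrt hcnt hbasis hrk hrkm hadd _ _ V _ _ n Y T₁ T₂ w hUQ hY hcard hI1 hI2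
    hT1 hT2 hne hrk3 hwY hwB
  classical
  have hE1 : IsEv T₁ := hI1.1
  have hE2 : IsEv T₂ := hI2.1
  have hw1 : w ∉ supp T₁ := fun h => hwB (mem_union_left _ h)
  have hw2 : w ∉ supp T₂ := fun h => hwB (mem_union_right _ h)
  set B : Finset V := supp T₁ ∪ supp T₂ with hB
  -- choice of `J`
  obtain ⟨hb1, -, -, hb4, -, -, hb7, -⟩ := hbasis V Y hY
  obtain ⟨J₀, hwJ₀, hJ₀B, hJ₀c, hJ₀ne⟩ := hb4 Bᶜ {w} (by
    intro x hx
    rw [mem_singleton] at hx
    rw [hx, mem_compl]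
    exact hwB) (hb7 w hwY)
  obtain ⟨J, hJ₀J, -, hJc, hJne⟩ := hb4 univ J₀ (subset_univ _) hJ₀ne
  rw [hb1] at hJc
  have hwJ : w ∈ J := hJ₀J (hwJ₀ (mem_singleton_self w))
  have hBJ : 3 ≤ (B \ J).card := by
    have h1 := hrk V Y B hY
    have h2 : (J ∩ B).card + (B \ J).card = B.card := by
      rw [inter_comm]
      exact card_inter_add_card_sdiff B J
    have h3 : (J ∩ B).card + (J \ B).card = J.card := card_inter_add_card_sdiff J B
    have h4 : J₀.card ≤ (J \ B).card := by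
      apply card_le_card
      intro x hx
      rw [mem_sdiff]
      exact ⟨hJ₀J hx, mem_compl.1 (hJ₀B hx)⟩
    omega
  -- a good neighbour gives orthogonality after contraction
  have key : ∀ w' ∈ nbr Y w, sg w w' (PJ Y J) ≠ 0 →
      nu (ctr w w' Y) + 1 = nu Y ∧
      nu (ctr w w' Y) = nu T₁ + nu T₂ + nu (ctr w w' Y + T₁ + T₂) := by
    intro w' hw' hs
    have hYw : Y w w' ≠ 0 := mem_nbr.1 hw'
    have hww' : w ≠ w' := by
      rintro rfl
      exact hYw (hY.diag w)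
    obtain ⟨-, -, -, hc4, hc5, -⟩ := hctrnu V Y w w' hY hww'
    have hgood : good Y w w' := hc5 J hwJ hYw hJc hs
    have hPJ' : PJ (ctr w w' Y) (J.erase w) ≠ 0 := hc4 J hwJ hYw hs
    have hnu : nu (ctr w w' Y) + 1 = nu Y := hgood.2
    have hw'Y : w' ∈ supp Y := by
      rw [mem_supp]
      exact ⟨w, mem_nbr.2 (by rw [hY.symm]; exact hYw)⟩
    obtain ⟨hYe, -, -, -, -, hsupp, -⟩ := hctr V Y T₁ w w' hww' hY hE1
    have hc1 : ctr w w' T₁ = T₁ := (hctr V T₁ T₁ w w' hww' hE1 hE1).2.2.1 hw1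
    have hc2 : ctr w w' T₂ = T₂ := (hctr V T₂ T₂ w w' hww' hE2 hE2).2.2.1 hw2
    have ht1 : Tight T₁ (ctr w w' Y) := by
      have := (hctrt V Y T₁ w w' hY hT1 hgood).1
      rwa [hc1] at this
    have ht2 : Tight T₂ (ctr w w' Y) := by
      have := (hctrt V Y T₂ w w' hY hT2 hgood).1
      rwa [hc2] at this
    have hcard' : (supp (ctr w w' Y)).card ≤ n := by
      have h1 := card_le_card (hsupp hw'Y)
      rw [card_erase_of_mem hwY] at h1
      omega
    have hrk' : 3 ≤ rk (ctr w w' Y) B := by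
      obtain ⟨-, -, -, -, -, -, hr7, -⟩ := hrkm V (ctr w w' Y) T₁ hYe hE1
      have h1 := hr7 B (J.erase w) (by rw [card_erase_of_mem hwJ]; omega) hPJ'
      have h2 : (B \ J).card ≤ (B \ J.erase w).card := by
        apply card_le_card
        exact sdiff_subset_sdiff (subset_refl _) (erase_subset _ _)
      omega
    exact ⟨hnu, hUQ (ctr w w' Y) T₁ T₂ hYe hcard' hI1 hI2 ht1 ht2 hne hrk'⟩
  -- the graph `X`
  by_contra hno
  set X : Gr V := Y + T₁ + T₂ with hX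
  have hA1 := hadd V Y T₁
  have hA2 := hadd V (Y + T₁) T₂
  have hXe : IsEv X := hA2.2.1 (hA1.2.1 hY hE1) hE2
  have hself : ∀ A : Gr V, A + A = 0 := fun A => (hadd V A A).2.2.1
  have hYX : Y = (X + T₂) + T₁ := by
    rw [hX]
    calc Y = Y + (T₁ + T₁) + (T₂ + T₂) := by rw [hself, hself, add_zero, add_zero]
      _ = (Y + T₁ + T₂ + T₂) + T₁ := by abel
  have hsub : nu Y ≤ nu X + nu T₂ + nu T₁ := by
    have h1 : nu ((X + T₂) + T₁) ≤ nu (X + T₂) + nu T₁ := (hadd V (X + T₂) T₁).2.2.2.2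
    have h2 : nu (X + T₂) ≤ nu X + nu T₂ := (hadd V X T₂).2.2.2.2
    rw [← hYX] at h1
    omega
  have hlt : nu Y < nu X + nu T₂ + nu T₁ := by
    rcases lt_or_eq_of_le hsub with h | h
    · exact h
    · exact absurd (show nu Y = nu T₁ + nu T₂ + nu (Y + T₁ + T₂) by rw [← hX]; omega) hno
  have hrow : ∀ u, X w u = Y w u := by
    intro u
    rw [hX]
    show Y w u + T₁ w u + T₂ w u = Y w u
    rw [row_zero hw1, row_zero hw2, add_zero, add_zero]
  have hnbr : nbr X w = nbr Y w := by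
    ext u
    rw [mem_nbr, mem_nbr, hrow]
  have hwX : w ∈ supp X := by
    rw [mem_supp, hnbr, ← mem_supp]
    exact hwY
  obtain ⟨hx1, -, -, hx4, -, -, hx7, -⟩ := hbasis V X hXe
  obtain ⟨JX, hwJX, -, hJXc, hJXne⟩ := hx4 univ {w} (subset_univ _) (hx7 w hwX)
  rw [hx1] at hJXc
  have hwJX' : w ∈ JX := hwJX (mem_singleton_self w)
  -- all nonzeros for `Y` are zeros for `X`
  have hz : ∀ w' ∈ nbr Y w, sg w w' (PJ Y J) ≠ 0 → sg w w' (PJ X JX) = 0 := by
    intro w' hw' hs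
    by_contra hsX
    obtain ⟨h1, h2⟩ := key w' hw' hs
    have hXw : X w w' ≠ 0 := by rw [hrow]; exact mem_nbr.1 hw'
    have hww' : w ≠ w' := by
      rintro rfl
      exact hXw (hXe.diag w)
    have hgX : good X w w' := (hctrnu V X w w' hXe hww').2.2.2.2.1 JX hwJX' hXw hJXc hsX
    have hc1 : ctr w w' T₁ = T₁ := (hctr V T₁ T₁ w w' hww' hE1 hE1).2.2.1 hw1
    have hc2 : ctr w w' T₂ = T₂ := (hctr V T₂ T₂ w w' hww' hE2 hE2).2.2.1 hw2
    have hcX : ctr w w' X = ctr w w' Y + T₁ + T₂ := by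
      rw [hX, (hctr V (Y + T₁) T₂ w w' hww' (hA1.2.1 hY hE1) hE2).2.1,
        (hctr V Y T₁ w w' hww' hY hE1).2.1, hc1, hc2]
    have h3 : nu (ctr w w' X) + 1 = nu X := hgX.2
    rw [hcX] at h3
    omega
  have hcY := hcnt V Y J w hY hwJ hJne ((nbr Y w).filter (fun w' => sg w w' (PJ Y J) = 0))
    (filter_subset _ _) (fun w' hw' => (mem_filter.1 hw').2)
  have hcX := hcnt V X JX w hXe hwJX' hJXne
    ((nbr Y w).filter (fun w' => ¬ sg w w' (PJ Y J) = 0))
    (by rw [hnbr]; exact filter_subset _ _)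
    (fun w' hw' => hz w' (mem_filter.1 hw').1 (mem_filter.1 hw').2)
  rw [hnbr] at hcX
  have hsum := card_filter_add_card_filter_not (s := nbr Y w)
    (fun w' => sg w w' (PJ Y J) = 0)
  omega

end Pool.Agent.W390.SD
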