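import Pool.Agent.W390.SD.Stm2
import Pool.Agent.W390.SD.P.tri
import Pool.Agent.W390.SD.P.zero
import Pool.Agent.W390.SD.P.ctr
import Pool.Agent.W390.SD.P.tcons

/-!
# Project SD: uniqueness, the case `supp Y = supp T₁ ∪ supp T₂`
-/

namespace Pool.Agent.W390.SD

open MvPolynomial Finset

namespace Aux_uqB

variable {V : Type} [Fintype V] [DecidableEq V]

theorem z2 (a : ZMod 2) : a + a = 0 := CharTwo.add_self_eq_zero a

omit [DecidableEq V] in
theorem mem_nbr {A : Gr V} {u v : V} : u ∈ nbr A v ↔ A v u ≠ 0 := by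
  unfold nbr
  simp only [mem_filter, mem_univ, true_and]

/-- choice of `J` -/
theorem exJ (hb : S_basis) (hrk : S_rk) {Y : Gr V} (hY : IsEv Y) {w : V} (hw : w ∈ supp Y)
    (S : Finset V) (hwS : w ∉ S) :
    ∃ J : Finset V, w ∈ J ∧ J.card = nu Y ∧ PJ Y J ≠ 0 ∧ rk Y S ≤ (S \ J).card := by
  obtain ⟨b1, b2, b3, b4, b5, b6, b7, b8⟩ := hb V Y hY
  obtain ⟨J₁, h1, h2, h3, h4⟩ := b4 Sᶜ {w} (by simpa using hwS) (b7 w hw)
  obtain ⟨J, h5, h6, h7, h8⟩ := b4 univ J₁ (subset_univ _) h4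
  refine ⟨J, h5 (h1 (mem_singleton_self w)), by rw [h7, b1], h8, ?_⟩
  have h0 := hrk V Y S hY
  have hd : Disjoint (S ∩ J) J₁ := by
    rw [Finset.disjoint_left]
    intro v hv hv1
    exact (mem_compl.1 (h2 hv1)) (mem_inter.1 hv).1
  have h9 : (S ∩ J).card + J₁.card ≤ J.card := by
    rw [← card_union_of_disjoint hd]
    exact card_le_card (union_subset inter_subset_right h5)
  have h10 : (S \ J).card + (S ∩ J).card = S.card := card_sdiff_add_card_inter S J
  rw [h7, b1] at h9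
  omega

/-- use of U7 and U8 -/
theorem use (hctrnu : S_ctrnu) (h1 : S_uqB1) (h2 : S_uqB2) {n : ℕ} {Y T₁ T₂ : Gr V}
    (hSD : SDn V (n + 1)) (hU : UQn V n) (hY : IsEv Y) (hn : (supp Y).card ≤ n + 1)
    (hT1 : Indec T₁) (hT2 : Indec T₂) (ht1 : Tight T₁ Y) (ht2 : Tight T₂ Y) (hne : T₁ ≠ T₂)
    (hs : supp Y = supp T₁ ∪ supp T₂) (hr : 3 ≤ rk Y (supp Y)) {w : V} {J : Finset V}
    (hw1 : w ∈ supp T₁) (hw2 : w ∉ supp T₂) (hwJ : w ∈ J) (hJ : J.card = nu Y)
    (hPJ : PJ Y J ≠ 0)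
    (hrk : ∀ w', w ≠ w' → w' ∈ supp Y → Y w w' ≠ 0 → good Y w w' →
      PJ (ctr w w' Y) (J.erase w) ≠ 0 → ∀ P, Indec P → Tight P (ctr w w' T₁) →
      3 ≤ rk (ctr w w' Y) (supp P ∪ supp T₂)) : Orth T₁ T₂ Y := by
  refine h1 V n Y T₁ T₂ w J hU hY hn hT1 hT2 ht1 ht2 hw1 hw2 hwJ hJ hPJ ?_
  intro w' hw' hsg P hP hPt
  have hww : Y w w' ≠ 0 := mem_nbr.1 hw'
  have hne' : w ≠ w' := by
    rintro rfl
    exact hww (hY.diag w)
  obtain ⟨-, -, -, c4, c5, -⟩ := hctrnu V Y w w' hY hne'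
  have hg : good Y w w' := c5 J hwJ hww hJ hsg
  have hs' : w' ∈ supp Y := (Aux_ctr.mem_supp Y w').2 ⟨w, by rw [hY.symm]; exact hww⟩
  refine ⟨?_, hrk w' hne' hs' hww hg (c4 J hwJ hww hsg) P hP hPt⟩
  exact h2 V Y T₁ T₂ P w w' (fun G hG hc => hSD G hG (hc.trans hn)) hY hT1 hT2 ht1 ht2 hne hs hr
    hw1 hw2 hg hP hPt

/-- the case (3a) -/
theorem caseA (hb : S_basis) (hrk : S_rk) (hrkm : S_rkm) (hctr : S_ctr)
    (hctrnu : S_ctrnu) (h1 : S_uqB1) (h2 : S_uqB2) {n : ℕ} {Y T₁ T₂ : Gr V}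
    (hSD : SDn V (n + 1)) (hU : UQn V n) (hY : IsEv Y) (hn : (supp Y).card ≤ n + 1)
    (hT1 : Indec T₁) (hT2 : Indec T₂) (ht1 : Tight T₁ Y) (ht2 : Tight T₂ Y) (hne : T₁ ≠ T₂)
    (hs : supp Y = supp T₁ ∪ supp T₂) (hr : 3 ≤ rk Y (supp Y)) {w : V}
    (hw1 : w ∈ supp T₁) (hw2 : w ∉ supp T₂) (hr2 : 3 ≤ rk Y (supp T₂)) : Orth T₁ T₂ Y := by
  have hwY : w ∈ supp Y := by rw [hs]; exact mem_union_left _ hw1
  obtain ⟨J, j1, j2, j3, j4⟩ := exJ hb hrk hY hwY (supp T₂) hw2
  refine use hctrnu h1 h2 hSD hU hY hn hT1 hT2 ht1 ht2 hne hs hr hw1 hw2 j1 j2 j3 ?_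
  intro w' hne' hw'Y hww hg hPJ P hP hPt
  have hYc : IsEv (ctr w w' Y) := (hctr V Y Y w w' hne' hY hY).1
  obtain ⟨r1, r2, r3, r4, r5, r6, r7, r8⟩ := hrkm V (ctr w w' Y) (ctr w w' Y) hYc hYc
  have hc : (J.erase w).card = nu (ctr w w' Y) := by
    rw [card_erase_of_mem j1, j2]
    have := hg.2
    omega
  have h3 := r7 (supp T₂) (J.erase w) hc hPJ
  have h4 : (supp T₂ \ J).card ≤ (supp T₂ \ J.erase w).card :=
    card_le_card (sdiff_subset_sdiff (Finset.Subset.refl _) (erase_subset w J))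
  have h5 := r2 (supp T₂) (supp P ∪ supp T₂) subset_union_right
  omega

omit [Fintype V] in
/-- `ctr w' w` versus `ctr w w'` -/
theorem ctr_swap (A : Gr V) {w w' : V} (hne : w ≠ w') : ctr w' w A = sw w w' (ctr w w' A) := by
  funext u v
  unfold sw
  rcases eq_or_ne u w with hu | hu
  · rcases eq_or_ne v w with hv | hv
    · subst hu; subst hv
      unfold ctr
      simp
    · rcases eq_or_ne v w' with hv' | hv'
      · subst hu; subst hv'
        unfold ctr
        simp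
      · subst hu
        rw [Equiv.swap_apply_left, Equiv.swap_apply_of_ne_of_ne hv hv']
        unfold ctr
        simp [hne, hne.symm, hv, hv', hv.symm, hv'.symm, add_comm]
  · rcases eq_or_ne u w' with hu' | hu'
    · subst hu'
      rw [Equiv.swap_apply_right]
      unfold ctr
      simp
    · rcases eq_or_ne v w with hv | hv
      · subst hv
        rw [Equiv.swap_apply_left, Equiv.swap_apply_of_ne_of_ne hu hu']
        unfold ctr
        simp [hne, hne.symm, hu, hu', add_comm]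
      · rcases eq_or_ne v w' with hv' | hv'
        · subst hv'
          rw [Equiv.swap_apply_right]
          unfold ctr
          simp
        · rw [Equiv.swap_apply_of_ne_of_ne hu hu', Equiv.swap_apply_of_ne_of_ne hv hv']
          unfold ctr
          simp [hu, hu', hv, hv']

/-- rank of `U - w` after the contraction -/
theorem rk_erase (hrkm : S_rkm) (hctr : S_ctr) {Y : Gr V} (hY : IsEv Y) {w w' : V}
    (hne : w ≠ w') (hw : w ∈ supp Y) (hw' : w' ∈ supp Y) (hg : good Y w w') :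
    rk (ctr w w' Y) ((supp Y).erase w) = rk Y (supp Y) := by
  obtain ⟨c1, -, -, -, -, c6, -⟩ := hctr V Y Y w w' hne hY hY
  have h1 := (hrkm V Y Y hY hY).2.2.2.2.2.1 (supp Y) (Finset.Subset.refl _)
  have h2 := (hrkm V _ _ c1 c1).2.2.2.2.2.1 ((supp Y).erase w) (c6 hw')
  rw [card_erase_of_mem hw] at h2
  have h3 := hg.2
  have h4 : 0 < (supp Y).card := card_pos.2 ⟨w, hw⟩
  omega

/-- the case (3b) -/
theorem caseB (hb : S_basis) (hrk : S_rk) (hrkm : S_rkm) (hzero : S_zero) (htc : S_tcons)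
    (hctr : S_ctr) (hctrnu : S_ctrnu) (hsw : S_sw) (h1 : S_uqB1) (h2 : S_uqB2) {n : ℕ}
    {Y T₁ T₂ : Gr V}
    (hSD : SDn V (n + 1)) (hU : UQn V n) (hY : IsEv Y) (hn : (supp Y).card ≤ n + 1)
    (hT1 : Indec T₁) (hT2 : Indec T₂) (ht1 : Tight T₁ Y) (ht2 : Tight T₂ Y) (hne : T₁ ≠ T₂)
    (hs : supp Y = supp T₁ ∪ supp T₂) (hr : 3 ≤ rk Y (supp Y)) {w : V}
    (hw1 : w ∈ supp T₁) (hw2 : w ∉ supp T₂) (hr1 : rk Y (supp T₁) ≤ 2) : Orth T₁ T₂ Y := by
  have hwY : w ∈ supp Y := by rw [hs]; exact mem_union_left _ hw1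
  obtain ⟨J, j1, j2, j3, -⟩ := exJ hb hrk hY hwY ∅ (notMem_empty w)
  refine use hctrnu h1 h2 hSD hU hY hn hT1 hT2 ht1 ht2 hne hs hr hw1 hw2 j1 j2 j3 ?_
  intro w' hne' hw'Y hww hg hPJ P hP hPt
  have hYc : IsEv (ctr w w' Y) := (hctr V Y Y w w' hne' hY hY).1
  obtain ⟨r1, r2, r3, r4, r5, r6, r7, r8⟩ := hrkm V (ctr w w' Y) (ctr w w' Y) hYc hYc
  have hE := rk_erase hrkm hctr hY hne' hwY hw'Y hg
  obtain ⟨t1, -, -, -, t5, -⟩ := hctr V T₁ T₁ w w' hne' hT1.1 hT1.1
  have hPs : supp P ⊆ insert w' ((supp T₁).erase w) := (htc V _ P t1 hPt).2.1.trans t5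
  -- the rank of `S₁ / w w'`
  have hC : rk (ctr w w' Y) (insert w' ((supp T₁).erase w)) ≤ 2 := by
    by_cases hm : w' ∈ supp T₁
    · have e : insert w' ((supp T₁).erase w) = (supp T₁).erase w :=
        insert_eq_of_mem (mem_erase.2 ⟨hne'.symm, hm⟩)
      rw [e]
      refine ((hctrnu V Y w w' hY hne').2.2.2.2.2 hg _ (notMem_erase w _)).trans ?_
      exact ((hrkm V Y Y hY hY).2.1 _ _ (erase_subset w _)).trans hr1
    · obtain ⟨-, s2, -, -, -, -, -, s8⟩ := hsw V w w' (ctr w w' Y) (ctr w w' Y)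
      have e1 := ctr_swap Y hne'
      have e2 : (insert w' ((supp T₁).erase w)).image (Equiv.swap w w') = supp T₁ := by
        ext v
        simp only [mem_image, mem_insert, mem_erase]
        constructor
        · rintro ⟨a, ha | ⟨ha1, ha2⟩, rfl⟩
          · rw [ha, Equiv.swap_apply_right]; exact hw1
          · rw [Equiv.swap_apply_of_ne_of_ne ha1 (fun h => hm (by rw [← h]; exact ha2))]; exact ha2
        · intro hv
          by_cases hvw : v = w
          · exact ⟨w', Or.inl rfl, by rw [hvw, Equiv.swap_apply_right]⟩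
          · refine ⟨v, Or.inr ⟨hvw, hv⟩, ?_⟩
            exact Equiv.swap_apply_of_ne_of_ne hvw (fun h => hm (by rw [← h]; exact hv))
      have e3 := s8 (insert w' ((supp T₁).erase w))
      rw [e2, ← e1] at e3
      rw [← e3]
      have hg' : good Y w' w := by
        refine ⟨by rw [hY.symm]; exact hww, ?_⟩
        rw [e1, s2]
        exact hg.2
      exact ((hctrnu V Y w' w hY hne'.symm).2.2.2.2.2 hg' _ hm).trans hr1
  have hP2 : 2 ≤ (supp P).card := by
    have := (hzero V P hP.1).2.1 hP.2.1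
    omega
  have hP3 := r1 (supp P) hP2
  have hsub := r5 (insert w' ((supp T₁).erase w)) (supp P ∪ supp T₂)
  have m1 : rk (ctr w w' Y) ((supp Y).erase w) ≤
      rk (ctr w w' Y) (insert w' ((supp T₁).erase w) ∪ (supp P ∪ supp T₂)) := by
    refine r2 _ _ fun v hv => ?_
    rw [mem_erase, hs, mem_union] at hv
    rcases hv with ⟨h3, h4 | h4⟩
    · exact mem_union_left _ (mem_insert_of_mem (mem_erase.2 ⟨h3, h4⟩))
    · exact mem_union_right _ (mem_union_right _ h4)
  have m2 : rk (ctr w w' Y) (supp P) ≤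
      rk (ctr w w' Y) (insert w' ((supp T₁).erase w) ∩ (supp P ∪ supp T₂)) :=
    r2 _ _ fun v hv => mem_inter.2 ⟨hPs hv, mem_union_left _ hv⟩
  omega

/-- a basic tight part with full support -/
theorem full (hadd : S_add) (hzero : S_zero) (hrkm : S_rkm) (hclique : S_clique) {Y T : Gr V}
    (hY : IsEv Y) (hT : Indec T) (ht : Tight T Y) (hs : supp T = supp Y) (hr : 3 ≤ rk Y (supp Y))
    (hB : Basic T) : Y = T ∨ (Odd (supp Y).card ∧ 3 ≤ (supp Y).card ∧ T = K (supp Y)) := by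
  rcases hB with ⟨S, s1, s2, s3⟩ | h
  · right
    have h1 : supp (K S) = S := (hclique V S s1).2.1 s2
    rw [s3, h1] at hs
    rw [← hs]
    exact ⟨s1, s2, s3⟩
  · left
    have h1 := (hrkm V Y Y hY hY).2.2.2.2.2.1 (supp Y) (Finset.Subset.refl _)
    have h2 := ht.2
    rw [hs] at h
    have h3 : nu (Y + T) = 0 := by omega
    have h4 : Y + T = 0 := (hzero V _ ((hadd V Y T).2.1 hY hT.1)).1.1 h3
    have h5 : T + T = 0 := (hadd V T T).2.2.1
    calc Y = Y + (T + T) := by rw [h5, add_zero]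
      _ = T := by rw [← add_assoc, h4, zero_add]

/-- the supports are different -/
theorem caseD (hadd : S_add) (hzero : S_zero) (hrkm : S_rkm) (hclique : S_clique)
    {Y T₁ T₂ : Gr V} (hY : IsEv Y)
    (hT1 : Indec T₁) (hT2 : Indec T₂) (ht1 : Tight T₁ Y) (ht2 : Tight T₂ Y) (hne : T₁ ≠ T₂)
    (hs1 : supp T₁ = supp Y) (hs2 : supp T₂ = supp Y) (hr : 3 ≤ rk Y (supp Y))
    (hB1 : Basic T₁) (hB2 : Basic T₂) : False := by
  rcases full hadd hzero hrkm hclique hY hT1 ht1 hs1 hr hB1 with h | ⟨-, -, h⟩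
  · rw [h] at ht2
    rcases hT1.2.2 T₂ ht2 with h' | h'
    · exact hT2.2.1 h'
    · exact hne h'.symm
  · rcases full hadd hzero hrkm hclique hY hT2 ht2 hs2 hr hB2 with h' | ⟨-, -, h'⟩
    · rw [h'] at ht1
      rcases hT2.2.2 T₁ ht1 with h'' | h''
      · exact hT1.2.1 h''
      · exact hne h''
    · exact hne (h.trans h'.symm)

/-- affine functions -/
theorem affine {A : Gr V} (h1 : (Lap A).mulVec (fun _ => 1) = 0)
    (hx : (Lap A).mulVec xF = 0) {S : Finset V} (hS : 2 ≤ S.card) (hr : rk A S ≤ 2) (f : V → F V)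
    (hf : (Lap A).mulVec f = 0) : ∃ a b : F V, ∀ v ∈ S, f v = a + b * xF v := by
  obtain ⟨p, hp, q, hq, hpq⟩ := Finset.one_lt_card.1 hS
  have h2 : (2 : F V) = 0 := Aux_tri.two_F
  set T := LinearMap.funLeft (F V) (F V) (fun b : S => (b : V)) with hT
  set M := Submodule.map T (LinearMap.ker (Lap A).mulVecLin) with hM
  have mem : ∀ g : V → F V, (Lap A).mulVec g = 0 → T g ∈ M := by
    intro g hg
    exact Submodule.mem_map_of_mem (by simpa using hg)
  let pp : S := ⟨p, hp⟩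
  let qq : S := ⟨q, hq⟩
  have hli : LinearIndependent (F V) ![T (fun _ => 1), T xF] := by
    rw [LinearIndependent.pair_iff]
    intro a b hab
    have e1 := congrFun hab pp
    have e2 := congrFun hab qq
    have e1' : a * 1 + b * xF p = 0 := e1
    have e2' : a * 1 + b * xF q = 0 := e2
    have e3 : b * (xF p + xF q) = 0 := by
      linear_combination e1' - e2' + b * xF q * h2
    have hb : b = 0 := (mul_eq_zero.1 e3).resolve_right (Aux_tri.xF_ne hpq)
    rw [hb, zero_mul, add_zero, mul_one] at e1'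
    exact ⟨e1', hb⟩
  have hfin : Module.finrank (F V)
      (Submodule.span (F V) (Set.range ![T (fun _ => 1), T xF])) = 2 := by
    rw [finrank_span_eq_card hli]; simp
  have hle : Submodule.span (F V) (Set.range ![T (fun _ => 1), T xF]) ≤ M := by
    rw [Submodule.span_le]
    rintro y ⟨i, rfl⟩
    fin_cases i
    · exact mem _ h1
    · exact mem _ hx
  have heq : Submodule.span (F V) (Set.range ![T (fun _ => 1), T xF]) = M := by
    refine Submodule.eq_of_le_of_finrank_le hle ?_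
    rw [hfin]
    exact hr
  have hfm : T f ∈ Submodule.span (F V) (Set.range ![T (fun _ => 1), T xF]) := by
    rw [heq]; exact mem f hf
  rw [Matrix.range_cons, Matrix.range_cons, Matrix.range_empty, Set.union_empty,
    Set.singleton_union, Submodule.mem_span_pair] at hfm
  obtain ⟨a, b, hab⟩ := hfm
  refine ⟨a, b, fun v hv => ?_⟩
  have e := congrFun hab ⟨v, hv⟩
  have e' : a * 1 + b * xF v = f v := e
  rw [← e', mul_one]

/-- the case (3c), first part -/
theorem caseC1 (hadd : S_add) (hb : S_basis) (hrk : S_rk) (hrkm : S_rkm) (hzero : S_zero)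
    (hclique : S_clique) (hclind : S_clind)
    (hctr : S_ctr) (hctrK : S_ctrK) (hctrnu : S_ctrnu) (htwin : S_twin)
    (h1 : S_uqB1) (h2 : S_uqB2) {n : ℕ}
    {Y T₂ : Gr V}
    (hSD : SDn V (n + 1)) (hU : UQn V n) (hY : IsEv Y) (hn : (supp Y).card ≤ n + 1)
    (hodd : Odd (supp Y).card) (h3 : 3 ≤ (supp Y).card) (hT2 : Indec T₂)
    (ht1 : Tight (K (supp Y)) Y) (ht2 : Tight T₂ Y) (hne : K (supp Y) ≠ T₂)
    (hs : supp T₂ ⊆ supp Y) (hr : 3 ≤ rk Y (supp Y)) {w : V}
    (hw1 : w ∈ supp (Y + K (supp Y))) (hw2 : w ∉ supp T₂) (hwY : w ∈ supp Y) :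
    Orth (K (supp Y)) T₂ Y := by
  obtain ⟨k1, k2, k3, -⟩ := hclique V (supp Y) hodd
  have hK := k2 h3
  obtain ⟨J, j1, j2, j3, -⟩ := exJ hb hrk hY hwY ∅ (notMem_empty w)
  refine use hctrnu h1 h2 hSD hU hY hn (hclind V _ hodd h3) hT2 ht1 ht2 hne
    (by rw [hK]; exact (union_eq_left.2 hs).symm) hr (by rw [hK]; exact hwY) hw2 j1 j2 j3 ?_
  intro w' hne' hw'Y hww hg hPJ P hP hPt
  have hYc : IsEv (ctr w w' Y) := (hctr V Y Y w w' hne' hY hY).1
  obtain ⟨r1, r2, r3, r4, r5, r6, r7, r8⟩ := hrkm V (ctr w w' Y) (ctr w w' Y) hYc hYc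
  have hE := rk_erase hrkm hctr hY hne' hwY hw'Y hg
  set U' : Finset V := ((supp Y).erase w).erase w' with hU'
  have hw'e : w' ∈ (supp Y).erase w := mem_erase.2 ⟨hne'.symm, hw'Y⟩
  have cU1 : ((supp Y).erase w).card = (supp Y).card - 1 := card_erase_of_mem hwY
  have cU : U'.card = (supp Y).card - 2 := by
    rw [hU', card_erase_of_mem hw'e, cU1]
    omega
  have hctrK' : ctr w w' (K (supp Y)) = K U' := (hctrK V (supp Y) w w' hodd hwY hne').1 hw'Y
  have hoddU : Odd U'.card := by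
    rw [cU]
    obtain ⟨k, hk⟩ := hodd
    exact ⟨k - 1, by omega⟩
  obtain ⟨l1, l2, l3, l4⟩ := hclique V U' hoddU
  rw [hctrK'] at hPt
  have hP' : P = K U' ∧ 3 ≤ U'.card := by
    by_cases hc : 3 ≤ U'.card
    · rcases (hclind V U' hoddU hc).2.2 P hPt with h | h
      · exact absurd h hP.2.1
      · exact ⟨h, hc⟩
    · exfalso
      have hc1 : U'.card = 1 := by
        obtain ⟨k, hk⟩ := hoddU
        omega
      have h0 := l4 hc1
      have h5 := hPt.2
      rw [h0] at h5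
      have hz0 : IsEv (0 : Gr V) := by rw [← h0]; exact l1
      have h6 : nu (0 : Gr V) = 0 := (hzero V 0 hz0).1.2 rfl
      have h7 : nu P = 0 := by omega
      exact hP.2.1 ((hzero V P hP.1).1.1 h7)
  have hPs : supp P = U' := by rw [hP'.1]; exact l2 hP'.2
  rw [hPs]
  have hins : insert w' U' = (supp Y).erase w := insert_erase hw'e
  by_cases hw'2 : w' ∈ supp T₂
  · have m1 : rk (ctr w w' Y) ((supp Y).erase w) ≤ rk (ctr w w' Y) (U' ∪ supp T₂) := by
      refine r2 _ _ fun v hv => ?_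
      rw [← hins, mem_insert] at hv
      rcases hv with rfl | hv
      · exact mem_union_right _ hw'2
      · exact mem_union_left _ hv
    omega
  · have m1 : rk (ctr w w' Y) U' ≤ rk (ctr w w' Y) (U' ∪ supp T₂) := r2 _ _ subset_union_left
    have m2 := r4 U' w'
    rw [hins] at m2
    by_contra hcon
    have q1 : rk (ctr w w' Y) U' = 2 ∧ rk Y (supp Y) = 3 := by omega
    have q2 := hrk V (ctr w w' Y) U' hYc
    have q3 := (hrkm V Y Y hY hY).2.2.2.2.2.1 (supp Y) (Finset.Subset.refl _)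
    have q4 := hg.2
    have q5 : nuC (ctr w w' Y) U'ᶜ = 0 := by omega
    obtain ⟨b1, b2, b3, b4, b5, b6, b7, b8⟩ := hb V (ctr w w' Y) hYc
    have q6 : w' ∉ supp (ctr w w' Y) := by
      intro h
      have h5 := b5 U'ᶜ {w'} (by
        rw [singleton_subset_iff, mem_compl, hU']
        exact notMem_erase w' _) (b7 w' h)
      rw [card_singleton, q5] at h5
      omega
    have q7 : ∀ v, v ≠ w → v ≠ w' → Y w v = Y w' v := by
      intro v hv hv'
      have h5 : ctr w w' Y w' v = 0 := Aux_ctr.zero_of_not_mem _ _ q6 v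
      unfold ctr at h5
      simp only [hne'.symm, hv, Ne.symm hv', or_self, if_false, if_true] at h5
      have h6 := z2 (Y w v)
      calc Y w v = Y w v + (Y w' v + Y w v) := by rw [h5, add_zero]
        _ = Y w' v + (Y w v + Y w v) := by ring
        _ = Y w' v := by rw [h6, add_zero]
    set Y₁ := Y + K (supp Y) with hY1
    have hY1e : IsEv Y₁ := (hadd V Y _).2.1 hY k1
    have e1 : ∀ a b : V, Y₁ a b = Y a b + K (supp Y) a b := fun _ _ => rfl
    have hY01 : ∀ a : ZMod 2, a ≠ 0 → a = 1 := by decide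
    have z1 : Y₁ w w' = 0 := by
      rw [e1, hY01 _ hww, Aux_tri.K_pos hwY hw'Y hne']
      decide
    have z2' : nbr Y₁ w = nbr Y₁ w' := by
      ext v
      rw [mem_nbr, mem_nbr]
      rcases eq_or_ne v w with rfl | hv
      · rw [hY1e.diag, hY1e.symm w' v, z1]
      · rcases eq_or_ne v w' with rfl | hv'
        · rw [z1, hY1e.diag]
        · rw [e1, e1, q7 v hv hv']
          have h5 : K (supp Y) w v = K (supp Y) w' v := by
            by_cases hvm : v ∈ supp Y
            · rw [Aux_tri.K_pos hwY hvm hv.symm, Aux_tri.K_pos hw'Y hvm hv'.symm]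
            · rw [Aux_tri.K_right hvm, Aux_tri.K_right hvm]
          rw [h5]
    have q8 := htwin V Y₁ w w' hY1e hne' z1 z2' hw1
    have hKK : K (supp Y) + K (supp Y) = 0 := (hadd V (K (supp Y)) (K (supp Y))).2.2.1
    have e2 : Y = K (supp Y) + Y₁ := by
      rw [hY1, add_comm Y, ← add_assoc, hKK, zero_add]
    have e3 : ctr w w' Y = K U' + ctr w w' Y₁ := by
      conv_lhs => rw [e2]
      rw [(hctr V (K (supp Y)) Y₁ w w' hne' k1 hY1e).2.1, hctrK']
    have q9 : nu (ctr w w' Y) ≤ nu (K U') + nu (ctr w w' Y₁) := by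
      rw [e3]
      exact (hadd V (K U') (ctr w w' Y₁)).2.2.2.2
    have q10 := ht1.2
    rw [← hY1] at q10
    omega

/-- the case (3c), second part -/
theorem caseC2 (hadd : S_add) (hrk : S_rk) (hrkm : S_rkm) (hzero : S_zero) (hbas : S_basis)
    (htc : S_tcons) (hoiff : S_oiff) (hclique : S_clique) (hclind : S_clind) (hunif : S_unif)
    (hunifrk : S_unifrk) {Y T₂ : Gr V} (hY : IsEv Y)
    (hodd : Odd (supp Y).card) (h3 : 3 ≤ (supp Y).card) (hT2 : Indec T₂)
    (ht1 : Tight (K (supp Y)) Y) (ht2 : Tight T₂ Y) (hne : K (supp Y) ≠ T₂)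
    (hs : supp T₂ ⊆ supp Y) (hr : 3 ≤ rk Y (supp Y)) (hr2 : rk Y (supp T₂) ≤ 2)
    (hsub : supp (Y + K (supp Y)) ⊆ supp T₂) :
    Orth (K (supp Y)) T₂ Y := by
  obtain ⟨k1, k2, k3, -⟩ := hclique V (supp Y) hodd
  have hK := k2 h3
  have hKi := hclind V _ hodd h3
  set U := supp Y with hU
  set Y₁ := Y + K U with hY1
  have hY1e : IsEv Y₁ := (hadd V Y _).2.1 hY k1
  have hKK : K U + K U = 0 := (hadd V (K U) (K U)).2.2.1
  have e2 : Y = K U + Y₁ := by
    rw [hY1, add_comm Y, ← add_assoc, hKK, zero_add]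
  by_cases h0 : Y₁ = 0
  · exfalso
    rw [h0, add_zero] at e2
    rw [e2] at ht2
    rcases hKi.2.2 T₂ ht2 with h | h
    · exact hT2.2.1 h
    · exact hne h.symm
  -- columns
  have hcol : nuC Y (U \ supp T₂) = nuC (K U) (U \ supp T₂) := by
    have h5 : Lap Y = Lap (K U) + Lap Y₁ := by
      conv_lhs => rw [e2]
      exact (hadd V (K U) Y₁).1
    have h6 : (fun j : V => (Lap Y).col j) '' ((U \ supp T₂ : Finset V) : Set V) =
        (fun j : V => (Lap (K U)).col j) '' ((U \ supp T₂ : Finset V) : Set V) := by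
      refine Set.image_congr fun j hj => ?_
      have hj' : j ∉ supp Y₁ := fun h => (mem_sdiff.1 (mem_coe.1 hj)).2 (hsub h)
      funext u
      change Lap Y u j = Lap (K U) u j
      rw [h5, Matrix.add_apply, Aux_zero.lap_outside Y₁ hY1e j hj' u, add_zero]
    unfold nuC
    rw [h6]
  have hmin := (hunifrk V (K U) (hunif V _ hKi)).2 (U \ supp T₂) (by rw [hK]; exact sdiff_subset)
  rw [← hcol] at hmin
  have hmono := (hbas V Y hY).2.1 (U \ supp T₂) (supp T₂)ᶜ (by
    intro v hv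
    exact mem_compl.2 (mem_sdiff.1 hv).2)
  have hrk2 := hrk V Y (supp T₂) hY
  have hrkU := (hrkm V Y Y hY hY).2.2.2.2.2.1 U (Finset.Subset.refl _)
  have hcard : (U \ supp T₂).card + (supp T₂).card = U.card := card_sdiff_add_card_eq_card hs
  have htn := ht1.2
  rw [← hY1] at htn
  have hn1 := (hzero V Y₁ hY1e).2.1 h0
  have hn2 := card_le_card hsub
  have hn3 : nu Y₁ + 2 = (supp T₂).card := by
    rcases le_total (U \ supp T₂).card (nu (K U)) with h | h
    · rw [min_eq_left h] at hmin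
      omega
    · rw [min_eq_right h] at hmin
      omega
  have hn4 := (hrkm V Y₁ Y₁ hY1e hY1e).2.2.2.2.2.1 (supp T₂) hsub
  have hn5 : rk Y₁ (supp T₂) ≤ 2 := by omega
  have hT2s : (Lap T₂).IsSymm := (hadd V T₂ T₂).2.2.2.1 hT2.1
  have hY1s : (Lap Y₁).IsSymm := (hadd V Y₁ Y₁).2.2.2.1 hY1e
  obtain ⟨-, -, o1, o2⟩ := hzero V Y₁ hY1e
  obtain ⟨-, -, p1, p2⟩ := hzero V T₂ hT2.1
  -- the kernel of `Y₁` is contained in the kernel of `T₂`
  have hker : ∀ f, (Lap Y₁).mulVec f = 0 → (Lap T₂).mulVec f = 0 := by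
    intro f hf
    obtain ⟨a, b, hab⟩ := affine o1 o2 (by omega) hn5 f hf
    have h5 : (Lap T₂).mulVec f = (Lap T₂).mulVec (a • (fun _ => (1 : F V)) + b • xF) := by
      funext u
      refine Finset.sum_congr rfl fun v _ => ?_
      by_cases hv : v ∈ supp T₂
      · rw [hab v hv]
        simp only [Pi.add_apply, Pi.smul_apply, smul_eq_mul, mul_one]
      · have h6 := Aux_zero.lap_outside T₂ hT2.1 v hv u
        change Lap T₂ u v * _ = Lap T₂ u v * _
        rw [h6, zero_mul, zero_mul]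
    rw [h5, Matrix.mulVec_add, Matrix.mulVec_smul, Matrix.mulVec_smul, p1, p2, smul_zero,
      smul_zero, add_zero]
  have hrange : ∀ h, ∃ h', (Lap Y₁).mulVec h' = (Lap T₂).mulVec h := by
    intro h
    refine Aux_tri.range_of_orth (Lap Y₁) hY1s _ fun f hf => ?_
    have h5 := Aux_tcons.symm_dot hT2s h f
    rw [hker f hf, dotProduct_zero] at h5
    exact h5
  have htY1 : Tight Y₁ Y := (htc V Y (K U) hY ht1).2.2.2.2.1
  have hO : Orth (K U) Y₁ Y := by
    change nu Y = nu (K U) + nu Y₁ + nu (Y + K U + Y₁)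
    have h5 : Y + K U + Y₁ = 0 := by
      rw [← hY1]
      exact (hadd V Y₁ Y₁).2.2.1
    have h6 : IsEv (0 : Gr V) := by rw [← h5]; exact (hadd V _ _).2.1 hY1e hY1e
    rw [h5, (hzero V 0 h6).1.2 rfl, add_zero]
    exact htn
  rw [hoiff V Y (K U) T₂ hY ht1 ht2]
  intro g h hgh
  obtain ⟨h', hh'⟩ := hrange h
  exact (hoiff V Y (K U) Y₁ hY ht1 htY1).1 hO g h' (hgh.trans hh'.symm)

end Aux_uqB

open Aux_uqB in
theorem p_uqB : S_add → S_basis → S_rk → S_rkm → S_zero → S_tcons → S_tri → S_oiff → S_ocons →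
    S_clique → S_clind → S_small → S_cl → S_ctr → S_ctrK → S_ctrnu → S_ctrt → S_sw → S_twin →
    S_cnt → S_unif → S_unifrk → S_uqB1 → S_uqB2 → S_uqB := by
  intro hadd hbas hrk hrkm hzero htc _ hoiff hoc hclique hclind _ _ hctr hctrK hctrnu _ hsw htwin _
    hunif hunifrk h1 h2 V _ _ n Y
  -- one-sided version
  have main : ∀ T₁ T₂ : Gr V, SDn V (n + 1) → UQn V n → IsEv Y → (supp Y).card ≤ n + 1 →
      Indec T₁ → Indec T₂ → Tight T₁ Y → Tight T₂ Y → T₁ ≠ T₂ → 3 ≤ rk Y (supp Y) →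
      supp Y = supp T₁ ∪ supp T₂ → (∃ w ∈ supp T₁, w ∉ supp T₂) → Orth T₁ T₂ Y := by
    intro T₁ T₂ hSD hU hY hn hT1 hT2 ht1 ht2 hne hr hs hex
    obtain ⟨w, hw1, hw2⟩ := hex
    by_cases c1 : 3 ≤ rk Y (supp T₂)
    · exact caseA hbas hrk hrkm hctr hctrnu h1 h2 hSD hU hY hn hT1 hT2 ht1 ht2 hne hs hr hw1 hw2 c1
    by_cases c2 : 3 ≤ rk Y (supp T₁)
    · by_cases c3 : supp T₂ ⊆ supp T₁
      · have hs1 : supp T₁ = supp Y := by rw [hs]; exact (union_eq_left.2 c3).symm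
        have hB1 : Basic T₁ := hSD T₁ hT1 (by rw [hs1]; exact hn)
        rcases full hadd hzero hrkm hclique hY hT1 ht1 hs1 hr hB1 with h | ⟨s1, s2, s3⟩
        · exfalso
          rw [h] at ht2
          rcases hT1.2.2 T₂ ht2 with h' | h'
          · exact hT2.2.1 h'
          · exact hne h'.symm
        · rw [s3] at ht1 hne ⊢
          rw [hs1] at c3
          by_cases c4 : supp (Y + K (supp Y)) ⊆ supp T₂
          · exact caseC2 hadd hrk hrkm hzero hbas htc hoiff hclique hclind hunif hunifrk hY s1 s2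
              hT2 ht1 ht2 hne c3 hr (by omega) c4
          · rw [Finset.not_subset] at c4
            obtain ⟨v, hv1, hv2⟩ := c4
            have hvY : v ∈ supp Y := (htc V Y _ hY ht1).2.2.2.2.1 |> fun h => (htc V Y _ hY h).2.1 hv1
            exact caseC1 hadd hbas hrk hrkm hzero hclique hclind hctr hctrK hctrnu htwin h1 h2 hSD
              hU hY hn s1 s2 hT2 ht1 ht2 hne c3 hr hv1 hv2 hvY
      · rw [Finset.not_subset] at c3
        obtain ⟨v, hv1, hv2⟩ := c3
        have := caseA hbas hrk hrkm hctr hctrnu h1 h2 hSD hU hY hn hT2 hT1 ht2 ht1 hne.symm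
          (by rw [hs, union_comm]) hr hv1 hv2 c2
        exact (hoc V Y T₂ T₁ hY ht2 ht1 this).1
    · exact caseB hbas hrk hrkm hzero htc hctr hctrnu hsw h1 h2 hSD hU hY hn hT1 hT2 ht1 ht2 hne hs
        hr hw1 hw2 (by omega)
  intro T₁ T₂ hSD hU hY hn hT1 hT2 ht1 ht2 hne hr hs
  rw [← hs] at hr
  by_cases c1 : supp T₁ ⊆ supp T₂
  · by_cases c2 : supp T₂ ⊆ supp T₁
    · exfalso
      have e1 : supp T₁ = supp Y := by rw [hs]; exact (union_eq_left.2 c2).symm
      have e2 : supp T₂ = supp Y := by rw [hs]; exact (union_eq_right.2 c1).symm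
      exact caseD hadd hzero hrkm hclique hY hT1 hT2 ht1 ht2 hne e1 e2 hr
        (hSD T₁ hT1 (by rw [e1]; exact hn)) (hSD T₂ hT2 (by rw [e2]; exact hn))
    · rw [Finset.not_subset] at c2
      have := main T₂ T₁ hSD hU hY hn hT2 hT1 ht2 ht1 hne.symm hr (by rw [hs, union_comm]) c2
      exact (hoc V Y T₂ T₁ hY ht2 ht1 this).1
  · rw [Finset.not_subset] at c1
    exact main T₁ T₂ hSD hU hY hn hT1 hT2 ht1 ht2 hne hr hs c1

end Pool.Agent.W390.SD
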