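import Pool.Agent.W390.SD.Stm2

/-!
# Project SD, part U7: uniqueness, induction step (helper571)
-/

set_option autoImplicit false

namespace Pool.Agent.W390.SD.Aux_uqB1

open MvPolynomial Finset Pool.Agent.W390.SD

theorem Lap_zero {V : Type} [Fintype V] [DecidableEq V] : Lap (0 : Gr V) = 0 := by
  ext u v
  unfold Lap
  simp

theorem Lap_sum {V : Type} [Fintype V] [DecidableEq V] (hadd : S_add) (g : V → F V) :
    ∀ L : List (Gr V), (∀ P ∈ L, (Lap P).mulVec g = 0) → (Lap L.sum).mulVec g = 0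
  | [], _ => by rw [List.sum_nil, Lap_zero, Matrix.zero_mulVec]
  | P :: L, h => by
    rw [List.sum_cons, (hadd V P L.sum).1, Matrix.add_mulVec, h P (List.mem_cons_self),
      Lap_sum hadd g L (fun Q hQ => h Q (List.mem_cons_of_mem _ hQ)), add_zero]

theorem mem_supp_right {V : Type} [Fintype V] [DecidableEq V] {A : Gr V} (hA : IsEv A) {w v : V}
    (h : A w v ≠ 0) : w ∈ supp A ∧ v ∈ supp A := by
  unfold supp nbr
  simp only [mem_filter, mem_univ, true_and]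
  refine ⟨⟨v, ?_⟩, ⟨w, ?_⟩⟩
  · rw [mem_filter]; exact ⟨mem_univ _, h⟩
  · rw [mem_filter, hA.symm]; exact ⟨mem_univ _, h⟩

end Pool.Agent.W390.SD.Aux_uqB1

namespace Pool.Agent.W390.SD

open MvPolynomial Finset Aux_uqB1

theorem p_uqB1 : S_gil → S_decomp → S_ocons → S_ctr → S_ctrnu → S_ctrt → S_tcons → S_add →
    S_oiff → S_zero → S_uqB1 := by
  intro hgil hdec _ hctr hcnu hct htc hadd hoiff _ V _ _ n Y T₁ T₂ w J hUQ hY hYc hI₁ hI₂ hT₁ hT₂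
    hw₁ hw₂ hwJ hJc hPJ hP
  refine hgil V Y T₁ T₂ w J hY hT₁ hT₂ hw₂ hwJ hJc hPJ fun w' hw' hs => ?_
  have hE : Y w w' ≠ 0 := (mem_filter.1 hw').2
  have hne : w ≠ w' := by rintro rfl; exact hE (hY.diag _)
  have hgood : good Y w w' := (hcnu V Y w w' hY hne).2.2.2.2.1 J hwJ hE hJc hs
  obtain ⟨hY', -, -, -, -, hsup, -⟩ := hctr V Y Y w w' hne hY hY
  have hT₂c : ctr w w' T₂ = T₂ := (hctr V T₂ T₂ w w' hne hT₂.1 hT₂.1).2.2.1 hw₂
  have ht₁ : Tight (ctr w w' T₁) (ctr w w' Y) := (hct V Y T₁ w w' hY hT₁ hgood).1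
  have ht₂ : Tight T₂ (ctr w w' Y) := by
    have := (hct V Y T₂ w w' hY hT₂ hgood).1
    rwa [hT₂c] at this
  obtain ⟨hws, hws'⟩ := mem_supp_right hY hE
  have hcard : (supp (ctr w w' Y)).card ≤ n := by
    have h1 := card_le_card (hsup hws')
    rw [card_erase_of_mem hws] at h1
    omega
  have hE₁ : IsEv (ctr w w' T₁) := (hctr V T₁ T₁ w w' hne hT₁.1 hT₁.1).1
  obtain ⟨L, hL, hLs, -⟩ := hdec V (ctr w w' T₁) hE₁
  rw [hT₂c]
  refine (hoiff V (ctr w w' Y) (ctr w w' T₁) T₂ hY' ht₁ ht₂).2 fun g h hgh => ?_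
  rw [← hLs]
  refine Lap_sum hadd g L fun P hPL => ?_
  obtain ⟨hPI, hPt⟩ := hL P hPL
  obtain ⟨hPne, hPrk⟩ := hP w' hw' hs P hPI hPt
  have hPY : Tight P (ctr w w' Y) :=
    (htc V (ctr w w' Y) (ctr w w' T₁) hY' ht₁).2.2.2.2.2 P hPt
  have horth : Orth P T₂ (ctr w w' Y) := hUQ (ctr w w' Y) P T₂ hY' hcard hPI hI₂ hPY ht₂ hPne hPrk
  exact (hoiff V (ctr w w' Y) P T₂ hY' hPY ht₂).1 horth g h hgh

end Pool.Agent.W390.SD
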