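import Pool.Agent.W390.SD.Stm2

/-! Project SD: `S_uqB2`. -/

namespace Pool.Agent.W390.SD

open MvPolynomial Finset

namespace Aux_uqB2

set_option linter.unusedSectionVars false

variable {V : Type} [Fintype V] [DecidableEq V]

theorem mem_supp {A : Gr V} {v : V} : v ∈ supp A ↔ ∃ u, A v u ≠ 0 := by
  unfold supp nbr
  rw [mem_filter]
  constructor
  · rintro ⟨_, u, hu⟩
    exact ⟨u, (mem_filter.1 hu).2⟩
  · rintro ⟨u, hu⟩
    exact ⟨mem_univ _, u, mem_filter.2 ⟨mem_univ _, hu⟩⟩

theorem mem_nbr {A : Gr V} {v u : V} : u ∈ nbr A v ↔ A v u ≠ 0 := by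
  unfold nbr
  rw [mem_filter]
  exact ⟨fun h => h.2, fun h => ⟨mem_univ _, h⟩⟩

theorem eq_zero_of_notMem {A : Gr V} {v : V} (h : v ∉ supp A) (u : V) : A v u = 0 := by
  by_contra hc
  exact h (mem_supp.2 ⟨u, hc⟩)

theorem indec_eq {G P : Gr V} (h : Indec G) (hP : Tight P G) (h0 : P ≠ 0) : P = G := by
  rcases h.2.2 P hP with h1 | h1
  · exact absurd h1 h0
  · exact h1

theorem K_apply (S : Finset V) (u v : V) :
    K S u v = if u ∈ S ∧ v ∈ S ∧ u ≠ v then 1 else 0 := rfl

theorem K_ne {S : Finset V} {u v : V} : K S u v ≠ 0 ↔ u ∈ S ∧ v ∈ S ∧ u ≠ v := by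
  rw [K_apply]
  split_ifs with h
  · exact ⟨fun _ => h, fun _ => one_ne_zero⟩
  · exact ⟨fun h' => absurd rfl h', fun h' => absurd h' h⟩

theorem xor_key (p q : Prop) [Decidable p] [Decidable q] :
    ((if p then (1 : ZMod 2) else 0) + (if q then 1 else 0) ≠ 0) ↔ (p ≠ q) := by
  by_cases hp : p <;> by_cases hq : q <;> simp only [hp, hq, if_true, if_false]
  · simp
    decide
  · simp
  · simp
  · simp

/-- a three element set containing `a ≠ b` -/
theorem third {S : Finset V} {a b : V} (hS : S.card = 3) (ha : a ∈ S) (hb : b ∈ S) (hab : a ≠ b) :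
    ∃ c, c ≠ a ∧ c ≠ b ∧ ∀ v, v ∈ S ↔ v = a ∨ v = b ∨ v = c := by
  have h1 : ((S.erase a).erase b).card = 1 := by
    rw [card_erase_of_mem (mem_erase.2 ⟨hab.symm, hb⟩), card_erase_of_mem ha, hS]
  obtain ⟨c, hc⟩ := card_eq_one.1 h1
  have hc1 : c ∈ (S.erase a).erase b := by rw [hc]; exact mem_singleton_self c
  have hc2 := mem_erase.1 hc1
  have hc3 := mem_erase.1 hc2.2
  refine ⟨c, hc3.1, hc2.1, fun v => ?_⟩
  constructor
  · intro hv
    by_cases h2 : v = a
    · exact Or.inl h2
    · by_cases h3 : v = b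
      · exact Or.inr (Or.inl h3)
      · have : v ∈ (S.erase a).erase b := mem_erase.2 ⟨h3, mem_erase.2 ⟨h2, hv⟩⟩
        rw [hc] at this
        exact Or.inr (Or.inr (mem_singleton.1 this))
  · rintro (rfl | rfl | rfl)
    · exact ha
    · exact hb
    · exact hc3.2

end Aux_uqB2

open Aux_uqB2 in
theorem p_uqB2 : S_add → S_basis → S_rk → S_rkm → S_zero → S_tcons → S_tri → S_clique → S_clind →
    S_small → S_cl → S_ctr → S_ctrK → S_ctrnu → S_ctrt → S_sw → S_unif → S_uqB2 := by
  intro hadd _ _ hrkm hzero htcons htri hclique hclind hsmall hcl hctr hctrK _ _ hsw _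
  intro V _ _ Y T₁ T₂ P w w' hSD hY hT₁ hT₂ ht₁ ht₂ hne hU hrk hw hw2 hgood hP htP heq
  subst heq
  have hww : w ≠ w' := by
    rintro rfl
    exact hgood.1 (hY.diag w)
  have hP0 : P ≠ 0 := hP.2.1
  -- `T₁` is not an odd clique
  have case1 : ∀ S : Finset V, Odd S.card → 3 ≤ S.card → T₁ = K S → False := by
    intro S hodd h3 hTS
    have hS := hclique V S hodd
    have hsupp : supp T₁ = S := by rw [hTS]; exact hS.2.1 h3
    have hwS : w ∈ S := by rw [← hsupp]; exact hw
    rw [hTS] at ht₁ htP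
    by_cases hw' : w' ∈ S
    · rw [(hctrK V S w w' hodd hwS hww).1 hw'] at htP
      have hcard : ((S.erase w).erase w').card + 2 = S.card := by
        rw [card_erase_of_mem (mem_erase.2 ⟨hww.symm, hw'⟩), card_erase_of_mem hwS]
        omega
      have hodd' : Odd ((S.erase w).erase w').card := by
        obtain ⟨k, hk⟩ := hodd
        exact ⟨k - 1, by omega⟩
      have hS' := hclique V _ hodd'
      by_cases h1 : ((S.erase w).erase w').card = 1
      · have h2 := hS'.2.2.2 h1
        have h4 := htP.2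
        have h5 := hS'.2.2.1
        have h6 : nu P = 0 := by omega
        exact hP0 (((hzero V P hP.1).1).1 h6)
      · have h2 : 3 ≤ ((S.erase w).erase w').card := by
          obtain ⟨k, hk⟩ := hodd'
          omega
        have h4 := indec_eq (hclind V _ hodd' h2) htP hP0
        have h5 := (hcl V Y S w w' hY hodd hwS hww ht₁).1 hw' (by rw [← h4]; exact ht₂)
        have h6 : supp Y = S := by
          rw [hU, hsupp, h4, hS'.2.1 h2]
          exact union_eq_left.2 ((erase_subset _ _).trans (erase_subset _ _))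
        rw [h6] at hrk
        omega
    · rw [(hctrK V S w w' hodd hwS hww).2 hw'] at htP
      have hcard : (insert w' (S.erase w)).card = S.card := by
        rw [card_insert_of_notMem (fun h => hw' (mem_of_mem_erase h)), card_erase_of_mem hwS]
        omega
      have hodd' : Odd (insert w' (S.erase w)).card := by rw [hcard]; exact hodd
      have h2 : 3 ≤ (insert w' (S.erase w)).card := by rw [hcard]; exact h3
      have h4 := indec_eq (hclind V _ hodd' h2) htP hP0
      have h5 := (hcl V Y S w w' hY hodd hwS hww ht₁).2 hw' (by rw [← h4]; exact ht₂)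
      have h6 : supp Y = insert w' S := by
        rw [hU, hsupp, h4, (hclique V _ hodd').2.1 h2]
        ext v
        simp only [mem_union, mem_insert, mem_erase]
        tauto
      rw [h6] at hrk
      omega
  -- the rank of `T₁`
  have hsub₁ : supp T₁ ⊆ supp Y := by rw [hU]; exact subset_union_left
  have hbasic := hSD T₁ hT₁ (card_le_card hsub₁)
  have hcard₁ : (supp T₁).card = nu T₁ + 3 := by
    rcases hbasic with ⟨S, h1, h2, h3⟩ | h
    · exact absurd (case1 S h1 h2 h3) id
    · by_contra hc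
      obtain ⟨S, h1, h2⟩ := (hsmall V T₁).1 hT₁ (by omega)
      exact case1 S (by rw [h1]; decide) (by omega) h2
  have hrkY := (hrkm V Y Y hY hY).2.2.2.2.2.1 (supp Y) (Subset.refl _)
  have hnuY₁ := ht₁.2
  have hnuY₂ := ht₂.2
  have hadd2 : ∀ A : Gr V, A + A = 0 := fun A => (hadd V A A).2.2.1
  have hev : ∀ A B : Gr V, IsEv A → IsEv B → IsEv (A + B) := fun A B => (hadd V A B).2.1
  -- `supp T₁ ≠ supp Y`
  have hneU : supp T₁ ≠ supp Y := by
    intro h
    rw [← h] at hrk hrkY
    have h1 : nu (Y + T₁) = 0 := by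
      rw [← h] at *
      omega
    have h2 : Y + T₁ = 0 := ((hzero V _ (hev _ _ hY hT₁.1)).1).1 h1
    have h3 : Y = T₁ := by
      have h4 : Y + T₁ + T₁ = 0 + T₁ := by rw [h2]
      rw [add_assoc, hadd2, add_zero, zero_add] at h4
      exact h4
    rw [h3] at ht₂
    exact hne (indec_eq hT₁ ht₂ hP0).symm
  have hc := hctr V T₁ T₁ w w' hww hT₁.1 hT₁.1
  have hsuppP : supp P ⊆ supp (ctr w w' T₁) := (htcons V _ P hc.1 htP).2.1
  have hw'₁ : w' ∉ supp T₁ := by
    intro h
    apply hneU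
    rw [hU]
    refine (union_eq_left.2 ?_).symm
    exact hsuppP.trans ((hc.2.2.2.2.2.1 h).trans (erase_subset _ _))
  have hctr1 : ctr w w' T₁ = sw w w' T₁ := hc.2.2.2.2.2.2 hw'₁
  have hswI : Indec (sw w w' T₁) := (hsw V w w' T₁ T₁).2.2.2.2.1 hT₁
  rw [hctr1] at htP
  have hPsw : P = sw w w' T₁ := indec_eq hswI htP hP0
  have hnuP : nu P = nu T₁ := by rw [hPsw]; exact (hsw V w w' T₁ T₁).2.1
  have hsP : supp P = (supp T₁).image (Equiv.swap w w') := by
    rw [hPsw]
    exact (hsw V w w' T₁ T₁).2.2.2.2.2.2.1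
  have hcardP : (supp P).card = (supp T₁).card := by
    rw [hsP, card_image_of_injective _ (Equiv.injective _)]
  have hUins : supp Y = insert w' (supp T₁) := by
    rw [hU, hsP]
    ext v
    simp only [mem_union, mem_image, mem_insert]
    constructor
    · rintro (h | ⟨u, hu, rfl⟩)
      · exact Or.inr h
      · by_cases h1 : u = w
        · subst h1
          left
          exact Equiv.swap_apply_left _ _
        · have h2 : u ≠ w' := fun h => hw'₁ (h ▸ hu)
          rw [Equiv.swap_apply_of_ne_of_ne h1 h2]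
          exact Or.inr hu
    · rintro (rfl | h)
      · exact Or.inr ⟨w, hw, Equiv.swap_apply_left _ _⟩
      · exact Or.inl h
  have hcardU : (supp Y).card = (supp T₁).card + 1 := by
    rw [hUins, card_insert_of_notMem hw'₁]
  have hw'Y : w' ∈ supp Y := by rw [hUins]; exact mem_insert_self _ _
  have hwY : w ∈ supp Y := hsub₁ hw
  have hYw'w : Y w' w ≠ 0 := by
    rw [hY.symm]
    exact hgood.1
  -- the two triangles
  have hE₁ : IsEv (Y + T₁) := hev _ _ hY hT₁.1
  have hE₂ : IsEv (Y + P) := hev _ _ hY hT₂.1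
  have hT₁w' : ∀ u, T₁ w' u = 0 := eq_zero_of_notMem hw'₁
  have hPw : ∀ u, P w u = 0 := eq_zero_of_notMem hw2
  have hn₁ : nu (Y + T₁) ≠ 0 := by
    intro h
    have h1 := ((hzero V _ hE₁).1).1 h
    have h2 := congrFun (congrFun h1 w') w
    rw [Pi.add_apply, Pi.add_apply, hT₁w', add_zero] at h2
    exact hYw'w h2
  have hn₂ : nu (Y + P) ≠ 0 := by
    intro h
    have h1 := ((hzero V _ hE₂).1).1 h
    have h2 := congrFun (congrFun h1 w) w'
    rw [Pi.add_apply, Pi.add_apply, hPw, add_zero] at h2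
    exact hgood.1 h2
  obtain ⟨S₃, hS₃c, hS₃⟩ := (hsmall V (Y + T₁)).2.1 hE₁ (by omega)
  obtain ⟨S₄, hS₄c, hS₄⟩ := (hsmall V (Y + P)).2.1 hE₂ (by omega)
  have hY3 : ∀ v, Y w' v = K S₃ w' v := by
    intro v
    rw [← hS₃, Pi.add_apply, Pi.add_apply, hT₁w', add_zero]
  have hP4 : ∀ u v, P u v = Y u v + K S₄ u v := by
    intro u v
    rw [← hS₄, Pi.add_apply, Pi.add_apply, ← add_assoc]
    have h1 := congrFun (congrFun (hadd2 Y) u) v
    rw [Pi.add_apply, Pi.add_apply] at h1
    rw [h1]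
    simp
  have h3a : w' ∈ S₃ ∧ w ∈ S₃ ∧ w' ≠ w := K_ne.1 (by rw [← hY3]; exact hYw'w)
  have h4a : w' ∈ S₄ ∧ w ∈ S₄ ∧ w' ≠ w := by
    apply K_ne.1
    intro h
    have h1 := hP4 w' w
    rw [h, add_zero, hT₂.1.symm, hPw] at h1
    exact hYw'w h1.symm
  obtain ⟨β, hβ1, hβ2, hβ⟩ := third hS₃c h3a.1 h3a.2.1 h3a.2.2
  obtain ⟨γ, hγ1, hγ2, hγ⟩ := third hS₄c h4a.1 h4a.2.1 h4a.2.2
  have hPn : ∀ v, P w' v ≠ 0 ↔ ((v = β) ≠ (v = γ)) := by
    intro v
    rw [hP4, hY3, K_apply, K_apply]
    simp only [hβ, hγ, true_or, true_and]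
    by_cases e1 : v = w'
    · subst e1
      simp [hβ1.symm, hγ1.symm]
    · by_cases e2 : v = w
      · subst e2
        have e3 : w' ≠ v := h3a.2.2
        simp only [e1, e3, false_or, true_or, ne_eq, not_false_eq_true, and_self, if_true, hβ2.symm, hγ2.symm]
        simp
        decide
      · have e3 : w' ≠ v := fun h => e1 h.symm
        simp only [e1, e2, false_or, e3, ne_eq, not_false_eq_true, and_true]
        exact xor_key (v = β) (v = γ)
  have hw'P : w' ∈ supp P := by
    rw [hsP]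
    exact mem_image.2 ⟨w, hw, Equiv.swap_apply_left _ _⟩
  have hβγ : β ≠ γ := by
    rintro rfl
    obtain ⟨u, hu⟩ := mem_supp.1 hw'P
    exact (hPn u).1 hu rfl
  have hnbr : nbr P w' = {β, γ} := by
    ext v
    rw [mem_nbr, hPn, mem_insert, mem_singleton]
    constructor
    · intro h
      by_contra hc
      push Not at hc
      apply h
      rw [eq_false hc.1, eq_false hc.2]
    · rintro (rfl | rfl) h
      · exact hβγ (h ▸ rfl)
      · exact hβγ (h.symm ▸ rfl : v = β).symm
  have hrk3 := (hsmall V P).2.2 w' β γ hβγ hP.1 hnbr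
  have hc3 : ({w', β, γ} : Finset V).card = 3 := by
    rw [card_insert_of_notMem, card_insert_of_notMem, card_singleton]
    · rw [mem_singleton]
      exact hβγ
    · rw [mem_insert, mem_singleton]
      push Not
      exact ⟨hβ1.symm, hγ1.symm⟩
  have htri3 := htri V P {w', β, γ} hP.1 hc3 hrk3
  have hcl3 := hclique V {w', β, γ} (by rw [hc3]; decide)
  have hK0 : K ({w', β, γ} : Finset V) ≠ 0 := by
    intro h
    have h1 := ((hzero V _ hcl3.1).1).2 h
    have h2 := hcl3.2.2.1
    omega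
  have hKP := indec_eq hP htri3 hK0
  have h1 := hcl3.2.1 (by omega)
  have h2 := hcl3.2.2.1
  rw [hKP] at h1 h2
  rw [h1] at hcardP
  omega

end Pool.Agent.W390.SD
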