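import Pool.Agent.W390.SD.Stm3

/-!
# Project SD: part zcap
-/

set_option autoImplicit false

namespace Pool.Agent.W390.SD

open MvPolynomial Finset

theorem p_zcap : S_unifrk → S_FL2 → S_zcap := by
  intro h1 h2 V _ _ G b b' A r hU hg hr hA hb hb'
  have hne : G b b' ≠ 0 := hg.1
  have hbb : b ≠ b' := by
    intro h
    apply hne
    rw [h]
    exact hU.1.diag b'
  have hsb : b ∈ supp G := by
    unfold supp nbr
    rw [mem_filter]
    exact ⟨mem_univ _, b', by rw [mem_filter]; exact ⟨mem_univ _, hne⟩⟩
  have hsb' : b' ∈ supp G := by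
    unfold supp nbr
    rw [mem_filter]
    refine ⟨mem_univ _, b, ?_⟩
    rw [mem_filter]
    exact ⟨mem_univ _, by rw [hU.1.symm b' b]; exact hne⟩
  have hsub : insert b (insert b' A) ⊆ supp G := by
    intro v hv
    rw [mem_insert, mem_insert] at hv
    rcases hv with h | h | h
    · rw [h]; exact hsb
    · rw [h]; exact hsb'
    · exact hA h
  have e1 := (h1 V G hU).1 _ hsub
  have e2 : (insert b (insert b' A)).card = A.card + 2 := by
    rw [card_insert_of_notMem, card_insert_of_notMem hb']
    rw [mem_insert, not_or]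
    exact ⟨hbb, hb⟩
  have e3 := (h2 V G b b' A hU.1 hg hb hb').1
  rw [e1, e2] at e3
  omega

end Pool.Agent.W390.SD
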