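import Pool.Agent.W390.SD.Stm2

set_option autoImplicit false

namespace Pool.Agent.W390.SD

open MvPolynomial Finset

namespace Aux_zeros

theorem even_card {V : Type} [Fintype V] [DecidableEq V] (A : Gr V) (h : IsEv A) (w : V) :
    Even (nbr A w).card := by
  have h1 := h.even w
  have h2 : ∑ u, A w u = ((nbr A w).card : ZMod 2) := by
    unfold nbr
    rw [Finset.card_filter, Nat.cast_sum]
    refine Finset.sum_congr rfl fun u _ => ?_
    generalize A w u = x
    revert x
    decide
  rw [h2] at h1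
  exact (ZMod.natCast_eq_zero_iff_even).1 h1

theorem nbr_add {V : Type} [Fintype V] [DecidableEq V] (G T : Gr V) (w : V) (h : w ∉ supp T) :
    nbr (G + T) w = nbr G w := by
  have h1 : ∀ u, T w u = 0 := by
    intro u
    by_contra hu
    apply h
    unfold supp
    simp only [mem_filter, mem_univ, true_and]
    exact ⟨u, by unfold nbr; simp only [mem_filter, mem_univ, true_and]; exact hu⟩
  unfold nbr
  ext u
  simp only [mem_filter, mem_univ, true_and, Pi.add_apply, h1 u, add_zero]

end Aux_zeros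

open Aux_zeros

theorem p_zeros : S_dd → S_par → S_lin → S_mult → S_rkplus → S_interp2 → S_cnt → S_deg →
    S_basis → S_ctr → S_ctrnu → S_ctrt → S_add → S_tcons → S_rk → S_rkm → S_zero → S_zeros := by
  intro hdd hpar hlin hmult hrkplus hinterp2 hcnt hdeg hbasis hctr hctrnu _ hadd _ _ _ _
  intro V _ _ G T w Z hG hT hwG hwT hdeg6 hrk4 hnt hZ hgood
  have hEv : IsEv (G + T) := (hadd V G T).2.1 hG hT
  have hnbr : nbr (G + T) w = nbr G w := nbr_add G T w hwT
  have hTT : T + T = 0 := (hadd V T G).2.2.1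
  have hGeq : G = (G + T) + T := by rw [add_assoc, hTT, add_zero]
  have hle : nu G ≤ nu (G + T) + nu T := by
    have h1 := (hadd V (G + T) T).2.2.2.2
    rw [← hGeq] at h1
    exact h1
  have hne : nu G ≠ nu T + nu (G + T) := fun h => hnt ⟨hT, h⟩
  have hev := hpar V G T hG hT
  have hge2 : nu G + 2 ≤ nu (G + T) + nu T := by
    obtain ⟨k, hk⟩ := hev
    omega
  have hadj : ∀ w' ∈ Z, (G + T) w w' ≠ 0 := by
    intro w' hw'
    have h1 : w' ∈ nbr (G + T) w := by rw [hnbr]; exact hZ hw'
    unfold nbr at h1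
    simpa using h1
  have hww : ∀ w' ∈ Z, w ≠ w' := by
    intro w' hw' h
    have h1 := hadj w' hw'
    rw [← h] at h1
    exact h1 (hEv.diag w)
  have hwZ : w ∉ Z := fun h => hww w h rfl
  have hctrv : ∀ w' ∈ Z, nu (ctr w w' (G + T)) + nu T + 1 = nu G := by
    intro w' hw'
    obtain ⟨_, h2, _, _⟩ := hctr V G T w w' (hww w' hw') hG hT
    obtain ⟨_, _, h3, _⟩ := hctr V T G w w' (hww w' hw') hT hG
    have h4 := hgood w' hw'
    have h5 := h4.1.2
    have h6 := h4.2.2
    rw [h2, h3 hwT]
    omega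
  have hzero : ∀ J : Finset V, w ∈ J → J.card = nu (G + T) → ∀ w' ∈ Z,
      sg w w' (PJ (G + T) J) = 0 := by
    intro J hwJ hJ w' hw'
    by_contra hsg
    have h1 := (hctrnu V (G + T) w w' hEv (hww w' hw')).2.2.2.2.1 J hwJ (hadj w' hw') hJ hsg
    have h2 := h1.2
    have h3 := hctrv w' hw'
    omega
  have hwS : w ∈ supp (G + T) := by
    have h1 : (nbr (G + T) w).Nonempty := by
      rw [hnbr]
      apply Finset.card_pos.1
      omega
    unfold supp
    simp only [mem_filter, mem_univ, true_and]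
    exact h1
  obtain ⟨hb1, _, _, hb4, _, _, hb7, _⟩ := hbasis V (G + T) hEv
  obtain ⟨J, hJw, _, hJc, hJ0⟩ := hb4 univ {w} (Finset.subset_univ _) (hb7 w hwS)
  have hwJ : w ∈ J := hJw (Finset.mem_singleton_self w)
  rw [hb1] at hJc
  by_cases hrho : nu (G + T) + nu T = nu G + 2
  · have hc := hcnt V (G + T) J w hEv hwJ hJ0 Z (by rw [hnbr]; exact hZ) (hzero J hwJ hJc)
    rw [hnbr] at hc
    have hne2 : 2 * Z.card + 2 ≠ (nbr G w).card := by
      intro heq
      have h1 := hlin V (G + T) w Z hEv hwS (by rw [hnbr]; exact hZ) (by rw [hnbr]; exact heq)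
        hzero
      rw [hnbr] at h1
      have h2 := hrkplus V G T (insert w (nbr G w)) hG hT (by omega)
      omega
    obtain ⟨k, hk⟩ := even_card G hG w
    omega
  · have hev' := hpar V G T hG hT
    have hge4 : nu G + 4 ≤ nu (G + T) + nu T := by
      obtain ⟨k, hk⟩ := hev'
      omega
    by_contra hcon
    have hd := (hdeg V (G + T) J w hEv).2 hwJ hJ0
    rw [hnbr] at hd
    have hpd : pderiv w (PJ (G + T) J) = 0 := (hdd V).2.2.2.1 J w (PP (G + T)) hwJ
    apply hJ0
    refine hinterp2 V w Z (((nbr G w).card - 1) / 2) (PJ (G + T) J) hpd (by omega) hwZ ?_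
      (by omega)
    intro w' hw'
    have h3 := hctrv w' hw'
    exact hmult V (G + T) J w w' hEv hwJ hJc (hadj w' hw') (by omega)

end Pool.Agent.W390.SD
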