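import Pool.Agent.W390.SD.Stm1

/-!
Project SD, part A3: divisibility.
-/

set_option autoImplicit false

namespace Pool.Agent.W390.SD.Aux_dvd

open MvPolynomial Finset

variable {V : Type} [DecidableEq V]

lemma coeff_pd (w : V) (f : R V) (n : V →₀ ℕ) :
    coeff n (pderiv w f) = coeff (n + Finsupp.single w 1) f * ((n w + 1 : ℕ) : ZMod 2) := by
  induction f using MvPolynomial.induction_on' with
  | monomial s a =>
    rw [pderiv_monomial, coeff_monomial, coeff_monomial]
    by_cases h : s = n + Finsupp.single w 1
    · subst h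
      rw [if_pos (add_tsub_cancel_right _ _), if_pos rfl]
      simp
    · rw [if_neg h, zero_mul]
      by_cases h2 : s - Finsupp.single w 1 = n
      · rw [if_pos h2]
        have h3 : s w = 0 := by
          by_contra h4
          apply h
          rw [← h2]
          ext v
          simp only [Finsupp.coe_add, Finsupp.coe_tsub, Pi.add_apply, Pi.sub_apply]
          by_cases hv : v = w
          · subst hv
            rw [Finsupp.single_eq_same]
            omega
          · rw [Finsupp.single_eq_of_ne hv]
            omega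
        rw [h3, Nat.cast_zero, mul_zero]
      · rw [if_neg h2]
  | add p q hp hq =>
    rw [map_add, coeff_add, coeff_add, hp, hq, add_mul]

lemma even_of_mem (w : V) (f : R V) (h : pderiv w f = 0) (m : V →₀ ℕ) (hm : m ∈ f.support) :
    Even (m w) := by
  by_contra hodd
  rw [Nat.not_even_iff_odd] at hodd
  obtain ⟨k, hk⟩ := hodd
  have h1 := coeff_pd w f (m - Finsupp.single w 1)
  have h2 : m - Finsupp.single w 1 + Finsupp.single w 1 = m := by
    ext v
    simp only [Finsupp.coe_add, Finsupp.coe_tsub, Pi.add_apply, Pi.sub_apply]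
    by_cases hv : v = w
    · subst hv
      rw [Finsupp.single_eq_same]
      omega
    · rw [Finsupp.single_eq_of_ne hv]
      omega
  rw [h2, h, coeff_zero] at h1
  have h3 : (m - Finsupp.single w 1 : V →₀ ℕ) w + 1 = 2 * k + 1 := by
    simp only [Finsupp.coe_tsub, Pi.sub_apply, Finsupp.single_eq_same]
    omega
  rw [h3] at h1
  have h4 : ((2 * k + 1 : ℕ) : ZMod 2) = 1 := by
    push_cast
    rw [show (2 : ZMod 2) = 0 from rfl, zero_mul, zero_add]
  rw [h4, mul_one] at h1
  exact (mem_support_iff.1 hm) h1.symm

lemma mono_dvd (w w' : V) (m : V →₀ ℕ) (c : ZMod 2) (hm : Even (m w)) :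
    (xx w + xx w' : R V) ∣ monomial m c - sg w w' (monomial m c) := by
  obtain ⟨k, hk⟩ := hm
  have e1 : (monomial m c : R V) = X w ^ (m w) * monomial (m.erase w) c := by
    rw [← monomial_single_add, Finsupp.single_add_erase]
  have e2 : sg w w' (monomial (m.erase w) c : R V) = monomial (m.erase w) c := by
    unfold sg
    rw [rename_monomial]
    congr 1
    have h : Finsupp.mapDomain (fun v => if v = w then w' else v) (m.erase w) =
        Finsupp.mapDomain id (m.erase w) := by
      apply Finsupp.mapDomain_congr
      intro x hx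
      have hxw : x ≠ w := by
        rintro rfl
        rw [Finsupp.mem_support_iff, Finsupp.erase_same] at hx
        exact hx rfl
      rw [if_neg hxw]
      rfl
    rw [h, Finsupp.mapDomain_id]
  have e3 : sg w w' (X w : R V) = X w' := by
    unfold sg
    rw [rename_X, if_pos rfl]
  have e4 : (xx w + xx w' : R V) = xx w - xx w' := by
    rw [sub_eq_add_neg, CharTwo.neg_eq]
  rw [e4, e1, map_mul, map_pow, e2, e3, ← sub_mul, hk, ← two_mul, pow_mul, pow_mul]
  apply Dvd.dvd.mul_right
  exact sub_dvd_pow_sub_pow _ _ k

end Pool.Agent.W390.SD.Aux_dvd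

namespace Pool.Agent.W390.SD

open MvPolynomial Finset

theorem p_dvd : S_dvd := by
  intro V _ w w' f _ hf hs
  have h1 : f = f - sg w w' f := by rw [hs, sub_zero]
  rw [h1]
  have h2 : f - sg w w' f =
      ∑ m ∈ f.support, (monomial m (coeff m f) - sg w w' (monomial m (coeff m f))) := by
    rw [Finset.sum_sub_distrib, ← map_sum, support_sum_monomial_coeff]
  rw [h2]
  exact Finset.dvd_sum fun m hm => Aux_dvd.mono_dvd w w' m _ (Aux_dvd.even_of_mem w f hf m hm)

end Pool.Agent.W390.SD
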