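import Pool.Agent.W390.SD.Stm3

namespace Pool.Agent.W390.SD

open MvPolynomial Finset

namespace Aux_TL

variable {V : Type} [Fintype V] [DecidableEq V]

theorem mem_supp_of {A : Gr V} {u v : V} (h : A u v ≠ 0) : u ∈ supp A := by
  unfold supp nbr
  simp only [mem_filter, mem_univ, true_and]
  exact ⟨v, by simp [h]⟩

theorem tight_zero {T : Gr V} (hz : S_zero) (hT : Tight T 0) (hz0 : nu (0 : Gr V) = 0) :
    T = 0 := by
  obtain ⟨h1, h2⟩ := hT
  rw [hz0] at h2
  exact ((hz V T h1).1).1 (by omega)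

theorem isEv_zero : IsEv (0 : Gr V) := by
  constructor <;> simp

theorem nu_zero (hz : S_zero) : nu (0 : Gr V) = 0 :=
  ((hz V 0 isEv_zero).1).2 rfl

end Aux_TL

open Aux_TL

theorem p_TL : S_add → S_zero → S_rk → S_rkm → S_tcons → S_dorth → S_clique → S_clind → S_small →
    S_ctr → S_ctrK → S_ctrnu → S_ctrt → S_sw → S_blocks → S_tw → S_TL := by
  intro _ hzero _ hrkm htcons hdorth hclique hclind _ hctr hctrK hctrnu _ hsw hblocks _
  intro V _ _ H T b b' hH hgood hSD hUQ hT hTY h3
  have hbb' : b ≠ b' := by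
    intro h
    apply hgood.1
    rw [h]
    exact hH.diag b'
  have hb'H : b' ∈ supp H := by
    apply mem_supp_of (v := b)
    rw [← hH.symm]
    exact hgood.1
  obtain ⟨hYev, -, -, -, -, hYs, -⟩ := hctr V H H b b' hbb' hH hH
  have hYs' := hYs hb'H
  have hYcard : (supp (ctr b b' H)).card ≤ (supp H).card :=
    (card_le_card hYs').trans (card_le_card (erase_subset _ _))
  obtain ⟨L, hL1, hL2, hL3, hL4, hL5, hL6, hL7⟩ := hblocks V H b b' hH hgood
  -- some block is not orthogonal to `T`
  have hex : ∃ Q ∈ L, ¬ Orth T (ctr b b' Q) (ctr b b' H) := by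
    by_contra hcon
    push Not at hcon
    have hd := hdorth V (ctr b b' H) T (L.map (ctr b b')) hYev
      (by
        intro Q' hQ'
        obtain ⟨Q, hQ, rfl⟩ := List.mem_map.1 hQ'
        exact hL4 Q hQ) hL5 hL6 hTY (fun _ => false)
      (by
        intro Q' hQ' _
        obtain ⟨Q, hQ, rfl⟩ := List.mem_map.1 hQ'
        exact hcon Q hQ)
    have hd1 := hd.1
    simp only [List.filter_false, List.sum_nil] at hd1
    exact hT.2.1 (tight_zero hzero hd1 (nu_zero hzero))
  obtain ⟨Q, hQL, hQo⟩ := hex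
  obtain ⟨P, hP1, hP2, hP3, hP4⟩ := hL7 T hTY Q hQL hQo
  have hTP : T = P := by
    by_contra hne
    apply hP4
    refine hUQ (ctr b b' H) T P hYev hYcard hT hP1 hTY hP3 hne ?_
    exact h3.trans ((hrkm V (ctr b b' H) (ctr b b' H) hYev hYev).2.1 _ _ subset_union_left)
  subst hTP
  obtain ⟨hQI, hQt⟩ := hL1 Q hQL
  have hQev : IsEv Q := hQI.1
  obtain ⟨hcQev, -, hcA, -, -, hcB, hcC⟩ := hctr V Q Q b b' hbb' hQev hQev
  obtain ⟨-, hQsupp, hQrk, -, -, -⟩ := htcons V H Q hH hQt
  have hTne : T ≠ 0 := hT.2.1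
  by_cases hbQ : b ∈ supp Q
  swap
  · left
    rw [hcA hbQ] at hP2
    rcases hQI.2.2 T hP2 with h | h
    · exact absurd h hTne
    · rw [h]
      exact hQt
  by_cases hb'Q : b' ∈ supp Q
  swap
  · right
    left
    rw [hcC hb'Q] at hP2
    obtain ⟨-, -, -, hs4, hs5, -, hs7, -⟩ := hsw V b b' Q Q
    have hI := hs5 hQI
    rcases hI.2.2 T hP2 with h | h
    · exact absurd h hTne
    · have hb'T : b' ∈ supp T := by
        rw [h, hs7]
        exact mem_image.2 ⟨b, hbQ, Equiv.swap_apply_left b b'⟩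
      refine ⟨Or.inl hb'T, ?_⟩
      unfold tw
      rw [if_pos hb'T, h, hs4]
      exact hQt
  have hQB : Basic Q := hSD Q hQI (card_le_card hQsupp)
  rcases hQB with ⟨S, hS1, hS2, hS3⟩ | hQc
  · right
    left
    have hsS : supp Q = S := by
      rw [hS3]
      exact (hclique V S hS1).2.1 hS2
    rw [hsS] at hbQ hb'Q
    have hcK : ctr b b' Q = K ((S.erase b).erase b') := by
      rw [hS3]
      exact (hctrK V S b b' hS1 hbQ hbb').1 hb'Q
    rw [hcK] at hP2
    have hcard : ((S.erase b).erase b').card + 2 = S.card := by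
      rw [card_erase_of_mem (mem_erase.2 ⟨hbb'.symm, hb'Q⟩), card_erase_of_mem hbQ]
      omega
    have hodd : Odd ((S.erase b).erase b').card := by
      rw [Nat.odd_iff] at hS1 ⊢
      omega
    rcases Nat.lt_or_ge ((S.erase b).erase b').card 3 with hlt | hge
    · exfalso
      have h1 : ((S.erase b).erase b').card = 1 := by
        rw [Nat.odd_iff] at hodd
        omega
      rw [(hclique V _ hodd).2.2.2 h1] at hP2
      exact hTne (tight_zero hzero hP2 (nu_zero hzero))
    · have hI := hclind V _ hodd hge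
      rcases hI.2.2 T hP2 with h | h
      · exact absurd h hTne
      · have hsT : supp T = (S.erase b).erase b' := by
          rw [h]
          exact (hclique V _ hodd).2.1 hge
        refine ⟨Or.inr (by rw [hsT]; exact h), ?_⟩
        unfold tw
        have hb'T : b' ∉ supp T := by
          rw [hsT]
          simp
        rw [if_neg hb'T, hsT, insert_erase (mem_erase.2 ⟨hbb'.symm, hb'Q⟩), insert_erase hbQ,
          ← hS3]
        exact hQt
  · right
    right
    have hrkQ : rk Q (supp Q) ≤ 3 := by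
      have := (hrkm V Q Q hQev hQev).2.2.2.2.2.1 (supp Q) (Subset.refl _)
      omega
    have hrkH : rk H (supp Q) ≤ 3 := (hQrk _).trans hrkQ
    have hTs : supp T ⊆ (supp Q).erase b :=
      ((htcons V (ctr b b' Q) T hcQev hP2).2.1).trans (hcB hb'Q)
    have hins : insert b' (supp T) ⊆ (supp Q).erase b := by
      apply insert_subset
      · exact mem_erase.2 ⟨hbb'.symm, hb'Q⟩
      · exact hTs
    have hmH := (hrkm V H H hH hH).2.1
    have hmY := (hrkm V (ctr b b' H) (ctr b b' H) hYev hYev).2.1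
    refine ⟨?_, ?_⟩
    · refine (hmH _ _ ?_).trans hrkH
      apply insert_subset hbQ
      exact hins.trans (erase_subset _ _)
    · refine (hmY _ _ hins).trans ?_
      refine ((hctrnu V H b b' hH hbb').2.2.2.2.2 hgood ((supp Q).erase b) (by simp)).trans ?_
      exact (hmH _ _ (erase_subset _ _)).trans hrkH

end Pool.Agent.W390.SD
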