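import Pool.Agent.W390.SD.Stm1

/-!
# Project SD, B7 (S_add) (helper85)
-/

set_option maxHeartbeats 4000000

namespace Pool.Agent.W390.SD

open MvPolynomial Finset

namespace Aux_add

theorem two_zero (V : Type) : (2 : F V) = 0 := by
  have h1 : (2 : R V) = 0 := by
    have h2 : ((2 : ℕ) : R V) = 0 := CharP.cast_eq_zero (R V) 2
    exact_mod_cast h2
  have h3 : algebraMap (R V) (F V) 2 = 0 := by
    rw [h1, map_zero]
  rwa [map_ofNat] at h3

theorem self_add (V : Type) (y : F V) : y + y = 0 := by
  rw [← two_mul, two_zero, zero_mul]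

theorem zmod2_cases (a : ZMod 2) : a = 0 ∨ a = 1 := by
  revert a
  decide

theorem one_add_one' : (1 + 1 : ZMod 2) = 0 := by decide

theorem one_ne' : (1 : ZMod 2) ≠ 0 := by decide

theorem ite_add (V : Type) (a b : ZMod 2) (y : F V) :
    (if a + b = 0 then 0 else y) = (if a = 0 then 0 else y) + (if b = 0 then 0 else y) := by
  rcases zmod2_cases a with ha | ha <;> rcases zmod2_cases b with hb | hb
  · rw [ha, hb]
    simp
  · rw [ha, hb]
    simp
  · rw [ha, hb]
    simp
  · rw [ha, hb, one_add_one', if_pos rfl, if_neg one_ne', self_add]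

theorem lap_add (V : Type) [Fintype V] [DecidableEq V] (A B : Gr V) :
    Lap (A + B) = Lap A + Lap B := by
  funext u v
  rw [Matrix.add_apply]
  unfold Lap
  by_cases h : u = v
  · rw [if_pos h, if_pos h, if_pos h, ← sum_add_distrib]
    apply sum_congr rfl
    intro w _
    exact ite_add V (A u w) (B u w) _
  · rw [if_neg h, if_neg h, if_neg h]
    exact ite_add V (A u v) (B u v) _

theorem isEv_add (V : Type) [Fintype V] (A B : Gr V) (hA : IsEv A) (hB : IsEv B) :
    IsEv (A + B) where
  symm u v := by
    rw [Pi.add_apply, Pi.add_apply, Pi.add_apply, Pi.add_apply, hA.symm, hB.symm]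
  diag v := by
    rw [Pi.add_apply, Pi.add_apply, hA.diag, hB.diag, add_zero]
  even v := by
    have h1 : ∀ u, (A + B) v u = A v u + B v u := fun _ => rfl
    rw [sum_congr rfl (fun u _ => h1 u), sum_add_distrib, hA.even, hB.even, add_zero]

theorem rank_add_le' {V K : Type} [Fintype V] [DecidableEq V] [Field K] (M N : Matrix V V K) :
    (M + N).rank ≤ M.rank + N.rank := by
  unfold Matrix.rank
  rw [Matrix.mulVecLin_add]
  refine le_trans (Submodule.finrank_mono (LinearMap.range_add_le M.mulVecLin N.mulVecLin)) ?_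
  exact Submodule.finrank_add_le_finrank_add_finrank _ _

end Aux_add

theorem p_add : S_add := by
  intro V _ _ A B
  refine ⟨Aux_add.lap_add V A B, Aux_add.isEv_add V A B, ?_, ?_, ?_⟩
  · funext u v
    rw [Pi.add_apply, Pi.add_apply]
    rcases Aux_add.zmod2_cases (A u v) with h | h
    · rw [h]
      rfl
    · rw [h]
      rfl
  · intro hA
    refine Matrix.IsSymm.ext fun u v => ?_
    unfold Lap
    by_cases h : u = v
    · subst h
      rfl
    · rw [if_neg h, if_neg (Ne.symm h), hA.symm v u, add_comm (xF v)]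
  · unfold nu
    rw [Aux_add.lap_add]
    exact Aux_add.rank_add_le' _ _

end Pool.Agent.W390.SD
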