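import Pool.Agent.W390.SD.Stm3

namespace Pool.Agent.W390.SD

open MvPolynomial Finset

namespace Aux_nontwin

variable {V : Type} [Fintype V] [DecidableEq V]

theorem zm (a : ZMod 2) (h : a ≠ 0) : a = 1 := by
  revert h; revert a; decide

theorem zadd (a b : ZMod 2) (h : a + b = 0) : a = b := by
  revert h; revert a b; decide

theorem mem_nbr (A : Gr V) (u v : V) : u ∈ nbr A v ↔ A v u ≠ 0 := by
  simp [nbr]

/-- closed neighbourhood -/
def cn (A : Gr V) (v : V) : Finset V := insert v (nbr A v)

theorem mem_cn (A : Gr V) (u v : V) : u ∈ cn A v ↔ u = v ∨ A v u ≠ 0 := by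
  simp [cn, mem_nbr]

theorem mem_cn_symm (A : Gr V) (hA : IsEv A) (u v : V) : u ∈ cn A v ↔ v ∈ cn A u := by
  rw [mem_cn, mem_cn, hA.symm v u]
  constructor
  · rintro (h | h)
    · exact Or.inl h.symm
    · exact Or.inr h
  · rintro (h | h)
    · exact Or.inl h.symm
    · exact Or.inr h

theorem cn_eq_of_twin (A : Gr V) (hA : IsEv A) (w w' : V) (hww : A w w' ≠ 0)
    (h : ∀ v, v ≠ w → v ≠ w' → A w v = A w' v) : cn A w' = cn A w := by
  ext v
  rw [mem_cn, mem_cn]
  by_cases hv : v = w
  · subst hv
    have : A w' v ≠ 0 := by rw [hA.symm]; exact hww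
    simp [this]
  · by_cases hv' : v = w'
    · subst hv'
      simp [hww]
    · simp [hv, hv', h v hv hv']

/-- twins class -/
def cl (A : Gr V) (w : V) : Finset V := univ.filter (fun u => cn A u = cn A w)

theorem mem_cl (A : Gr V) (u w : V) : u ∈ cl A w ↔ cn A u = cn A w := by
  simp [cl]

theorem self_mem_cn (A : Gr V) (w : V) : w ∈ cn A w := by simp [mem_cn]

theorem cl_subset (A : Gr V) (w : V) : cl A w ⊆ cn A w := by
  intro u hu
  rw [mem_cl] at hu
  rw [← hu]
  exact self_mem_cn A u

theorem card_cn (A : Gr V) (hA : IsEv A) (w : V) : (cn A w).card = (nbr A w).card + 1 := by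
  unfold cn
  rw [card_insert_of_notMem]
  rw [mem_nbr]
  simp [hA.diag w]

/-- if all good edges join twins -/
theorem good_twin (A : Gr V) (w w' : V) (hg : good A w w')
    (hn : w' ∉ supp (ctr w w' A)) (v : V) (hv : v ≠ w) (hv' : v ≠ w') (hww : w ≠ w') :
    A w v = A w' v := by
  have h0 : ctr w w' A w' v = 0 := by
    by_contra hne
    apply hn
    unfold supp
    simp only [mem_filter, mem_univ, true_and]
    exact ⟨v, by rw [mem_nbr]; exact hne⟩
  unfold ctr at h0
  have h1 : ¬ (w' = w ∨ v = w ∨ w' = v) := by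
    rintro (h | h | h)
    · exact hww h.symm
    · exact hv h
    · exact hv' h.symm
  rw [if_neg h1, if_pos rfl] at h0
  exact (zadd _ _ h0).symm

theorem sum_eq_card (A : Gr V) (w : V) : ∑ u, A w u = ((nbr A w).card : ZMod 2) := by
  unfold nbr
  rw [card_filter]
  push_cast
  apply sum_congr rfl
  intro u _
  split_ifs with h
  · exact zm _ h
  · push Not at h; exact h

theorem even_deg (A : Gr V) (hA : IsEv A) (w : V) : Even (nbr A w).card := by
  have h := hA.even w
  rw [sum_eq_card] at h
  rw [← ZMod.natCast_eq_zero_iff_even]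
  exact h

end Aux_nontwin

open Aux_nontwin in
theorem p_nontwin : S_add → S_zero → S_cnt → S_basis → S_ctrnu → S_rkm → S_clique → S_clind →
    S_nontwin := by
  intro hadd _ hcnt hbas hctrnu hrkm hcli _ V _ _ G hG
  by_cases hex : ∃ b b', good G b b' ∧ b' ∈ supp (ctr b b' G)
  · exact Or.inl hex
  right
  push Not at hex
  obtain ⟨hE, hG0, hGt⟩ := hG
  -- number of good neighbours
  have key : ∀ w ∈ supp G, (cn G w).card + 3 ≤ 2 * (cl G w).card := by
    intro w hw
    obtain ⟨hb1, hb2, hb3, hb4, hb5, hb6, hb7, hb8⟩ := hbas V G hE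
    obtain ⟨J, hJ1, _, hJ3, hJ4⟩ := hb4 univ {w} (subset_univ _) (hb7 w hw)
    rw [hb1] at hJ3
    have hwJ : w ∈ J := hJ1 (mem_singleton_self w)
    have hZ := hcnt V G J w hE hwJ hJ4 ((nbr G w).filter (fun w' => sg w w' (PJ G J) = 0))
      (filter_subset _ _) (fun w' hw' => (mem_filter.mp hw').2)
    have hsub : insert w ((nbr G w).filter (fun w' => ¬ sg w w' (PJ G J) = 0)) ⊆ cl G w := by
      intro w' hw'
      rw [mem_insert] at hw'
      rcases hw' with h | h
      · subst h; rw [mem_cl]
      · rw [mem_filter, mem_nbr] at h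
        have hww : w ≠ w' := by
          rintro rfl
          exact h.1 (hE.diag w)
        have hgood : good G w w' :=
          (hctrnu V G w w' hE hww).2.2.2.2.1 J hwJ h.1 hJ3 h.2
        rw [mem_cl]
        exact cn_eq_of_twin G hE w w' h.1
          (fun v hv hv' => good_twin G w w' hgood (hex w w' hgood) v hv hv' hww)
    have hcard := card_le_card hsub
    have hnot : w ∉ (nbr G w).filter (fun w' => ¬ sg w w' (PJ G J) = 0) := by
      intro h
      rw [mem_filter, mem_nbr] at h
      exact h.1 (hE.diag w)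
    rw [card_insert_of_notMem hnot] at hcard
    have hsplit := card_filter_add_card_filter_not (s := nbr G w)
      (fun w' => sg w w' (PJ G J) = 0)
    rw [card_cn G hE]
    omega
  -- cn = cl
  have hsuppmem : ∀ w v, G w v ≠ 0 → w ∈ supp G := by
    intro w v h
    unfold supp
    simp only [mem_filter, mem_univ, true_and]
    exact ⟨v, by rw [mem_nbr]; exact h⟩
  have half : ∀ w v, w ∈ supp G → v ∈ cn G w → v ∉ cl G w →
      (cl G v).card + 3 ≤ (cl G w).card := by
    intro w v hw hv hvn
    have h1 : cl G v ∪ cl G w ⊆ cn G w := by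
      apply union_subset _ (cl_subset G w)
      intro u hu
      rw [mem_cl] at hu
      rw [mem_cn_symm G hE, hu, mem_cn_symm G hE]
      exact hv
    have hdis : Disjoint (cl G v) (cl G w) := by
      rw [Finset.disjoint_left]
      intro u hu hu'
      rw [mem_cl] at hu hu'
      apply hvn
      rw [mem_cl, ← hu, hu']
    have h2 := card_le_card h1
    rw [card_union_of_disjoint hdis] at h2
    have h3 := key w hw
    omega
  have hall : ∀ w ∈ supp G, cn G w ⊆ cl G w := by
    intro w hw v hv
    by_contra hvn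
    have h1 := half w v hw hv hvn
    have hne : v ≠ w := by
      rintro rfl
      exact hvn (by rw [mem_cl])
    have hGwv : G w v ≠ 0 := by
      rw [mem_cn] at hv
      rcases hv with h | h
      · exact absurd h hne
      · exact h
    have hGvw : G v w ≠ 0 := by rw [hE.symm]; exact hGwv
    have hwn : w ∉ cl G v := by
      intro h
      rw [mem_cl] at h
      exact hvn (by rw [mem_cl, h])
    have h2 := half v w (hsuppmem v w hGvw) (by rw [mem_cn]; exact Or.inr hGvw) hwn
    omega
  -- pick a vertex
  have hex0 : ∃ w v, G w v ≠ 0 := by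
    by_contra hno
    push Not at hno
    apply hG0
    funext w v
    exact hno w v
  obtain ⟨w, v0, hwv0⟩ := hex0
  have hw : w ∈ supp G := hsuppmem w v0 hwv0
  set S := cn G w with hS
  have hSu : ∀ u ∈ S, cn G u = S := by
    intro u hu
    have := hall w hw hu
    rw [mem_cl] at this
    exact this
  have hin : ∀ u ∈ S, ∀ v ∈ S, u ≠ v → G u v = 1 := by
    intro u hu v hv huv
    rw [← hSu u hu, mem_cn] at hv
    rcases hv with h | h
    · exact absurd h.symm huv
    · exact zm _ h
  have hout : ∀ u ∈ S, ∀ v, v ∉ S → G u v = 0 := by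
    intro u hu v hv
    by_contra hne
    apply hv
    rw [← hSu u hu, mem_cn]
    exact Or.inr hne
  have hcS : S.card = (nbr G w).card + 1 := card_cn G hE w
  have hev := even_deg G hE w
  have hodd : Odd S.card := by rw [hcS]; exact hev.add_one
  have hpos : 0 < (nbr G w).card := card_pos.mpr ⟨v0, by rw [mem_nbr]; exact hwv0⟩
  have h3 : 3 ≤ S.card := by
    rw [hcS]
    obtain ⟨k, hk⟩ := hev
    omega
  obtain ⟨hKE, hKs, _, _⟩ := hcli V S hodd
  have hKs := hKs h3
  have hself : ∀ A : Gr V, A + A = 0 := fun A => (hadd V A A).2.2.1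
  have hcanc : K S + (G + K S) = G := by
    rw [add_comm G, ← add_assoc, hself, zero_add]
  have hEV : IsEv (G + K S) := (hadd V G (K S)).2.1 hE hKE
  have hdis : Disjoint (supp (K S)) (supp (G + K S)) := by
    rw [hKs, Finset.disjoint_left]
    intro u hu hu'
    unfold supp at hu'
    simp only [mem_filter, mem_univ, true_and] at hu'
    obtain ⟨v, hv⟩ := hu'
    rw [mem_nbr] at hv
    apply hv
    show G u v + K S u v = 0
    by_cases huv : u = v
    · subst huv
      simp [K, hE.diag u]
    · by_cases hvS : v ∈ S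
      · rw [hin u hu v hvS huv]
        simp [K, hu, hvS, huv]
        decide
      · rw [hout u hu v hvS]
        simp [K, hvS]
  have hnu := (hrkm V (K S) (G + K S) hKE hEV).2.2.2.2.2.2.2 hdis
  rw [hcanc] at hnu
  have htight : Tight (K S) G := ⟨hKE, hnu⟩
  have hKS0 : K S ≠ 0 := by
    intro h
    have h1 := congrFun (congrFun h w) v0
    have hwS : w ∈ S := self_mem_cn G w
    have hv0S : v0 ∈ S := by rw [hS, mem_cn]; exact Or.inr hwv0
    have hne : w ≠ v0 := by
      rintro rfl
      exact hwv0 (hE.diag w)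
    simp [K, hwS, hv0S, hne] at h1
  rcases hGt (K S) htight with h | h
  · exact absurd h hKS0
  · exact ⟨S, hodd, h3, h.symm⟩

end Pool.Agent.W390.SD
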