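import Pool.Agent.W390.SD.Stm3

/-!
# Project SD: O1, star polynomials exist (`S_sp1`)
-/

namespace Pool.Agent.W390.SD

open MvPolynomial Finset

namespace Aux_sp1

/-- chain rule for a renaming of variables -/
theorem pderiv_rename {V : Type} [Fintype V] [DecidableEq V] (f : V → V) (v : V) (p : R V) :
    pderiv v (rename f p) =
      ∑ u, if f u = v then rename f (pderiv u p) else 0 := by
  induction p using MvPolynomial.induction_on with
  | C a => simp
  | add p q hp hq =>
    simp only [map_add, hp, hq]
    rw [← Finset.sum_add_distrib]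
    apply Finset.sum_congr rfl
    intro u _
    split_ifs <;> simp
  | mul_X p n hp =>
    rw [map_mul, rename_X, Derivation.leibniz, hp]
    have h1 : ∀ u : V, (if f u = v then rename f (pderiv u (p * X n)) else 0) =
        X (f n) * (if f u = v then rename f (pderiv u p) else 0) +
          rename f p * (if u = n then (if f n = v then 1 else 0) else 0) := by
      intro u
      by_cases hu : f u = v
      · rw [if_pos hu, if_pos hu, Derivation.leibniz, pderiv_X]
        by_cases hun : u = n
        · subst hun
          rw [if_pos rfl, if_pos hu, Pi.single_eq_same]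
          simp only [smul_eq_mul, map_add, map_mul, map_one, rename_X, mul_one]
          ring
        · rw [if_neg hun, Pi.single_eq_of_ne (fun h => hun h.symm)]
          simp only [smul_eq_mul, map_add, map_mul, map_zero, rename_X, mul_zero]
          ring
      · rw [if_neg hu, if_neg hu]
        by_cases hun : u = n
        · subst hun
          rw [if_pos rfl, if_neg hu]
          simp
        · rw [if_neg hun]
          simp
    rw [Finset.sum_congr rfl (fun u _ => h1 u), Finset.sum_add_distrib, ← Finset.mul_sum,
      ← Finset.mul_sum, Finset.sum_ite_eq' Finset.univ n]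
    rw [if_pos (Finset.mem_univ n), pderiv_X]
    simp only [smul_eq_mul]
    by_cases hn : f n = v
    · rw [if_pos hn, hn, Pi.single_eq_same]
      ring
    · rw [if_neg hn, Pi.single_eq_of_ne hn]
      ring

theorem pderiv_sg_zero {V : Type} [Fintype V] [DecidableEq V] (b b' : V) (Q : R V)
    (hQ : ∀ v, pderiv v Q = 0) (v : V) : pderiv v (sg b b' Q) = 0 := by
  unfold sg
  rw [pderiv_rename]
  apply Finset.sum_eq_zero
  intro u _
  rw [hQ u, map_zero, ite_self]

theorem xx_add_ne {V : Type} [DecidableEq V] {b b' : V} (h : b ≠ b') :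
    (xx b + xx b' : R V) ≠ 0 := by
  intro h0
  have h1 := congrArg (MvPolynomial.eval (fun v : V => if v = b then (1 : ZMod 2) else 0)) h0
  unfold xx at h1
  simp [h.symm] at h1

end Aux_sp1

open Aux_sp1 in
/-- O1. -/
theorem p_sp1 : S_dd → S_star → S_sp1 := by
  intro _ hstar V _ _ H b b' J hH hbb hb hb' hJ
  have hne : b ≠ b' := by
    rintro rfl
    exact hbb (hH.diag b)
  obtain ⟨Q, hQ, hQc, hcube, hgood, hdeg⟩ := hstar V H b b' J hH hbb hb hb' hJ
  refine ⟨sg b b' Q, ⟨hbb, hb, hb', hJ, Q, hQ, hQc, rfl⟩, pderiv_sg_zero b b' Q hQc, ?_,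
    hcube.1, hdeg⟩
  intro hc
  refine ⟨hgood hc, ?_⟩
  rw [hQ]
  refine mul_ne_zero (xx_add_ne hne) ?_
  rintro rfl
  exact hc (map_zero _)

end Pool.Agent.W390.SD
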